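import Mathlib
import Pool.Agent.LRT.H4

set_option autoImplicit false

/-!
# LRQ: the numbers `e(n,k)` for all `k ≤ n²/4` (`MP_f1b527_co`)

The functional `psi` for real row lengths: definitions and first facts.
-/

namespace Pool.Agent.LRQ

open Finset
open Pool.Agent.LRE Pool.Agent.LRT
open scoped NNReal

/-- recursion for `rpsi` -/
noncomputable def rpsiAux : ℕ → Multiset ℝ≥0 → ℝ
  | 0, _ => 1
  | k + 1, s => ((s.map fun x => rpsiAux k (s.erase x)).sum) / ((s.sup : ℝ) + ((k : ℝ) + 1))

/-- `psi` for real row lengths -/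
noncomputable def rpsi (s : Multiset ℝ≥0) : ℝ := rpsiAux s.card s

theorem rpsi_zero : rpsi 0 = 1 := by simp [rpsi, rpsiAux]

/-- the basic recursion -/
theorem rpsi_rec (s : Multiset ℝ≥0) :
    ((s.sup : ℝ) + s.card) * rpsi s = (s.map fun x => rpsi (s.erase x)).sum := by
  rcases Multiset.empty_or_exists_mem s with rfl | ⟨a, ha⟩
  · simp
  · obtain ⟨k, hk⟩ : ∃ k, s.card = k + 1 := by
      have := Multiset.card_pos_iff_exists_mem.mpr ⟨a, ha⟩
      exact ⟨s.card - 1, by omega⟩
    have h1 : rpsi s = ((s.map fun x => rpsi (s.erase x)).sum) / ((s.sup : ℝ) + ((k : ℝ) + 1)) := by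
      have h2 : (s.map fun x => rpsi (s.erase x)) = (s.map fun x => rpsiAux k (s.erase x)) := by
        apply Multiset.map_congr rfl
        intro x hx
        have h3 : (s.erase x).card = k := by
          rw [Multiset.card_erase_of_mem hx, hk]; rfl
        show rpsiAux (s.erase x).card (s.erase x) = rpsiAux k (s.erase x)
        rw [h3]
      rw [h2]
      show rpsiAux s.card s = _
      rw [hk]
      rfl
    have h4 : (0 : ℝ) < (s.sup : ℝ) + ((k : ℝ) + 1) := by positivity
    rw [h1, hk]
    push_cast
    field_simp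

theorem rpsi_eq {s : Multiset ℝ≥0} (hs : s ≠ 0) :
    rpsi s = (s.map fun x => rpsi (s.erase x)).sum / ((s.sup : ℝ) + s.card) := by
  have h : (0 : ℝ) < (s.sup : ℝ) + s.card := by
    have := Multiset.card_pos.mpr hs
    have h2 : (0 : ℝ) < s.card := by exact_mod_cast this
    positivity
  rw [eq_div_iff h.ne', mul_comm, rpsi_rec]

theorem rpsi_pos_aux : ∀ (n : ℕ) (s : Multiset ℝ≥0), s.card = n → 0 < rpsi s := by
  intro n
  induction n with
  | zero =>
    intro s hs
    rw [Multiset.card_eq_zero.1 hs, rpsi_zero]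
    exact zero_lt_one
  | succ n ih =>
    intro s hs
    have hs0 : s ≠ 0 := by
      rintro rfl
      simp at hs
    rw [rpsi_eq hs0]
    have hc : (0 : ℝ) < s.card := by
      exact_mod_cast Multiset.card_pos.2 hs0
    have hnum : 0 < (s.map fun x => rpsi (s.erase x)).sum := by
      have hpos : ∀ x ∈ s, 0 < rpsi (s.erase x) := by
        intro x hx
        apply ih
        rw [Multiset.card_erase_of_mem hx, hs]
        rfl
      obtain ⟨a, ha⟩ := Multiset.exists_mem_of_ne_zero hs0
      have h1 : rpsi (s.erase a) ≤ (s.map fun x => rpsi (s.erase x)).sum := by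
        apply Multiset.single_le_sum
        · intro y hy
          obtain ⟨x, hx, rfl⟩ := Multiset.mem_map.1 hy
          exact (hpos x hx).le
        · exact Multiset.mem_map_of_mem _ ha
      exact (hpos a ha).trans_le h1
    positivity

theorem rpsi_pos (s : Multiset ℝ≥0) : 0 < rpsi s := rpsi_pos_aux _ s rfl

/-- integer rows as real rows -/
noncomputable def cst (s : Multiset ℕ) : Multiset ℝ≥0 := s.map fun n : ℕ => (n : ℝ≥0)

theorem cst_card (s : Multiset ℕ) : (cst s).card = s.card := by
  unfold cst; rw [Multiset.card_map]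

theorem cst_add (s t : Multiset ℕ) : cst (s + t) = cst s + cst t := by
  unfold cst; rw [Multiset.map_add]

theorem cst_replicate (n c : ℕ) : cst (Multiset.replicate n c) = Multiset.replicate n (c : ℝ≥0) := by
  unfold cst; rw [Multiset.map_replicate]

theorem cst_singleton (c : ℕ) : cst {c} = {(c : ℝ≥0)} := by
  unfold cst; rw [Multiset.map_singleton]

theorem cst_sup (s : Multiset ℕ) : (cst s).sup = ((s.sup : ℕ) : ℝ≥0) := by
  unfold cst
  induction s using Multiset.induction with
  | empty => simp
  | cons a s ih =>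
    rw [Multiset.map_cons, Multiset.sup_cons, Multiset.sup_cons, ih]
    rcases le_total a s.sup with h | h
    · have h' : (a : ℝ≥0) ≤ (s.sup : ℕ) := by exact_mod_cast h
      rw [sup_eq_right.2 h, sup_eq_right.2 h']
    · have h' : ((s.sup : ℕ) : ℝ≥0) ≤ a := by exact_mod_cast h
      rw [sup_eq_left.2 h, sup_eq_left.2 h']

theorem cst_erase (s : Multiset ℕ) (x : ℕ) (hx : x ∈ s) : (cst s).erase (x : ℝ≥0) = cst (s.erase x) := by
  unfold cst
  exact (Multiset.map_erase_of_mem (fun n : ℕ => (n : ℝ≥0)) s hx).symm

theorem rpsi_cst_aux : ∀ (n : ℕ) (s : Multiset ℕ), s.card = n → rpsi (cst s) = psi s := by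
  intro n
  induction n with
  | zero =>
    intro s hs
    rw [Multiset.card_eq_zero.1 hs, psi_zero]
    unfold cst
    rw [Multiset.map_zero, rpsi_zero]
  | succ n ih =>
    intro s hs
    have hs0 : s ≠ 0 := by
      rintro rfl
      simp at hs
    have hs1 : cst s ≠ 0 := by
      rw [← Multiset.card_pos, cst_card, hs]
      omega
    rw [rpsi_eq hs1, psi_eq hs0, cst_card, cst_sup]
    congr 2
    · show ((s.map fun n : ℕ => (n : ℝ≥0)).map fun x => rpsi ((cst s).erase x)) = _
      rw [Multiset.map_map]
      apply Multiset.map_congr rfl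
      intro x hx
      show rpsi ((cst s).erase (x : ℝ≥0)) = psi (s.erase x)
      rw [cst_erase s x hx]
      apply ih
      rw [Multiset.card_erase_of_mem hx, hs]
      rfl

theorem rpsi_cst (s : Multiset ℕ) : rpsi (cst s) = psi s := rpsi_cst_aux _ s rfl

/-- three blocks of real rows -/
noncomputable def B3 (a c e : ℕ) (w W U : ℝ≥0) : Multiset ℝ≥0 :=
  Multiset.replicate a w + (Multiset.replicate c W + Multiset.replicate e U)

/-- uniform rows -/
theorem rpsi_rect (r : ℕ) (W : ℝ≥0) : rpsi (Multiset.replicate r W) = hh r (W : ℝ) := by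
  induction r with
  | zero => rw [Multiset.replicate_zero, rpsi_zero, hh_zero]
  | succ r ih =>
    have h := rpsi_rec (Multiset.replicate (r + 1) W)
    have hsup : (Multiset.replicate (r + 1) W).sup = W := by
      apply le_antisymm
      · rw [Multiset.sup_le]
        intro b hb
        rw [Multiset.eq_of_mem_replicate hb]
      · exact Multiset.le_sup (Multiset.mem_replicate.2 ⟨by omega, rfl⟩)
    rw [hsup, Multiset.card_replicate, Multiset.map_replicate, Multiset.sum_replicate,
      Multiset.replicate_succ, Multiset.erase_cons_head, ih, ← Multiset.replicate_succ,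
      nsmul_eq_mul] at h
    have h2 : (0 : ℝ) < (W : ℝ) + ((r + 1 : ℕ) : ℝ) := by positivity
    rw [hh_succ]
    push_cast at h h2
    field_simp
    linarith

end Pool.Agent.LRQ
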