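import Mathlib
import Pool.Agent.LRQ.Defs

set_option autoImplicit false

/-! # [LRQ-A2] log-convexity of `rpsi` on the sorted chamber -/

namespace Pool.Agent.LRQ

open Finset
open Pool.Agent.LRE Pool.Agent.LRT
open scoped NNReal

private theorem lrq2_greatest (S : Multiset (ℝ≥0 × ℝ≥0)) (h0 : S ≠ 0)
    (h : ∀ p ∈ S, ∀ q ∈ S, p ≤ q ∨ q ≤ p) : ∃ p0 ∈ S, ∀ q ∈ S, q ≤ p0 := by
  classical
  obtain ⟨a, ha⟩ := Multiset.exists_mem_of_ne_zero h0
  obtain ⟨p0, hp0, hmax⟩ := S.toFinset.exists_max_image (fun p => p.1 + p.2)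
    ⟨a, Multiset.mem_toFinset.2 ha⟩
  rw [Multiset.mem_toFinset] at hp0
  refine ⟨p0, hp0, fun q hq => ?_⟩
  rcases h q hq p0 hp0 with h1 | h1
  · exact h1
  · have h2 : q.1 + q.2 ≤ p0.1 + p0.2 := hmax q (Multiset.mem_toFinset.2 hq)
    constructor
    · exact le_of_add_le_add_right (h2.trans (add_le_add_right h1.2 p0.1))
    · exact le_of_add_le_add_left (h2.trans (add_le_add_left h1.1 p0.2))

private theorem lrq2_rec (S : Multiset (ℝ≥0 × ℝ≥0)) (f : ℝ≥0 × ℝ≥0 → ℝ≥0) (p0 : ℝ≥0 × ℝ≥0)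
    (h0 : p0 ∈ S) (hmax : ∀ q ∈ S, f q ≤ f p0) :
    ((f p0 : ℝ) + S.card) * rpsi (S.map f) = (S.map fun p => rpsi ((S.erase p).map f)).sum := by
  have h := rpsi_rec (S.map f)
  have hsup : (S.map f).sup = f p0 := by
    apply le_antisymm
    · rw [Multiset.sup_le]
      intro b hb
      obtain ⟨q, hq, rfl⟩ := Multiset.mem_map.1 hb
      exact hmax q hq
    · exact Multiset.le_sup (Multiset.mem_map_of_mem f h0)
  rw [hsup, Multiset.card_map, Multiset.map_map] at h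
  rw [h]
  congr 1
  apply Multiset.map_congr rfl
  intro p hp
  show rpsi ((S.map f).erase (f p)) = _
  rw [Multiset.map_erase_of_mem f S hp]

/-- Log-convexity, in a form that needs no Hölder inequality. `S` is a multiset of pairs `(x,y)` which
is a chain for the componentwise order. Induction on `n`. `n = 0`: `X^a Y^b ≤ a X + b Y`
(`Real.geom_mean_le_arith_mean2_weighted`). Step: put `mix p = a p.1 + b p.2`,
`N1 = sup(S.map fst) + (n+1)`, `N2 = sup(S.map snd) + (n+1)`. Because `S` is a nonempty finite chain it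
has a greatest element `p0` (e.g. take `p0` with `p0.1 + p0.2` maximal), so
`sup(S.map mix) = mix p0`, `sup(S.map fst) = p0.1`, `sup(S.map snd) = p0.2` and
`N := sup(S.map mix) + (n+1) = a N1 + b N2 ≥ N1^a N2^b` (as `a + b = 1`; AM-GM). By `rpsi_rec` and
`Multiset.map_erase_of_mem`, `N rpsi(S.map mix) = ∑_{p ∈ S} rpsi((S.erase p).map mix)`, similarly for
`fst`, `snd`. Hence
`X^a Y^b rpsi(S.map mix) = (X^a Y^b / N) ∑_p rpsi((S.erase p).map mix)
  ≤ (X/N1)^a (Y/N2)^b ∑_p … ≤ ∑_p [a (X/N1) rpsi((S.erase p).map fst) + b (Y/N2) rpsi((S.erase p).map snd)]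
  = a X rpsi(S.map fst) + b Y rpsi(S.map snd)` (induction hypothesis with `X/N1`, `Y/N2`). -/
theorem rpsi_pair (a b : ℝ≥0) (hab : a + b = 1) (n : ℕ) :
    ∀ S : Multiset (ℝ≥0 × ℝ≥0), S.card = n → (∀ p ∈ S, ∀ q ∈ S, p ≤ q ∨ q ≤ p) →
    ∀ X Y : ℝ, 0 < X → 0 < Y →
      X ^ (a : ℝ) * Y ^ (b : ℝ) * rpsi (S.map fun p => a * p.1 + b * p.2) ≤
        a * X * rpsi (S.map Prod.fst) + b * Y * rpsi (S.map Prod.snd) := by
  induction n with
  | zero =>
    intro S hS _ X Y hX hY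
    rw [Multiset.card_eq_zero.1 hS]
    simp only [Multiset.map_zero, rpsi_zero, mul_one]
    exact Real.geom_mean_le_arith_mean2_weighted a.2 b.2 hX.le hY.le (by exact_mod_cast hab)
  | succ n ih =>
    intro S hS hch X Y hX hY
    obtain ⟨p0, hp0, hmax⟩ := lrq2_greatest S (by rintro rfl; simp at hS) hch
    have hab' : (a : ℝ) + (b : ℝ) = 1 := by exact_mod_cast hab
    have r1 := lrq2_rec S Prod.fst p0 hp0 fun q hq => (hmax q hq).1
    have r2 := lrq2_rec S Prod.snd p0 hp0 fun q hq => (hmax q hq).2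
    have r3 := lrq2_rec S (fun p => a * p.1 + b * p.2) p0 hp0 fun q hq =>
      add_le_add (mul_le_mul_right (hmax q hq).1 a) (mul_le_mul_right (hmax q hq).2 b)
    have hc : (0 : ℝ) < (S.card : ℝ) := by
      rw [hS]
      positivity
    have hN1 : (0 : ℝ) < (p0.1 : ℝ) + S.card := by positivity
    have hN2 : (0 : ℝ) < (p0.2 : ℝ) + S.card := by positivity
    have hN : (((a * p0.1 + b * p0.2 : ℝ≥0)) : ℝ) + S.card =
        a * ((p0.1 : ℝ) + S.card) + b * ((p0.2 : ℝ) + S.card) := by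
      push_cast
      linear_combination (-(S.card : ℝ)) * hab'
    generalize hN1' : (p0.1 : ℝ) + S.card = N1 at *
    generalize hN2' : (p0.2 : ℝ) + S.card = N2 at *
    have hX' : 0 < X / N1 := div_pos hX hN1
    have hY' : 0 < Y / N2 := div_pos hY hN2
    have hgm : N1 ^ (a : ℝ) * N2 ^ (b : ℝ) ≤ a * N1 + b * N2 :=
      Real.geom_mean_le_arith_mean2_weighted a.2 b.2 hN1.le hN2.le hab'
    have hterm : ∀ p ∈ S, (X / N1) ^ (a : ℝ) * (Y / N2) ^ (b : ℝ) *
        rpsi ((S.erase p).map fun p => a * p.1 + b * p.2) ≤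
        a * (X / N1) * rpsi ((S.erase p).map Prod.fst) +
          b * (Y / N2) * rpsi ((S.erase p).map Prod.snd) := by
      intro p hp
      refine ih (S.erase p) (by rw [Multiset.card_erase_of_mem hp, hS]; rfl) ?_ _ _ hX' hY'
      intro q hq q' hq'
      exact hch q (Multiset.mem_of_mem_erase hq) q' (Multiset.mem_of_mem_erase hq')
    have hsum := Multiset.sum_map_le_sum_map _ _ hterm
    rw [Multiset.sum_map_add, Multiset.sum_map_mul_left, Multiset.sum_map_mul_left,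
      Multiset.sum_map_mul_left, ← r1, ← r2, ← r3, hN] at hsum
    have e1 : (a : ℝ) * (X / N1) * (N1 * rpsi (S.map Prod.fst)) =
        a * X * rpsi (S.map Prod.fst) := by
      field_simp
    have e2 : (b : ℝ) * (Y / N2) * (N2 * rpsi (S.map Prod.snd)) =
        b * Y * rpsi (S.map Prod.snd) := by
      field_simp
    rw [e1, e2] at hsum
    refine le_trans ?_ hsum
    have hpa : 0 < N1 ^ (a : ℝ) := Real.rpow_pos_of_pos hN1 _
    have hpb : 0 < N2 ^ (b : ℝ) := Real.rpow_pos_of_pos hN2 _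
    have hx : 0 < X ^ (a : ℝ) := Real.rpow_pos_of_pos hX _
    have hy : 0 < Y ^ (b : ℝ) := Real.rpow_pos_of_pos hY _
    have hr := rpsi_pos (S.map fun p => a * p.1 + b * p.2)
    rw [Real.div_rpow hX.le hN1.le, Real.div_rpow hY.le hN2.le]
    have e3 : X ^ (a : ℝ) / N1 ^ (a : ℝ) * (Y ^ (b : ℝ) / N2 ^ (b : ℝ)) *
        ((a * N1 + b * N2) * rpsi (S.map fun p => a * p.1 + b * p.2)) =
        X ^ (a : ℝ) * Y ^ (b : ℝ) * rpsi (S.map fun p => a * p.1 + b * p.2) *
          ((a * N1 + b * N2) / (N1 ^ (a : ℝ) * N2 ^ (b : ℝ))) := by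
      field_simp
    rw [e3]
    have h1 : 1 ≤ (a * N1 + b * N2) / (N1 ^ (a : ℝ) * N2 ^ (b : ℝ)) := by
      rw [one_le_div (mul_pos hpa hpb)]
      exact hgm
    exact le_mul_of_one_le_right (by positivity) h1

/-- `rpsi_pair` with `X = Y = 1`. -/
theorem rpsi_chord (a b : ℝ≥0) (hab : a + b = 1) (S : Multiset (ℝ≥0 × ℝ≥0))
    (hS : ∀ p ∈ S, ∀ q ∈ S, p ≤ q ∨ q ≤ p) :
    rpsi (S.map fun p => a * p.1 + b * p.2) ≤
      a * rpsi (S.map Prod.fst) + b * rpsi (S.map Prod.snd) := by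
  have h := rpsi_pair a b hab S.card S rfl hS 1 1 one_pos one_pos
  rw [Real.one_rpow, Real.one_rpow, one_mul, one_mul, mul_one, mul_one] at h
  exact h

/-- `rpsi_pair` with `X = 1/rpsi(S.map fst)`, `Y = 1/rpsi(S.map snd)`: the right side is `a + b = 1`,
so `rpsi(mix) ≤ rpsi(fst)^a rpsi(snd)^b ≤ max`. -/
theorem rpsi_quasi (a b : ℝ≥0) (hab : a + b = 1) (S : Multiset (ℝ≥0 × ℝ≥0))
    (hS : ∀ p ∈ S, ∀ q ∈ S, p ≤ q ∨ q ≤ p) :
    rpsi (S.map fun p => a * p.1 + b * p.2) ≤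
      max (rpsi (S.map Prod.fst)) (rpsi (S.map Prod.snd)) := by
  have hab' : (a : ℝ) + (b : ℝ) = 1 := by exact_mod_cast hab
  have h1 := rpsi_pos (S.map Prod.fst)
  have h2 := rpsi_pos (S.map Prod.snd)
  have h3 := rpsi_pos (S.map fun p => a * p.1 + b * p.2)
  have h := rpsi_pair a b hab S.card S rfl hS (1 / rpsi (S.map Prod.fst))
    (1 / rpsi (S.map Prod.snd)) (by positivity) (by positivity)
  generalize rpsi (S.map Prod.fst) = F1 at *
  generalize rpsi (S.map Prod.snd) = F2 at *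
  generalize rpsi (S.map fun p => a * p.1 + b * p.2) = F at *
  have e1 : (a : ℝ) * (1 / F1) * F1 + b * (1 / F2) * F2 = 1 := by
    rw [mul_assoc, mul_assoc, one_div_mul_cancel h1.ne', one_div_mul_cancel h2.ne', mul_one,
      mul_one, hab']
  rw [e1] at h
  have hM : 0 < max F1 F2 := lt_max_of_lt_left h1
  have g1 : (1 / max F1 F2) ^ (a : ℝ) ≤ (1 / F1) ^ (a : ℝ) :=
    Real.rpow_le_rpow (by positivity) (one_div_le_one_div_of_le h1 (le_max_left _ _)) a.2
  have g2 : (1 / max F1 F2) ^ (b : ℝ) ≤ (1 / F2) ^ (b : ℝ) :=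
    Real.rpow_le_rpow (by positivity) (one_div_le_one_div_of_le h2 (le_max_right _ _)) b.2
  have g3 : (1 / max F1 F2) ^ (a : ℝ) * (1 / max F1 F2) ^ (b : ℝ) = 1 / max F1 F2 := by
    rw [← Real.rpow_add (by positivity), hab', Real.rpow_one]
  have g4 : 1 / max F1 F2 ≤ (1 / F1) ^ (a : ℝ) * (1 / F2) ^ (b : ℝ) := by
    rw [← g3]
    exact mul_le_mul g1 g2 (by positivity) (by positivity)
  have g5 : 1 / max F1 F2 * F ≤ 1 := (mul_le_mul_of_nonneg_right g4 h3.le).trans h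
  rw [one_div, inv_mul_le_iff₀ hM, mul_one] at g5
  exact g5

end Pool.Agent.LRQ
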