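import Mathlib
import Pool.Agent.LRQ.A2

set_option autoImplicit false

/-! # [LRQ-A3] convexity for blocks of equal rows -/

namespace Pool.Agent.LRQ

open Finset
open Pool.Agent.LRE Pool.Agent.LRT
open scoped NNReal

/-- The multiset of pairs. -/
noncomputable def A3_S (P R : Multiset ℝ≥0) (c1 c2 : ℕ) (x1 x2 y1 y2 : ℝ≥0) :
    Multiset (ℝ≥0 × ℝ≥0) :=
  P.map (fun p => (p, p)) + (Multiset.replicate c1 (x1, y1) +
    (Multiset.replicate c2 (x2, y2) + R.map (fun r => (r, r))))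

theorem A3_chain (P R : Multiset ℝ≥0) (c1 c2 : ℕ)
    (x1 x2 y1 y2 : ℝ≥0) (hx : x2 ≤ x1) (hy : y2 ≤ y1) (hPx : ∀ p ∈ P, x1 ≤ p)
    (hPy : ∀ p ∈ P, y1 ≤ p) (hRx : ∀ r ∈ R, r ≤ x2) (hRy : ∀ r ∈ R, r ≤ y2) :
    ∀ u ∈ A3_S P R c1 c2 x1 x2 y1 y2, ∀ v ∈ A3_S P R c1 c2 x1 x2 y1 y2, u ≤ v ∨ v ≤ u := by
  have key : ∀ u ∈ A3_S P R c1 c2 x1 x2 y1 y2,
      (∃ p ∈ P, u = (p, p)) ∨ u = (x1, y1) ∨ u = (x2, y2) ∨ ∃ r ∈ R, u = (r, r) := by
    intro u hu
    unfold A3_S at hu
    rcases Multiset.mem_add.1 hu with h | h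
    · obtain ⟨p, hp, rfl⟩ := Multiset.mem_map.1 h
      exact Or.inl ⟨p, hp, rfl⟩
    rcases Multiset.mem_add.1 h with h | h
    · exact Or.inr (Or.inl (Multiset.eq_of_mem_replicate h))
    rcases Multiset.mem_add.1 h with h | h
    · exact Or.inr (Or.inr (Or.inl (Multiset.eq_of_mem_replicate h)))
    · obtain ⟨r, hr, rfl⟩ := Multiset.mem_map.1 h
      exact Or.inr (Or.inr (Or.inr ⟨r, hr, rfl⟩))
  intro u hu v hv
  rcases key u hu with ⟨p, hp, rfl⟩ | rfl | rfl | ⟨r, hr, rfl⟩ <;>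
    rcases key v hv with ⟨q, hq, rfl⟩ | rfl | rfl | ⟨t, ht, rfl⟩
  · rcases le_total p q with h | h
    · exact Or.inl ⟨h, h⟩
    · exact Or.inr ⟨h, h⟩
  · exact Or.inr ⟨hPx p hp, hPy p hp⟩
  · exact Or.inr ⟨hx.trans (hPx p hp), hy.trans (hPy p hp)⟩
  · exact Or.inr ⟨((hRx t ht).trans hx).trans (hPx p hp), ((hRy t ht).trans hy).trans (hPy p hp)⟩
  · exact Or.inl ⟨hPx q hq, hPy q hq⟩
  · exact Or.inl le_rfl
  · exact Or.inr ⟨hx, hy⟩
  · exact Or.inr ⟨(hRx t ht).trans hx, (hRy t ht).trans hy⟩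
  · exact Or.inl ⟨hx.trans (hPx q hq), hy.trans (hPy q hq)⟩
  · exact Or.inl ⟨hx, hy⟩
  · exact Or.inl le_rfl
  · exact Or.inr ⟨hRx t ht, hRy t ht⟩
  · exact Or.inl ⟨((hRx r hr).trans hx).trans (hPx q hq), ((hRy r hr).trans hy).trans (hPy q hq)⟩
  · exact Or.inl ⟨(hRx r hr).trans hx, (hRy r hr).trans hy⟩
  · exact Or.inl ⟨hRx r hr, hRy r hr⟩
  · rcases le_total r t with h | h
    · exact Or.inl ⟨h, h⟩
    · exact Or.inr ⟨h, h⟩

theorem A3_mix (a b : ℝ≥0) (hab : a + b = 1) (P R : Multiset ℝ≥0) (c1 c2 : ℕ)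
    (x1 x2 y1 y2 : ℝ≥0) :
    (A3_S P R c1 c2 x1 x2 y1 y2).map (fun p => a * p.1 + b * p.2) =
      P + (Multiset.replicate c1 (a * x1 + b * y1) +
        (Multiset.replicate c2 (a * x2 + b * y2) + R)) := by
  have h : ∀ T : Multiset ℝ≥0,
      (T.map fun p => (p, p)).map (fun p : ℝ≥0 × ℝ≥0 => a * p.1 + b * p.2) = T := by
    intro T
    rw [Multiset.map_map]
    conv_rhs => rw [← Multiset.map_id T]
    refine Multiset.map_congr rfl fun x _ => ?_
    show a * x + b * x = x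
    rw [← add_mul, hab, one_mul]
  unfold A3_S
  rw [Multiset.map_add, Multiset.map_add, Multiset.map_add, Multiset.map_replicate,
    Multiset.map_replicate, h, h]

theorem A3_fst (P R : Multiset ℝ≥0) (c1 c2 : ℕ) (x1 x2 y1 y2 : ℝ≥0) :
    (A3_S P R c1 c2 x1 x2 y1 y2).map Prod.fst =
      P + (Multiset.replicate c1 x1 + (Multiset.replicate c2 x2 + R)) := by
  have h : ∀ T : Multiset ℝ≥0, (T.map fun p => (p, p)).map Prod.fst = T := by
    intro T
    rw [Multiset.map_map]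
    exact Multiset.map_id T
  unfold A3_S
  rw [Multiset.map_add, Multiset.map_add, Multiset.map_add, Multiset.map_replicate,
    Multiset.map_replicate, h, h]

theorem A3_snd (P R : Multiset ℝ≥0) (c1 c2 : ℕ) (x1 x2 y1 y2 : ℝ≥0) :
    (A3_S P R c1 c2 x1 x2 y1 y2).map Prod.snd =
      P + (Multiset.replicate c1 y1 + (Multiset.replicate c2 y2 + R)) := by
  have h : ∀ T : Multiset ℝ≥0, (T.map fun p => (p, p)).map Prod.snd = T := by
    intro T
    rw [Multiset.map_map]
    exact Multiset.map_id T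
  unfold A3_S
  rw [Multiset.map_add, Multiset.map_add, Multiset.map_add, Multiset.map_replicate,
    Multiset.map_replicate, h, h]

theorem A3_rec (b : ℝ≥0) (s : Multiset ℝ≥0) :
    (((b ::ₘ s).sup : ℝ) + (s.card + 1)) * rpsi (b ::ₘ s) =
      rpsi s + (s.map fun x => rpsi (b ::ₘ s.erase x)).sum := by
  have h := rpsi_rec (b ::ₘ s)
  rw [Multiset.map_cons, Multiset.sum_cons, Multiset.erase_cons_head, Multiset.card_cons] at h
  push_cast at h
  rw [h]
  congr 2
  apply Multiset.map_congr rfl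
  intro x hx
  rw [Multiset.erase_cons_tail_of_mem hx]

theorem A3_cons_zero_aux :
    ∀ (n : ℕ) (s : Multiset ℝ≥0), s.card = n → rpsi (0 ::ₘ s) = rpsi s := by
  intro n
  induction n with
  | zero =>
    intro s hs
    rw [Multiset.card_eq_zero.1 hs]
    have h := A3_rec 0 0
    simp only [Multiset.sup_cons, Multiset.sup_zero, Multiset.card_zero, Multiset.map_zero,
      Multiset.sum_zero, add_zero] at h
    simpa using h
  | succ n ih =>
    intro s hs
    have h := A3_rec 0 s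
    have hsup : (0 ::ₘ s).sup = s.sup := by simp
    have h1 : (s.map fun x => rpsi (0 ::ₘ s.erase x)).sum =
        (s.map fun x => rpsi (s.erase x)).sum := by
      congr 1
      apply Multiset.map_congr rfl
      intro x hx
      apply ih
      rw [Multiset.card_erase_of_mem hx, hs]
      rfl
    rw [h1, ← rpsi_rec, hsup] at h
    have hpos : (0 : ℝ) < (s.sup : ℝ) + (s.card + 1) := by positivity
    apply mul_left_cancel₀ hpos.ne'
    rw [h]
    ring

theorem A3_zeros (n : ℕ) (s : Multiset ℝ≥0) : rpsi (s + Multiset.replicate n 0) = rpsi s := by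
  induction n with
  | zero => rw [Multiset.replicate_zero, add_zero]
  | succ n ih =>
    rw [Multiset.replicate_succ, Multiset.add_cons, A3_cons_zero_aux _ _ rfl, ih]

/-- `rpsi_quasi` with the multiset of pairs `P.map (p,p) + c1 · (x1,y1) + c2 · (x2,y2) + R.map (r,r)`,
which is a chain: `(r,r) ≤ (x2,y2) ≤ (x1,y1) ≤ (p,p)`, and `P`, `R` are linearly ordered
(`a p + b p = p`). -/
theorem quasi_blocks (a b : ℝ≥0) (hab : a + b = 1) (P R : Multiset ℝ≥0) (c1 c2 : ℕ)
    (x1 x2 y1 y2 : ℝ≥0) (hx : x2 ≤ x1) (hy : y2 ≤ y1) (hPx : ∀ p ∈ P, x1 ≤ p)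
    (hPy : ∀ p ∈ P, y1 ≤ p) (hRx : ∀ r ∈ R, r ≤ x2) (hRy : ∀ r ∈ R, r ≤ y2) :
    rpsi (P + (Multiset.replicate c1 (a * x1 + b * y1) +
        (Multiset.replicate c2 (a * x2 + b * y2) + R))) ≤
      max (rpsi (P + (Multiset.replicate c1 x1 + (Multiset.replicate c2 x2 + R))))
        (rpsi (P + (Multiset.replicate c1 y1 + (Multiset.replicate c2 y2 + R)))) := by
  have h := rpsi_quasi a b hab (A3_S P R c1 c2 x1 x2 y1 y2)
    (A3_chain P R c1 c2 x1 x2 y1 y2 hx hy hPx hPy hRx hRy)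
  rwa [A3_mix a b hab, A3_fst, A3_snd] at h

/-- The same with `rpsi_chord`. -/
theorem chord_blocks (a b : ℝ≥0) (hab : a + b = 1) (P R : Multiset ℝ≥0) (c1 c2 : ℕ)
    (x1 x2 y1 y2 : ℝ≥0) (hx : x2 ≤ x1) (hy : y2 ≤ y1) (hPx : ∀ p ∈ P, x1 ≤ p)
    (hPy : ∀ p ∈ P, y1 ≤ p) (hRx : ∀ r ∈ R, r ≤ x2) (hRy : ∀ r ∈ R, r ≤ y2) :
    rpsi (P + (Multiset.replicate c1 (a * x1 + b * y1) +
        (Multiset.replicate c2 (a * x2 + b * y2) + R))) ≤
      a * rpsi (P + (Multiset.replicate c1 x1 + (Multiset.replicate c2 x2 + R))) +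
        b * rpsi (P + (Multiset.replicate c1 y1 + (Multiset.replicate c2 y2 + R))) := by
  have h := rpsi_chord a b hab (A3_S P R c1 c2 x1 x2 y1 y2)
    (A3_chain P R c1 c2 x1 x2 y1 y2 hx hy hPx hPy hRx hRy)
  rwa [A3_mix a b hab, A3_fst, A3_snd] at h

/-- Elimination of the short rows. The rows `W^c, 1^e` (`1 ≤ W ≤ w`) with sum `S = c W + e` lie on the
segment between `(S/(c+e))^(c+e)` and `(S/c)^c, 0^e`; here `S/c ≤ w` is assumed. Precisely: put
`W1 = S/(c+e)`, `W2 = S/c`. If `e = 0` then `W2 = W` and there is nothing to prove. Otherwise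
`W1 ≥ 1` and with `a = 1/W1`, `b = 1 - a`: `a W1 + b 0 = 1` and `a W1 + b W2 = W`
(because `c (a W1 + b W2) + e = S` for this `a`: `c W1 a + S (1-a) + e = S`, i.e.
`a (S - c W1) = a e W1 = e`). `quasi_blocks` with `P = w^p`, `c1 = c`, `c2 = e`, `R = 0`,
`(x1,x2) = (W1,W1)`, `(y1,y2) = (W2,0)`; zero rows are harmless (`rpsi_zeros`, LRQ-A5; to avoid the
import it is proved here as `A3_zeros`, copy of `a1_cons_zero` in LRE/A1.lean).
`W1 ≤ W2 ≤ w`. -/
theorem elim_ones (w W : ℝ≥0) (p c e : ℕ) (hc : 1 ≤ c) (h1 : 1 ≤ W) (hW : W ≤ w)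
    (hS : ((c : ℝ≥0) * W + e) / c ≤ w) :
    rpsi (Multiset.replicate p w + (Multiset.replicate c W + Multiset.replicate e 1)) ≤
      max (rpsi (Multiset.replicate p w +
          Multiset.replicate (c + e) (((c : ℝ≥0) * W + e) / ((c : ℝ≥0) + e))))
        (rpsi (Multiset.replicate p w + Multiset.replicate c (((c : ℝ≥0) * W + e) / c))) := by
  have hc0 : (0 : ℝ≥0) < c := by exact_mod_cast hc
  rcases Nat.eq_zero_or_pos e with rfl | he
  · have h2 : ((c : ℝ≥0) * W + (0 : ℕ)) / c = W := by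
      rw [Nat.cast_zero, add_zero, mul_comm, mul_div_assoc, div_self hc0.ne', mul_one]
    rw [h2, Multiset.replicate_zero, add_zero]
    exact le_max_right _ _
  · have he0 : (0 : ℝ≥0) < e := by exact_mod_cast he
    have hce : (0 : ℝ≥0) < (c : ℝ≥0) + e := by positivity
    set S : ℝ≥0 := (c : ℝ≥0) * W + e with hSd
    have hS1 : (c : ℝ≥0) + e ≤ S := by
      rw [hSd]
      have : (c : ℝ≥0) * 1 ≤ c * W := mul_le_mul_right h1 _
      rw [mul_one] at this
      exact add_le_add this le_rfl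
    have hS0 : 0 < S := hce.trans_le hS1
    have hle : (S / ((c : ℝ≥0) + e)) ≤ S / c := by
      apply div_le_div_of_nonneg_left (zero_le) hc0
      exact le_self_add
    have hW1 : 1 ≤ S / ((c : ℝ≥0) + e) := by
      rw [le_div_iff₀ hce, one_mul]
      exact hS1
    have ha1 : ((c : ℝ≥0) + e) / S ≤ 1 := by
      rw [div_le_one hS0]
      exact hS1
    obtain ⟨b, hb⟩ := exists_add_of_le ha1
    have hab : ((c : ℝ≥0) + e) / S + b = 1 := hb.symm
    have e1 : ((c : ℝ≥0) + e) / S * (S / ((c : ℝ≥0) + e)) + b * 0 = 1 := by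
      rw [mul_zero, add_zero]
      field_simp
    have e2 : ((c : ℝ≥0) + e) / S * (S / ((c : ℝ≥0) + e)) + b * (S / c) = W := by
      have h3 : ((c : ℝ≥0) + e) / S * (S / ((c : ℝ≥0) + e)) = 1 := by field_simp
      have h4 : ((c : ℝ≥0) + e) + b * S = S := by
        have := congrArg (fun t => t * S) hab
        simp only [add_mul, one_mul] at this
        rw [div_mul_cancel₀ _ hS0.ne'] at this
        exact this
      have h5 : (c : ℝ≥0) + b * S = c * W := by
        have h6 : (c : ℝ≥0) + b * S + e = c * W + e := by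
          rw [← hSd, add_right_comm]
          exact h4
        exact add_right_cancel h6
      rw [h3]
      apply mul_left_cancel₀ hc0.ne'
      rw [mul_add, mul_one, ← h5]
      congr 1
      field_simp
    have h := quasi_blocks (((c : ℝ≥0) + e) / S) b hab (Multiset.replicate p w) 0 c e
      (S / ((c : ℝ≥0) + e)) (S / ((c : ℝ≥0) + e)) (S / c) 0 le_rfl (zero_le)
      (fun q hq => by rw [Multiset.eq_of_mem_replicate hq]; exact hle.trans hS)
      (fun q hq => by rw [Multiset.eq_of_mem_replicate hq]; exact hS)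
      (fun r hr => absurd hr (Multiset.notMem_zero r))
      (fun r hr => absurd hr (Multiset.notMem_zero r))
    rw [e1, e2, add_zero, add_zero, add_zero] at h
    rw [← add_assoc (Multiset.replicate p w) (Multiset.replicate c (S / (c : ℝ≥0)))
      (Multiset.replicate e 0), A3_zeros, ← Multiset.replicate_add] at h
    exact h

end Pool.Agent.LRQ
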