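import Mathlib
import Pool.Agent.LRQ.A3

set_option autoImplicit false

/-! # [LRQ-A4] the vertex principle -/

namespace Pool.Agent.LRQ

open Finset
open Pool.Agent.LRE Pool.Agent.LRT
open scoped NNReal

/-- the two end points of the segment -/
theorem A4_real (c c2 : ℝ) (hc : 1 ≤ c) (hc2 : 1 ≤ c2) (u v2 W w : ℝ) (h1 : u ≤ v2) (h2 : v2 ≤ W)
    (h3 : W ≤ w) :
    ∃ v y1 y2 α β : ℝ, 0 ≤ α ∧ 0 ≤ β ∧ α + β = 1 ∧ (c + c2) * v = c * W + c2 * v2 ∧
      c * y1 + c2 * y2 = c * W + c2 * v2 ∧ v2 ≤ v ∧ v ≤ W ∧ W ≤ y1 ∧ y1 ≤ w ∧ u ≤ y2 ∧ y2 ≤ v2 ∧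
      (y1 = w ∨ y2 = u) ∧ W = α * v + β * y1 ∧ v2 = α * v + β * y2 := by
  have hc0 : 0 < c := by linarith
  have hc20 : 0 < c2 := by linarith
  obtain ⟨y1, y2, e1, e2, e3, e4, e5, e6⟩ : ∃ y1 y2 : ℝ, c * y1 + c2 * y2 = c * W + c2 * v2 ∧
      W ≤ y1 ∧ y1 ≤ w ∧ u ≤ y2 ∧ y2 ≤ v2 ∧ (y1 = w ∨ y2 = u) := by
    by_cases h : c * (w - W) ≤ c2 * (v2 - u)
    · refine ⟨w, v2 - c * (w - W) / c2, ?_, h3, le_rfl, ?_, ?_, Or.inl rfl⟩
      · field_simp
        ring
      · have h4 : c * (w - W) / c2 ≤ v2 - u := by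
          rw [div_le_iff₀ hc20]
          linarith
        linarith
      · have h4 : 0 ≤ c * (w - W) / c2 := div_nonneg (mul_nonneg hc0.le (by linarith)) hc20.le
        linarith
    · push Not at h
      refine ⟨W + c2 * (v2 - u) / c, u, ?_, ?_, ?_, le_rfl, h1, Or.inr rfl⟩
      · field_simp
        ring
      · have h4 : 0 ≤ c2 * (v2 - u) / c := div_nonneg (mul_nonneg hc20.le (by linarith)) hc0.le
        linarith
      · have h4 : c2 * (v2 - u) / c ≤ w - W := by
          rw [div_le_iff₀ hc0]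
          linarith
        linarith
  obtain ⟨v, hv⟩ : ∃ v : ℝ, v = (c * W + c2 * v2) / (c + c2) := ⟨_, rfl⟩
  have hcc : 0 < c + c2 := by linarith
  have hv1 : (c + c2) * v = c * W + c2 * v2 := by
    rw [hv]
    field_simp
  have hv2 : v2 ≤ v := by
    rw [hv, le_div_iff₀ hcc]
    nlinarith
  have hv3 : v ≤ W := by
    rw [hv, div_le_iff₀ hcc]
    nlinarith
  by_cases hy : y1 = v
  · have hW : W = v := le_antisymm (by linarith) hv3
    have hvv : v2 = v := by
      have h5 : c2 * v2 = c2 * v := by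
        rw [hW] at hv1
        linarith
      exact mul_left_cancel₀ hc20.ne' h5
    refine ⟨v, y1, y2, 1, 0, zero_le_one, le_rfl, by ring, hv1, e1, hv2, hv3, e2, e3, e4, e5, e6,
      ?_, ?_⟩
    · rw [hW]
      ring
    · rw [hvv]
      ring
  · have hyv : 0 < y1 - v := lt_of_le_of_ne (by linarith) (fun h => hy (by linarith))
    obtain ⟨β, hβ⟩ : ∃ β : ℝ, β = (W - v) / (y1 - v) := ⟨_, rfl⟩
    have hβ0 : 0 ≤ β := by
      rw [hβ]
      exact div_nonneg (by linarith) hyv.le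
    have hβ1 : β ≤ 1 := by
      rw [hβ, div_le_one hyv]
      linarith
    have hβ2 : β * (y1 - v) = W - v := by
      rw [hβ]
      field_simp
    have hW : W = (1 - β) * v + β * y1 := by linarith
    refine ⟨v, y1, y2, 1 - β, β, by linarith, hβ0, by ring, hv1, e1, hv2, hv3, e2, e3, e4, e5, e6,
      hW, ?_⟩
    have h5 : c2 * v2 = c2 * ((1 - β) * v + β * y2) := by
      have h6 : c2 * y2 = c * W + c2 * v2 - c * y1 := by linarith
      have h7 : c2 * v = c * W + c2 * v2 - c * v := by linarith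
      have h8 : c2 * ((1 - β) * v + β * y2) = (1 - β) * (c2 * v) + β * (c2 * y2) := by ring
      rw [h8, h6, h7]
      have h9 : c * W = c * ((1 - β) * v + β * y1) := by rw [← hW]
      linear_combination -h9
    exact mul_left_cancel₀ hc20.ne' h5

theorem A4_nn (c c2 : ℕ) (hc : 1 ≤ c) (hc2 : 1 ≤ c2) (u v2 W w : ℝ≥0) (h1 : u ≤ v2) (h2 : v2 ≤ W)
    (h3 : W ≤ w) :
    ∃ v y1 y2 α β : ℝ≥0, α + β = 1 ∧ ((c + c2 : ℕ) : ℝ≥0) * v = c * W + c2 * v2 ∧
      (c : ℝ≥0) * y1 + c2 * y2 = c * W + c2 * v2 ∧ v2 ≤ v ∧ v ≤ W ∧ W ≤ y1 ∧ y1 ≤ w ∧ u ≤ y2 ∧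
      y2 ≤ v2 ∧ (y1 = w ∨ y2 = u) ∧ W = α * v + β * y1 ∧ v2 = α * v + β * y2 := by
  obtain ⟨v, y1, y2, α, β, g1, g2, g3, g4, g5, g6, g7, g8, g9, g10, g11, g12, g13, g14⟩ :=
    A4_real (c : ℝ) (c2 : ℝ) (by exact_mod_cast hc) (by exact_mod_cast hc2) u v2 W w
      (by exact_mod_cast h1) (by exact_mod_cast h2) (by exact_mod_cast h3)
  have hv : 0 ≤ v := v2.2.trans g6
  have hy1 : 0 ≤ y1 := W.2.trans g8
  have hy2 : 0 ≤ y2 := u.2.trans g10
  lift v to ℝ≥0 using hv
  lift y1 to ℝ≥0 using hy1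
  lift y2 to ℝ≥0 using hy2
  lift α to ℝ≥0 using g1
  lift β to ℝ≥0 using g2
  exact ⟨v, y1, y2, α, β, by exact_mod_cast g3, by exact_mod_cast g4, by exact_mod_cast g5,
    by exact_mod_cast g6, by exact_mod_cast g7, by exact_mod_cast g8, by exact_mod_cast g9,
    by exact_mod_cast g10, by exact_mod_cast g11, by exact_mod_cast g12, by exact_mod_cast g13,
    by exact_mod_cast g14⟩

/-- the rows of a list of blocks -/
noncomputable def A4_ms (L : List (ℕ × ℝ≥0)) : Multiset ℝ≥0 :=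
  (L.map fun p => Multiset.replicate p.1 p.2).sum

theorem A4_ms_nil : A4_ms [] = 0 := rfl

theorem A4_ms_cons (c : ℕ) (v : ℝ≥0) (L : List (ℕ × ℝ≥0)) :
    A4_ms ((c, v) :: L) = Multiset.replicate c v + A4_ms L := by
  rw [A4_ms, List.map_cons, List.sum_cons, A4_ms]

theorem A4_mem {L : List (ℕ × ℝ≥0)} {x : ℝ≥0} (h : x ∈ A4_ms L) : ∃ p ∈ L, p.2 = x := by
  induction L with
  | nil => exact absurd h (Multiset.notMem_zero x)
  | cons p L ih =>
    rw [A4_ms_cons, Multiset.mem_add] at h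
    rcases h with h | h
    · exact ⟨p, List.mem_cons_self, (Multiset.eq_of_mem_replicate h).symm⟩
    · obtain ⟨q, hq, hq'⟩ := ih h
      exact ⟨q, List.mem_cons_of_mem _ hq, hq'⟩

/-- the conclusion of the vertex principle -/
def A4_P (w l : ℝ≥0) (a₀ : ℕ) (s : Multiset ℝ≥0) : Prop :=
  ∃ (a c e : ℕ) (W : ℝ≥0), a + c + e = s.card ∧ a₀ ≤ a ∧ l ≤ W ∧ W ≤ w ∧
    (a : ℝ≥0) * w + c * W + e * l = s.sum ∧
    rpsi s ≤ rpsi (Multiset.replicate a w + (Multiset.replicate c W + Multiset.replicate e l))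

theorem A4_mono {w l : ℝ≥0} {a₀ a₁ : ℕ} {s t : Multiset ℝ≥0} (h : A4_P w l a₁ t) (ha : a₀ ≤ a₁)
    (hc : t.card = s.card) (hs : t.sum = s.sum) (hr : rpsi s ≤ rpsi t) : A4_P w l a₀ s := by
  obtain ⟨a, c, e, W, h1, h2, h3, h4, h5, h6⟩ := h
  exact ⟨a, c, e, W, h1.trans hc, ha.trans h2, h3, h4, h5.trans hs, hr.trans h6⟩

theorem A4_claim (w l : ℝ≥0) : ∀ (n : ℕ) (L : List (ℕ × ℝ≥0)), L.length = n →
    (L.Pairwise fun p q => q.2 ≤ p.2) → ∀ (a c : ℕ) (W : ℝ≥0), l ≤ W → W ≤ w →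
    (∀ p ∈ L, l ≤ p.2 ∧ p.2 ≤ W) →
    A4_P w l a (Multiset.replicate a w + (Multiset.replicate c W + A4_ms L)) := by
  intro n
  induction n with
  | zero =>
    intro L hL _ a c W hlW hWw _
    rw [List.length_eq_zero_iff.1 hL, A4_ms_nil]
    refine ⟨a, c, 0, W, ?_, le_rfl, hlW, hWw, ?_, ?_⟩
    · simp
    · simp
    · simp
  | succ n ih =>
    intro L hL hp a c W hlW hWw hb
    obtain ⟨⟨c2, v2⟩, L', rfl⟩ := List.exists_cons_of_length_eq_add_one hL
    have hL' : L'.length = n := by simpa using hL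
    rw [List.pairwise_cons] at hp
    obtain ⟨hp1, hp2⟩ := hp
    have hv2 : l ≤ v2 ∧ v2 ≤ W := hb (c2, v2) List.mem_cons_self
    have hb' : ∀ p ∈ L', l ≤ p.2 ∧ p.2 ≤ v2 := fun p hp =>
      ⟨(hb p (List.mem_cons_of_mem _ hp)).1, hp1 p hp⟩
    rw [A4_ms_cons]
    rcases Nat.eq_zero_or_pos c with rfl | hc
    · have h1 := ih L' hL' hp2 a c2 v2 hv2.1 (hv2.2.trans hWw) hb'
      rwa [Multiset.replicate_zero, zero_add]
    rcases Nat.eq_zero_or_pos c2 with rfl | hc2
    · have h1 := ih L' hL' hp2 a c W hlW hWw fun p hp => ⟨(hb' p hp).1, (hb' p hp).2.trans hv2.2⟩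
      rwa [Multiset.replicate_zero, zero_add]
    -- the next value
    obtain ⟨u, hu1, hu2, hu3, hu4⟩ : ∃ u, l ≤ u ∧ u ≤ v2 ∧ (∀ p ∈ L', p.2 ≤ u) ∧
        ∀ y1, u ≤ y1 → y1 ≤ w → A4_P w l a (Multiset.replicate a w +
          (Multiset.replicate c y1 + (Multiset.replicate c2 u + A4_ms L'))) := by
      rcases L' with _ | ⟨⟨c3, u⟩, L''⟩
      · refine ⟨l, le_rfl, hv2.1, fun p hp => absurd hp List.not_mem_nil, fun y1 h1 h2 => ?_⟩
        refine ⟨a, c, c2, y1, ?_, le_rfl, h1, h2, ?_, ?_⟩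
        · simp [A4_ms_nil]
          ring
        · simp [A4_ms_nil]
          ring
        · simp [A4_ms_nil]
      · rw [List.pairwise_cons] at hp2
        refine ⟨u, (hb' (c3, u) List.mem_cons_self).1, (hb' (c3, u) List.mem_cons_self).2,
          fun p hp => ?_, fun y1 h1 h2 => ?_⟩
        · rcases List.mem_cons.1 hp with rfl | hp
          · exact le_rfl
          · exact hp2.1 p hp
        · have h3 := ih ((c2 + c3, u) :: L'') (by simpa using hL')
            (List.pairwise_cons.2 ⟨hp2.1, hp2.2⟩) a c y1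
            ((hb' (c3, u) List.mem_cons_self).1.trans h1) h2 fun p hp => by
              rcases List.mem_cons.1 hp with rfl | hp
              · exact ⟨(hb' (c3, u) List.mem_cons_self).1, h1⟩
              · exact ⟨(hb' p (List.mem_cons_of_mem _ hp)).1, (hp2.1 p hp).trans h1⟩
          rw [A4_ms_cons] at h3
          rw [A4_ms_cons, ← add_assoc (Multiset.replicate c2 u), ← Multiset.replicate_add]
          exact h3
    obtain ⟨v, y1, y2, α, β, g3, g4, g5, g6, g7, g8, g9, g10, g11, g12, g13, g14⟩ :=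
      A4_nn c c2 hc hc2 u v2 W w hu2 hv2.2 hWw
    have hPx : ∀ p ∈ Multiset.replicate a w, v ≤ p := fun p hp => by
      rw [Multiset.eq_of_mem_replicate hp]
      exact g7.trans hWw
    have hPy : ∀ p ∈ Multiset.replicate a w, y1 ≤ p := fun p hp => by
      rw [Multiset.eq_of_mem_replicate hp]
      exact g9
    have hR : ∀ r ∈ A4_ms L', r ≤ u := fun r hr => by
      obtain ⟨p, hp, rfl⟩ := A4_mem hr
      exact hu3 p hp
    have hq := quasi_blocks α β g3 (Multiset.replicate a w) (A4_ms L') c c2 v v y1 y2 le_rfl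
      (g11.trans (g6.trans (g7.trans g8))) hPx hPy
      (fun r hr => (hR r hr).trans (hu2.trans g6)) (fun r hr => (hR r hr).trans g10)
    rw [← g13, ← g14] at hq
    rcases le_max_iff.1 hq with hq | hq
    · have h1 := ih L' hL' hp2 a (c + c2) v (hv2.1.trans g6) (g7.trans hWw) fun p hp =>
        ⟨(hb' p hp).1, (hb' p hp).2.trans g6⟩
      refine A4_mono h1 le_rfl ?_ ?_ ?_
      · simp
        ring
      · simp only [Multiset.sum_add, Multiset.sum_replicate, nsmul_eq_mul]
        rw [g4]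
        ring
      · rw [Multiset.replicate_add, add_assoc (Multiset.replicate c v)]
        exact hq
    · have hcard : (Multiset.replicate a w + (Multiset.replicate c y1 +
          (Multiset.replicate c2 y2 + A4_ms L'))).card = (Multiset.replicate a w +
          (Multiset.replicate c W + (Multiset.replicate c2 v2 + A4_ms L'))).card := by simp
      have hsum : (Multiset.replicate a w + (Multiset.replicate c y1 +
          (Multiset.replicate c2 y2 + A4_ms L'))).sum = (Multiset.replicate a w +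
          (Multiset.replicate c W + (Multiset.replicate c2 v2 + A4_ms L'))).sum := by
        simp only [Multiset.sum_add, Multiset.sum_replicate, nsmul_eq_mul]
        rw [← add_assoc ((c : ℝ≥0) * y1), g5, add_assoc]
      rcases g12 with rfl | rfl
      · have h1 := ih L' hL' hp2 (a + c) c2 y2 (hu1.trans g10) (g11.trans (hv2.2.trans hWw))
          fun p hp => ⟨(hb' p hp).1, (hu3 p hp).trans g10⟩
        rw [Multiset.replicate_add, add_assoc (Multiset.replicate a y1)] at h1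
        exact A4_mono h1 (Nat.le_add_right a c) hcard hsum hq
      · exact A4_mono (hu4 y1 (hu2.trans (hv2.2.trans g8)) g9) le_rfl hcard hsum hq

theorem A4_ms_map (L : List ℝ≥0) : A4_ms (L.map fun x => (1, x)) = (L : Multiset ℝ≥0) := by
  induction L with
  | nil => rfl
  | cons x L ih =>
    rw [List.map_cons, A4_ms_cons, ih, Multiset.replicate_one, Multiset.singleton_add,
      Multiset.cons_coe]

/-- Vertex principle: a sorted shape with rows in `[l,w]` is dominated by a shape with the same number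
of rows and the same sum whose rows are `w`, one further value `W`, and `l`.
Strong induction on `N(s)` = number of distinct values of `s` in the open interval `(l,w)`
(`((s.filter (fun x => l < x ∧ x < w)).toFinset).card`). If `l = w` all rows are `w` (`a = s.card`).
`N = 0`: `a = count w`, `e = count l`, `c = 0`, `W = w`. `N = 1`: `W` = the value, `c` its count.
`N ≥ 2`: let `v1` be the greatest value in `(l,w)`, `v2` the greatest value `< v1` in `(l,w)`,
`c1, c2 ≥ 1` their counts, `s = P + c1·v1 + c2·v2 + R`, `P = w^{count w}`, all rows of `R` are `< v2`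
(and `≥ l`); `u := max(l, R.sup) < v2` (if `R = 0`, `u = l`). Two end points with the same sum:
* `E1`: both blocks get the value `v = (c1 v1 + c2 v2)/(c1+c2)`, `v2 ≤ v ≤ v1`;
* `E2`: `y1 = v1 + t/c1`, `y2 = v2 - t/c2` with `t = min (c1 (w - v1)) (c2 (v2 - u)) > 0`: then
  `y1 = w` or `y2 = u`, `v1 ≤ y1 ≤ w`, `u ≤ y2 ≤ v2`.
`(v1,v2)` is a convex combination of `(v,v)` and `(y1,y2)` (all three have the same
`c1·first + c2·second`; `b = (v1 - v)/(y1 - v)`, `a = 1 - b`). By `quasi_blocks`,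
`rpsi s ≤ rpsi(E1)` or `rpsi s ≤ rpsi(E2)`; both end points have card, sum as `s`, rows in `[l,w]`, at
least as many rows `w`, and strictly fewer distinct values in `(l,w)` (in `E1` the values `v1, v2` are
replaced by `v`; in `E2` one of them reached `w` or the old value `u`). Apply the induction
hypothesis to the better end point. -/
theorem vertex (w l : ℝ≥0) (hlw : l ≤ w) (s : Multiset ℝ≥0) (hs : ∀ x ∈ s, l ≤ x ∧ x ≤ w) :
    ∃ (a c e : ℕ) (W : ℝ≥0), a + c + e = s.card ∧ s.count w ≤ a ∧ l ≤ W ∧ W ≤ w ∧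
      (a : ℝ≥0) * w + c * W + e * l = s.sum ∧
      rpsi s ≤ rpsi (Multiset.replicate a w + (Multiset.replicate c W + Multiset.replicate e l)) := by
  classical
  have h1 : Multiset.replicate (s.count w) w + s.filter (fun x => ¬ x = w) = s := by
    rw [← Multiset.filter_eq', Multiset.filter_add_not]
  obtain ⟨L, hL⟩ : ∃ L : List ℝ≥0, L = (s.filter (fun x => ¬ x = w)).sort (· ≥ ·) := ⟨_, rfl⟩
  have hLs : (L : Multiset ℝ≥0) = s.filter (fun x => ¬ x = w) := by
    rw [hL, Multiset.sort_eq]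
  have hLp : L.Pairwise (· ≥ ·) := by
    rw [hL]
    exact Multiset.pairwise_sort _ _
  have h2 := A4_claim w l _ (L.map fun x => (1, x)) rfl
    (List.pairwise_map.2 (hLp.imp fun h => h)) (s.count w) 0 w hlw le_rfl fun p hp => by
      obtain ⟨x, hx, rfl⟩ := List.mem_map.1 hp
      have h3 : x ∈ (L : Multiset ℝ≥0) := hx
      rw [hLs, Multiset.mem_filter] at h3
      exact hs x h3.1
  rw [A4_ms_map, hLs, Multiset.replicate_zero, zero_add, h1] at h2
  exact h2

end Pool.Agent.LRQ
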