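import Mathlib
import Pool.Agent.LRQ.Defs
import Pool.Agent.LRT.C1

set_option autoImplicit false

/-! # [LRQ-A5] monotonicity of `rpsi`, and the two context inequalities -/

namespace Pool.Agent.LRQ

open Finset
open Pool.Agent.LRE Pool.Agent.LRT
open scoped NNReal

theorem a5_rec (b : ℝ≥0) (s : Multiset ℝ≥0) :
    (((b ::ₘ s).sup : ℝ) + (s.card + 1)) * rpsi (b ::ₘ s) =
      rpsi s + (s.map fun x => rpsi (b ::ₘ s.erase x)).sum := by
  have h := rpsi_rec (b ::ₘ s)
  rw [Multiset.map_cons, Multiset.sum_cons, Multiset.erase_cons_head, Multiset.card_cons] at h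
  push_cast at h
  rw [h]
  congr 2
  apply Multiset.map_congr rfl
  intro x hx
  rw [Multiset.erase_cons_tail_of_mem hx]

theorem a5_sup_single (a : ℝ≥0) : ((a ::ₘ (0 : Multiset ℝ≥0)).sup : ℝ≥0) = a := by
  rw [Multiset.sup_cons, Multiset.sup_zero]
  exact sup_bot_eq a

theorem a5_cons_zero : ∀ (n : ℕ) (s : Multiset ℝ≥0), s.card = n → rpsi (0 ::ₘ s) = rpsi s := by
  intro n
  induction n with
  | zero =>
    intro s hs
    rw [Multiset.card_eq_zero.1 hs]
    have h := a5_rec 0 0
    rw [a5_sup_single] at h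
    simp only [Multiset.card_zero, Multiset.map_zero, Multiset.sum_zero, add_zero] at h
    simpa using h
  | succ n ih =>
    intro s hs
    have h := a5_rec 0 s
    have hsup : (0 ::ₘ s).sup = s.sup := by
      rw [Multiset.sup_cons]
      exact sup_eq_right.2 zero_le
    have h1 : (s.map fun x => rpsi (0 ::ₘ s.erase x)).sum = (s.map fun x => rpsi (s.erase x)).sum := by
      congr 1
      apply Multiset.map_congr rfl
      intro x hx
      apply ih
      rw [Multiset.card_erase_of_mem hx, hs]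
      rfl
    rw [h1, ← rpsi_rec, hsup] at h
    have hpos : (0 : ℝ) < (s.sup : ℝ) + (s.card + 1) := by positivity
    apply mul_left_cancel₀ hpos.ne'
    rw [h]
    ring

theorem a5_cons_le : ∀ (n : ℕ) (s : Multiset ℝ≥0), s.card = n → ∀ a b : ℝ≥0, a ≤ b →
    rpsi (b ::ₘ s) ≤ rpsi (a ::ₘ s) := by
  intro n
  induction n with
  | zero =>
    intro s hs a b hab
    rw [Multiset.card_eq_zero.1 hs]
    have ha := a5_rec a 0
    have hb := a5_rec b 0
    rw [a5_sup_single] at ha hb
    simp only [Multiset.card_zero, Multiset.map_zero, Multiset.sum_zero, add_zero] at ha hb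
    rw [rpsi_zero] at ha hb
    have hpa := rpsi_pos (a ::ₘ 0)
    have hpb := rpsi_pos (b ::ₘ 0)
    have hab' : (a : ℝ) ≤ b := by exact_mod_cast hab
    push_cast at ha hb
    have h1 : ((b : ℝ) + (0 + 1)) * rpsi (b ::ₘ 0) ≤ ((b : ℝ) + (0 + 1)) * rpsi (a ::ₘ 0) := by
      rw [hb, ← ha]
      apply mul_le_mul_of_nonneg_right _ hpa.le
      linarith
    exact le_of_mul_le_mul_left h1 (by positivity)
  | succ n ih =>
    intro s hs a b hab
    have ha := a5_rec a s
    have hb := a5_rec b s
    have h1 : (s.map fun x => rpsi (b ::ₘ s.erase x)).sum ≤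
        (s.map fun x => rpsi (a ::ₘ s.erase x)).sum := by
      apply Multiset.sum_map_le_sum_map
      intro x hx
      apply ih _ _ _ _ hab
      rw [Multiset.card_erase_of_mem hx, hs]
      rfl
    have h2 : (((a ::ₘ s).sup : ℝ≥0) : ℝ) ≤ (((b ::ₘ s).sup : ℝ≥0) : ℝ) := by
      have : (a ::ₘ s).sup ≤ (b ::ₘ s).sup := by
        rw [Multiset.sup_cons, Multiset.sup_cons]
        exact sup_le_sup_right hab _
      exact_mod_cast this
    have hpa := rpsi_pos (a ::ₘ s)
    have h3 : (((b ::ₘ s).sup : ℝ) + (s.card + 1)) * rpsi (b ::ₘ s) ≤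
        (((b ::ₘ s).sup : ℝ) + (s.card + 1)) * rpsi (a ::ₘ s) := by
      calc (((b ::ₘ s).sup : ℝ) + (s.card + 1)) * rpsi (b ::ₘ s)
          ≤ (((a ::ₘ s).sup : ℝ) + (s.card + 1)) * rpsi (a ::ₘ s) := by
            rw [ha, hb]
            linarith
        _ ≤ _ := by
            apply mul_le_mul_of_nonneg_right _ hpa.le
            linarith
    exact le_of_mul_le_mul_left h3 (by positivity)

/-- Copy of `psi_cons_zero` (LRE/A1.lean, `a1_rec`, `a1_cons_zero`) with `ℝ≥0` for `ℕ`
(`(0 ::ₘ s).sup = s.sup`). -/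
theorem rpsi_cons_zero (s : Multiset ℝ≥0) : rpsi (0 ::ₘ s) = rpsi s := a5_cons_zero _ s rfl

theorem rpsi_zeros (n : ℕ) (s : Multiset ℝ≥0) : rpsi (s + Multiset.replicate n 0) = rpsi s := by
  induction n with
  | zero => simp
  | succ n ih => rw [Multiset.replicate_succ, Multiset.add_cons, rpsi_cons_zero, ih]

/-- Copy of `psi_cons_le` (LRE/A1.lean, `a1_cons_le`). -/
theorem rpsi_cons_le {a b : ℝ≥0} (h : a ≤ b) (s : Multiset ℝ≥0) :
    rpsi (b ::ₘ s) ≤ rpsi (a ::ₘ s) := a5_cons_le _ s rfl a b h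

/-- Copy of `psi_add_le` (LRE/A1.lean). -/
theorem rpsi_add_le (s t : Multiset ℝ≥0) : rpsi (s + t) ≤ rpsi s := by
  induction t using Multiset.induction with
  | empty => rw [add_zero]
  | cons a t ih =>
    rw [Multiset.add_cons]
    exact ((rpsi_cons_le (a := 0) zero_le _).trans (rpsi_cons_zero _).le).trans ih

theorem a5c_erase_rep (L : ℝ≥0) (j : ℕ) (ν : Multiset ℝ≥0) :
    (ν + Multiset.replicate (j + 1) L).erase L = ν + Multiset.replicate j L := by
  rw [Multiset.replicate_succ, Multiset.add_cons, Multiset.erase_cons_head]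

theorem a5c_sup (L : ℝ≥0) (j : ℕ) (ν : Multiset ℝ≥0) (hν : ∀ x ∈ ν, L ≤ x) (h0 : ν ≠ 0) :
    (ν + Multiset.replicate j L).sup = ν.sup := by
  rw [Multiset.sup_add]
  apply sup_eq_left.2
  rw [Multiset.sup_le]
  intro b hb
  rw [Multiset.eq_of_mem_replicate hb]
  obtain ⟨a, ha⟩ := Multiset.exists_mem_of_ne_zero h0
  exact (hν a ha).trans (Multiset.le_sup ha)

theorem a5c_rec (L : ℝ≥0) (j : ℕ) (ν : Multiset ℝ≥0) (hν : ∀ x ∈ ν, L ≤ x) (h0 : ν ≠ 0) :
    ((ν.sup : ℝ) + ν.card + j) * rpsi (ν + Multiset.replicate j L) =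
      (j : ℝ) * rpsi (ν + Multiset.replicate (j - 1) L) +
        (ν.map fun z => rpsi (ν.erase z + Multiset.replicate j L)).sum := by
  have h1 := rpsi_rec (ν + Multiset.replicate j L)
  rw [a5c_sup L j ν hν h0, Multiset.card_add, Multiset.card_replicate, Multiset.map_add,
    Multiset.sum_add] at h1
  push_cast at h1
  rw [← add_assoc] at h1
  rw [h1, add_comm]
  congr 1
  · rcases j with _ | j
    · simp
    · rw [Multiset.map_replicate, Multiset.sum_replicate, a5c_erase_rep, nsmul_eq_mul,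
        Nat.add_sub_cancel]
  · congr 1
    apply Multiset.map_congr rfl
    intro z hz
    rw [Multiset.erase_add_left_pos _ hz]

theorem a5c_aux1 (L : ℝ≥0) (n : ℕ) : ∀ ν : Multiset ℝ≥0, ν.card = n → (∀ x ∈ ν, L ≤ x) → ∀ j : ℕ,
    ((j : ℝ) + 1) * rpsi (ν + Multiset.replicate j L) ≤
      ((L : ℝ) + j + 1) * rpsi (ν + Multiset.replicate (j + 1) L) := by
  induction n with
  | zero =>
    intro ν hn _ j
    rw [Multiset.card_eq_zero.1 hn, zero_add, zero_add, rpsi_rect, rpsi_rect, hh_succ]
    apply le_of_eq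
    have : (j : ℝ) + L + 1 ≠ 0 := by positivity
    field_simp
    ring
  | succ n ih =>
    intro ν hn hν j
    have h0 : ν ≠ 0 := by
      rintro rfl
      simp at hn
    have hS : ∀ j : ℕ, ((j : ℝ) + 1) * (ν.map fun z =>
        rpsi (ν.erase z + Multiset.replicate j L)).sum ≤ ((L : ℝ) + j + 1) *
          (ν.map fun z => rpsi (ν.erase z + Multiset.replicate (j + 1) L)).sum := by
      intro j
      rw [← Multiset.sum_map_mul_left, ← Multiset.sum_map_mul_left]
      apply Multiset.sum_map_le_sum_map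
      intro z hz
      apply ih (ν.erase z)
      · rw [Multiset.card_erase_of_mem hz, hn]
        rfl
      · intro x hx
        exact hν x (Multiset.mem_of_mem_erase hx)
    induction j with
    | zero =>
      have r1 := a5c_rec L 0 ν hν h0
      have r2 := a5c_rec L 1 ν hν h0
      have h4 := hS 0
      push_cast at r1 r2 h4 ⊢
      refine c1_num 0 ν.sup ν.card L (rpsi (ν + Multiset.replicate 0 L)) _ _ _ _ le_rfl
        (NNReal.coe_nonneg _) (Nat.cast_nonneg _) r1 ?_ h4 ?_
      · rw [zero_add]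
        exact r2
      · rw [zero_mul]
        have := (rpsi_pos (ν + Multiset.replicate 0 L)).le
        positivity
    | succ j ihj =>
      have r1 := a5c_rec L (j + 1) ν hν h0
      have r2 := a5c_rec L (j + 1 + 1) ν hν h0
      have h4 := hS (j + 1)
      rw [Nat.add_sub_cancel] at r1 r2
      push_cast at r1 r2 h4 ⊢
      refine c1_num ((j : ℝ) + 1) ν.sup ν.card L (rpsi (ν + Multiset.replicate j L)) _ _ _ _
        (by positivity) (NNReal.coe_nonneg _) (Nat.cast_nonneg _) r1 r2 h4 ?_
      rw [← add_assoc]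
      exact ihj

theorem rctx1 (L : ℝ≥0) (ν : Multiset ℝ≥0) (hν : ∀ x ∈ ν, L ≤ x) (j : ℕ) :
    ((j : ℝ) + 1) * rpsi (ν + Multiset.replicate j L) ≤
      ((L : ℝ) + j + 1) * rpsi (ν + Multiset.replicate (j + 1) L) :=
  a5c_aux1 L _ ν rfl hν j

theorem a5c_aux2 (L : ℝ≥0) (n : ℕ) : ∀ ν : Multiset ℝ≥0, ν.card = n → (∀ x ∈ ν, L ≤ x) → ∀ j : ℕ,
    ((j : ℝ) + 1) * (rpsi (ν + Multiset.replicate j L) - rpsi (ν + Multiset.replicate (j + 1) L)) ≤
      ((L : ℝ) + j + 2) *
        (rpsi (ν + Multiset.replicate (j + 1) L) - rpsi (ν + Multiset.replicate (j + 2) L)) := by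
  induction n with
  | zero =>
    intro ν hn _ j
    have e2 : Multiset.replicate (j + 2) L = Multiset.replicate (j + 1 + 1) L := rfl
    rw [e2, Multiset.card_eq_zero.1 hn, zero_add, zero_add, zero_add, rpsi_rect, rpsi_rect, rpsi_rect,
      hh_succ (j + 1), hh_succ j]
    apply le_of_eq
    push_cast
    have h1 : (L : ℝ) + (j + 1) ≠ 0 := by positivity
    have h2 : (L : ℝ) + (j + 1 + 1) ≠ 0 := by positivity
    field_simp
    ring
  | succ n ih =>
    intro ν hn hν j
    have h0 : ν ≠ 0 := by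
      rintro rfl
      simp at hn
    have hS : ∀ j : ℕ, ((j : ℝ) + 1) * ((ν.map fun z =>
        rpsi (ν.erase z + Multiset.replicate j L)).sum - (ν.map fun z =>
        rpsi (ν.erase z + Multiset.replicate (j + 1) L)).sum) ≤ ((L : ℝ) + j + 2) *
          ((ν.map fun z => rpsi (ν.erase z + Multiset.replicate (j + 1) L)).sum -
            (ν.map fun z => rpsi (ν.erase z + Multiset.replicate (j + 2) L)).sum) := by
      intro j
      rw [← Multiset.sum_map_sub, ← Multiset.sum_map_sub, ← Multiset.sum_map_mul_left,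
        ← Multiset.sum_map_mul_left]
      apply Multiset.sum_map_le_sum_map
      intro z hz
      apply ih (ν.erase z)
      · rw [Multiset.card_erase_of_mem hz, hn]
        rfl
      · intro x hx
        exact hν x (Multiset.mem_of_mem_erase hx)
    induction j with
    | zero =>
      have r1 := a5c_rec L 0 ν hν h0
      have r2 := a5c_rec L 1 ν hν h0
      have r3 := a5c_rec L 2 ν hν h0
      have h4 := hS 0
      have h5 := rpsi_add_le ν (Multiset.replicate 1 L)
      have e0 : ν + Multiset.replicate 0 L = ν := by simp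
      have e1 : (2 : ℕ) - 1 = 1 := rfl
      rw [e1] at r3
      simp only [e0, zero_add, Nat.cast_zero, Nat.cast_one, Nat.cast_ofNat, Nat.sub_self,
        add_zero, zero_mul, one_mul] at r1 r2 r3 h4 ⊢
      set F0 := rpsi ν
      set F1 := rpsi (ν + Multiset.replicate 1 L)
      set F2 := rpsi (ν + Multiset.replicate 2 L)
      set S0 := (ν.map fun z => rpsi (ν.erase z + Multiset.replicate 0 L)).sum
      set S1 := (ν.map fun z => rpsi (ν.erase z + Multiset.replicate 1 L)).sum
      set S2 := (ν.map fun z => rpsi (ν.erase z + Multiset.replicate 2 L)).sum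
      have h6 := c1_num 0 (ν.sup + 1) ν.card ((L : ℝ) + 1) 0 (F0 - F1) (F1 - F2) (S0 - S1)
        (S1 - S2) le_rfl (by positivity) (Nat.cast_nonneg _) (by linarith) (by linarith)
        (by
          have e : (L : ℝ) + 1 + 0 + 1 = (L : ℝ) + 2 := by ring
          rw [e, zero_add, one_mul]
          exact h4) (by
          rw [zero_mul]
          apply mul_nonneg (by positivity)
          linarith)
      have e : (L : ℝ) + 1 + 0 + 1 = (L : ℝ) + 2 := by ring
      rw [e, zero_add, one_mul] at h6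
      exact h6
    | succ j ihj =>
      have r1 := a5c_rec L (j + 1) ν hν h0
      have r2 := a5c_rec L (j + 2) ν hν h0
      have r3 := a5c_rec L (j + 3) ν hν h0
      have h4 := hS (j + 1)
      have e1 : j + 2 - 1 = j + 1 := rfl
      have e2 : j + 3 - 1 = j + 2 := rfl
      have e3 : j + 1 + 1 = j + 2 := rfl
      have e4 : j + 1 + 2 = j + 3 := rfl
      rw [Nat.add_sub_cancel] at r1
      rw [e1] at r2
      rw [e2] at r3
      rw [e3, e4] at h4 ⊢
      push_cast at r1 r2 r3 h4 ⊢
      set F0 := rpsi (ν + Multiset.replicate j L)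
      set F1 := rpsi (ν + Multiset.replicate (j + 1) L)
      set F2 := rpsi (ν + Multiset.replicate (j + 2) L)
      set F3 := rpsi (ν + Multiset.replicate (j + 3) L)
      set S1 := (ν.map fun z => rpsi (ν.erase z + Multiset.replicate (j + 1) L)).sum
      set S2 := (ν.map fun z => rpsi (ν.erase z + Multiset.replicate (j + 2) L)).sum
      set S3 := (ν.map fun z => rpsi (ν.erase z + Multiset.replicate (j + 3) L)).sum
      have h6 := c1_num ((j : ℝ) + 1) (ν.sup + 1) ν.card ((L : ℝ) + 1) (F0 - F1) (F1 - F2)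
        (F2 - F3) (S1 - S2)
        (S2 - S3) (by positivity) (by positivity) (Nat.cast_nonneg _) (by linarith) (by linarith)
        (by
          have e : (L : ℝ) + 1 + (j + 1) + 1 = (L : ℝ) + (j + 1) + 2 := by ring
          rw [e]
          exact h4) (by
          have e : (L : ℝ) + 1 + (j + 1) = (L : ℝ) + j + 2 := by ring
          rw [e]
          exact ihj)
      have e : (L : ℝ) + 1 + (j + 1) + 1 = (L : ℝ) + (j + 1) + 2 := by ring
      rw [e] at h6
      exact h6

theorem rctx2 (L : ℝ≥0) (ν : Multiset ℝ≥0) (hν : ∀ x ∈ ν, L ≤ x) (j : ℕ) :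
    ((j : ℝ) + 1) * (rpsi (ν + Multiset.replicate j L) - rpsi (ν + Multiset.replicate (j + 1) L)) ≤
      ((L : ℝ) + j + 2) *
        (rpsi (ν + Multiset.replicate (j + 1) L) - rpsi (ν + Multiset.replicate (j + 2) L)) :=
  a5c_aux2 L _ ν rfl hν j

end Pool.Agent.LRQ
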