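import Mathlib
import Pool.Agent.LRQ.A5
import Pool.Agent.LRT.C2

set_option autoImplicit false

/-! # [LRQ-A6] uniform rows as a mixture of longer rows -/

namespace Pool.Agent.LRQ

open Finset
open Pool.Agent.LRE Pool.Agent.LRT
open scoped NNReal

/-- the coefficients `q_t(i)` -/
noncomputable def a6q (W : ℝ) : ℕ → ℕ → ℝ
  | 0, i => if i = 0 then 1 else 0
  | t + 1, i => ((if i = t + 1 then W else 0) + ((t : ℝ) + 1) * a6q W t i) / (W + t + 1)

/-- the coefficients `p_t(i)` -/
noncomputable def a6p (W L : ℝ) (t i : ℕ) : ℝ := ((if i = t then W else 0) + (L - W) * a6q W t i) / L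

theorem a6q_zero (W : ℝ) (i : ℕ) : a6q W 0 i = if i = 0 then 1 else 0 := rfl

theorem a6q_succ (W : ℝ) (t i : ℕ) : a6q W (t + 1) i =
    ((if i = t + 1 then W else 0) + ((t : ℝ) + 1) * a6q W t i) / (W + t + 1) := rfl

theorem a6q_nonneg (W : ℝ) (hW : 0 ≤ W) (t : ℕ) : ∀ i, 0 ≤ a6q W t i := by
  induction t with
  | zero =>
    intro i
    rw [a6q_zero]
    split <;> norm_num
  | succ t ih =>
    intro i
    rw [a6q_succ]
    have h1 := ih i
    apply div_nonneg _ (by positivity)
    apply add_nonneg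
    · split
      · exact hW
      · exact le_rfl
    · positivity

theorem a6q_big (W : ℝ) (t : ℕ) : ∀ i, t < i → a6q W t i = 0 := by
  induction t with
  | zero =>
    intro i hi
    rw [a6q_zero, if_neg (by omega)]
  | succ t ih =>
    intro i hi
    rw [a6q_succ, if_neg (by omega), ih i (by omega), mul_zero, add_zero, zero_div]

theorem a6q_sum (W : ℝ) (hW : 0 ≤ W) (t : ℕ) : ∑ i ∈ range (t + 1), a6q W t i = 1 := by
  induction t with
  | zero => rw [Finset.sum_range_one, a6q_zero, if_pos rfl]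
  | succ t ih =>
    have h1 : ∀ i ∈ range (t + 1 + 1), a6q W (t + 1) i =
        ((if i = t + 1 then W else 0) + ((t : ℝ) + 1) * a6q W t i) / (W + t + 1) :=
      fun i _ => a6q_succ W t i
    have h2 : ∑ i ∈ range (t + 1 + 1), a6q W t i = 1 := by
      rw [Finset.sum_range_succ, ih, a6q_big W t (t + 1) (by omega), add_zero]
    rw [Finset.sum_congr rfl h1, ← Finset.sum_div, Finset.sum_add_distrib, ← Finset.mul_sum, h2,
      Finset.sum_ite_eq', if_pos (Finset.mem_range.2 (by omega))]
    have h3 : W + t + 1 ≠ 0 := by positivity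
    rw [div_eq_one_iff_eq h3]
    ring

theorem a6q_diag (W : ℝ) (hW : 0 ≤ W) (t : ℕ) : (W + t) * a6q W t t = W := by
  rcases t with _ | t
  · rw [a6q_zero, if_pos rfl, Nat.cast_zero, add_zero, mul_one]
  · rw [a6q_succ, if_pos rfl, a6q_big W t (t + 1) (by omega), mul_zero, add_zero]
    have h3 : W + t + 1 ≠ 0 := by positivity
    push_cast
    field_simp
    ring

theorem a6q_step (W : ℝ) (hW : 0 ≤ W) (t : ℕ) : ∀ i, i < t → (W + i) * a6q W t i =
    ((i : ℝ) + 1) * a6q W t (i + 1) := by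
  induction t with
  | zero => intro i hi; omega
  | succ t ih =>
    intro i hi
    have h3 : W + t + 1 ≠ 0 := by positivity
    rcases Nat.lt_or_ge i t with h | h
    · have h1 := ih i h
      rw [a6q_succ, a6q_succ, if_neg (by omega), if_neg (by omega), zero_add, zero_add,
        ← mul_div_assoc, ← mul_div_assoc]
      congr 1
      linear_combination ((t : ℝ) + 1) * h1
    · have h2 : i = t := by omega
      subst h2
      have h1 := a6q_diag W hW i
      rw [a6q_succ, a6q_succ, if_neg (by omega), if_pos rfl, zero_add,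
        a6q_big W i (i + 1) (by omega), mul_zero, add_zero, ← mul_div_assoc, ← mul_div_assoc]
      congr 1
      linear_combination ((i : ℝ) + 1) * h1

theorem a6q_hh (W : ℝ) (hW : 0 ≤ W) (t : ℕ) : a6q W t 0 = hh t W := by
  induction t with
  | zero => rw [a6q_zero, if_pos rfl, hh_zero]
  | succ t ih =>
    rw [a6q_succ, if_neg (by omega), ih, hh_succ, zero_add]
    have h3 : W + t + 1 ≠ 0 := by positivity
    have h4 : W + (t + 1) ≠ 0 := by positivity
    field_simp
    ring

theorem a6p_nonneg (W L : ℝ) (hW : 0 ≤ W) (hWL : W ≤ L) (hL : 0 < L) (t i : ℕ) :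
    0 ≤ a6p W L t i := by
  unfold a6p
  apply div_nonneg _ hL.le
  apply add_nonneg _ (mul_nonneg (by linarith) (a6q_nonneg W hW t i))
  split
  · exact hW
  · exact le_rfl

theorem a6p_sum (W L : ℝ) (hW : 0 ≤ W) (hL : 0 < L) (t : ℕ) :
    ∑ i ∈ range (t + 1), a6p W L t i = 1 := by
  unfold a6p
  rw [← Finset.sum_div, Finset.sum_add_distrib, ← Finset.mul_sum, a6q_sum W hW, Finset.sum_ite_eq',
    if_pos (Finset.mem_range.2 (by omega)), div_eq_one_iff_eq hL.ne']
  ring

/-- relation (A) -/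
theorem a6_A (W L : ℝ) (hW : 0 ≤ W) (t i : ℕ) (hi : i ≤ t + 1) :
    ((t : ℝ) + 1 - i) * a6p W L (t + 1) i + ((i : ℝ) + 1) * a6p W L (t + 1) (i + 1) =
      ((t : ℝ) + 1) * a6p W L t i := by
  have h4 : W + t + 1 ≠ 0 := by positivity
  unfold a6p
  rw [← mul_div_assoc, ← mul_div_assoc, ← mul_div_assoc, ← add_div]
  congr 1
  rcases Nat.lt_or_ge i (t + 1) with h | h
  · have h1 := a6q_step W hW (t + 1) i h
    have h2 : (W + t + 1) * a6q W (t + 1) i = ((t : ℝ) + 1) * a6q W t i := by
      rw [a6q_succ, if_neg (by omega), zero_add]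
      field_simp
    rw [if_neg (by omega)]
    rcases Nat.lt_or_ge i t with h5 | h5
    · rw [if_neg (by omega), if_neg (by omega)]
      linear_combination (L - W) * h2 - (L - W) * h1
    · have h6 : i = t := by omega
      subst h6
      rw [if_pos rfl, if_pos rfl]
      linear_combination (L - W) * h2 - (L - W) * h1
  · have h6 : i = t + 1 := by omega
    subst h6
    rw [if_pos rfl, if_neg (by omega), if_neg (by omega), a6q_big W (t + 1) (t + 1 + 1) (by omega),
      a6q_big W t (t + 1) (by omega)]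
    push_cast
    ring

theorem a6_erase_rep (L : ℝ≥0) (j : ℕ) (ν : Multiset ℝ≥0) :
    (ν + Multiset.replicate (j + 1) L).erase L = ν + Multiset.replicate j L := by
  rw [Multiset.replicate_succ, Multiset.add_cons, Multiset.erase_cons_head]

theorem a6_sup (L : ℝ≥0) (j : ℕ) (ν : Multiset ℝ≥0) (hν : ∀ x ∈ ν, L ≤ x) (h0 : ν ≠ 0) :
    (ν + Multiset.replicate j L).sup = ν.sup := by
  rw [Multiset.sup_add]
  apply sup_eq_left.2
  rw [Multiset.sup_le]
  intro b hb
  rw [Multiset.eq_of_mem_replicate hb]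
  obtain ⟨a, ha⟩ := Multiset.exists_mem_of_ne_zero h0
  exact (hν a ha).trans (Multiset.le_sup ha)

/-- the recursion in a context -/
theorem a6_rec (L : ℝ≥0) (j : ℕ) (ν : Multiset ℝ≥0) (hν : ∀ x ∈ ν, L ≤ x) (h0 : ν ≠ 0) :
    ((ν.sup : ℝ) + ν.card + j) * rpsi (ν + Multiset.replicate j L) =
      (j : ℝ) * rpsi (ν + Multiset.replicate (j - 1) L) +
        (ν.map fun z => rpsi (ν.erase z + Multiset.replicate j L)).sum := by
  have h1 := rpsi_rec (ν + Multiset.replicate j L)
  rw [a6_sup L j ν hν h0, Multiset.card_add, Multiset.card_replicate, Multiset.map_add,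
    Multiset.sum_add] at h1
  push_cast at h1
  rw [← add_assoc] at h1
  rw [h1, add_comm]
  congr 1
  · rcases j with _ | j
    · simp
    · rw [Multiset.map_replicate, Multiset.sum_replicate, a6_erase_rep, nsmul_eq_mul,
        Nat.add_sub_cancel]
  · congr 1
    apply Multiset.map_congr rfl
    intro z hz
    rw [Multiset.erase_add_left_pos _ hz]

theorem a6_swap (ν : Multiset ℝ≥0) (n : ℕ) (f : ℕ → ℝ≥0 → ℝ) :
    (ν.map fun z => ∑ i ∈ range n, f i z).sum = ∑ i ∈ range n, (ν.map fun z => f i z).sum := by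
  induction ν using Multiset.induction with
  | empty => simp
  | cons a ν ih =>
    rw [Multiset.map_cons, Multiset.sum_cons, ih, ← Finset.sum_add_distrib]
    refine Finset.sum_congr rfl fun i _ => ?_
    rw [Multiset.map_cons, Multiset.sum_cons]

theorem a6_main (W L : ℝ≥0) (hWL : W ≤ L) (hL : 0 < L) (n : ℕ) :
    ∀ ν : Multiset ℝ≥0, ν.card = n → (∀ x ∈ ν, L ≤ x) → ∀ t : ℕ,
    rpsi (ν + Multiset.replicate t W) =
      ∑ i ∈ range (t + 1), a6p W L t i * rpsi (ν + Multiset.replicate i L) := by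
  have hW0 : (0 : ℝ) ≤ W := W.coe_nonneg
  have hL0 : (0 : ℝ) < L := by exact_mod_cast hL
  have hzero : ∀ ν : Multiset ℝ≥0, rpsi (ν + Multiset.replicate 0 W) =
      ∑ i ∈ range (0 + 1), a6p W L 0 i * rpsi (ν + Multiset.replicate i L) := by
    intro ν
    have h1 : a6p W L 0 0 = 1 := by
      unfold a6p
      rw [if_pos rfl, a6q_zero, if_pos rfl, div_eq_one_iff_eq hL0.ne']
      ring
    rw [zero_add, Finset.sum_range_one, h1, one_mul]
    simp
  induction n with
  | zero =>
    intro ν hn _ t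
    have hν0 := Multiset.card_eq_zero.1 hn
    subst hν0
    induction t with
    | zero => exact hzero 0
    | succ t iht =>
      have h1 := c2_sum t (L : ℝ) (fun i => rpsi (0 + Multiset.replicate i L))
        (fun i => if i = 0 then (L : ℝ) else 0) (a6p W L (t + 1)) (a6p W L t)
        (fun i hi => a6_A W L hW0 t i hi) (fun i => by
          show ((L : ℝ) + i) * rpsi (0 + Multiset.replicate i L) =
            (i : ℝ) * rpsi (0 + Multiset.replicate (i - 1) L) +
              if i = 0 then (L : ℝ) else 0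
          rw [zero_add, zero_add, rpsi_rect, rpsi_rect]
          rcases i with _ | i
          · rw [if_pos rfl, Nat.cast_zero, hh_zero]
            ring
          · rw [if_neg (by omega), Nat.add_sub_cancel, hh_succ]
            push_cast
            have h4 : (L : ℝ) + (i + 1) ≠ 0 := by positivity
            field_simp
            ring)
      rw [← iht] at h1
      have h2 : ∑ i ∈ range (t + 1 + 1), a6p W L (t + 1) i * (if i = 0 then (L : ℝ) else 0) =
          ((L : ℝ) - W) * hh (t + 1) (W : ℝ) := by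
        simp only [mul_ite, mul_zero]
        rw [Finset.sum_ite_eq', if_pos (Finset.mem_range.2 (by omega)), ← a6q_hh _ hW0]
        unfold a6p
        rw [if_neg (by omega), zero_add]
        field_simp
      rw [h2] at h1
      rw [zero_add, rpsi_rect] at h1 ⊢
      have h5 : (L : ℝ) + ((t : ℝ) + 1) ≠ 0 := by positivity
      apply mul_left_cancel₀ h5
      rw [h1, hh_succ]
      have h4 : (W : ℝ) + ((t : ℝ) + 1) ≠ 0 := by positivity
      field_simp
      ring
  | succ n ih =>
    intro ν hn hν t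
    have h0 : ν ≠ 0 := by
      rintro rfl
      simp at hn
    have hν' : ∀ x ∈ ν, W ≤ x := fun x hx => hWL.trans (hν x hx)
    induction t with
    | zero => exact hzero ν
    | succ t iht =>
      have h1 := c2_sum t ((ν.sup : ℝ) + ν.card) (fun i => rpsi (ν + Multiset.replicate i L))
        (fun i => (ν.map fun z => rpsi (ν.erase z + Multiset.replicate i L)).sum)
        (a6p W L (t + 1)) (a6p W L t) (fun i hi => a6_A W L hW0 t i hi)
        (fun i => a6_rec L i ν hν h0)
      rw [← iht] at h1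
      have h2 : ∑ i ∈ range (t + 1 + 1), a6p W L (t + 1) i *
          (ν.map fun z => rpsi (ν.erase z + Multiset.replicate i L)).sum =
          (ν.map fun z => rpsi (ν.erase z + Multiset.replicate (t + 1) W)).sum := by
        have h3 : (ν.map fun z => rpsi (ν.erase z + Multiset.replicate (t + 1) W)) =
            ν.map fun z => ∑ i ∈ range (t + 1 + 1), a6p W L (t + 1) i *
              rpsi (ν.erase z + Multiset.replicate i L) := by
          apply Multiset.map_congr rfl
          intro z hz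
          apply ih (ν.erase z)
          · rw [Multiset.card_erase_of_mem hz, hn]
            rfl
          · intro x hx
            exact hν x (Multiset.mem_of_mem_erase hx)
        rw [h3, a6_swap]
        refine Finset.sum_congr rfl fun i _ => ?_
        rw [Multiset.sum_map_mul_left]
      rw [h2] at h1
      have h4 := a6_rec W (t + 1) ν hν' h0
      rw [Nat.add_sub_cancel] at h4
      push_cast at h4
      rw [← h4] at h1
      have h5 : (ν.sup : ℝ) + ν.card + ((t : ℝ) + 1) ≠ 0 := by positivity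
      exact (mul_left_cancel₀ h5 h1).symm

/-- `t` rows of length `W` are a probability mixture of `i ≤ t` rows of length `L ≥ W`, in every
context `ν ≥ L`. Adaptation of LRT/C2.lean (`lift1` is the case `W = L - 1`, integers). Let
`q_t(i)` be defined by `q_0(i) = [i = 0]`, `q_{t+1}(i) = ([i=t+1] W + (t+1) q_t(i))/(W+t+1)` (that is
`c2q` of LRT/C2.lean with a real parameter `W ≥ 0`); as there (same proofs): `q_t(i) ≥ 0`,
`q_t(i) = 0` for `i > t`, `∑_{i ≤ t} q_t(i) = 1`, `(W + t) q_t(t) = W`,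
`(W + i) q_t(i) = (i+1) q_t(i+1)` for `i < t`. Put `p_t(i) = ([i = t] W + (L - W) q_t(i))/L`. Then
`p ≥ 0`, `∑ p = 1` and (relation (A), as `c2_A`; multiply by `L` and use
`(W+t+1) q_{t+1}(i) = (t+1) q_t(i)` for `i ≤ t`):
`(t+1-i) p_{t+1}(i) + (i+1) p_{t+1}(i+1) = (t+1) p_t(i)` for `i ≤ t+1`.
Claim: `rpsi(ν + W^t) = ∑_{i ≤ t} p_t(i) rpsi(ν + L^i)`, induction on `ν.card`, inside on `t`, exactly
as `c2_main` (use `c2_sum`, which is stated for real `W` there, imported from LRT.C2):
* `ν ≠ 0`, `w = ν.sup ≥ L`, `m = ν.card`: `(w+m+t+1) rpsi(ν+W^{t+1}) = (t+1) rpsi(ν+W^t)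
  + ∑_{z∈ν} rpsi(ν.erase z + W^{t+1})` and the same recursion for each `F_i = rpsi(ν+L^i)`:
  `(w+m+i) F_i = i F_{i-1} + G_i`; `c2_sum`.
* `ν = 0`: `F_i = rpsi(L^i) = hh i L` satisfies `(L+i) F_i = i F_{i-1}` (`i ≥ 1`), `F_0 = 1`;
  `rpsi(W^t) = hh t W` satisfies `(W+t) hh t W = t hh (t-1) W`. `∑_i p_t(i) F_i = hh t W`: show
  `S_t := ∑_i p_t(i) F_i` satisfies `(W+t+1) S_{t+1} = (t+1) S_t`: from (A) and the recursion of `F`
  (as in `c2_sum` with `G_i = 0` for `i ≥ 1`, `G_0 = L F_0`) one gets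
  `(L+t+1) S_{t+1} = (t+1) S_t + L p_{t+1}(0)`, and `L p_{t+1}(0) = (L-W) q_{t+1}(0)`,
  `q_t(0) = hh t W` (as `c2q_hh`); with the induction hypothesis `S_t = hh t W`:
  `(L+t+1) S_{t+1} = (W+t+1) hh (t+1) W + (L-W) hh (t+1) W = (L+t+1) hh (t+1) W`. -/
theorem rlift (W L : ℝ≥0) (hW : W ≤ L) (hL : 0 < L) (t : ℕ) :
    ∃ p : ℕ → ℝ, (∀ i, 0 ≤ p i) ∧ (∑ i ∈ range (t + 1), p i) = 1 ∧
      ∀ ν : Multiset ℝ≥0, (∀ x ∈ ν, L ≤ x) →
        rpsi (ν + Multiset.replicate t W) =
          ∑ i ∈ range (t + 1), p i * rpsi (ν + Multiset.replicate i L) :=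
  ⟨a6p W L t, a6p_nonneg W L W.coe_nonneg (by exact_mod_cast hW) (by exact_mod_cast hL) t,
    a6p_sum W L W.coe_nonneg (by exact_mod_cast hL) t, fun ν hν => a6_main W L hW hL _ ν rfl hν t⟩

/-- The case `t = 1`, `W = 1`, explicitly: `p(0) = (L-1)/(2L)`, `p(1) = (L+1)/(2L)`. Take the
mixture `p` of `rlift` for `t = 1`; with `ν = 0`: `1/2 = p(0) + p(1)/(L+1)` and `p(0) + p(1) = 1`. -/
theorem rlift_one (L : ℝ≥0) (hL : 1 ≤ L) (ν : Multiset ℝ≥0) (hν : ∀ x ∈ ν, L ≤ x) :
    rpsi (ν + {1}) = (((L : ℝ) - 1) / (2 * L)) * rpsi ν +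
      (((L : ℝ) + 1) / (2 * L)) * rpsi (ν + {L}) := by
  have hL0 : (0 : ℝ) < L := lt_of_lt_of_le zero_lt_one (by exact_mod_cast hL)
  have h := a6_main 1 L hL (lt_of_lt_of_le zero_lt_one hL) _ ν rfl hν 1
  have h0 : a6p ((1 : ℝ≥0) : ℝ) L 1 0 = ((L : ℝ) - 1) / (2 * L) := by
    unfold a6p
    rw [if_neg (by omega), a6q_succ, if_neg (by omega), a6q_zero, if_pos rfl]
    push_cast
    field_simp
    ring
  have h1 : a6p ((1 : ℝ≥0) : ℝ) L 1 1 = ((L : ℝ) + 1) / (2 * L) := by
    unfold a6p
    rw [if_pos rfl, a6q_succ, if_pos (by omega), a6q_zero, if_neg (by omega)]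
    push_cast
    field_simp
    ring
  rw [Finset.sum_range_succ, Finset.sum_range_one, h0, h1, Multiset.replicate_one,
    Multiset.replicate_zero, Multiset.replicate_one, add_zero] at h
  exact h

end Pool.Agent.LRQ
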