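import Mathlib
import Pool.Agent.LRQ.A6

set_option autoImplicit false

/-! # [LRQ-A7] arbitrary short rows as a mixture of equal rows -/

namespace Pool.Agent.LRQ

open Finset
open Pool.Agent.LRE Pool.Agent.LRT
open scoped NNReal

/-- `τ` is a mixture of the `L^i`, `i ≤ n`. -/
def A7_Mix (n : ℕ) (L : ℝ≥0) (τ : Multiset ℝ≥0) : Prop :=
  ∃ p : ℕ → ℝ, (∀ i, 0 ≤ p i) ∧ (∑ i ∈ range (n + 1), p i) = 1 ∧
    ∀ ν : Multiset ℝ≥0, (∀ x ∈ ν, L ≤ x) →
      rpsi (ν + τ) = ∑ i ∈ range (n + 1), p i * rpsi (ν + Multiset.replicate i L)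

theorem A7_base (n k : ℕ) (hk : k ≤ n) (L : ℝ≥0) : A7_Mix n L (Multiset.replicate k L) := by
  refine ⟨fun i => if i = k then 1 else 0, fun i => ?_, ?_, fun ν _ => ?_⟩
  · show (0 : ℝ) ≤ if i = k then 1 else 0
    split <;> norm_num
  · rw [Finset.sum_ite_eq', if_pos (Finset.mem_range.2 (by omega))]
  · simp only [ite_mul, zero_mul, one_mul]
    rw [Finset.sum_ite_eq', if_pos (Finset.mem_range.2 (by omega))]

theorem A7_comb (n u : ℕ) (L : ℝ≥0) (τ : Multiset ℝ≥0) (t : ℕ → Multiset ℝ≥0)
    (ht : ∀ i ∈ range (u + 1), A7_Mix n L (t i)) (q : ℕ → ℝ) (hq : ∀ i, 0 ≤ q i)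
    (hq1 : ∑ i ∈ range (u + 1), q i = 1)
    (h : ∀ ν : Multiset ℝ≥0, (∀ x ∈ ν, L ≤ x) →
      rpsi (ν + τ) = ∑ i ∈ range (u + 1), q i * rpsi (ν + t i)) : A7_Mix n L τ := by
  have ht' : ∀ i, ∃ p : ℕ → ℝ, i ∈ range (u + 1) → (∀ j, 0 ≤ p j) ∧
      (∑ j ∈ range (n + 1), p j) = 1 ∧
      ∀ ν : Multiset ℝ≥0, (∀ x ∈ ν, L ≤ x) →
        rpsi (ν + t i) = ∑ j ∈ range (n + 1), p j * rpsi (ν + Multiset.replicate j L) := by
    intro i
    by_cases hi : i ∈ range (u + 1)
    · obtain ⟨p, hp⟩ := ht i hi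
      exact ⟨p, fun _ => hp⟩
    · exact ⟨fun _ => 0, fun h => absurd h hi⟩
  choose P hP using ht'
  refine ⟨fun j => ∑ i ∈ range (u + 1), q i * P i j, fun j => ?_, ?_, fun ν hν => ?_⟩
  · exact Finset.sum_nonneg fun i hi => mul_nonneg (hq i) ((hP i hi).1 j)
  · rw [Finset.sum_comm, ← hq1]
    refine Finset.sum_congr rfl fun i hi => ?_
    rw [← Finset.mul_sum, (hP i hi).2.1, mul_one]
  · rw [h ν hν]
    simp only [Finset.sum_mul]
    rw [Finset.sum_comm]
    refine Finset.sum_congr rfl fun i hi => ?_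
    rw [(hP i hi).2.2 ν hν, Finset.mul_sum]
    refine Finset.sum_congr rfl fun j _ => ?_
    ring

theorem A7_main (L : ℝ≥0) (n : ℕ) : ∀ (d : ℕ) (τ : Multiset ℝ≥0), (∀ x ∈ τ, x ≤ L) →
    τ.card ≤ n → (τ.toFinset.filter (fun x => x < L)).card ≤ d → A7_Mix n L τ := by
  intro d
  induction d with
  | zero =>
    intro τ hτ hn hd
    have h0 := Finset.card_eq_zero.1 (Nat.le_zero.1 hd)
    have h1 : τ = Multiset.replicate τ.card L := by
      refine Multiset.eq_replicate_card.2 fun x hx => ?_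
      rcases (hτ x hx).lt_or_eq with h | h
      · have : x ∈ τ.toFinset.filter (fun x => x < L) :=
          Finset.mem_filter.2 ⟨Multiset.mem_toFinset.2 hx, h⟩
        rw [h0] at this
        exact absurd this (Finset.notMem_empty x)
      · exact h
    rw [h1]
    exact A7_base n _ hn L
  | succ d ih =>
    intro τ hτ hn hd
    by_cases hne : (τ.toFinset.filter (fun x => x < L)).Nonempty
    swap
    · refine ih τ hτ hn ?_
      rw [Finset.not_nonempty_iff_eq_empty] at hne
      rw [hne]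
      simp
    set D := τ.toFinset.filter (fun x => x < L) with hD
    set v := D.min' hne with hv
    have hvD : v ∈ D := D.min'_mem hne
    have hvL : v < L := (Finset.mem_filter.1 hvD).2
    have hvτ : v ∈ τ := Multiset.mem_toFinset.1 (Finset.mem_filter.1 hvD).1
    set τ' := τ.filter (fun x => x ≠ v) with hτ'
    have hs : τ = τ' + Multiset.replicate (τ.count v) v := by
      conv_lhs => rw [← Multiset.filter_add_not (fun x => x ≠ v) τ]
      congr 1
      rw [← Multiset.filter_eq']
      apply Multiset.filter_congr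
      intro x _
      simp
    obtain ⟨v', hvv', hv'L, hv'τ, hv'D⟩ : ∃ v' : ℝ≥0, v < v' ∧ v' ≤ L ∧ (∀ x ∈ τ', v' ≤ x) ∧
        (v' < L → v' ∈ D) := by
      by_cases hne' : (D.erase v).Nonempty
      · have hm := (D.erase v).min'_mem hne'
        have hm2 := Finset.mem_erase.1 hm
        refine ⟨(D.erase v).min' hne', ?_, ?_, ?_, fun _ => hm2.2⟩
        · exact lt_of_le_of_ne (D.min'_le _ hm2.2) hm2.1.symm
        · exact (Finset.mem_filter.1 hm2.2).2.le
        · intro x hx
          have hx1 := Multiset.mem_filter.1 hx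
          rcases (hτ x hx1.1).lt_or_eq with h | h
          · exact (D.erase v).min'_le x (Finset.mem_erase.2 ⟨hx1.2,
              Finset.mem_filter.2 ⟨Multiset.mem_toFinset.2 hx1.1, h⟩⟩)
          · rw [h]
            exact (Finset.mem_filter.1 hm2.2).2.le
      · refine ⟨L, hvL, le_rfl, ?_, fun h => absurd h (lt_irrefl L)⟩
        intro x hx
        have hx1 := Multiset.mem_filter.1 hx
        rcases (hτ x hx1.1).lt_or_eq with h | h
        · exact absurd ⟨x, Finset.mem_erase.2 ⟨hx1.2,
              Finset.mem_filter.2 ⟨Multiset.mem_toFinset.2 hx1.1, h⟩⟩⟩ hne'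
        · exact h.ge
    obtain ⟨q, hq0, hq1, hq⟩ := rlift v v' hvv'.le ((zero_le).trans_lt hvv') (τ.count v)
    have hcard : τ.card = τ'.card + τ.count v := by
      conv_lhs => rw [hs]
      rw [Multiset.card_add, Multiset.card_replicate]
    refine A7_comb n (τ.count v) L τ (fun i => τ' + Multiset.replicate i v') ?_ q hq0 hq1 ?_
    · intro i hi
      have hi' := Finset.mem_range.1 hi
      refine ih _ ?_ ?_ ?_
      · intro x hx
        rcases Multiset.mem_add.1 hx with hx | hx
        · exact hτ x (Multiset.mem_filter.1 hx).1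
        · rw [Multiset.eq_of_mem_replicate hx]
          exact hv'L
      · rw [Multiset.card_add, Multiset.card_replicate]
        omega
      · have hsub : (τ' + Multiset.replicate i v').toFinset.filter (fun x => x < L) ⊆
            D.erase v := by
          intro x hx
          have hx1 := Finset.mem_filter.1 hx
          rcases Multiset.mem_add.1 (Multiset.mem_toFinset.1 hx1.1) with hx2 | hx2
          · have hx3 := Multiset.mem_filter.1 hx2
            exact Finset.mem_erase.2 ⟨hx3.2, Finset.mem_filter.2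
              ⟨Multiset.mem_toFinset.2 hx3.1, hx1.2⟩⟩
          · have hx3 := Multiset.eq_of_mem_replicate hx2
            refine Finset.mem_erase.2 ⟨?_, ?_⟩
            · rw [hx3]
              exact hvv'.ne'
            · rw [hx3]
              exact hv'D (by rw [← hx3]; exact hx1.2)
        have h1 := Finset.card_le_card hsub
        have h2 := Finset.card_erase_of_mem hvD
        omega
    · intro ν hν
      have h1 : ν + τ = (ν + τ') + Multiset.replicate (τ.count v) v := by
        conv_lhs => rw [hs]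
        rw [add_assoc]
      rw [h1, hq (ν + τ')]
      · refine Finset.sum_congr rfl fun i _ => ?_
        rw [add_assoc]
      · intro x hx
        rcases Multiset.mem_add.1 hx with hx | hx
        · exact hv'L.trans (hν x hx)
        · exact hv'τ x hx

/-- Rows `≤ L` are a probability mixture of rows of length exactly `L`, with coefficients not
depending on the context `ν ≥ L` (real version of `LRT.mixt`). Prove for all `n ≥ τ.card`
(there are `p ≥ 0` with `∑_{i ≤ n} p i = 1` and `rpsi(ν+τ) = ∑_{i ≤ n} p i rpsi(ν+L^i)`) (pad with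
zeros) by strong induction on the number `d(τ)` of distinct values of `τ` in `[0,L)`. `d = 0`:
`τ = L^{τ.card}`, `p = [i = τ.card]`. `d ≥ 1`: let `v` be the least value of `τ` (so `v < L`),
`u = τ.count v`, `τ = τ' + v^u`, and `v'` = the least value of `τ' + {L}`, so `v < v' ≤ L`, `v' > 0`.
By `rlift v v'` (with `t = u`, context `ν + τ' ≥ v'`):
`rpsi(ν + τ' + v^u) = ∑_{i ≤ u} q i rpsi(ν + τ' + v'^i)`. Each `τ'_i = τ' + v'^i` has
`d(τ'_i) < d(τ)` (the value `v` is gone, `v'` is a value of `τ'` or `= L`) and card `≤ τ.card ≤ n`: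
induction hypothesis gives `p^(i)`; take `p = ∑_i q i p^(i)`. -/
theorem rmixt (L : ℝ≥0) (hL : 0 < L) (τ : Multiset ℝ≥0) (hτ : ∀ x ∈ τ, x ≤ L) :
    ∃ p : ℕ → ℝ, (∀ i, 0 ≤ p i) ∧ (∑ i ∈ range (τ.card + 1), p i) = 1 ∧
      ∀ ν : Multiset ℝ≥0, (∀ x ∈ ν, L ≤ x) →
        rpsi (ν + τ) = ∑ i ∈ range (τ.card + 1), p i * rpsi (ν + Multiset.replicate i L) :=
  A7_main L τ.card _ τ hτ le_rfl le_rfl

end Pool.Agent.LRQ
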