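import Mathlib
import Pool.Agent.LRQ.A7
import Pool.Agent.LRT.C4

set_option autoImplicit false

/-! # [LRQ-A8] context domination for real rows -/

namespace Pool.Agent.LRQ

open Finset
open Pool.Agent.LRE Pool.Agent.LRT
open scoped NNReal

/-- The secant bound: `rpsi (ν + τ)` lies below the line through the levels `r` and `r+1` in the
variable `rpsi τ`. -/
theorem A8_secant (L : ℝ≥0) (r : ℕ) (ν τ : Multiset ℝ≥0) (hL : 0 < L)
    (hν : ∀ x ∈ ν, L ≤ x) (hτ : ∀ x ∈ τ, x ≤ L) :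
    ∃ σ : ℝ, 0 ≤ σ ∧
      σ * (rpsi (Multiset.replicate r L) - rpsi (Multiset.replicate (r + 1) L)) =
        rpsi (ν + Multiset.replicate r L) - rpsi (ν + Multiset.replicate (r + 1) L) ∧
      σ * rpsi (Multiset.replicate (r + 1) L) ≤ rpsi (ν + Multiset.replicate (r + 1) L) ∧
      rpsi (ν + τ) ≤ rpsi (ν + Multiset.replicate (r + 1) L) +
        σ * (rpsi τ - rpsi (Multiset.replicate (r + 1) L)) := by
  obtain ⟨p, hp0, hp1, hp⟩ := rmixt L hL τ hτ
  have hLr : (0 : ℝ) < L := by exact_mod_cast hL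
  set f : ℕ → ℝ := fun j => rpsi (ν + Multiset.replicate j L) with hf
  set H : ℕ → ℝ := fun j => rpsi (Multiset.replicate j L) with hH
  have hHj : ∀ j, H j = hh j L := fun j => rpsi_rect j L
  have hHpos : ∀ j, 0 < H j := fun j => rpsi_pos _
  have hHs : ∀ j : ℕ, H (j + 1) * ((j : ℝ) + L + 1) = H j * ((j : ℝ) + 1) := by
    intro j
    rw [hHj, hHj, hh_succ]
    have h1 : (L : ℝ) + ((j : ℝ) + 1) ≠ 0 := by positivity
    field_simp
    ring
  have hd : ∀ j, 0 < H j - H (j + 1) := by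
    intro j
    have h1 := hHs j
    have h2 := hHpos (j + 1)
    have h3 : (0 : ℝ) < (j : ℝ) + 1 := by positivity
    have h4 : ((j : ℝ) + 1) * (H j - H (j + 1)) = L * H (j + 1) := by linarith
    have h5 : 0 < ((j : ℝ) + 1) * (H j - H (j + 1)) := by
      rw [h4]
      positivity
    exact (mul_pos_iff_of_pos_left h3).1 h5
  have hH2 : ∀ j : ℕ, ((j : ℝ) + 1) * (H j - H (j + 1)) =
      ((L : ℝ) + j + 2) * (H (j + 1) - H (j + 2)) := by
    intro j
    have h1 := hHs j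
    have h2 := hHs (j + 1)
    have e : j + 1 + 1 = j + 2 := rfl
    rw [e] at h2
    push_cast at h2
    linarith
  have hf2 : ∀ j : ℕ, ((j : ℝ) + 1) * (f j - f (j + 1)) ≤
      ((L : ℝ) + j + 2) * (f (j + 1) - f (j + 2)) := fun j => rctx2 L ν hν j
  have hm := c4_slope (L : ℝ) hLr.le f H hd hf2 hH2
  have hch := c4_chord f H hd hm r
  set σ := (f r - f (r + 1)) / (H r - H (r + 1)) with hσ
  have hσ0 : 0 ≤ σ := by
    apply div_nonneg _ (hd r).le
    have h1 : f (r + 1) ≤ f r := by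
      have h2 := rpsi_add_le (ν + Multiset.replicate r L) (Multiset.replicate 1 L)
      rw [add_assoc, ← Multiset.replicate_add] at h2
      exact h2
    linarith
  have hσH : σ * H (r + 1) ≤ f (r + 1) := by
    rw [hσ, div_mul_eq_mul_div, div_le_iff₀ (hd r)]
    have h1 := rctx1 L ν hν r
    have h2 := hHs r
    have h3 : (0 : ℝ) < (r : ℝ) + 1 := by positivity
    have h4 : ((r : ℝ) + 1) * f r ≤ ((L : ℝ) + r + 1) * f (r + 1) := h1
    have h5 : ((r : ℝ) + 1) * (f r * H (r + 1)) ≤ ((r : ℝ) + 1) * (f (r + 1) * H r) := by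
      have h6 := mul_le_mul_of_nonneg_right h4 (hHpos (r + 1)).le
      have e1 : ((L : ℝ) + r + 1) * f (r + 1) * H (r + 1) =
          f (r + 1) * (H (r + 1) * ((r : ℝ) + L + 1)) := by ring
      rw [e1, h2] at h6
      linarith
    have h7 := le_of_mul_le_mul_left h5 h3
    linarith
  have e1 : rpsi (ν + τ) = ∑ j ∈ range (τ.card + 1), p j * f j := hp ν hν
  have e2 : rpsi τ = ∑ j ∈ range (τ.card + 1), p j * H j := by
    have h1 := hp 0 (by simp)
    simp only [zero_add] at h1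
    exact h1
  refine ⟨σ, hσ0, ?_, hσH, ?_⟩
  · show σ * (H r - H (r + 1)) = f r - f (r + 1)
    rw [hσ, div_mul_cancel₀ _ (hd r).ne']
  · show rpsi (ν + τ) ≤ f (r + 1) + σ * (rpsi τ - H (r + 1))
    rw [e1]
    calc ∑ j ∈ range (τ.card + 1), p j * f j
        ≤ ∑ j ∈ range (τ.card + 1), p j * (f (r + 1) + σ * (H j - H (r + 1))) := by
          apply Finset.sum_le_sum
          intro j _
          exact mul_le_mul_of_nonneg_left (hch j) (hp0 j)
      _ = (∑ j ∈ range (τ.card + 1), p j) * (f (r + 1) - σ * H (r + 1)) +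
            σ * ∑ j ∈ range (τ.card + 1), p j * H j := by
          rw [Finset.sum_mul, Finset.mul_sum, ← Finset.sum_add_distrib]
          refine Finset.sum_congr rfl fun j _ => ?_
          ring
      _ = f (r + 1) + σ * (rpsi τ - H (r + 1)) := by
          rw [hp1, ← e2]
          ring

/-- one row `s ≤ L` is a mixture of no row and one row `L` -/
theorem A8_mix_one (L s : ℝ≥0) (hL : 0 < L) (hs : s ≤ L) : ∃ a b : ℝ, 0 ≤ a ∧ 0 ≤ b ∧ a + b = 1 ∧
    ∀ ν : Multiset ℝ≥0, (∀ x ∈ ν, L ≤ x) → ∀ r : ℕ,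
      rpsi (ν + (Multiset.replicate r L + {s})) =
        a * rpsi (ν + Multiset.replicate r L) + b * rpsi (ν + Multiset.replicate (r + 1) L) := by
  obtain ⟨p, hp0, hp1, hp⟩ := rmixt L hL {s} (fun x hx => by
    rw [Multiset.mem_singleton] at hx
    rw [hx]
    exact hs)
  rw [Multiset.card_singleton, Finset.sum_range_succ, Finset.sum_range_one] at hp1
  refine ⟨p 0, p 1, hp0 0, hp0 1, hp1, fun ν hν r => ?_⟩
  have h := hp (ν + Multiset.replicate r L) (fun x hx => by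
    rcases Multiset.mem_add.1 hx with h1 | h1
    · exact hν x h1
    · exact (Multiset.eq_of_mem_replicate h1).ge)
  rw [Multiset.card_singleton, Finset.sum_range_succ, Finset.sum_range_one, add_assoc, add_assoc,
    add_assoc, ← Multiset.replicate_add, ← Multiset.replicate_add, add_zero] at h
  exact h

/-- Copy of `LRT.dom` (LRT/C4.lean) with `rmixt`, `rctx1`, `rctx2`, `rpsi_rect`, `rpsi_add_le`,
`rpsi_pos`; `c4_slope`, `c4_chord` can be used from LRT.C4. Here `H_j = rpsi(L^j) = hh j L`,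
`(L + j + 1) H_{j+1} = (j+1) H_j` (`hh_succ`). -/
theorem rdom (L : ℝ≥0) (hL : 0 < L) (r : ℕ) (ν τ : Multiset ℝ≥0) (κ : ℝ) (hκ : 1 ≤ κ)
    (hν : ∀ x ∈ ν, L ≤ x) (hτ : ∀ x ∈ τ, x ≤ L)
    (h : rpsi τ ≤ κ * rpsi (Multiset.replicate r L)) :
    rpsi (ν + τ) ≤ κ * rpsi (ν + Multiset.replicate r L) := by
  rcases r with _ | r
  · have h1 := rpsi_add_le ν τ
    have h2 := (rpsi_pos ν).le
    have e0 : ν + Multiset.replicate 0 L = ν := by simp
    rw [e0]
    exact h1.trans (le_mul_of_one_le_left h2 hκ)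
  obtain ⟨σ, hσ0, _, hσ2, hσ3⟩ := A8_secant L r ν τ hL hν hτ
  have h1 : σ * (rpsi τ - rpsi (Multiset.replicate (r + 1) L)) ≤
      σ * ((κ - 1) * rpsi (Multiset.replicate (r + 1) L)) :=
    mul_le_mul_of_nonneg_left (by linarith) hσ0
  have h2 : (κ - 1) * (σ * rpsi (Multiset.replicate (r + 1) L)) ≤
      (κ - 1) * rpsi (ν + Multiset.replicate (r + 1) L) :=
    mul_le_mul_of_nonneg_left hσ2 (by linarith)
  linarith

/-- Copy of `secant`, `mix_one`, `dom_near` (LRT/C5.lean). -/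
theorem rdom_near (L s : ℝ≥0) (hL : 0 < L) (hs : s ≤ L) (r : ℕ) (ν τ : Multiset ℝ≥0) (κ : ℝ)
    (hκ : 1 ≤ κ) (hν : ∀ x ∈ ν, L ≤ x) (hτ : ∀ x ∈ τ, x ≤ L)
    (h : rpsi τ ≤ κ * rpsi (Multiset.replicate r L + {s})) :
    rpsi (ν + τ) ≤ κ * rpsi (ν + (Multiset.replicate r L + {s})) := by
  obtain ⟨σ, hσ0, hσ1, hσ2, hσ3⟩ := A8_secant L r ν τ hL hν hτ
  obtain ⟨a, b, ha, hb, hab, hmix⟩ := A8_mix_one L s hL hs
  have e1 := hmix ν hν r
  have e2 := hmix 0 (by simp) r
  simp only [zero_add] at e2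
  set F0 := rpsi (ν + Multiset.replicate r L)
  set F1 := rpsi (ν + Multiset.replicate (r + 1) L)
  set H0 := rpsi (Multiset.replicate r L)
  set H1 := rpsi (Multiset.replicate (r + 1) L)
  rw [e2] at h
  rw [e1]
  have h1 : σ * rpsi τ ≤ σ * (κ * (a * H0 + b * H1)) := mul_le_mul_of_nonneg_left h hσ0
  have hb' : b = 1 - a := by linarith
  subst hb'
  have h2 : σ * (κ * (a * H0 + (1 - a) * H1)) = κ * (a * (F0 - F1)) + κ * (σ * H1) := by
    rw [← hσ1]
    ring
  have h3 : (κ - 1) * (σ * H1) ≤ (κ - 1) * F1 := mul_le_mul_of_nonneg_left hσ2 (by linarith)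
  nlinarith


end Pool.Agent.LRQ
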