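import Mathlib
import Pool.Agent.LRQ.A5

set_option autoImplicit false

/-! # [LRQ-A9] explicit bounds for two blocks -/

namespace Pool.Agent.LRQ

open Finset
open Pool.Agent.LRE Pool.Agent.LRT
open scoped NNReal

/-- The recursion for two blocks. -/
theorem a9_rec (a c : ℕ) (w W : ℝ≥0) (hW : W ≤ w) :
    ((w : ℝ) + ((a : ℝ) + 1) + c) *
        rpsi (Multiset.replicate (a + 1) w + Multiset.replicate c W) =
      ((a : ℝ) + 1) * rpsi (Multiset.replicate a w + Multiset.replicate c W) +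
        (c : ℝ) * rpsi (Multiset.replicate (a + 1) w + Multiset.replicate (c - 1) W) := by
  have h := rpsi_rec (Multiset.replicate (a + 1) w + Multiset.replicate c W)
  have hsup : (Multiset.replicate (a + 1) w + Multiset.replicate c W).sup = w := by
    apply le_antisymm
    · rw [Multiset.sup_le]
      intro b hb
      rcases Multiset.mem_add.1 hb with hb | hb
      · rw [Multiset.eq_of_mem_replicate hb]
      · rw [Multiset.eq_of_mem_replicate hb]
        exact hW
    · exact Multiset.le_sup (Multiset.mem_add.2 (Or.inl (Multiset.mem_replicate.2 ⟨by omega, rfl⟩)))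
  have he1 : (Multiset.replicate (a + 1) w + Multiset.replicate c W).erase w =
      Multiset.replicate a w + Multiset.replicate c W := by
    rw [Multiset.erase_add_left_pos _ (Multiset.mem_replicate.2 ⟨by omega, rfl⟩),
      Multiset.replicate_succ, Multiset.erase_cons_head]
  have he2 : (c : ℝ) * rpsi ((Multiset.replicate (a + 1) w + Multiset.replicate c W).erase W) =
      (c : ℝ) * rpsi (Multiset.replicate (a + 1) w + Multiset.replicate (c - 1) W) := by
    rcases Nat.eq_zero_or_pos c with rfl | hc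
    · simp
    · obtain ⟨c', rfl⟩ : ∃ c', c = c' + 1 := ⟨c - 1, by omega⟩
      rw [Multiset.erase_add_right_pos _ (Multiset.mem_replicate.2 ⟨by omega, rfl⟩),
        Multiset.replicate_succ W c', Multiset.erase_cons_head, Nat.add_sub_cancel]
  rw [hsup, Multiset.map_add, Multiset.sum_add, Multiset.map_replicate, Multiset.map_replicate,
    Multiset.sum_replicate, Multiset.sum_replicate, nsmul_eq_mul, nsmul_eq_mul, he1, he2,
    Multiset.card_add, Multiset.card_replicate, Multiset.card_replicate] at h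
  push_cast at h
  linear_combination h

/-- `hh (c+1) b (b + c + 1) = (c + 1) hh c b`. -/
theorem a9_hh (c : ℕ) {b : ℝ} (hb : 0 ≤ b) :
    (b + c + 1) * hh (c + 1) b = ((c : ℝ) + 1) * hh c b := by
  rw [hh_succ]
  have h : b + ((c : ℝ) + 1) ≠ 0 := by positivity
  field_simp
  ring

/-- The arithmetic step of `rSG`. -/
theorem a9_ar (L w t P R : ℝ) (hL : 0 ≤ L) (ht : 1 ≤ t) (hw : L ≤ w) (hP : 0 ≤ P)
    (h : (w + t + 1) * (L + t) * R ≤ P * (L + t + t * (w + t))) :
    (L + t + 1) * R ≤ (t + 1) * P := by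
  have h1 : 0 < (w + t + 1) * (L + t) := by
    have : 0 ≤ w := hL.trans hw
    positivity
  have h2 : (L + t + t * (w + t)) * (L + t + 1) ≤ (t + 1) * ((w + t + 1) * (L + t)) := by
    nlinarith [mul_nonneg (sub_nonneg.2 hw) hL]
  have h3 : (L + t + 1) * R * ((w + t + 1) * (L + t)) ≤ (t + 1) * P * ((w + t + 1) * (L + t)) := by
    have h4 := mul_le_mul_of_nonneg_left h (show (0 : ℝ) ≤ L + t + 1 by positivity)
    have h5 := mul_le_mul_of_nonneg_left h2 hP
    nlinarith [h4, h5]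
  exact le_of_mul_le_mul_right h3 h1

/-- One more row of the least length. Induction on `t = ν.card`. `ν = 0`: equality
(`rpsi {L} = 1/(L+1)`). Step `t ≥ 1`, `w = ν.sup ≥ L`: `rpsi_rec` for `ν + {L}`:
`(w+t+1) rpsi(ν+{L}) = rpsi ν + ∑_{z∈ν} rpsi(ν.erase z + {L}) ≤ rpsi ν + (t/(L+t)) ∑_z rpsi(ν.erase z)
= rpsi ν (1 + t (w+t)/(L+t))`, and `(L+t+t(w+t)) (L+t+1) ≤ (t+1)(w+t+1)(L+t)`: at `w = L` equality, and
the difference right minus left is `(w - L)` times
`(t+1)(L+t) - t (L+t+1) = L ≥ 0`. -/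
theorem rSG (L : ℝ≥0) (ν : Multiset ℝ≥0) (hν : ∀ x ∈ ν, L ≤ x) :
    ((L : ℝ) + ν.card + 1) * rpsi (ν + {L}) ≤ ((ν.card : ℝ) + 1) * rpsi ν := by
  obtain ⟨n, hn⟩ : ∃ n, ν.card = n := ⟨_, rfl⟩
  induction n generalizing ν with
  | zero =>
    rw [Multiset.card_eq_zero.1 hn]
    have h := a9_rec 0 0 L L le_rfl
    simp only [Multiset.replicate_zero, add_zero, zero_add, Nat.cast_zero, zero_mul,
      Multiset.replicate_one, one_mul] at h
    rw [Multiset.card_zero, zero_add]
    simp only [Nat.cast_zero, add_zero, zero_add, one_mul]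
    exact h.le
  | succ n ih =>
    have hne : ν ≠ 0 := by
      rintro rfl
      simp at hn
    obtain ⟨a, ha⟩ := Multiset.exists_mem_of_ne_zero hne
    have hLs : L ≤ ν.sup := (hν a ha).trans (Multiset.le_sup ha)
    have h := rpsi_rec (ν + {L})
    have hsup : (ν + {L}).sup = ν.sup := by
      rw [Multiset.sup_add, Multiset.sup_singleton, sup_eq_left.2 hLs]
    have he : (ν + {L}).erase L = ν := by
      rw [Multiset.erase_add_right_pos _ (Multiset.mem_singleton_self L)]
      simp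
    have hm : (ν.map fun x => rpsi ((ν + {L}).erase x)) =
        (ν.map fun x => rpsi (ν.erase x + {L})) := by
      refine Multiset.map_congr rfl fun x hx => ?_
      rw [Multiset.erase_add_left_pos _ hx]
    rw [hsup, Multiset.map_add, Multiset.sum_add, Multiset.map_singleton, Multiset.sum_singleton,
      he, hm, Multiset.card_add, Multiset.card_singleton, hn] at h
    have h0 := rpsi_rec ν
    rw [hn] at h0
    have h1 : ((L : ℝ) + (n + 1)) * (ν.map fun x => rpsi (ν.erase x + {L})).sum ≤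
        ((n : ℝ) + 1) * (ν.map fun x => rpsi (ν.erase x)).sum := by
      rw [← Multiset.sum_map_mul_left, ← Multiset.sum_map_mul_left]
      refine Multiset.sum_map_le_sum_map _ _ fun x hx => ?_
      have hc : (ν.erase x).card = n := by
        rw [Multiset.card_erase_of_mem hx, hn]
        rfl
      have h2 := ih (ν.erase x) (fun y hy => hν y (Multiset.mem_of_mem_erase hy)) hc
      rw [hc] at h2
      linarith
    rw [← h0] at h1
    rw [hn]
    have hw : (L : ℝ) ≤ (ν.sup : ℝ) := by exact_mod_cast hLs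
    refine a9_ar (L : ℝ) (ν.sup : ℝ) ((n + 1 : ℕ) : ℝ) _ _ L.2 ?_ hw (rpsi_pos _).le ?_
    · push_cast
      linarith [Nat.cast_nonneg (α := ℝ) n]
    · push_cast at h h1 ⊢
      have hLn : (0 : ℝ) ≤ L + (n + 1) := by positivity
      have h3 : ((ν.sup : ℝ) + (n + 1) + 1) * (L + (n + 1)) * rpsi (ν + {L}) =
          (L + (n + 1)) * (((ν.sup : ℝ) + (n + 1 + 1)) * rpsi (ν + {L})) := by ring
      rw [h3, h]
      nlinarith [h1]

/-- `h(a,c) = hh c W · hh a (w-W)`. Induction on `a + c`. `a = 0`: `rpsi_rect` (equality). `c = 0`: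
`rpsi(w^a) = hh a w ≤ hh a (w-W)` (`hh_anti`). `a, c ≥ 1`: `rpsi_rec`
`(w+a+c) F(a,c) = a F(a-1,c) + c F(a,c-1)`, and `h` satisfies the same equation because
`a hh (a-1) x = (x+a) hh a x` (`hh_succ`): `a h(a-1,c) + c h(a,c-1) = (w-W+a) h + (W+c) h`. -/
theorem rH (a c : ℕ) (w W : ℝ≥0) (hW : W ≤ w) :
    rpsi (Multiset.replicate a w + Multiset.replicate c W) ≤ hh c (W : ℝ) * hh a ((w : ℝ) - W) := by
  have hWw : (W : ℝ) ≤ w := by exact_mod_cast hW
  have hd : (0 : ℝ) ≤ (w : ℝ) - W := sub_nonneg.2 hWw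
  have hW0 : (0 : ℝ) ≤ W := W.2
  have hw0 : (0 : ℝ) ≤ w := w.2
  obtain ⟨n, hn⟩ : ∃ n, a + c = n := ⟨_, rfl⟩
  induction n generalizing a c with
  | zero =>
    obtain ⟨rfl, rfl⟩ : a = 0 ∧ c = 0 := by omega
    simp [hh_zero, rpsi_zero]
  | succ n ih =>
    rcases Nat.eq_zero_or_pos a with rfl | ha
    · rw [Multiset.replicate_zero, zero_add, rpsi_rect, hh_zero, mul_one]
    · obtain ⟨a, rfl⟩ : ∃ a', a = a' + 1 := ⟨a - 1, by omega⟩
      have h := a9_rec a c w W hW
      have h1 := ih a c (by omega)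
      have h3 := a9_hh a hd
      have hp1 := hh_pos c hW0
      have hp2 := hh_pos (a + 1) hd
      have hpos : (0 : ℝ) < (w : ℝ) + ((a : ℝ) + 1) + c := by positivity
      refine le_of_mul_le_mul_left ?_ hpos
      rw [h]
      rcases Nat.eq_zero_or_pos c with rfl | hc
      · rw [hh_zero, one_mul] at h1 ⊢
        have ha0 : (0 : ℝ) ≤ (a : ℝ) + 1 := by positivity
        have h4 := mul_le_mul_of_nonneg_left h1 ha0
        have h5 := mul_nonneg hW0 hp2.le
        simp only [Nat.cast_zero, zero_mul, add_zero] at *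
        nlinarith [h4, h5, h3]
      · obtain ⟨c, rfl⟩ : ∃ c', c = c' + 1 := ⟨c - 1, by omega⟩
        have h2 := ih (a + 1) c (by omega)
        have h6 := a9_hh c hW0
        rw [Nat.add_sub_cancel]
        have ha0 : (0 : ℝ) ≤ (a : ℝ) + 1 := by positivity
        have hc0 : (0 : ℝ) ≤ ((c + 1 : ℕ) : ℝ) := by positivity
        have h4 := mul_le_mul_of_nonneg_left h1 ha0
        have h5 := mul_le_mul_of_nonneg_left h2 hc0
        have h7 : ((a : ℝ) + 1) * (hh (c + 1) (W : ℝ) * hh a ((w : ℝ) - W)) =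
            hh (c + 1) (W : ℝ) * (((w : ℝ) - W + a + 1) * hh (a + 1) ((w : ℝ) - W)) := by
          rw [h3]
          ring
        have h8 : ((c + 1 : ℕ) : ℝ) * (hh c (W : ℝ) * hh (a + 1) ((w : ℝ) - W)) =
            (((W : ℝ) + c + 1) * hh (c + 1) (W : ℝ)) * hh (a + 1) ((w : ℝ) - W) := by
          rw [h6]
          push_cast
          ring
        rw [h7] at h4
        rw [h8] at h5
        refine (add_le_add h4 h5).trans (le_of_eq ?_)
        push_cast
        ring

/-- Exact value for one long row. Induction on `c`. `c = 0`: `rpsi {w} = 1/(w+1)`,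
`(w-W+1)/(w+1) = 1 - W/(w+1)`. Step: `(w+c+2) F(c+1) = rpsi(W^{c+1}) + (c+1) F(c)`
(`rpsi_rec`, `rpsi_rect`); multiply by `w - W + 1`, use the hypothesis and
`(W+c+1) hh (c+1) W = (c+1) hh c W`, `(w+c+2) hh (c+2) w = (c+2) hh (c+1) w`:
`(w-W+1) hh(c+1,W) + (c+1) hh(c,W) - W hh(c+1,w) = (w+c+2) hh(c+1,W) - W hh(c+1,w)`
`= (w+c+2) [hh(c+1,W) - (W/(c+2)) hh(c+2,w)]`. -/
theorem rH1 (c : ℕ) (w W : ℝ≥0) (hW : W ≤ w) :
    rpsi ({w} + Multiset.replicate c W) * ((w : ℝ) - W + 1) =
      hh c (W : ℝ) - (W : ℝ) / ((c : ℝ) + 1) * hh (c + 1) (w : ℝ) := by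
  have hWw : (W : ℝ) ≤ w := by exact_mod_cast hW
  have hd : (0 : ℝ) ≤ (w : ℝ) - W := sub_nonneg.2 hWw
  have hW0 : (0 : ℝ) ≤ W := W.2
  have hw0 : (0 : ℝ) ≤ w := w.2
  induction c with
  | zero =>
    have h := a9_rec 0 0 w W hW
    simp only [Multiset.replicate_zero, add_zero, zero_add, Nat.cast_zero, zero_mul,
      Multiset.replicate_one, one_mul, rpsi_zero] at h
    have h3 := a9_hh 0 hw0
    simp only [hh_zero, zero_add, Nat.cast_zero, add_zero, mul_one] at h3
    rw [Multiset.replicate_zero, add_zero, hh_zero, Nat.cast_zero, zero_add, div_one, zero_add]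
    have hpos : (0 : ℝ) < (w : ℝ) + 1 := by positivity
    have e1 : rpsi {w} = 1 / ((w : ℝ) + 1) := by
      rw [eq_div_iff hpos.ne', mul_comm]
      exact h
    have e2 : hh 1 (w : ℝ) = 1 / ((w : ℝ) + 1) := by
      rw [eq_div_iff hpos.ne', mul_comm]
      exact h3
    rw [e1, e2]
    field_simp
    ring
  | succ c ih =>
    have h := a9_rec 0 (c + 1) w W hW
    rw [Nat.add_sub_cancel, Multiset.replicate_zero, zero_add, zero_add, rpsi_rect,
      Multiset.replicate_one] at h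
    have h1 := a9_hh c hW0
    have h2 := a9_hh (c + 1) hw0
    have hpos : (0 : ℝ) < (w : ℝ) + c + 2 := by positivity
    have hc2 : ((c : ℝ) + 1 + 1) ≠ 0 := by positivity
    have hc1 : ((c : ℝ) + 1) ≠ 0 := by positivity
    refine mul_left_cancel₀ hpos.ne' ?_
    push_cast at h h1 h2 ih ⊢
    have e1 : ((w : ℝ) + c + 2) * (rpsi ({w} + Multiset.replicate (c + 1) W) * ((w : ℝ) - W + 1)) =
        ((w : ℝ) - W + 1) * hh (c + 1) (W : ℝ) +
          ((c : ℝ) + 1) * (rpsi ({w} + Multiset.replicate c W) * ((w : ℝ) - W + 1)) := by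
      linear_combination ((w : ℝ) - W + 1) * h
    rw [e1, ih]
    have e2 : ((w : ℝ) + c + 2) * (hh (c + 1) (W : ℝ) -
        (W : ℝ) / ((c : ℝ) + 1 + 1) * hh (c + 1 + 1) (w : ℝ)) =
        ((w : ℝ) + c + 2) * hh (c + 1) (W : ℝ) - (W : ℝ) / ((c : ℝ) + 1 + 1) *
          (((w : ℝ) + (c + 1) + 1) * hh (c + 1 + 1) (w : ℝ)) := by ring
    rw [e2, h2]
    have e3 : (W : ℝ) / ((c : ℝ) + 1 + 1) * (((c : ℝ) + 1 + 1) * hh (c + 1) (w : ℝ)) =
        (W : ℝ) * hh (c + 1) (w : ℝ) := by
      field_simp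
    have e4 : ((c : ℝ) + 1) * (hh c (W : ℝ) - (W : ℝ) / ((c : ℝ) + 1) * hh (c + 1) (w : ℝ)) =
        ((c : ℝ) + 1) * hh c (W : ℝ) - (W : ℝ) * hh (c + 1) (w : ℝ) := by
      field_simp
    rw [e3, e4, ← h1]
    ring

/-- The arithmetic step of `rInv`. -/
theorem a9_key (W c e : ℝ) (hW : 1 ≤ W) (hc : 0 ≤ c) (he : 0 ≤ e) (hT : 0 < c * W + e + 1)
    (hS : 0 < (c + 1) * W + e) :
    ((c + 1) * (1 / (c * W + e + 1)) + e * (1 / ((c + 1) * W + e))) *
      ((c + 1) * W + e + 1) ≤ W + (c + 1) + e := by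
  have h1 : (c + 1) * (1 / (c * W + e + 1)) * ((c + 1) * W + e + 1) =
      (c + 1) + (c + 1) * W / (c * W + e + 1) := by
    field_simp
    ring
  have h2 : e * (1 / ((c + 1) * W + e)) * ((c + 1) * W + e + 1) = e + e / ((c + 1) * W + e) := by
    field_simp
  rw [add_mul, h1, h2]
  have h3 : W - (c + 1) * W / (c * W + e + 1) = W * (c * (W - 1) + e) / (c * W + e + 1) := by
    field_simp
    ring
  have h4 : e / ((c + 1) * W + e) ≤ W * (c * (W - 1) + e) / (c * W + e + 1) := by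
    rw [div_le_div_iff₀ hS hT]
    have h5 : 0 ≤ c * (W - 1) := mul_nonneg hc (by linarith)
    have h6 : e * (c * W + e + 1) ≤ e * (W * ((c + 1) * W + e)) := by
      refine mul_le_mul_of_nonneg_left ?_ he
      nlinarith [mul_nonneg (sub_nonneg.2 hW) hS.le]
    have h7 : 0 ≤ W * (c * (W - 1)) * ((c + 1) * W + e) := by positivity
    nlinarith [h6, h7]
  linarith [h3, h4]

/-- Rows `≥ 1` of two lengths: `rpsi(W^c, 1^e) ≤ 1/(c W + e + 1)` for `W ≥ 1`. Induction on `c + e`.
`c = 0`: `hh e 1 = 1/(e+1)`. `c ≥ 1`: with `S = c W + e`, `rpsi_rec` gives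
`(W+c+e) P = c P(c-1,e) + e P(c,e-1) ≤ c/(S-W+1) + e/S`, and `c/(S-W+1) + e/S ≤ (W+c+e)/(S+1)` is
equivalent to `c W/(S-W+1) + e/S ≤ W`, which holds: `W - c W/(S-W+1) = W ((c-1)(W-1)+e)/(S-W+1)
≥ W e/(S-W+1) ≥ e/S` because `W S ≥ S - W + 1` (`W ≥ 1`, `S ≥ c W ≥ 1`). -/
theorem rInv (c e : ℕ) (W : ℝ≥0) (hW : 1 ≤ W) :
    rpsi (Multiset.replicate c W + Multiset.replicate e 1) * ((c : ℝ) * W + e + 1) ≤ 1 := by
  have hW1 : (1 : ℝ) ≤ W := by exact_mod_cast hW
  obtain ⟨n, hn⟩ : ∃ n, c + e = n := ⟨_, rfl⟩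
  induction n generalizing c e with
  | zero =>
    obtain ⟨rfl, rfl⟩ : c = 0 ∧ e = 0 := by omega
    simp [rpsi_zero]
  | succ n ih =>
    rcases Nat.eq_zero_or_pos c with rfl | hc
    · rw [Multiset.replicate_zero, zero_add, rpsi_rect]
      have h := hh_add_one e (le_refl (0 : ℝ))
      rw [hh_zero_right, zero_add, zero_add, one_mul] at h
      rw [NNReal.coe_one, h, Nat.cast_zero, zero_mul, zero_add]
      have : (0 : ℝ) < (e : ℝ) + 1 := by positivity
      rw [one_div, inv_mul_cancel₀ this.ne']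
    · obtain ⟨c, rfl⟩ : ∃ c', c = c' + 1 := ⟨c - 1, by omega⟩
      have h := a9_rec c e W 1 hW
      have h1 := ih c e (by omega)
      have hT : (0 : ℝ) < (c : ℝ) * W + e + 1 := by positivity
      have hS : (0 : ℝ) < ((c + 1 : ℕ) : ℝ) * W + e := by
        push_cast
        have : (0 : ℝ) < W := by linarith
        positivity
      have hx : rpsi (Multiset.replicate c W + Multiset.replicate e 1) ≤
          1 / ((c : ℝ) * W + e + 1) := by
        rwa [le_div_iff₀ hT]
      have hy : (e : ℝ) * rpsi (Multiset.replicate (c + 1) W + Multiset.replicate (e - 1) 1) ≤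
          (e : ℝ) * (1 / (((c + 1 : ℕ) : ℝ) * W + e)) := by
        rcases Nat.eq_zero_or_pos e with rfl | he
        · simp
        · obtain ⟨e, rfl⟩ : ∃ e', e = e' + 1 := ⟨e - 1, by omega⟩
          have h2 := ih (c + 1) e (by omega)
          rw [Nat.add_sub_cancel]
          refine mul_le_mul_of_nonneg_left ?_ (by positivity)
          rw [le_div_iff₀ hS]
          refine le_trans (le_of_eq ?_) h2
          push_cast
          ring
      have hM : (0 : ℝ) < (W : ℝ) + ((c : ℝ) + 1) + e := by positivity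
      have hx' := mul_le_mul_of_nonneg_left hx (show (0 : ℝ) ≤ (c : ℝ) + 1 by positivity)
      have key : (((c : ℝ) + 1) * (1 / ((c : ℝ) * W + e + 1)) +
          (e : ℝ) * (1 / (((c + 1 : ℕ) : ℝ) * W + e))) * (((c + 1 : ℕ) : ℝ) * W + e + 1) ≤
          (W : ℝ) + ((c : ℝ) + 1) + e := by
        push_cast at hS ⊢
        exact a9_key (W : ℝ) (c : ℝ) (e : ℝ) hW1 (by positivity) (by positivity) hT hS
      refine le_of_mul_le_mul_left ?_ hM
      rw [mul_one, ← mul_assoc, h]
      refine le_trans (mul_le_mul_of_nonneg_right (add_le_add hx' hy) ?_) key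
      positivity

end Pool.Agent.LRQ
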