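import Mathlib
import Pool.Agent.LRT.Defs

set_option autoImplicit false

/-!
# LRQ: numbers of the box argument (definitions, no open row in this file)
-/

namespace Pool.Agent.LRQ

open Finset
open Pool.Agent.LRE Pool.Agent.LRT

/-- the chord value of `hh q (w - d/q) / hh q w` -/
noncomputable def hq (w q d : ℕ) : ℝ :=
  (∏ i ∈ range (d / q), (1 + (q : ℝ) / ((w : ℝ) - i))) *
    (1 + ((d % q : ℕ) : ℝ) / ((w : ℝ) - (d / q : ℕ)))

/-- `hh (r - j) (w + j) / hh r w` -/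
noncomputable def GG (w r j : ℕ) : ℝ := ∏ i ∈ range j, ((w : ℝ) + i + 1) / ((r : ℝ) - i)

/-- the value of the shapes with short middle rows -/
noncomputable def RB (a q w d : ℕ) : ℝ :=
  ((d : ℝ) / q - a + 1) * (∏ i ∈ range a, ((w : ℝ) + q - i) / ((w : ℝ) - i)) *
    ∏ i ∈ range a, ((i : ℝ) + 1) * ((w : ℝ) + q + (i + 1)) /
      (((q : ℝ) + (i + 1)) * ((w : ℝ) - q + (i + 1)))

/-- `T * hh r w` bounds all admissible near-rectangles -/
def TT (w r d : ℕ) (T : ℝ) : Prop :=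
  ∀ c : ℕ, 1 ≤ c → c ≤ w + r → r * w ≤ c * (w + r - c) + d →
    NN c (r * w - d) ≤ T * hh r (w : ℝ)

end Pool.Agent.LRQ
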