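import Mathlib
import Pool.Agent.LRQ.A3
import Pool.Agent.LRQ.Num
import Pool.Agent.LRT.D1

set_option autoImplicit false

/-! # [LRQ-AH] rows `w^a, W^q` -/

namespace Pool.Agent.LRQ

open Finset
open Pool.Agent.LRE Pool.Agent.LRT
open scoped NNReal

/-- `PB` (LRT/D1.lean) for two blocks: if all `d (p+1)`, `p < w`, are `0` or `q` then
`gq (a+q) (d (p+1)) = d (p+1)/(a+1)` (both for `0` and for `q`), so
`Ph (a+q) d w * (a+1) = PP d w - 1` by induction on `w` (`Ph_succ`, `PP_succ`). -/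
theorem ah_Ph (a q : ℕ) (d : ℕ → ℕ) (w : ℕ) (h : ∀ p, p < w → d (p + 1) = 0 ∨ d (p + 1) = q) :
    Ph (a + q) d w * ((a : ℝ) + 1) = PP d w - 1 := by
  induction w with
  | zero => rw [Ph_zero, PP_zero, zero_mul, sub_self]
  | succ w ih =>
    have h1 := ih fun p hp => h p (by omega)
    have h2 : gq (a + q) (d (w + 1)) * ((a : ℝ) + 1) = d (w + 1) := by
      rcases h w (by omega) with h3 | h3
      · rw [h3]
        unfold gq
        simp
      · rw [h3]
        unfold gq
        push_cast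
        have h4 : (a : ℝ) + q + 1 - q = a + 1 := by ring
        rw [h4, div_mul_cancel₀]
        positivity
    rw [Ph_succ, PP_succ, add_mul, h1]
    have h5 : gq (a + q) (d (w + 1)) / ((w : ℝ) + 1) * PP d w * ((a : ℝ) + 1) =
        (gq (a + q) (d (w + 1)) * ((a : ℝ) + 1)) / ((w : ℝ) + 1) * PP d w := by ring
    rw [h5, h2]
    ring

/-- the deficits of `w^a, (w-n)^q` -/
theorem ah_dd (a q w v p : ℕ) (hp : p ≤ w) :
    dd (Multiset.replicate a w + Multiset.replicate q v) p = if v < p then q else 0 := by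
  unfold dd
  rw [Multiset.countP_add]
  have h1 : (Multiset.replicate a w).countP (fun x => x < p) = 0 := by
    rw [Multiset.countP_eq_zero]
    intro x hx
    rw [Multiset.eq_of_mem_replicate hx]
    omega
  rw [h1, zero_add]
  split_ifs with h
  · have h2 : (Multiset.replicate q v).countP (fun x => x < p) = (Multiset.replicate q v).card := by
      rw [Multiset.countP_eq_card]
      intro x hx
      rw [Multiset.eq_of_mem_replicate hx]
      exact h
    rw [h2, Multiset.card_replicate]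
  · rw [Multiset.countP_eq_zero]
    intro x hx
    rw [Multiset.eq_of_mem_replicate hx]
    exact h

/-- the product of `w^a, m^q`, `w = m + n` -/
theorem ah_PP (a q m n : ℕ) :
    PP (dd (Multiset.replicate a (m + n) + Multiset.replicate q m)) (m + n) =
      ∏ i ∈ range n, (1 + (q : ℝ) / (((m + n : ℕ) : ℝ) - i)) := by
  unfold PP
  rw [Finset.prod_range_add]
  have h1 : ∏ x ∈ range m, (1 + ((dd (Multiset.replicate a (m + n) + Multiset.replicate q m)
      (x + 1) : ℕ) : ℝ) / ((x : ℝ) + 1)) = 1 := by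
    apply prod_eq_one
    intro x hx
    rw [mem_range] at hx
    rw [ah_dd a q (m + n) m (x + 1) (by omega), if_neg (by omega)]
    simp
  rw [h1, one_mul, ← Finset.prod_range_reflect]
  apply prod_congr rfl
  intro i hi
  rw [mem_range] at hi
  rw [ah_dd a q (m + n) m (m + (n - 1 - i) + 1) (by omega), if_pos (by omega)]
  have h2 : ((m + (n - 1 - i) : ℕ) : ℝ) + 1 = ((m + n : ℕ) : ℝ) - i := by
    have h3 : (m + (n - 1 - i)) + 1 + i = m + n := by omega
    have h4 : (((m + (n - 1 - i)) + 1 + i : ℕ) : ℝ) = ((m + n : ℕ) : ℝ) := by rw [h3]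
    push_cast at h4 ⊢
    linarith
  rw [h2]

/-- Integer case. `s = w^a + (w-n)^q`, `n ≤ w`: `dd s p = 0` for `p ≤ w - n` and `= q` for
`w - n < p ≤ w`; `PP (dd s) w = ∏_{i<n} (1 + q/(w-i))` (induction on `n`, or on `w`).
`PB s w` and `ah_Ph`: `psi s ≤ hh w (a+q) (1 + (PP - 1)/(a+1))`; `hh_symm`. -/
theorem ah_int (a q w n : ℕ) (hn : n ≤ w) :
    psi (Multiset.replicate a w + Multiset.replicate q (w - n)) * ((a : ℝ) + 1) ≤
      hh (a + q) (w : ℝ) * (a + ∏ i ∈ range n, (1 + (q : ℝ) / ((w : ℝ) - i))) := by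
  obtain ⟨m, rfl⟩ : ∃ m, w = m + n := ⟨w - n, by omega⟩
  rw [Nat.add_sub_cancel]
  have h1 := PB (Multiset.replicate a (m + n) + Multiset.replicate q m) (m + n) (by
    intro x hx
    rcases Multiset.mem_add.1 hx with h | h
    · rw [Multiset.eq_of_mem_replicate h]
    · rw [Multiset.eq_of_mem_replicate h]
      omega)
  have h2 := ah_Ph a q (dd (Multiset.replicate a (m + n) + Multiset.replicate q m)) (m + n) (by
    intro p hp
    rw [ah_dd a q (m + n) m (p + 1) (by omega)]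
    split_ifs
    · exact Or.inr rfl
    · exact Or.inl rfl)
  rw [Multiset.card_add, Multiset.card_replicate, Multiset.card_replicate, hh_symm] at h1
  rw [ah_PP] at h2
  have ha : (0 : ℝ) ≤ (a : ℝ) + 1 := by positivity
  have h3 := mul_le_mul_of_nonneg_right h1 ha
  rw [mul_assoc, add_mul, one_mul, h2] at h3
  have h4 : (a : ℝ) + 1 + (∏ i ∈ range n, (1 + (q : ℝ) / (((m + n : ℕ) : ℝ) - i)) - 1) =
      a + ∏ i ∈ range n, (1 + (q : ℝ) / (((m + n : ℕ) : ℝ) - i)) := by ring
  rw [h4] at h3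
  exact h3

/-- `W = w - d/q`, `n = d/q` (integer part), `f = (d % q)/q`: if `d % q = 0` this is `ah_int`.
Otherwise `n + 1 ≤ w` and `W = (1-f)(w-n) + f (w-n-1)`; `chord_blocks` (with `P = w^a`, `c1 = q`,
`c2 = 0`, `R = 0`) and `ah_int` for `n` and `n+1` (`rpsi_cst`):
`(1-f)(a + P_n) + f (a + P_n (1 + q/(w-n))) = a + P_n (1 + (d%q)/(w-n))`. -/
theorem Ah (a q w d : ℕ) (W : ℝ≥0) (hq1 : 1 ≤ q) (hW : (q : ℝ) * (W : ℝ) + d = q * w)
    (hd : d < q * w) :
    rpsi (Multiset.replicate a (w : ℝ≥0) + Multiset.replicate q W) * ((a : ℝ) + 1) ≤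
      hh (a + q) (w : ℝ) * (a + hq w q d) := by
  obtain ⟨n, hn⟩ : ∃ n, n = d / q := ⟨_, rfl⟩
  obtain ⟨r, hr⟩ : ∃ r, r = d % q := ⟨_, rfl⟩
  have hdr : q * n + r = d := by rw [hn, hr]; exact Nat.div_add_mod d q
  have hrq : r < q := by rw [hr]; exact Nat.mod_lt _ (by omega)
  have hnw : n < w := by
    by_contra h
    have h1 : q * w ≤ q * n := Nat.mul_le_mul_left q (by omega)
    omega
  have hq0 : (0 : ℝ) < q := by exact_mod_cast hq1
  have hrq' : (r : ℝ) ≤ q := by exact_mod_cast hrq.le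
  have hf : (r : ℝ) / q ≤ 1 := by rw [div_le_one hq0]; exact hrq'
  have hf0 : (0 : ℝ) ≤ (r : ℝ) / q := by positivity
  obtain ⟨m, hm⟩ : ∃ m, w = m + 1 + n := ⟨w - n - 1, by omega⟩
  -- the two weights
  let β : ℝ≥0 := ⟨(r : ℝ) / q, hf0⟩
  let α : ℝ≥0 := ⟨1 - (r : ℝ) / q, by linarith⟩
  have hαβ : α + β = 1 := by
    apply NNReal.coe_injective
    show (1 - (r : ℝ) / q) + (r : ℝ) / q = 1
    ring
  have hWeq : α * ((m + 1 : ℕ) : ℝ≥0) + β * ((m : ℕ) : ℝ≥0) = W := by
    apply NNReal.coe_injective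
    show (1 - (r : ℝ) / q) * (((m + 1 : ℕ) : ℝ≥0) : ℝ) + (r : ℝ) / q * ((m : ℝ≥0) : ℝ) = (W : ℝ)
    rw [NNReal.coe_natCast, NNReal.coe_natCast]
    have h1 : (d : ℝ) = q * n + r := by rw [← hdr]; push_cast; ring
    have h2 : (w : ℝ) = m + 1 + n := by rw [hm]; push_cast; ring
    rw [h1, h2] at hW
    apply mul_left_cancel₀ hq0.ne'
    push_cast
    field_simp
    linarith
  have h1 := chord_blocks α β hαβ (Multiset.replicate a (w : ℝ≥0)) 0 q 0
    ((m + 1 : ℕ) : ℝ≥0) 0 ((m : ℕ) : ℝ≥0) 0 zero_le zero_le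
    (by
      intro p hp
      rw [Multiset.eq_of_mem_replicate hp]
      exact_mod_cast (by omega : m + 1 ≤ w))
    (by
      intro p hp
      rw [Multiset.eq_of_mem_replicate hp]
      exact_mod_cast (by omega : m ≤ w))
    (by intro r hr; exact absurd hr (Multiset.notMem_zero _))
    (by intro r hr; exact absurd hr (Multiset.notMem_zero _))
  rw [hWeq, Multiset.replicate_zero, Multiset.replicate_zero, add_zero, add_zero] at h1
  simp only [add_zero] at h1
  have h2 := ah_int a q w n hnw.le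
  have h3 := ah_int a q w (n + 1) hnw
  rw [show w - n = m + 1 by omega, ← rpsi_cst, cst_add, cst_replicate, cst_replicate] at h2
  rw [show w - (n + 1) = m by omega, ← rpsi_cst, cst_add, cst_replicate, cst_replicate,
    Finset.prod_range_succ] at h3
  have ha : (0 : ℝ) ≤ (a : ℝ) + 1 := by positivity
  have h4 := mul_le_mul_of_nonneg_right h1 ha
  refine h4.trans ?_
  have hα : (α : ℝ) = 1 - (r : ℝ) / q := rfl
  have hβ : (β : ℝ) = (r : ℝ) / q := rfl
  rw [hα, hβ, add_mul, mul_assoc, mul_assoc]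
  have h5 := mul_le_mul_of_nonneg_left h2 (sub_nonneg.2 hf)
  have h6 := mul_le_mul_of_nonneg_left h3 hf0
  refine (add_le_add h5 h6).trans (le_of_eq ?_)
  unfold hq
  rw [← hn, ← hr]
  have hwn : (w : ℝ) - n ≠ 0 := by
    have : (n : ℝ) < w := by exact_mod_cast hnw
    linarith
  field_simp
  ring

/-- `Ah` with `a = 0` and `rpsi_rect`. -/
theorem K0 (q w d : ℕ) (W : ℝ≥0) (hq1 : 1 ≤ q) (hW : (q : ℝ) * (W : ℝ) + d = q * w)
    (hd : d < q * w) : hh q (W : ℝ) ≤ hh q (w : ℝ) * hq w q d := by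
  have h := Ah 0 q w d W hq1 hW hd
  rw [Multiset.replicate_zero, zero_add, rpsi_rect, Nat.cast_zero, zero_add, mul_one, zero_add,
    zero_add] at h
  exact h

end Pool.Agent.LRQ
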