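import Mathlib
import Pool.Agent.LRT.Defs

set_option autoImplicit false

namespace Pool.Agent.LRQ

open Finset
open Pool.Agent.LRE Pool.Agent.LRT

theorem c_pair (n : ℕ) (b y : ℝ) (hb : 0 ≤ b) (hy : 0 ≤ y) :
    Real.exp (2 * n * y / ((n : ℝ) + 1 + 2 * b + y)) ≤
      ∏ p ∈ range n, (1 + y / ((p : ℝ) + 1 + b)) := by
  set x : ℕ → ℝ := fun p => 2 * ((p : ℝ) + 1 + b) + y with hx
  have hxpos : ∀ p : ℕ, 0 < x p := fun p => by simp only [hx]; positivity
  -- each factor
  have h1 : ∀ p : ℕ, Real.exp (2 * y / x p) ≤ 1 + y / ((p : ℝ) + 1 + b) := by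
    intro p
    have hq : (0 : ℝ) < (p : ℝ) + 1 + b := by positivity
    set z := y / ((p : ℝ) + 1 + b) with hz
    have hz0 : 0 ≤ z := by positivity
    have h2 := Real.le_log_one_add_of_nonneg hz0
    have h3 : 2 * y / x p = 2 * z / (z + 2) := by
      simp only [hx, hz]
      field_simp
      ring
    rw [h3, ← Real.le_log_iff_exp_le (by positivity)]
    exact h2
  have h2 : ∏ p ∈ range n, Real.exp (2 * y / x p) ≤
      ∏ p ∈ range n, (1 + y / ((p : ℝ) + 1 + b)) :=
    Finset.prod_le_prod (fun p _ => (Real.exp_pos _).le) (fun p _ => h1 p)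
  refine le_trans ?_ h2
  rw [← Real.exp_sum]
  apply Real.exp_le_exp.mpr
  have hsum : ∑ p ∈ range n, x p = n * ((n : ℝ) + 1 + 2 * b + y) := by
    simp only [hx]
    clear h1 h2 hxpos hx x
    induction n with
    | zero => simp
    | succ n ih =>
      rw [Finset.sum_range_succ, ih]
      push_cast
      ring
  rcases Nat.eq_zero_or_pos n with h0 | h0
  · subst h0
    simp
  · have hn : (0 : ℝ) < n := by exact_mod_cast h0
    have h4 := Finset.sq_sum_div_le_sum_sq_div (range n) (fun _ => (1 : ℝ))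
      (fun p _ => hxpos p)
    rw [Finset.sum_const, Finset.card_range, nsmul_eq_mul, mul_one, hsum] at h4
    have h5 : ∑ p ∈ range n, 2 * y / x p = 2 * y * ∑ p ∈ range n, (1 : ℝ) ^ 2 / x p := by
      rw [Finset.mul_sum]
      apply Finset.sum_congr rfl
      intro p _
      rw [one_pow, mul_one_div]
    rw [h5]
    refine le_trans (le_of_eq ?_) (mul_le_mul_of_nonneg_left h4 (by positivity))
    have h6 : (0 : ℝ) < (n : ℝ) + 1 + 2 * b + y := by positivity
    field_simp

theorem c_log (y : ℝ) (hy : 1 ≤ y) : y ≤ Real.exp ((y ^ 2 - 1) / (2 * y)) := by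
  have hy0 : 0 < y := by linarith
  have h1 : Real.log y ≤ Real.sinh (Real.log y) := Real.self_le_sinh_iff.2 (Real.log_nonneg hy)
  rw [Real.sinh_log hy0] at h1
  have h2 : (y - y⁻¹) / 2 = (y ^ 2 - 1) / (2 * y) := by
    field_simp
  rw [h2] at h1
  rwa [Real.log_le_iff_le_exp hy0] at h1

theorem c_top (n : ℕ) (z u : ℝ) (hz : 0 ≤ z) (hu : 0 ≤ u) :
    ∏ p ∈ range n, (1 + u / (z + ((p : ℝ) + 1))) ≤ Real.exp (n * u / (z + 1)) := by
  have h1 : ∀ p ∈ range n, 1 + u / (z + ((p : ℝ) + 1)) ≤ Real.exp (u / (z + 1)) := by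
    intro p _
    have h2 : u / (z + ((p : ℝ) + 1)) ≤ u / (z + 1) := by
      apply div_le_div_of_nonneg_left hu (by positivity)
      have : (0 : ℝ) ≤ p := Nat.cast_nonneg p
      linarith
    have h3 := Real.add_one_le_exp (u / (z + 1))
    linarith
  have h2 : ∏ p ∈ range n, (1 + u / (z + ((p : ℝ) + 1))) ≤ ∏ _p ∈ range n, Real.exp (u / (z + 1)) :=
    Finset.prod_le_prod (fun p _ => by positivity) h1
  refine h2.trans (le_of_eq ?_)
  rw [Finset.prod_const, Finset.card_range, ← Real.exp_nat_mul]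
  congr 1
  ring

end Pool.Agent.LRQ
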