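import Mathlib
import Pool.Agent.LRG.G9

set_option autoImplicit false

/-! # [LRQ-C2B] product formulas for the node values -/

namespace Pool.Agent.LRQ

open Finset
open Pool.Agent.LRE Pool.Agent.LRT Pool.Agent.LRG

/-- `hh n x = ∏_{p<n} (p+1)/(x+p+1)` (definition / induction) -/
theorem c_hh (n : ℕ) (x : ℝ) :
    hh n x = ∏ p ∈ range n, ((p : ℝ) + 1) / (x + ((p : ℝ) + 1)) := rfl

theorem c2b_hh (m i : ℕ) (x : ℝ) (hx : 0 ≤ x) :
    hh (m + i) x * ∏ p ∈ range m, (1 + x / ((p : ℝ) + 1)) =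
      ∏ p ∈ range i, ((m : ℝ) + p + 1) / (x + ((m : ℝ) + p + 1)) := by
  rw [c_hh, prod_range_add, mul_right_comm, ← prod_mul_distrib]
  have h1 : ∀ p ∈ range m, ((p : ℝ) + 1) / (x + ((p : ℝ) + 1)) * (1 + x / ((p : ℝ) + 1)) = 1 := by
    intro p _
    have h2 : (p : ℝ) + 1 ≠ 0 := by positivity
    have h3 : x + ((p : ℝ) + 1) ≠ 0 := by positivity
    field_simp
    ring
  rw [prod_congr rfl h1, prod_const_one, one_mul]
  refine prod_congr rfl fun p _ => ?_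
  push_cast
  rfl

theorem c2b_choose (n i : ℕ) :
    ((n + i).choose i : ℝ) = ∏ p ∈ range i, ((n : ℝ) + p + 1) / ((p : ℝ) + 1) := by
  induction i with
  | zero => simp
  | succ i ih =>
    rw [prod_range_succ, ← ih]
    have h1 : (n + i + 1) * (n + i).choose i = (n + i + 1).choose (i + 1) * (i + 1) :=
      Nat.add_one_mul_choose_eq _ _
    have h2 : ((n : ℝ) + i + 1) * ((n + i).choose i : ℝ) =
        ((n + (i + 1)).choose (i + 1) : ℝ) * ((i : ℝ) + 1) := by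
      exact_mod_cast h1
    have h3 : (i : ℝ) + 1 ≠ 0 := by positivity
    rw [mul_div_assoc', eq_div_iff h3, ← h2]
    ring

theorem c2b_fact (m i : ℕ) :
    ∏ p ∈ range m, ((p : ℝ) + 1) / ((p : ℝ) + 1 + i) =
      ∏ p ∈ range i, ((p : ℝ) + 1) / ((m : ℝ) + p + 1) := by
  have h1 := c2b_choose m i
  have h2 := c2b_choose i m
  have h3 : (m + i).choose i = (i + m).choose m := by
    rw [add_comm i m, Nat.choose_symm_add]
  rw [h3] at h1
  have h4 : ∏ p ∈ range m, ((p : ℝ) + 1) / ((p : ℝ) + 1 + i) =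
      (∏ p ∈ range m, ((i : ℝ) + p + 1) / ((p : ℝ) + 1))⁻¹ := by
    rw [← prod_inv_distrib]
    refine prod_congr rfl fun p _ => ?_
    rw [inv_div]
    congr 1
    ring
  have h5 : ∏ p ∈ range i, ((p : ℝ) + 1) / ((m : ℝ) + p + 1) =
      (∏ p ∈ range i, ((m : ℝ) + p + 1) / ((p : ℝ) + 1))⁻¹ := by
    rw [← prod_inv_distrib]
    refine prod_congr rfl fun p _ => ?_
    rw [inv_div]
  rw [h4, h5, ← h1, ← h2]

/-- `s = l - 1`. Put `v = N + i - (l-1)`, `x = i v/(l-1)`. `C(N+i,i)/C(l-1,i) =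
∏_{j=1}^{i} (N+j)/(l-j)`, and with `p = l - 1 - (i - j)` this is `∏_{p=l-i}^{l-1} (v+p)/p`
(`N + j = v + p`); `hh (l-1) x = ∏_{p=1}^{l-1} p/(x+p)`; the factors `p ≥ l - i` combine to
`(v+p)/(x+p) = 1 + (v-x)/(x+p)`. (`p = l - i + p'` on the right; induction on `i` is awkward because
`x` depends on `i`: prove it for a free `x`, `N = v + l - 1 - i`.) -/
theorem c_SL (l N i : ℕ) (x v : ℝ) (hl : 2 ≤ l) (hi : i + 1 ≤ l) (hN : l ≤ N)
    (hv : v = (N : ℝ) + i - ((l : ℝ) - 1)) (hx : x = i * v / ((l : ℝ) - 1)) :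
    RN l N (l - 1) i * ∏ p ∈ range (l - 1 - i), (1 + x / ((p : ℝ) + 1)) =
      N * ∏ p ∈ range i, (1 + (v - x) / (x + ((l : ℝ) - i + p))) := by
  obtain ⟨m, rfl⟩ : ∃ m, l = m + i + 1 := ⟨l - 1 - i, by omega⟩
  have e1 : m + i + 1 - 1 = m + i := by omega
  have e3 : m + i - i = m := by omega
  have hmN : (m : ℝ) ≤ N := by
    have : m ≤ N := by omega
    exact_mod_cast this
  have hv' : v = (N : ℝ) - m := by
    rw [hv]
    push_cast
    ring
  have hx0 : 0 ≤ x := by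
    rw [hx]
    push_cast
    have h1 : (0 : ℝ) ≤ v := by rw [hv']; linarith
    have h2 : (0 : ℝ) ≤ (m : ℝ) + i + 1 - 1 := by
      have : (0 : ℝ) ≤ (m : ℝ) + i := by positivity
      linarith
    positivity
  have hxx : (i : ℝ) * ((N : ℝ) + i - ((m + i + 1 - 1 : ℕ) : ℝ)) / (((m + i + 1 : ℕ) : ℝ) - 1) = x := by
    rw [hx, hv, e1]
    push_cast
    ring
  have hC : (((N + i).choose i : ℕ) : ℝ) / (((m + i).choose i : ℕ) : ℝ) =
      ∏ p ∈ range i, ((N : ℝ) + p + 1) / ((m : ℝ) + p + 1) := by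
    rw [c2b_choose, c2b_choose, ← prod_div_distrib]
    refine prod_congr rfl fun p _ => ?_
    have h1 : (p : ℝ) + 1 ≠ 0 := by positivity
    have h2 : (m : ℝ) + p + 1 ≠ 0 := by positivity
    field_simp
  unfold RN
  rw [hxx, e1, e3, mul_assoc (_ * _ / _),
    c2b_hh m i x hx0, mul_div_assoc, hC, mul_assoc, ← prod_mul_distrib]
  congr 1
  refine prod_congr rfl fun p _ => ?_
  have h1 : (m : ℝ) + p + 1 ≠ 0 := by positivity
  have h2 : x + ((m : ℝ) + p + 1) ≠ 0 := by positivity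
  have h3 : x + (((m + i + 1 : ℕ) : ℝ) - i + p) = x + ((m : ℝ) + p + 1) := by
    push_cast
    ring
  rw [h3, hv']
  field_simp
  ring

/-- `s = i`, `x = i N/(l-1)`, `w = N + i - (l-1) - x`. `C(N+i,i) = ∏_{j=1}^{i} (N+j)/j`,
`N + j = x + w + p` with `p = l - 1 - (i-j)`; `hh (l-1) x = (l-1)!/∏_{p=1}^{l-1} (x+p)` and
`(l-1)!/i! = ∏_{p=1}^{l-1-i} (i+p)`, `(x+p)/(i+p) = 1 + (x-i)/(p+i)`. -/
theorem c_SI (l N i : ℕ) (x w : ℝ) (hl : 2 ≤ l) (hi : i + 1 ≤ l) (hN : l ≤ N)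
    (hx : x = i * N / ((l : ℝ) - 1)) (hw : w = (N : ℝ) + i - ((l : ℝ) - 1) - x) :
    RN l N i i * ∏ p ∈ range (l - 1 - i), (1 + (x - i) / ((p : ℝ) + 1 + i)) =
      N * ∏ p ∈ range i, (1 + w / (x + ((l : ℝ) - i + p))) := by
  obtain ⟨m, rfl⟩ : ∃ m, l = m + i + 1 := ⟨l - 1 - i, by omega⟩
  have e1 : m + i + 1 - 1 = m + i := by omega
  have e3 : m + i - i = m := by omega
  have hx0 : 0 ≤ x := by
    rw [hx]
    push_cast
    have h2 : (0 : ℝ) ≤ (m : ℝ) + i + 1 - 1 := by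
      have : (0 : ℝ) ≤ (m : ℝ) + i := by positivity
      linarith
    positivity
  have hxx : (i : ℝ) * ((N : ℝ) + i - i) / (((m + i + 1 : ℕ) : ℝ) - 1) = x := by
    rw [hx]
    congr 2
    ring
  have h4 : ∏ p ∈ range m, (1 + (x - i) / ((p : ℝ) + 1 + i)) =
      (∏ p ∈ range m, (1 + x / ((p : ℝ) + 1))) *
        ∏ p ∈ range m, ((p : ℝ) + 1) / ((p : ℝ) + 1 + i) := by
    rw [← prod_mul_distrib]
    refine prod_congr rfl fun p _ => ?_
    have h1 : (p : ℝ) + 1 ≠ 0 := by positivity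
    have h2 : (p : ℝ) + 1 + i ≠ 0 := by positivity
    field_simp
    ring
  unfold RN
  rw [hxx, e1, e3, Nat.choose_self, Nat.cast_one, div_one, h4, mul_assoc ((N : ℝ) * _),
    ← mul_assoc (hh (m + i) x), c2b_hh m i x hx0, c2b_fact, c2b_choose, mul_assoc,
    ← prod_mul_distrib, ← prod_mul_distrib]
  congr 1
  refine prod_congr rfl fun p _ => ?_
  have h0 : (p : ℝ) + 1 ≠ 0 := by positivity
  have h1 : (m : ℝ) + p + 1 ≠ 0 := by positivity
  have h2 : x + ((m : ℝ) + p + 1) ≠ 0 := by positivity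
  have h3 : x + (((m + i + 1 : ℕ) : ℝ) - i + p) = x + ((m : ℝ) + p + 1) := by
    push_cast
    ring
  rw [h3, hw]
  push_cast
  field_simp
  ring

/-- `s = l`, `i = 1`: `C(N+1,1) = N + 1`, `C(l,1) = l`, `c_hh`. -/
theorem c_SR (l N : ℕ) (x : ℝ) (hl : 2 ≤ l) (hN : l ≤ N)
    (hx : x = ((N : ℝ) + 1 - l) / ((l : ℝ) - 1)) :
    RN l N l 1 * ∏ p ∈ range (l - 1), (1 + x / ((p : ℝ) + 1)) = (N : ℝ) * ((N : ℝ) + 1) / l := by
  have hl' : (2 : ℝ) ≤ l := by exact_mod_cast hl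
  have hN' : (l : ℝ) ≤ N := by exact_mod_cast hN
  have hx0 : 0 ≤ x := by
    rw [hx]
    exact div_nonneg (by linarith) (by linarith)
  have hxx : ((1 : ℕ) : ℝ) * ((N : ℝ) + (1 : ℕ) - l) / ((l : ℝ) - 1) = x := by
    rw [hx]
    push_cast
    rw [one_mul]
  have h1 := c2b_hh (l - 1) 0 x hx0
  rw [add_zero, prod_range_zero] at h1
  unfold RN
  rw [hxx, mul_assoc, h1, mul_one, Nat.choose_one_right, Nat.choose_one_right]
  push_cast
  rfl

end Pool.Agent.LRQ
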