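import Mathlib
import Pool.Agent.LRQ.C2A
import Pool.Agent.LRQ.C2B

set_option autoImplicit false

/-! # [LRQ-C2C] the nodes `s = l - 1` -/

namespace Pool.Agent.LRQ

open Finset
open Pool.Agent.LRE Pool.Agent.LRT Pool.Agent.LRG

/-- `2(i-1)(a+1+i) < l(l-1)` and `a ≥ 2` give `l - i ≥ 6` for `l ≥ 14`: otherwise `i ≥ l - 5` and
`2(l-6)(l-2) ≥ l(l-1)` (`l² - 15 l + 24 ≥ 0`). -/
theorem c2c_e (l a i : ℕ) (hl : 15 ≤ l) (ha : 2 ≤ a) (hc : 2 * ((i - 1) * (a + 1 + i)) < l * (l - 1)) :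
    i + 6 ≤ l := by
  by_contra hcon
  have h1 : l ≤ i + 5 := by omega
  obtain ⟨m, rfl⟩ : ∃ m, l = m + 15 := ⟨l - 15, by omega⟩
  have h2 : m + 9 ≤ i - 1 := by omega
  have h3 : m + 13 ≤ a + 1 + i := by omega
  have h4 : (m + 9) * (m + 13) ≤ (i - 1) * (a + 1 + i) := Nat.mul_le_mul h2 h3
  have h5 : (m + 15) * (m + 15 - 1) = (m + 15) * (m + 14) := rfl
  rw [h5] at hc
  have h6 : 2 * ((m + 9) * (m + 13)) < (m + 15) * (m + 14) := lt_of_le_of_lt (by omega) hc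
  nlinarith

/-- `(l-1-i)(l+1) - a ≥ (l-i-3)(l+1)` (`a ≤ 2l+2`), `i(a+2+i) ≥ 2(a+4)`, `2(e-3) ≥ e` for
`e = l - i ≥ 6`. -/
theorem c2c_poly (l a i : ℝ) (hl : 15 ≤ l) (ha : 2 ≤ a) (ha2 : a ≤ 2 * l + 2) (hi : 2 ≤ i)
    (he : i + 6 ≤ l) :
    a * (l - 1) * (l - i) ≤ i * (a + 2 + i) * ((l - 1 - i) * (l + 1) - a) := by
  obtain ⟨e, he'⟩ : ∃ e, e = l - i := ⟨_, rfl⟩
  have he6 : 6 ≤ e := by linarith
  have h1 : e / 2 * (l + 1) ≤ (l - 1 - i) * (l + 1) - a := by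
    have h2 : l - 1 - i = e - 1 := by linarith
    rw [h2]
    nlinarith
  have h3 : 2 * (a + 4) ≤ i * (a + 2 + i) := by nlinarith
  have h4 : 0 ≤ e / 2 * (l + 1) := by positivity
  calc a * (l - 1) * (l - i) = a * (l - 1) * e := by rw [he']
    _ ≤ 2 * (a + 4) * (e / 2 * (l + 1)) := by
        have h5 : 2 * (a + 4) * (e / 2 * (l + 1)) - a * (l - 1) * e = (2 * a + 4 * l + 4) * e := by
          ring
        have h6 : 0 ≤ (2 * a + 4 * l + 4) * e := by positivity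
        linarith
    _ ≤ i * (a + 2 + i) * (e / 2 * (l + 1)) := mul_le_mul_of_nonneg_right h3 h4
    _ ≤ i * (a + 2 + i) * ((l - 1 - i) * (l + 1) - a) := by
        apply mul_le_mul_of_nonneg_left h1
        positivity

/-- `N = l + 1 + a`. `c_SL`; `c_pair` with `n = l - 1 - i`, `b = 0`, `y = x`:
`∏ ≥ exp (2(l-1-i)x/(l-i+x))`; `c_top` with `n = i`, `z = x + l - i - 1`, `u = v - x`:
`∏ ≤ exp (i(v-x)/(l-i+x))`. `(l-1-i) x = i (v-x)`. So `RN ≤ N exp (-t)`,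
`t = i(v-x)/(l-i+x) ≥ a/(l+1)` by `c2c_poly` (`v - x = v(l-1-i)/(l-1)`, `v = a+2+i`), and
`exp (-t) ≤ 1/(1+t) ≤ (l+1)/N`. -/
theorem SL2 (l N i : ℕ) (hl : 15 ≤ l) (hN1 : l + 3 ≤ N) (hN2 : N ≤ 3 * l + 3) (hi : 2 ≤ i)
    (hc : 2 * ((i - 1) * (N + i - l)) < l * (l - 1)) : RN l N (l - 1) i ≤ (l : ℝ) + 1 := by
  obtain ⟨a, hNa⟩ : ∃ a, N = l + 1 + a := ⟨N - (l + 1), by omega⟩
  have ha : 2 ≤ a := by omega
  have ha2 : a ≤ 2 * l + 2 := by omega
  have hc' : 2 * ((i - 1) * (a + 1 + i)) < l * (l - 1) := by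
    have e : N + i - l = a + 1 + i := by omega
    rwa [e] at hc
  have he := c2c_e l a i hl ha hc'
  have hlr : (15 : ℝ) ≤ l := by exact_mod_cast hl
  have har : (2 : ℝ) ≤ a := by exact_mod_cast ha
  have ha2r : (a : ℝ) ≤ 2 * l + 2 := by exact_mod_cast ha2
  have hir : (2 : ℝ) ≤ i := by exact_mod_cast hi
  have her : (i : ℝ) + 6 ≤ l := by exact_mod_cast he
  have hNr : (N : ℝ) = l + 1 + a := by exact_mod_cast hNa
  have hpoly := c2c_poly l a i hlr har ha2r hir her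
  obtain ⟨v, hv⟩ : ∃ v, v = (N : ℝ) + i - ((l : ℝ) - 1) := ⟨_, rfl⟩
  obtain ⟨x, hx⟩ : ∃ x, x = i * v / ((l : ℝ) - 1) := ⟨_, rfl⟩
  have hv' : v = a + 2 + i := by rw [hv, hNr]; ring
  have hl1 : (0 : ℝ) < (l : ℝ) - 1 := by linarith
  have hv0 : 0 < v := by rw [hv']; positivity
  have hx0 : 0 ≤ x := by rw [hx]; positivity
  have hSL := c_SL l N i x v (by omega) (by omega) (by omega) hv hx
  have hvx : v - x = v * (l - 1 - i) / ((l : ℝ) - 1) := by
    rw [hx]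
    field_simp
  have hvx0 : 0 ≤ v - x := by
    rw [hvx]
    apply div_nonneg _ hl1.le
    apply mul_nonneg hv0.le
    linarith
  have hR := RN_pos l N (l - 1) i (by omega) (by omega) (by omega) (by omega)
  -- the number `t`
  have hden : (0 : ℝ) < (l : ℝ) - i + x := by linarith
  obtain ⟨t, ht⟩ : ∃ t, t = i * (v - x) / ((l : ℝ) - i + x) := ⟨_, rfl⟩
  have hn : (((l - 1 - i : ℕ) : ℝ)) = (l : ℝ) - 1 - i := by
    have h1 : l - 1 - i + (1 + i) = l := by omega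
    have h2 : (((l - 1 - i + (1 + i) : ℕ)) : ℝ) = (l : ℝ) := by rw [h1]
    push_cast at h2
    linarith
  have h1 := c_pair (l - 1 - i) 0 x le_rfl hx0
  have h2 := c_top i (x + ((l : ℝ) - i - 1)) (v - x) (by linarith) hvx0
  have e1 : 2 * (((l - 1 - i : ℕ) : ℝ)) * x / (((l - 1 - i : ℕ) : ℝ) + 1 + 2 * 0 + x) = 2 * t := by
    rw [hn, ht]
    have h3 : (l : ℝ) - 1 - i + 1 + 2 * 0 + x = l - i + x := by ring
    rw [h3]
    have h4 : ((l : ℝ) - 1 - i) * x = i * (v - x) := by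
      rw [hvx, hx]
      field_simp
    rw [mul_assoc, h4, mul_div_assoc]
  have e2 : (i : ℝ) * (v - x) / (x + ((l : ℝ) - i - 1) + 1) = t := by
    rw [ht]
    congr 1
    ring
  rw [e1] at h1
  rw [e2] at h2
  have h3 : ∏ p ∈ range (l - 1 - i), (1 + x / ((p : ℝ) + 1 + 0)) =
      ∏ p ∈ range (l - 1 - i), (1 + x / ((p : ℝ) + 1)) := by
    apply prod_congr rfl
    intro p _
    rw [add_zero]
  have h4 : ∏ p ∈ range i, (1 + (v - x) / (x + ((l : ℝ) - i - 1) + ((p : ℝ) + 1))) =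
      ∏ p ∈ range i, (1 + (v - x) / (x + ((l : ℝ) - i + p))) := by
    apply prod_congr rfl
    intro p _
    congr 2
    ring
  rw [h3] at h1
  rw [h4] at h2
  have hN0 : (0 : ℝ) < N := by rw [hNr]; positivity
  have h5 : RN l N (l - 1) i * Real.exp (2 * t) ≤ N * Real.exp t := by
    calc RN l N (l - 1) i * Real.exp (2 * t)
        ≤ RN l N (l - 1) i * ∏ p ∈ range (l - 1 - i), (1 + x / ((p : ℝ) + 1)) :=
          mul_le_mul_of_nonneg_left h1 hR.le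
      _ = N * ∏ p ∈ range i, (1 + (v - x) / (x + ((l : ℝ) - i + p))) := hSL
      _ ≤ N * Real.exp t := mul_le_mul_of_nonneg_left h2 hN0.le
  have h6 : RN l N (l - 1) i * Real.exp t ≤ N := by
    have h7 : Real.exp (2 * t) = Real.exp t * Real.exp t := by
      rw [← Real.exp_add]
      ring_nf
    rw [h7, ← mul_assoc] at h5
    exact le_of_mul_le_mul_right h5 (Real.exp_pos t)
  -- the bound for `t`
  have h8 : (a : ℝ) / (l + 1) ≤ t := by
    rw [ht, div_le_div_iff₀ (by positivity) hden, hvx, hx, hv']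
    have h9 : (a : ℝ) * ((l : ℝ) - i + i * (a + 2 + i) / ((l : ℝ) - 1)) =
        (a * (l - 1) * (l - i) + a * (i * (a + 2 + i))) / ((l : ℝ) - 1) := by
      field_simp
    have h10 : (i : ℝ) * ((a + 2 + i) * (l - 1 - i) / ((l : ℝ) - 1)) * (l + 1) =
        (i * (a + 2 + i) * ((l - 1 - i) * (l + 1))) / ((l : ℝ) - 1) := by
      field_simp
    rw [h9, h10]
    apply div_le_div_of_nonneg_right _ hl1.le
    linarith
  have h11 : (N : ℝ) ≤ (l + 1) * Real.exp t := by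
    have h12 : 1 + t ≤ Real.exp t := by
      have := Real.add_one_le_exp t
      linarith
    have h13 : (N : ℝ) = (l + 1) * (1 + a / (l + 1)) := by
      rw [hNr]
      field_simp
    rw [h13]
    apply mul_le_mul_of_nonneg_left _ (by positivity)
    linarith
  have h14 : RN l N (l - 1) i * Real.exp t ≤ ((l : ℝ) + 1) * Real.exp t := h6.trans h11
  exact le_of_mul_le_mul_right h14 (Real.exp_pos t)

end Pool.Agent.LRQ
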