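import Mathlib

set_option autoImplicit false

/-! # [LRQ-C2D] polynomials for the nodes `s = i` -/

namespace Pool.Agent.LRQ

private theorem c2d_p_2 (u : ℝ) (hu : 0 ≤ u) :
    0 ≤ (2) * ((15 + u) - 1 - (2)) * ((15 + u) + 1) * ((15 + u) ^ 2 - (15 + u) - (2) * ((15 + u) - 3) + 2 * (2)) -
      ((15 + u) ^ 2 - (15 + u) + (2) * ((15 + u) + 1)) * ((15 + u) ^ 2 - (15 + u) + 2 * (2)) := by
  have e : (2) * ((15 + u) - 1 - (2)) * ((15 + u) + 1) * ((15 + u) ^ 2 - (15 + u) - (2) * ((15 + u) - 3) + 2 * (2)) -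
      ((15 + u) ^ 2 - (15 + u) + (2) * ((15 + u) + 1)) * ((15 + u) ^ 2 - (15 + u) + 2 * (2)) =
      21172 + 7356 * u + 921 * u ^ 2 + 50 * u ^ 3 + 1 * u ^ 4 := by ring
  rw [e]
  positivity

private theorem c2d_p_3 (u : ℝ) (hu : 0 ≤ u) :
    0 ≤ (3) * ((15 + u) - 1 - (3)) * ((15 + u) + 1) * ((15 + u) ^ 2 - (15 + u) - (3) * ((15 + u) - 3) + 2 * (3)) -
      ((15 + u) ^ 2 - (15 + u) + (3) * ((15 + u) + 1)) * ((15 + u) ^ 2 - (15 + u) + 2 * (3)) := by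
  have e : (3) * ((15 + u) - 1 - (3)) * ((15 + u) + 1) * ((15 + u) ^ 2 - (15 + u) - (3) * ((15 + u) - 3) + 2 * (3)) -
      ((15 + u) ^ 2 - (15 + u) + (3) * ((15 + u) + 1)) * ((15 + u) ^ 2 - (15 + u) + 2 * (3)) =
      39312 + 13914 * u + 1772 * u ^ 2 + 98 * u ^ 3 + 2 * u ^ 4 := by ring
  rw [e]
  positivity

private theorem c2d_p_4 (u : ℝ) (hu : 0 ≤ u) :
    0 ≤ (4) * ((15 + u) - 1 - (4)) * ((15 + u) + 1) * ((15 + u) ^ 2 - (15 + u) - (4) * ((15 + u) - 3) + 2 * (4)) -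
      ((15 + u) ^ 2 - (15 + u) + (4) * ((15 + u) + 1)) * ((15 + u) ^ 2 - (15 + u) + 2 * (4)) := by
  have e : (4) * ((15 + u) - 1 - (4)) * ((15 + u) + 1) * ((15 + u) ^ 2 - (15 + u) - (4) * ((15 + u) - 3) + 2 * (4)) -
      ((15 + u) ^ 2 - (15 + u) + (4) * ((15 + u) + 1)) * ((15 + u) ^ 2 - (15 + u) + 2 * (4)) =
      49068 + 18540 * u + 2471 * u ^ 2 + 142 * u ^ 3 + 3 * u ^ 4 := by ring
  rw [e]
  positivity

private theorem c2d_p_5 (u : ℝ) (hu : 0 ≤ u) :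
    0 ≤ (5) * ((15 + u) - 1 - (5)) * ((15 + u) + 1) * ((15 + u) ^ 2 - (15 + u) - (5) * ((15 + u) - 3) + 2 * (5)) -
      ((15 + u) ^ 2 - (15 + u) + (5) * ((15 + u) + 1)) * ((15 + u) ^ 2 - (15 + u) + 2 * (5)) := by
  have e : (5) * ((15 + u) - 1 - (5)) * ((15 + u) + 1) * ((15 + u) ^ 2 - (15 + u) - (5) * ((15 + u) - 3) + 2 * (5)) -
      ((15 + u) ^ 2 - (15 + u) + (5) * ((15 + u) + 1)) * ((15 + u) ^ 2 - (15 + u) + 2 * (5)) =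
      51400 + 21390 * u + 3024 * u ^ 2 + 182 * u ^ 3 + 4 * u ^ 4 := by ring
  rw [e]
  positivity

private theorem c2d_p_6 (u : ℝ) (hu : 0 ≤ u) :
    0 ≤ (6) * ((15 + u) - 1 - (6)) * ((15 + u) + 1) * ((15 + u) ^ 2 - (15 + u) - (6) * ((15 + u) - 3) + 2 * (6)) -
      ((15 + u) ^ 2 - (15 + u) + (6) * ((15 + u) + 1)) * ((15 + u) ^ 2 - (15 + u) + 2 * (6)) := by
  have e : (6) * ((15 + u) - 1 - (6)) * ((15 + u) + 1) * ((15 + u) ^ 2 - (15 + u) - (6) * ((15 + u) - 3) + 2 * (6)) -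
      ((15 + u) ^ 2 - (15 + u) + (6) * ((15 + u) + 1)) * ((15 + u) ^ 2 - (15 + u) + 2 * (6)) =
      47268 + 22620 * u + 3437 * u ^ 2 + 218 * u ^ 3 + 5 * u ^ 4 := by ring
  rw [e]
  positivity

private theorem c2d_p_7 (u : ℝ) (hu : 0 ≤ u) :
    0 ≤ (7) * ((15 + u) - 1 - (7)) * ((15 + u) + 1) * ((15 + u) ^ 2 - (15 + u) - (7) * ((15 + u) - 3) + 2 * (7)) -
      ((15 + u) ^ 2 - (15 + u) + (7) * ((15 + u) + 1)) * ((15 + u) ^ 2 - (15 + u) + 2 * (7)) := by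
  have e : (7) * ((15 + u) - 1 - (7)) * ((15 + u) + 1) * ((15 + u) ^ 2 - (15 + u) - (7) * ((15 + u) - 3) + 2 * (7)) -
      ((15 + u) ^ 2 - (15 + u) + (7) * ((15 + u) + 1)) * ((15 + u) ^ 2 - (15 + u) + 2 * (7)) =
      37632 + 22386 * u + 3716 * u ^ 2 + 250 * u ^ 3 + 6 * u ^ 4 := by ring
  rw [e]
  positivity

private theorem c2d_p_j (j p : ℝ) (hj : 0 ≤ j) (hp : 0 ≤ p) :
    0 ≤ (8 + j) * ((2 * (8 + j) + p) - 1 - (8 + j)) * ((2 * (8 + j) + p) + 1) * ((2 * (8 + j) + p) ^ 2 - (2 * (8 + j) + p) - (8 + j) * ((2 * (8 + j) + p) - 3) + 2 * (8 + j)) -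
      ((2 * (8 + j) + p) ^ 2 - (2 * (8 + j) + p) + (8 + j) * ((2 * (8 + j) + p) + 1)) * ((2 * (8 + j) + p) ^ 2 - (2 * (8 + j) + p) + 2 * (8 + j)) := by
  have e : (8 + j) * ((2 * (8 + j) + p) - 1 - (8 + j)) * ((2 * (8 + j) + p) + 1) * ((2 * (8 + j) + p) ^ 2 - (2 * (8 + j) + p) - (8 + j) * ((2 * (8 + j) + p) - 3) + 2 * (8 + j)) -
      ((2 * (8 + j) + p) ^ 2 - (2 * (8 + j) + p) + (8 + j) * ((2 * (8 + j) + p) + 1)) * ((2 * (8 + j) + p) ^ 2 - (2 * (8 + j) + p) + 2 * (8 + j)) =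
      48448 + 29440 * p + 40720 * j + 4743 * p ^ 2 + 17088 * j * p + 12773 * j ^ 2 + 306 * p ^ 3 + 2009 * j * p ^ 2 + 3660 * j ^ 2 * p + 1919 * j ^ 3 + 7 * p ^ 4 + 86 * j * p ^ 3 + 281 * j ^ 2 * p ^ 2 + 344 * j ^ 3 * p + 140 * j ^ 4 + 1 * j * p ^ 4 + 6 * j ^ 2 * p ^ 3 + 13 * j ^ 3 * p ^ 2 + 12 * j ^ 4 * p + 4 * j ^ 5 := by ring
  rw [e]
  positivity

private theorem c2d_p_t (p t : ℝ) (hp : 0 ≤ p) (ht : 0 ≤ t) (h : 0 ≤ 5 * p + t - 29) :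
    0 ≤ ((7 + 5 * p + t) / 3) * (((14 + 7 * p + 2 * t) / 3) - 1 - ((7 + 5 * p + t) / 3)) * (((14 + 7 * p + 2 * t) / 3) + 1) * (((14 + 7 * p + 2 * t) / 3) ^ 2 - ((14 + 7 * p + 2 * t) / 3) - ((7 + 5 * p + t) / 3) * (((14 + 7 * p + 2 * t) / 3) - 3) + 2 * ((7 + 5 * p + t) / 3)) -
      (((14 + 7 * p + 2 * t) / 3) ^ 2 - ((14 + 7 * p + 2 * t) / 3) + ((7 + 5 * p + t) / 3) * (((14 + 7 * p + 2 * t) / 3) + 1)) * (((14 + 7 * p + 2 * t) / 3) ^ 2 - ((14 + 7 * p + 2 * t) / 3) + 2 * ((7 + 5 * p + t) / 3)) := by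
  have e : ((7 + 5 * p + t) / 3) * (((14 + 7 * p + 2 * t) / 3) - 1 - ((7 + 5 * p + t) / 3)) * (((14 + 7 * p + 2 * t) / 3) + 1) * (((14 + 7 * p + 2 * t) / 3) ^ 2 - ((14 + 7 * p + 2 * t) / 3) - ((7 + 5 * p + t) / 3) * (((14 + 7 * p + 2 * t) / 3) - 3) + 2 * ((7 + 5 * p + t) / 3)) -
      (((14 + 7 * p + 2 * t) / 3) ^ 2 - ((14 + 7 * p + 2 * t) / 3) + ((7 + 5 * p + t) / 3) * (((14 + 7 * p + 2 * t) / 3) + 1)) * (((14 + 7 * p + 2 * t) / 3) ^ 2 - ((14 + 7 * p + 2 * t) / 3) + 2 * ((7 + 5 * p + t) / 3)) =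
      (1935788 / 5926527 * t ^ 3 + 80 / 243 * t ^ 4 + 620480104 / 171869283 * p * t ^ 3 + 658413956 / 57289761 * p ^ 2 * t ^ 2 + 651241376 / 171869283 * p ^ 3 * t + 4 / 243 * t ^ 5 + 64 / 243 * p * t ^ 4 + 397 / 243 * p ^ 2 * t ^ 3 + 1193 / 243 * p ^ 3 * t ^ 2 + 31907636888 / 4984209207 * p ^ 4 * t + 6593980 / 20511149 * p ^ 5) + (5 * p + t - 29) *
      ((83888 / 243 + 1149841 / 7047 * t + 5135333 / 7047 * p + 1557877 / 68121 * t ^ 2 + 15656722 / 68121 * p * t + 38221519 / 68121 * p ^ 2 + 17617136 / 1975509 * p * t ^ 2 + 172965664 / 1975509 * p ^ 2 * t + 1098393566 / 5926527 * p ^ 3 + 3699717776 / 171869283 * p ^ 4) / 29) := by ring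
  rw [e]
  exact add_nonneg (by positivity) (mul_nonneg h (by positivity))

private theorem c2d_q_2 (u : ℝ) (hu : 0 ≤ u) :
    0 ≤ (2) * ((15 + u) - 1 - (2)) * ((15 + u) + 1) * ((2 * (15 + u) + 2) + 2) * ((15 + u) ^ 2 - (15 + u) - (2) * ((15 + u) - 3) + (2) * (2 * (15 + u) + 2)) -
      (2 * (15 + u) + 2) * ((15 + u) ^ 2 - (15 + u) + (2) * ((15 + u) + 1) + (2) * (2 * (15 + u) + 2)) * ((15 + u) ^ 2 - (15 + u) + 2 * (2) + (2) * (2 * (15 + u) + 2)) := by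
  have e : (2) * ((15 + u) - 1 - (2)) * ((15 + u) + 1) * ((2 * (15 + u) + 2) + 2) * ((15 + u) ^ 2 - (15 + u) - (2) * ((15 + u) - 3) + (2) * (2 * (15 + u) + 2)) -
      (2 * (15 + u) + 2) * ((15 + u) ^ 2 - (15 + u) + (2) * ((15 + u) + 1) + (2) * (2 * (15 + u) + 2)) * ((15 + u) ^ 2 - (15 + u) + 2 * (2) + (2) * (2 * (15 + u) + 2)) =
      541824 + 268104 * u + 45584 * u ^ 2 + 3598 * u ^ 3 + 136 * u ^ 4 + 2 * u ^ 5 := by ring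
  rw [e]
  positivity

private theorem c2d_q_3 (u : ℝ) (hu : 0 ≤ u) :
    0 ≤ (3) * ((15 + u) - 1 - (3)) * ((15 + u) + 1) * ((2 * (15 + u) + 2) + 2) * ((15 + u) ^ 2 - (15 + u) - (3) * ((15 + u) - 3) + (3) * (2 * (15 + u) + 2)) -
      (2 * (15 + u) + 2) * ((15 + u) ^ 2 - (15 + u) + (3) * ((15 + u) + 1) + (3) * (2 * (15 + u) + 2)) * ((15 + u) ^ 2 - (15 + u) + 2 * (3) + (3) * (2 * (15 + u) + 2)) := by
  have e : (3) * ((15 + u) - 1 - (3)) * ((15 + u) + 1) * ((2 * (15 + u) + 2) + 2) * ((15 + u) ^ 2 - (15 + u) - (3) * ((15 + u) - 3) + (3) * (2 * (15 + u) + 2)) -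
      (2 * (15 + u) + 2) * ((15 + u) ^ 2 - (15 + u) + (3) * ((15 + u) + 1) + (3) * (2 * (15 + u) + 2)) * ((15 + u) ^ 2 - (15 + u) + 2 * (3) + (3) * (2 * (15 + u) + 2)) =
      1312704 + 606396 * u + 98788 * u ^ 2 + 7550 * u ^ 3 + 278 * u ^ 4 + 4 * u ^ 5 := by ring
  rw [e]
  positivity

private theorem c2d_q_4 (u : ℝ) (hu : 0 ≤ u) :
    0 ≤ (4) * ((15 + u) - 1 - (4)) * ((15 + u) + 1) * ((2 * (15 + u) + 2) + 2) * ((15 + u) ^ 2 - (15 + u) - (4) * ((15 + u) - 3) + (4) * (2 * (15 + u) + 2)) -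
      (2 * (15 + u) + 2) * ((15 + u) ^ 2 - (15 + u) + (4) * ((15 + u) + 1) + (4) * (2 * (15 + u) + 2)) * ((15 + u) ^ 2 - (15 + u) + 2 * (4) + (4) * (2 * (15 + u) + 2)) := by
  have e : (4) * ((15 + u) - 1 - (4)) * ((15 + u) + 1) * ((2 * (15 + u) + 2) + 2) * ((15 + u) ^ 2 - (15 + u) - (4) * ((15 + u) - 3) + (4) * (2 * (15 + u) + 2)) -
      (2 * (15 + u) + 2) * ((15 + u) ^ 2 - (15 + u) + (4) * ((15 + u) + 1) + (4) * (2 * (15 + u) + 2)) * ((15 + u) ^ 2 - (15 + u) + 2 * (4) + (4) * (2 * (15 + u) + 2)) =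
      1859456 + 906616 * u + 149848 * u ^ 2 + 11462 * u ^ 3 + 420 * u ^ 4 + 6 * u ^ 5 := by ring
  rw [e]
  positivity

private theorem c2d_q_5 (u : ℝ) (hu : 0 ≤ u) :
    0 ≤ (5) * ((15 + u) - 1 - (5)) * ((15 + u) + 1) * ((2 * (15 + u) + 2) + 2) * ((15 + u) ^ 2 - (15 + u) - (5) * ((15 + u) - 3) + (5) * (2 * (15 + u) + 2)) -
      (2 * (15 + u) + 2) * ((15 + u) ^ 2 - (15 + u) + (5) * ((15 + u) + 1) + (5) * (2 * (15 + u) + 2)) * ((15 + u) ^ 2 - (15 + u) + 2 * (5) + (5) * (2 * (15 + u) + 2)) := by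
  have e : (5) * ((15 + u) - 1 - (5)) * ((15 + u) + 1) * ((2 * (15 + u) + 2) + 2) * ((15 + u) ^ 2 - (15 + u) - (5) * ((15 + u) - 3) + (5) * (2 * (15 + u) + 2)) -
      (2 * (15 + u) + 2) * ((15 + u) ^ 2 - (15 + u) + (5) * ((15 + u) + 1) + (5) * (2 * (15 + u) + 2)) * ((15 + u) ^ 2 - (15 + u) + 2 * (5) + (5) * (2 * (15 + u) + 2)) =
      2116800 + 1157580 * u + 198128 * u ^ 2 + 15322 * u ^ 3 + 562 * u ^ 4 + 8 * u ^ 5 := by ring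
  rw [e]
  positivity

private theorem c2d_q_6 (u : ℝ) (hu : 0 ≤ u) :
    0 ≤ (6) * ((15 + u) - 1 - (6)) * ((15 + u) + 1) * ((2 * (15 + u) + 2) + 2) * ((15 + u) ^ 2 - (15 + u) - (6) * ((15 + u) - 3) + (6) * (2 * (15 + u) + 2)) -
      (2 * (15 + u) + 2) * ((15 + u) ^ 2 - (15 + u) + (6) * ((15 + u) + 1) + (6) * (2 * (15 + u) + 2)) * ((15 + u) ^ 2 - (15 + u) + 2 * (6) + (6) * (2 * (15 + u) + 2)) := by
  have e : (6) * ((15 + u) - 1 - (6)) * ((15 + u) + 1) * ((2 * (15 + u) + 2) + 2) * ((15 + u) ^ 2 - (15 + u) - (6) * ((15 + u) - 3) + (6) * (2 * (15 + u) + 2)) -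
      (2 * (15 + u) + 2) * ((15 + u) ^ 2 - (15 + u) + (6) * ((15 + u) + 1) + (6) * (2 * (15 + u) + 2)) * ((15 + u) ^ 2 - (15 + u) + 2 * (6) + (6) * (2 * (15 + u) + 2)) =
      2019456 + 1348104 * u + 242992 * u ^ 2 + 19118 * u ^ 3 + 704 * u ^ 4 + 10 * u ^ 5 := by ring
  rw [e]
  positivity

private theorem c2d_q_7 (u : ℝ) (hu : 0 ≤ u) :
    0 ≤ (7) * ((15 + u) - 1 - (7)) * ((15 + u) + 1) * ((2 * (15 + u) + 2) + 2) * ((15 + u) ^ 2 - (15 + u) - (7) * ((15 + u) - 3) + (7) * (2 * (15 + u) + 2)) -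
      (2 * (15 + u) + 2) * ((15 + u) ^ 2 - (15 + u) + (7) * ((15 + u) + 1) + (7) * (2 * (15 + u) + 2)) * ((15 + u) ^ 2 - (15 + u) + 2 * (7) + (7) * (2 * (15 + u) + 2)) := by
  have e : (7) * ((15 + u) - 1 - (7)) * ((15 + u) + 1) * ((2 * (15 + u) + 2) + 2) * ((15 + u) ^ 2 - (15 + u) - (7) * ((15 + u) - 3) + (7) * (2 * (15 + u) + 2)) -
      (2 * (15 + u) + 2) * ((15 + u) ^ 2 - (15 + u) + (7) * ((15 + u) + 1) + (7) * (2 * (15 + u) + 2)) * ((15 + u) ^ 2 - (15 + u) + 2 * (7) + (7) * (2 * (15 + u) + 2)) =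
      1502144 + 1467004 * u + 283804 * u ^ 2 + 22838 * u ^ 3 + 846 * u ^ 4 + 12 * u ^ 5 := by ring
  rw [e]
  positivity

private theorem c2d_q_j (j p : ℝ) (hj : 0 ≤ j) (hp : 0 ≤ p) :
    0 ≤ (8 + j) * ((2 * (8 + j) + p) - 1 - (8 + j)) * ((2 * (8 + j) + p) + 1) * ((2 * (2 * (8 + j) + p) + 2) + 2) * ((2 * (8 + j) + p) ^ 2 - (2 * (8 + j) + p) - (8 + j) * ((2 * (8 + j) + p) - 3) + (8 + j) * (2 * (2 * (8 + j) + p) + 2)) -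
      (2 * (2 * (8 + j) + p) + 2) * ((2 * (8 + j) + p) ^ 2 - (2 * (8 + j) + p) + (8 + j) * ((2 * (8 + j) + p) + 1) + (8 + j) * (2 * (2 * (8 + j) + p) + 2)) * ((2 * (8 + j) + p) ^ 2 - (2 * (8 + j) + p) + 2 * (8 + j) + (8 + j) * (2 * (2 * (8 + j) + p) + 2)) := by
  have e : (8 + j) * ((2 * (8 + j) + p) - 1 - (8 + j)) * ((2 * (8 + j) + p) + 1) * ((2 * (2 * (8 + j) + p) + 2) + 2) * ((2 * (8 + j) + p) ^ 2 - (2 * (8 + j) + p) - (8 + j) * ((2 * (8 + j) + p) - 3) + (8 + j) * (2 * (2 * (8 + j) + p) + 2)) -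
      (2 * (2 * (8 + j) + p) + 2) * ((2 * (8 + j) + p) ^ 2 - (2 * (8 + j) + p) + (8 + j) * ((2 * (8 + j) + p) + 1) + (8 + j) * (2 * (2 * (8 + j) + p) + 2)) * ((2 * (8 + j) + p) ^ 2 - (2 * (8 + j) + p) + 2 * (8 + j) + (8 + j) * (2 * (2 * (8 + j) + p) + 2)) =
      2350080 + 2226384 * p + 3214080 * j + 405406 * p ^ 2 + 1691050 * j * p + 1435504 * j ^ 2 + 30562 * p ^ 3 + 228564 * j * p ^ 2 + 495042 * j ^ 2 * p + 307472 * j ^ 3 + 1058 * p ^ 4 + 12636 * j * p ^ 3 + 47612 * j ^ 2 * p ^ 2 + 70590 * j ^ 3 * p + 34892 * j ^ 4 + 14 * p ^ 5 + 292 * j * p ^ 4 + 1726 * j ^ 2 * p ^ 3 + 4356 * j ^ 3 * p ^ 2 + 4936 * j ^ 4 * p + 2032 * j ^ 5 + 2 * j * p ^ 5 + 20 * j ^ 2 * p ^ 4 + 78 * j ^ 3 * p ^ 3 + 148 * j ^ 4 * p ^ 2 + 136 * j ^ 5 * p + 48 * j ^ 6 := by ring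
  rw [e]
  positivity

private theorem c2d_r_t (p t : ℝ) (hp : 0 ≤ p) (ht : 0 ≤ t) (h : 0 ≤ 5 * p + t - 29) :
    0 ≤ ((7 + 5 * p + t) / 3) * (((14 + 7 * p + 2 * t) / 3) - 1 - ((7 + 5 * p + t) / 3)) * (((14 + 7 * p + 2 * t) / 3) + 1) * ((((14 + 7 * p + 2 * t) / 3) - ((7 + 5 * p + t) / 3)) + 2) * (((14 + 7 * p + 2 * t) / 3) ^ 2 - ((14 + 7 * p + 2 * t) / 3) - ((7 + 5 * p + t) / 3) * (((14 + 7 * p + 2 * t) / 3) - 3) + ((7 + 5 * p + t) / 3) * (((14 + 7 * p + 2 * t) / 3) - ((7 + 5 * p + t) / 3))) -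
      (((14 + 7 * p + 2 * t) / 3) - ((7 + 5 * p + t) / 3)) * (((14 + 7 * p + 2 * t) / 3) ^ 2 - ((14 + 7 * p + 2 * t) / 3) + ((7 + 5 * p + t) / 3) * (((14 + 7 * p + 2 * t) / 3) + 1) + ((7 + 5 * p + t) / 3) * (((14 + 7 * p + 2 * t) / 3) - ((7 + 5 * p + t) / 3))) * (((14 + 7 * p + 2 * t) / 3) ^ 2 - ((14 + 7 * p + 2 * t) / 3) + 2 * ((7 + 5 * p + t) / 3) + ((7 + 5 * p + t) / 3) * (((14 + 7 * p + 2 * t) / 3) - ((7 + 5 * p + t) / 3))) := by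
  have e : ((7 + 5 * p + t) / 3) * (((14 + 7 * p + 2 * t) / 3) - 1 - ((7 + 5 * p + t) / 3)) * (((14 + 7 * p + 2 * t) / 3) + 1) * ((((14 + 7 * p + 2 * t) / 3) - ((7 + 5 * p + t) / 3)) + 2) * (((14 + 7 * p + 2 * t) / 3) ^ 2 - ((14 + 7 * p + 2 * t) / 3) - ((7 + 5 * p + t) / 3) * (((14 + 7 * p + 2 * t) / 3) - 3) + ((7 + 5 * p + t) / 3) * (((14 + 7 * p + 2 * t) / 3) - ((7 + 5 * p + t) / 3))) -
      (((14 + 7 * p + 2 * t) / 3) - ((7 + 5 * p + t) / 3)) * (((14 + 7 * p + 2 * t) / 3) ^ 2 - ((14 + 7 * p + 2 * t) / 3) + ((7 + 5 * p + t) / 3) * (((14 + 7 * p + 2 * t) / 3) + 1) + ((7 + 5 * p + t) / 3) * (((14 + 7 * p + 2 * t) / 3) - ((7 + 5 * p + t) / 3))) * (((14 + 7 * p + 2 * t) / 3) ^ 2 - ((14 + 7 * p + 2 * t) / 3) + 2 * ((7 + 5 * p + t) / 3) + ((7 + 5 * p + t) / 3) * (((14 + 7 * p + 2 * t) / 3) - ((7 + 5 * p + t) / 3))) =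
      (29707711 / 5926527 * t ^ 3 + 209 / 81 * t ^ 4 + 4995250795 / 171869283 * p * t ^ 3 + 6082370053 / 57289761 * p ^ 2 * t ^ 2 + 21116066954 / 171869283 * p ^ 3 * t + 20492456 / 57289761 * p ^ 4 + 20 / 81 * t ^ 5 + 905 / 243 * p * t ^ 4 + 5245 / 243 * p ^ 2 * t ^ 3 + 4850 / 81 * p ^ 3 * t ^ 2 + 19258 / 243 * p ^ 4 * t + 9716 / 243 * p ^ 5 + 2 / 243 * t ^ 6 + 37 / 243 * p * t ^ 5 + 277 / 243 * p ^ 2 * t ^ 4 + 358 / 81 * p ^ 3 * t ^ 3 + 2276 / 243 * p ^ 4 * t ^ 2 + 2504 / 243 * p ^ 5 * t + 1120 / 243 * p ^ 6) + (5 * p + t - 29) *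
      ((205702 / 243 + 3198937 / 7047 * t + 487144 / 261 * p + 14070544 / 204363 * t ^ 2 + 15076909 / 22707 * p * t + 306122240 / 204363 * p ^ 2 + 502066 / 658503 * p * t ^ 2 + 406474942 / 1975509 * p ^ 2 * t + 2836349482 / 5926527 * p ^ 3) / 29) := by ring
  rw [e]
  exact add_nonneg (by positivity) (mul_nonneg h (by positivity))

private theorem c2d_si (b c : ℝ) (hb : 0 ≤ b) (hc : 0 ≤ c) (h : 0 ≤ b + c - 30) :
    0 ≤ 2 * ((2 + b) + 2) * (((b + c) / 2) - 2) * (((b + c) / 2) ^ 2 - 2 * ((b + c) / 2) + 3 + (2 + b)) * (((b + c) / 2) + 1) * (((b + c) / 2) + 1 + (2 + b)) -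
      (2 + b) * (2 * ((b + c) / 2) + 2 + (2 + b)) * (((b + c) / 2) ^ 2 + 1 + (2 + b)) * (((b + c) / 2) ^ 2 - ((b + c) / 2) + 2 + (2 + b)) := by
  have e : 2 * ((2 + b) + 2) * (((b + c) / 2) - 2) * (((b + c) / 2) ^ 2 - 2 * ((b + c) / 2) + 3 + (2 + b)) * (((b + c) / 2) + 1) * (((b + c) / 2) + 1 + (2 + b)) -
      (2 + b) * (2 * ((b + c) / 2) + 2 + (2 + b)) * (((b + c) / 2) ^ 2 + 1 + (2 + b)) * (((b + c) / 2) ^ 2 - ((b + c) / 2) + 2 + (2 + b)) =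
      (1087 / 75 * c ^ 2 + 197 / 1800 * c ^ 5 + 1294759 / 2025000 * b * c ^ 4 + 34259 / 56250 * b ^ 2 * c ^ 3 + 1 / 16 * b ^ 2 * c ^ 4 + 1099639 / 5062500 * b ^ 3 * c ^ 3 + 17109193 / 60750000 * b ^ 4 * c ^ 2 + 623692 / 3796875 * b ^ 5 * c + 47264 / 1265625 * b ^ 6) + (b + c - 30) *
      ((336 + 376 / 5 * c + 1956 / 5 * b + 2366 / 75 * b * c + 3901 / 25 * b ^ 2 + 13 / 2 * c ^ 3 + 25991 / 2250 * b * c ^ 2 + 50069 / 2250 * b ^ 2 * c + 25651 / 750 * b ^ 3 + 7 / 15 * c ^ 4 + 111404 / 16875 * b * c ^ 3 + 221087 / 13500 * b ^ 2 * c ^ 2 + 569761 / 33750 * b ^ 3 * c + 171901 / 22500 * b ^ 4 + 82993 / 84375 * b ^ 3 * c ^ 2 + 147209 / 81000 * b ^ 4 * c + 509401 / 675000 * b ^ 5) / 30) := by ring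
  rw [e]
  exact add_nonneg (by positivity) (mul_nonneg h (by positivity))

private theorem c2d_sr (b c : ℝ) (hb : 0 ≤ b) (hc : 0 ≤ c) (h : 0 ≤ b + c - 30) :
    0 ≤ 4 * ((2 + b) + 2) * (((b + c) / 2) - 1) * (((b + c) / 2) + 1) * (((b + c) / 2) + 1 + (2 + b)) * ((b + c) / 2) * (((b + c) / 2) + 2 + (2 + b)) -
      (((b + c) / 2) ^ 2 - ((b + c) / 2) + (2 + b) + 2) * (2 * ((b + c) / 2) + 2 + (2 + b)) * ((2 + b) * ((b + c) / 2) * (((b + c) / 2) + 2 + (2 + b)) + ((2 + b) + 2) * (((b + c) / 2) + 1) * (((b + c) / 2) + 1 + (2 + b))) := by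
  have e : 4 * ((2 + b) + 2) * (((b + c) / 2) - 1) * (((b + c) / 2) + 1) * (((b + c) / 2) + 1 + (2 + b)) * ((b + c) / 2) * (((b + c) / 2) + 2 + (2 + b)) -
      (((b + c) / 2) ^ 2 - ((b + c) / 2) + (2 + b) + 2) * (2 * ((b + c) / 2) + 2 + (2 + b)) * ((2 + b) * ((b + c) / 2) * (((b + c) / 2) + 2 + (2 + b)) + ((2 + b) + 2) * (((b + c) / 2) + 1) * (((b + c) / 2) + 1 + (2 + b))) =
      (7777 / 1125 * c ^ 3 + 13 / 4 * c ^ 4 + 1403417 / 67500 * b * c ^ 3 + 57807 / 2500 * b ^ 2 * c ^ 2 + 1 / 8 * c ^ 5 + 2 * b * c ^ 4 + 19 / 2 * b ^ 2 * c ^ 3 + 32001881 / 2025000 * b ^ 3 * c ^ 2 + 625213 / 67500 * b ^ 4 * c + 1097567 / 1012500 * b ^ 5 + 1 / 8 * b ^ 2 * c ^ 4 + 3 / 4 * b ^ 3 * c ^ 3 + 3 / 2 * b ^ 4 * c ^ 2 + 5 / 4 * b ^ 5 * c + 3 / 8 * b ^ 6) + (b + c - 30) *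
      ((192 + 1592 / 5 * c + 2632 / 5 * b + 6946 / 75 * c ^ 2 + 12504 / 25 * b * c + 36866 / 75 * b ^ 2 + 115333 / 2250 * b * c ^ 2 + 534503 / 2250 * b ^ 2 * c + 218683 / 1125 * b ^ 3 + 1410619 / 67500 * b ^ 3 * c + 927433 / 33750 * b ^ 4) / 30) := by ring
  rw [e]
  exact add_nonneg (by positivity) (mul_nonneg h (by positivity))

/-- with `Q = l²-l`, `K = i(l-1-i)(l+1)`, `B = Q - i(l-3)`, `C = Q + i(l+1)`, `D = Q + 2i`: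
`P = K B + 2 i K - C D ≥ 0`. `2i ≤ l`: for `i = 2,…,7` put `l = 15 + u`; for `i ≥ 8` put `i = 8 + j`,
`l = 2i + p`: all coefficients `≥ 0`. `2i ≥ l`: put `p = 2i - l`, `t = 5l - 7i - 7`, so
`i = (7+5p+t)/3`, `l = 2i - p`. `i ≤ 11`: finitely many pairs (`l ≤ 2i ≤ 22`), all true. `i ≥ 12`: then
`5p + t ≥ 29`; replace each negative monomial `-N` by `-N (5p+t)/29`, first in the lowest degree and
so on: at the end all coefficients are `≥ 0`. -/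
theorem c2d_P (l i : ℕ) (hl : 15 ≤ l) (hi : 2 ≤ i) (h : 7 * (i + 1) ≤ 5 * l) :
    ((l : ℝ) ^ 2 - l + i * (l + 1)) * ((l : ℝ) ^ 2 - l + 2 * i) ≤
      (i : ℝ) * (l - 1 - i) * (l + 1) * ((l : ℝ) ^ 2 - l - i * (l - 3) + 2 * i) := by
  rcases Nat.lt_or_ge l (2 * i) with h2 | h2
  · rcases Nat.lt_or_ge i 12 with h12 | h12
    · have h8 : 8 ≤ i := by omega
      have hl2 : l ≤ 22 := by omega
      interval_cases i <;> interval_cases l <;> first | omega | norm_num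
    · have a1 : (l : ℝ) ≤ 2 * i := by exact_mod_cast h2.le
      have a2 : 7 * ((i : ℝ) + 1) ≤ 5 * l := by exact_mod_cast h
      have a3 : (12 : ℝ) ≤ i := by exact_mod_cast h12
      have k := c2d_p_t (2 * i - l) (5 * l - 7 * i - 7) (by linarith) (by linarith) (by linarith)
      have e1 : (7 + 5 * (2 * (i : ℝ) - l) + (5 * l - 7 * i - 7)) / 3 = i := by ring
      have e2 : (14 + 7 * (2 * (i : ℝ) - l) + 2 * (5 * l - 7 * i - 7)) / 3 = l := by ring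
      rw [e1, e2] at k
      exact sub_nonneg.1 k
  · rcases Nat.lt_or_ge i 8 with h8 | h8
    · obtain ⟨u, rfl⟩ := Nat.exists_eq_add_of_le hl
      have hu : (0 : ℝ) ≤ u := Nat.cast_nonneg u
      push_cast
      interval_cases i
      · exact sub_nonneg.1 (c2d_p_2 u hu)
      · exact sub_nonneg.1 (c2d_p_3 u hu)
      · exact sub_nonneg.1 (c2d_p_4 u hu)
      · exact sub_nonneg.1 (c2d_p_5 u hu)
      · exact sub_nonneg.1 (c2d_p_6 u hu)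
      · exact sub_nonneg.1 (c2d_p_7 u hu)
    · obtain ⟨j, rfl⟩ := Nat.exists_eq_add_of_le h8
      obtain ⟨p, rfl⟩ := Nat.exists_eq_add_of_le h2
      have hj : (0 : ℝ) ≤ j := Nat.cast_nonneg j
      have hp : (0 : ℝ) ≤ p := Nat.cast_nonneg p
      push_cast
      exact sub_nonneg.1 (c2d_p_j j p hj hp)

/-- `2i ≤ l`, `a₁ = 2l + 2`: `K (a₁+2)(B + i a₁) ≥ a₁ (C + i a₁)(D + i a₁)`. `i = 2,…,7`: `l = 15 + u`;
`i ≥ 8`: `i = 8 + j`, `l = 2i + p`: all coefficients `≥ 0`. -/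
theorem c2d_F1 (l i : ℕ) (hl : 15 ≤ l) (hi : 2 ≤ i) (h : 2 * i ≤ l) :
    (2 * (l : ℝ) + 2) * ((l : ℝ) ^ 2 - l + i * (l + 1) + i * (2 * l + 2)) *
        ((l : ℝ) ^ 2 - l + 2 * i + i * (2 * l + 2)) ≤
      (i : ℝ) * (l - 1 - i) * (l + 1) * (2 * l + 4) *
        ((l : ℝ) ^ 2 - l - i * (l - 3) + i * (2 * l + 2)) := by
  have e0 : 2 * (l : ℝ) + 4 = 2 * l + 2 + 2 := by ring
  rw [e0]
  rcases Nat.lt_or_ge i 8 with h8 | h8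
  · obtain ⟨u, rfl⟩ := Nat.exists_eq_add_of_le hl
    have hu : (0 : ℝ) ≤ u := Nat.cast_nonneg u
    push_cast
    interval_cases i
    · exact sub_nonneg.1 (c2d_q_2 u hu)
    · exact sub_nonneg.1 (c2d_q_3 u hu)
    · exact sub_nonneg.1 (c2d_q_4 u hu)
    · exact sub_nonneg.1 (c2d_q_5 u hu)
    · exact sub_nonneg.1 (c2d_q_6 u hu)
    · exact sub_nonneg.1 (c2d_q_7 u hu)
  · obtain ⟨j, rfl⟩ := Nat.exists_eq_add_of_le h8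
    obtain ⟨p, rfl⟩ := Nat.exists_eq_add_of_le h
    have hj : (0 : ℝ) ≤ j := Nat.cast_nonneg j
    have hp : (0 : ℝ) ≤ p := Nat.cast_nonneg p
    push_cast
    exact sub_nonneg.1 (c2d_q_j j p hj hp)

/-- `l ≤ 2i`, `a₁ = l - i`: `K (a₁+2)(B + i a₁) ≥ a₁ (C + i a₁)(D + i a₁)`. As the second half of
`c2d_P` (finitely many pairs for `i ≤ 11`; `5p + t ≥ 29` for `i ≥ 12`). -/
theorem c2d_F2 (l i : ℕ) (hl : 15 ≤ l) (h : l ≤ 2 * i) (h2 : 7 * (i + 1) ≤ 5 * l) :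
    ((l : ℝ) - i) * ((l : ℝ) ^ 2 - l + i * (l + 1) + i * (l - i)) *
        ((l : ℝ) ^ 2 - l + 2 * i + i * (l - i)) ≤
      (i : ℝ) * (l - 1 - i) * (l + 1) * (l - i + 2) *
        ((l : ℝ) ^ 2 - l - i * (l - 3) + i * (l - i)) := by
  rcases Nat.lt_or_ge i 12 with h12 | h12
  · have h8 : 8 ≤ i := by omega
    have hl2 : l ≤ 22 := by omega
    interval_cases i <;> interval_cases l <;> first | omega | norm_num
  · have a1 : (l : ℝ) ≤ 2 * i := by exact_mod_cast h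
    have a2 : 7 * ((i : ℝ) + 1) ≤ 5 * l := by exact_mod_cast h2
    have a3 : (12 : ℝ) ≤ i := by exact_mod_cast h12
    have k := c2d_r_t (2 * i - l) (5 * l - 7 * i - 7) (by linarith) (by linarith) (by linarith)
    have e1 : (7 + 5 * (2 * (i : ℝ) - l) + (5 * l - 7 * i - 7)) / 3 = i := by ring
    have e2 : (14 + 7 * (2 * (i : ℝ) - l) + 2 * (5 * l - 7 * i - 7)) / 3 = l := by ring
    rw [e1, e2] at k
    exact sub_nonneg.1 k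

/-- `a = 2 + b`, `2l = b + c`, `b + c ≥ 30`: replace each negative monomial `-N` by `-N (b+c)/30`,
first in the lowest degree and so on: all coefficients `≥ 0`. -/
theorem c2d_SI1 (l a : ℝ) (hl : 15 ≤ l) (ha : 2 ≤ a) (ha2 : a ≤ 2 * l + 2) :
    a * (2 * l + 2 + a) * (l ^ 2 + 1 + a) * (l ^ 2 - l + 2 + a) ≤
      2 * (a + 2) * (l - 2) * (l ^ 2 - 2 * l + 3 + a) * (l + 1) * (l + 1 + a) := by
  have k := c2d_si (a - 2) (2 * l + 2 - a) (by linarith) (by linarith) (by linarith)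
  have e1 : (a - 2 + (2 * l + 2 - a)) / 2 = l := by ring
  have e2 : 2 + (a - 2) = a := by ring
  rw [e1, e2] at k
  exact sub_nonneg.1 k

/-- The same substitution. -/
theorem c2d_SR1 (l a : ℝ) (hl : 15 ≤ l) (ha : 2 ≤ a) (ha2 : a ≤ 2 * l + 2) :
    (l ^ 2 - l + a + 2) * (2 * l + 2 + a) *
        (a * l * (l + 2 + a) + (a + 2) * (l + 1) * (l + 1 + a)) ≤
      4 * (a + 2) * (l - 1) * (l + 1) * (l + 1 + a) * l * (l + 2 + a) := by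
  have k := c2d_sr (a - 2) (2 * l + 2 - a) (by linarith) (by linarith) (by linarith)
  have e1 : (a - 2 + (2 * l + 2 - a)) / 2 = l := by ring
  have e2 : 2 + (a - 2) = a := by ring
  rw [e1, e2] at k
  exact sub_nonneg.1 k

end Pool.Agent.LRQ
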