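import Mathlib
import Pool.Agent.LRQ.C2A
import Pool.Agent.LRQ.C2B
import Pool.Agent.LRQ.C2D

set_option autoImplicit false

/-! # [LRQ-C2E] the nodes `s = i`, and `s = l`, `i = 1` -/

namespace Pool.Agent.LRQ

open Finset
open Pool.Agent.LRE Pool.Agent.LRT Pool.Agent.LRG

/-- `7(i+1) ≤ 5l`: `(i-1)(i+3) ≤ (i-1)(a+1+i)`, so `(i+1)² - 4 < l(l-1)/2`; if `7(i+1) ≥ 5l+1` then
`(i+1)² ≥ (5l+1)²/49 ≥ l(l-1)/2 + 4` for `l ≥ 15`. And `i + a ≤ l` if `l ≤ 2i`: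
`(l-2)(a+1+i) ≤ 2(i-1)(a+1+i) < l(l-1) < (l-2)(l+2)`. -/
theorem c2e_range (l a i : ℕ) (hl : 15 ≤ l) (ha : 2 ≤ a) (hi : 2 ≤ i)
    (hc : 2 * ((i - 1) * (a + 1 + i)) < l * (l - 1)) :
    7 * (i + 1) ≤ 5 * l ∧ (l ≤ 2 * i → a + i ≤ l) := by
  obtain ⟨j, rfl⟩ : ∃ j, i = j + 2 := ⟨i - 2, by omega⟩
  obtain ⟨m, rfl⟩ : ∃ m, l = m + 15 := ⟨l - 15, by omega⟩
  obtain ⟨b, rfl⟩ : ∃ b, a = b + 2 := ⟨a - 2, by omega⟩
  have e1 : j + 2 - 1 = j + 1 := by omega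
  have e2 : m + 15 - 1 = m + 14 := by omega
  rw [e1, e2] at hc
  constructor
  · by_contra hcon
    push Not at hcon
    have h1 : 5 * m + 55 ≤ 7 * j := by omega
    nlinarith [Nat.zero_le (j * b), Nat.mul_le_mul h1 h1]
  · intro h2
    by_contra hcon
    push Not at hcon
    have h3 : m + 18 ≤ b + 2 + (j + 2) + 1 + 1 := by omega
    have h4 : m + 13 ≤ 2 * (j + 1) := by omega
    have h5 := Nat.mul_le_mul h4 (show m + 17 ≤ b + 2 + 1 + (j + 2) by omega)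
    nlinarith

/-- `Q = l²-l`, `K = i(l-1-i)(l+1)`, `B = Q - i(l-3)`, `C = Q + i(l+1)`, `D = Q + 2i`;
`F(a) = K(a+2)(B+ia) - a(C+ia)(D+ia) = 2KB + a P + a² (iK - i(C+D)) - i² a³` with `P ≥ 0`
(`c2d_P`). Let `a ≤ a₁` (`a₁ = 2l+2` if `2i ≤ l`, `a₁ = l - i` if `l ≤ 2i`). Then
`F(a) ≥ H(a) = 2KB + a P + a² R`, `R = i(K - (C+D) - i a₁)`, `H(a₁) = F(a₁) ≥ 0` (`c2d_F1`,
`c2d_F2`), `H(0) = 2KB ≥ 0`. `R ≥ 0`: `H(a) ≥ 0`; `R < 0`: `H` is concave. -/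
theorem c2e_poly (l a i : ℕ) (hl : 15 ≤ l) (ha : 2 ≤ a) (ha2 : a ≤ 2 * l + 2) (hi : 2 ≤ i)
    (hc : 2 * ((i - 1) * (a + 1 + i)) < l * (l - 1)) :
    (a : ℝ) * ((l : ℝ) ^ 2 - l + i * (l + 1 + a)) * ((l : ℝ) ^ 2 - l + i * (a + 2)) ≤
      (i : ℝ) * (a + 2) * (l - 1 - i) * (l + 1) * ((l : ℝ) ^ 2 - l - i * (l - 3 - a)) := by
  obtain ⟨h7, h8⟩ := c2e_range l a i hl ha hi hc
  have hlr : (15 : ℝ) ≤ l := by exact_mod_cast hl
  have har : (2 : ℝ) ≤ a := by exact_mod_cast ha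
  have hir : (2 : ℝ) ≤ i := by exact_mod_cast hi
  have h7r : 7 * ((i : ℝ) + 1) ≤ 5 * l := by exact_mod_cast h7
  have hil : (0 : ℝ) ≤ (l : ℝ) - 1 - i := by linarith
  have hP := c2d_P l i hl hi h7
  have key : ∀ a₁ : ℝ, (a : ℝ) ≤ a₁ →
      a₁ * ((l : ℝ) ^ 2 - l + i * (l + 1) + i * a₁) * ((l : ℝ) ^ 2 - l + 2 * i + i * a₁) ≤
      (i : ℝ) * (l - 1 - i) * (l + 1) * (a₁ + 2) * ((l : ℝ) ^ 2 - l - i * (l - 3) + i * a₁) →
      (a : ℝ) * ((l : ℝ) ^ 2 - l + i * (l + 1 + a)) * ((l : ℝ) ^ 2 - l + i * (a + 2)) ≤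
      (i : ℝ) * (a + 2) * (l - 1 - i) * (l + 1) * ((l : ℝ) ^ 2 - l - i * (l - 3 - a)) := by
    intro a₁ haa hF
    have hK : 0 ≤ (i : ℝ) * (l - 1 - i) * (l + 1) := by positivity
    have hB : 0 ≤ (l : ℝ) ^ 2 - l - i * (l - 3) := by nlinarith
    have e1 : (l : ℝ) ^ 2 - l + i * (l + 1 + a) = (l : ℝ) ^ 2 - l + i * (l + 1) + i * a := by ring
    have e2 : (l : ℝ) ^ 2 - l + i * (a + 2) = (l : ℝ) ^ 2 - l + 2 * i + i * a := by ring
    have e3 : (l : ℝ) ^ 2 - l - i * (l - 3 - a) = (l : ℝ) ^ 2 - l - i * (l - 3) + i * a := by ring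
    have e4 : (i : ℝ) * (a + 2) * (l - 1 - i) * (l + 1) =
        ((i : ℝ) * (l - 1 - i) * (l + 1)) * (a + 2) := by ring
    rw [e1, e2, e3, e4]
    generalize (i : ℝ) * (l - 1 - i) * (l + 1) = K at *
    generalize (l : ℝ) ^ 2 - l - i * (l - 3) = B at *
    generalize (l : ℝ) ^ 2 - l + i * (l + 1) = C at *
    generalize (l : ℝ) ^ 2 - l + 2 * i = D at *
    generalize (a : ℝ) = x at *
    generalize (i : ℝ) = y at *
    have ha1 : 0 < a₁ := by linarith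
    have hx0 : 0 < x := by linarith
    have hPn : 0 ≤ K * (B + 2 * y) - C * D := by linarith
    have hKB : 0 ≤ K * B := mul_nonneg hK hB
    -- `F x ≥ H x`
    have hH : 0 ≤ 2 * (K * B) + x * (K * (B + 2 * y) - C * D) +
        x ^ 2 * (y * (K - (C + D) - y * a₁)) := by
      have hH1 : 0 ≤ 2 * (K * B) + a₁ * (K * (B + 2 * y) - C * D) +
          a₁ ^ 2 * (y * (K - (C + D) - y * a₁)) := by
        nlinarith
      rcases le_or_gt 0 (y * (K - (C + D) - y * a₁)) with hR | hR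
      · positivity
      · have h1 : 0 ≤ a₁ * (2 * (K * B) + x * (K * (B + 2 * y) - C * D) +
            x ^ 2 * (y * (K - (C + D) - y * a₁))) := by
          have h2 : a₁ * (2 * (K * B) + x * (K * (B + 2 * y) - C * D) +
              x ^ 2 * (y * (K - (C + D) - y * a₁))) =
              x * (2 * (K * B) + a₁ * (K * (B + 2 * y) - C * D) +
                a₁ ^ 2 * (y * (K - (C + D) - y * a₁))) + 2 * (K * B) * (a₁ - x) +
              (x * a₁) * ((a₁ - x) * (-(y * (K - (C + D) - y * a₁)))) := by ring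
          rw [h2]
          have h3 : 0 ≤ a₁ - x := by linarith
          have h4 : 0 ≤ -(y * (K - (C + D) - y * a₁)) := by linarith
          have h5 := mul_nonneg hx0.le hH1
          have h6 : 0 ≤ 2 * (K * B) * (a₁ - x) := mul_nonneg (by linarith) h3
          have h7 : 0 ≤ (x * a₁) * ((a₁ - x) * (-(y * (K - (C + D) - y * a₁)))) :=
            mul_nonneg (mul_pos hx0 ha1).le (mul_nonneg h3 h4)
          linarith
        exact nonneg_of_mul_nonneg_right h1 ha1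
    have hlast : 0 ≤ y ^ 2 * x ^ 2 * (a₁ - x) := by
      have h3 : 0 ≤ a₁ - x := by linarith
      positivity
    nlinarith
  rcases le_total (2 * i) l with h | h
  · refine key (2 * (l : ℝ) + 2) (by exact_mod_cast ha2) ?_
    have h9 := c2d_F1 l i hl hi h
    have e5 : 2 * (l : ℝ) + 2 + 2 = 2 * l + 4 := by ring
    rw [e5]
    exact h9
  · have h10 := h8 h
    have h10r : (a : ℝ) + i ≤ l := by exact_mod_cast h10
    exact key ((l : ℝ) - i) (by linarith) (c2d_F2 l i hl h h7)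

/-- the bound from the products: `N = l+1+a`, `x = iN/(l-1)`, `w = (a+2)(l-1-i)/(l-1)`. `c_SI`;
`c_pair` with `n = l-1-i`, `b = i`, `y = x - i` (`≥ 0`): exponent `2(l-1-i)(x-i)/(l+x) = 2iw/(l+x)`
(because `(l-1-i)(x-i) = i w`); `c_top` with `n = i`, `z = x+l-i-1`, `u = w`: exponent
`i w/(l-i+x)`. The difference is
`t = i(a+2)(l-1-i)(Q - i(l-3-a))/((Q+i(l+1+a))(Q+i(a+2)))`, `Q = l² - l`. -/
theorem c2e_bound (l N i a : ℕ) (hl : 15 ≤ l) (hN : N = l + 1 + a) (hi : 1 ≤ i) (hil : i + 1 ≤ l) :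
    RN l N i i ≤ N * Real.exp (-((i : ℝ) * (a + 2) * (l - 1 - i) *
      ((l : ℝ) ^ 2 - l - i * (l - 3 - a)) /
      (((l : ℝ) ^ 2 - l + i * (l + 1 + a)) * ((l : ℝ) ^ 2 - l + i * (a + 2))))) := by
  have hlr : (15 : ℝ) ≤ l := by exact_mod_cast hl
  have hir : (1 : ℝ) ≤ i := by exact_mod_cast hi
  have hilr : (i : ℝ) + 1 ≤ l := by exact_mod_cast hil
  have hl1 : (0 : ℝ) < (l : ℝ) - 1 := by linarith
  have hNr : (N : ℝ) = (l : ℝ) + 1 + a := by rw [hN]; push_cast; ring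
  have ha0 : (0 : ℝ) ≤ a := Nat.cast_nonneg a
  obtain ⟨x, hx⟩ : ∃ x : ℝ, x = i * N / ((l : ℝ) - 1) := ⟨_, rfl⟩
  obtain ⟨w, hw⟩ : ∃ w : ℝ, w = (N : ℝ) + i - ((l : ℝ) - 1) - x := ⟨_, rfl⟩
  have hSI := c_SI l N i x w (by omega) hil (by omega) hx hw
  have hxi : x - i = i * (a + 2) / ((l : ℝ) - 1) := by
    rw [hx, hNr]; field_simp; ring
  have hw' : w = (a + 2) * ((l : ℝ) - 1 - i) / ((l : ℝ) - 1) := by
    rw [hw, hx, hNr]; field_simp; ring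
  have hli : (0 : ℝ) ≤ (l : ℝ) - 1 - i := by linarith
  have hy0 : 0 ≤ x - i := by rw [hxi]; positivity
  have hw0 : 0 ≤ w := by rw [hw']; positivity
  have hx0 : 0 ≤ x := by linarith
  have hpair := c_pair (l - 1 - i) (i : ℝ) (x - i) (by linarith) hy0
  have hcast : ((l - 1 - i : ℕ) : ℝ) = (l : ℝ) - 1 - i := by
    rw [Nat.cast_sub (by omega), Nat.cast_sub (by omega)]
    push_cast
    ring
  have htop := c_top i (x + (l : ℝ) - i - 1) w (by linarith) hw0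
  have etop : ∏ p ∈ range i, (1 + w / (x + (l : ℝ) - i - 1 + ((p : ℝ) + 1))) =
      ∏ p ∈ range i, (1 + w / (x + ((l : ℝ) - i + p))) := by
    refine Finset.prod_congr rfl fun p _ => ?_
    congr 2
    ring
  rw [etop] at htop
  rw [hcast] at hpair
  have hprod1 : 0 < ∏ p ∈ range (l - 1 - i), (1 + (x - i) / ((p : ℝ) + 1 + i)) := by
    refine Finset.prod_pos fun p _ => ?_
    have : 0 ≤ (x - i) / ((p : ℝ) + 1 + i) := by positivity
    linarith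
  generalize ∏ p ∈ range (l - 1 - i), (1 + (x - i) / ((p : ℝ) + 1 + i)) = A1 at *
  generalize ∏ p ∈ range i, (1 + w / (x + ((l : ℝ) - i + p))) = A2 at *
  have hN0 : (0 : ℝ) ≤ N := Nat.cast_nonneg N
  have hRN : RN l N i i = N * A2 / A1 := by
    rw [eq_div_iff hprod1.ne']
    exact hSI
  have h1 : RN l N i i ≤ N * Real.exp (i * w / (x + (l : ℝ) - i - 1 + 1)) /
      Real.exp (2 * ((l : ℝ) - 1 - i) * (x - i) / ((l : ℝ) - 1 - i + 1 + 2 * i + (x - i))) := by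
    rw [hRN]
    exact div_le_div₀ (by positivity) (mul_le_mul_of_nonneg_left htop hN0) (Real.exp_pos _) hpair
  refine h1.trans (le_of_eq ?_)
  rw [mul_div_assoc, ← Real.exp_sub]
  congr 2
  have hd1 : x + (l : ℝ) - i - 1 + 1 = ((l : ℝ) ^ 2 - l + i * (a + 2)) / ((l : ℝ) - 1) := by
    rw [hx, hNr]; field_simp; ring
  have hd2 : (l : ℝ) - 1 - i + 1 + 2 * i + (x - i) =
      ((l : ℝ) ^ 2 - l + i * (l + 1 + a)) / ((l : ℝ) - 1) := by
    rw [hx, hNr]; field_simp; ring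
  have hQ : (0 : ℝ) < (l : ℝ) ^ 2 - l := by nlinarith
  have hp1 : 0 < (l : ℝ) ^ 2 - l + i * (a + 2) := by positivity
  have hp2 : 0 < (l : ℝ) ^ 2 - l + i * (l + 1 + a) := by positivity
  rw [hd1, hd2, hxi, hw']
  field_simp
  ring

/-- `exp (-t) ≤ 1/(1+t)` with `t ≥ a/(l+1)` -/
private theorem c2e_fin (l N a t : ℝ) (hl : 0 < l + 1) (hN : N = l + 1 + a)
    (ht : a / (l + 1) ≤ t) :
    N * Real.exp (-t) ≤ l + 1 := by
  have h1 : a / (l + 1) + 1 ≤ Real.exp t :=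
    (Real.add_one_le_exp (a / (l + 1))).trans (Real.exp_le_exp.2 ht)
  have h2 : N = (l + 1) * (a / (l + 1) + 1) := by
    rw [hN]
    field_simp
    ring
  rw [h2]
  calc (l + 1) * (a / (l + 1) + 1) * Real.exp (-t) ≤ (l + 1) * Real.exp t * Real.exp (-t) := by
        have := mul_le_mul_of_nonneg_left h1 hl.le
        exact mul_le_mul_of_nonneg_right this (Real.exp_pos _).le
    _ = l + 1 := by rw [mul_assoc, ← Real.exp_add, add_neg_cancel, Real.exp_zero, mul_one]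

/-- `c2e_bound`, `c2e_poly` (exponent `≥ a/(l+1)`), `exp (-t) ≤ 1/(1+t)`; `i + 1 ≤ l` from
`c2e_range`. -/
theorem SI2 (l N i : ℕ) (hl : 15 ≤ l) (hN1 : l + 3 ≤ N) (hN2 : N ≤ 3 * l + 3) (hi : 2 ≤ i)
    (hc : 2 * ((i - 1) * (N + i - l)) < l * (l - 1)) : RN l N i i ≤ (l : ℝ) + 1 := by
  obtain ⟨a, rfl⟩ : ∃ a, N = l + 1 + a := ⟨N - (l + 1), by omega⟩
  have ha : 2 ≤ a := by omega
  have ha2 : a ≤ 2 * l + 2 := by omega
  have e1 : l + 1 + a + i - l = a + 1 + i := by omega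
  rw [e1] at hc
  have hr := (c2e_range l a i hl ha hi hc).1
  have hb := c2e_bound l (l + 1 + a) i a hl rfl (by omega) (by omega)
  have hp := c2e_poly l a i hl ha ha2 hi hc
  have hlr : (15 : ℝ) ≤ l := by exact_mod_cast hl
  have ha0 : (0 : ℝ) ≤ a := Nat.cast_nonneg a
  have hi0 : (0 : ℝ) ≤ i := Nat.cast_nonneg i
  have hQ : (0 : ℝ) < (l : ℝ) ^ 2 - l := by nlinarith
  have hp1 : 0 < (l : ℝ) ^ 2 - l + i * (a + 2) := by positivity
  have hp2 : 0 < (l : ℝ) ^ 2 - l + i * (l + 1 + a) := by positivity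
  refine hb.trans (c2e_fin (l : ℝ) _ (a : ℝ) _ (by positivity) (by push_cast; ring) ?_)
  rw [div_le_div_iff₀ (by positivity) (by positivity)]
  linarith

/-- `c2e_bound` with `i = 1`; `y = N/(l+1)`, `c_log`: `y ≤ exp ((y²-1)/(2y))`,
`(y²-1)/(2y) = a(2l+2+a)/(2(l+1)(l+1+a)) ≤ t` by `c2d_SI1`. -/
theorem SI1 (l N : ℕ) (hl : 15 ≤ l) (hN1 : l + 3 ≤ N) (hN2 : N ≤ 3 * l + 3) :
    RN l N 1 1 ≤ (l : ℝ) + 1 := by
  obtain ⟨a, rfl⟩ : ∃ a, N = l + 1 + a := ⟨N - (l + 1), by omega⟩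
  have ha : 2 ≤ a := by omega
  have ha2 : a ≤ 2 * l + 2 := by omega
  have hb := c2e_bound l (l + 1 + a) 1 a hl rfl (by omega) (by omega)
  have hlr : (15 : ℝ) ≤ l := by exact_mod_cast hl
  have har : (2 : ℝ) ≤ a := by exact_mod_cast ha
  have ha2r : (a : ℝ) ≤ 2 * l + 2 := by exact_mod_cast ha2
  have hS := c2d_SI1 l a hlr har ha2r
  have hQ : (0 : ℝ) < (l : ℝ) ^ 2 - l := by nlinarith
  have hlog := c_log (((l : ℝ) + 1 + a) / (l + 1)) (by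
    rw [one_le_div (by positivity)]; linarith)
  refine hb.trans ?_
  generalize ht : ((1 : ℕ) : ℝ) * (a + 2) * (l - 1 - (1 : ℕ)) *
      ((l : ℝ) ^ 2 - l - (1 : ℕ) * (l - 3 - a)) /
      (((l : ℝ) ^ 2 - l + (1 : ℕ) * (l + 1 + a)) * ((l : ℝ) ^ 2 - l + (1 : ℕ) * (a + 2))) = t
  have ht2 : ((((l : ℝ) + 1 + a) / (l + 1)) ^ 2 - 1) / (2 * (((l : ℝ) + 1 + a) / (l + 1))) ≤ t := by
    have e2 : ((((l : ℝ) + 1 + a) / (l + 1)) ^ 2 - 1) / (2 * (((l : ℝ) + 1 + a) / (l + 1))) =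
        a * (2 * l + 2 + a) / (2 * (l + 1) * (l + 1 + a)) := by
      field_simp
      ring
    rw [e2, ← ht, div_le_div_iff₀ (by positivity) (by push_cast; positivity)]
    push_cast
    linarith
  have h3 : (((l + 1 + a : ℕ)) : ℝ) = ((l : ℝ) + 1) * (((l : ℝ) + 1 + a) / (l + 1)) := by
    push_cast
    field_simp
  rw [h3, mul_assoc]
  have h4 : ((l : ℝ) + 1 + a) / (l + 1) * Real.exp (-t) ≤ 1 := by
    have h5 : ((l : ℝ) + 1 + a) / (l + 1) ≤ Real.exp t := hlog.trans (Real.exp_le_exp.2 ht2)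
    calc ((l : ℝ) + 1 + a) / (l + 1) * Real.exp (-t) ≤ Real.exp t * Real.exp (-t) :=
          mul_le_mul_of_nonneg_right h5 (Real.exp_pos _).le
      _ = 1 := by rw [← Real.exp_add, add_neg_cancel, Real.exp_zero]
  calc ((l : ℝ) + 1) * (((l : ℝ) + 1 + a) / (l + 1) * Real.exp (-t)) ≤ ((l : ℝ) + 1) * 1 :=
        mul_le_mul_of_nonneg_left h4 (by positivity)
    _ = (l : ℝ) + 1 := mul_one _

/-- `c_SR`, `x = (a+2)/(l-1)`, `c_pair` with `n = l - 1`, `b = 0`: exponent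
`2(a+2)(l-1)/(l²-l+a+2)`; `y₁ = N/(l+1)`, `y₂ = (N+1)/l`, `c_log` twice, `c2d_SR1`. -/
theorem SR1 (l N : ℕ) (hl : 15 ≤ l) (hN1 : l + 3 ≤ N) (hN2 : N ≤ 3 * l + 3) :
    RN l N l 1 ≤ (l : ℝ) + 1 := by
  obtain ⟨a, rfl⟩ : ∃ a, N = l + 1 + a := ⟨N - (l + 1), by omega⟩
  have ha : 2 ≤ a := by omega
  have ha2 : a ≤ 2 * l + 2 := by omega
  have hlr : (15 : ℝ) ≤ l := by exact_mod_cast hl
  have har : (2 : ℝ) ≤ a := by exact_mod_cast ha
  have ha2r : (a : ℝ) ≤ 2 * l + 2 := by exact_mod_cast ha2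
  have hl1 : (0 : ℝ) < (l : ℝ) - 1 := by linarith
  have hS := c2d_SR1 l a hlr har ha2r
  have hQ : (0 : ℝ) < (l : ℝ) ^ 2 - l := by nlinarith
  obtain ⟨x, hx⟩ : ∃ x : ℝ, x = (((l + 1 + a : ℕ) : ℝ) + 1 - l) / ((l : ℝ) - 1) := ⟨_, rfl⟩
  have hSR := c_SR l (l + 1 + a) x (by omega) (by omega) hx
  have hx' : x = (a + 2) / ((l : ℝ) - 1) := by
    rw [hx]; push_cast; congr 1; ring
  have hx0 : 0 ≤ x := by rw [hx']; positivity
  have hpair := c_pair (l - 1) 0 x le_rfl hx0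
  have hcast : ((l - 1 : ℕ) : ℝ) = (l : ℝ) - 1 := by
    rw [Nat.cast_sub (by omega)]
    push_cast
    ring
  have e0 : ∏ p ∈ range (l - 1), (1 + x / ((p : ℝ) + 1 + 0)) =
      ∏ p ∈ range (l - 1), (1 + x / ((p : ℝ) + 1)) :=
    Finset.prod_congr rfl fun p _ => by rw [add_zero]
  rw [e0, hcast] at hpair
  generalize ∏ p ∈ range (l - 1), (1 + x / ((p : ℝ) + 1)) = A1 at *
  have hA1 : 0 < A1 := (Real.exp_pos _).trans_le hpair
  have hl1' := c_log (((l : ℝ) + 1 + a) / (l + 1)) (by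
    rw [one_le_div (by positivity)]; linarith)
  have hl2' := c_log (((l : ℝ) + 2 + a) / l) (by
    rw [one_le_div (by positivity)]; linarith)
  have e1 : ((((l : ℝ) + 1 + a) / (l + 1)) ^ 2 - 1) / (2 * (((l : ℝ) + 1 + a) / (l + 1))) =
      a * (2 * l + 2 + a) / (2 * (l + 1) * (l + 1 + a)) := by
    field_simp
    ring
  have e2 : ((((l : ℝ) + 2 + a) / l) ^ 2 - 1) / (2 * (((l : ℝ) + 2 + a) / l)) =
      (a + 2) * (2 * l + 2 + a) / (2 * l * (l + 2 + a)) := by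
    field_simp
    ring
  have e3 : 2 * ((l : ℝ) - 1) * x / ((l : ℝ) - 1 + 1 + 2 * 0 + x) =
      2 * (a + 2) * (l - 1) / ((l : ℝ) ^ 2 - l + a + 2) := by
    have h5 : (l : ℝ) - 1 + 1 + 2 * 0 + x = ((l : ℝ) ^ 2 - l + a + 2) / (l - 1) := by
      rw [hx']; field_simp; ring
    have h6 : 0 < (l : ℝ) ^ 2 - l + a + 2 := by positivity
    rw [h5, hx']
    field_simp
  rw [e1] at hl1'
  rw [e2] at hl2'
  rw [e3] at hpair
  have hsum : a * (2 * l + 2 + a) / (2 * (l + 1) * (l + 1 + a)) +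
      (a + 2) * (2 * l + 2 + a) / (2 * l * (l + 2 + a)) ≤
      2 * (a + 2) * (l - 1) / ((l : ℝ) ^ 2 - l + a + 2) := by
    have h6 : 0 < (l : ℝ) ^ 2 - l + a + 2 := by positivity
    have h7 : (a : ℝ) * (2 * l + 2 + a) / (2 * (l + 1) * (l + 1 + a)) +
        (a + 2) * (2 * l + 2 + a) / (2 * l * (l + 2 + a)) =
        (2 * l + 2 + a) * (a * l * (l + 2 + a) + (a + 2) * (l + 1) * (l + 1 + a)) /
          (2 * (l + 1) * (l + 1 + a) * l * (l + 2 + a)) := by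
      field_simp
    rw [h7, div_le_div_iff₀ (by positivity) h6]
    linarith
  have hprod : ((l : ℝ) + 1 + a) / (l + 1) * (((l : ℝ) + 2 + a) / l) ≤ A1 := by
    calc ((l : ℝ) + 1 + a) / (l + 1) * (((l : ℝ) + 2 + a) / l) ≤
          Real.exp (a * (2 * l + 2 + a) / (2 * (l + 1) * (l + 1 + a))) *
          Real.exp ((a + 2) * (2 * l + 2 + a) / (2 * l * (l + 2 + a))) :=
          mul_le_mul hl1' hl2' (by positivity) (Real.exp_pos _).le
      _ = Real.exp (a * (2 * l + 2 + a) / (2 * (l + 1) * (l + 1 + a)) +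
          (a + 2) * (2 * l + 2 + a) / (2 * l * (l + 2 + a))) := by rw [Real.exp_add]
      _ ≤ Real.exp (2 * (a + 2) * (l - 1) / ((l : ℝ) ^ 2 - l + a + 2)) := Real.exp_le_exp.2 hsum
      _ ≤ A1 := hpair
  have h8 : RN l (l + 1 + a) l 1 * A1 ≤ ((l : ℝ) + 1) * A1 := by
    rw [hSR]
    have h9 : (((l + 1 + a : ℕ) : ℝ)) * (((l + 1 + a : ℕ) : ℝ) + 1) / l =
        ((l : ℝ) + 1) * (((l : ℝ) + 1 + a) / (l + 1) * (((l : ℝ) + 2 + a) / l)) := by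
      push_cast
      field_simp
      ring
    rw [h9]
    exact mul_le_mul_of_nonneg_left hprod (by positivity)
  exact le_of_mul_le_mul_right h8 hA1

end Pool.Agent.LRQ
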