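import Mathlib
import Pool.Agent.LRQ.Num

set_option autoImplicit false

/-! # [LRQ-FIN0] natural-number codes for the finite checks -/

namespace Pool.Agent.LRQ

open Finset
open Pool.Agent.LRE Pool.Agent.LRT

/-- product of `f 0, …, f (n-1)` (kernel friendly) -/
def nprod (f : ℕ → ℕ) : ℕ → ℕ
  | 0 => 1
  | n + 1 => nprod f n * f n

theorem nprod_cast (f : ℕ → ℕ) (n : ℕ) : ((nprod f n : ℕ) : ℝ) = ∏ i ∈ range n, (f i : ℝ) := by
  induction n with
  | zero => simp [nprod]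
  | succ n ih => rw [nprod, prod_range_succ, Nat.cast_mul, ih]

theorem fin0_nprod_pos (f : ℕ → ℕ) (n : ℕ) (h : ∀ i < n, 0 < f i) : 0 < nprod f n := by
  induction n with
  | zero => simp [nprod]
  | succ n ih =>
    rw [nprod]
    exact Nat.mul_pos (ih (fun i hi => h i (by omega))) (h n (by omega))

def hqN (w q d : ℕ) : ℕ := nprod (fun i => w - i + q) (d / q) * (w - d / q + d % q)
def hqD (w q d : ℕ) : ℕ := nprod (fun i => w - i) (d / q) * (w - d / q)
def GGN (w j : ℕ) : ℕ := nprod (fun i => w + i + 1) j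
def GGD (r j : ℕ) : ℕ := nprod (fun i => r - i) j
def RBN (a q w d : ℕ) : ℕ :=
  (d + q - a * q) * nprod (fun i => w + q - i) a * nprod (fun i => (i + 1) * (w + q + (i + 1))) a
def RBD (a q w d : ℕ) : ℕ :=
  q * nprod (fun i => w - i) a * nprod (fun i => (q + (i + 1)) * (w - q + (i + 1))) a

/-- greatest `j` with `j (g + j) ≤ d`, searched below the bound `n` -/
def JJ (g d : ℕ) : ℕ → ℕ
  | 0 => 0
  | n + 1 => if (n + 1) * (g + (n + 1)) ≤ d then n + 1 else JJ g d n

theorem JJ_le (g d n : ℕ) : JJ g d n * (g + JJ g d n) ≤ d := by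
  induction n with
  | zero => simp [JJ]
  | succ n ih =>
    rw [JJ]
    split_ifs with h
    · exact h
    · exact ih

theorem hqD_pos (w q d : ℕ) (h : d / q < w) : 0 < hqD w q d := by
  unfold hqD
  exact Nat.mul_pos (fin0_nprod_pos _ _ (fun i hi => by omega)) (by omega)

theorem hq_eq (w q d : ℕ) (h : d / q < w) :
    hq w q d = (hqN w q d : ℝ) / (hqD w q d : ℝ) := by
  have e1 : ∀ i ∈ range (d / q), (1 + (q : ℝ) / ((w : ℝ) - i)) =
      ((w - i + q : ℕ) : ℝ) / ((w - i : ℕ) : ℝ) := by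
    intro i hi
    have hi' : i < w := lt_trans (mem_range.mp hi) h
    have h1 : ((w - i : ℕ) : ℝ) = (w : ℝ) - i := by
      rw [Nat.cast_sub hi'.le]
    have h2 : (0 : ℝ) < (w : ℝ) - i := by
      have : (i : ℝ) < w := by exact_mod_cast hi'
      linarith
    rw [Nat.cast_add, h1]
    field_simp
  have h1 : ((w - d / q : ℕ) : ℝ) = (w : ℝ) - (d / q : ℕ) := by
    rw [Nat.cast_sub h.le]
  have h2 : (0 : ℝ) < (w : ℝ) - (d / q : ℕ) := by
    have : ((d / q : ℕ) : ℝ) < w := by exact_mod_cast h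
    linarith
  have e2 : (1 + ((d % q : ℕ) : ℝ) / ((w : ℝ) - (d / q : ℕ))) =
      ((w - d / q + d % q : ℕ) : ℝ) / ((w - d / q : ℕ) : ℝ) := by
    rw [Nat.cast_add, h1, add_div, div_self h2.ne']
  unfold hq hqN hqD
  rw [prod_congr rfl e1, e2, Nat.cast_mul, Nat.cast_mul, nprod_cast, nprod_cast,
    Finset.prod_div_distrib, div_mul_div_comm]

theorem GGD_pos (r j : ℕ) (h : j ≤ r) : 0 < GGD r j := by
  unfold GGD
  exact fin0_nprod_pos _ _ (fun i hi => by omega)

theorem GG_eq (w r j : ℕ) (h : j ≤ r) : GG w r j = (GGN w j : ℝ) / (GGD r j : ℝ) := by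
  unfold GG GGN GGD
  rw [nprod_cast, nprod_cast, ← Finset.prod_div_distrib]
  refine prod_congr rfl (fun i hi => ?_)
  have hi' : i ≤ r := by
    have := mem_range.mp hi
    omega
  rw [Nat.cast_sub hi']
  push_cast
  rfl

theorem RBD_pos (a q w d : ℕ) (hq1 : 1 ≤ q) (ha : a ≤ w) : 0 < RBD a q w d := by
  unfold RBD
  refine Nat.mul_pos (Nat.mul_pos hq1 (fin0_nprod_pos _ _ (fun i hi => by omega)))
    (fin0_nprod_pos _ _ (fun i hi => Nat.mul_pos (by omega) (by omega)))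

theorem RB_eq (a q w d : ℕ) (hq1 : 1 ≤ q) (ha : a ≤ w) (hqw : q ≤ w) (hd : a * q ≤ d + q) :
    RB a q w d = (RBN a q w d : ℝ) / (RBD a q w d : ℝ) := by
  have hq0 : (0 : ℝ) < q := by exact_mod_cast hq1
  have e0 : ((d : ℝ) / q - a + 1) = ((d + q - a * q : ℕ) : ℝ) / (q : ℝ) := by
    rw [Nat.cast_sub hd]
    push_cast
    field_simp
    ring
  have e1 : ∀ i ∈ range a, ((w : ℝ) + q - i) / ((w : ℝ) - i) =
      ((w + q - i : ℕ) : ℝ) / ((w - i : ℕ) : ℝ) := by
    intro i hi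
    have hi' : i < a := mem_range.mp hi
    rw [Nat.cast_sub (show i ≤ w + q by omega), Nat.cast_sub (show i ≤ w by omega)]
    push_cast
    rfl
  have e2 : ∀ i ∈ range a, ((i : ℝ) + 1) * ((w : ℝ) + q + (i + 1)) /
      (((q : ℝ) + (i + 1)) * ((w : ℝ) - q + (i + 1))) =
      (((i + 1) * (w + q + (i + 1)) : ℕ) : ℝ) / (((q + (i + 1)) * (w - q + (i + 1)) : ℕ) : ℝ) := by
    intro i hi
    rw [Nat.cast_mul, Nat.cast_mul, Nat.cast_add (w - q), Nat.cast_sub hqw]
    push_cast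
    rfl
  unfold RB RBN RBD
  rw [e0, prod_congr rfl e1, prod_congr rfl e2, Finset.prod_div_distrib, Finset.prod_div_distrib,
    Nat.cast_mul, Nat.cast_mul, Nat.cast_mul, Nat.cast_mul, nprod_cast, nprod_cast, nprod_cast,
    nprod_cast, div_mul_div_comm, div_mul_div_comm]

end Pool.Agent.LRQ
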