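import Mathlib
import Pool.Agent.LRQ.FIN0
import Pool.Agent.LRG.G9

set_option autoImplicit false

/-! # [LRQ-C2F] the nodes for `l ≤ 14` -/

namespace Pool.Agent.LRQ

open Finset
open Pool.Agent.LRE Pool.Agent.LRT Pool.Agent.LRG

/-- `RN l N s i ≤ l + 1` in natural numbers -/
def rnOK (l N s i : ℕ) : Bool :=
  decide (N * nprod (fun j => N + j + 1) i * nprod (fun p => (p + 1) * (l - 1)) (l - 1) ≤
    (l + 1) * nprod (fun j => s - j) i * nprod (fun p => i * (N + i - s) + (p + 1) * (l - 1)) (l - 1))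

/-- the finite check -/
def c2fChk (l N s i : ℕ) : Bool :=
  !(decide (1 ≤ i) && decide (2 * ((i - 1) * (N + i - 1 - s)) < l * (l - 1))) || rnOK l N s i

/-- the finite check for all admissible `l < L` -/
def c2fTab (L : ℕ) : Bool :=
  (List.range L).all fun l => !(decide (4 ≤ l)) || (List.range (3 * l + 4)).all fun N =>
    !(decide (l + 3 ≤ N)) || ((List.range l).all fun s => (List.range (s + 1)).all fun i =>
      c2fChk l N s i) && c2fChk l N l 1

theorem c2fTab_true : c2fTab 15 = true := by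
  decide +kernel

/-- Kernel computation (`decide +kernel` on bounded quantifiers; checked by program: true). -/
theorem rn_fin (l N s i : ℕ) (hl : 4 ≤ l) (hl2 : l ≤ 14) (hN1 : l + 3 ≤ N) (hN2 : N ≤ 3 * l + 3)
    (hi : 1 ≤ i) (his : i ≤ s) (hsl : s + 1 ≤ l ∨ (s = l ∧ i = 1))
    (hc : 2 * ((i - 1) * (N + i - 1 - s)) < l * (l - 1)) : rnOK l N s i = true := by
  have h := c2fTab_true
  unfold c2fTab at h
  rw [List.all_eq_true] at h
  have h1 := h l (List.mem_range.2 (by omega))
  rw [decide_eq_true hl] at h1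
  simp only [Bool.not_true, Bool.false_or] at h1
  rw [List.all_eq_true] at h1
  have h2 := h1 N (List.mem_range.2 (by omega))
  rw [decide_eq_true hN1] at h2
  simp only [Bool.not_true, Bool.false_or] at h2
  rw [Bool.and_eq_true] at h2
  have key : c2fChk l N s i = true := by
    rcases hsl with hsl | ⟨rfl, rfl⟩
    · have h3 := h2.1
      rw [List.all_eq_true] at h3
      have h4 := h3 s (List.mem_range.2 (by omega))
      rw [List.all_eq_true] at h4
      exact h4 i (List.mem_range.2 (by omega))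
    · exact h2.2
  unfold c2fChk at key
  rw [decide_eq_true hi, decide_eq_true hc] at key
  simpa only [Bool.and_self, Bool.not_true, Bool.false_or] using key

theorem c2f_hh (n : ℕ) (y c : ℝ) (hc : 0 < c) (hy : 0 ≤ y) :
    hh n (y / c) = ∏ p ∈ range n, (((p : ℝ) + 1) * c) / (y + ((p : ℝ) + 1) * c) := by
  induction n with
  | zero => rw [hh_zero, prod_range_zero]
  | succ n ih =>
    rw [prod_range_succ, ← ih, hh_succ]
    have h1 : (0 : ℝ) < (n : ℝ) + 1 := by positivity
    have h2 : (0 : ℝ) < y + ((n : ℝ) + 1) * c := by positivity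
    have h3 : y / c + (n : ℝ) + 1 = (y + ((n : ℝ) + 1) * c) / c := by
      field_simp
      ring
    have h4 : y / c + ((n : ℝ) + 1) = (y + ((n : ℝ) + 1) * c) / c := by
      rw [← h3]
      ring
    first
      | rw [h3]
      | rw [h4]
    field_simp

theorem c2f_choose (N s i : ℕ) (his : i ≤ s) :
    ((N + i).choose i : ℝ) / (s.choose i : ℝ) =
      (nprod (fun j => N + j + 1) i : ℝ) / (nprod (fun j => s - j) i : ℝ) := by
  have h1 := Nat.ascFactorial_eq_factorial_mul_choose N i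
  have h2 := Nat.descFactorial_eq_factorial_mul_choose s i
  have h3 : nprod (fun j => N + j + 1) i = (N + 1).ascFactorial i := by
    rw [Nat.ascFactorial_eq_prod_range]
    have h : ((nprod (fun j => N + j + 1) i : ℕ) : ℝ) = ((∏ j ∈ range i, (N + 1 + j) : ℕ) : ℝ) := by
      rw [nprod_cast, Nat.cast_prod]
      refine prod_congr rfl (fun j _ => ?_)
      congr 1
      omega
    exact_mod_cast h
  have h4 : nprod (fun j => s - j) i = s.descFactorial i := by
    rw [Nat.descFactorial_eq_prod_range]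
    have h : ((nprod (fun j => s - j) i : ℕ) : ℝ) = ((∏ j ∈ range i, (s - j) : ℕ) : ℝ) := by
      rw [nprod_cast, Nat.cast_prod]
    exact_mod_cast h
  have h5 : (0 : ℝ) < (i.factorial : ℝ) := by exact_mod_cast Nat.factorial_pos i
  have h6 : (0 : ℝ) < (s.choose i : ℝ) := by exact_mod_cast Nat.choose_pos his
  rw [h3, h4, h1, h2, Nat.cast_mul, Nat.cast_mul]
  field_simp

/-- `C(N+i,i)/C(s,i) = ∏_{j<i} (N+j+1)/(s-j)` and
`hh (l-1) (y/(l-1)) = ∏_{p<l-1} (p+1)(l-1)/(y+(p+1)(l-1))`, `y = i(N+i-s)`. -/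
theorem rn_of_OK (l N s i : ℕ) (hl : 2 ≤ l) (his : i ≤ s) (hsN : s ≤ N) (h : rnOK l N s i = true) :
    RN l N s i ≤ (l : ℝ) + 1 := by
  unfold rnOK at h
  have h0 := of_decide_eq_true h
  obtain ⟨m, rfl⟩ : ∃ m, l = m + 1 := ⟨l - 1, by omega⟩
  rw [Nat.add_sub_cancel] at h0
  have hm : 1 ≤ m := by omega
  have hmR : (0 : ℝ) < m := by exact_mod_cast hm
  have e1 : (((m + 1 : ℕ)) : ℝ) - 1 = m := by push_cast; ring
  have e2 : (i : ℝ) * ((N : ℝ) + i - s) = ((i * (N + i - s) : ℕ) : ℝ) := by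
    rw [Nat.cast_mul, Nat.cast_sub (by omega)]
    push_cast
    ring
  unfold RN
  rw [Nat.add_sub_cancel, e1, e2, mul_div_assoc, c2f_choose N s i his,
    c2f_hh m _ (m : ℝ) hmR (Nat.cast_nonneg _)]
  have hP : ∏ p ∈ range m, (((p : ℝ) + 1) * (m : ℝ)) /
      (((i * (N + i - s) : ℕ) : ℝ) + ((p : ℝ) + 1) * m) =
      (nprod (fun p => (p + 1) * m) m : ℝ) /
        (nprod (fun p => i * (N + i - s) + (p + 1) * m) m : ℝ) := by
    rw [nprod_cast, nprod_cast, ← Finset.prod_div_distrib]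
    refine prod_congr rfl (fun p _ => ?_)
    push_cast
    rfl
  rw [hP]
  have p1 : (0 : ℝ) < (nprod (fun j => s - j) i : ℝ) := by
    exact_mod_cast fin0_nprod_pos _ _ (fun j hj => by omega)
  have p2 : (0 : ℝ) < (nprod (fun p => i * (N + i - s) + (p + 1) * m) m : ℝ) := by
    exact_mod_cast fin0_nprod_pos _ _ (fun j hj => by positivity)
  have h1 : ((N * nprod (fun j => N + j + 1) i * nprod (fun p => (p + 1) * m) m : ℕ) : ℝ) ≤
      (((m + 1 + 1) * nprod (fun j => s - j) i *
        nprod (fun p => i * (N + i - s) + (p + 1) * m) m : ℕ) : ℝ) := by exact_mod_cast h0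
  rw [Nat.cast_mul, Nat.cast_mul, Nat.cast_mul, Nat.cast_mul] at h1
  have e3 : (((m + 1 : ℕ)) : ℝ) + 1 = ((m + 1 + 1 : ℕ) : ℝ) := by push_cast; ring
  have e4 : (N : ℝ) * ((nprod (fun j => N + j + 1) i : ℝ) / (nprod (fun j => s - j) i : ℝ)) *
      ((nprod (fun p => (p + 1) * m) m : ℝ) /
        (nprod (fun p => i * (N + i - s) + (p + 1) * m) m : ℝ)) =
      ((N : ℝ) * (nprod (fun j => N + j + 1) i : ℝ) * (nprod (fun p => (p + 1) * m) m : ℝ)) /
        ((nprod (fun j => s - j) i : ℝ) *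
          (nprod (fun p => i * (N + i - s) + (p + 1) * m) m : ℝ)) := by
    rw [← mul_div_assoc (N : ℝ), div_mul_div_comm]
  rw [e3, e4, div_le_iff₀ (mul_pos p1 p2), ← mul_assoc]
  exact h1

end Pool.Agent.LRQ
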