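import Mathlib
import Pool.Agent.LRQ.C2C
import Pool.Agent.LRQ.C2E
import Pool.Agent.LRQ.C2F
import Pool.Agent.LRG.G10
import Pool.Agent.LRT.Z2

set_option autoImplicit false

/-! # [LRQ-C2G] all nodes, and the numbers of case (C2) for `l + 3 ≤ N ≤ 3l + 3` -/

namespace Pool.Agent.LRQ

open Finset
open Pool.Agent.MP_f1b527_co
open Pool.Agent.LRE Pool.Agent.LRT Pool.Agent.LRG

/-- `l ≤ 14`: `rn_fin`, `rn_of_OK`. `l ≥ 15`: as `s ≤ l - 1` gives `N + i - l ≤ N + i - 1 - s`, the
condition `2(i-1)(N+i-l) < l(l-1)` holds. `s = l`, `i = 1`: `SR1`. `i = 1`, `s ≤ l - 1`: `conv_max`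
for `s ↦ RN l N s 1` on `[1, l]` (`RN_pos`, `RN_conv`, as in `RN_node`, LRG/G9.lean): `SI1`, `SR1`.
`i ≥ 2`: `conv_max` on `[i, l-1]`: `SI2`, `SL2`. -/
theorem RN_fat (l N s i : ℕ) (hl : 4 ≤ l) (hN1 : l + 3 ≤ N) (hN2 : N ≤ 3 * l + 3)
    (hi : 1 ≤ i) (his : i ≤ s) (hsl : s + 1 ≤ l ∨ (s = l ∧ i = 1))
    (hc : 2 * ((i - 1) * (N + i - 1 - s)) < l * (l - 1)) : RN l N s i ≤ (l : ℝ) + 1 := by
  rcases Nat.lt_or_ge l 15 with h15 | h15
  · exact rn_of_OK l N s i (by omega) his (by omega)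
      (rn_fin l N s i hl (by omega) hN1 hN2 hi his hsl hc)
  · rcases hsl with hsl | ⟨rfl, rfl⟩
    · rcases Nat.lt_or_ge i 2 with h2 | h2
      · obtain rfl : i = 1 := by omega
        have h := conv_max (fun s => RN l N s 1) 1 l
          (fun c hc1 hc2 => RN_pos l N c 1 (by omega) (by omega) hc1 (by omega))
          (fun c hc1 hc2 => RN_conv l N c 1 (by omega) hc1 (by omega)) s his (by omega)
        exact h.trans (max_le (SI1 l N h15 hN1 hN2) (SR1 l N h15 hN1 hN2))
      · have hc' : 2 * ((i - 1) * (N + i - l)) < l * (l - 1) :=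
          lt_of_le_of_lt (Nat.mul_le_mul_left 2 (Nat.mul_le_mul_left (i - 1) (by omega))) hc
        have h := conv_max (fun s => RN l N s i) i (l - 1)
          (fun c hc1 hc2 => RN_pos l N c i (by omega) (by omega) hc1 (by omega))
          (fun c hc1 hc2 => RN_conv l N c i (by omega) hc1 (by omega)) s his (by omega)
        exact h.trans (max_le (SI2 l N i h15 hN1 hN2 h2 hc') (SL2 l N i h15 hN1 hN2 h2 hc'))
    · exact SR1 s N h15 hN1 hN2

/-- the value at the right end of the first interval -/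
theorem c2g_one (l N : ℕ) (hl : 4 ≤ l) (hN1 : l + 3 ≤ N) (hN2 : N ≤ 3 * l + 3) :
    (N : ℝ) * (((N : ℝ) + 1) / l * hh (l - 1) (((N + 1 - l : ℕ) : ℝ) / ((l : ℝ) - 1))) ≤
      (l : ℝ) + 1 := by
  have hpos : 0 < l * (l - 1) := Nat.mul_pos (by omega) (by omega)
  have h := RN_fat l N l 1 hl hN1 hN2 le_rfl (by omega) (Or.inr ⟨rfl, rfl⟩)
    (by rw [Nat.sub_self, Nat.zero_mul, Nat.mul_zero]; exact hpos)
  refine le_trans (le_of_eq ?_) h
  unfold RN
  rw [Nat.choose_one_right, Nat.choose_one_right, Nat.cast_sub (by omega)]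
  push_cast
  rw [one_mul]
  ring

/-- Copy of `num_C2` (LRG/G10.lean) with `RN_fat` in place of `RN_node`. Here `l ≥ 4` (for `l ≤ 3`,
`N < κ + l` and `2κ ≤ l(l-1)` contradict `l + 3 ≤ N`). The nodes that occur:
* `κ > s N`, `s ≥ 1`: `(s, s)`, and `2((s-1)(N-1)) ≤ 2 s N < 2κ ≤ l(l-1)`;
* `s = 0`: `(l, 1)` (copy of `g10_one` with `RN_fat`);
* `κ ≤ s N`: `i` minimal with `κ ≤ i (N+i-s)`: `(s, i)`; for `i ≥ 2`, minimality gives
  `(i-1)(N+i-1-s) < κ`, so `2((i-1)(N+i-1-s)) < l(l-1)`, and the node `(s, i-1)` has a smaller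
  value in the condition; for `i = 1` the node `(l, 1)`. -/
theorem num_C2F (l N s κ : ℕ) (hsl : s + 1 ≤ l) (hN1 : l + 3 ≤ N) (hN2 : N ≤ 3 * l + 3)
    (h1 : N < κ + l) (h2 : 2 * κ ≤ l * (l - 1)) :
    ∃ V : ℝ, UB (N + s) (s * N - κ) V ∧
      V * ((N : ℝ) * hh (l - 1) ((κ : ℝ) / ((l : ℝ) - 1))) ≤
        (N.factorial : ℝ) * (s.factorial : ℝ) * ((l : ℝ) + 1) := by
  have h7 : 4 ≤ l := by
    by_contra hcon
    have hl6 : l ≤ 3 := by omega
    interval_cases l <;> omega
  obtain ⟨l', rfl⟩ : ∃ l', l = l' + 1 := ⟨l - 1, by omega⟩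
  rw [Nat.add_sub_cancel] at h2
  have hlR : (4 : ℝ) ≤ ((l' + 1 : ℕ) : ℝ) := by exact_mod_cast h7
  have hl1 : (0 : ℝ) < ((l' + 1 : ℕ) : ℝ) - 1 := by linarith
  have hN0 : (0 : ℝ) < N := by
    have : 0 < N := by omega
    exact_mod_cast this
  by_cases hA : s = 0 ∨ s * N < κ
  · refine ⟨((N + s).factorial : ℝ), ?_, ?_⟩
    · have h3 := UB_one (N + s) 0
      have h4 : s * N - κ = 0 := by
        rcases hA with rfl | hA
        · simp
        · omega
      rw [h4]
      simpa using h3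
    · rcases Nat.eq_zero_or_pos s with rfl | hs
      · have h5 := c2g_one (l' + 1) N h7 hN1 hN2
        have h6 : hh (l' + 1 - 1) ((κ : ℝ) / (((l' + 1 : ℕ) : ℝ) - 1)) ≤
            hh (l' + 1 - 1) (((N + 1 - (l' + 1) : ℕ) : ℝ) / (((l' + 1 : ℕ) : ℝ) - 1)) := by
          apply hh_anti _ (by positivity)
          apply div_le_div_of_nonneg_right _ hl1.le
          have : N + 1 - (l' + 1) ≤ κ := by omega
          exact_mod_cast this
        have h8 : hh (l' + 1 - 1) ((κ : ℝ) / (((l' + 1 : ℕ) : ℝ) - 1)) ≤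
            ((N : ℝ) + 1) / ((l' + 1 : ℕ) : ℝ) *
            hh (l' + 1 - 1) (((N + 1 - (l' + 1) : ℕ) : ℝ) / (((l' + 1 : ℕ) : ℝ) - 1)) := by
          have h9 : 1 ≤ ((N : ℝ) + 1) / ((l' + 1 : ℕ) : ℝ) := by
            rw [one_le_div (by linarith)]
            have : l' + 1 ≤ N + 1 := by omega
            exact_mod_cast this
          have h10 : 0 < hh (l' + 1 - 1)
              (((N + 1 - (l' + 1) : ℕ) : ℝ) / (((l' + 1 : ℕ) : ℝ) - 1)) :=
            hh_pos _ (by positivity)
          nlinarith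
        rw [add_zero, Nat.factorial_zero, Nat.cast_one, mul_one]
        apply mul_le_mul_of_nonneg_left _ (by positivity)
        exact (mul_le_mul_of_nonneg_left h8 hN0.le).trans h5
      · have hA' : s * N < κ := by
          rcases hA with hA | hA
          · omega
          · exact hA
        have hcs : 2 * ((s - 1) * (N + s - 1 - s)) < (l' + 1) * (l' + 1 - 1) := by
          have hcs1 : (s - 1) * (N + s - 1 - s) ≤ s * N :=
            Nat.mul_le_mul (by omega) (by omega)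
          rw [Nat.add_sub_cancel]
          omega
        have h5 := RN_fat (l' + 1) N s s h7 hN1 hN2 hs le_rfl (Or.inl hsl) hcs
        have h6 : (N : ℝ) * ((N + s).choose s : ℝ) *
            hh (l' + 1 - 1) ((κ : ℝ) / (((l' + 1 : ℕ) : ℝ) - 1)) ≤ RN (l' + 1) N s s := by
          unfold RN
          rw [Nat.choose_self, Nat.cast_one, div_one]
          apply mul_le_mul_of_nonneg_left _ (by positivity)
          have e : (s : ℝ) * ((N : ℝ) + s - s) = ((s * N : ℕ) : ℝ) := by push_cast; ring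
          rw [e]
          apply hh_anti _ (by positivity)
          apply div_le_div_of_nonneg_right _ hl1.le
          exact_mod_cast hA'.le
        have h9 := g10_fact N s s le_rfl
        rw [Nat.sub_self, Nat.factorial_zero, Nat.cast_one, one_mul, Nat.choose_self,
          Nat.cast_one, div_one] at h9
        rw [h9]
        calc (N.factorial : ℝ) * (s.factorial : ℝ) * ((N + s).choose s : ℝ) *
            ((N : ℝ) * hh (l' + 1 - 1) ((κ : ℝ) / (((l' + 1 : ℕ) : ℝ) - 1)))
            = (N.factorial : ℝ) * (s.factorial : ℝ) * ((N : ℝ) * ((N + s).choose s : ℝ) *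
            hh (l' + 1 - 1) ((κ : ℝ) / (((l' + 1 : ℕ) : ℝ) - 1))) := by ring
          _ ≤ _ := mul_le_mul_of_nonneg_left (h6.trans h5) (by positivity)
  · push Not at hA
    obtain ⟨hs0, hκ⟩ := hA
    have hs : 1 ≤ s := by omega
    classical
    have hex : ∃ i, 1 ≤ i ∧ κ ≤ i * (N + i - s) :=
      ⟨s, hs, by rw [Nat.add_sub_cancel]; exact hκ⟩
    obtain ⟨i, ⟨hi, hκi⟩, hmin⟩ : ∃ i, (1 ≤ i ∧ κ ≤ i * (N + i - s)) ∧
        ∀ j, j < i → ¬ (1 ≤ j ∧ κ ≤ j * (N + j - s)) :=
      ⟨Nat.find hex, Nat.find_spec hex, fun j hj => Nat.find_min hex hj⟩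
    have his : i ≤ s := by
      by_contra hcon
      exact hmin s (by omega) ⟨hs, by rw [Nat.add_sub_cancel]; exact hκ⟩
    refine ⟨_, UB_drop s N κ i hi his (by omega) hκi, ?_⟩
    have hisR : (i : ℝ) ≤ s := by exact_mod_cast his
    have hnode : RN (l' + 1) N s i ≤ ((l' + 1 : ℕ) : ℝ) + 1 := by
      refine RN_fat (l' + 1) N s i h7 hN1 hN2 hi his (Or.inl hsl) ?_
      rw [Nat.add_sub_cancel]
      rcases (show i = 1 ∨ 2 ≤ i by omega) with rfl | hi2
      · rw [Nat.sub_self, Nat.zero_mul, Nat.mul_zero]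
        exact Nat.mul_pos (by omega) (by omega)
      · obtain ⟨j, rfl⟩ := Nat.exists_eq_add_of_le' hi2
        have h3 := hmin (j + 1) (by omega)
        have h4 : (j + 1) * (N + (j + 1) - s) < κ := by
          by_contra hcon
          exact h3 ⟨by omega, by omega⟩
        have e1 : j + 2 - 1 = j + 1 := by omega
        have e2 : N + (j + 2) - 1 - s = N + (j + 1) - s := by omega
        rw [e1, e2]
        omega
    set E := hh (l' + 1 - 1) ((κ : ℝ) / (((l' + 1 : ℕ) : ℝ) - 1)) with hE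
    have hsub : s ≤ N + i := by omega
    have hbR : ((i * (N + i - s) : ℕ) : ℝ) = (i : ℝ) * ((N : ℝ) + i - s) := by
      rw [Nat.cast_mul, Nat.cast_sub hsub]
      push_cast
      ring
    set A : ℝ := (i : ℝ) * ((N : ℝ) + i - s) + ((s : ℝ) - i + 1) with hAdef
    have hbA : ((i * (N + i - s) : ℕ) : ℝ) < A := by
      rw [hbR, hAdef]
      linarith
    -- a suitable left end
    obtain ⟨a, haκ, hval⟩ : ∃ a : ℕ, a ≤ κ ∧
        (N : ℝ) * ((((N + i).choose i : ℝ) / (s.choose i : ℝ)) * ((s : ℝ) - i + 1) *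
          (hh (l' + 1 - 1) ((a : ℝ) / (((l' + 1 : ℕ) : ℝ) - 1)) / (A - a))) ≤
          ((l' + 1 : ℕ) : ℝ) + 1 := by
      rcases (show i = 1 ∨ 2 ≤ i by omega) with h1i | hi2
      · refine ⟨N + 1 - (l' + 1), by omega, ?_⟩
        subst h1i
        refine le_trans (le_of_eq ?_) (c2g_one (l' + 1) N h7 hN1 hN2)
        have e1 : A - ((N + 1 - (l' + 1) : ℕ) : ℝ) = ((l' + 1 : ℕ) : ℝ) := by
          rw [hAdef, Nat.cast_sub (by omega)]
          push_cast
          ring
        rw [e1, Nat.choose_one_right, Nat.choose_one_right]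
        have hs1 : (s : ℝ) ≠ 0 := by positivity
        have e2 : ((N + 1 : ℕ) : ℝ) / (s : ℝ) * ((s : ℝ) - (1 : ℕ) + 1) = (N : ℝ) + 1 := by
          push_cast
          field_simp
          ring
        rw [e2]
        ring
      · obtain ⟨j, rfl⟩ := Nat.exists_eq_add_of_le' hi2
        have h3 := hmin (j + 1) (by omega)
        have h4 : (j + 1) * (N + (j + 1) - s) < κ := by
          by_contra hcon
          exact h3 ⟨by omega, by omega⟩
        refine ⟨(j + 1) * (N + (j + 1) - s), h4.le, ?_⟩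
        have hcj : 2 * ((j + 1 - 1) * (N + (j + 1) - 1 - s)) < (l' + 1) * (l' + 1 - 1) := by
          have hcj1 : (j + 1 - 1) * (N + (j + 1) - 1 - s) ≤ (j + 1) * (N + (j + 1) - s) :=
            Nat.mul_le_mul (by omega) (by omega)
          rw [Nat.add_sub_cancel (m := 1) (n := l')]
          omega
        have h9 := RN_fat (l' + 1) N s (j + 1) h7 hN1 hN2 (by omega) (by omega) (Or.inl hsl) hcj
        refine le_trans (le_of_eq ?_) h9
        have haR : (((j + 1) * (N + (j + 1) - s) : ℕ) : ℝ) =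
            ((j : ℝ) + 1) * ((N : ℝ) + ((j : ℝ) + 1) - s) := by
          rw [Nat.cast_mul, Nat.cast_sub (by omega)]
          push_cast
          ring
        have e1 : A - (((j + 1) * (N + (j + 1) - s) : ℕ) : ℝ) = (N : ℝ) + ((j : ℝ) + 1 + 1) := by
          rw [haR, hAdef]
          push_cast
          ring
        rw [e1, haR]
        have h10 := g10_choose N s (j + 1) (by omega)
        push_cast at h10
        have e3 : (s : ℝ) - ((j + 2 : ℕ) : ℝ) + 1 = (s : ℝ) - ((j : ℝ) + 1) := by push_cast; ring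
        rw [e3, show j + 2 = j + 1 + 1 by ring, h10]
        unfold RN
        push_cast
        have hne : (N : ℝ) + ((j : ℝ) + 1 + 1) ≠ 0 := by positivity
        generalize hh (l' + 1 - 1)
          (((j : ℝ) + 1) * ((N : ℝ) + ((j : ℝ) + 1) - s) / ((l' : ℝ) + 1 - 1)) = W
        field_simp
    have hconv := conv_kappa (l' + 1) A a (i * (N + i - s)) κ (by omega) haκ hκi hbA
    have hc0 : 0 ≤ (N : ℝ) * ((((N + i).choose i : ℝ) / (s.choose i : ℝ)) * ((s : ℝ) - i + 1)) := by
      have : 0 ≤ (s : ℝ) - i + 1 := by linarith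
      positivity
    have hbval : (N : ℝ) * ((((N + i).choose i : ℝ) / (s.choose i : ℝ)) * ((s : ℝ) - i + 1) *
          (hh (l' + 1 - 1) (((i * (N + i - s) : ℕ) : ℝ) / (((l' + 1 : ℕ) : ℝ) - 1)) /
            (A - ((i * (N + i - s) : ℕ) : ℝ)))) = RN (l' + 1) N s i := by
      have e1 : A - ((i * (N + i - s) : ℕ) : ℝ) = (s : ℝ) - i + 1 := by
        rw [hbR, hAdef]
        ring
      have hne : (s : ℝ) - i + 1 ≠ 0 := by linarith
      rw [e1, hbR]
      unfold RN
      generalize hh (l' + 1 - 1) ((i : ℝ) * ((N : ℝ) + i - s) / (((l' + 1 : ℕ) : ℝ) - 1)) = W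
      field_simp
    have hmain : (N : ℝ) * ((((N + i).choose i : ℝ) / (s.choose i : ℝ)) * ((s : ℝ) - i + 1) *
        (E / (A - κ))) ≤ ((l' + 1 : ℕ) : ℝ) + 1 := by
      rcases le_max_iff.1 hconv with hc | hc
      · refine le_trans ?_ hval
        have := mul_le_mul_of_nonneg_left hc hc0
        calc _ = (N : ℝ) * ((((N + i).choose i : ℝ) / (s.choose i : ℝ)) * ((s : ℝ) - i + 1)) *
              (E / (A - κ)) := by ring
          _ ≤ _ := this
          _ = _ := by ring
      · refine le_trans ?_ hnode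
        rw [← hbval]
        have := mul_le_mul_of_nonneg_left hc hc0
        calc _ = (N : ℝ) * ((((N + i).choose i : ℝ) / (s.choose i : ℝ)) * ((s : ℝ) - i + 1)) *
              (E / (A - κ)) := by ring
          _ ≤ _ := this
          _ = _ := by ring
    have hden : (i : ℝ) * ((N : ℝ) + i - s) - κ + ((s : ℝ) - i + 1) = A - κ := by
      rw [hAdef]; ring
    rw [hden, g10_fact N s i his]
    calc (N.factorial : ℝ) * (s.factorial : ℝ) * (((N + i).choose i : ℝ) / (s.choose i : ℝ)) *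
          ((s : ℝ) - i + 1) / (A - κ) * ((N : ℝ) * E)
        = (N.factorial : ℝ) * (s.factorial : ℝ) * ((N : ℝ) * ((((N + i).choose i : ℝ) /
          (s.choose i : ℝ)) * ((s : ℝ) - i + 1) * (E / (A - κ)))) := by ring
      _ ≤ _ := mul_le_mul_of_nonneg_left hmain (by positivity)

end Pool.Agent.LRQ
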