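import Mathlib
import Pool.Agent.LRQ.Num

set_option autoImplicit false

/-! # [LRQ-HB1] equal sums, more rows -/

namespace Pool.Agent.LRQ

open Finset
open Pool.Agent.LRE Pool.Agent.LRT

/-- `hh n (b + y) * ∏_{l<n} (1 + y/(b+l+1)) = hh n b` (induction on `n`, `hh_succ`). -/
theorem hh_shift (n : ℕ) (b y : ℝ) (hb : 0 ≤ b) (hy : 0 ≤ y) :
    hh n (b + y) * ∏ l ∈ range n, (1 + y / (b + (l + 1))) = hh n b := by
  unfold hh
  rw [← prod_mul_distrib]
  refine prod_congr rfl fun l _ => ?_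
  have h1 : (0 : ℝ) < b + ((l : ℝ) + 1) := by positivity
  have h2 : (0 : ℝ) < b + y + ((l : ℝ) + 1) := by positivity
  field_simp
  ring

theorem hb1_bern (c' c : ℕ) (h1 : 1 ≤ c') (h2 : c' ≤ c) (t : ℝ) (ht : 0 ≤ t) :
    (1 + ((c : ℝ) / c') * t) ^ c' ≤ (1 + t) ^ c := by
  have hc' : (0 : ℝ) < c' := by exact_mod_cast h1
  have hp : (1 : ℝ) ≤ (c : ℝ) / c' := by
    rw [one_le_div hc']
    exact_mod_cast h2
  have h := one_add_mul_self_le_rpow_one_add (by linarith : -1 ≤ t) hp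
  calc (1 + ((c : ℝ) / c') * t) ^ c' ≤ ((1 + t) ^ ((c : ℝ) / c')) ^ c' :=
        pow_le_pow_left₀ (by positivity) h c'
    _ = (1 + t) ^ c := by
        rw [← Real.rpow_natCast, ← Real.rpow_mul (by linarith), div_mul_cancel₀ _ hc'.ne',
          Real.rpow_natCast]

theorem hb1_prod (c' c : ℕ) (y : ℝ) (h1 : 1 ≤ c') (h2 : c' ≤ c) (hy : 0 ≤ y) :
    ∏ l ∈ range c', (1 + ((c : ℝ) / c') * y / ((c : ℝ) + (l + 1))) ≤
      ∏ l ∈ range c, (1 + y / ((c' : ℝ) + (l + 1))) := by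
  have hc' : (0 : ℝ) < c' := by exact_mod_cast h1
  have hc : (0 : ℝ) < c := by exact_mod_cast (lt_of_lt_of_le h1 h2)
  set A : ℝ := ∏ l ∈ range c', (1 + y / ((c : ℝ) + (l + 1))) with hA
  set B : ℝ := ∏ l ∈ range (c - c'), (1 + y / ((c' : ℝ) + (l + 1))) with hB
  have hP : ∏ l ∈ range c, (1 + y / ((c' : ℝ) + (l + 1))) = B * A := by
    obtain ⟨m, rfl⟩ := Nat.exists_eq_add_of_le' h2
    rw [prod_range_add, hB, Nat.add_sub_cancel]
    congr 1
    refine prod_congr rfl fun l _ => ?_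
    push_cast
    congr 2
    ring
  have hA0 : 0 ≤ A := prod_nonneg fun l _ => by positivity
  have hB0 : 0 ≤ B := prod_nonneg fun l _ => by positivity
  have hL0 : 0 ≤ ∏ l ∈ range c', (1 + ((c : ℝ) / c') * y / ((c : ℝ) + (l + 1))) :=
    prod_nonneg fun l _ => by positivity
  have e1 : (∏ l ∈ range c', (1 + ((c : ℝ) / c') * y / ((c : ℝ) + (l + 1)))) ^ c' ≤ A ^ c := by
    rw [hA, ← prod_pow, ← prod_pow]
    refine prod_le_prod (fun l _ => by positivity) fun l _ => ?_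
    have h := hb1_bern c' c h1 h2 (y / ((c : ℝ) + (l + 1))) (by positivity)
    rwa [← mul_div_assoc] at h
  have e2 : A ≤ (1 + y / c) ^ c' := by
    calc A ≤ ∏ _l ∈ range c', (1 + y / c) := by
          rw [hA]
          refine prod_le_prod (fun l _ => by positivity) fun l _ => ?_
          have h : y / ((c : ℝ) + (l + 1)) ≤ y / c := by
            apply div_le_div_of_nonneg_left hy hc
            have : (0 : ℝ) ≤ l := Nat.cast_nonneg l
            linarith
          linarith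
      _ = (1 + y / c) ^ c' := by rw [prod_const, card_range]
  have e3 : (1 + y / c) ^ (c - c') ≤ B := by
    calc (1 + y / c) ^ (c - c') = ∏ _l ∈ range (c - c'), (1 + y / c) := by
          rw [prod_const, card_range]
      _ ≤ B := by
          rw [hB]
          refine prod_le_prod (fun l _ => by positivity) fun l hl => ?_
          have h : y / (c : ℝ) ≤ y / ((c' : ℝ) + (l + 1)) := by
            apply div_le_div_of_nonneg_left hy (by positivity)
            have h3 : c' + (l + 1) ≤ c := by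
              have := mem_range.1 hl
              omega
            exact_mod_cast h3
          linarith
  have e4 : A ^ c ≤ (B * A) ^ c' := by
    have h3 : A ^ c = A ^ (c - c') * A ^ c' := by
      rw [← pow_add, Nat.sub_add_cancel h2]
    rw [h3, mul_pow]
    refine mul_le_mul_of_nonneg_right ?_ (pow_nonneg hA0 _)
    calc A ^ (c - c') ≤ ((1 + y / c) ^ c') ^ (c - c') := pow_le_pow_left₀ hA0 e2 _
      _ = ((1 + y / c) ^ (c - c')) ^ c' := by rw [← pow_mul, ← pow_mul, mul_comm]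
      _ ≤ B ^ c' := pow_le_pow_left₀ (by positivity) e3 _
  rw [hP]
  exact le_of_pow_le_pow_left₀ (by omega) (mul_nonneg hB0 hA0) (e1.trans e4)

/-- `s/c = c' + y` with `y ≥ 0` and `s/c' = c + (c/c') y`. By `hh_shift` and `hh_symm`
(`hh c c' = hh c' c`) the claim is
`∏_{l<c'} (1 + (c/c') y/(c+l+1)) ≤ ∏_{l<c} (1 + y/(c'+l+1))`.
Bernoulli (`one_add_mul_self_le_rpow_one_add` or `Real.one_add_mul_self_le_rpow…`, exponent
`c/c' ≥ 1`): each factor on the left is `≤ (1 + y/(c+l+1))^(c/c')`. With `f(j) = log (1 + y/j)`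
(antitone, `≥ 0`), `j = c'+1, …, c'+c`: the factors on the left are the `c'` last ones, and
`c ∑_{j=c+1}^{c+c'} f(j) ≤ c' ∑_{j=c'+1}^{c'+c} f(j)` (average of the `c'` smallest `≤` average of
all; e.g. both sides of `(c-c') ∑_{last c'} ≤ c' ∑_{first c-c'}` compare with
`(c-c') c' f(c+1)` and `(c-c') c' f(c)`). -/
theorem hh_U (c' c : ℕ) (s : ℝ) (h1 : 1 ≤ c') (h2 : c' ≤ c) (h3 : (c : ℝ) * c' ≤ s) :
    hh c (s / c) ≤ hh c' (s / c') := by
  have hc' : (0 : ℝ) < c' := by exact_mod_cast h1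
  have hc : (0 : ℝ) < c := by exact_mod_cast (lt_of_lt_of_le h1 h2)
  obtain ⟨y, hy⟩ : ∃ y : ℝ, y = s / c - c' := ⟨_, rfl⟩
  have hy0 : 0 ≤ y := by
    rw [hy, sub_nonneg, le_div_iff₀ hc]
    linarith
  have e1 : s / c = c' + y := by rw [hy]; ring
  have e2 : s / c' = c + ((c : ℝ) / c') * y := by
    rw [hy]
    field_simp
    ring
  have hy'0 : 0 ≤ ((c : ℝ) / c') * y := by positivity
  have f1 := hh_shift c (c' : ℝ) y hc'.le hy0
  have f2 := hh_shift c' (c : ℝ) (((c : ℝ) / c') * y) hc.le hy'0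
  have f3 : hh c (c' : ℝ) = hh c' (c : ℝ) := hh_symm c c'
  have f4 := hb1_prod c' c y h1 h2 hy0
  rw [e1, e2]
  set P1 := ∏ l ∈ range c, (1 + y / ((c' : ℝ) + (l + 1))) with hP1
  set P2 := ∏ l ∈ range c', (1 + ((c : ℝ) / c') * y / ((c : ℝ) + (l + 1))) with hP2
  have g1 : 0 < P1 := prod_pos fun l _ => by positivity
  have g2 : 0 < P2 := prod_pos fun l _ => by positivity
  have g3 : 0 ≤ hh c' ((c : ℝ) + ((c : ℝ) / c') * y) := (hh_pos c' (by positivity)).le
  have g4 : hh c ((c' : ℝ) + y) * P1 = hh c' ((c : ℝ) + ((c : ℝ) / c') * y) * P2 := by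
    rw [f1, f2, f3]
  have g5 : hh c ((c' : ℝ) + y) * P1 ≤ hh c' ((c : ℝ) + ((c : ℝ) / c') * y) * P1 := by
    rw [g4]
    exact mul_le_mul_of_nonneg_left f4 g3
  exact le_of_mul_le_mul_right g5 g1

end Pool.Agent.LRQ
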