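import Mathlib
import Pool.Agent.LRQ.A3
import Pool.Agent.LRQ.A5
import Pool.Agent.LRQ.HB1
import Pool.Agent.LRP.Z2

set_option autoImplicit false

/-! # [LRQ-FM] near-rectangles against the inner value -/

namespace Pool.Agent.LRQ

open Finset
open Pool.Agent.MP_f1b527_co
open Pool.Agent.LRE Pool.Agent.LRT Pool.Agent.LRP
open scoped NNReal

/-- a point of a segment -/
private theorem fm_seg (x y z : ℝ≥0) (h1 : x ≤ y) (h2 : y ≤ z) :
    ∃ a b : ℝ≥0, a + b = 1 ∧ a * x + b * z = y := by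
  have hxz : (x : ℝ) ≤ z := by exact_mod_cast h1.trans h2
  have h : (y : ℝ) ∈ segment ℝ (x : ℝ) (z : ℝ) := by
    rw [segment_eq_Icc hxz]
    exact ⟨by exact_mod_cast h1, by exact_mod_cast h2⟩
  obtain ⟨a, b, ha, hb, hab, h⟩ := h
  refine ⟨⟨a, ha⟩, ⟨b, hb⟩, ?_, ?_⟩
  · apply NNReal.eq
    exact hab
  · apply NNReal.eq
    have h' : a * (x : ℝ) + b * (z : ℝ) = (y : ℝ) := by simpa using h
    exact h'

/-- the rows `c^t, ρ` lie on the segment between `x^(t+1)` and `z1^t, z2` -/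
private theorem fm_core (c t ρ k : ℕ) (hk : t * c + ρ = k) (x z1 z2 : ℝ≥0)
    (hx : ((t : ℝ≥0) + 1) * x = k) (hz : (t : ℝ≥0) * z1 + z2 = k) (hx1 : x ≤ c)
    (hz1 : (c : ℝ≥0) ≤ z1) (h2 : z2 ≤ z1) :
    psi (Multiset.replicate t c + {ρ}) ≤
      max (hh (t + 1) (x : ℝ)) (rpsi (Multiset.replicate t z1 + {z2})) := by
  obtain ⟨a, b, hab, h⟩ := fm_seg x c z1 hx1 hz1
  have hρ : a * x + b * z2 = (ρ : ℝ≥0) := by
    have e1 : (t : ℝ≥0) * c + (a * x + b * z2) = (t : ℝ≥0) * c + ρ := by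
      calc (t : ℝ≥0) * c + (a * x + b * z2) = t * (a * x + b * z1) + (a * x + b * z2) := by rw [h]
        _ = a * (((t : ℝ≥0) + 1) * x) + b * ((t : ℝ≥0) * z1 + z2) := by ring
        _ = (a + b) * k := by rw [hx, hz]; ring
        _ = k := by rw [hab, one_mul]
        _ = (t : ℝ≥0) * c + ρ := by rw [← hk]; push_cast; ring
    exact add_left_cancel e1
  have h3 := quasi_blocks a b hab 0 0 t 1 x x z1 z2 le_rfl h2
    (fun q hq => absurd hq (Multiset.notMem_zero q))
    (fun q hq => absurd hq (Multiset.notMem_zero q))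
    (fun q hq => absurd hq (Multiset.notMem_zero q))
    (fun q hq => absurd hq (Multiset.notMem_zero q))
  rw [h, hρ] at h3
  simp only [zero_add, add_zero, Multiset.replicate_one] at h3
  have e2 : rpsi (Multiset.replicate t (c : ℝ≥0) + {(ρ : ℝ≥0)}) =
      psi (Multiset.replicate t c + {ρ}) := by
    rw [← rpsi_cst, cst_add, cst_replicate, cst_singleton]
  have e3 : rpsi (Multiset.replicate t x + {x}) = hh (t + 1) (x : ℝ) := by
    rw [← rpsi_rect, Multiset.replicate_succ, ← Multiset.singleton_add, add_comm]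
  rw [e2, e3] at h3
  exact h3

/-- `NN c k` as a multiset, also for `k = (s+1) c` -/
private theorem fm_form (c s ρ : ℕ) (hc : 1 ≤ c) (hρ : ρ ≤ c) :
    NN c (s * c + ρ) = psi (Multiset.replicate s c + {ρ}) := by
  unfold NN
  rcases Nat.lt_or_ge ρ c with h | h
  · have ed : (s * c + ρ) / c = s := by
      rw [Nat.mul_comm, Nat.mul_add_div (by omega), Nat.div_eq_of_lt h, add_zero]
    have em : (s * c + ρ) % c = ρ := by
      rw [Nat.mul_comm, Nat.mul_add_mod, Nat.mod_eq_of_lt h]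
    rw [ed, em]
  · have hρc : ρ = c := by omega
    subst hρc
    have e : s * ρ + ρ = ρ * (s + 1) := by ring
    have ed : (s * ρ + ρ) / ρ = s + 1 := by
      rw [e]
      exact Nat.mul_div_cancel_left _ (by omega)
    have em : (s * ρ + ρ) % ρ = 0 := by
      rw [e]
      exact Nat.mul_mod_right _ _
    rw [ed, em, add_comm, Multiset.singleton_add, psi_cons_zero, Multiset.replicate_succ,
      ← Multiset.singleton_add, add_comm]

/-- `m = s + 1`, `k = s M + D = m M - J`, `J = M - D`. `hh m (M - J/m) ≤ hh m M φ_m(J/(M+1))`: each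
factor `(M+l)/(M+l-J/m)` is `≤ (M+1)/(M+1-J/m) = (1 - zz/m)^{-1}` (`zz M D = J/(M+1)`;
`phi m z = ((1 - z/m)^m)^{-1}`, see LRE/LRF definitions of `phi`). -/
theorem fm_phi (s M D : ℕ) (hD : s + 1 ≤ D) (hDM : D ≤ M) :
    hh (s + 1) (((s : ℝ) * M + D) / ((s : ℝ) + 1)) ≤
      hh (s + 1) (M : ℝ) * phi (s + 1) (zz M D) := by
  have hDR : (s : ℝ) + 1 ≤ D := by exact_mod_cast hD
  have hDMR : (D : ℝ) ≤ M := by exact_mod_cast hDM
  have hs0 : (0 : ℝ) ≤ s := Nat.cast_nonneg s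
  have hM0 : (0 : ℝ) ≤ M := Nat.cast_nonneg M
  set x : ℝ := ((M : ℝ) - D) / ((s : ℝ) + 1) with hx
  have hx0 : 0 ≤ x := div_nonneg (by linarith) (by linarith)
  have hxM : x < M := by
    rw [hx, div_lt_iff₀ (by linarith)]
    nlinarith
  have e1 : ((s : ℝ) * M + D) / ((s : ℝ) + 1) = M - x := by
    rw [hx]
    field_simp
    ring
  have e2 : 1 - zz M D / ((s + 1 : ℕ) : ℝ) = ((M : ℝ) + 1 - x) / ((M : ℝ) + 1) := by
    unfold zz
    rw [hx]
    push_cast
    field_simp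
  have h1 : (0 : ℝ) < (M : ℝ) + 1 - x := by linarith
  have h2 : (0 : ℝ) < (M : ℝ) + 1 := by positivity
  have e3 : phi (s + 1) (zz M D) =
      ∏ _i ∈ range (s + 1), (((M : ℝ) + 1) / ((M : ℝ) + 1 - x)) := by
    unfold phi
    rw [prod_const, card_range, e2, ← inv_pow, inv_div]
  rw [e1, e3]
  unfold hh
  rw [← prod_mul_distrib]
  refine prod_le_prod (fun i _ => ?_) (fun i _ => ?_)
  · have hi : (0 : ℝ) ≤ i := Nat.cast_nonneg i
    apply div_nonneg <;> linarith
  · have hi : (0 : ℝ) ≤ i := Nat.cast_nonneg i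
    have h3 : (0 : ℝ) < M - x + ((i : ℝ) + 1) := by linarith
    have h4 : (0 : ℝ) < (M : ℝ) + ((i : ℝ) + 1) := by linarith
    rw [div_mul_div_comm, div_le_div_iff₀ h3 (mul_pos h4 h1), mul_assoc]
    apply mul_le_mul_of_nonneg_left _ (by linarith)
    have h5 : 0 ≤ (i : ℝ) * x := mul_nonneg hi hx0
    nlinarith

/-- `k ≤ m c`, `c ≤ M`, `k > (m-1) M`: `NN c k = psi (c^(m-1), k-(m-1)c)` (`q = k/c = m - 1`, or
`k = m c`). The rows lie on the segment between `(k/m)^m` and `M^(m-1), D`: `quasi_blocks` with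
`P = 0`, `c1 = m - 1`, `c2 = 1`, `R = 0`; `rpsi_rect`, `rpsi_cst`; `psi (M^(m-1), D) = NN M k`. -/
theorem fm_right (s M D c : ℕ) (hs : 1 ≤ s) (hD : s + 1 ≤ D) (hDM : D ≤ M)
    (hc : s * M + D ≤ (s + 1) * c) (hcM : c ≤ M) :
    NN c (s * M + D) ≤ max (hh (s + 1) (((s : ℝ) * M + D) / ((s : ℝ) + 1))) (NN M (s * M + D)) := by
  have hc1 : 1 ≤ c := by
    rcases Nat.eq_zero_or_pos c with h | h
    · subst h
      omega
    · exact h
  have hscM : s * c ≤ s * M := Nat.mul_le_mul_left s hcM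
  obtain ⟨ρ, hρ⟩ : ∃ ρ, s * M + D = s * c + ρ := ⟨s * M + D - s * c, by omega⟩
  have hρc : ρ ≤ c := by
    have : (s + 1) * c = s * c + c := by ring
    omega
  have hM1 : 1 ≤ M := by omega
  have hmpos : (0 : ℝ≥0) < (s : ℝ≥0) + 1 := by positivity
  have hk : (((s * M + D : ℕ) : ℝ≥0)) = (s : ℝ≥0) * M + D := by push_cast; rfl
  have h := fm_core c s ρ (s * M + D) hρ.symm (((s : ℝ≥0) * M + D) / ((s : ℝ≥0) + 1)) M D
    (by rw [hk]; field_simp) (by rw [hk]) (by
      rw [div_le_iff₀ hmpos]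
      have h1 : (((s * M + D : ℕ) : ℝ≥0)) ≤ (((s + 1) * c : ℕ) : ℝ≥0) := by exact_mod_cast hc
      rw [hk] at h1
      refine h1.trans (le_of_eq ?_)
      push_cast
      ring) (by exact_mod_cast hcM) (by exact_mod_cast hDM)
  have e1 : NN c (s * M + D) = psi (Multiset.replicate s c + {ρ}) := by
    rw [hρ]
    exact fm_form c s ρ hc1 hρc
  have e2 : NN M (s * M + D) = psi (Multiset.replicate s M + {D}) := fm_form M s D hM1 hDM
  have e3 : rpsi (Multiset.replicate s (M : ℝ≥0) + {(D : ℝ≥0)}) =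
      psi (Multiset.replicate s M + {D}) := by
    rw [← rpsi_cst, cst_add, cst_replicate, cst_singleton]
  rw [e3, ← e2, ← e1] at h
  refine h.trans (le_of_eq ?_)
  push_cast
  rfl

/-- `m + 1 ≤ c`, `m c < k`: `t = k/c ≥ m`, `ρ = k % c`, `NN c k = psi (c^t, ρ)`. `quasi_blocks` with
`(x1,x2) = (k/(t+1), k/(t+1))`, `(y1,y2) = (k/t, 0)` (`c1 = t`, `c2 = 1`; zero rows: `rpsi_zeros`):
`NN c k ≤ max (hh (t+1) (k/(t+1))) (hh t (k/t))`, and `hh_U m t k`, `hh_U m (t+1) k`:
`m t ≤ c t ≤ k` and `m (t+1) ≤ (c-1) t + m ≤ k - t + m ≤ k`. -/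
theorem fm_mid (m c k : ℕ) (hm : 1 ≤ m) (hc : m + 1 ≤ c) (hk : m * c < k) :
    NN c k ≤ hh m ((k : ℝ) / m) := by
  have hc1 : 1 ≤ c := by omega
  set t := k / c with ht
  set ρ := k % c with hρ
  have hkt : t * c + ρ = k := by
    rw [Nat.mul_comm]
    exact Nat.div_add_mod k c
  have hρc : ρ < c := Nat.mod_lt _ (by omega)
  have hmt : m ≤ t := by
    rw [ht, Nat.le_div_iff_mul_le (by omega)]
    omega
  have ht1 : 1 ≤ t := by omega
  have ht0 : (0 : ℝ≥0) < t := by exact_mod_cast ht1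
  have hmpos : (0 : ℝ≥0) < (t : ℝ≥0) + 1 := by positivity
  have hmul1 : t * m ≤ k := by
    have : t * m ≤ t * c := Nat.mul_le_mul_left t (by omega)
    omega
  have hmul2 : (t + 1) * m ≤ k := by
    have h1 : t * (m + 1) ≤ t * c := Nat.mul_le_mul_left t hc
    have h2 : t * (m + 1) = t * m + t := by ring
    have h3 : (t + 1) * m = t * m + m := by ring
    omega
  have h := fm_core c t ρ k hkt ((k : ℝ≥0) / ((t : ℝ≥0) + 1)) ((k : ℝ≥0) / t) 0
    (by field_simp) (by rw [add_zero]; field_simp) (by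
      rw [div_le_iff₀ hmpos]
      have h1 : k ≤ c * (t + 1) := by
        have : c * (t + 1) = t * c + c := by ring
        omega
      exact_mod_cast h1) (by
      rw [le_div_iff₀ ht0]
      have h1 : c * t ≤ k := by
        have : c * t = t * c := by ring
        omega
      exact_mod_cast h1) (zero_le)
  have e2 : rpsi (Multiset.replicate t ((k : ℝ≥0) / t) + {0}) = hh t ((k : ℝ) / t) := by
    rw [add_comm, Multiset.singleton_add, rpsi_cons_zero, rpsi_rect]
    push_cast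
    rfl
  have e1 : NN c k = psi (Multiset.replicate t c + {ρ}) := rfl
  rw [e2, ← e1] at h
  refine h.trans (max_le ?_ ?_)
  · have h1 := hh_U m (t + 1) (k : ℝ) hm (by omega) (by exact_mod_cast hmul2)
    refine le_trans (le_of_eq ?_) h1
    push_cast
    rfl
  · exact hh_U m t (k : ℝ) hm hmt (by exact_mod_cast hmul1)

/-- `(M+m)! hh m M = m! M!` (`hh_fac`, LRP/Z2.lean). `c = s + 1`: `NN_m` and `gg_le_phi1` (LRP/A2.lean)
and the third term of `FF`. Otherwise `fm_right` or `fm_mid` with `fm_phi`; `NN_M` gives the second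
term of `FF` (`(M+m)! NN M k = m! M! ss`, `ss = (s + aa)/m`). -/
theorem FM1 (s M D c : ℕ) (hs : 1 ≤ s) (hD : s + 1 ≤ D) (hDM : D ≤ M) (hc1 : s + 1 ≤ c)
    (hc2 : c ≤ M) :
    ((M + (s + 1)).factorial : ℝ) * NN c (s * M + D) ≤
      (s.factorial : ℝ) * ((M + 1).factorial : ℝ) * (LRP.FF M D s / ((M : ℝ) + 1)) := by
  have hM1 : (0 : ℝ) < (M : ℝ) + 1 := by positivity
  have hpos : (0 : ℝ) ≤ (s.factorial : ℝ) * ((M + 1).factorial : ℝ) := by positivity
  have hfac : ((s + 1).factorial : ℝ) * (M.factorial : ℝ) =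
      (s.factorial : ℝ) * ((M + 1).factorial : ℝ) * (((s : ℝ) + 1) / ((M : ℝ) + 1)) := by
    rw [Nat.factorial_succ s, Nat.factorial_succ M]
    push_cast
    field_simp
  have hthird : ((s + 1).factorial : ℝ) * (M.factorial : ℝ) * phi (s + 1) (zz M D) ≤
      (s.factorial : ℝ) * ((M + 1).factorial : ℝ) * (LRP.FF M D s / ((M : ℝ) + 1)) := by
    rw [hfac, mul_assoc]
    apply mul_le_mul_of_nonneg_left _ hpos
    rw [div_mul_eq_mul_div]
    apply div_le_div_of_nonneg_right _ hM1.le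
    unfold LRP.FF
    exact le_trans (le_max_right _ _) (le_max_right _ _)
  have hsecond : ((s + 1).factorial : ℝ) * (M.factorial : ℝ) * ss (s + 1) M (M - D) ≤
      (s.factorial : ℝ) * ((M + 1).factorial : ℝ) * (LRP.FF M D s / ((M : ℝ) + 1)) := by
    rw [hfac, mul_assoc]
    apply mul_le_mul_of_nonneg_left _ hpos
    rw [div_mul_eq_mul_div]
    apply div_le_div_of_nonneg_right _ hM1.le
    have h1 := e3_ss (s + 1) M D (by omega) hDM
    push_cast at h1
    rw [h1]
    unfold LRP.FF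
    refine le_trans (le_of_eq ?_) ((le_max_left _ _).trans (le_max_right _ _))
    unfold aa
    ring
  have hH : ((M + (s + 1)).factorial : ℝ) * hh (s + 1) (((s : ℝ) * M + D) / ((s : ℝ) + 1)) ≤
      (s.factorial : ℝ) * ((M + 1).factorial : ℝ) * (LRP.FF M D s / ((M : ℝ) + 1)) := by
    have h1 := fm_phi s M D hD hDM
    have h2 := mul_le_mul_of_nonneg_left h1 (Nat.cast_nonneg (M + (s + 1)).factorial : (0 : ℝ) ≤ _)
    rw [← mul_assoc, hh_fac] at h2
    exact h2.trans hthird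
  rcases Nat.eq_or_lt_of_le hc1 with h | h
  · subst h
    have h1 := NN_m (s + 1) M D (by omega) hD hDM
    rw [Nat.add_sub_cancel] at h1
    rw [h1]
    refine le_trans (mul_le_mul_of_nonneg_left ?_ (by positivity)) hthird
    have h2 := gg_le_phi1 (s + 1) M (M - D) (by omega) (by omega)
    have h3 : ((M - D : ℕ) : ℝ) / ((M : ℝ) + 1) = zz M D := by
      unfold zz
      rw [Nat.cast_sub hDM]
    rw [h3] at h2
    exact h2
  · rcases Nat.lt_or_ge ((s + 1) * c) (s * M + D) with h1 | h1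
    · have h2 := fm_mid (s + 1) c (s * M + D) (by omega) (by omega) h1
      refine (mul_le_mul_of_nonneg_left h2 (Nat.cast_nonneg _)).trans (le_trans (le_of_eq ?_) hH)
      push_cast
      rfl
    · have h2 := fm_right s M D c hs hD hDM h1 hc2
      refine (mul_le_mul_of_nonneg_left h2 (Nat.cast_nonneg _)).trans ?_
      rw [mul_max_of_nonneg _ _ (Nat.cast_nonneg _)]
      refine max_le hH ?_
      have h3 := NN_M (s + 1) M D (by omega) hD hDM
      rw [Nat.add_sub_cancel] at h3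
      rw [h3]
      exact hsecond

end Pool.Agent.LRQ
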