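import Mathlib
import Pool.Agent.LRQ.Num

set_option autoImplicit false

/-! # [LRQ-HB2] two inequalities for `hh` -/

namespace Pool.Agent.LRQ

open Finset
open Pool.Agent.LRE Pool.Agent.LRT

/-- `(1 - y)² ≤ (1 - (2/q) y)^q` -/
theorem HB2_bern (q : ℕ) (y : ℝ) (hq : 2 ≤ q) (hy1 : y ≤ 1) :
    (1 - y) ^ 2 ≤ (1 - 2 / (q : ℝ) * y) ^ q := by
  have hq0 : (0 : ℝ) < q := by
    have : 0 < q := by omega
    exact_mod_cast this
  have hq2 : (2 : ℝ) ≤ q := by exact_mod_cast hq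
  have h1 : (1 + (-y)) ^ (2 / (q : ℝ)) ≤ 1 + 2 / (q : ℝ) * (-y) := by
    apply rpow_one_add_le_one_add_mul_self
    · linarith
    · positivity
    · rw [div_le_one hq0]
      exact hq2
  have h0 : 0 ≤ 1 + (-y) := by linarith
  have h2 : ((1 + (-y)) ^ (2 / (q : ℝ))) ^ q ≤ (1 + 2 / (q : ℝ) * (-y)) ^ q :=
    pow_le_pow_left₀ (Real.rpow_nonneg h0 _) h1 q
  have h3 : ((1 + (-y)) ^ (2 / (q : ℝ))) ^ q = (1 + (-y)) ^ 2 := by
    rw [← Real.rpow_natCast, ← Real.rpow_mul h0]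
    rw [div_mul_cancel₀ _ hq0.ne']
    norm_num
  rw [h3] at h2
  have e1 : (1 + (-y)) = 1 - y := by ring
  have e2 : 1 + 2 / (q : ℝ) * (-y) = 1 - 2 / (q : ℝ) * y := by ring
  rw [e1, e2] at h2
  exact h2

/-- `hh n (b - x) * ∏_{l<n} (1 - x/(b+l+1)) = hh n b` -/
theorem HB2_shift (n : ℕ) (b x : ℝ) (hb : 0 < b) (hx : x ≤ b) :
    hh n (b - x) * ∏ l ∈ range n, (1 - x / (b + ((l : ℝ) + 1))) = hh n b := by
  induction n with
  | zero => simp [hh_zero]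
  | succ n ih =>
    rw [hh_succ, hh_succ, prod_range_succ, ← ih]
    have h1 : b + ((n : ℝ) + 1) ≠ 0 := by positivity
    have h2 : b - x + ((n : ℝ) + 1) ≠ 0 := by
      have h3 : (0 : ℝ) < (n : ℝ) + 1 := by positivity
      have h4 : 0 ≤ b - x := by linarith
      positivity
    have h5 : (1 - x / (b + ((n : ℝ) + 1))) = (b - x + ((n : ℝ) + 1)) / (b + ((n : ℝ) + 1)) := by
      field_simp
      ring
    rw [h5]
    field_simp

/-- the product of the `1 - z_l` -/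
theorem HB2_prod (q : ℕ) (w d : ℝ) (hq2 : 2 ≤ q) (hd0 : 0 ≤ d) (hdw : d ≤ w) (hw : 0 < w) :
    (1 - d / 2 / (w + 1)) * (1 - d / 2 / (w + 2)) ≤
      ∏ l ∈ range q, (1 - d / q / (w + ((l : ℝ) + 1))) := by
  have hq0 : (0 : ℝ) < q := by
    have : 0 < q := by omega
    exact_mod_cast this
  have hq2' : (2 : ℝ) ≤ q := by exact_mod_cast hq2
  have hu : ∀ l : ℕ, 0 ≤ 1 - d / 2 / (w + ((l : ℝ) + 1)) := by
    intro l
    have h1 : (0 : ℝ) < w + ((l : ℝ) + 1) := by positivity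
    rw [sub_nonneg, div_le_one h1]
    have h2 : (0 : ℝ) ≤ l := Nat.cast_nonneg l
    linarith
  have hz : ∀ l : ℕ, 0 ≤ 1 - d / q / (w + ((l : ℝ) + 1)) := by
    intro l
    have h1 : (0 : ℝ) < w + ((l : ℝ) + 1) := by positivity
    rw [sub_nonneg, div_le_one h1, div_le_iff₀ hq0]
    have h2 : (0 : ℝ) ≤ l := Nat.cast_nonneg l
    have h3 : w * 1 ≤ (w + ((l : ℝ) + 1)) * q := by
      apply mul_le_mul
      · linarith
      · linarith
      · norm_num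
      · positivity
    linarith
  have h1 : ∀ l : ℕ, (1 - d / 2 / (w + ((l : ℝ) + 1))) ^ 2 ≤
      (1 - d / q / (w + ((l : ℝ) + 1))) ^ q := by
    intro l
    have h2 := HB2_bern q (d / 2 / (w + ((l : ℝ) + 1))) hq2 (by linarith [hu l])
    have h3 : 2 / (q : ℝ) * (d / 2 / (w + ((l : ℝ) + 1))) = d / q / (w + ((l : ℝ) + 1)) := by
      have h4 : (0 : ℝ) < w + ((l : ℝ) + 1) := by positivity
      field_simp
    rw [h3] at h2
    exact h2
  have hmono : ∀ l : ℕ, 1 ≤ l → 1 - d / 2 / (w + 2) ≤ 1 - d / 2 / (w + ((l : ℝ) + 1)) := by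
    intro l hl
    have h2 : (1 : ℝ) ≤ l := by exact_mod_cast hl
    have h3 : d / 2 / (w + ((l : ℝ) + 1)) ≤ d / 2 / (w + 2) := by
      apply div_le_div_of_nonneg_left
      · linarith
      · linarith
      · linarith
    linarith
  have hu0 : 0 ≤ 1 - d / 2 / (w + 1) := by
    have := hu 0
    simpa using this
  have hu1 : 0 ≤ 1 - d / 2 / (w + 2) := by
    have := hu 1
    have e : w + (((1 : ℕ) : ℝ) + 1) = w + 2 := by
      push_cast
      ring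
    rwa [e] at this
  have hu01 : 1 - d / 2 / (w + 1) ≤ 1 - d / 2 / (w + 2) := by
    have h3 : d / 2 / (w + 2) ≤ d / 2 / (w + 1) := by
      apply div_le_div_of_nonneg_left
      · linarith
      · linarith
      · linarith
    linarith
  -- `u_0 u_1^(n-1) ≤ ∏`
  have h4 : ∀ n : ℕ, (1 - d / 2 / (w + 1)) * (1 - d / 2 / (w + 2)) ^ n ≤
      ∏ l ∈ range (n + 1), (1 - d / 2 / (w + ((l : ℝ) + 1))) := by
    intro n
    induction n with
    | zero => simp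
    | succ n ih =>
      rw [prod_range_succ, pow_succ, ← mul_assoc]
      apply mul_le_mul ih
      · exact hmono (n + 1) (by omega)
      · exact hu1
      · exact prod_nonneg fun l _ => hu l
  obtain ⟨m, rfl⟩ : ∃ m, q = m + 2 := ⟨q - 2, by omega⟩
  have h5 := h4 (m + 1)
  have h6 : ((1 - d / 2 / (w + 1)) * (1 - d / 2 / (w + 2))) ^ (m + 2) ≤
      ((1 - d / 2 / (w + 1)) * (1 - d / 2 / (w + 2)) ^ (m + 1)) ^ 2 := by
    have h7 : (1 - d / 2 / (w + 1)) ^ m ≤ (1 - d / 2 / (w + 2)) ^ m :=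
      pow_le_pow_left₀ hu0 hu01 m
    have h8 : ((1 - d / 2 / (w + 1)) * (1 - d / 2 / (w + 2))) ^ (m + 2) =
        ((1 - d / 2 / (w + 1)) ^ 2 * (1 - d / 2 / (w + 2)) ^ (m + 2)) *
          (1 - d / 2 / (w + 1)) ^ m := by
      generalize 1 - d / 2 / (w + 1) = u
      generalize 1 - d / 2 / (w + 2) = v
      ring
    have h9 : ((1 - d / 2 / (w + 1)) * (1 - d / 2 / (w + 2)) ^ (m + 1)) ^ 2 =
        ((1 - d / 2 / (w + 1)) ^ 2 * (1 - d / 2 / (w + 2)) ^ (m + 2)) *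
          (1 - d / 2 / (w + 2)) ^ m := by
      generalize 1 - d / 2 / (w + 1) = u
      generalize 1 - d / 2 / (w + 2) = v
      ring
    rw [h8, h9]
    exact mul_le_mul_of_nonneg_left h7 (by positivity)
  have h10 : (∏ l ∈ range (m + 1 + 1), (1 - d / 2 / (w + ((l : ℝ) + 1)))) ^ 2 ≤
      (∏ l ∈ range (m + 2), (1 - d / ((m + 2 : ℕ) : ℝ) / (w + ((l : ℝ) + 1)))) ^ (m + 2) := by
    rw [← prod_pow, ← prod_pow]
    exact prod_le_prod (fun l _ => by positivity) fun l _ => h1 l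
  have h11 : ((1 - d / 2 / (w + 1)) * (1 - d / 2 / (w + 2)) ^ (m + 1)) ^ 2 ≤
      (∏ l ∈ range (m + 1 + 1), (1 - d / 2 / (w + ((l : ℝ) + 1)))) ^ 2 :=
    pow_le_pow_left₀ (by positivity) h5 2
  have h12 := h6.trans (h11.trans h10)
  exact le_of_pow_le_pow_left₀ (by omega) (prod_nonneg fun l _ => hz l) h12

/-- `hh q (w - d/q)/hh q w = ∏_{l ≤ q} (1 - z_l)^{-1}`, `z_l = (d/q)/(w+l)`. With
`φ(z) = -log (1 - z)` (convex, `φ 0 = 0`): `φ(z_l) ≤ (2/q) φ(y_l)`, `y_l = (d/2)/(w+l)`, and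
`(2/q) ∑_{l ≤ q} φ(y_l) ≤ φ(y_1) + φ(y_2)` because `φ(y_l)` is antitone in `l`. (Instead of the
convexity of `φ`: `(1 - y)^(2/q) ≤ 1 - (2/q) y`, Bernoulli with exponent in `[0,1]`.) -/
theorem hh_U2 (q : ℕ) (w d : ℝ) (hq2 : 2 ≤ q) (hd0 : 0 ≤ d) (hdw : d ≤ w) (hw : 0 < w) :
    hh q (w - d / q) * hh 2 w ≤ hh 2 (w - d / 2) * hh q w := by
  have hq0 : (0 : ℝ) < q := by
    have : 0 < q := by omega
    exact_mod_cast this
  have hq1 : (1 : ℝ) ≤ q := by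
    have : 1 ≤ q := by omega
    exact_mod_cast this
  have hdq : d / q ≤ w := (div_le_self hd0 hq1).trans hdw
  have hd2 : d / 2 ≤ w := by linarith
  have h1 := HB2_shift q w (d / q) hw hdq
  have h2 := HB2_shift 2 w (d / 2) hw hd2
  have h3 := HB2_prod q w d hq2 hd0 hdw hw
  rw [prod_range_succ, prod_range_one] at h2
  have e0 : w + (((0 : ℕ) : ℝ) + 1) = w + 1 := by
    push_cast
    ring
  have e1 : w + (((1 : ℕ) : ℝ) + 1) = w + 2 := by
    push_cast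
    ring
  rw [e0, e1] at h2
  rw [← h1, ← h2]
  have p1 : 0 ≤ hh q (w - d / q) := (hh_pos q (by linarith)).le
  have p2 : 0 ≤ hh 2 (w - d / 2) := (hh_pos 2 (by linarith)).le
  calc hh q (w - d / q) * (hh 2 (w - d / 2) * ((1 - d / 2 / (w + 1)) * (1 - d / 2 / (w + 2))))
      = (hh q (w - d / q) * hh 2 (w - d / 2)) *
          ((1 - d / 2 / (w + 1)) * (1 - d / 2 / (w + 2))) := by ring
    _ ≤ (hh q (w - d / q) * hh 2 (w - d / 2)) *
          ∏ l ∈ range q, (1 - d / q / (w + ((l : ℝ) + 1))) :=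
        mul_le_mul_of_nonneg_left h3 (mul_nonneg p1 p2)
    _ = _ := by ring

/-- `hh n (W-1) (1 - nδ) ≤ hh n (w-1)`, `W = w - δ w`. -/
theorem HB2_in (w δ : ℝ) (hw : 1 ≤ w) (h0 : 0 ≤ δ) (hW : 1 ≤ w - δ * w) (n : ℕ)
    (hn : (n : ℝ) * δ ≤ 1) :
    hh n (w - δ * w - 1) * (1 - (n : ℝ) * δ) ≤ hh n (w - 1) := by
  induction n with
  | zero => simp [hh_zero]
  | succ n ih =>
    have hn' : (n : ℝ) * δ ≤ 1 := by
      refine le_trans ?_ hn
      apply mul_le_mul_of_nonneg_right _ h0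
      push_cast
      linarith
    have ih := ih hn'
    rw [hh_succ, hh_succ]
    have p0 : 0 < hh n (w - δ * w - 1) := hh_pos n (by linarith)
    have p1 : (0 : ℝ) < w - δ * w - 1 + ((n : ℝ) + 1) := by
      have : (0 : ℝ) ≤ n := Nat.cast_nonneg n
      linarith
    have p2 : (0 : ℝ) < w - 1 + ((n : ℝ) + 1) := by
      have : (0 : ℝ) ≤ n := Nat.cast_nonneg n
      linarith
    have hnn : (0 : ℝ) ≤ n := Nat.cast_nonneg n
    have key : ((n : ℝ) + 1) / (w - δ * w - 1 + ((n : ℝ) + 1)) * (1 - ((n + 1 : ℕ) : ℝ) * δ) ≤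
        (1 - (n : ℝ) * δ) * (((n : ℝ) + 1) / (w - 1 + ((n : ℝ) + 1))) := by
      rw [div_mul_eq_mul_div, mul_div_assoc', div_le_div_iff₀ p1 p2]
      push_cast
      have h1 : 0 ≤ δ * n + n * δ ^ 2 * w := by positivity
      nlinarith [mul_nonneg (by positivity : (0 : ℝ) ≤ (n : ℝ) + 1) h1]
    calc hh n (w - δ * w - 1) * (((n : ℝ) + 1) / (w - δ * w - 1 + ((n : ℝ) + 1))) *
          (1 - ((n + 1 : ℕ) : ℝ) * δ)
        = hh n (w - δ * w - 1) * (((n : ℝ) + 1) / (w - δ * w - 1 + ((n : ℝ) + 1)) *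
          (1 - ((n + 1 : ℕ) : ℝ) * δ)) := by ring
      _ ≤ hh n (w - δ * w - 1) * ((1 - (n : ℝ) * δ) * (((n : ℝ) + 1) / (w - 1 + ((n : ℝ) + 1)))) :=
          mul_le_mul_of_nonneg_left key p0.le
      _ = hh n (w - δ * w - 1) * (1 - (n : ℝ) * δ) * (((n : ℝ) + 1) / (w - 1 + ((n : ℝ) + 1))) := by
          ring
      _ ≤ hh n (w - 1) * (((n : ℝ) + 1) / (w - 1 + ((n : ℝ) + 1))) :=
          mul_le_mul_of_nonneg_right ih (by positivity)

/-- the polynomial inequality -/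
theorem HB2_poly (c D s w : ℕ) (hc : 1 ≤ c) (hD : 1 ≤ D) (hs : 1 ≤ s) (hw : c + (s + D) + 1 ≤ w) :
    ((w : ℝ) + c) * ((w : ℝ) + c + 1) * ((s : ℝ) + 1) ≤
      ((w : ℝ) - D) * ((s : ℝ) + D + 1) * ((c : ℝ) * ((s : ℝ) + 1) + w + 1) := by
  obtain ⟨c, rfl⟩ : ∃ c', c = c' + 1 := ⟨c - 1, by omega⟩
  obtain ⟨D, rfl⟩ : ∃ D', D = D' + 1 := ⟨D - 1, by omega⟩
  obtain ⟨s, rfl⟩ : ∃ s', s = s' + 1 := ⟨s - 1, by omega⟩
  obtain ⟨t, rfl⟩ : ∃ t, w = c + 1 + (s + 1 + (D + 1)) + 1 + t := ⟨w - (c + 1 + (s + 1 + (D + 1)) + 1), by omega⟩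
  push_cast
  rw [← sub_nonneg]
  ring_nf
  positivity

/-- `hh c (w - 1 - D/c) ≤ hh c (w-1) w/(w-D)`: each factor `(w-1+l)/(w-1+l-D/c)`, `1 ≤ l ≤ c`, is
`≤ w/(w-D/c) = (1 - (D/c)/w)^{-1}` and `(1 - (D/w)/c)^c ≥ 1 - D/w` (Bernoulli,
`one_sub_…`/`one_add_mul_le_pow`). And `hh c (w-1) = hh c w (w+c)/w` (`hh_add_one`). So
`hh c (W-1) ≤ hh c w (w+c)/(w-D)`, and it remains
`(w+c)(w+c+1)(s'+1) ≤ (w-D)(s'+D+1)(c(s'+1)+w+1)` for `c, D, s' ≥ 1`, `c+s'+D+1 ≤ w`: the right side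
minus the left side is concave in `D` on `[1, w-1-c-s']`; at `D = 1` and at `D = w-1-c-s'` write
`w = c+s'+2+t`: polynomials with nonnegative values (`s' = 1`: `c²+2c+…`). -/
theorem hb_IN (c e w s' D : ℕ) (W : ℝ) (hc : 1 ≤ c) (hD : 1 ≤ D) (hs : 1 ≤ s') (he : e = s' + D)
    (hce : c + e + 1 ≤ w) (hW : (c : ℝ) * W + D = c * w) :
    hh c (W - 1) / ((e : ℝ) + 1) ≤
      hh c (w : ℝ) * (((c : ℝ) + ((w : ℝ) + 1) / ((s' : ℝ) + 1)) / ((w : ℝ) + c + 1)) := by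
  subst he
  have hc0 : (0 : ℝ) < c := by exact_mod_cast hc
  have hD1 : (1 : ℝ) ≤ D := by exact_mod_cast hD
  have hs1 : (1 : ℝ) ≤ s' := by exact_mod_cast hs
  have hc1 : (1 : ℝ) ≤ c := by exact_mod_cast hc
  have hw' : (c : ℝ) + ((s' : ℝ) + D) + 1 ≤ w := by exact_mod_cast hce
  have hw0 : (0 : ℝ) < w := by linarith
  have hWe : W = w - (D / c / w) * w := by
    field_simp
    linarith
  have hWD : (w : ℝ) - D ≤ W := by
    have h1 : (D : ℝ) / c ≤ D := div_le_self (by linarith) hc1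
    have h2 : (D : ℝ) / c / w * w = D / c := by field_simp
    rw [hWe, h2]
    linarith
  have h1 := HB2_in (w : ℝ) (D / c / w) (by linarith) (by positivity) (by rw [← hWe]; linarith) c
    (by
      have : (c : ℝ) * (D / c / w) = D / w := by field_simp
      rw [this, div_le_one hw0]
      linarith)
  rw [← hWe] at h1
  have e1 : (c : ℝ) * (D / c / w) = D / w := by field_simp
  rw [e1] at h1
  have h2 := hh_add_one c (b := (w : ℝ) - 1) (by linarith)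
  have e2 : (w : ℝ) - 1 + 1 = w := by ring
  have e3 : (w : ℝ) - 1 + c + 1 = w + c := by ring
  rw [e2, e3] at h2
  have hwD : (0 : ℝ) < w - D := by linarith
  have p0 : 0 < hh c (w : ℝ) := hh_pos c hw0.le
  have p1 : 0 < hh c ((w : ℝ) - 1) := hh_pos c (by linarith)
  -- `hh c (W-1) (w-D) ≤ hh c w (w+c)`
  have h3 : hh c (W - 1) * (w - D) ≤ hh c (w : ℝ) * (w + c) := by
    have h4 : hh c (w : ℝ) * (w + c) = hh c ((w : ℝ) - 1) * w := by
      rw [h2]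
      field_simp
    rw [h4]
    have h5 : hh c (W - 1) * (w - D) = hh c (W - 1) * (1 - D / w) * w := by
      field_simp
    rw [h5]
    exact mul_le_mul_of_nonneg_right h1 hw0.le
  have h6 := HB2_poly c D s' w hc hD hs (by omega)
  have p2 : (0 : ℝ) < ((s' + D : ℕ) : ℝ) + 1 := by positivity
  rw [div_le_iff₀ p2]
  have p3 : (0 : ℝ) < (w : ℝ) + c + 1 := by positivity
  have p4 : (0 : ℝ) < (s' : ℝ) + 1 := by positivity
  have h7 : hh c (W - 1) ≤ hh c (w : ℝ) * (w + c) / (w - D) := by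
    rw [le_div_iff₀ hwD]
    exact h3
  refine h7.trans ?_
  rw [div_le_iff₀ hwD]
  have h8 : hh c (w : ℝ) * (((c : ℝ) + ((w : ℝ) + 1) / ((s' : ℝ) + 1)) / ((w : ℝ) + c + 1)) *
      (((s' + D : ℕ) : ℝ) + 1) * ((w : ℝ) - D) =
      hh c (w : ℝ) * ((((w : ℝ) - D) * ((s' : ℝ) + D + 1) * ((c : ℝ) * ((s' : ℝ) + 1) + w + 1)) /
        (((s' : ℝ) + 1) * ((w : ℝ) + c + 1))) := by
    push_cast
    field_simp
    ring
  rw [h8]
  apply mul_le_mul_of_nonneg_left _ p0.le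
  rw [le_div_iff₀ (by positivity)]
  calc ((w : ℝ) + c) * (((s' : ℝ) + 1) * ((w : ℝ) + c + 1))
      = ((w : ℝ) + c) * ((w : ℝ) + c + 1) * ((s' : ℝ) + 1) := by ring
    _ ≤ _ := h6

end Pool.Agent.LRQ
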