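import Mathlib
import Pool.Agent.LRQ.Num

set_option autoImplicit false

/-! # [LRQ-HB3] the chord value -/

namespace Pool.Agent.LRQ

open Finset
open Pool.Agent.LRE Pool.Agent.LRT

theorem hb3_step (p : ℕ) (A x B : ℝ) (hA : 0 < A) (hx : 0 ≤ x) (hB : 0 < B) (h : A ≤ p * B) :
    (1 + x / B) * A ^ p ≤ (A + x) ^ p := by
  have h1 : (A + x) ^ p = A ^ p * (1 + x / A) ^ p := by
    rw [← mul_pow]
    congr 1
    field_simp
  have h2 : 1 + (p : ℝ) * (x / A) ≤ (1 + x / A) ^ p :=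
    one_add_mul_le_pow (by have : 0 ≤ x / A := by positivity
                           linarith) p
  have h3 : x / B ≤ (p : ℝ) * (x / A) := by
    rw [div_le_iff₀ hB]
    have : (p : ℝ) * (x / A) * B = x * (p * B) / A := by ring
    rw [this, le_div_iff₀ hA]
    exact mul_le_mul_of_nonneg_left h hx
  rw [h1, mul_comm (1 + x / B)]
  apply mul_le_mul_of_nonneg_left _ (by positivity)
  linarith

theorem hb3_prod (w q p : ℕ) (hpq : p ≤ q) : ∀ n : ℕ, n * q < p * w →
    (∏ i ∈ range n, (1 + (q : ℝ) / ((w : ℝ) - i))) * ((p : ℝ) * w - n * q) ^ p ≤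
      ((p : ℝ) * w) ^ p := by
  intro n
  induction n with
  | zero =>
    intro _
    simp
  | succ n ih =>
    intro hn
    have hn' : n * q < p * w := lt_of_le_of_lt (Nat.mul_le_mul_right q (Nat.le_succ n)) hn
    have h := ih hn'
    have hwn : n < w := by
      by_contra hc
      push Not at hc
      have : p * w ≤ q * n := Nat.mul_le_mul hpq hc
      nlinarith
    have hB : (0 : ℝ) < (w : ℝ) - n := by
      have : (n : ℝ) < w := by exact_mod_cast hwn
      linarith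
    have hA : (0 : ℝ) < (p : ℝ) * w - (n + 1) * q := by
      have : ((n : ℝ) + 1) * q < p * w := by exact_mod_cast hn
      linarith
    have hpq' : (p : ℝ) ≤ q := by exact_mod_cast hpq
    have hn0 : (0 : ℝ) ≤ n := Nat.cast_nonneg _
    have hq0 : (0 : ℝ) ≤ q := Nat.cast_nonneg _
    have h1 := hb3_step p ((p : ℝ) * w - (n + 1) * q) q ((w : ℝ) - n) hA hq0 hB (by
      nlinarith [mul_le_mul_of_nonneg_left hpq' hn0])
    have h2 : (p : ℝ) * w - (n + 1) * q + q = (p : ℝ) * w - n * q := by ring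
    rw [h2] at h1
    have hP : 0 ≤ ∏ i ∈ range n, (1 + (q : ℝ) / ((w : ℝ) - i)) := by
      apply prod_nonneg
      intro i hi
      have hi' : (i : ℝ) < w := by
        have := mem_range.1 hi
        have : i < w := by omega
        exact_mod_cast this
      have : 0 < (w : ℝ) - i := by linarith
      positivity
    rw [prod_range_succ]
    push_cast
    calc (∏ i ∈ range n, (1 + (q : ℝ) / ((w : ℝ) - i))) * (1 + (q : ℝ) / ((w : ℝ) - n)) *
          ((p : ℝ) * w - (n + 1) * q) ^ p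
        = (∏ i ∈ range n, (1 + (q : ℝ) / ((w : ℝ) - i))) * ((1 + (q : ℝ) / ((w : ℝ) - n)) *
          ((p : ℝ) * w - (n + 1) * q) ^ p) := by ring
      _ ≤ (∏ i ∈ range n, (1 + (q : ℝ) / ((w : ℝ) - i))) * ((p : ℝ) * w - n * q) ^ p :=
          mul_le_mul_of_nonneg_left h1 hP
      _ ≤ _ := h

/-- `hq w q d ≤ (1 - d/(p w))^{-p}` for `1 ≤ p ≤ q`. Write `d = n q + ρ`. Step 1, induction on `n`:
`(∏_{i<n} (1 + q/(w-i))) (p w - n q)^p ≤ (p w)^p` as long as `n q < p w`: one step multiplies the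
left side by `(1 + q/(w-n)) ((pw-(n+1)q)/(pw-nq))^p`, and
`((pw - nq)/(pw-(n+1)q))^p = (1 + q/(pw-(n+1)q))^p ≥ 1 + pq/(pw-(n+1)q) ≥ 1 + q/(w-n)` (Bernoulli,
`one_add_mul_le_pow`; the last step is `(n+1) q ≥ n p`). Step 2 (the fractional factor): the same with
`ρ` for the last `q`: `1 + pρ/(pw-d) ≥ 1 + ρ/(w-n)` because `d ≥ n q ≥ n p`. -/
theorem hq_pow (w q d p : ℕ) (hp : 1 ≤ p) (hpq : p ≤ q) (hd : d < p * w) :
    hq w q d * (1 - (d : ℝ) / ((p : ℝ) * w)) ^ p ≤ 1 := by
  have hdq : q * (d / q) + d % q = d := Nat.div_add_mod d q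
  set n := d / q with hn
  set ρ := d % q with hρ
  have hnq : n * q < p * w := by nlinarith
  have hwn : n < w := by
    by_contra hc
    push Not at hc
    have : p * w ≤ q * n := Nat.mul_le_mul hpq hc
    nlinarith
  have hB : (0 : ℝ) < (w : ℝ) - n := by
    have : (n : ℝ) < w := by exact_mod_cast hwn
    linarith
  have hw : (0 : ℝ) < w := by
    have : 0 < w := lt_of_le_of_lt (Nat.zero_le _) hwn
    exact_mod_cast this
  have hp0 : (0 : ℝ) < p := by exact_mod_cast hp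
  have hpw : (0 : ℝ) < (p : ℝ) * w := by positivity
  have hdR : (q : ℝ) * n + ρ = d := by exact_mod_cast hdq
  have hA : (0 : ℝ) < (p : ℝ) * w - d := by
    have : (d : ℝ) < p * w := by exact_mod_cast hd
    linarith
  have hpq' : (p : ℝ) ≤ q := by exact_mod_cast hpq
  have hn0 : (0 : ℝ) ≤ n := Nat.cast_nonneg _
  have hρ0 : (0 : ℝ) ≤ ρ := Nat.cast_nonneg _
  have h1 := hb3_step p ((p : ℝ) * w - d) ρ ((w : ℝ) - n) hA hρ0 hB (by
    nlinarith [mul_le_mul_of_nonneg_right hpq' hn0])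
  have h2 : (p : ℝ) * w - d + ρ = (p : ℝ) * w - n * q := by linarith
  rw [h2] at h1
  have hP : 0 ≤ ∏ i ∈ range n, (1 + (q : ℝ) / ((w : ℝ) - i)) := by
    apply prod_nonneg
    intro i hi
    have hi' : (i : ℝ) < w := by
      have := mem_range.1 hi
      have : i < w := by omega
      exact_mod_cast this
    have : 0 < (w : ℝ) - i := by linarith
    positivity
  have h3 : hq w q d * ((p : ℝ) * w - d) ^ p ≤ ((p : ℝ) * w) ^ p := by
    unfold hq
    rw [← hn, ← hρ]
    calc (∏ i ∈ range n, (1 + (q : ℝ) / ((w : ℝ) - i))) * (1 + (ρ : ℝ) / ((w : ℝ) - n)) *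
          ((p : ℝ) * w - d) ^ p
        = (∏ i ∈ range n, (1 + (q : ℝ) / ((w : ℝ) - i))) * ((1 + (ρ : ℝ) / ((w : ℝ) - n)) *
          ((p : ℝ) * w - d) ^ p) := by ring
      _ ≤ (∏ i ∈ range n, (1 + (q : ℝ) / ((w : ℝ) - i))) * ((p : ℝ) * w - n * q) ^ p :=
          mul_le_mul_of_nonneg_left h1 hP
      _ ≤ _ := hb3_prod w q p hpq n hnq
  have h4 : 1 - (d : ℝ) / ((p : ℝ) * w) = ((p : ℝ) * w - d) / ((p : ℝ) * w) := by
    field_simp
  rw [h4, div_pow, ← mul_div_assoc, div_le_one (by positivity)]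
  exact h3

end Pool.Agent.LRQ
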