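import Mathlib
import Pool.Agent.LRQ.Num
import Pool.Agent.LRT.F3

set_option autoImplicit false

/-! # [LRQ-TA] lower bounds for `T` -/

namespace Pool.Agent.LRQ

open Finset
open Pool.Agent.LRE Pool.Agent.LRT

/-- division by `hh r w` -/
theorem ta_div {w r d : ℕ} {T y : ℝ} (h : TT w r d T) {c : ℕ} (h1 : 1 ≤ c) (h2 : c ≤ w + r)
    (h3 : r * w ≤ c * (w + r - c) + d) (h4 : hh r (w : ℝ) * y ≤ NN c (r * w - d)) : y ≤ T := by
  have h5 := h c h1 h2 h3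
  have h6 : 0 < hh r (w : ℝ) := hh_pos r (Nat.cast_nonneg w)
  have h7 : hh r (w : ℝ) * y ≤ hh r (w : ℝ) * T := by
    rw [mul_comm (hh r (w : ℝ)) T]
    exact h4.trans h5
  exact le_of_mul_le_mul_left h7 h6

/-- `hh h (r+1) = hh (h+1) r * ((r+1)/(h+1))` -/
theorem ta_swap (h r : ℕ) :
    hh h ((r + 1 : ℕ) : ℝ) = hh (h + 1) (r : ℝ) * (((r : ℝ) + 1) / ((h : ℝ) + 1)) := by
  rw [hh_nat_succ, hh_succ]
  have h1 : (r : ℝ) + h + 1 ≠ 0 := by positivity
  have h2 : (r : ℝ) + ((h : ℝ) + 1) ≠ 0 := by positivity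
  have h3 : (h : ℝ) + 1 ≠ 0 := by positivity
  field_simp
  ring

/-- `hh (r - j) (w + j) = hh r w * GG w r j` -/
theorem ta_GG (w r j : ℕ) (hj : j ≤ r) :
    hh (r - j) ((w + j : ℕ) : ℝ) = hh r (w : ℝ) * GG w r j := by
  induction j with
  | zero => simp [GG]
  | succ j ih =>
    have i1 := ih (by omega)
    obtain ⟨m, hm⟩ : ∃ m, r - j = m + 1 := ⟨r - j - 1, by omega⟩
    have e1 : r - (j + 1) = m := by omega
    have e2 : (r : ℝ) - j = (m : ℝ) + 1 := by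
      have : r = m + 1 + j := by omega
      rw [this]
      push_cast
      ring
    have e3 : w + (j + 1) = (w + j) + 1 := by omega
    rw [hm] at i1
    rw [e1, e3, ta_swap m (w + j), i1]
    unfold GG
    rw [prod_range_succ, e2]
    push_cast
    ring

/-- `c = w` in `TT`; `NN_ge_rect w r (r*w-d)`: `hh w r ≤ NN w (r*w-d)`, `hh_symm`, divide by
`hh r w > 0`. -/
theorem TT_one (w r d : ℕ) (T : ℝ) (h : TT w r d T) (hr : 1 ≤ r) (hrw : r ≤ w) (hd : d < w) :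
    1 ≤ T := by
  have e1 : w + r - w = r := by omega
  refine ta_div h (c := w) (by omega) (by omega) (by rw [e1, mul_comm r w]; exact Nat.le_add_right _ _) ?_
  rw [mul_one, ← hh_symm w r]
  refine NN_ge_rect w r _ (by omega) ?_
  rw [mul_comm w r]
  exact Nat.sub_le _ _

/-- `c = r` in `TT`: `r*w - d ≤ r*(w-1)`, `NN_ge_rect r (w-1) (r*w-d)`,
`hh r (w-1) = hh r w (1 + r/w)` (`f3_step` in LRT/F3.lean). -/
theorem TT_r (w r d : ℕ) (T : ℝ) (h : TT w r d T) (hr : 1 ≤ r) (hrw : r ≤ w) (hd : d < w)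
    (hrd : r ≤ d) : 1 + (r : ℝ) / w ≤ T := by
  have e1 : w + r - r = w := by omega
  obtain ⟨v, rfl⟩ : ∃ v, w = v + 1 := ⟨w - 1, by omega⟩
  refine ta_div h (c := r) hr (by omega) (by rw [e1]; exact Nat.le_add_right _ _) ?_
  have h1 := f3_step r v
  have e2 : (((v + 1 : ℕ)) : ℝ) = (v : ℝ) + 1 := by push_cast; ring
  rw [← e2] at h1
  rw [← h1]
  refine NN_ge_rect r v _ hr ?_
  rw [Nat.mul_succ]
  omega

/-- `c = r - j` in `TT`: `(r-j)(w+j) = r w - j (w-r+j) ≥ r w - d`, `NN_ge_rect (r-j) (w+j)`, and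
`hh (r-j) (w+j) = hh r w * GG w r j` (induction on `j`; `hh (n+1) b = hh n b (n+1)/(b+n+1)` and
`hh n (b+1) = hh n b (b+1)/(b+n+1)`). -/
theorem TT_GG (w r d j : ℕ) (T : ℝ) (h : TT w r d T) (hj : j < r) (hrw : r ≤ w) (hd : d < w)
    (hjd : j * (w - r + j) ≤ d) : GG w r j ≤ T := by
  have e1 : w + r - (r - j) = w + j := by omega
  have e2 : r * w ≤ (r - j) * (w + j) + d := by
    obtain ⟨m, rfl⟩ : ∃ m, r = j + m := ⟨r - j, by omega⟩
    obtain ⟨n, rfl⟩ : ∃ n, w = j + m + n := ⟨w - (j + m), by omega⟩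
    have e3 : j + m - j = m := by omega
    have e4 : j + m + n - (j + m) + j = n + j := by omega
    rw [e4] at hjd
    rw [e3]
    nlinarith
  refine ta_div h (c := r - j) (by omega) (by omega) (by rw [e1]; exact e2) ?_
  rw [← ta_GG w r j hj.le]
  refine NN_ge_rect (r - j) (w + j) _ (by omega) ?_
  omega

/-- `c = r - 1` in `TT` (`r ≥ 2`): `(r-1)(w+1) ≥ r w - d`. With `e = d+r-w-1 ≤ r-2`:
`r w - d = (r-1)(w+1) - e`, `NN_near (r-1) (w+1) e`:
`NN (r-1) (r w - d) = hh (r-1) (w+1) (1 + gq (r-1) e/(w+1))`, `gq (r-1) e = e/(r-e)`,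
`r - e = w+1-d`, `hh (r-1) (w+1) = hh r w (w+1)/r`. So
`T ≥ (w+1)/r + e/(r(w+1-d)) = ((w+1)(w-d)+d+r)/(r(w+1-d))`. -/
theorem TT_T2 (w r d : ℕ) (T : ℝ) (h : TT w r d T) (hr : 2 ≤ r) (hrw : r ≤ w) (hd : d < w)
    (hg : w - r + 1 ≤ d) :
    (((w : ℝ) + 1) * (w - d) + d + r) / ((r : ℝ) * (w + 1 - d)) ≤ T := by
  obtain ⟨m, rfl⟩ : ∃ m, r = m + 1 := ⟨r - 1, by omega⟩
  obtain ⟨e, he⟩ : ∃ e, d + (m + 1) = w + 1 + e := ⟨d + (m + 1) - (w + 1), by omega⟩
  have e1 : w + (m + 1) - m = w + 1 := by omega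
  have e2 : (m + 1) * w - d = m * (w + 1) - e := by
    rw [Nat.succ_mul, Nat.mul_succ]
    omega
  refine ta_div h (c := m) (by omega) (by omega) (by
    rw [e1, Nat.succ_mul, Nat.mul_succ]
    omega) ?_
  rw [e2, NN_near m (w + 1) e (by omega) (by omega), ta_swap m w]
  have h1 : (0 : ℝ) < (m : ℝ) + 1 := by positivity
  have h2 : (0 : ℝ) < (w : ℝ) + 1 - d := by
    have : (d : ℝ) < w := by exact_mod_cast hd
    linarith
  have h3 : (m : ℝ) + 1 - e = (w : ℝ) + 1 - d := by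
    have h4 : (d : ℝ) + (m + 1) = w + 1 + e := by exact_mod_cast he
    linarith
  have h5 : (e : ℝ) = (d : ℝ) + (m + 1) - (w + 1) := by
    have h4 : (d : ℝ) + (m + 1) = w + 1 + e := by exact_mod_cast he
    linarith
  have h6 : (0 : ℝ) < (w : ℝ) + 1 := by positivity
  apply le_of_eq
  unfold gq
  rw [h3, h5, mul_assoc]
  congr 1
  push_cast
  field_simp
  ring

end Pool.Agent.LRQ
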