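import Mathlib
import Pool.Agent.LRQ.HB3
import Pool.Agent.LRQ.TA
import Pool.Agent.LRQ.FIN0

set_option autoImplicit false

/-! # [LRQ-I0] region I (`d ≤ r - 1`, `2d ≤ w`): one short row, numbers -/

namespace Pool.Agent.LRQ

open Finset
open Pool.Agent.LRE Pool.Agent.LRT

/-- `D = d + 1`, `h = hq w q D`. The claim is `(h-1)(V+2r+1) ≤ (a+1)(V+1)`, `V = w - D/q`.
* `D ≤ q`: `h = 1 + D/w` (also for `D = q`), `V ≥ w - 1`, `r ≤ w`, `r = a + q`;
  `D(V+2r+1) ≤ w(a+1)(V+1)`: `D ≤ w/2 + 1`, `V + 2r + 1 ≤ V + 2w + 1 ≤ 3(V+1)`, `a + 1 ≥ 2`.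
* `D > q`, `D = q + e`, `e ≥ 1`: `hq_pow` with `p = 2` and `1 - D/(2w) ≥ 3/4 - 1/(2w) ≥ 0.725` give
  `h - 1 ≤ 0.9025`. `a + 1 = r - q + 1`, `r ≥ D`; the claim is linear in `r` with slope
  `V + 1 - 2(h-1) ≥ 0`, so `r = D`: `0.9025 (V+2D+1) ≤ (e+1)(V+1)`, `V + 1 = w - e/q`,
  `2D ≤ w + 2`. `e = 1`: `1.805 w + 1.805 ≤ 2w - 1` (`w ≥ 20`); `e ≥ 2`: `e/q ≤ w/4 - 1/2`, and
  `0.9025 (2w+2) ≤ 3 (3w/4 + 1/2)`. -/
theorem I0_big (w r d a q : ℕ) (V : ℝ) (hw : 20 ≤ w) (ha : 1 ≤ a) (hq2 : 2 ≤ q)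
    (har : a + q = r) (hrw : r ≤ w) (hdr : d + 1 ≤ r) (hd2 : 2 * d ≤ w)
    (hV : (q : ℝ) * V + ((d : ℝ) + 1) = q * w) :
    (V + 2 * r + 1) * (a + hq w q (d + 1)) ≤ 2 * (V + r + 1) * ((a : ℝ) + 1) := by
  have hw' : (20 : ℝ) ≤ w := by exact_mod_cast hw
  have ha' : (1 : ℝ) ≤ a := by exact_mod_cast ha
  have hq0 : (2 : ℝ) ≤ q := by exact_mod_cast hq2
  have har' : (a : ℝ) + q = r := by exact_mod_cast har
  have hrw' : (r : ℝ) ≤ w := by exact_mod_cast hrw
  have hdr' : (d : ℝ) + 1 ≤ r := by exact_mod_cast hdr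
  have hd2' : 2 * (d : ℝ) ≤ w := by exact_mod_cast hd2
  have hd0 : (0 : ℝ) ≤ d := Nat.cast_nonneg _
  suffices hs : (hq w q (d + 1) - 1) * (V + 1 + 2 * r) ≤ ((a : ℝ) + 1) * (V + 1) by
    nlinarith
  rcases Nat.lt_or_ge q (d + 1) with hlt | hge
  · -- `D > q`
    have hlt' : (q : ℝ) + 1 ≤ (d : ℝ) + 1 := by exact_mod_cast hlt
    obtain ⟨e, he⟩ : ∃ e : ℕ, d + 1 = q + e := ⟨d + 1 - q, by omega⟩
    have he1 : 1 ≤ e := by omega
    have he' : (d : ℝ) + 1 = q + e := by exact_mod_cast he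
    have hpow := hq_pow w q (d + 1) 2 (by norm_num) hq2 (by omega)
    push_cast at hpow
    have hw0 : (0 : ℝ) < w := by linarith
    have h1 : (0.725 : ℝ) ≤ 1 - ((d : ℝ) + 1) / (2 * w) := by
      have : ((d : ℝ) + 1) / (2 * w) ≤ 0.275 := by
        rw [div_le_iff₀ (by linarith)]
        linarith
      linarith
    have h2 : (0.525625 : ℝ) ≤ (1 - ((d : ℝ) + 1) / (2 * w)) ^ 2 := by nlinarith
    have h3 : hq w q (d + 1) - 1 ≤ 0.9025 := by
      by_contra hc
      push Not at hc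
      have h4 : (1.9025 : ℝ) < hq w q (d + 1) := by linarith
      have h5 : (1.9025 : ℝ) * 0.525625 ≤
          hq w q (d + 1) * (1 - ((d : ℝ) + 1) / (2 * w)) ^ 2 :=
        mul_le_mul h4.le h2 (by norm_num) (by linarith)
      norm_num at h5 hpow
      linarith
    -- `V + 1 = w - e/q`
    have hU : (q : ℝ) * (V + 1) = q * w - e := by
      have : (q : ℝ) * (V + 1) = q * V + q := by ring
      rw [this]
      linarith
    have he0 : (1 : ℝ) ≤ e := by exact_mod_cast he1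
    have hU1 : (w : ℝ) - e / 2 ≤ V + 1 := by
      have : (q : ℝ) * (w - e / 2) ≤ q * (V + 1) := by
        rw [hU]
        nlinarith
      exact le_of_mul_le_mul_left this (by linarith)
    have heD : (e : ℝ) ≤ w / 2 - 1 := by linarith
    have hU2 : 3 / 4 * (w : ℝ) + 1 / 2 ≤ V + 1 := by linarith
    have hU3 : (0 : ℝ) ≤ V + 1 + 2 * r := by
      have : (0 : ℝ) ≤ r := Nat.cast_nonneg _
      linarith
    have h6 : (hq w q (d + 1) - 1) * (V + 1 + 2 * r) ≤ 0.9025 * (V + 1 + 2 * r) :=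
      mul_le_mul_of_nonneg_right h3 hU3
    refine le_trans h6 ?_
    obtain ⟨t, ht⟩ : ∃ t : ℝ, (r : ℝ) = d + 1 + t := ⟨r - (d + 1), by ring⟩
    have ht0 : 0 ≤ t := by linarith
    have hae : (a : ℝ) + 1 = e + 1 + t := by linarith
    rw [hae]
    have htU : (1.805 : ℝ) * t ≤ (V + 1) * t := mul_le_mul_of_nonneg_right (by linarith) ht0
    have hmain : 0.9025 * (V + 1 + 2 * ((d : ℝ) + 1)) ≤ ((e : ℝ) + 1) * (V + 1) := by
      rcases Nat.lt_or_ge e 2 with h2e | h2e
      · have : e = 1 := by omega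
        subst this
        push_cast at hU1 ⊢
        linarith
      · have : (2 : ℝ) ≤ e := by exact_mod_cast h2e
        have h7 : 3 * (V + 1) ≤ ((e : ℝ) + 1) * (V + 1) :=
          mul_le_mul_of_nonneg_right (by linarith) (by linarith)
        linarith
    rw [ht]
    nlinarith
  · -- `D ≤ q`
    have hge' : (d : ℝ) + 1 ≤ q := by exact_mod_cast hge
    have hw0 : (w : ℝ) ≠ 0 := by
      have : (0 : ℝ) < w := by linarith
      exact this.ne'
    have hval : hq w q (d + 1) = 1 + ((d : ℝ) + 1) / w := by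
      unfold hq
      rcases Nat.lt_or_ge (d + 1) q with h | h
      · rw [Nat.div_eq_of_lt h, Nat.mod_eq_of_lt h]
        simp
      · have hd : d + 1 = q := by omega
        have e1 : (d + 1) / q = 1 := by
          rw [hd]
          exact Nat.div_self (by omega)
        have e2 : (d + 1) % q = 0 := by
          rw [hd]
          exact Nat.mod_self _
        have hdr : (q : ℝ) = d + 1 := by
          rw [← hd]
          push_cast
          ring
        rw [e1, e2, hdr]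
        simp
    have hV1 : (w : ℝ) - 1 ≤ V := by
      have : (q : ℝ) * (w - 1) ≤ q * V := by nlinarith
      exact le_of_mul_le_mul_left this (by linarith)
    rw [hval]
    have h1 : (1 + ((d : ℝ) + 1) / w - 1) * (V + 1 + 2 * r) =
        (((d : ℝ) + 1) * (V + 1 + 2 * r)) / w := by
      field_simp
      ring
    rw [h1, div_le_iff₀ (by linarith)]
    have h2 : V + 1 + 2 * (r : ℝ) ≤ 3 * (V + 1) := by linarith
    have h3 : ((d : ℝ) + 1) * (V + 1 + 2 * r) ≤ ((d : ℝ) + 1) * (3 * (V + 1)) :=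
      mul_le_mul_of_nonneg_left h2 (by linarith)
    have h4 : 3 * ((d : ℝ) + 1) ≤ ((a : ℝ) + 1) * w := by nlinarith
    have h5 : 3 * ((d : ℝ) + 1) * (V + 1) ≤ ((a : ℝ) + 1) * w * (V + 1) :=
      mul_le_mul_of_nonneg_right h4 (by linarith)
    nlinarith

/-- The same with `GG w r J`, in natural numbers (`q V = q w - d - 1`). -/
def i0OK (w r a d : ℕ) : Bool :=
  decide (((r - a) * w - (d + 1) + (r - a) * (2 * r + 1)) *
      (a * hqD w (r - a) (d + 1) + hqN w (r - a) (d + 1)) * GGD r (JJ (w - r) d 7) ≤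
    2 * ((r - a) * w - (d + 1) + (r - a) * (r + 1)) * (a + 1) * hqD w (r - a) (d + 1) *
      GGN w (JJ (w - r) d 7))

/-- Kernel computation (`decide +kernel`; checked by program: true). -/
theorem i0_fin (w r a d : ℕ) (hw : w ≤ 19) (ha : 1 ≤ a) (har : a + 2 ≤ r) (hrw : r ≤ w)
    (h3 : w < 3 * r) (hdr : d + 1 ≤ r) (hd2 : 2 * d ≤ w) : i0OK w r a d = true := by
  have key : ((List.range 20).all (fun w => (List.range (w + 1)).all (fun r =>
      (List.range r).all (fun a => (List.range r).all (fun d =>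
        !(decide (w < 3 * r) && decide (1 ≤ a) && decide (a + 2 ≤ r) && decide (2 * d ≤ w)) ||
          i0OK w r a d))))) = true := by
    decide +kernel
  rw [List.all_eq_true] at key
  have k1 := key w (List.mem_range.mpr (by omega))
  rw [List.all_eq_true] at k1
  have k2 := k1 r (List.mem_range.mpr (by omega))
  rw [List.all_eq_true] at k2
  have k3 := k2 a (List.mem_range.mpr (by omega))
  rw [List.all_eq_true] at k3
  have k4 := k3 d (List.mem_range.mpr (by omega))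
  have g : (decide (w < 3 * r) && decide (1 ≤ a) && decide (a + 2 ≤ r) && decide (2 * d ≤ w)) =
      true := by
    simp only [Bool.and_eq_true, decide_eq_true_eq]
    exact ⟨⟨⟨h3, ha⟩, har⟩, hd2⟩
  rw [g] at k4
  simpa using k4

/-- `w ≥ 20`: `I0_big` and `TT_one`. `w ≤ 19`: `i0_fin`, `hq_eq` (`(d+1)/q < w`), `GG_eq`, `TT_GG`,
`JJ_le` (`J < r` because `r (w-r+r) > d`). -/
theorem I0_num (w r d a q : ℕ) (V T : ℝ) (h : TT w r d T) (ha : 1 ≤ a) (hq2 : 2 ≤ q)
    (har : a + q = r) (hrw : r ≤ w) (h3 : w < 3 * r) (hdr : d + 1 ≤ r) (hd2 : 2 * d ≤ w)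
    (hV : (q : ℝ) * V + ((d : ℝ) + 1) = q * w) :
    (V + 2 * r + 1) * (a + hq w q (d + 1)) ≤ 2 * (V + r + 1) * (((a : ℝ) + 1) * T) := by
  have ha' : (1 : ℝ) ≤ a := by exact_mod_cast ha
  have hq0 : (2 : ℝ) ≤ q := by exact_mod_cast hq2
  have hrw' : (r : ℝ) ≤ w := by exact_mod_cast hrw
  have hdr' : (d : ℝ) + 1 ≤ r := by exact_mod_cast hdr
  have hr0 : (0 : ℝ) ≤ r := Nat.cast_nonneg _
  have hVpos : 0 ≤ V := by
    have : (q : ℝ) * 0 ≤ q * V := by nlinarith
    exact le_of_mul_le_mul_left this (by linarith)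
  rcases Nat.lt_or_ge w 20 with hw | hw
  · have hfin := i0_fin w r a d (by omega) ha (by omega) hrw h3 hdr hd2
    unfold i0OK at hfin
    have hfin := of_decide_eq_true hfin
    have hra : r - a = q := by omega
    rw [hra] at hfin
    obtain ⟨J, hJ⟩ : ∃ J : ℕ, J = JJ (w - r) d 7 := ⟨_, rfl⟩
    rw [← hJ] at hfin
    have hJd : J * (w - r + J) ≤ d := by
      rw [hJ]
      exact JJ_le _ _ _
    have hJr : J < r := by
      by_contra hc
      push Not at hc
      have h1 : r * w ≤ J * (w - r + J) := Nat.mul_le_mul hc (by omega)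
      have h2 : 1 * w ≤ r * w := Nat.mul_le_mul (by omega) le_rfl
      omega
    have hdq : (d + 1) / q < w := by
      rw [Nat.div_lt_iff_lt_mul (by omega)]
      have : w * 2 ≤ w * q := Nat.mul_le_mul le_rfl hq2
      omega
    have hGT := TT_GG w r d J T h hJr hrw (by omega) hJd
    rw [GG_eq w r J hJr.le] at hGT
    have hD0 : (0 : ℝ) < hqD w q (d + 1) := by exact_mod_cast hqD_pos w q (d + 1) hdq
    have hG0 : (0 : ℝ) < GGD r J := by exact_mod_cast GGD_pos r J hJr.le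
    rw [hq_eq w q (d + 1) hdq]
    have hle : d + 1 ≤ q * w := by
      have : 2 * w ≤ q * w := Nat.mul_le_mul hq2 le_rfl
      omega
    have hcast : (((q * w - (d + 1) + q * (2 * r + 1)) *
        (a * hqD w q (d + 1) + hqN w q (d + 1)) * GGD r J : ℕ) : ℝ) ≤
        ((2 * (q * w - (d + 1) + q * (r + 1)) * (a + 1) * hqD w q (d + 1) * GGN w J : ℕ) : ℝ) := by
      exact_mod_cast hfin
    rw [Nat.cast_mul, Nat.cast_mul, Nat.cast_add, Nat.cast_sub hle] at hcast
    rw [Nat.cast_mul _ (GGN w J), Nat.cast_mul _ (hqD w q (d + 1)), Nat.cast_mul _ (a + 1),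
      Nat.cast_mul 2, Nat.cast_add (q * w - (d + 1)), Nat.cast_sub hle] at hcast
    push_cast at hcast
    have e1 : (q : ℝ) * w - (d + 1) + q * (2 * r + 1) = q * (V + 2 * r + 1) := by
      rw [← hV]
      ring
    have e2 : (q : ℝ) * w - (d + 1) + q * (r + 1) = q * (V + r + 1) := by
      rw [← hV]
      ring
    rw [e1, e2] at hcast
    have hcast2 : (V + 2 * r + 1) * (a * hqD w q (d + 1) + hqN w q (d + 1)) * GGD r J ≤
        2 * (V + r + 1) * (a + 1) * hqD w q (d + 1) * GGN w J := by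
      have hq1 : (0 : ℝ) < q := by linarith
      refine le_of_mul_le_mul_left ?_ hq1
      nlinarith [hcast]
    have e3 : (V + 2 * r + 1) * (a + (hqN w q (d + 1) : ℝ) / hqD w q (d + 1)) =
        ((V + 2 * r + 1) * (a * hqD w q (d + 1) + hqN w q (d + 1)) * GGD r J) /
          (hqD w q (d + 1) * GGD r J) := by
      field_simp
    have e4 : (2 * (V + r + 1) * (a + 1) * hqD w q (d + 1) * GGN w J) /
          (hqD w q (d + 1) * GGD r J) =
        2 * (V + r + 1) * (((a : ℝ) + 1) * ((GGN w J : ℝ) / GGD r J)) := by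
      field_simp
    rw [e3]
    refine le_trans (div_le_div_of_nonneg_right hcast2 (by positivity)) ?_
    rw [e4]
    exact mul_le_mul_of_nonneg_left (mul_le_mul_of_nonneg_left hGT (by linarith)) (by linarith)
  · have h1 := I0_big w r d a q V hw ha hq2 har hrw hdr hd2 hV
    have hT := TT_one w r d T h (by omega) hrw (by omega)
    refine le_trans h1 ?_
    refine mul_le_mul_of_nonneg_left ?_ (by linarith)
    nlinarith

end Pool.Agent.LRQ
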