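import Mathlib

set_option autoImplicit false

/-! # [LRQ-I1A] region I, one additional middle row, many rows (`4c ≥ 3w`): polynomials -/

namespace Pool.Agent.LRQ

/-- `D = w + d`. Put `c = 3d + 3y + z`, `w = 4d + 4y + z` (`y = w-c-d ≥ 0`, `z = 4c - 3w ≥ 0`). The
difference (right minus left) is a polynomial in `d, y, z`; replace each negative monomial `-N` by
`-N (w/10)` (smaller, because `w ≥ 10`), first in the lowest degree, then in the next one, and so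
on: at the end all coefficients are `≥ 0`. So the difference is a combination
`P + (w/10 - 1) N₁ + …` with nonnegative coefficients (compute it with a small script). -/
theorem i1a_one (w c d : ℝ) (hw : 10 ≤ w) (hd : 0 ≤ d) (hdc : d ≤ w - c) (hc : 3 * w ≤ 4 * c) :
    (w + c) * (w - 1 + (w + d) - c) * c * (w + c + 1) ≤
      w * (w - 1) * (c * (2 * w + c + 1) + (w + d) * (w + c)) := by
  obtain ⟨y, hy⟩ : ∃ y, y = w - c - d := ⟨_, rfl⟩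
  obtain ⟨z, hz⟩ : ∃ z, z = 4 * c - 3 * w := ⟨_, rfl⟩
  have hy0 : 0 ≤ y := by linarith
  have hz0 : 0 ≤ z := by linarith
  have hw' : w = 4 * d + 4 * y + z := by linarith
  have hc' : c = 3 * d + 3 * y + z := by linarith
  clear hy hz hdc hc
  subst hw' hc'
  have hP : 0 ≤ 624 / 5 * d ^ 4 + 2769 / 5 * d ^ 3 * y + 1139 / 10 * d ^ 3 * z
         + 4563 / 5 * d ^ 2 * y ^ 2 + 2014 / 5 * d ^ 2 * y * z + 222 / 5 * d ^ 2 * z ^ 2
         + 663 * d * y ^ 3 + 4639 / 10 * d * y ^ 2 * z + 551 / 5 * d * y * z ^ 2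
         + 91 / 10 * d * z ^ 3 + 897 / 5 * y ^ 4 + 175 * y ^ 3 * z + 329 / 5 * y ^ 2 * z ^ 2
         + 23 / 2 * y * z ^ 3 + 4 / 5 * z ^ 4 + 9 * d ^ 2 + 18 * d * y + 6 * d * z + 9 * y ^ 2
         + 6 * y * z + 1 * z ^ 2 := by positivity
  have hN : 0 ≤ 203 * d ^ 3 + 560 * d ^ 2 * y + 142 * d ^ 2 * z + 511 * d * y ^ 2 + 256 * d * y * z
         + 31 * d * z ^ 2 + 154 * y ^ 3 + 114 * y ^ 2 * z + 27 * y * z ^ 2 + 2 * z ^ 3 := by positivity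
  have hM := mul_nonneg (show 0 ≤ (4 * d + 4 * y + z) / 10 - 1 by linarith) hN
  refine sub_nonneg.1 ((add_nonneg hP hM).trans (le_of_eq ?_))
  ring

/-- `D = w + d`, `y = w - c`, `0 ≤ 4y ≤ w`, `0 ≤ 2d ≤ w`. Case `2y ≤ d`: `d = 2y + s`,
`w = 4y + 2s + m`, `c = w - y`, variables `y, s, m ≥ 0`. Case `d ≤ 2y`: `y = (d+s)/2`,
`w = 2d + 2s + z`, `c = w - y`, variables `d, s, z ≥ 0`. In both cases the same procedure as in
`i1a_one` (with `w ≥ 10`) leads to nonnegative coefficients. -/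
theorem i1a_two (w c d : ℝ) (hw : 10 ≤ w) (hd : 0 ≤ d) (hd2 : 2 * d ≤ w) (hcw : c ≤ w)
    (hc : 3 * w ≤ 4 * c) :
    (w + c) * (w - 1 + (w + d) - c) * c * (w + c + 1) * (2 * w + 3 - d) ≤
      w * (w - 1) * (2 * (w + 1) * ((w + d) + c) * (w + c + 1) +
        (c * w - (w + d)) * (2 * w + 3 - d)) := by
  obtain ⟨y, hy⟩ : ∃ y, y = w - c := ⟨_, rfl⟩
  have hy0 : 0 ≤ y := by linarith
  have hc' : c = w - y := by linarith
  have hy4 : 4 * y ≤ w := by linarith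
  clear hy hcw hc
  subst hc'
  rcases le_total (2 * y) d with h | h
  · obtain ⟨s, hs⟩ : ∃ s, s = d - 2 * y := ⟨_, rfl⟩
    obtain ⟨m, hm⟩ : ∃ m, m = w - 2 * d := ⟨_, rfl⟩
    have hs0 : 0 ≤ s := by linarith
    have hm0 : 0 ≤ m := by linarith
    have hd' : d = 2 * y + s := by linarith
    have hw' : w = 4 * y + 2 * s + m := by linarith
    clear hs hm h hd2 hy4
    subst hd' hw'
    have hP : 0 ≤ 51156 / 25 * y ^ 5 + 23318 / 5 * y ^ 4 * s + 99977 / 50 * y ^ 4 * m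
         + 105188 / 25 * y ^ 3 * s ^ 2 + 178941 / 50 * y ^ 3 * s * m
         + 38891 / 50 * y ^ 3 * m ^ 2 + 9417 / 5 * y ^ 2 * s ^ 3
         + 119681 / 50 * y ^ 2 * s ^ 2 * m + 52669 / 50 * y ^ 2 * s * m ^ 2
         + 16371 / 100 * y ^ 2 * m ^ 3 + 10514 / 25 * y * s ^ 4 + 17904 / 25 * y * s ^ 3 * m
         + 24329 / 50 * y * s ^ 2 * m ^ 2 + 7987 / 50 * y * s * m ^ 3 + 1073 / 50 * y * m ^ 4
         + 946 / 25 * s ^ 5 + 411 / 5 * s ^ 4 * m + 3919 / 50 * s ^ 3 * m ^ 2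
         + 4157 / 100 * s ^ 2 * m ^ 3 + 603 / 50 * s * m ^ 4 + 37 / 25 * m ^ 5 + 63 * y ^ 2
         + 74 * y * s + 35 * y * m + 22 * s ^ 2 + 21 * s * m + 5 * m ^ 2 := by positivity
    have hN : 0 ≤ 12447 / 5 * y ^ 4 + 27369 / 5 * y ^ 3 * s + 12519 / 5 * y ^ 3 * m
         + 22309 / 5 * y ^ 2 * s ^ 2 + 20088 / 5 * y ^ 2 * s * m + 1769 / 2 * y ^ 2 * m ^ 2
         + 7978 / 5 * y * s ^ 3 + 10571 / 5 * y * s ^ 2 * m + 4537 / 5 * y * s * m ^ 2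
         + 623 / 5 * y * m ^ 3 + 1054 / 5 * s ^ 4 + 1818 / 5 * s ^ 3 * m
         + 2263 / 10 * s ^ 2 * m ^ 2 + 59 * s * m ^ 3 + 26 / 5 * m ^ 4 + 666 * y ^ 3
         + 994 * y ^ 2 * s + 403 * y ^ 2 * m + 480 * y * s ^ 2 + 374 * y * s * m
         + 68 * y * m ^ 2 + 74 * s ^ 3 + 81 * s ^ 2 * m + 26 * s * m ^ 2 + 2 * m ^ 3 := by positivity
    have hM := mul_nonneg (show 0 ≤ (4 * y + 2 * s + m) / 10 - 1 by linarith) hN
    refine sub_nonneg.1 ((add_nonneg hP hM).trans (le_of_eq ?_))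
    ring
  · obtain ⟨s, hs⟩ : ∃ s, s = 2 * y - d := ⟨_, rfl⟩
    obtain ⟨z, hz⟩ : ∃ z, z = w - 4 * y := ⟨_, rfl⟩
    have hs0 : 0 ≤ s := by linarith
    have hz0 : 0 ≤ z := by linarith
    have hy' : y = (d + s) / 2 := by linarith
    have hw' : w = 2 * d + 2 * s + z := by linarith
    clear hs hz h hd2 hy4
    subst hy' hw'
    have hP : 0 ≤ 12789 / 200 * d ^ 5 + 111277 / 400 * d ^ 4 * s + 99977 / 800 * d ^ 4 * z
         + 98693 / 200 * d ^ 3 * s ^ 2 + 176577 / 400 * d ^ 3 * s * z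
         + 38891 / 400 * d ^ 3 * z ^ 2 + 45069 / 100 * d ^ 2 * s ^ 3
         + 122131 / 200 * d ^ 2 * s ^ 2 * z + 109561 / 400 * d ^ 2 * s * z ^ 2
         + 16371 / 400 * d ^ 2 * z ^ 3 + 21403 / 100 * d * s ^ 4 + 158747 / 400 * d * s ^ 3 * z
         + 22217 / 80 * d * s ^ 2 * z ^ 2 + 3513 / 40 * d * s * z ^ 3 + 1073 / 100 * d * z ^ 4
         + 17023 / 400 * s ^ 5 + 82147 / 800 * s ^ 4 * z + 8083 / 80 * s ^ 3 * z ^ 2
         + 819 / 16 * s ^ 2 * z ^ 3 + 1347 / 100 * s * z ^ 4 + 37 / 25 * z ^ 5 + 63 / 4 * d ^ 2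
         + 59 / 2 * d * s + 35 / 2 * d * z + 55 / 4 * s ^ 2 + 33 / 2 * s * z + 5 * z ^ 2 := by positivity
    have hN : 0 ≤ 12447 / 80 * d ^ 4 + 22563 / 40 * d ^ 3 * s + 12519 / 40 * d ^ 3 * z
         + 14997 / 20 * d ^ 2 * s ^ 2 + 32761 / 40 * d ^ 2 * s * z + 1769 / 8 * d ^ 2 * z ^ 2
         + 17193 / 40 * d * s ^ 3 + 27561 / 40 * d * s ^ 2 * z + 7247 / 20 * d * s * z ^ 2
         + 623 / 10 * d * z ^ 3 + 7077 / 80 * s ^ 4 + 7319 / 40 * s ^ 3 * z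
         + 5533 / 40 * s ^ 2 * z ^ 2 + 449 / 10 * s * z ^ 3 + 26 / 5 * z ^ 4 + 333 / 4 * d ^ 3
         + 811 / 4 * d ^ 2 * s + 403 / 4 * d ^ 2 * z + 631 / 4 * d * s ^ 2 + 301 / 2 * d * s * z
         + 34 * d * z ^ 2 + 153 / 4 * s ^ 3 + 203 / 4 * s ^ 2 * z + 20 * s * z ^ 2 + 2 * z ^ 3 := by positivity
    have hM := mul_nonneg (show 0 ≤ (2 * d + 2 * s + z) / 10 - 1 by linarith) hN
    refine sub_nonneg.1 ((add_nonneg hP hM).trans (le_of_eq ?_))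
    ring

end Pool.Agent.LRQ
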