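import Mathlib

set_option autoImplicit false

/-! # [LRQ-I1B] region I, one additional middle row, `2w < 5c`, `4c < 3w`, `w ≥ 41`: polynomials -/

namespace Pool.Agent.LRQ

/-- In all three statements: substitute as indicated; the difference (right minus left) is a
polynomial in the new variables (all `≥ 0`). Replace each negative monomial `-N` by `-N (w/41)`
(smaller, because `w ≥ 41`), first in the lowest degree, then in the next one, and so on: at the end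
all coefficients are `≥ 0` (checked by program). So the difference is `P + (w/41 - 1) N₁ + …` with
nonnegative coefficients (compute it with a small script).
Here: `u = D - w`, `s = 2c - D`, `v = 3w - 4c`: `w = 2u+2s+v`, `c = (3u+3s+v)/2`, `D = 3u+2s+v`. -/
theorem i1b_one (w c D : ℝ) (hw : 41 ≤ w) (h1 : w ≤ D) (h2 : D ≤ 2 * c) (h3 : 4 * c ≤ 3 * w) :
    (w + c) * (w - 1 + D - c) * c * (w + c + 1) ≤
      w * (w - 1) * (c * (2 * w + c + 1) + D * (w + c)) := by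
  obtain ⟨u, hu⟩ : ∃ u, u = D - w := ⟨_, rfl⟩
  obtain ⟨s, hs⟩ : ∃ s, s = 2 * c - D := ⟨_, rfl⟩
  obtain ⟨v, hv⟩ : ∃ v, v = 3 * w - 4 * c := ⟨_, rfl⟩
  have hu0 : 0 ≤ u := by linarith
  have hs0 : 0 ≤ s := by linarith
  have hv0 : 0 ≤ v := by linarith
  have ew : w = 2 * u + 2 * s + v := by linarith
  have ec : c = (3 * u + 3 * s + v) / 2 := by linarith
  have eD : D = 3 * u + 2 * s + v := by linarith
  clear hu hs hv h1 h2 h3
  subst ew ec eD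
  have hQ : 0 ≤ (9 / 164) * v ^ 3 + (57 / 164) * s * v ^ 2 + (117 / 164) * s ^ 2 * v + (77 / 164) * s ^ 3
       + (33 / 82) * u * v ^ 2 + (69 / 41) * u * s * v + (70 / 41) * u * s ^ 2
       + (159 / 164) * u ^ 2 * v + (329 / 164) * u ^ 2 * s + (63 / 82) * u ^ 3 := by positivity
  have hR : 0 ≤ (1 / 4) * v ^ 2 + (661 / 656) * v ^ 4 + (3 / 2) * s * v + (639 / 82) * s * v ^ 3
       + (9 / 4) * s ^ 2 + (7369 / 328) * s ^ 2 * v ^ 2 + (1183 / 41) * s ^ 3 * v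
       + (9265 / 656) * s ^ 4 + (3 / 2) * u * v + (2661 / 328) * u * v ^ 3 + (9 / 2) * u * s
       + (14905 / 328) * u * s * v ^ 2 + (671 / 8) * u * s ^ 2 * v + (16899 / 328) * u * s ^ 3
       + (9 / 4) * u ^ 2 + (942 / 41) * u ^ 2 * v ^ 2 + (13315 / 164) * u ^ 2 * s * v
       + (11451 / 164) * u ^ 2 * s ^ 2 + (8583 / 328) * u ^ 3 * v + (13637 / 328) * u ^ 3 * s
       + (6003 / 656) * u ^ 4 := by positivity
  have hw0 : 0 ≤ (2 * u + 2 * s + v) - 41 := by linarith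
  have hm := mul_nonneg hw0 hQ
  nlinarith only [hm, hR]

/-- `a = D - 2c`, `b = 3w - 2D`, `e = 2c - w`: `w = b+2e+2a`, `c = (w+e)/2`, `D = w+e+a`. -/
theorem i1b_two (w c D : ℝ) (hw : 41 ≤ w) (h1 : 2 * c ≤ D) (h2 : 2 * D ≤ 3 * w) (h3 : w ≤ 2 * c) :
    (w + c) * (w - 1 + c) * (w - 2 + D - 2 * c) * c * (w + c + 1) ≤
      w * (w - 1) * (w - 2) * (c * (2 * w + c + 1) + D * (w + c)) := by
  obtain ⟨a, ha⟩ : ∃ a, a = D - 2 * c := ⟨_, rfl⟩
  obtain ⟨b, hb⟩ : ∃ b, b = 3 * w - 2 * D := ⟨_, rfl⟩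
  obtain ⟨e, he⟩ : ∃ e, e = 2 * c - w := ⟨_, rfl⟩
  have ha0 : 0 ≤ a := by linarith
  have hb0 : 0 ≤ b := by linarith
  have he0 : 0 ≤ e := by linarith
  have ew : w = b + 2 * e + 2 * a := by linarith
  have ec : c = (b + 3 * e + 2 * a) / 2 := by linarith
  have eD : D = b + 3 * e + 3 * a := by linarith
  clear ha hb he h1 h2 h3
  subst ew ec eD
  have hQ : 0 ≤ (9 / 82) * e ^ 2 + (675 / 328) * e ^ 4 + (3 / 41) * b * e + (675 / 164) * b * e ^ 3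
       + (1 / 82) * b ^ 2 + (489 / 164) * b ^ 2 * e ^ 2 + (153 / 164) * b ^ 3 * e
       + (35 / 328) * b ^ 4 + (6 / 41) * a * e + (759 / 82) * a * e ^ 3 + (2 / 41) * a * b
       + (549 / 41) * a * b * e ^ 2 + (258 / 41) * a * b ^ 2 * e + (79 / 82) * a * b ^ 3
       + (2 / 41) * a ^ 2 + (609 / 41) * a ^ 2 * e ^ 2 + (573 / 41) * a ^ 2 * b * e
       + (132 / 41) * a ^ 2 * b ^ 2 + (420 / 41) * a ^ 3 * e + (194 / 41) * a ^ 3 * b
       + (106 / 41) * a ^ 4 := by positivity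
  have hR : 0 ≤ (5517 / 82) * e ^ 3 + (5661 / 328) * e ^ 5 + (13857 / 164) * b * e ^ 2
       + (38145 / 656) * b * e ^ 4 + (1431 / 41) * b ^ 2 * e + (22401 / 328) * b ^ 2 * e ^ 3
       + (777 / 164) * b ^ 3 + (6093 / 164) * b ^ 3 * e ^ 2 + (1575 / 164) * b ^ 4 * e
       + (627 / 656) * b ^ 5 + (30871 / 164) * a * e ^ 2 + (51125 / 656) * a * e ^ 4
       + (6421 / 41) * a * b * e + (71867 / 328) * a * b * e ^ 3 + (5277 / 164) * a * b ^ 2
       + (16077 / 82) * a * b ^ 2 * e ^ 2 + (23465 / 328) * a * b ^ 3 * e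
       + (6075 / 656) * a * b ^ 4 + (7118 / 41) * a ^ 2 * e + (27065 / 164) * a ^ 2 * e ^ 3
       + (2946 / 41) * a ^ 2 * b + (13875 / 41) * a ^ 2 * b * e ^ 2
       + (795 / 4) * a ^ 2 * b ^ 2 * e + (1470 / 41) * a ^ 2 * b ^ 3 + (2169 / 41) * a ^ 3
       + (7782 / 41) * a ^ 3 * e ^ 2 + (19995 / 82) * a ^ 3 * b * e + (5685 / 82) * a ^ 3 * b ^ 2
       + (4565 / 41) * a ^ 4 * e + (2745 / 41) * a ^ 4 * b + (1059 / 41) * a ^ 5 := by positivity
  have hw0 : 0 ≤ (b + 2 * e + 2 * a) - 41 := by linarith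
  have hm := mul_nonneg hw0 hQ
  nlinarith only [hm, hR]

/-- `e = w - 2c ≥ 0`, `p = 5c - 2w ≥ 0`: `c = 2e+p`, `w = 5e+2p`; `D = w + a`, `0 ≤ a ≤ e + p`
(`D ≤ 3c`). The difference is linear in `a` (affine), so it suffices to take `a = 0` and
`a = e + p`; both are treated as above. -/
theorem i1b_two' (w c D : ℝ) (hw : 41 ≤ w) (h1 : w ≤ D) (h2 : D ≤ 3 * c) (h3 : 2 * c ≤ w)
    (h4 : 2 * w ≤ 5 * c) :
    (w + c) * (w - 1 + c) * (w - 2 + D - 2 * c) * c * (w + c + 1) ≤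
      w * (w - 1) * (w - 2) * (c * (2 * w + c + 1) + D * (w + c)) := by
  obtain ⟨e, he⟩ : ∃ e, e = w - 2 * c := ⟨_, rfl⟩
  obtain ⟨q, hq⟩ : ∃ q, q = 5 * c - 2 * w := ⟨_, rfl⟩
  have he0 : 0 ≤ e := by linarith
  have hq0 : 0 ≤ q := by linarith
  have ew : w = 5 * e + 2 * q := by linarith
  have ec : c = 2 * e + q := by linarith
  clear he hq h3 h4
  subst ew ec
  have k0 : 0 ≤ (5 * e + 2 * q) * (5 * e + 2 * q - 1) * (5 * e + 2 * q - 2) *
      ((2 * e + q) * (2 * (5 * e + 2 * q) + (2 * e + q) + 1) +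
        (5 * e + 2 * q) * (5 * e + 2 * q + (2 * e + q))) -
      (5 * e + 2 * q + (2 * e + q)) * (5 * e + 2 * q - 1 + (2 * e + q)) *
        (5 * e + 2 * q - 2 + (5 * e + 2 * q) - 2 * (2 * e + q)) * (2 * e + q) *
        (5 * e + 2 * q + (2 * e + q) + 1) := by
    have hQ : 0 ≤ (2 / 41) * q ^ 2 + (70 / 41) * q ^ 4 + (8 / 41) * e * q + (710 / 41) * e * q ^ 3
         + (8 / 41) * e ^ 2 + (2685 / 41) * e ^ 2 * q ^ 2 + (4490 / 41) * e ^ 3 * q
         + (2803 / 41) * e ^ 4 := by positivity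
    have hR : 0 ≤ (1554 / 41) * q ^ 3 + (1254 / 41) * q ^ 5 + (11208 / 41) * e * q ^ 2
         + (15450 / 41) * e * q ^ 4 + (26881 / 41) * e ^ 2 * q + (76606 / 41) * e ^ 2 * q ^ 3
         + (21444 / 41) * e ^ 3 + (190836 / 41) * e ^ 3 * q ^ 2 + (238567 / 41) * e ^ 4 * q
         + (119604 / 41) * e ^ 5 := by positivity
    have hw0 : 0 ≤ (5 * e + 2 * q) - 41 := by linarith
    have hm := mul_nonneg hw0 hQ
    nlinarith only [hm, hR]
  have k1 : 0 ≤ (5 * e + 2 * q) * (5 * e + 2 * q - 1) * (5 * e + 2 * q - 2) *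
      ((2 * e + q) * (2 * (5 * e + 2 * q) + (2 * e + q) + 1) +
        (3 * (2 * e + q)) * (5 * e + 2 * q + (2 * e + q))) -
      (5 * e + 2 * q + (2 * e + q)) * (5 * e + 2 * q - 1 + (2 * e + q)) *
        (5 * e + 2 * q - 2 + (3 * (2 * e + q)) - 2 * (2 * e + q)) * (2 * e + q) *
        (5 * e + 2 * q + (2 * e + q) + 1) := by
    have hQ : 0 ≤ (2 / 41) * q ^ 2 + (106 / 41) * q ^ 4 + (8 / 41) * e * q + (1010 / 41) * e * q ^ 3
         + (8 / 41) * e ^ 2 + (3594 / 41) * e ^ 2 * q ^ 2 + (5660 / 41) * e ^ 3 * q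
         + (3328 / 41) * e ^ 4 := by positivity
    have hR : 0 ≤ (2169 / 41) * q ^ 3 + (1059 / 41) * q ^ 5 + (14734 / 41) * e * q ^ 2
         + (14260 / 41) * e * q ^ 4 + (33236 / 41) * e ^ 2 * q + (75092 / 41) * e ^ 2 * q ^ 3
         + (24888 / 41) * e ^ 3 + (194242 / 41) * e ^ 3 * q ^ 2 + (247616 / 41) * e ^ 4 * q
         + (124728 / 41) * e ^ 5 := by positivity
    have hw0 : 0 ≤ (5 * e + 2 * q) - 41 := by linarith
    have hm := mul_nonneg hw0 hQ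
    nlinarith only [hm, hR]
  have hpos : 0 < e + q := by
    by_contra hc
    linarith
  rw [← sub_nonneg]
  have k2 : 0 ≤ 3 * (2 * e + q) - D := by linarith
  have k3 : 0 ≤ D - (5 * e + 2 * q) := by linarith
  have k4 := add_nonneg (mul_nonneg k2 k0) (mul_nonneg k3 k1)
  refine nonneg_of_mul_nonneg_right ?_ hpos
  refine k4.trans_eq ?_
  ring

/-- `a = D - 3c`, `b = 3w - 2D`, `p = 5c - 2w`: `c = p + (2/3)(b+2a)`, `w = 2p + (5/3)(b+2a)`,
`D = 3c + a`. -/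
theorem i1b_three (w c D : ℝ) (hw : 41 ≤ w) (h1 : 3 * c ≤ D) (h2 : 2 * D ≤ 3 * w)
    (h4 : 2 * w ≤ 5 * c) :
    (w + c) * (w - 1 + c) * (w - 2 + c) * (w - 3 + D - 3 * c) * c * (w + c + 1) ≤
      w * (w - 1) * (w - 2) * (w - 3) * (c * (2 * w + c + 1) + D * (w + c)) := by
  obtain ⟨a, ha⟩ : ∃ a, a = D - 3 * c := ⟨_, rfl⟩
  obtain ⟨b, hb⟩ : ∃ b, b = 3 * w - 2 * D := ⟨_, rfl⟩
  obtain ⟨q, hq⟩ : ∃ q, q = 5 * c - 2 * w := ⟨_, rfl⟩
  have ha0 : 0 ≤ a := by linarith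
  have hb0 : 0 ≤ b := by linarith
  have hq0 : 0 ≤ q := by linarith
  have ew : w = 2 * q + 5 / 3 * (b + 2 * a) := by linarith
  have ec : c = q + 2 / 3 * (b + 2 * a) := by linarith
  have eD : D = 3 * (q + 2 / 3 * (b + 2 * a)) + a := by linarith
  clear ha hb hq h1 h2 h4
  subst ew ec eD
  have hQ : 0 ≤ (163 / 41) * q ^ 3 + (305 / 41) * q ^ 5 + (1106 / 123) * b * q ^ 2 + (1260 / 41) * b * q ^ 4
       + (2492 / 369) * b ^ 2 * q + (18628 / 369) * b ^ 2 * q ^ 3 + (1864 / 1107) * b ^ 3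
       + (45646 / 1107) * b ^ 3 * q ^ 2 + (18544 / 1107) * b ^ 4 * q + (26984 / 9963) * b ^ 5
       + (2338 / 123) * a * q ^ 2 + (2610 / 41) * a * q ^ 4 + (10568 / 369) * a * b * q
       + (77302 / 369) * a * b * q ^ 3 + (1322 / 123) * a * b ^ 2 + (2314 / 9) * a * b ^ 2 * q ^ 2
       + (51484 / 369) * a * b ^ 3 * q + (281474 / 9963) * a * b ^ 4 + (11168 / 369) * a ^ 2 * q
       + (80092 / 369) * a ^ 2 * q ^ 3 + (8408 / 369) * a ^ 2 * b
       + (196912 / 369) * a ^ 2 * b * q ^ 2 + (160552 / 369) * a ^ 2 * b ^ 2 * q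
       + (1172432 / 9963) * a ^ 2 * b ^ 3 + (17768 / 1107) * a ^ 3
       + (408152 / 1107) * a ^ 3 * q ^ 2 + (666608 / 1107) * a ^ 3 * b * q
       + (2437936 / 9963) * a ^ 3 * b ^ 2 + (115168 / 369) * a ^ 4 * q
       + (2531008 / 9963) * a ^ 4 * b + (1049632 / 9963) * a ^ 5 := by positivity
  have hR : 0 ≤ 6 * q ^ 2 + (17058 / 41) * q ^ 4 + (1932 / 41) * q ^ 6 + 8 * b * q
       + (161588 / 123) * b * q ^ 3 + (30890 / 123) * b * q ^ 5 + (8 / 3) * b ^ 2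
       + (63548 / 41) * b ^ 2 * q ^ 2 + (22506 / 41) * b ^ 2 * q ^ 4 + (896308 / 1107) * b ^ 3 * q
       + (77698 / 123) * b ^ 3 * q ^ 3 + (19432 / 123) * b ^ 4 + (447770 / 1107) * b ^ 4 * q ^ 2
       + (1363468 / 9963) * b ^ 5 * q + (190640 / 9963) * b ^ 6 + 16 * a * q
       + (340267 / 123) * a * q ^ 3 + (57181 / 123) * a * q ^ 5 + (32 / 3) * a * b
       + (268038 / 41) * a * b * q ^ 2 + (254396 / 123) * a * b * q ^ 4
       + (631186 / 123) * a * b ^ 2 * q + (1335992 / 369) * a * b ^ 2 * q ^ 3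
       + (493619 / 369) * a * b ^ 3 + (3461522 / 1107) * a * b ^ 3 * q ^ 2
       + (13303678 / 9963) * a * b ^ 4 * q + (250087 / 1107) * a * b ^ 5 + (32 / 3) * a ^ 2
       + (281884 / 41) * a ^ 2 * q ^ 2 + (238720 / 123) * a ^ 2 * q ^ 4
       + (3989000 / 369) * a ^ 2 * b * q + (2546840 / 369) * a ^ 2 * b * q ^ 3
       + (520870 / 123) * a ^ 2 * b ^ 2 + (1113628 / 123) * a ^ 2 * b ^ 2 * q ^ 2
       + (51890704 / 9963) * a ^ 2 * b ^ 3 * q + (3689810 / 3321) * a ^ 2 * b ^ 4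
       + (8381768 / 1107) * a ^ 3 * q + (1614464 / 369) * a ^ 3 * q ^ 3
       + (730828 / 123) * a ^ 3 * b + (12880984 / 1107) * a ^ 3 * b * q ^ 2
       + (101133392 / 9963) * a ^ 3 * b ^ 2 * q + (29026520 / 9963) * a ^ 3 * b ^ 3
       + (1150744 / 369) * a ^ 4 + (6199216 / 1107) * a ^ 4 * q ^ 2
       + (98485376 / 9963) * a ^ 4 * b * q + (4755760 / 1107) * a ^ 4 * b ^ 2
       + (38334944 / 9963) * a ^ 5 * q + (11217040 / 3321) * a ^ 5 * b + (11020256 / 9963) * a ^ 6 := by positivity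
  have hw0 : 0 ≤ (2 * q + 5 / 3 * (b + 2 * a)) - 41 := by linarith
  have hm := mul_nonneg hw0 hQ
  nlinarith only [hm, hR]

end Pool.Agent.LRQ
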