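import Mathlib
import Pool.Agent.LRQ.HB3
import Pool.Agent.LRQ.I1B

set_option autoImplicit false

/-! # [LRQ-I1C] region I, one additional middle row, `w ≥ 41`, `4c < 3w` -/

namespace Pool.Agent.LRQ

open Finset
open Pool.Agent.LRE Pool.Agent.LRT

theorem i1c_le (x A a v : ℝ) (h : x * A ≤ 1) (ha : 0 < a) (haA : a ≤ A) (hv : 1 ≤ a * v) :
    x ≤ v := by
  have hv0 : 0 < v := by
    by_contra h1
    push Not at h1
    nlinarith [mul_nonneg ha.le (neg_nonneg.2 h1)]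
  rcases le_or_gt x 0 with hx | hx
  · linarith
  · have h1 : x * a ≤ x * A := mul_le_mul_of_nonneg_left haA hx.le
    have h2 : x * a ≤ v * a := by linarith [mul_comm a v]
    exact le_of_mul_le_mul_right h2 ha

theorem i1c_hq (w c d p n m : ℕ) (hw : 41 ≤ w) (hp : 1 ≤ p) (hpc : p ≤ c) (hm : 0 < m)
    (hnm : n < m * p) (hd : m * (w + d) ≤ n * w) (v : ℝ)
    (hv : 1 ≤ (1 - (n : ℝ) / ((m : ℝ) * p)) ^ p * v) : hq w c (w + d) ≤ v := by
  have hwR : (0 : ℝ) < w := by exact_mod_cast (by omega : 0 < w)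
  have hpR : (0 : ℝ) < p := by exact_mod_cast hp
  have hmR : (0 : ℝ) < m := by exact_mod_cast hm
  have hlt : w + d < p * w := by
    have h1 : m * (w + d) < m * (p * w) := by
      calc m * (w + d) ≤ n * w := hd
        _ < (m * p) * w := Nat.mul_lt_mul_of_pos_right hnm (by omega)
        _ = m * (p * w) := by ring
    exact Nat.lt_of_mul_lt_mul_left h1
  have h := hq_pow w c (w + d) p hp hpc hlt
  have h0 : (0 : ℝ) < 1 - (n : ℝ) / ((m : ℝ) * p) := by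
    have : (n : ℝ) < (m : ℝ) * p := by exact_mod_cast hnm
    rw [sub_pos, div_lt_one (by positivity)]
    exact this
  refine i1c_le _ _ _ v h (pow_pos h0 p) ?_ hv
  apply pow_le_pow_left₀ h0.le
  have h1 : (((w + d : ℕ)) : ℝ) / ((p : ℝ) * w) ≤ (n : ℝ) / ((m : ℝ) * p) := by
    rw [div_le_div_iff₀ (by positivity) (by positivity)]
    have h2 : (m : ℝ) * ((w + d : ℕ) : ℝ) ≤ (n : ℝ) * w := by exact_mod_cast hd
    nlinarith [mul_le_mul_of_nonneg_right h2 hpR.le]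
  linarith

/-- Few rows: `3 ≤ c ≤ 11`. `hq_pow` with `p = c`: `hq ≤ (1 - D/(cw))^{-c} ≤ (1 - 1.5/c)^{-c}`,
`D = w + d ≤ 3w/2`; and the right side is `≥ 1 + 41/c` (`D/c ≥ w/c ≥ 41/c`), for `c = 11` use also
the last term `(w - D/c)/(w+c+1) ≥ (1 - 1.5/11) w/(w+12) ≥ 0.66`. The values of `(1-1.5/c)^{-c}`
for `c = 3,…,11` are at most `8, 6.56, 5.95, 5.62, 5.41, 5.27, 5.16, 5.08, 5.02`. -/
theorem i1c_few (w c d : ℕ) (hw : 41 ≤ w) (hc3 : 3 ≤ c) (hc : c ≤ 11) (hd2 : 2 * d ≤ w) :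
    hq w c (w + d) ≤ 1 + ((w : ℝ) + d) / c + ((w : ℝ) - ((w : ℝ) + d) / c) / ((w : ℝ) + c + 1) := by
  have hwR : (41 : ℝ) ≤ w := by exact_mod_cast hw
  have hdR : (0 : ℝ) ≤ d := Nat.cast_nonneg _
  have hd2R : 2 * (d : ℝ) ≤ w := by exact_mod_cast hd2
  have key : ∀ v : ℝ, 1 ≤ (1 - ((3 : ℕ) : ℝ) / (((2 : ℕ) : ℝ) * c)) ^ c * v →
      hq w c (w + d) ≤ v := fun v hv =>
    i1c_hq w c d c 3 2 hw (by omega) le_rfl (by omega) (by omega) (by omega) v hv
  have hlast : ∀ a : ℝ, 3 ≤ a → (1 / 2 : ℝ) * w / (w + a + 1) ≤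
      ((w : ℝ) - ((w : ℝ) + d) / a) / ((w : ℝ) + a + 1) := by
    intro a ha
    apply div_le_div_of_nonneg_right _ (by linarith)
    have h1 : ((w : ℝ) + d) / a ≤ (1 / 2) * w := by
      rw [div_le_iff₀ (by linarith)]
      nlinarith
    linarith
  have hpos : ∀ a : ℝ, 3 ≤ a → 0 ≤ ((w : ℝ) - ((w : ℝ) + d) / a) / ((w : ℝ) + a + 1) := by
    intro a ha
    refine le_trans ?_ (hlast a ha)
    apply div_nonneg <;> linarith
  have hD : ∀ a : ℝ, 3 ≤ a → 41 / a ≤ ((w : ℝ) + d) / a := by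
    intro a ha
    apply div_le_div_of_nonneg_right _ (by linarith)
    linarith
  by_cases h11 : c = 11
  · subst h11
    have h1 := key (503 / 100) (by norm_num)
    have h2 : (65 / 100 : ℝ) ≤ ((w : ℝ) - ((w : ℝ) + d) / (11 : ℕ)) / ((w : ℝ) + (11 : ℕ) + 1) := by
      rw [le_div_iff₀ (by push_cast; linarith)]
      push_cast
      linarith
    have h3 := hD ((11 : ℕ) : ℝ) (by norm_num)
    push_cast at h2 h3 ⊢
    linarith
  · have hcR : (3 : ℝ) ≤ c := by exact_mod_cast hc3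
    have h3 := hD c hcR
    have h4 := hpos c hcR
    suffices h : hq w c (w + d) ≤ 1 + 41 / (c : ℝ) by linarith
    apply key
    clear key hlast hpos hD h3 h4
    have hc10 : c ≤ 10 := by omega
    interval_cases c <;> norm_num

/-- `12 ≤ c`, `5c ≤ 2w`: `hq_pow` with `p = 12`: `hq ≤ (1 - t/12)^{-12}`, `t = (w+d)/w ∈ [1, 3/2]`.
The right side is `≥ 1 + (5/2) t + 0.614` (`w/c ≥ 5/2`, `W = w - D/c ≥ 0.875 w`,
`w + c + 1 ≤ 1.4 w + 1`). On `t ≤ 5/4`: `(1-5/48)^{-12} ≤ 3.75 ≤ 4.114`; on `[5/4, 7/5]`: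
`(1-7/60)^{-12} ≤ 4.44 ≤ 4.73`; on `[7/5, 3/2]`: `(7/8)^{-12} ≤ 4.97 ≤ 5.11`. -/
theorem i1c_mid (w c d : ℕ) (hw : 41 ≤ w) (hc12 : 12 ≤ c) (hc : 5 * c ≤ 2 * w) (hd2 : 2 * d ≤ w) :
    hq w c (w + d) ≤ 1 + ((w : ℝ) + d) / c + ((w : ℝ) - ((w : ℝ) + d) / c) / ((w : ℝ) + c + 1) := by
  have hwR : (41 : ℝ) ≤ w := by exact_mod_cast hw
  have hdR : (0 : ℝ) ≤ d := Nat.cast_nonneg _
  have hd2R : 2 * (d : ℝ) ≤ w := by exact_mod_cast hd2
  have hcR : (12 : ℝ) ≤ c := by exact_mod_cast hc12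
  have hcwR : 5 * (c : ℝ) ≤ 2 * w := by exact_mod_cast hc
  have hlast : (614 / 1000 : ℝ) ≤ ((w : ℝ) - ((w : ℝ) + d) / c) / ((w : ℝ) + c + 1) := by
    rw [le_div_iff₀ (by linarith)]
    have h1 : ((w : ℝ) + d) / c ≤ (1 / 8) * w := by
      rw [div_le_iff₀ (by linarith)]
      nlinarith
    linarith
  have hD : ∀ t : ℝ, 0 ≤ t → t * w ≤ (w : ℝ) + d → (5 / 2) * t ≤ ((w : ℝ) + d) / c := by
    intro t ht h
    rw [le_div_iff₀ (by linarith)]
    nlinarith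
  rcases le_or_gt (4 * (w + d)) (5 * w) with h | h
  · have h1 : hq w c (w + d) ≤ 375 / 100 :=
      i1c_hq w c d 12 5 4 hw (by omega) hc12 (by omega) (by omega) h _ (by norm_num)
    have h2 := hD 1 (by norm_num) (by linarith)
    linarith
  · rcases le_or_gt (5 * (w + d)) (7 * w) with h' | h'
    · have h1 : hq w c (w + d) ≤ 444 / 100 :=
        i1c_hq w c d 12 7 5 hw (by omega) hc12 (by omega) (by omega) h' _ (by norm_num)
      have h3 : 5 * (w : ℝ) < 4 * ((w : ℝ) + d) := by exact_mod_cast h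
      have h2 := hD (5 / 4) (by norm_num) (by linarith)
      linarith
    · have h1 : hq w c (w + d) ≤ 497 / 100 :=
        i1c_hq w c d 12 3 2 hw (by omega) hc12 (by omega) (by omega) (by omega) _ (by norm_num)
      have h3 : 7 * (w : ℝ) < 5 * ((w : ℝ) + d) := by exact_mod_cast h'
      have h2 := hD (7 / 5) (by norm_num) (by linarith)
      linarith

theorem i1c_rhs (w c D : ℝ) (hc : 0 < c) (hw : 0 < w) :
    1 + D / c + (w - D / c) / (w + c + 1) =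
      (c * (2 * w + c + 1) + D * (w + c)) / (c * (w + c + 1)) := by
  have h1 : w + c + 1 ≠ 0 := by positivity
  field_simp
  ring

/-- `2w < 5c`, `4c < 3w`: `n = (w+d)/c ∈ {1,2,3}` (`(w+d)/c ≤ (3w/2)/(2w/5) = 15/4`), and
`hq = ∏_{i<n} (1 + c/(w-i)) (1 + (D-nc)/(w-n))`; multiply by `c(w+c+1) w(w-1)…`: the right side is
`(c(2w+c+1) + D(w+c))/(c(w+c+1))`; `i1b_one`, `i1b_two`/`i1b_two'` (`w ≤ 2c` or not), `i1b_three`. -/
theorem i1c_many (w c d : ℕ) (hw : 41 ≤ w) (hc : 2 * w < 5 * c) (hc2 : 4 * c < 3 * w)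
    (hd2 : 2 * d ≤ w) :
    hq w c (w + d) ≤ 1 + ((w : ℝ) + d) / c + ((w : ℝ) - ((w : ℝ) + d) / c) / ((w : ℝ) + c + 1) := by
  have hwR : (41 : ℝ) ≤ w := by exact_mod_cast hw
  have hdR : (0 : ℝ) ≤ d := Nat.cast_nonneg _
  have hd2R : 2 * (d : ℝ) ≤ w := by exact_mod_cast hd2
  have hcR : 2 * (w : ℝ) < 5 * c := by exact_mod_cast hc
  have hc2R : 4 * (c : ℝ) < 3 * w := by exact_mod_cast hc2
  have hc0 : (0 : ℝ) < c := by linarith
  have hcp : 0 < c := by exact_mod_cast hc0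
  rw [i1c_rhs (w : ℝ) c ((w : ℝ) + d) hc0 (by linarith)]
  have hdm : c * ((w + d) / c) + (w + d) % c = w + d := Nat.div_add_mod _ _
  have hml : (w + d) % c < c := Nat.mod_lt _ hcp
  have hden : (0 : ℝ) < c * ((w : ℝ) + c + 1) := by positivity
  have hn1 : 1 ≤ (w + d) / c := (Nat.le_div_iff_mul_le hcp).2 (by omega)
  have hn3 : (w + d) / c < 4 := (Nat.div_lt_iff_lt_mul hcp).2 (by omega)
  have hcast : (c : ℝ) * (((w + d) / c : ℕ) : ℝ) + (((w + d) % c : ℕ) : ℝ) = (w : ℝ) + d := by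
    exact_mod_cast hdm
  unfold hq
  generalize hr : (w + d) % c = r at *
  generalize hn : (w + d) / c = n at *
  have hrR : (r : ℝ) < c := by exact_mod_cast hml
  have hr0 : (0 : ℝ) ≤ r := Nat.cast_nonneg _
  clear hr hn
  interval_cases n
  · rw [Finset.prod_range_one, Nat.cast_zero, sub_zero, Nat.cast_one]
    have hre : (r : ℝ) = (w : ℝ) + d - c := by rw [← hcast]; push_cast; ring
    rw [hre]
    have h := i1b_one w c ((w : ℝ) + d) hwR (by linarith) (by linarith) (by linarith)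
    have e1 : (1 + (c : ℝ) / w) * (1 + ((w : ℝ) + d - c) / ((w : ℝ) - 1)) =
        ((w : ℝ) + c) * ((w : ℝ) - 1 + ((w : ℝ) + d) - c) / ((w : ℝ) * ((w : ℝ) - 1)) := by
      have h1 : (w : ℝ) ≠ 0 := by linarith
      have h2 : (w : ℝ) - 1 ≠ 0 := by linarith
      field_simp
      ring
    rw [e1, div_le_div_iff₀ (mul_pos (by linarith) (by linarith)) hden]
    linarith
  · rw [Finset.prod_range_succ, Finset.prod_range_one, Nat.cast_zero, sub_zero, Nat.cast_one,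
      Nat.cast_two]
    have hre : (r : ℝ) = (w : ℝ) + d - 2 * c := by rw [← hcast]; push_cast; ring
    rw [hre]
    have h : ((w : ℝ) + c) * (w - 1 + c) * (w - 2 + ((w : ℝ) + d) - 2 * c) * c * (w + c + 1) ≤
      w * (w - 1) * (w - 2) * (c * (2 * w + c + 1) + ((w : ℝ) + d) * (w + c)) := by
      rcases le_or_gt (w : ℝ) (2 * c) with h3 | h3
      · exact i1b_two w c ((w : ℝ) + d) hwR (by linarith) (by linarith) h3
      · exact i1b_two' w c ((w : ℝ) + d) hwR (by linarith) (by linarith) h3.le hcR.le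
    have e1 : (1 + (c : ℝ) / w) * (1 + (c : ℝ) / ((w : ℝ) - 1)) *
        (1 + ((w : ℝ) + d - 2 * c) / ((w : ℝ) - 2)) =
        ((w : ℝ) + c) * ((w : ℝ) - 1 + c) * ((w : ℝ) - 2 + ((w : ℝ) + d) - 2 * c) /
          ((w : ℝ) * ((w : ℝ) - 1) * ((w : ℝ) - 2)) := by
      have h1 : (w : ℝ) ≠ 0 := by linarith
      have h2 : (w : ℝ) - 1 ≠ 0 := by linarith
      have h4 : (w : ℝ) - 2 ≠ 0 := by linarith
      field_simp
      ring
    rw [e1, div_le_div_iff₀ (mul_pos (mul_pos (by linarith) (by linarith)) (by linarith)) hden]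
    linarith
  · rw [Finset.prod_range_succ, Finset.prod_range_succ, Finset.prod_range_one, Nat.cast_zero,
      sub_zero, Nat.cast_one, Nat.cast_two]
    have hre : (r : ℝ) = (w : ℝ) + d - 3 * c := by rw [← hcast]; push_cast; ring
    rw [hre]
    have h := i1b_three w c ((w : ℝ) + d) hwR (by linarith) (by linarith) hcR.le
    have e1 : (1 + (c : ℝ) / w) * (1 + (c : ℝ) / ((w : ℝ) - 1)) * (1 + (c : ℝ) / ((w : ℝ) - 2)) *
        (1 + ((w : ℝ) + d - 3 * c) / ((w : ℝ) - ((3 : ℕ) : ℝ))) =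
        ((w : ℝ) + c) * ((w : ℝ) - 1 + c) * ((w : ℝ) - 2 + c) *
          ((w : ℝ) - 3 + ((w : ℝ) + d) - 3 * c) /
          ((w : ℝ) * ((w : ℝ) - 1) * ((w : ℝ) - 2) * ((w : ℝ) - 3)) := by
      have h1 : (w : ℝ) ≠ 0 := by linarith
      have h2 : (w : ℝ) - 1 ≠ 0 := by linarith
      have h4 : (w : ℝ) - 2 ≠ 0 := by linarith
      have h5 : (w : ℝ) - 3 ≠ 0 := by linarith
      push_cast
      field_simp
      ring
    rw [e1, div_le_div_iff₀ (mul_pos (mul_pos (mul_pos (by linarith) (by linarith)) (by linarith))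
      (by linarith)) hden]
    linarith

end Pool.Agent.LRQ
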