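import Mathlib
import Pool.Agent.LRQ.FIN0

set_option autoImplicit false

/-! # [LRQ-I1F] region I, one additional middle row: finite parts -/

namespace Pool.Agent.LRQ

open Finset
open Pool.Agent.LRE Pool.Agent.LRT

/-- the check of `i1f_mid` for one triple -/
def i1f_b1 (w c d : ℕ) : Bool :=
  Nat.ble w 9 || Nat.ble c 2 || Nat.ble (3 * w) (4 * c) || Nat.ble (w + 1) (2 * d) ||
    Nat.ble (hqN w c (w + d) * (c * (w + c + 1)))
      ((c * (2 * w + c + 1) + (w + d) * (w + c)) * hqD w c (w + d))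

theorem i1f_chk1 : ∀ w < 41, ∀ c < 31, ∀ d < 21, i1f_b1 w c d = true := by
  decide +kernel

/-- the check of `i1f_small` for one quadruple -/
def i1f_b2 (w r c d : ℕ) : Bool :=
  Nat.ble c 2 || Nat.ble (r + 1) c || Nat.ble (w + 1) r || Nat.ble (3 * r) w ||
    Nat.ble r d || Nat.ble (w + 1) (2 * d) ||
    Nat.ble (nprod (fun l => c * (w + l + 1)) c * (GGD r (JJ (w - r) d 3) * (c * (w + c + 1))))
      (nprod (fun l => c * (w + l + 1) - (w + d)) c *
        (GGN w (JJ (w - r) d 3) * ((w + d + c) * (w + c + 1)) +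
          (c * w - (w + d)) * GGD r (JJ (w - r) d 3)))

theorem i1f_chk2 : ∀ w < 10, ∀ r < 10, ∀ c < 10, ∀ d < 5, i1f_b2 w r c d = true := by
  decide +kernel

/-- `10 ≤ w ≤ 40`, `4c < 3w`, in natural numbers (`D = w + d`). Kernel computation
(`decide +kernel`). -/
theorem i1f_mid (w c d : ℕ) (hw : 10 ≤ w) (hw2 : w ≤ 40) (hc3 : 3 ≤ c) (hc : 4 * c < 3 * w)
    (hd2 : 2 * d ≤ w) :
    hqN w c (w + d) * (c * (w + c + 1)) ≤
      (c * (2 * w + c + 1) + (w + d) * (w + c)) * hqD w c (w + d) := by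
  have h := i1f_chk1 w (by omega) c (by omega) d (by omega)
  unfold i1f_b1 at h
  simp only [Bool.or_eq_true, Nat.ble_eq] at h
  rcases h with (((h | h) | h) | h) | h
  · omega
  · omega
  · omega
  · omega
  · exact h

/-- `i1f_mid` in real numbers: `hq_eq` (`(w+d)/c < w`). -/
theorem i1f_mid' (w c d : ℕ) (hw : 10 ≤ w) (hw2 : w ≤ 40) (hc3 : 3 ≤ c) (hc : 4 * c < 3 * w)
    (hd2 : 2 * d ≤ w) :
    hq w c (w + d) ≤ 1 + ((w : ℝ) + d) / c + ((w : ℝ) - ((w : ℝ) + d) / c) / ((w : ℝ) + c + 1) := by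
  have h0 := i1f_mid w c d hw hw2 hc3 hc hd2
  have hlt : (w + d) / c < w := by
    rw [Nat.div_lt_iff_lt_mul (by omega)]
    nlinarith
  have hp := hqD_pos w c (w + d) hlt
  have hp' : (0 : ℝ) < (hqD w c (w + d) : ℝ) := by exact_mod_cast hp
  have hc0 : (0 : ℝ) < c := by exact_mod_cast (by omega : 0 < c)
  have hwc : (0 : ℝ) < (w : ℝ) + c + 1 := by positivity
  rw [hq_eq w c (w + d) hlt, div_le_iff₀ hp']
  have h1 : (hqN w c (w + d) : ℝ) * (c * (w + c + 1)) ≤
      (c * (2 * w + c + 1) + (w + d) * (w + c)) * hqD w c (w + d) := by exact_mod_cast h0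
  have h2 : 1 + ((w : ℝ) + d) / c + ((w : ℝ) - ((w : ℝ) + d) / c) / ((w : ℝ) + c + 1) =
      ((c : ℝ) * (2 * w + c + 1) + (w + d) * (w + c)) / (c * (w + c + 1)) := by
    field_simp
    ring
  rw [h2, div_mul_eq_mul_div, le_div_iff₀ (by positivity)]
  exact h1

/-- `w ≤ 9`, in natural numbers: `∏_{l<c} c(w+l+1)/(c(w+l+1)-D) ≤ (GGN/GGD)(D+c)/c +
(cw-D)/(c(w+c+1))`, `D = w + d`, `J = JJ (w-r) d 3`. Kernel computation (`decide +kernel`). -/
theorem i1f_small (w r c d : ℕ) (hw : w ≤ 9) (hc3 : 3 ≤ c) (hcr : c ≤ r) (hrw : r ≤ w)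
    (h3 : w < 3 * r) (hdr : d + 1 ≤ r) (hd2 : 2 * d ≤ w) :
    nprod (fun l => c * (w + l + 1)) c * (GGD r (JJ (w - r) d 3) * (c * (w + c + 1))) ≤
      nprod (fun l => c * (w + l + 1) - (w + d)) c *
        (GGN w (JJ (w - r) d 3) * ((w + d + c) * (w + c + 1)) +
          (c * w - (w + d)) * GGD r (JJ (w - r) d 3)) := by
  have h := i1f_chk2 w (by omega) r (by omega) c (by omega) d (by omega)
  unfold i1f_b2 at h
  simp only [Bool.or_eq_true, Nat.ble_eq] at h
  rcases h with (((((h | h) | h) | h) | h) | h) | h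
  · omega
  · omega
  · omega
  · omega
  · omega
  · omega
  · exact h

end Pool.Agent.LRQ
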