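import Mathlib
import Pool.Agent.LRQ.TA

set_option autoImplicit false

/-! # [LRQ-TB] the uniform lower bound for `T` -/

namespace Pool.Agent.LRQ

open Finset
open Pool.Agent.LRE Pool.Agent.LRT

theorem tb_GG_succ (w r j : ℕ) :
    GG w r (j + 1) = GG w r j * (((w : ℝ) + j + 1) / ((r : ℝ) - j)) := by
  unfold GG
  rw [prod_range_succ]

theorem tb_GG_pos (w r j : ℕ) (hj : j ≤ r) : 0 < GG w r j := by
  unfold GG
  apply prod_pos
  intro i hi
  have h1 : i < j := mem_range.1 hi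
  have h2 : (i : ℝ) < r := by exact_mod_cast lt_of_lt_of_le h1 hj
  exact div_pos (by positivity) (by linarith)

/-- the induction, with `w = r + g` -/
theorem tb_aux (r g : ℕ) (hw : 10 ≤ r + g ∨ 1 ≤ g) (j : ℕ) :
    ∀ (_ : 1 ≤ j) (_ : j < r) (_ : j = 1 ∨ (j + 1) * (g + j + 1) ≤ r + g),
    2 * (((r + g : ℕ) : ℝ) + 1) ≤ GG (r + g) r j *
      (2 * ((r + g : ℕ) : ℝ) + 4 - ((j : ℝ) + 1) * ((g : ℝ) + j + 1)) := by
  induction j with
  | zero => intro h1 _ _; omega
  | succ j ih =>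
    intro hj hjr h
    rcases Nat.eq_zero_or_pos j with rfl | hj0
    · have hr : (0 : ℝ) < r := by exact_mod_cast (by omega : 0 < r)
      rw [tb_GG_succ]
      have h0 : GG (r + g) r 0 = 1 := by simp [GG]
      rw [h0]
      push_cast
      apply ge_of_eq
      rw [sub_zero]
      field_simp
      ring
    · have h2 : (j + 1 + 1) * (g + (j + 1) + 1) ≤ r + g := by
        rcases h with h | h
        · omega
        · exact h
      have h3 : (j + 1) * (g + j + 1) ≤ r + g := by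
        refine le_trans (Nat.mul_le_mul ?_ ?_) h2 <;> omega
      have hI := ih hj0 (by omega) (Or.inr h3)
      have hGp := tb_GG_pos (r + g) r j (by omega)
      have hrj : (0 : ℝ) < (r : ℝ) - j := by
        have : (j : ℝ) < r := by exact_mod_cast (by omega : j < r)
        linarith
      obtain ⟨u, hu⟩ : ∃ u, r + g = (j + 1 + 1) * (g + (j + 1) + 1) + u := ⟨_, (Nat.add_sub_of_le h2).symm⟩
      have hu' : (r : ℝ) + g = ((j : ℝ) + 2) * (g + j + 2) + u := by
        have := congrArg (Nat.cast : ℕ → ℝ) hu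
        push_cast at this
        linarith
      have hkey : (0 : ℝ) ≤ ((g : ℝ) + 2 * j - 1) * u + (((g : ℝ) + j) * (g + 3) - 4) := by
        have hj1 : (1 : ℝ) ≤ j := by exact_mod_cast hj0
        have hg0 : (0 : ℝ) ≤ g := Nat.cast_nonneg g
        have hu0 : (0 : ℝ) ≤ u := Nat.cast_nonneg u
        rcases Nat.eq_zero_or_pos g with hg | hg
        · subst hg
          rcases Nat.lt_or_ge j 2 with h4 | h4
          · have h5 : j = 1 := by omega
            subst h5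
            have h6 : 1 ≤ u := by omega
            have h7 : (1 : ℝ) ≤ u := by exact_mod_cast h6
            push_cast
            linarith
          · have h5 : (2 : ℝ) ≤ j := by exact_mod_cast h4
            have h6 : (0 : ℝ) ≤ (((0 : ℕ) : ℝ) + 2 * j - 1) * u := by
              apply mul_nonneg _ hu0
              push_cast
              linarith
            push_cast at h6 ⊢
            linarith
        · have h5 : (1 : ℝ) ≤ g := by exact_mod_cast hg
          have h6 : (0 : ℝ) ≤ ((g : ℝ) + 2 * j - 1) * u := mul_nonneg (by linarith) hu0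
          nlinarith
      have hstep : ((r : ℝ) - j) * (2 * ((r : ℝ) + g) + 4 - ((j : ℝ) + 1) * ((g : ℝ) + j + 1)) ≤
          ((r : ℝ) + g + j + 1) *
            (2 * ((r : ℝ) + g) + 4 - ((j : ℝ) + 2) * ((g : ℝ) + j + 2)) := by
        have hr' : (r : ℝ) = ((j : ℝ) + 2) * (g + j + 2) + u - g := by linarith
        rw [hr']
        nlinarith [hkey]
      rw [tb_GG_succ]
      push_cast at hI ⊢
      have e1 : GG (r + g) r j * (((r : ℝ) + g + j + 1) / ((r : ℝ) - j)) *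
          (2 * ((r : ℝ) + g) + 4 - ((j : ℝ) + 1 + 1) * ((g : ℝ) + (j + 1) + 1)) =
          GG (r + g) r j * ((((r : ℝ) + g + j + 1) *
            (2 * ((r : ℝ) + g) + 4 - ((j : ℝ) + 2) * ((g : ℝ) + j + 2))) / ((r : ℝ) - j)) := by
        ring
      rw [e1]
      refine hI.trans (mul_le_mul_of_nonneg_left ?_ hGp.le)
      rw [le_div_iff₀ hrj]
      linarith

/-- Let `g = w - r`, `D_j = 2w + 4 - (j+1)(g+j+1)`. Claim: if `j ≥ 1` and `(j+1)(g+j+1) ≤ w` or
`j = 1`, then `GG w r j * D_j ≥ 2(w+1)`. `j = 1`: equality (`D_1 = 2r`, `GG w r 1 = (w+1)/r`).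
Step `j → j+1` for `j ≥ 1`, `(j+2)(g+j+2) ≤ w`: `GG` is multiplied by `(w+j+1)/(r-j)` and
`D_j = D_{j+1} + (g+2j+3)`, so one needs `(g+2j+1) D_{j+1} ≥ (g+2j+3)(w-g-j)`. The difference is
linear in `w` with slope `g+2j-1 ≥ 1 > 0` and equals `(g+j)(g+3) - 4` at `w = (j+2)(g+j+2)`; this is
`≥ 0` unless `g = 0`, `j = 1`, and then `w ≥ 10` (hypothesis `hw`) gives `-1 + (w - 9) ≥ 0`. -/
theorem tb_step (w r : ℕ) (hr : 1 ≤ r) (hrw : r ≤ w) (hw : 10 ≤ w ∨ r < w) (j : ℕ) (hj : 1 ≤ j)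
    (hjr : j < r) (h : j = 1 ∨ (j + 1) * (w - r + j + 1) ≤ w) :
    2 * ((w : ℝ) + 1) ≤
      GG w r j * (2 * w + 4 - ((j : ℝ) + 1) * ((w : ℝ) - r + j + 1)) := by
  obtain ⟨g, rfl⟩ := Nat.exists_eq_add_of_le hrw
  have e1 : r + g - r = g := by omega
  have h1 := tb_aux r g (by omega) j hj hjr (by rwa [e1] at h)
  have e2 : ((r + g : ℕ) : ℝ) - r = g := by push_cast; ring
  rw [e2]
  exact h1

/-- Let `J ≥ 1` be the greatest `j` with `j (g+j) ≤ d` (`g = w - r`; `J < r` because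
`r (g + r) = r w > d`), so `GG w r J ≤ T` (`TT_GG`). It suffices that
`GG w r J * (2w+3-d) ≥ 2(w+1)`. We have `2w+3-d ≥ D_J` and `2w+3-d ≥ w+4`.
* `J = 1` or `(J+1)(g+J+1) ≤ w`: `tb_step`.
* `J ≥ 2` and `w < (J+1)(g+J+1)`: `tb_step` for `J-1` (`J (g+J) ≤ d < w`), so
  `GG w r (J-1) ≥ 2(w+1)/(2w+4-J(g+J))`, `GG w r J = GG w r (J-1) (w+J)/(w-g-J+1)`, and it is enough
  that `(w+J)(w+4) ≥ (w-g-J+1)(2w+4-J(g+J))`. Put `w = J(g+J) + u`, `1 ≤ u ≤ g+2J`: the claim is
  `(g+2J-1)(w+4) ≥ u (w-g-J+1)`: clear for `u ≤ g+2J-1`, and for `u = g+2J` the difference is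
  `(g+J)^2 + 2(g+2J) - 4 ≥ 0`. -/
theorem TT_T1 (w r d : ℕ) (T : ℝ) (h : TT w r d T) (hr : 1 ≤ r) (hrw : r ≤ w) (hd : d < w)
    (hg : w - r + 1 ≤ d) (hw : 10 ≤ w ∨ r < w) :
    2 * ((w : ℝ) + 1) / (2 * w + 3 - d) ≤ T := by
  obtain ⟨g, rfl⟩ := Nat.exists_eq_add_of_le hrw
  have e1 : r + g - r = g := by omega
  rw [e1] at hg
  have hP1 : (fun j => j * (g + j) ≤ d) 1 := by
    show 1 * (g + 1) ≤ d
    omega
  obtain ⟨J, hJ⟩ : ∃ J, J = Nat.findGreatest (fun j => j * (g + j) ≤ d) r := ⟨_, rfl⟩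
  have hPJ : J * (g + J) ≤ d := by
    rw [hJ]
    exact Nat.findGreatest_spec (P := fun j => j * (g + j) ≤ d) hr hP1
  have hJ1 : 1 ≤ J := by
    rw [hJ]
    exact Nat.le_findGreatest hr hP1
  have hJr : J ≤ r := by
    rw [hJ]
    exact Nat.findGreatest_le r
  have hJlt : J < r := by
    rcases Nat.lt_or_ge J r with h1 | h1
    · exact h1
    · have h2 : J = r := le_antisymm hJr h1
      rw [h2] at hPJ
      have h3 : 1 * (r + g) ≤ r * (g + r) := Nat.mul_le_mul hr (by omega)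
      omega
  have hPJ1 : d < (J + 1) * (g + (J + 1)) := by
    have h1 := Nat.findGreatest_is_greatest (P := fun j => j * (g + j) ≤ d) (n := r) (k := J + 1)
      (by rw [← hJ]; omega) (by omega)
    exact not_le.1 h1
  have hT := TT_GG (r + g) r d J T h hJlt hrw hd (by rw [e1]; exact hPJ)
  refine le_trans ?_ hT
  have hdw : (d : ℝ) + 1 ≤ (r : ℝ) + g := by exact_mod_cast hd
  have hpos : (0 : ℝ) < 2 * ((r + g : ℕ) : ℝ) + 3 - d := by
    push_cast
    have : (0 : ℝ) ≤ r := Nat.cast_nonneg r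
    have : (0 : ℝ) ≤ g := Nat.cast_nonneg g
    linarith
  rw [div_le_iff₀ hpos]
  have hGp := tb_GG_pos (r + g) r J hJr
  have hDJ : 2 * ((r + g : ℕ) : ℝ) + 4 - ((J : ℝ) + 1) * ((g : ℝ) + J + 1) ≤
      2 * ((r + g : ℕ) : ℝ) + 3 - d := by
    have h1 : (d : ℝ) + 1 ≤ ((J : ℝ) + 1) * ((g : ℝ) + (J + 1)) := by exact_mod_cast hPJ1
    linarith
  by_cases hcase : J = 1 ∨ (J + 1) * (g + J + 1) ≤ r + g
  · have h1 := tb_aux r g (by omega) J hJ1 hJlt hcase
    exact h1.trans (mul_le_mul_of_nonneg_left hDJ hGp.le)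
  · rw [not_or, not_le] at hcase
    obtain ⟨hc1, hc2⟩ := hcase
    obtain ⟨i, rfl⟩ : ∃ i, J = i + 1 := ⟨J - 1, by omega⟩
    have h1 := tb_aux r g (by omega) i (by omega) (by omega) (Or.inr (by
      have : (i + 1) * (g + i + 1) = (i + 1) * (g + (i + 1)) := by ring
      omega))
    obtain ⟨u, hu⟩ : ∃ u, r + g = (i + 1) * (g + (i + 1)) + u :=
      ⟨_, (Nat.add_sub_of_le (by omega)).symm⟩
    have hu1 : 1 ≤ u := by omega
    have hu2 : u ≤ g + 2 * (i + 1) := by
      have h2 : (i + 1 + 1) * (g + (i + 1) + 1) = (i + 1) * (g + (i + 1)) + (g + 2 * (i + 1) + 1) := by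
        ring
      omega
    have hri : (0 : ℝ) < (r : ℝ) - i := by
      have : (i : ℝ) < r := by exact_mod_cast (by omega : i < r)
      linarith
    have hi0 : (0 : ℝ) ≤ i := Nat.cast_nonneg i
    have hi1 : (1 : ℝ) ≤ i := by exact_mod_cast (by omega : 1 ≤ i)
    have hg0 : (0 : ℝ) ≤ g := Nat.cast_nonneg g
    have hu0 : (0 : ℝ) ≤ u := Nat.cast_nonneg u
    have hu' : (r : ℝ) + g = ((i : ℝ) + 1) * (g + i + 1) + u := by
      have := congrArg (Nat.cast : ℕ → ℝ) hu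
      push_cast at this
      linarith
    have hr' : (r : ℝ) = ((i : ℝ) + 1) * (g + i + 1) + u - g := by linarith
    have hGi := tb_GG_pos (r + g) r i (by omega)
    have hkey : ((r : ℝ) - i) * (2 * ((r : ℝ) + g) + 4 - ((i : ℝ) + 1) * ((g : ℝ) + i + 1)) ≤
        ((r : ℝ) + g + i + 1) * ((r : ℝ) + g + 4) := by
      rcases Nat.lt_or_ge u (g + 2 * (i + 1)) with h3 | h3
      · have h4 : (u : ℝ) + 1 ≤ (g : ℝ) + 2 * (i + 1) := by exact_mod_cast h3
        have h5 : (u : ℝ) * ((r : ℝ) - i) ≤ ((g : ℝ) + 2 * i + 1) * ((r : ℝ) + g + 4) := by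
          apply mul_le_mul _ _ hri.le (by positivity)
          · linarith
          · linarith
        have h6 : (2 * ((r : ℝ) + g) + 4 - ((i : ℝ) + 1) * ((g : ℝ) + i + 1)) =
            (r : ℝ) + g + 4 + u := by linarith
        rw [h6]
        nlinarith
      · have h4 : u = g + 2 * (i + 1) := le_antisymm hu2 h3
        have h5 : (u : ℝ) = (g : ℝ) + 2 * (i + 1) := by
          rw [h4]
          push_cast
          ring
        rw [hr', h5]
        nlinarith [mul_nonneg hg0 hi0, mul_nonneg hg0 hg0, mul_nonneg hi0 hi0]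
    rw [tb_GG_succ]
    push_cast at h1 ⊢
    have e2 : GG (r + g) r i * (((r : ℝ) + g + i + 1) / ((r : ℝ) - i)) *
        (2 * ((r : ℝ) + g) + 3 - d) = GG (r + g) r i * ((((r : ℝ) + g + i + 1) *
          (2 * ((r : ℝ) + g) + 3 - d)) / ((r : ℝ) - i)) := by ring
    rw [e2]
    refine h1.trans (mul_le_mul_of_nonneg_left ?_ hGi.le)
    rw [le_div_iff₀ hri]
    have h7 : ((r : ℝ) + g + i + 1) * ((r : ℝ) + g + 4) ≤
        ((r : ℝ) + g + i + 1) * (2 * ((r : ℝ) + g) + 3 - d) := by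
      apply mul_le_mul_of_nonneg_left _ (by positivity)
      linarith
    linarith

end Pool.Agent.LRQ
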