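import Mathlib
import Pool.Agent.LRQ.AH
import Pool.Agent.LRQ.TB
import Pool.Agent.LRQ.I1A
import Pool.Agent.LRQ.I1C
import Pool.Agent.LRQ.I1F

set_option autoImplicit false

/-! # [LRQ-I1] region I, one additional middle row: collection -/

namespace Pool.Agent.LRQ

open Finset
open Pool.Agent.LRE Pool.Agent.LRT
open scoped NNReal

/-- `hq w c (w+d)` for `4c ≥ 3w` -/
theorem i1n_hq (w c d : ℕ) (hw : 10 ≤ w) (hcw : c ≤ w) (hd2 : 2 * d ≤ w) (hc : 3 * w ≤ 4 * c) :
    hq w c (w + d) = (1 + (c : ℝ) / w) * (1 + ((w : ℝ) + d - c) / ((w : ℝ) - 1)) := by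
  have hc0 : 0 < c := by omega
  have hw0 : (w : ℝ) ≠ 0 := by
    have : (0 : ℝ) < w := by exact_mod_cast (by omega : 0 < w)
    exact this.ne'
  have hw1 : (w : ℝ) - 1 ≠ 0 := by
    have : (1 : ℝ) < w := by exact_mod_cast (by omega : 1 < w)
    exact (sub_pos.2 this).ne'
  rcases Nat.lt_or_ge (w + d) (2 * c) with h | h
  · have h1 : (w + d) / c = 1 := by
      apply Nat.div_eq_of_lt_le
      · omega
      · omega
    have h2 : (w + d) % c = w + d - c := by
      have := Nat.div_add_mod (w + d) c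
      rw [h1] at this
      omega
    unfold hq
    rw [h1, h2, Finset.prod_range_one, Nat.cast_sub (by omega : c ≤ w + d)]
    push_cast
    rw [sub_zero]
  · have h0 : w + d = 2 * c := by omega
    have h1 : (w + d) / c = 2 := by
      rw [h0]
      exact Nat.mul_div_cancel _ hc0
    have h2 : (w + d) % c = 0 := by
      rw [h0]
      exact Nat.mul_mod_left _ _
    have h3 : (w : ℝ) + d = 2 * c := by exact_mod_cast h0
    unfold hq
    rw [h1, h2, Finset.prod_range_succ, Finset.prod_range_one, h3]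
    push_cast
    rw [sub_zero, zero_div, add_zero, mul_one]
    ring

/-- the chord value for `w ≥ 10` -/
theorem i1n_big (w r c d : ℕ) (T : ℝ) (h : TT w r d T) (hc3 : 3 ≤ c) (hcr : c ≤ r)
    (hrw : r ≤ w) (hd2 : 2 * d ≤ w) (hw : 10 ≤ w) :
    hq w c (w + d) ≤ T * (((w : ℝ) + d) / c + 1) +
      ((w : ℝ) - ((w : ℝ) + d) / c) / ((w : ℝ) + c + 1) := by
  have hc0 : (0 : ℝ) < c := by exact_mod_cast (by omega : 0 < c)
  have hw0 : (0 : ℝ) < w := by exact_mod_cast (by omega : 0 < w)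
  have hw1 : (0 : ℝ) < (w : ℝ) - 1 := by
    have : (1 : ℝ) < w := by exact_mod_cast (by omega : 1 < w)
    linarith
  have hwR : (10 : ℝ) ≤ w := by exact_mod_cast hw
  have hd0 : (0 : ℝ) ≤ d := Nat.cast_nonneg d
  have hd2R : 2 * (d : ℝ) ≤ w := by exact_mod_cast hd2
  have hcwR : (c : ℝ) ≤ w := by exact_mod_cast hcr.trans hrw
  have hT1 : 1 ≤ T := TT_one w r d T h (by omega) hrw (by omega)
  have hx : 0 ≤ ((w : ℝ) + d) / c + 1 := by positivity
  have hs : (0 : ℝ) < (w : ℝ) + c + 1 := by positivity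
  -- the bound with `T = 1`
  have one : hq w c (w + d) ≤ 1 + ((w : ℝ) + d) / c +
      ((w : ℝ) - ((w : ℝ) + d) / c) / ((w : ℝ) + c + 1) →
      hq w c (w + d) ≤ T * (((w : ℝ) + d) / c + 1) +
      ((w : ℝ) - ((w : ℝ) + d) / c) / ((w : ℝ) + c + 1) := by
    intro h1
    have h2 := mul_le_mul_of_nonneg_right hT1 hx
    linarith
  rcases Nat.lt_or_ge (4 * c) (3 * w) with h4 | h4
  · apply one
    rcases Nat.lt_or_ge 40 w with h40 | h40
    · rcases Nat.lt_or_ge 11 c with h11 | h11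
      · rcases Nat.lt_or_ge (2 * w) (5 * c) with h5 | h5
        · exact i1c_many w c d h40 h5 h4 hd2
        · exact i1c_mid w c d h40 h11 h5 hd2
      · exact i1c_few w c d h40 hc3 h11 hd2
    · exact i1f_mid' w c d hw h40 hc3 h4 hd2
  · have h4R : 3 * (w : ℝ) ≤ 4 * c := by exact_mod_cast h4
    rw [i1n_hq w c d hw (hcr.trans hrw) hd2 h4] at one ⊢
    have e1 : (1 + (c : ℝ) / w) * (1 + ((w : ℝ) + d - c) / ((w : ℝ) - 1)) =
        ((w : ℝ) + c) * (w - 1 + (w + d) - c) / (w * (w - 1)) := by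
      field_simp
      ring
    rcases Nat.lt_or_ge d (w - r + 1) with h5 | h5
    · apply one
      have hdc : (d : ℝ) ≤ w - c := by
        have : d + c ≤ w := by omega
        have h6 : (d : ℝ) + c ≤ w := by exact_mod_cast this
        linarith
      have h6 := i1a_one w c d hwR hd0 hdc h4R
      have e2 : 1 + ((w : ℝ) + d) / c + ((w : ℝ) - ((w : ℝ) + d) / c) / ((w : ℝ) + c + 1) =
          ((c : ℝ) * (2 * w + c + 1) + (w + d) * (w + c)) / (c * (w + c + 1)) := by
        field_simp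
        ring
      rw [e1, e2, div_le_div_iff₀ (by positivity) (by positivity)]
      calc ((w : ℝ) + c) * (w - 1 + (w + d) - c) * (c * (w + c + 1))
          = ((w : ℝ) + c) * (w - 1 + (w + d) - c) * c * (w + c + 1) := by ring
        _ ≤ _ := h6
        _ = _ := by ring
    · have h6 := i1a_two w c d hwR hd0 hd2R hcwR h4R
      have h7 := TT_T1 w r d T h (by omega) hrw (by omega) h5 (Or.inl hw)
      have h8 := mul_le_mul_of_nonneg_right h7 hx
      have hs2 : (0 : ℝ) < 2 * w + 3 - d := by linarith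
      refine le_trans ?_ (add_le_add h8 le_rfl)
      have e2 : 2 * ((w : ℝ) + 1) / (2 * w + 3 - d) * (((w : ℝ) + d) / c + 1) +
          ((w : ℝ) - ((w : ℝ) + d) / c) / ((w : ℝ) + c + 1) =
          (2 * ((w : ℝ) + 1) * ((w + d) + c) * (w + c + 1) +
            (c * w - (w + d)) * (2 * w + 3 - d)) / (c * (w + c + 1) * (2 * w + 3 - d)) := by
        field_simp
      rw [e1, e2, div_le_div_iff₀ (by positivity) (by positivity)]
      calc ((w : ℝ) + c) * (w - 1 + (w + d) - c) * (c * (w + c + 1) * (2 * w + 3 - d))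
          = ((w : ℝ) + c) * (w - 1 + (w + d) - c) * c * (w + c + 1) * (2 * w + 3 - d) := by ring
        _ ≤ _ := h6
        _ = _ := by ring

/-- `hh c W` for `w ≤ 9` as a quotient of products of integers -/
theorem i1n_prod (w c d : ℕ) (W : ℝ) (hc : 0 < c) (hcw : w + d < c * w)
    (hW : (c : ℝ) * W + ((w : ℝ) + d) = c * w) (n : ℕ) :
    hh n W * (nprod (fun l => c * (w + l + 1) - (w + d)) n : ℝ) =
      hh n (w : ℝ) * (nprod (fun l => c * (w + l + 1)) n : ℝ) := by
  have hc0 : (0 : ℝ) < c := by exact_mod_cast hc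
  have hcwR : (w : ℝ) + d < c * w := by exact_mod_cast hcw
  have hW0 : 0 < W := by
    have : 0 < (c : ℝ) * W := by linarith
    exact pos_of_mul_pos_right this hc0.le
  rw [nprod_cast, nprod_cast]
  unfold hh
  rw [← Finset.prod_mul_distrib, ← Finset.prod_mul_distrib]
  apply Finset.prod_congr rfl
  intro i _
  have h1 : w + d ≤ c * (w + i + 1) := by
    have : c * w ≤ c * (w + i + 1) := Nat.mul_le_mul_left c (by omega)
    omega
  rw [Nat.cast_sub h1]
  push_cast
  have h2 : (c : ℝ) * (w + i + 1) - (w + d) = c * (W + (i + 1)) := by linarith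
  rw [h2]
  have h3 : W + ((i : ℝ) + 1) ≠ 0 := by positivity
  have h4 : (w : ℝ) + ((i : ℝ) + 1) ≠ 0 := by positivity
  field_simp
  ring

/-- `x = (w+d)/c`, `D = w + d`, `W = w - x`. `w ≥ 10`: `K0 c w D W` gives
`hh c W ≤ hh c w * hq w c D`.
* `4c ≥ 3w`: `D/c = 1` or `D = 2c`, in both cases `hq = (1+c/w)(1+(D-c)/(w-1))`
  (`c ≤ D ≤ 3w/2 ≤ 2c`). If `w - r + 1 ≤ d`: `TT_T1` and `i1a_two` (divided by
  `w(w-1) c (w+c+1) (2w+3-d)`: `x + 1 = (D+c)/c`, `W/(w+c+1) = (cw-D)/(c(w+c+1))`). Otherwise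
  `d ≤ w - r ≤ w - c`: `TT_one` and `i1a_one`.
* `4c < 3w`: `TT_one` and `i1f_mid'` (`w ≤ 40`), `i1c_few`, `i1c_mid`, `i1c_many` (`w ≥ 41`).
`w ≤ 9`: `hh c W = hh c w ∏_{l<c} (w+l+1)/(W+l+1)`, `c (W+l+1) = c(w+l+1) - D`; `i1f_small`,
`TT_GG` (`JJ_le`, `GG_eq`; `J < r`). -/
theorem I1_num (w r c d : ℕ) (T : ℝ) (W : ℝ≥0) (h : TT w r d T) (hc3 : 3 ≤ c) (hcr : c ≤ r)
    (hrw : r ≤ w) (h3 : w < 3 * r) (hdr : d + 1 ≤ r) (hd2 : 2 * d ≤ w)
    (hW : (c : ℝ) * (W : ℝ) + ((w : ℝ) + d) = c * w) :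
    hh c (W : ℝ) ≤ hh c (w : ℝ) *
      (T * (((w : ℝ) + d) / c + 1) + (W : ℝ) / ((w : ℝ) + c + 1)) := by
  have hc0 : (0 : ℝ) < c := by exact_mod_cast (by omega : 0 < c)
  have hw1 : 1 ≤ w := by omega
  have hD : w + d < c * w := by nlinarith
  have hDR : (w : ℝ) + d < c * w := by exact_mod_cast hD
  have hWe : (W : ℝ) = (w : ℝ) - ((w : ℝ) + d) / c := by
    rw [eq_sub_iff_add_eq, ← mul_left_cancel_iff_of_pos hc0, mul_add, mul_div_cancel₀ _ hc0.ne']
    exact hW
  have hpw : 0 < hh c (w : ℝ) := hh_pos c (Nat.cast_nonneg w)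
  rcases Nat.lt_or_ge w 10 with hw | hw
  · have h1 := i1n_prod w c d (W : ℝ) (by omega) hD hW c
    have h2 := i1f_small w r c d (by omega) hc3 hcr hrw h3 hdr hd2
    set J := JJ (w - r) d 3 with hJ
    have h5 : J * (w - r + J) ≤ d := JJ_le (w - r) d 3
    have h6 : J < r := by
      by_contra hn
      have h7 : r * (w - r + r) ≤ J * (w - r + J) := Nat.mul_le_mul (by omega) (by omega)
      have h8 : w - r + r = w := by omega
      rw [h8] at h7
      have h9 : 1 * w ≤ r * w := Nat.mul_le_mul_right w (by omega)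
      omega
    have h7 := TT_GG w r d J T h h6 hrw (by omega) h5
    rw [GG_eq w r J h6.le] at h7
    have h8 : (0 : ℝ) < (GGD r J : ℝ) := by exact_mod_cast GGD_pos r J h6.le
    have h9 : (0 : ℝ) < (nprod (fun l => c * (w + l + 1) - (w + d)) c : ℝ) := by
      rw [nprod_cast]
      apply Finset.prod_pos
      intro i _
      have h1 : w + d < c * (w + i + 1) := by
        have : c * w ≤ c * (w + i + 1) := Nat.mul_le_mul_left c (by omega)
        omega
      exact_mod_cast (by omega : 0 < c * (w + i + 1) - (w + d))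
    have hx : 0 ≤ ((w : ℝ) + d) / c + 1 := by positivity
    have h10 := mul_le_mul_of_nonneg_right h7 hx
    have h11 : hh c (w : ℝ) * ((GGN w J : ℝ) / (GGD r J : ℝ) * (((w : ℝ) + d) / c + 1) +
        (W : ℝ) / ((w : ℝ) + c + 1)) ≤ hh c (w : ℝ) *
      (T * (((w : ℝ) + d) / c + 1) + (W : ℝ) / ((w : ℝ) + c + 1)) :=
      mul_le_mul_of_nonneg_left (by linarith) hpw.le
    refine le_trans ?_ h11
    have hs : (0 : ℝ) < (w : ℝ) + c + 1 := by positivity
    have e2 : (GGN w J : ℝ) / (GGD r J : ℝ) * (((w : ℝ) + d) / c + 1) +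
        (W : ℝ) / ((w : ℝ) + c + 1) =
        ((GGN w J : ℝ) * ((w + d + c) * (w + c + 1)) + (c * w - (w + d)) * GGD r J) /
          (GGD r J * (c * (w + c + 1))) := by
      rw [hWe]
      field_simp
    have h12 : (nprod (fun l => c * (w + l + 1)) c : ℝ) * (GGD r J * (c * (w + c + 1))) ≤
        (nprod (fun l => c * (w + l + 1) - (w + d)) c : ℝ) *
        ((GGN w J : ℝ) * ((w + d + c) * (w + c + 1)) + (c * w - (w + d)) * GGD r J) := by
      have h13 : ((nprod (fun l => c * (w + l + 1)) c * (GGD r J * (c * (w + c + 1))) : ℕ) : ℝ) ≤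
        ((nprod (fun l => c * (w + l + 1) - (w + d)) c *
        (GGN w J * ((w + d + c) * (w + c + 1)) + (c * w - (w + d)) * GGD r J) : ℕ) : ℝ) := by
        exact_mod_cast h2
      have hsub : ((c * w - (w + d) : ℕ) : ℝ) = c * w - (w + d) := by
        rw [Nat.cast_sub hD.le]
        push_cast
        ring
      push_cast at h13
      rw [hsub] at h13
      exact h13
    have hk : (0 : ℝ) < (GGD r J : ℝ) * (c * (w + c + 1)) := by positivity
    rw [e2, ← mul_div_assoc, le_div_iff₀ hk]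
    refine le_of_mul_le_mul_right ?_ h9
    have e3 : hh c (W : ℝ) * ((GGD r J : ℝ) * (c * (w + c + 1))) *
        (nprod (fun l => c * (w + l + 1) - (w + d)) c : ℝ) =
        hh c (w : ℝ) * ((nprod (fun l => c * (w + l + 1)) c : ℝ) *
          (GGD r J * (c * (w + c + 1)))) := by
      calc hh c (W : ℝ) * ((GGD r J : ℝ) * (c * (w + c + 1))) *
          (nprod (fun l => c * (w + l + 1) - (w + d)) c : ℝ)
          = (hh c (W : ℝ) * (nprod (fun l => c * (w + l + 1) - (w + d)) c : ℝ)) *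
            ((GGD r J : ℝ) * (c * (w + c + 1))) := by ring
        _ = (hh c (w : ℝ) * (nprod (fun l => c * (w + l + 1)) c : ℝ)) *
            ((GGD r J : ℝ) * (c * (w + c + 1))) := by rw [h1]
        _ = _ := by ring
    rw [e3]
    have h14 := mul_le_mul_of_nonneg_left h12 hpw.le
    linarith
  · have h1 := K0 c w (w + d) W (by omega) (by push_cast; exact hW) hD
    refine h1.trans (mul_le_mul_of_nonneg_left ?_ hpw.le)
    rw [hWe]
    exact i1n_big w r c d T h hc3 hcr hrw hd2 hw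

end Pool.Agent.LRQ
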