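import Mathlib
import Pool.Agent.LRQ.HB2
import Pool.Agent.LRT.H2

set_option autoImplicit false

/-! # [LRQ-I2] region I: two or more additional middle rows, numbers -/

namespace Pool.Agent.LRQ

open Finset
open Pool.Agent.LRE Pool.Agent.LRT

/-- numbers of `I2_small` -/
theorem I2s_num (w q d : ℕ) (hq2 : 2 ≤ q) (hqw : q + 1 ≤ w) (hd2 : 2 * d ≤ w) (hdq : d ≤ q) :
    (((q : ℝ) + 1) * (q + 2)) * d + d * w ≤ q * (w : ℝ) ^ 2 := by
  have hw : (q : ℝ) + 1 ≤ w := by exact_mod_cast hqw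
  have hd : 2 * (d : ℝ) ≤ w := by exact_mod_cast hd2
  have hd0 : (0 : ℝ) ≤ d := Nat.cast_nonneg d
  rcases Nat.lt_or_ge q 3 with hq | hq
  · obtain rfl : q = 2 := by omega
    have h3 : (3 : ℝ) ≤ w := by exact_mod_cast hqw
    push_cast
    interval_cases d
    · push_cast
      nlinarith
    · push_cast
      nlinarith
    · push_cast at hd ⊢
      nlinarith
  · have hq3 : (3 : ℝ) ≤ q := by exact_mod_cast hq
    have h1 : 0 ≤ (w : ℝ) - 2 * d := by linarith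
    have h2 : ((q : ℝ) + 1) * (q + 2) ≤ (2 * q - 1) * w := by
      have h3 : ((q : ℝ) + 1) * (q + 2) ≤ (2 * q - 1) * (q + 1) := by nlinarith
      have h4 : (2 * (q : ℝ) - 1) * (q + 1) ≤ (2 * q - 1) * w :=
        mul_le_mul_of_nonneg_left hw (by linarith)
      linarith
    have h5 : (((q : ℝ) + 1) * (q + 2)) * (2 * d) ≤ ((2 * q - 1) * w) * (2 * d) :=
      mul_le_mul_of_nonneg_right h2 (by linarith)
    have h6 : ((2 * (q : ℝ) - 1) * w) * (2 * d) ≤ ((2 * q - 1) * w) * w := by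
      refine mul_le_mul_of_nonneg_left hd ?_
      have : 0 ≤ (2 * (q : ℝ) - 1) := by linarith
      positivity
    have h7 : (d : ℝ) * w * 2 ≤ w * w := by nlinarith [(Nat.cast_nonneg w : (0 : ℝ) ≤ w)]
    nlinarith

/-- For `d ≤ q`: `hh q (w - d/q) ≤ hh q w (1 + d/w)` (`hh_chord` with `b = w - 1`,
`ε = 1 - d/q`, and `hh q (w-1) = hh q w (1 + q/w)`, `hh_add_one`). The claim becomes
`q w² - d w - (q+1)(q+2) d ≥ 0`; `q ≥ 3`: `d ≤ w/2`, `(2q-1) w ≥ (2q-1)(q+1) ≥ (q+1)(q+2)`;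
`q = 2`: `d ≤ 2`, `w ≥ 3`, `w ≥ 2d`. -/
theorem I2_small (w q d : ℕ) (hq2 : 2 ≤ q) (hqw : q + 1 ≤ w) (hd2 : 2 * d ≤ w) (hdq : d ≤ q) :
    hh q ((w : ℝ) - d / q) * (((w : ℝ) + q + 1) * (q + 2)) ≤
      hh q (w : ℝ) * (((q : ℝ) + 1) * (2 * w + d + q + 2)) := by
  have hq0 : (0 : ℝ) < q := by exact_mod_cast (by omega : 0 < q)
  have hw0 : (0 : ℝ) < w := by exact_mod_cast (by omega : 0 < w)
  have hw1 : (1 : ℝ) ≤ w := by exact_mod_cast (by omega : 1 ≤ w)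
  have hdq' : (d : ℝ) / q ≤ 1 := by
    rw [div_le_one hq0]
    exact_mod_cast hdq
  have hdq0 : 0 ≤ (d : ℝ) / q := by positivity
  have h1 := hh_chord q ((w : ℝ) - 1) (1 - d / q) (by linarith) (by linarith) (by linarith)
  have h2 := hh_add_one q (b := (w : ℝ) - 1) (by linarith)
  rw [sub_add_cancel] at h1 h2
  have e1 : (w : ℝ) - 1 + (1 - d / q) = w - d / q := by ring
  have e2 : (w : ℝ) - 1 + q + 1 = w + q := by ring
  rw [e1] at h1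
  rw [e2] at h2
  have hhq : 0 < hh q (w : ℝ) := hh_pos q hw0.le
  have h3 : (1 - (1 - (d : ℝ) / q)) * hh q ((w : ℝ) - 1) + (1 - d / q) * hh q (w : ℝ) =
      hh q (w : ℝ) * (1 + d / w) := by
    have h4 : hh q ((w : ℝ) - 1) = hh q (w : ℝ) * ((w + q) / w) := by
      rw [h2]
      have h5 : (w : ℝ) + q ≠ 0 := by positivity
      field_simp
    rw [h4]
    field_simp
    ring
  rw [h3] at h1
  have h6 : (0 : ℝ) ≤ ((w : ℝ) + q + 1) * (q + 2) := by positivity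
  refine (mul_le_mul_of_nonneg_right h1 h6).trans ?_
  rw [mul_assoc]
  refine mul_le_mul_of_nonneg_left ?_ hhq.le
  have h7 := I2s_num w q d hq2 hqw hd2 hdq
  have h8 : (1 + (d : ℝ) / w) * (((w : ℝ) + q + 1) * (q + 2)) =
      ((w + d) * (((w : ℝ) + q + 1) * (q + 2))) / w := by
    field_simp
  rw [h8, div_le_iff₀ hw0]
  nlinarith

/-- numbers of `I2_big`, `q = 2` -/
theorem I2b_two (w d : ℝ) (hd : 3 ≤ d) (hw : 2 * d ≤ w) :
    4 * ((w + 1) * (w + 2)) * (w + 3) ≤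
      3 * ((w + 1 - d / 2) * (w + 2 - d / 2)) * (2 * w + d + 4) := by
  obtain ⟨s, hs, rfl⟩ : ∃ s : ℝ, 0 ≤ s ∧ d = 3 + 2 * s := ⟨(d - 3) / 2, by linarith, by ring⟩
  obtain ⟨t, ht, rfl⟩ : ∃ t : ℝ, 0 ≤ t ∧ w = 2 * (3 + 2 * s) + 4 * t :=
    ⟨(w - 2 * (3 + 2 * s)) / 4, by linarith, by ring⟩
  have h : 0 ≤ 87 / 4 + 137 / 2 * s + 600 * s * t + 288 * s * t ^ 2 + 57 * s ^ 2 +
    168 * s ^ 2 * t + 14 * s ^ 3 + 538 * t + 528 * t ^ 2 + 128 * t ^ 3 := by positivity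
  nlinarith [h]

/-- numbers of `I2_big`, `q = d` -/
theorem I2b_d (w d : ℝ) (hd : 3 ≤ d) (hw : 2 * d ≤ w) :
    ((w + 1) * (w + 2)) * (d + 2) ≤ 2 * ((w + 1 - d / 2) * (w + 2 - d / 2)) * (d + 1) := by
  obtain ⟨s, hs, rfl⟩ : ∃ s : ℝ, 0 ≤ s ∧ d = s + 3 := ⟨d - 3, by linarith, by ring⟩
  obtain ⟨t, ht, rfl⟩ : ∃ t : ℝ, 0 ≤ t ∧ w = 2 * (s + 3) + t :=
    ⟨w - 2 * (s + 3), by linarith, by ring⟩
  have h : 0 ≤ 6 + 19 / 2 * s + 13 * s * t + s * t ^ 2 + 4 * s ^ 2 + 2 * s ^ 2 * t +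
    1 / 2 * s ^ 3 + 21 * t + 3 * t ^ 2 := by positivity
  nlinarith [h]

/-- numbers of `I2_big` -/
theorem I2b_num (w q d : ℝ) (hq2 : 2 ≤ q) (hqd : q ≤ d) (hd : 3 ≤ d) (hw : 2 * d ≤ w) :
    ((w + 1) * (w + 2)) * ((q + 2) * (w + q + 1)) ≤
      ((w + 1 - d / 2) * (w + 2 - d / 2)) * ((q + 1) * (2 * w + d + q + 2)) := by
  have h1 := I2b_two w d hd hw
  have h2 := I2b_d w d hd hw
  set A := (w + 1 - d / 2) * (w + 2 - d / 2) with hA
  set B := (w + 1) * (w + 2) with hB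
  have hAB : A ≤ B := by
    rw [hA, hB]
    nlinarith
  have h3 : B * (d + 2) * (w + d + 1) ≤ 2 * A * (d + 1) * (w + d + 1) :=
    mul_le_mul_of_nonneg_right h2 (by linarith)
  have h4 : 0 ≤ (B - A) * ((q - 2) * (d - q) * (d - 2)) := by
    refine mul_nonneg (by linarith) (mul_nonneg (mul_nonneg ?_ ?_) ?_) <;> linarith
  have h5 : 0 ≤ (d - q) * (3 * A * (2 * w + d + 4) - 4 * B * (w + 3)) :=
    mul_nonneg (by linarith) (by linarith)
  have h6 : 0 ≤ (q - 2) * (2 * A * (d + 1) * (w + d + 1) - B * (d + 2) * (w + d + 1)) :=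
    mul_nonneg (by linarith) (by linarith)
  have h7 : (d - 2) * (A * ((q + 1) * (2 * w + d + q + 2)) - B * ((q + 2) * (w + q + 1))) =
      (d - q) * (3 * A * (2 * w + d + 4) - 4 * B * (w + 3)) +
      (q - 2) * (2 * A * (d + 1) * (w + d + 1) - B * (d + 2) * (w + d + 1)) +
      (B - A) * ((q - 2) * (d - q) * (d - 2)) := by
    ring
  have h8 : 0 ≤ (d - 2) * (A * ((q + 1) * (2 * w + d + q + 2)) - B * ((q + 2) * (w + q + 1))) := by
    rw [h7]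
    linarith
  have h9 := nonneg_of_mul_nonneg_right h8 (by linarith : (0 : ℝ) < d - 2)
  linarith

/-- For `q < d`: `hh_U2` and `hh 2 x = 2/((x+1)(x+2))`. With `A = (w+1-d/2)(w+2-d/2)`,
`B = (w+1)(w+2)` the claim is `g(q) = A (q+1)(2w+d+q+2) - B (q+2)(w+q+1) ≥ 0`. `g` is concave in `q`
(`A ≤ B`), so it suffices to look at `q = 2` and `q = d` (`2 ≤ q ≤ d`).
`q = 2`: `3A(2w+d+4) ≥ 4B(w+3)`: the left side is decreasing in `d` on `[0, w/2]`, at `d = w/2` the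
difference is `w (0.21875 w² - 0.375 w - 2)`, `≥ 0` for `w ≥ 4`.
`q = d`: `2A(d+1) ≥ B(d+2)` (divide by `w+d+1`); `d ≥ 3`, `w ≥ 2d` (put `w = 2d + t`). -/
theorem I2_big (w q d : ℕ) (hq2 : 2 ≤ q) (hqw : q + 1 ≤ w) (hd2 : 2 * d ≤ w) (hdq : q < d) :
    hh q ((w : ℝ) - d / q) * (((w : ℝ) + q + 1) * (q + 2)) ≤
      hh q (w : ℝ) * (((q : ℝ) + 1) * (2 * w + d + q + 2)) := by
  have hq2' : (2 : ℝ) ≤ q := by exact_mod_cast hq2
  have hqd' : (q : ℝ) ≤ d := by exact_mod_cast hdq.le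
  have hd3 : (3 : ℝ) ≤ d := by exact_mod_cast (by omega : 3 ≤ d)
  have hdw : 2 * (d : ℝ) ≤ w := by exact_mod_cast hd2
  have hw0 : (0 : ℝ) < w := by linarith
  have h1 := hh_U2 q (w : ℝ) d hq2 (by linarith) (by linarith) hw0
  have h2 := I2b_num (w : ℝ) q d hq2' hqd' hd3 hdw
  have e2 : ∀ x : ℝ, hh 2 x = 2 / ((x + 1) * (x + 2)) := by
    intro x
    rw [hh_succ, hh_succ, hh_zero]
    push_cast
    rw [one_mul, div_mul_div_comm]
    norm_num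
  rw [e2, e2] at h1
  have hA0 : 0 < ((w : ℝ) + 1 - d / 2) * (w + 2 - d / 2) :=
    mul_pos (by linarith) (by linarith)
  have hB0 : 0 < ((w : ℝ) + 1) * (w + 2) := by positivity
  have e3 : ((w : ℝ) - d / 2 + 1) * (w - d / 2 + 2) =
      ((w : ℝ) + 1 - d / 2) * (w + 2 - d / 2) := by ring
  rw [e3] at h1
  set A := ((w : ℝ) + 1 - d / 2) * (w + 2 - d / 2) with hA
  set B := ((w : ℝ) + 1) * (w + 2) with hB
  have hhq : 0 < hh q (w : ℝ) := hh_pos q hw0.le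
  have h3 : hh q ((w : ℝ) - d / q) * A ≤ hh q (w : ℝ) * B := by
    have h4 : hh q ((w : ℝ) - d / q) * (2 / B) * (A * B / 2) ≤
        2 / A * hh q (w : ℝ) * (A * B / 2) :=
      mul_le_mul_of_nonneg_right h1 (by positivity)
    have e4 : hh q ((w : ℝ) - d / q) * (2 / B) * (A * B / 2) = hh q ((w : ℝ) - d / q) * A := by
      field_simp
    have e5 : 2 / A * hh q (w : ℝ) * (A * B / 2) = hh q (w : ℝ) * B := by
      field_simp
    rwa [e4, e5] at h4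
  have h5 : hh q ((w : ℝ) - d / q) * A * (((w : ℝ) + q + 1) * (q + 2)) ≤
      hh q (w : ℝ) * B * (((w : ℝ) + q + 1) * (q + 2)) :=
    mul_le_mul_of_nonneg_right h3 (by positivity)
  have h6 : hh q (w : ℝ) * (B * (((q : ℝ) + 2) * (w + q + 1))) ≤
      hh q (w : ℝ) * (A * (((q : ℝ) + 1) * (2 * w + d + q + 2))) :=
    mul_le_mul_of_nonneg_left h2 hhq.le
  have h7 : A * (hh q ((w : ℝ) - d / q) * (((w : ℝ) + q + 1) * (q + 2))) ≤
      A * (hh q (w : ℝ) * (((q : ℝ) + 1) * (2 * w + d + q + 2))) := by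
    calc A * (hh q ((w : ℝ) - d / q) * (((w : ℝ) + q + 1) * (q + 2)))
        = hh q ((w : ℝ) - d / q) * A * (((w : ℝ) + q + 1) * (q + 2)) := by ring
      _ ≤ hh q (w : ℝ) * B * (((w : ℝ) + q + 1) * (q + 2)) := h5
      _ = hh q (w : ℝ) * (B * (((q : ℝ) + 2) * (w + q + 1))) := by ring
      _ ≤ hh q (w : ℝ) * (A * (((q : ℝ) + 1) * (2 * w + d + q + 2))) := h6
      _ = A * (hh q (w : ℝ) * (((q : ℝ) + 1) * (2 * w + d + q + 2))) := by ring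
  exact le_of_mul_le_mul_left h7 hA0

/-- `i = 0`, long tail of ones (then `q = 2`): `W < e`, so `e ≥ …`. `W = (2w-d-e)/2 ≥ (w+r-d)/2 ≥
(w+1)/2` (`e ≤ w - r`, `d ≤ r - 1`), `(e+1) W (W+1) ≥ W (W+1)² ≥ (w+1)(w+3)²/8 ≥ (w+1)(w+2)` for
`w ≥ 4`; and `w ≥ 4` because `(w+1)/2 ≤ W < e ≤ w - r`, `r ≥ 3`. -/
theorem I0p_num (w r d e : ℕ) (W : ℝ) (hr : 3 ≤ r) (hdr : d + 1 ≤ r) (her : e + r ≤ w)
    (hW : 2 * W + e + d = 2 * w) (hWe : W < e) :
    ((w : ℝ) + 1) * (w + 2) ≤ ((e : ℝ) + 1) * (W * (W + 1)) := by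
  have hr' : (3 : ℝ) ≤ r := by exact_mod_cast hr
  have hdr' : (d : ℝ) + 1 ≤ r := by exact_mod_cast hdr
  have her' : (e : ℝ) + r ≤ w := by exact_mod_cast her
  have hW1 : ((w : ℝ) + 1) / 2 ≤ W := by linarith
  have hw : (4 : ℝ) ≤ w := by linarith
  have hW0 : 0 < W := by linarith
  have h1 : (W + 1) * (W * (W + 1)) ≤ ((e : ℝ) + 1) * (W * (W + 1)) :=
    mul_le_mul_of_nonneg_right (by linarith) (by positivity)
  refine le_trans ?_ h1
  obtain ⟨t, ht, rfl⟩ : ∃ t : ℝ, 0 ≤ t ∧ W = ((w : ℝ) + 1) / 2 + t :=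
    ⟨W - ((w : ℝ) + 1) / 2, by linarith, by ring⟩
  have h2 : ((w : ℝ) + 1) * (w + 2) ≤ (((w : ℝ) + 1) / 2 + 1) * ((((w : ℝ) + 1) / 2) *
      (((w : ℝ) + 1) / 2 + 1)) := by
    have h3 : 8 * ((w : ℝ) + 2) ≤ (w + 3) ^ 2 := by nlinarith
    have h4 : ((w : ℝ) + 1) * (8 * (w + 2)) ≤ (w + 1) * (w + 3) ^ 2 :=
      mul_le_mul_of_nonneg_left h3 (by linarith)
    nlinarith
  refine h2.trans ?_
  have h5 : (0 : ℝ) ≤ (w + 1) / 2 := by linarith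
  have h6 : (((w : ℝ) + 1) / 2 + 1) ≤ ((w + 1) / 2 + t + 1) := by linarith
  refine mul_le_mul h6 (mul_le_mul (by linarith) h6 (by linarith) (by linarith)) ?_ (by linarith)
  exact mul_nonneg h5 (by linarith)

end Pool.Agent.LRQ
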