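import Mathlib
import Pool.Agent.LRQ.TA
import Pool.Agent.LRF.E6
import Pool.Agent.LRT.T1

set_option autoImplicit false

/-! # [LRQ-M1] the box theorem for exact width `w`: `w ≥ 3r - 2` parts from the landed theorems -/

namespace Pool.Agent.LRQ

open Finset
open Pool.Agent.LRE Pool.Agent.LRT

/-- `LRF.TT3 r w d s` gives `psi s ≤ max (NN r s.sum) (NN w s.sum)`; `s.sum = r*w - d`; `TT` with
`c = r` and `c = w`. -/
theorem M_TT3 (w r d : ℕ) (T : ℝ) (s : Multiset ℕ) (h : TT w r d T) (hr : 2 ≤ r) (hrw : r ≤ w)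
    (hd : d < w) (hpos : ∀ x ∈ s, 0 < x) (hsup : s.sup = w) (hcard : s.card ≤ w)
    (hsum : s.sum + d = r * w) (hdr : d + r ≤ w) (h3 : 3 * r ≤ w + 2) :
    psi s ≤ T * hh r (w : ℝ) := by
  have hs : s.sum = r * w - d := by omega
  have e1 := LRF.TT3 r w d s hr hpos hsup hcard hsum hdr h3
  rw [hs] at e1
  refine e1.trans (max_le ?_ ?_)
  · refine h r (by omega) (by omega) ?_
    rw [Nat.add_sub_cancel]
    exact Nat.le_add_right _ _
  · refine h w (by omega) (by omega) ?_
    rw [Nat.add_sub_cancel_left, Nat.mul_comm]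
    exact Nat.le_add_right _ _

theorem m1_sup_le (s : Multiset ℕ) : s.sup ≤ s.sum := by
  rw [Multiset.sup_le]
  intro b hb
  exact Multiset.le_sum_of_mem hb

/-- `w ≥ 3r`. `r = 1`: `s.sum = w - d` and `s.sup = w`, so `d = 0` and `s.sum = w`; `tl1 (w-1) s`:
`psi s ≤ hh w 1 = hh 1 w` and `TT_one`. `r ≥ 2`: `d + r ≤ w`: `M_TT3`. Otherwise
`(r-1) w < s.sum = r w - d ≤ (r-1)(w+1)`: for `r ≥ 3`, `LRF.crudeF (r-1) w s` (`RC`: `3(r-1) ≤ w+1`);
for `r = 2`, `tl1 w s` (`s.sum ≥ w + 1`): `psi s ≤ hh (w+1) (r-1) = hh (r-1) (w+1) ≤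
NN (r-1) s.sum` (`NN_ge_rect (r-1) (w+1)`), and `TT` with `c = r - 1` (`(r-1)(w+1) ≥ r w - d`). -/
theorem M_thin (w r d : ℕ) (T : ℝ) (s : Multiset ℕ) (h : TT w r d T) (hr : 1 ≤ r) (hrw : r ≤ w)
    (hd : d < w) (hpos : ∀ x ∈ s, 0 < x) (hsup : s.sup = w) (hcard : s.card ≤ w)
    (hsum : s.sum + d = r * w) (h3 : 3 * r ≤ w) :
    psi s ≤ T * hh r (w : ℝ) := by
  have hs : s.sum = r * w - d := by omega
  rcases Nat.lt_or_ge r 2 with hr2 | hr2
  · obtain rfl : r = 1 := by omega
    have h1 := m1_sup_le s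
    rw [hsup] at h1
    have h2 : s.sum = w := by omega
    have hT := TT_one w 1 d T h le_rfl hrw hd
    have h4 := tl1 (w - 1) s (by omega)
    have h5 : w - 1 + 1 = w := by omega
    rw [h5] at h4
    have h6 := hh_symm w 1
    rw [Nat.cast_one] at h6
    rw [h6] at h4
    have h7 : 0 < hh 1 (w : ℝ) := hh_pos 1 (Nat.cast_nonneg w)
    nlinarith
  · by_cases hdr : d + r ≤ w
    · exact M_TT3 w r d T s h hr2 hrw hd hpos hsup hcard hsum hdr (by omega)
    · rw [not_le] at hdr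
      obtain ⟨q, rfl⟩ : ∃ q, r = q + 1 := ⟨r - 1, by omega⟩
      have e1 : (q + 1) * w = q * w + w := by ring
      have e2 : q * (w + 1) = q * w + q := by ring
      have h1 : q * w < s.sum := by omega
      have h2 : s.sum ≤ q * (w + 1) := by omega
      have h4 : psi s ≤ hh (w + 1) (q : ℝ) := by
        rcases Nat.lt_or_ge q 2 with hq | hq
        · obtain rfl : q = 1 := by omega
          rw [Nat.cast_one]
          exact tl1 w s (by omega)
        · exact LRF.crudeF q w s hq (Or.inl (by omega)) hpos hcard hsup.le h1 h2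
      rw [hh_symm] at h4
      have h5 := NN_ge_rect q (w + 1) s.sum (by omega) h2
      have h6 := h q (by omega) (by omega) (by
        have : w + (q + 1) - q = w + 1 := by omega
        rw [this]
        omega)
      rw [hs] at h5
      exact h4.trans (h5.trans h6)

end Pool.Agent.LRQ
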