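import Mathlib
import Pool.Agent.LRQ.A4
import Pool.Agent.LRQ.A8
import Pool.Agent.LRQ.A9
import Pool.Agent.LRQ.AH
import Pool.Agent.LRQ.TA

set_option autoImplicit false

/-!
# LRQ: the shape `w^a, W^c, 1^e` (definition, no open row in this file)
-/

namespace Pool.Agent.LRQ

open Finset
open Pool.Agent.LRE Pool.Agent.LRT
open scoped NNReal

/-- rows `w^a`, `W^c`, `1^e` -/
noncomputable def sh (a c e w : ℕ) (W : ℝ≥0) : Multiset ℝ≥0 :=
  Multiset.replicate a (w : ℝ≥0) + (Multiset.replicate c W + Multiset.replicate e 1)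

/-- rows `w^a`, `W^c` -/
noncomputable def fl (a c w : ℕ) (W : ℝ≥0) : Multiset ℝ≥0 :=
  Multiset.replicate a (w : ℝ≥0) + Multiset.replicate c W

end Pool.Agent.LRQ
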