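import Mathlib
import Pool.Agent.LRQ.Sh

set_option autoImplicit false

/-! # [LRQ-M2A] the vertex form of a shape -/

namespace Pool.Agent.LRQ

open Finset
open Pool.Agent.LRE Pool.Agent.LRT
open scoped NNReal

theorem M2A_mem (w : ℕ) (s : Multiset ℕ) (hw : 1 ≤ w) (hsup : s.sup = w) : 1 ≤ s.count w := by
  rw [Nat.one_le_iff_ne_zero, ← Nat.pos_iff_ne_zero, Multiset.count_pos]
  by_contra hmem
  have h : s.sup ≤ w - 1 := by
    rw [Multiset.sup_le]
    intro x hx
    have h1 : x ≤ w := hsup ▸ Multiset.le_sup hx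
    have h2 : x ≠ w := fun h => hmem (h ▸ hx)
    omega
  omega

theorem M2A_sum (s : Multiset ℕ) : (((cst s).sum : ℝ≥0) : ℝ) = ((s.sum : ℕ) : ℝ) := by
  unfold cst
  induction s using Multiset.induction with
  | empty => simp
  | cons a s ih =>
    rw [Multiset.map_cons, Multiset.sum_cons, Multiset.sum_cons, NNReal.coe_add, ih, Nat.cast_add,
      NNReal.coe_natCast]

/-- `vertex` for `cst s` with `w`, `l = 1` (`cst_sup`, `cst_card`, `rpsi_cst`; the count of `w` in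
`cst s` is the count of `w` in `s`, `≥ 1` if `s.sup = w ≥ 1` and `s ≠ 0`), and the lower bound for
`c`: with `q = r - a`, if `c + 2 ≤ q` then `q w = c W + e + d ≤ c w + (w-a-c) + (w-1) < (c+2) w`.
(`a ≤ r` because `a w ≤ s.sum ≤ r w`.) -/
theorem M_vertex (w r d : ℕ) (s : Multiset ℕ) (hr : 1 ≤ r) (hrw : r ≤ w) (hd : d < w)
    (hpos : ∀ x ∈ s, 0 < x) (hsup : s.sup = w) (hcard : s.card ≤ w) (hsum : s.sum + d = r * w) :
    ∃ (a c e q : ℕ) (W : ℝ≥0), a + c + e = s.card ∧ s.count w ≤ a ∧ 1 ≤ a ∧ a + q = r ∧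
      q ≤ c + 1 ∧ 1 ≤ W ∧ W ≤ w ∧ (c : ℝ) * (W : ℝ) + e + d = q * w ∧
      psi s ≤ rpsi (sh a c e w W) := by
  classical
  have hw : 1 ≤ w := hr.trans hrw
  have hcount := M2A_mem w s hw hsup
  obtain ⟨a, c, e, W, h1, h2, h3, h4, h5, h6⟩ := vertex (w : ℝ≥0) 1 (by exact_mod_cast hw) (cst s)
    (by
      intro x hx
      unfold cst at hx
      obtain ⟨n, hn, rfl⟩ := Multiset.mem_map.1 hx
      refine ⟨by exact_mod_cast hpos n hn, ?_⟩
      have : n ≤ w := hsup ▸ Multiset.le_sup hn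
      exact_mod_cast this)
  have hc2 : (cst s).count (w : ℝ≥0) = s.count w := by
    unfold cst
    exact Multiset.count_map_eq_count' _ _ Nat.cast_injective _
  rw [hc2] at h2
  rw [cst_card] at h1
  have h5' : (a : ℝ) * w + c * W + e = (s.sum : ℕ) := by
    have h := congrArg (fun t : ℝ≥0 => (t : ℝ)) h5
    beta_reduce at h
    rw [M2A_sum, NNReal.coe_add, NNReal.coe_add, NNReal.coe_mul, NNReal.coe_mul, NNReal.coe_mul,
      NNReal.coe_natCast, NNReal.coe_natCast, NNReal.coe_natCast, NNReal.coe_natCast,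
      NNReal.coe_one] at h
    linarith
  have hsum' : ((s.sum : ℕ) : ℝ) + d = r * w := by exact_mod_cast hsum
  have hW0 : (0 : ℝ) ≤ (W : ℝ) := W.2
  have hWw : (W : ℝ) ≤ (w : ℝ) := by exact_mod_cast h4
  have hw0 : (0 : ℝ) < (w : ℝ) := by exact_mod_cast hw
  have hc0 : (0 : ℝ) ≤ (c : ℝ) := Nat.cast_nonneg _
  have he0 : (0 : ℝ) ≤ (e : ℝ) := Nat.cast_nonneg _
  have hd0 : (0 : ℝ) ≤ (d : ℝ) := Nat.cast_nonneg _
  have har : a ≤ r := by
    by_contra hlt
    have h7 : (r : ℝ) + 1 ≤ a := by exact_mod_cast Nat.succ_le_of_lt (not_le.1 hlt)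
    nlinarith [mul_nonneg hc0 hW0, mul_le_mul_of_nonneg_right h7 hw0.le]
  have ha1 : 1 ≤ a := hcount.trans h2
  have hq : ((r - a : ℕ) : ℝ) = (r : ℝ) - a := by push_cast [Nat.cast_sub har]; ring
  have heq : (c : ℝ) * (W : ℝ) + e + d = ((r - a : ℕ) : ℝ) * w := by
    rw [hq]; linarith
  refine ⟨a, c, e, r - a, W, h1, h2, ha1, by omega, ?_, h3, h4, heq, ?_⟩
  · by_contra hlt
    have h8 : (c : ℝ) + 2 ≤ ((r - a : ℕ) : ℝ) := by
      have : c + 2 ≤ r - a := by omega
      exact_mod_cast this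
    have h9 : (e : ℝ) ≤ (w : ℝ) - 1 := by
      have : e + 1 ≤ w := by omega
      have h10 : ((e : ℝ) + 1) ≤ w := by exact_mod_cast this
      linarith
    have h11 : (d : ℝ) ≤ (w : ℝ) - 1 := by
      have : d + 1 ≤ w := by omega
      have h10 : ((d : ℝ) + 1) ≤ w := by exact_mod_cast this
      linarith
    have h12 : (c : ℝ) * (W : ℝ) ≤ c * w := mul_le_mul_of_nonneg_left hWw hc0
    have h13 : ((c : ℝ) + 2) * w ≤ ((r - a : ℕ) : ℝ) * w := mul_le_mul_of_nonneg_right h8 hw0.le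
    linarith
  · rw [← rpsi_cst]
    exact h6

/-- a shape of width `w` with sum `> (r-1) w` has at least `r` rows, and at least one row `w` -/
theorem M_card (w r d : ℕ) (s : Multiset ℕ) (hr : 1 ≤ r) (hd : d < w) (hsup : s.sup = w)
    (hsum : s.sum + d = r * w) : r ≤ s.card ∧ 1 ≤ s.count w := by
  refine ⟨?_, M2A_mem w s (by omega) hsup⟩
  have h1 : s.sum ≤ s.card * w := by
    have := Multiset.sum_le_card_nsmul s w (fun x hx => hsup ▸ Multiset.le_sup hx)
    simpa [smul_eq_mul] using this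
  by_contra hlt
  have h2 : s.card + 1 ≤ r := by omega
  have h3 : (s.card + 1) * w ≤ r * w := Nat.mul_le_mul_right _ h2
  have h4 : (s.card + 1) * w = s.card * w + w := by ring
  omega

end Pool.Agent.LRQ
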