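import Mathlib
import Pool.Agent.LRQ.Num

set_option autoImplicit false

/-! # [LRQ-SN] region S (`a = 1`, `r = q + 1`, `r ≤ d ≤ w - r`, `w ≤ 3r - 3`): numbers -/

namespace Pool.Agent.LRQ

open Finset
open Pool.Agent.LRE Pool.Agent.LRT

/-- Here `q + 1 ≤ d ≤ w - q - 1 ≤ 2q - 1`, so `d/q = 1`, `d % q = d - q`,
`hq = (w+q)(w-1+d-q)/(w(w-1))`, and the claim is `d(q+1) + 1 ≤ w(q+1) + q²`. -/
theorem S1_num (w q d : ℕ) (hq2 : 2 ≤ q) (h1 : q + 1 ≤ d) (h2 : d + (q + 1) ≤ w)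
    (h3 : w ≤ 3 * q) : hq w q d ≤ 1 + ((d : ℝ) + ((q : ℝ) + 1)) / w := by
  have e1 : d / q = 1 := Nat.div_eq_of_lt_le (by omega) (by omega)
  have e2 : d % q = d - q := by
    rw [Nat.mod_eq_sub_mod (by omega), Nat.mod_eq_of_lt (by omega)]
  have hq0 : (2 : ℝ) ≤ q := by exact_mod_cast hq2
  have h1' : (q : ℝ) + 1 ≤ d := by exact_mod_cast h1
  have h2' : (d : ℝ) + (q + 1) ≤ w := by exact_mod_cast h2
  have hw : (1 : ℝ) < w := by linarith
  have hval : hq w q d = ((w : ℝ) + q) * (w - 1 + (d - q)) / (w * (w - 1)) := by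
    unfold hq
    rw [e1, e2, Nat.cast_sub (show q ≤ d by omega)]
    have hw0 : (w : ℝ) ≠ 0 := by positivity
    have hw1 : (w : ℝ) - 1 ≠ 0 := by linarith
    simp only [prod_range_one, Nat.cast_zero, Nat.cast_one, sub_zero]
    field_simp
  have hr : 1 + ((d : ℝ) + ((q : ℝ) + 1)) / w = ((w - 1) * (w + d + q + 1)) / (w * (w - 1)) := by
    have hw0 : (w : ℝ) ≠ 0 := by positivity
    have hw1 : (w : ℝ) - 1 ≠ 0 := by linarith
    field_simp
    ring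
  rw [hval, hr]
  have hpos : (0 : ℝ) < w * (w - 1) := mul_pos (by linarith) (by linarith)
  refine div_le_div_of_nonneg_right ?_ hpos.le
  nlinarith [mul_nonneg (show (0 : ℝ) ≤ w - d - 1 by linarith) (show (0 : ℝ) ≤ q + 1 by linarith)]

/-- `d + 1 ≤ 2q`, so (also for `d + 1 = 2q`) `hq w q (d+1) = (w+q)(w+d-q)/(w(w-1))`, and
`(V+2r+1)/(V+r+1) ≤ 3/2` would be enough only for small `r`: use `V = w-(d+1)/q ≥ w-2`,
`r = q + 1`, `w ≥ 2q + 2`: `(V+2r+1)/(V+r+1) ≤ (w+2q+1)/(w+q)` and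
`(w+2q+1)(w(w-1)+(w+q)(w+d-q)) ≤ 4(w+q)(w-1)(w+q+1)` with `d ≤ w-q-1` (large slack: the ratio is
at most `0.66`; put `w = 2q+2+t`). -/
theorem S0_num (w q d : ℕ) (V : ℝ) (hq2 : 2 ≤ q) (h1 : q + 1 ≤ d) (h2 : d + (q + 1) ≤ w)
    (h3 : w ≤ 3 * q) (hV : (q : ℝ) * V + (d + 1) = q * w) :
    (V + 2 * ((q : ℝ) + 1) + 1) * (1 + hq w q (d + 1)) ≤
      4 * (V + ((q : ℝ) + 1) + 1) * (1 + ((q : ℝ) + 1) / w) := by
  have hq0 : (2 : ℝ) ≤ q := by exact_mod_cast hq2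
  have h1' : (q : ℝ) + 1 ≤ d := by exact_mod_cast h1
  have h2' : (d : ℝ) + (q + 1) ≤ w := by exact_mod_cast h2
  have h3' : (w : ℝ) ≤ 3 * q := by exact_mod_cast h3
  have hw : (1 : ℝ) < w := by linarith
  have hw0 : (w : ℝ) ≠ 0 := by positivity
  have hw1 : (w : ℝ) - 1 ≠ 0 := by linarith
  have hval : hq w q (d + 1) = ((w : ℝ) + q) * (w + d - q) / (w * (w - 1)) := by
    unfold hq
    rcases Nat.lt_or_ge (d + 1) (2 * q) with hlt | hge
    · have e1 : (d + 1) / q = 1 := Nat.div_eq_of_lt_le (by omega) (by omega)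
      have e2 : (d + 1) % q = d + 1 - q := by
        rw [Nat.mod_eq_sub_mod (by omega), Nat.mod_eq_of_lt (by omega)]
      rw [e1, e2, Nat.cast_sub (show q ≤ d + 1 by omega)]
      simp only [prod_range_one, Nat.cast_zero, Nat.cast_one, sub_zero, Nat.cast_add]
      field_simp
      ring
    · have hd : d + 1 = 2 * q := by omega
      have e1 : (d + 1) / q = 2 := by
        rw [hd]
        exact Nat.mul_div_cancel _ (by omega)
      have e2 : (d + 1) % q = 0 := by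
        rw [hd]
        exact Nat.mul_mod_left _ _
      have hdr : (d : ℝ) = 2 * q - 1 := by
        have : ((d + 1 : ℕ) : ℝ) = ((2 * q : ℕ) : ℝ) := by rw [hd]
        push_cast at this
        linarith
      rw [e1, e2, hdr]
      simp only [prod_range_succ, prod_range_zero, Nat.cast_zero, Nat.cast_one, sub_zero,
        zero_div, add_zero, mul_one, one_mul]
      field_simp
      ring
  have hV2 : (w : ℝ) - 2 ≤ V := by
    have hd : (d : ℝ) + 1 ≤ 2 * q := by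
      have : d + 1 ≤ 2 * q := by omega
      exact_mod_cast this
    have : (q : ℝ) * (w - 2) ≤ q * V := by nlinarith
    exact le_of_mul_le_mul_left this (by linarith)
  have hpos : (0 : ℝ) < w * (w - 1) := mul_pos (by linarith) (by linarith)
  have hl : 1 + hq w q (d + 1) ≤
      ((w : ℝ) * (w - 1) + (w + q) * (2 * w - 2 * q - 1)) / (w * (w - 1)) := by
    rw [hval, add_div, div_self hpos.ne']
    have : ((w : ℝ) + q) * (w + d - q) ≤ (w + q) * (2 * w - 2 * q - 1) :=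
      mul_le_mul_of_nonneg_left (by linarith) (by linarith)
    have := div_le_div_of_nonneg_right this hpos.le
    linarith
  have hVp : (0 : ℝ) ≤ V + 2 * ((q : ℝ) + 1) + 1 := by linarith
  refine le_trans (mul_le_mul_of_nonneg_left hl hVp) ?_
  have hr : 4 * (V + ((q : ℝ) + 1) + 1) * (1 + ((q : ℝ) + 1) / w) =
      4 * (V + ((q : ℝ) + 1) + 1) * ((w + q + 1) * (w - 1)) / (w * (w - 1)) := by
    field_simp
    ring
  rw [hr, ← mul_div_assoc]
  refine div_le_div_of_nonneg_right ?_ hpos.le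
  obtain ⟨t, ht⟩ : ∃ t : ℕ, w = 2 * q + 2 + t := ⟨w - (2 * q + 2), by omega⟩
  obtain ⟨u, hu⟩ : ∃ u : ℕ, q = t + 2 + u := ⟨q - (t + 2), by omega⟩
  have ht0 : (0 : ℝ) ≤ t := Nat.cast_nonneg t
  have hu0 : (0 : ℝ) ≤ u := Nat.cast_nonneg u
  have hwr : (w : ℝ) = 2 * q + 2 + t := by rw [ht]; push_cast; ring
  have hqr : (q : ℝ) = t + 2 + u := by rw [hu]; push_cast; ring
  obtain ⟨v, hv⟩ : ∃ v : ℝ, V = w - 2 + v := ⟨V - (w - 2), by ring⟩
  have hv0 : 0 ≤ v := by linarith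
  have hX : (w : ℝ) * (w - 1) + (w + q) * (2 * w - 2 * q - 1) ≤ 4 * ((w + q + 1) * (w - 1)) := by
    nlinarith [mul_nonneg (show (0 : ℝ) ≤ w + q by linarith) (show (0 : ℝ) ≤ 2 * q - 1 by linarith),
      mul_nonneg (show (0 : ℝ) ≤ w - 1 by linarith) (show (0 : ℝ) ≤ q + 1 by linarith),
      mul_nonneg (show (0 : ℝ) ≤ w - 1 by linarith) (show (0 : ℝ) ≤ w + q + 1 by linarith)]
  have hY : ((w : ℝ) + 2 * q + 1) * (w * (w - 1) + (w + q) * (2 * w - 2 * q - 1)) ≤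
      4 * (w + q) * ((w + q + 1) * (w - 1)) := by
    rw [hwr, hqr]
    rw [← sub_nonneg]
    ring_nf
    positivity
  have hv1 := mul_le_mul_of_nonneg_left hX hv0
  rw [hv]
  nlinarith

/-- `RB 1 q w d = (d/q) ((w+q)/w) (w+q+1)/((q+1)(w-q+1))`; the claim is
`d (w+q) ≤ q(q+1)(w-q+1)`; `d ≤ w-q-1`, then concave in `w` on `[2q+2, 3q]`: at `w = 2q+2` the
difference is `q³+q²-2q-2`, at `w = 3q` it is `2q³-5q²+5q`. -/
theorem RBS_num (w q d : ℕ) (hq2 : 2 ≤ q) (h1 : q + 1 ≤ d) (h2 : d + (q + 1) ≤ w)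
    (h3 : w ≤ 3 * q) : RB 1 q w d ≤ 1 + ((q : ℝ) + 1) / w := by
  have hq0 : (2 : ℝ) ≤ q := by exact_mod_cast hq2
  have h1' : (q : ℝ) + 1 ≤ d := by exact_mod_cast h1
  have h2' : (d : ℝ) + (q + 1) ≤ w := by exact_mod_cast h2
  have h3' : (w : ℝ) ≤ 3 * q := by exact_mod_cast h3
  have hw : (1 : ℝ) < w := by linarith
  have hw0 : (w : ℝ) ≠ 0 := by positivity
  have hq00 : (q : ℝ) ≠ 0 := by positivity
  have hwq : (w : ℝ) - q + 1 ≠ 0 := by linarith
  have hq1 : (q : ℝ) + 1 ≠ 0 := by positivity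
  have hval : RB 1 q w d =
      ((d : ℝ) * (w + q)) * (w + q + 1) / ((q * (q + 1) * (w - q + 1)) * w) := by
    unfold RB
    simp only [prod_range_one, Nat.cast_zero, Nat.cast_one, sub_zero, zero_add, one_mul,
      sub_add_cancel]
    field_simp
  have hr : 1 + ((q : ℝ) + 1) / w =
      ((q * (q + 1) * (w - q + 1)) * (w + q + 1)) / ((q * (q + 1) * (w - q + 1)) * w) := by
    have : (q : ℝ) * (q + 1) * (w - q + 1) ≠ 0 := mul_ne_zero (mul_ne_zero hq00 hq1) hwq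
    rw [mul_div_mul_left _ _ this]
    field_simp
    ring
  have hpos : (0 : ℝ) < (q * (q + 1) * (w - q + 1)) * w := by
    have : (0 : ℝ) < w - q + 1 := by linarith
    positivity
  rw [hval, hr]
  refine div_le_div_of_nonneg_right (mul_le_mul_of_nonneg_right ?_ (by linarith)) hpos.le
  have hdw : (d : ℝ) * (w + q) ≤ (w - q - 1) * (w + q) :=
    mul_le_mul_of_nonneg_right (by linarith) (by linarith)
  refine le_trans hdw ?_
  have hw2 : (0 : ℝ) ≤ w - 2 * q - 2 := by linarith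
  have hw3 : (0 : ℝ) ≤ 3 * q - w := by linarith
  have hp := mul_nonneg hw2 hw3
  have hqq : (0 : ℝ) ≤ q - 2 := by linarith
  have e1 : (0 : ℝ) ≤ (q - 2) * q ^ 2 := by positivity
  have e2 : (0 : ℝ) ≤ (w - 2 * q - 2) * ((q - 2) * q) := by positivity
  have e3 : (0 : ℝ) ≤ (w - 2 * q - 2) * (q - 2) := by positivity
  have e4 : (0 : ℝ) ≤ (q - 2) * q := by positivity
  nlinarith

/-- numbers for `exact_S` (LRQ-PT). Put `d' = d - r + 1` (`1 ≤ d' ≤ w - 2r + 1 ≤ r - 2`), `N = w - 1`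
(`≥ 2r-1`), `A = 2r - d ≥ 3r - w ≥ 3`. Left minus `1`: `d'/(N A) + (r-1)/(2(w-d'))`; right minus `1`:
`r/w + (1+r/w)(d'-1)/(N(A+1))`. Since `1 + r/w ≥ 4/3 ≥ (A+1)/A`, the last term is
`≥ (d'-1)/(N A)`. So it is enough that `1/(N A) + (r-1)/(2(w-d')) ≤ r/w`; and `1/(N A) ≤ 1/15`,
`w - d' ≥ 2r - 1` gives `(r-1)/(2(w-d')) ≤ 1/4`, `r/w ≥ 1/3`. -/
theorem SPB_num (w r d : ℕ) (hr : 3 ≤ r) (h1 : r ≤ d) (h2 : d + r ≤ w) (h3 : w + 3 ≤ 3 * r) :
    1 + ((d : ℝ) - r + 1) / (((w : ℝ) - 1) * (2 * r - d)) +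
        ((r : ℝ) - 1) / (2 * ((w : ℝ) - d + r - 1)) ≤
      (1 + (r : ℝ) / w) * (1 + ((d : ℝ) - r) / ((2 * (r : ℝ) + 1 - d) * ((w : ℝ) - 1))) := by
  have hr' : (3 : ℝ) ≤ r := by exact_mod_cast hr
  have h1' : (r : ℝ) ≤ d := by exact_mod_cast h1
  have h2' : (d : ℝ) + r ≤ w := by exact_mod_cast h2
  have h3' : (w : ℝ) + 3 ≤ 3 * r := by exact_mod_cast h3
  obtain ⟨A, hA⟩ : ∃ A : ℝ, A = 2 * r - d := ⟨_, rfl⟩
  obtain ⟨N, hN⟩ : ∃ N : ℝ, N = w - 1 := ⟨_, rfl⟩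
  have hA3 : 3 ≤ A := by linarith
  have hN5 : 5 ≤ N := by linarith
  have hw0 : (0 : ℝ) < w := by linarith
  have hrw : (1 : ℝ) / 3 ≤ r / w := by
    rw [div_le_div_iff₀ (by norm_num) hw0]
    linarith
  have e1 : (2 * (r : ℝ) + 1 - d) = A + 1 := by rw [hA]; ring
  rw [e1, ← hN, ← hA]
  have hy0 : 0 ≤ ((d : ℝ) - r) / ((A + 1) * N) :=
    div_nonneg (by linarith) (mul_nonneg (by linarith) (by linarith))
  have hA1 : (A + 1) / A ≤ 1 + (r : ℝ) / w := by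
    have : (A + 1) / A ≤ 4 / 3 := by
      rw [div_le_div_iff₀ (by linarith) (by norm_num)]
      linarith
    linarith
  have hy1 : ((d : ℝ) - r) / (N * A) ≤ (1 + (r : ℝ) / w) * (((d : ℝ) - r) / ((A + 1) * N)) := by
    have h := mul_le_mul_of_nonneg_right hA1 hy0
    refine le_trans (le_of_eq ?_) h
    have hA0 : A ≠ 0 := by linarith
    have hN0 : N ≠ 0 := by linarith
    have hA10 : A + 1 ≠ 0 := by linarith
    field_simp
  have hs : ((d : ℝ) - r + 1) / (N * A) = ((d : ℝ) - r) / (N * A) + 1 / (N * A) := by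
    rw [← add_div]
  have h15 : 1 / (N * A) ≤ 1 / 15 := by
    refine one_div_le_one_div_of_le (by norm_num) ?_
    nlinarith
  have h4 : ((r : ℝ) - 1) / (2 * ((w : ℝ) - d + r - 1)) ≤ 1 / 4 := by
    rw [div_le_div_iff₀ (by linarith) (by norm_num)]
    linarith
  rw [hs, mul_add, mul_one]
  linarith

end Pool.Agent.LRQ
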