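import Mathlib
import Pool.Agent.LRQ.SN
import Pool.Agent.LRT.E1
import Pool.Agent.LRT.F3
import Pool.Agent.LRT.D1

set_option autoImplicit false

/-! # [LRQ-PT] shapes with exactly `r` rows -/

namespace Pool.Agent.LRQ

open Finset
open Pool.Agent.LRE Pool.Agent.LRT

private theorem pt_grow (d : ℕ → ℕ) (hm : Monotone d) (p w : ℕ) (hpw : p ≤ w)
    (h1 : 1 ≤ d (p + 1)) : SD d p + (w - p) ≤ SD d w := by
  induction w, hpw using Nat.le_induction with
  | base => simp
  | succ n hn ih =>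
    rw [SD_succ]
    have := hm (show p + 1 ≤ n + 1 by omega)
    omega

private theorem pt_step (d : ℕ → ℕ) (hm : Monotone d) (i p w : ℕ) (hip : i ≤ p) (hpw : p < w)
    (h1 : 1 ≤ d (i + 1)) : SD d i + d (p + 1) + (w - i - 1) ≤ SD d w := by
  have h2 := pt_grow d hm i p hip h1
  have h3 : SD d (p + 1) = SD d p + d (p + 1) := SD_succ d p
  have h4 : SD d (p + 1) + (w - (p + 1)) ≤ SD d w := by
    have h5 : 1 ≤ d (p + 1 + 1) := h1.trans (hm (by omega))
    exact pt_grow d hm (p + 1) w (by omega) h5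
  omega

private theorem pt_dd_sup (ω : Multiset ℕ) (w : ℕ) (h : ∀ x ∈ ω, x ≤ w) :
    dd ω w + ω.count w = ω.card := by
  induction ω using Multiset.induction_on with
  | empty => simp [dd]
  | cons a s ih =>
    have h1 := ih fun x hx => h x (Multiset.mem_cons_of_mem hx)
    have h2 := h a (Multiset.mem_cons_self a s)
    unfold dd at h1 ⊢
    rw [Multiset.countP_cons, Multiset.count_cons, Multiset.card_cons]
    by_cases h3 : a = w
    · subst h3
      simp only [lt_irrefl, if_false, if_true]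
      omega
    · rw [if_pos (by omega), if_neg (fun h4 => h3 h4.symm)]
      omega

/-- Copy of `Ph_T1b` (LRT/E1.lean) with `q ≤ w` in place of `q < w`: in (2), (3) one needs
`w - SD d w + e > 0` (`SD d w ≤ q ≤ w`, `e ≥ 1`), and in (4)
`(q+1-e)(w-δ+e) - w(q+1-δ) = (δ-e)(w-q-1+e) ≥ 0` holds because `e ≥ 1` and `q ≤ w`. -/
theorem Ph_T1c (q : ℕ) (d : ℕ → ℕ) (hm : Monotone d) (w : ℕ) (h1 : 1 ≤ w) (hq : SD d w ≤ q)
    (hw : q ≤ w) : Ph q d w ≤ (SD d w : ℝ) / ((w : ℝ) * ((q : ℝ) + 1 - SD d w)) := by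
  have hqR : (SD d w : ℝ) ≤ q := by exact_mod_cast hq
  have hwR : (q : ℝ) ≤ w := by exact_mod_cast hw
  have hδ0 : (0 : ℝ) ≤ SD d w := Nat.cast_nonneg _
  have hw0 : (0 : ℝ) < w := by exact_mod_cast h1
  have hsum : (SD d w : ℝ) = ∑ p ∈ range w, (d (p + 1) : ℝ) := by
    unfold SD
    push_cast
    rfl
  have key : ∀ p ∈ range w, gq q (d (p + 1)) / ((p : ℝ) + 1) * PP d p ≤
      (d (p + 1) : ℝ) / ((w : ℝ) * ((q : ℝ) + 1 - SD d w)) := by
    intro p hp
    rw [mem_range] at hp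
    by_cases he : d (p + 1) = 0
    · have : gq q (d (p + 1)) = 0 := by rw [he]; simp [gq]
      rw [this, he]
      simp
    · have he1 : 1 ≤ d (p + 1) := Nat.one_le_iff_ne_zero.2 he
      set e : ℝ := (d (p + 1) : ℝ) with he'
      have heR : (1 : ℝ) ≤ e := by rw [he']; exact_mod_cast he1
      have hA0 : (0 : ℝ) < w - SD d w + e := by linarith
      -- (2)
      have h2 : ∀ i, i ≤ p → PP d i ≤ ((w : ℝ) - SD d w + SD d i + e) / (w - SD d w + e) := by
        intro i
        induction i with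
        | zero =>
          intro _
          rw [PP_zero, SD_zero, Nat.cast_zero, add_zero, div_self hA0.ne']
        | succ i ih =>
          intro hi
          have h3 := ih (by omega)
          rw [PP_succ, SD_succ]
          push_cast
          have hSi : (0 : ℝ) ≤ SD d i := Nat.cast_nonneg _
          have hAi : (0 : ℝ) < (w : ℝ) - SD d w + SD d i + e := by linarith
          by_cases hz : d (i + 1) = 0
          · rw [hz, Nat.cast_zero, zero_div, add_zero, mul_one, add_zero]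
            exact h3
          · have h4 := pt_step d hm i p w (by omega) hp (Nat.one_le_iff_ne_zero.2 hz)
            have h5 : (w : ℝ) - SD d w + SD d i + e ≤ (i : ℝ) + 1 := by
              have h6 : SD d i + d (p + 1) + w ≤ SD d w + (i + 1) := by omega
              have h7 : ((SD d i + d (p + 1) + w : ℕ) : ℝ) ≤ ((SD d w + (i + 1) : ℕ) : ℝ) := by
                exact_mod_cast h6
              push_cast at h7
              rw [he']
              linarith
            have h8 : 1 + (d (i + 1) : ℝ) / ((i : ℝ) + 1) ≤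
                ((w : ℝ) - SD d w + SD d i + e + d (i + 1)) / ((w : ℝ) - SD d w + SD d i + e) := by
              rw [add_div, div_self hAi.ne']
              have : (d (i + 1) : ℝ) / ((i : ℝ) + 1) ≤
                  (d (i + 1) : ℝ) / ((w : ℝ) - SD d w + SD d i + e) :=
                div_le_div_of_nonneg_left (Nat.cast_nonneg _) hAi h5
              linarith
            calc PP d i * (1 + (d (i + 1) : ℝ) / ((i : ℝ) + 1))
                ≤ (((w : ℝ) - SD d w + SD d i + e) / (w - SD d w + e)) *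
                  (((w : ℝ) - SD d w + SD d i + e + d (i + 1)) /
                    ((w : ℝ) - SD d w + SD d i + e)) :=
                  mul_le_mul h3 h8 (by positivity) (div_nonneg hAi.le hA0.le)
              _ = ((w : ℝ) - SD d w + (SD d i + d (i + 1)) + e) / (w - SD d w + e) := by
                  field_simp
                  ring
      -- (3)
      have h3 : PP d p / ((p : ℝ) + 1) ≤ 1 / ((w : ℝ) - SD d w + e) := by
        have h4 := pt_step d hm p p w le_rfl hp he1
        have h5 : (w : ℝ) - SD d w + SD d p + e ≤ (p : ℝ) + 1 := by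
          have h6 : SD d p + d (p + 1) + w ≤ SD d w + (p + 1) := by omega
          have h7 : ((SD d p + d (p + 1) + w : ℕ) : ℝ) ≤ ((SD d w + (p + 1) : ℕ) : ℝ) := by
            exact_mod_cast h6
          push_cast at h7
          rw [he']
          linarith
        rw [div_le_iff₀ (by positivity)]
        refine (h2 p le_rfl).trans ?_
        rw [div_mul_eq_mul_div, one_mul]
        exact div_le_div_of_nonneg_right h5 hA0.le
      -- (4)
      have heδ : e ≤ SD d w := by
        rw [hsum, he']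
        exact single_le_sum (f := fun p => (d (p + 1) : ℝ)) (fun i _ => Nat.cast_nonneg _)
          (mem_range.2 hp)
      have hqe : (0 : ℝ) < (q : ℝ) + 1 - e := by linarith
      have hg : gq q (d (p + 1)) = e / ((q : ℝ) + 1 - e) := rfl
      calc gq q (d (p + 1)) / ((p : ℝ) + 1) * PP d p
          = gq q (d (p + 1)) * (PP d p / ((p : ℝ) + 1)) := by ring
        _ ≤ gq q (d (p + 1)) * (1 / ((w : ℝ) - SD d w + e)) := by
            apply mul_le_mul_of_nonneg_left h3
            rw [hg]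
            exact div_nonneg (by linarith) hqe.le
        _ = e / (((q : ℝ) + 1 - e) * ((w : ℝ) - SD d w + e)) := by
            rw [hg]
            field_simp
        _ ≤ e / ((w : ℝ) * ((q : ℝ) + 1 - SD d w)) := by
            apply div_le_div_of_nonneg_left (by linarith)
            · exact mul_pos hw0 (by linarith)
            · nlinarith [mul_nonneg (sub_nonneg.2 heδ)
                (show (0 : ℝ) ≤ (w : ℝ) - q - 1 + e by linarith)]
  have h5 : Ph q d w ≤ ∑ p ∈ range w, (d (p + 1) : ℝ) / ((w : ℝ) * ((q : ℝ) + 1 - SD d w)) :=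
    sum_le_sum key
  rw [← sum_div, ← hsum] at h5
  exact h5

/-- `PB` with `w = ω.sup`, `ω.card = r`, `SD (dd ω) w = d` (`SD_dd`), `dd_mono`, `Ph_T1c`:
`psi ω ≤ hh w r (1 + d/(w(r+1-d)))`; `NN_T1b`. -/
theorem exact_small (r d : ℕ) (ω : Multiset ℕ) (hr : 1 ≤ r) (hc : ω.card = r)
    (hd : ω.sum + d = r * ω.sup) (hdr : d ≤ r) (hrw : r ≤ ω.sup) : psi ω ≤ NN r ω.sum := by
  set w := ω.sup with hw
  have hle : ∀ x ∈ ω, x ≤ w := fun x hx => Multiset.le_sup hx
  have h1 := PB ω w hle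
  have h2 := SD_dd ω w hle
  rw [hc] at h1 h2
  have h3 : SD (dd ω) w = d := by omega
  have h4 := Ph_T1c r (dd ω) (dd_mono ω) w (by omega) (by omega) hrw
  rw [h3] at h4
  have h5 := NN_T1b r w d hr hdr (by omega)
  have h6 : r * w - d = ω.sum := by omega
  rw [h6] at h5
  have h7 : 0 < hh w (r : ℝ) := hh_pos w (Nat.cast_nonneg r)
  calc psi ω ≤ hh w (r : ℝ) * (1 + Ph r (dd ω) w) := h1
    _ ≤ hh w (r : ℝ) * (1 + (d : ℝ) / ((w : ℝ) * ((r : ℝ) + 1 - d))) :=
      mul_le_mul_of_nonneg_left (by linarith) h7.le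
    _ ≤ NN r ω.sum := h5

/-- `w = ω.sup`. Exactly one row is `w`, the others are `≤ w - 1`, so `dd ω w = r - 1` (the number of
rows `< w`), `SD (dd ω) w = d`, `SD (dd ω) (w-1) = d - (r-1) = d' ≤ r - 2` (see `SPB_num`).
`PB`: `psi ω ≤ hh w r (1 + Ph r (dd ω) w)`; with `w = v + 1`, `Ph_succ`:
`Ph r (dd ω) w = Ph r (dd ω) v + gq r (r-1)/(v+1) * PP (dd ω) v`, `gq r (r-1) = (r-1)/2`,
`Ph_T1c` for `v` (`d' ≤ r ≤ v`), `PP_le` (LRT/E1.lean): `PP (dd ω) v ≤ (v+1)/(v+1-d')`. So
`1 + Ph ≤ 1 + d'/((w-1)(r+1-d')) + (r-1)/(2(w-d'))`. On the other side `NN_near r (w-1) (d-r)`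
(`d - r < r`): `NN r (r w - d) = hh r (w-1) (1 + gq r (d-r)/(w-1))`, `hh r (w-1) = hh r w (1+r/w)`
(`f3_step`), `gq r (d-r) = (d-r)/(2r+1-d)`. `SPB_num`. -/
theorem exact_S (r d : ℕ) (ω : Multiset ℕ) (hr : 3 ≤ r) (hc : ω.card = r)
    (hd : ω.sum + d = r * ω.sup) (h1 : r ≤ d) (h2 : d + r ≤ ω.sup) (h3 : ω.sup + 3 ≤ 3 * r)
    (hcount : ω.count ω.sup = 1) : psi ω ≤ NN r ω.sum := by
  have hle : ∀ x ∈ ω, x ≤ ω.sup := fun x hx => Multiset.le_sup hx
  generalize ω.sup = w at hle hd h2 h3 hcount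
  have hPB := PB ω w hle
  have hSD := SD_dd ω w hle
  have hdd := pt_dd_sup ω w hle
  rw [hc] at hPB hSD hdd
  rw [hcount] at hdd
  obtain ⟨v, rfl⟩ : ∃ v, w = v + 1 := ⟨w - 1, by omega⟩
  have hS1 : SD (dd ω) (v + 1) = d := by omega
  rw [SD_succ] at hS1
  -- `d' = d - r + 1`
  obtain ⟨d', hd'⟩ : ∃ d', d' + r = d + 1 := ⟨d + 1 - r, by omega⟩
  have hS2 : SD (dd ω) v = d' := by omega
  have h4 := Ph_T1c r (dd ω) (dd_mono ω) v (by omega) (by omega) (by omega)
  have h5 := PP_le (dd ω) (dd_mono ω) v (by omega)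
  rw [hS2] at h4 h5
  have hR : (d' : ℝ) = (d : ℝ) - r + 1 := by
    have : (d' : ℝ) + r = d + 1 := by exact_mod_cast hd'
    linarith
  have hddR : ((dd ω (v + 1) : ℕ) : ℝ) = (r : ℝ) - 1 := by
    have : ((dd ω (v + 1) : ℕ) : ℝ) + 1 = r := by exact_mod_cast hdd
    linarith
  have hg : gq r (dd ω (v + 1)) = ((r : ℝ) - 1) / 2 := by
    unfold gq
    rw [hddR]
    congr 1
    ring
  have hrR : (3 : ℝ) ≤ r := by exact_mod_cast hr
  have hvR : (d : ℝ) + r ≤ (v : ℝ) + 1 := by exact_mod_cast h2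
  have hdR : (r : ℝ) ≤ d := by exact_mod_cast h1
  have h6 := SPB_num (v + 1) r d hr h1 h2 h3
  push_cast at h6
  have e1 : (v : ℝ) + 1 - 1 = v := by ring
  rw [e1] at h6
  -- the bound for `1 + Ph`
  have h7 : 1 + Ph r (dd ω) (v + 1) ≤ 1 + ((d : ℝ) - r + 1) / ((v : ℝ) * (2 * r - d)) +
      ((r : ℝ) - 1) / (2 * ((v : ℝ) + 1 - d + r - 1)) := by
    rw [Ph_succ, hg]
    have h8 : (d' : ℝ) / ((v : ℝ) * ((r : ℝ) + 1 - d')) =
        ((d : ℝ) - r + 1) / ((v : ℝ) * (2 * r - d)) := by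
      rw [hR]
      congr 2
      ring
    rw [h8] at h4
    have h9 : ((r : ℝ) - 1) / 2 / ((v : ℝ) + 1) * PP (dd ω) v ≤
        ((r : ℝ) - 1) / (2 * ((v : ℝ) + 1 - d + r - 1)) := by
      have hpos : (0 : ℝ) < (v : ℝ) + 1 - d + r - 1 := by linarith
      have h10 : ((v : ℝ) + 1) / ((v : ℝ) + 1 - d') =
          ((v : ℝ) + 1) / ((v : ℝ) + 1 - d + r - 1) := by
        rw [hR]
        congr 1
        ring
      rw [h10] at h5
      have h11 : (0 : ℝ) ≤ ((r : ℝ) - 1) / 2 / ((v : ℝ) + 1) :=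
        div_nonneg (div_nonneg (by linarith) (by norm_num)) (by positivity)
      refine (mul_le_mul_of_nonneg_left h5 h11).trans (le_of_eq ?_)
      have h12 : (v : ℝ) + 1 ≠ 0 := by positivity
      field_simp
    linarith
  -- the near rectangle
  have h8 := NN_near r v (d - r) (by omega) (by omega)
  have h9 : r * v - (d - r) = ω.sum := by
    rw [Nat.mul_succ] at hd
    omega
  rw [h9, f3_step r v] at h8
  have h10 : gq r (d - r) = ((d : ℝ) - r) / (2 * (r : ℝ) + 1 - d) := by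
    unfold gq
    rw [Nat.cast_sub h1]
    congr 1
    ring
  rw [h10, div_div, hh_symm r (v + 1)] at h8
  have h11 : 0 < hh (v + 1) (r : ℝ) := hh_pos (v + 1) (Nat.cast_nonneg r)
  rw [h8]
  calc psi ω ≤ hh (v + 1) (r : ℝ) * (1 + Ph r (dd ω) (v + 1)) := hPB
    _ ≤ hh (v + 1) (r : ℝ) * ((1 + (r : ℝ) / ((v : ℝ) + 1)) *
        (1 + ((d : ℝ) - r) / ((2 * (r : ℝ) + 1 - d) * v))) :=
      mul_le_mul_of_nonneg_left (h7.trans h6) h11.le
    _ = _ := by ring

end Pool.Agent.LRQ
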