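import Mathlib
import Pool.Agent.LRQ.FIN0
import Pool.Agent.LRQ.TA

set_option autoImplicit false

/-! # [LRQ-RF] short middle rows: the finite part -/

namespace Pool.Agent.LRQ

open Finset
open Pool.Agent.LRE Pool.Agent.LRT

/-- `RB ≤ GG w r J` or `RB ≤ T2`, in natural numbers (`T2` as in `TT_T2`). -/
def rfOK (w r a d : ℕ) : Bool :=
  decide (RBN a (r - a) w d * GGD r (JJ (w - r) d 7) ≤
      GGN w (JJ (w - r) d 7) * RBD a (r - a) w d) ||
    decide (RBN a (r - a) w d * (r * (w + 1 - d)) ≤
      ((w + 1) * (w - d) + d + r) * RBD a (r - a) w d)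

/-- the finite check -/
def rfChk (w r d a : ℕ) : Bool :=
  !(decide (1 ≤ a) && decide (a + 2 ≤ r) && decide (a * (r - a) < d)) || rfOK w r a d

/-- the finite check for all admissible `w < W` -/
def rfTab (W : ℕ) : Bool :=
  (List.range W).all fun w => (List.range (w + 1)).all fun r =>
    !(decide (w < 3 * r)) || (List.range w).all fun d =>
      !(decide (w - r + 1 ≤ d) && decide (w < 2 * d)) || (List.range r).all fun a => rfChk w r d a

theorem rfTab_true : rfTab 41 = true := by
  decide +kernel

/-- Kernel computation (`decide +kernel` on bounded quantifiers; checked by program: true). -/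
theorem rf_all (w r a d : ℕ) (hw : w ≤ 40) (ha : 1 ≤ a) (har : a + 2 ≤ r) (hrw : r ≤ w)
    (h3 : w < 3 * r) (hd : d < w) (hg : w - r + 1 ≤ d) (hd2 : w < 2 * d)
    (had : a * (r - a) < d) : rfOK w r a d = true := by
  have h := rfTab_true
  unfold rfTab at h
  rw [List.all_eq_true] at h
  have h1 := h w (List.mem_range.2 (by omega))
  rw [List.all_eq_true] at h1
  have h2 := h1 r (List.mem_range.2 (by omega))
  rw [decide_eq_true h3] at h2
  simp only [Bool.not_true, Bool.false_or] at h2
  rw [List.all_eq_true] at h2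
  have h4 := h2 d (List.mem_range.2 hd)
  rw [decide_eq_true hg, decide_eq_true hd2] at h4
  simp only [Bool.and_self, Bool.not_true, Bool.false_or] at h4
  rw [List.all_eq_true] at h4
  have h5 := h4 a (List.mem_range.2 (by omega))
  unfold rfChk at h5
  rw [decide_eq_true ha, decide_eq_true har, decide_eq_true had] at h5
  simpa only [Bool.and_self, Bool.not_true, Bool.false_or] using h5

/-- From `rfOK` to the inequality: `RB_eq`, `GG_eq`, `TT_GG`, `TT_T2` (as `V_of_OK` in LRQ/VF). -/
theorem RB_of_OK (w r a d q : ℕ) (T : ℝ) (h : TT w r d T) (ha : 1 ≤ a) (hq2 : 2 ≤ q)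
    (har : a + q = r) (hrw : r ≤ w) (hd : d < w) (hg : w - r + 1 ≤ d) (had : a * q < d)
    (hOK : rfOK w r a d = true) : RB a q w d ≤ T := by
  have hra : r - a = q := by omega
  unfold rfOK at hOK
  rw [hra] at hOK
  set J := JJ (w - r) d 7 with hJ
  have hJ1 : J * ((w - r) + J) ≤ d := JJ_le (w - r) d 7
  have hJr : J < r := by
    by_contra hc
    push Not at hc
    have h1 : r * w ≤ J * ((w - r) + J) := Nat.mul_le_mul hc (by omega)
    have h2 : w ≤ r * w := Nat.le_mul_of_pos_left w (by omega)
    omega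
  have hB : (0 : ℝ) < (RBD a q w d : ℝ) := by
    exact_mod_cast RBD_pos a q w d (by omega) (by omega)
  rw [RB_eq a q w d (by omega) (by omega) (by omega) (by omega)]
  rw [Bool.or_eq_true, decide_eq_true_eq, decide_eq_true_eq] at hOK
  rcases hOK with hOK | hOK
  · refine le_trans ?_ (TT_GG w r d J T h hJr hrw hd hJ1)
    have hG : (0 : ℝ) < (GGD r J : ℝ) := by
      exact_mod_cast GGD_pos r J hJr.le
    rw [GG_eq w r J hJr.le, div_le_div_iff₀ hB hG]
    exact_mod_cast hOK
  · refine le_trans ?_ (TT_T2 w r d T h (by omega) hrw hd hg)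
    have hdw : (d : ℝ) < w := by exact_mod_cast hd
    have hr0 : (0 : ℝ) < r := by
      have : 0 < r := by omega
      exact_mod_cast this
    have hD : (0 : ℝ) < (r : ℝ) * (w + 1 - d) := by
      apply mul_pos hr0
      linarith
    rw [div_le_div_iff₀ hB hD]
    have h1 : ((w + 1 - d : ℕ) : ℝ) = (w : ℝ) + 1 - d := by
      rw [Nat.cast_sub (by omega)]
      push_cast
      ring
    have h2 : ((w - d : ℕ) : ℝ) = (w : ℝ) - d := by
      rw [Nat.cast_sub hd.le]
    rw [← h1, ← h2]
    exact_mod_cast hOK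

end Pool.Agent.LRQ
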