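import Mathlib
import Pool.Agent.LRQ.Num

set_option autoImplicit false

/-! # [LRQ-RN1] short middle rows, `a = 1`, large width -/

namespace Pool.Agent.LRQ

open Finset
open Pool.Agent.LRE Pool.Agent.LRT

private theorem rn1_key (y s : ℕ) (h : 78 ≤ 3 * y + s) (w q : ℝ)
    (hw : w = 2 + (3 * (y : ℝ) + s) / 2) (hq : q = ((y : ℝ) + s) / 2) :
    0 ≤ 2 * w * (w + 1) * q * (q + 1) * (w - q + 1) -
      (w - 1) * (w + 4) * (w + q) * (w + q + 1) := by
  by_cases hy : 7 ≤ y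
  · obtain ⟨t, rfl⟩ := Nat.exists_eq_add_of_le hy
    have e : 2 * w * (w + 1) * q * (q + 1) * (w - q + 1) -
        (w - 1) * (w + 4) * (w + q) * (w + q + 1) =
        (12354 + 60202 * (s : ℝ) + 36820 * s * t + 7918 * s * t ^ 2 + 724 * s * t ^ 3 +
          24 * s * t ^ 4 + 9942 * s ^ 2 + 3978 * s ^ 2 * t + 518 * s ^ 2 * t ^ 2 +
          22 * s ^ 2 * t ^ 3 + 502 * s ^ 3 + 128 * s ^ 3 * t + 8 * s ^ 3 * t ^ 2 + 8 * s ^ 4 +
          s ^ 4 * t + 57225 * t + 24864 * t ^ 2 + 4206 * t ^ 3 + 318 * t ^ 4 + 9 * t ^ 5) / 8 := by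
      rw [hw, hq]
      push_cast
      ring
    rw [e]
    positivity
  · obtain ⟨t, ht⟩ := Nat.exists_eq_add_of_le (show 60 ≤ s by omega)
    have hs : (s : ℝ) = 60 + t := by rw [ht]; push_cast; ring
    rw [hs] at hw hq
    have hy' : y = 0 ∨ y = 1 ∨ y = 2 ∨ y = 3 ∨ y = 4 ∨ y = 5 ∨ y = 6 := by omega
    have e : ∀ c0 c1 c2 c3 c4 : ℝ, 0 ≤ c0 → 0 ≤ c1 → 0 ≤ c2 → 0 ≤ c3 → 0 ≤ c4 →
        0 ≤ (c0 + c1 * t + c2 * t ^ 2 + c3 * t ^ 3 + c4 * t ^ 4) / 8 := by
      intro c0 c1 c2 c3 c4 h0 h1 h2 h3 h4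
      positivity
    rcases hy' with rfl | rfl | rfl | rfl | rfl | rfl | rfl
    · refine (e 12267072 833976 21172 238 1 (by norm_num) (by norm_num) (by norm_num) (by norm_num)
        (by norm_num)).trans_eq ?_
      rw [hw, hq]
      push_cast
      ring
    · refine (e 30504756 1961050 47130 502 2 (by norm_num) (by norm_num) (by norm_num) (by norm_num)
        (by norm_num)).trans_eq ?_
      rw [hw, hq]
      push_cast
      ring
    · refine (e 53085024 3290392 76212 782 3 (by norm_num) (by norm_num) (by norm_num) (by norm_num)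
        (by norm_num)).trans_eq ?_
      rw [hw, hq]
      push_cast
      ring
    · refine (e 80553366 4839018 108550 1078 4 (by norm_num) (by norm_num) (by norm_num) (by norm_num)
        (by norm_num)).trans_eq ?_
      rw [hw, hq]
      push_cast
      ring
    · refine (e 113492064 6624520 144276 1390 5 (by norm_num) (by norm_num) (by norm_num) (by norm_num)
        (by norm_num)).trans_eq ?_
      rw [hw, hq]
      push_cast
      ring
    · refine (e 152521272 8665066 183522 1718 6 (by norm_num) (by norm_num) (by norm_num) (by norm_num)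
        (by norm_num)).trans_eq ?_
      rw [hw, hq]
      push_cast
      ring
    · refine (e 198300096 10979400 226420 2062 7 (by norm_num) (by norm_num) (by norm_num) (by norm_num)
        (by norm_num)).trans_eq ?_
      rw [hw, hq]
      push_cast
      ring

/-- `RB 1 q w d = (d/q) ((w+q)/w) (w+q+1)/((q+1)(w-q+1))`. `d (2w+3-d) ≤ (w-1)(w+4)` for `d ≤ w - 1`
(increasing). So it is enough that
`f = 2w(w+1) q (q+1)(w-q+1) - (w-1)(w+4)(w+q)(w+q+1) ≥ 0` for `w ≥ 41`, `w ≤ 3q+2`, `q + 2 ≤ w`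
(`q < d < w`). Put `y = w-2-q ≥ 0`, `s = 3q+2-w ≥ 0`, so `q = (y+s)/2`, `w = 2 + (3y+s)/2`,
`3y + s ≥ 78`:
`f = 9/8 y⁵ + 3/8 y⁴ - 36y³ - 105y² - 105y - 36 + s(3y⁴ + 13/2 y³ - 115/4 y² - 133/2 y - 33)
   + s²(11/4 y³ + 7y² - 5y - 17/2) + s³(y² + 2y - 1/4) + s⁴(y/8 + 1/8)`.
`y ≥ 7`: every bracket is `≥ 0` (put `y = 7 + t`). `y ≤ 6`: `s ≥ 60` (put `s = 60 + t`, seven
polynomials in `t`). Natural-number variables: `y, s : ℕ` with `3y + s = 2w - 4`, `y + s = 2q`. -/
theorem RB1_num (w q d : ℕ) (hw : 41 ≤ w) (h3 : w ≤ 3 * q + 2) (hqd : q < d) (hd : d < w) :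
    RB 1 q w d ≤ 2 * ((w : ℝ) + 1) / (2 * w + 3 - d) := by
  obtain ⟨y, hy⟩ := Nat.exists_eq_add_of_le (show q + 2 ≤ w by omega)
  obtain ⟨s, hs⟩ := Nat.exists_eq_add_of_le h3
  have hyR : (w : ℝ) = q + 2 + y := by rw [hy]; push_cast; ring
  have hsR : 3 * (q : ℝ) + 2 = w + s := by exact_mod_cast hs
  have key := rn1_key y s (by omega) (w : ℝ) (q : ℝ) (by linarith) (by linarith)
  have hq0 : 0 < (q : ℝ) := by
    have : 0 < q := by omega
    exact_mod_cast this
  have hw0 : 0 < (w : ℝ) := by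
    have : 0 < w := by omega
    exact_mod_cast this
  have hwq : (q : ℝ) + 2 ≤ w := by
    have : q + 2 ≤ w := by omega
    exact_mod_cast this
  have hdw : (d : ℝ) + 1 ≤ w := by exact_mod_cast hd
  have h1 : 0 < (w : ℝ) - q + 1 := by linarith
  have h2 : 0 < 2 * (w : ℝ) + 3 - d := by linarith
  have hRB : RB 1 q w d = ((d : ℝ) * (w + q) * (w + q + 1)) / (q * w * ((q + 1) * (w - q + 1))) := by
    have n1 : (w : ℝ) - q + 1 ≠ 0 := h1.ne'
    have n2 : (w : ℝ) ≠ 0 := hw0.ne'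
    have n3 : (q : ℝ) ≠ 0 := hq0.ne'
    have n4 : (q : ℝ) + 1 ≠ 0 := by positivity
    simp only [RB, prod_range_one, Nat.cast_one, Nat.cast_zero, zero_add, sub_zero, one_mul]
    field_simp
    ring
  rw [hRB, div_le_div_iff₀ (by positivity) h2]
  have h4 : 0 ≤ ((w : ℝ) - 1 - d) * (w + 4 - d) * ((w + q) * (w + q + 1)) := by
    have h5 : 0 ≤ (w : ℝ) - 1 - d := by linarith
    have h6 : 0 ≤ (w : ℝ) + 4 - d := by linarith
    positivity
  nlinarith [h4, key]

end Pool.Agent.LRQ
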