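import Mathlib
import Pool.Agent.LRQ.Num

set_option autoImplicit false

/-! # [LRQ-RN2] short middle rows, `a = 2` and `a = 3`, large width -/

namespace Pool.Agent.LRQ

open Finset
open Pool.Agent.LRE Pool.Agent.LRT

/-- polynomial for `a = 2`. If `v = 3q+5-w ≤ 14` put `q = 12 + u`, `w = 3q+5-v` (fifteen polynomials
in `u` with nonnegative coefficients); if `v ≥ 15` put `v = 15 + v'`, `q = 12 + v' + z`
(`w ≥ 2q+2` is `z ≥ 0`), `w = 3q+5-v`: all coefficients in `v', z` are `≥ 0` (`nlinarith`/`positivity`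
after `ring_nf`, or `zify`-free: state it over `ℕ` with everything on the positive side). -/
theorem rn2_poly2 (w q : ℕ) (hq : 12 ≤ q) (h1 : 2 * q + 2 ≤ w) (h2 : w ≤ 3 * q + 5) :
    2 * ((w : ℝ) - 1 - q) * (w + q) * (w + q - 1) * (w + q + 1) * (w + q + 2) ≤
      (q : ℝ) * w * (w - 1) * (q + 1) * (q + 2) * (w - q + 1) * (w - q + 2) := by
  obtain ⟨u, rfl⟩ : ∃ u, q = 12 + u := ⟨q - 12, by omega⟩
  rcases le_or_gt (27 + 3 * u) w with h | h
  · obtain ⟨t, rfl⟩ : ∃ t, w = 27 + 3 * u + t := ⟨w - (27 + 3 * u), by omega⟩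
    have ht : t ≤ 14 := by omega
    rw [← sub_nonneg]
    interval_cases t
    all_goals
      push_cast
      ring_nf
      positivity
  · obtain ⟨v, z, rfl, rfl⟩ : ∃ v z, u = v + z ∧ w = 26 + 2 * v + 3 * z :=
      ⟨3 * u + 26 - w, u - (3 * u + 26 - w), by omega, by omega⟩
    rw [← sub_nonneg]
    push_cast
    ring_nf
    positivity

/-- polynomial for `a = 3`: `w = 3q+2+j`, `j = 0,…,6`, `q = 11 + u`: seven polynomials in `u` with
nonnegative coefficients. -/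
theorem rn2_poly3 (w q : ℕ) (hq : 11 ≤ q) (h1 : 3 * q + 2 ≤ w) (h2 : w ≤ 3 * q + 8) :
    6 * ((w : ℝ) - 1 - 2 * q) * (w + q) * (w + q - 1) * (w + q - 2) * (w + q + 1) * (w + q + 2) *
        (w + q + 3) ≤
      (q : ℝ) * w * (w - 1) * (w - 2) * (q + 1) * (q + 2) * (q + 3) * (w - q + 1) * (w - q + 2) *
        (w - q + 3) := by
  obtain ⟨u, rfl⟩ : ∃ u, q = 11 + u := ⟨q - 11, by omega⟩
  obtain ⟨t, rfl⟩ : ∃ t, w = 35 + 3 * u + t := ⟨w - (35 + 3 * u), by omega⟩
  have ht : t ≤ 6 := by omega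
  rw [← sub_nonneg]
  interval_cases t
  all_goals
    push_cast
    ring_nf
    positivity

/-- `a = 2`: expand `RB` (`prod_range_succ`), `d ≤ w - 1`, `rn2_poly2` (`q ≥ 12` because
`41 ≤ w < 3(q+2)`; `w ≥ d + 1 ≥ 2q + 2`). -/
theorem RB2_two (w q d : ℕ) (hw : 41 ≤ w) (h3 : w < 3 * (2 + q)) (hqd : 2 * q < d) (hd : d < w) :
    RB 2 q w d ≤ 1 := by
  have hq : 12 ≤ q := by omega
  have hp := rn2_poly2 w q hq (by omega) (by omega)
  have hqR : (12 : ℝ) ≤ q := by exact_mod_cast hq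
  have hwR : 2 * (q : ℝ) + 2 ≤ w := by exact_mod_cast (by omega : 2 * q + 2 ≤ w)
  have hdR : (d : ℝ) ≤ w - 1 := by
    have : (d : ℝ) + 1 ≤ w := by exact_mod_cast hd
    linarith
  have hq0 : (0 : ℝ) < q := by linarith
  have h0 : (0 : ℝ) < w := by linarith
  have h1 : (0 : ℝ) < w - 1 := by linarith
  have h2 : (0 : ℝ) < w - q + 1 := by linarith
  have h4 : (0 : ℝ) < w - q + 2 := by linarith
  have h5 : (0 : ℝ) < (w : ℝ) + q - 1 := by linarith
  have hD : (0 : ℝ) < (q : ℝ) * w * (w - 1) * (q + 1) * (q + 2) * (w - q + 1) * (w - q + 2) := by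
    positivity
  have key : RB 2 q w d = ((d : ℝ) - q) * (2 * (w + q) * (w + q - 1) * (w + q + 1) * (w + q + 2)) /
      ((q : ℝ) * w * (w - 1) * (q + 1) * (q + 2) * (w - q + 1) * (w - q + 2)) := by
    simp only [RB, prod_range_succ, prod_range_zero, Nat.cast_zero, Nat.cast_one, Nat.cast_ofNat,
      zero_add, one_mul, sub_zero, one_add_one_eq_two]
    field_simp
    ring
  rw [key, div_le_one hD]
  refine le_trans ?_ hp
  have h6 : (0 : ℝ) ≤ 2 * ((w : ℝ) + q) * (w + q - 1) * (w + q + 1) * (w + q + 2) := by positivity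
  have h7 := mul_le_mul_of_nonneg_right (by linarith : (d : ℝ) - q ≤ w - 1 - q) h6
  linarith

/-- `a = 3`: expand `RB`, `d ≤ w - 1`, `rn2_poly3`. -/
theorem RB2_three (w q d : ℕ) (hw : 41 ≤ w) (h3 : w < 3 * (3 + q)) (hqd : 3 * q < d) (hd : d < w) :
    RB 3 q w d ≤ 1 := by
  have hq : 11 ≤ q := by omega
  have hp := rn2_poly3 w q hq (by omega) (by omega)
  have hqR : (11 : ℝ) ≤ q := by exact_mod_cast hq
  have hwR : 3 * (q : ℝ) + 2 ≤ w := by exact_mod_cast (by omega : 3 * q + 2 ≤ w)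
  have hdR : (d : ℝ) ≤ w - 1 := by
    have : (d : ℝ) + 1 ≤ w := by exact_mod_cast hd
    linarith
  have hq0 : (0 : ℝ) < q := by linarith
  have h0 : (0 : ℝ) < w := by linarith
  have h1 : (0 : ℝ) < w - 1 := by linarith
  have h11 : (0 : ℝ) < w - 2 := by linarith
  have h2 : (0 : ℝ) < w - q + 1 := by linarith
  have h4 : (0 : ℝ) < w - q + 2 := by linarith
  have h44 : (0 : ℝ) < w - q + 3 := by linarith
  have h5 : (0 : ℝ) < (w : ℝ) + q - 1 := by linarith
  have h55 : (0 : ℝ) < (w : ℝ) + q - 2 := by linarith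
  have hD : (0 : ℝ) < (q : ℝ) * w * (w - 1) * (w - 2) * (q + 1) * (q + 2) * (q + 3) *
      (w - q + 1) * (w - q + 2) * (w - q + 3) := by
    positivity
  have key : RB 3 q w d = ((d : ℝ) - 2 * q) * (6 * (w + q) * (w + q - 1) * (w + q - 2) *
      (w + q + 1) * (w + q + 2) * (w + q + 3)) /
      ((q : ℝ) * w * (w - 1) * (w - 2) * (q + 1) * (q + 2) * (q + 3) *
      (w - q + 1) * (w - q + 2) * (w - q + 3)) := by
    simp only [RB, prod_range_succ, prod_range_zero, Nat.cast_zero, Nat.cast_one, Nat.cast_ofNat,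
      zero_add, one_mul, sub_zero, one_add_one_eq_two, two_add_one_eq_three]
    field_simp
    ring
  rw [key, div_le_one hD]
  refine le_trans ?_ hp
  have h6 : (0 : ℝ) ≤ 6 * ((w : ℝ) + q) * (w + q - 1) * (w + q - 2) * (w + q + 1) * (w + q + 2) *
      (w + q + 3) := by positivity
  have h7 := mul_le_mul_of_nonneg_right (by linarith : (d : ℝ) - 2 * q ≤ w - 1 - 2 * q) h6
  linarith

end Pool.Agent.LRQ
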