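import Mathlib
import Pool.Agent.LRQ.Num

set_option autoImplicit false

/-! # [LRQ-RN3] short middle rows, `q = 2` and `q = 3`, large width -/

namespace Pool.Agent.LRQ

open Finset
open Pool.Agent.LRE Pool.Agent.LRT

theorem RN3_p2 (w : ℕ) : ∀ a : ℕ, a ≤ w → ∏ i ∈ range a, ((w : ℝ) + (2 : ℕ) - i) / ((w : ℝ) - i) =
    ((w : ℝ) + 2) * (w + 1) / (((w : ℝ) - a + 2) * (w - a + 1)) := by
  intro a
  induction a with
  | zero =>
    intro _
    have h1 : (w : ℝ) + 2 ≠ 0 := by positivity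
    have h2 : (w : ℝ) + 1 ≠ 0 := by positivity
    simp only [range_zero, prod_empty, Nat.cast_zero, sub_zero]
    rw [div_self (mul_ne_zero h1 h2)]
  | succ a ih =>
    intro ha
    obtain ⟨t, rfl⟩ : ∃ t, w = a + 1 + t := ⟨w - (a + 1), by omega⟩
    rw [prod_range_succ, ih (by omega)]
    push_cast
    have h1 : (a : ℝ) + 1 + t - a + 2 = t + 3 := by ring
    have h2 : (a : ℝ) + 1 + t - a + 1 = t + 2 := by ring
    have h3 : (a : ℝ) + 1 + t + 2 - a = t + 3 := by ring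
    have h4 : (a : ℝ) + 1 + t - a = t + 1 := by ring
    have h5 : (a : ℝ) + 1 + t - (a + 1) + 2 = t + 2 := by ring
    have h6 : (a : ℝ) + 1 + t - (a + 1) + 1 = t + 1 := by ring
    rw [h1, h2, h3, h4, h5, h6]
    have p1 : (t : ℝ) + 3 ≠ 0 := by positivity
    have p2 : (t : ℝ) + 2 ≠ 0 := by positivity
    have p3 : (t : ℝ) + 1 ≠ 0 := by positivity
    field_simp

theorem RN3_p3 (w : ℕ) : ∀ a : ℕ, a ≤ w → ∏ i ∈ range a, ((w : ℝ) + (3 : ℕ) - i) / ((w : ℝ) - i) =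
    ((w : ℝ) + 3) * (w + 2) * (w + 1) / (((w : ℝ) - a + 3) * (w - a + 2) * (w - a + 1)) := by
  intro a
  induction a with
  | zero =>
    intro _
    have h1 : ((w : ℝ) + 3) * (w + 2) * (w + 1) ≠ 0 := by positivity
    simp only [range_zero, prod_empty, Nat.cast_zero, sub_zero]
    rw [div_self h1]
  | succ a ih =>
    intro ha
    obtain ⟨t, rfl⟩ : ∃ t, w = a + 1 + t := ⟨w - (a + 1), by omega⟩
    rw [prod_range_succ, ih (by omega)]
    push_cast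
    have h0 : (a : ℝ) + 1 + t - a + 3 = t + 4 := by ring
    have h1 : (a : ℝ) + 1 + t - a + 2 = t + 3 := by ring
    have h2 : (a : ℝ) + 1 + t - a + 1 = t + 2 := by ring
    have h3 : (a : ℝ) + 1 + t + 3 - a = t + 4 := by ring
    have h4 : (a : ℝ) + 1 + t - a = t + 1 := by ring
    have h5 : (a : ℝ) + 1 + t - (a + 1) + 3 = t + 3 := by ring
    have h6 : (a : ℝ) + 1 + t - (a + 1) + 2 = t + 2 := by ring
    have h7 : (a : ℝ) + 1 + t - (a + 1) + 1 = t + 1 := by ring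
    rw [h0, h1, h2, h3, h4, h5, h6, h7]
    have p0 : (t : ℝ) + 4 ≠ 0 := by positivity
    have p1 : (t : ℝ) + 3 ≠ 0 := by positivity
    have p2 : (t : ℝ) + 2 ≠ 0 := by positivity
    have p3 : (t : ℝ) + 1 ≠ 0 := by positivity
    field_simp

theorem RN3_r2 (t : ℕ) : ∀ a : ℕ, ∏ i ∈ range a, ((i : ℝ) + 1) * (((t + 2 : ℕ) : ℝ) + (2 : ℕ) +
      (i + 1)) / ((((2 : ℕ) : ℝ) + (i + 1)) * (((t + 2 : ℕ) : ℝ) - (2 : ℕ) + (i + 1))) =
    2 * (((t : ℝ) + a + 4) * (t + a + 3) * (t + a + 2) * (t + a + 1)) /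
      (((a : ℝ) + 1) * (a + 2) * ((t + 4) * (t + 3) * (t + 2) * (t + 1))) := by
  intro a
  induction a with
  | zero =>
    simp only [range_zero, prod_empty, Nat.cast_zero, add_zero, zero_add]
    have h1 : ((t : ℝ) + 4) * (t + 3) * (t + 2) * (t + 1) ≠ 0 := by positivity
    field_simp
  | succ a ih =>
    rw [prod_range_succ, ih]
    push_cast
    have h1 : (t : ℝ) + 2 - 2 + (a + 1) = t + a + 1 := by ring
    rw [h1]
    have p1 : (t : ℝ) + a + 1 ≠ 0 := by positivity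
    field_simp
    ring

theorem RN3_r3 (t : ℕ) : ∀ a : ℕ, ∏ i ∈ range a, ((i : ℝ) + 1) * (((t + 3 : ℕ) : ℝ) + (3 : ℕ) +
      (i + 1)) / ((((3 : ℕ) : ℝ) + (i + 1)) * (((t + 3 : ℕ) : ℝ) - (3 : ℕ) + (i + 1))) =
    6 * (((t : ℝ) + a + 6) * (t + a + 5) * (t + a + 4) * (t + a + 3) * (t + a + 2) * (t + a + 1)) /
      (((a : ℝ) + 1) * (a + 2) * (a + 3) * ((t + 6) * (t + 5) * (t + 4) * (t + 3) * (t + 2) *
        (t + 1))) := by
  intro a
  induction a with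
  | zero =>
    simp only [range_zero, prod_empty, Nat.cast_zero, add_zero, zero_add]
    have h1 : ((t : ℝ) + 6) * (t + 5) * (t + 4) * (t + 3) * (t + 2) * (t + 1) ≠ 0 := by positivity
    field_simp
    norm_num
  | succ a ih =>
    rw [prod_range_succ, ih]
    push_cast
    have h1 : (t : ℝ) + 3 - 3 + (a + 1) = t + a + 1 := by ring
    rw [h1]
    have p1 : (t : ℝ) + a + 1 ≠ 0 := by positivity
    field_simp
    ring

/-- Induction on `a` (multiply both products; `∏_{i<a} (w+2-i)/(w-i) = (w+2)(w+1)/((w-a+2)(w-a+1))`,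
`∏_{l≤a} l/(l+2) = 2/((a+1)(a+2))`, `∏_{l≤a} (w+2+l)/(w-2+l) =
(w+a+2)(w+a+1)(w+a)(w+a-1)/((w+2)(w+1)w(w-1))`; three separate inductions). -/
theorem RB_q2 (a w d : ℕ) (ha : a ≤ w) (hw : 2 ≤ w) :
    RB a 2 w d = ((d : ℝ) / 2 - a + 1) * 2 * (((w : ℝ) + a + 2) * (w + a + 1) * (w + a) *
      (w + a - 1)) / (((a : ℝ) + 1) * (a + 2) * ((w : ℝ) - a + 2) * (w - a + 1) * (w * (w - 1))) := by
  unfold RB
  rw [RN3_p2 w a ha]
  obtain ⟨t, rfl⟩ : ∃ t, w = t + 2 := ⟨w - 2, by omega⟩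
  rw [RN3_r2 t a]
  obtain ⟨z, hz⟩ : ∃ z, t + 2 = a + z := ⟨t + 2 - a, by omega⟩
  have hz' : (z : ℝ) = t + 2 - a := by
    have : ((t + 2 : ℕ) : ℝ) = ((a + z : ℕ) : ℝ) := by rw [hz]
    push_cast at this
    linarith
  have h1 : ((t + 2 : ℕ) : ℝ) - a + 2 = z + 2 := by rw [hz']; push_cast; ring
  have h2 : ((t + 2 : ℕ) : ℝ) - a + 1 = z + 1 := by rw [hz']; push_cast; ring
  rw [h1, h2]
  push_cast
  have h3 : (t : ℝ) + 2 - 1 = t + 1 := by ring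
  rw [h3]
  have p1 : (z : ℝ) + 2 ≠ 0 := by positivity
  have p2 : (z : ℝ) + 1 ≠ 0 := by positivity
  field_simp
  ring

/-- The same for `q = 3`: `∏ (w+3-i)/(w-i) = (w+3)(w+2)(w+1)/((w-a+3)(w-a+2)(w-a+1))`,
`∏ l/(l+3) = 6/((a+1)(a+2)(a+3))`, `∏ (w+3+l)/(w-3+l) = ∏_{j=-2}^{3} (w+a+j)/(w+j)`. -/
theorem RB_q3 (a w d : ℕ) (ha : a ≤ w) (hw : 3 ≤ w) :
    RB a 3 w d = ((d : ℝ) / 3 - a + 1) * 6 * (((w : ℝ) + a + 3) * (w + a + 2) * (w + a + 1) *
      (w + a) * (w + a - 1) * (w + a - 2)) / (((a : ℝ) + 1) * (a + 2) * (a + 3) *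
      ((w : ℝ) - a + 3) * (w - a + 2) * (w - a + 1) * (w * (w - 1) * (w - 2))) := by
  unfold RB
  rw [RN3_p3 w a ha]
  obtain ⟨t, rfl⟩ : ∃ t, w = t + 3 := ⟨w - 3, by omega⟩
  rw [RN3_r3 t a]
  obtain ⟨z, hz⟩ : ∃ z, t + 3 = a + z := ⟨t + 3 - a, by omega⟩
  have hz' : (z : ℝ) = t + 3 - a := by
    have : ((t + 3 : ℕ) : ℝ) = ((a + z : ℕ) : ℝ) := by rw [hz]
    push_cast at this
    linarith
  have h0 : ((t + 3 : ℕ) : ℝ) - a + 3 = z + 3 := by rw [hz']; push_cast; ring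
  have h1 : ((t + 3 : ℕ) : ℝ) - a + 2 = z + 2 := by rw [hz']; push_cast; ring
  have h2 : ((t + 3 : ℕ) : ℝ) - a + 1 = z + 1 := by rw [hz']; push_cast; ring
  rw [h0, h1, h2]
  push_cast
  have h3 : (t : ℝ) + 3 - 1 = t + 2 := by ring
  have h4 : (t : ℝ) + 3 - 2 = t + 1 := by ring
  rw [h3, h4]
  have p0 : (z : ℝ) + 3 ≠ 0 := by positivity
  have p1 : (z : ℝ) + 2 ≠ 0 := by positivity
  have p2 : (z : ℝ) + 1 ≠ 0 := by positivity
  field_simp
  ring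

/-- If `v = 3a+5-w ≤ 14` put `a = 12 + u`, `w = 3a+5-v` (fifteen polynomials in `u` with nonnegative
coefficients); if `v ≥ 15` put `v = 15 + v'`, `a = 12 + v' + z`, `w = 3a+5-v`: all coefficients in
`v', z` are `≥ 0`. -/
theorem rn3_poly2 (w a : ℕ) (ha : 12 ≤ a) (h1 : 2 * a + 2 ≤ w) (h2 : w ≤ 3 * a + 5) :
    ((w : ℝ) + 1 - 2 * a) * (w + 2 + a) * (w + 1 + a) * (w + a) * (w - 1 + a) ≤
      ((a : ℝ) + 2) * (a + 1) * (w - a + 2) * (w - a + 1) * (w - 1) * w := by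
  by_cases hv : 3 * a + 5 - w ≤ 14
  · obtain ⟨v, hv'⟩ : ∃ v, v = 3 * a + 5 - w := ⟨_, rfl⟩
    obtain ⟨u, rfl⟩ : ∃ u, a = 12 + u := ⟨a - 12, by omega⟩
    have hw : (w : ℝ) = 3 * (12 + u) + 5 - v := by
      have h3 : w + v = 3 * (12 + u) + 5 := by omega
      have h4 : ((w + v : ℕ) : ℝ) = ((3 * (12 + u) + 5 : ℕ) : ℝ) := by rw [h3]
      push_cast at h4
      linarith
    have hv14 : v ≤ 14 := by omega
    clear hv hv' h1 h2
    rw [hw, ← sub_nonneg]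
    push_cast
    interval_cases v <;> · push_cast; ring_nf; positivity
  · obtain ⟨v, hv'⟩ : ∃ v, 3 * a + 5 - w = 15 + v := ⟨3 * a + 5 - w - 15, by omega⟩
    obtain ⟨z, rfl⟩ : ∃ z, a = 12 + v + z := ⟨a - 12 - v, by omega⟩
    have hw : (w : ℝ) = 3 * (12 + v + z) + 5 - (15 + v) := by
      have h3 : w + (15 + v) = 3 * (12 + v + z) + 5 := by omega
      have h4 : ((w + (15 + v) : ℕ) : ℝ) = ((3 * (12 + v + z) + 5 : ℕ) : ℝ) := by rw [h3]
      push_cast at h4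
      linarith
    rw [hw, ← sub_nonneg]
    push_cast
    ring_nf
    positivity

/-- `w = 3a+2+j`, `j = 0,…,6`, `a = 11 + u`: nonnegative coefficients. -/
theorem rn3_poly3 (w a : ℕ) (ha : 11 ≤ a) (h1 : 3 * a + 2 ≤ w) (h2 : w ≤ 3 * a + 8) :
    6 * ((w : ℝ) + 2 - 3 * a) * (w + a + 3) * (w + a + 2) * (w + a + 1) * (w + a) * (w + a - 1) *
        (w + a - 2) ≤
      3 * (((a : ℝ) + 1) * (a + 2) * (a + 3) * (w - a + 3) * (w - a + 2) * (w - a + 1) * w * (w - 1) *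
        (w - 2)) := by
  obtain ⟨j, rfl⟩ : ∃ j, w = 3 * a + 2 + j := ⟨w - (3 * a + 2), by omega⟩
  obtain ⟨u, rfl⟩ : ∃ u, a = 11 + u := ⟨a - 11, by omega⟩
  have hj : j ≤ 6 := by omega
  clear h1 h2 ha
  rw [← sub_nonneg]
  push_cast
  interval_cases j <;> · push_cast; ring_nf; positivity

theorem RB2_q2 (w a d : ℕ) (hw : 41 ≤ w) (h3 : w < 3 * (a + 2)) (hqd : a * 2 < d) (hd : d < w) :
    RB a 2 w d ≤ 1 := by
  have ha : 12 ≤ a := by omega
  have h1 := rn3_poly2 w a ha (by omega) (by omega)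
  rw [RB_q2 a w d (by omega) (by omega)]
  have hwa : (2 * a + 2 : ℝ) ≤ w := by
    have : 2 * a + 2 ≤ w := by omega
    exact_mod_cast this
  have ha0 : (0 : ℝ) ≤ a := Nat.cast_nonneg a
  have hdw : (d : ℝ) + 1 ≤ w := by exact_mod_cast hd
  have p1 : (0 : ℝ) < (w : ℝ) - a + 2 := by linarith
  have p2 : (0 : ℝ) < (w : ℝ) - a + 1 := by linarith
  have p3 : (0 : ℝ) < (w : ℝ) - 1 := by linarith
  have p4 : (0 : ℝ) < (w : ℝ) := by linarith
  have p5 : (0 : ℝ) < (w : ℝ) + a - 1 := by linarith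
  rw [div_le_one (by positivity)]
  have p6 : 0 ≤ ((w : ℝ) + a + 2) * (w + a + 1) * (w + a) * (w + a - 1) := by positivity
  calc ((d : ℝ) / 2 - a + 1) * 2 * (((w : ℝ) + a + 2) * (w + a + 1) * (w + a) * (w + a - 1))
      ≤ ((w : ℝ) + 1 - 2 * a) * (((w : ℝ) + a + 2) * (w + a + 1) * (w + a) * (w + a - 1)) := by
        apply mul_le_mul_of_nonneg_right _ p6
        linarith
    _ = ((w : ℝ) + 1 - 2 * a) * (w + 2 + a) * (w + 1 + a) * (w + a) * (w - 1 + a) := by ring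
    _ ≤ ((a : ℝ) + 2) * (a + 1) * (w - a + 2) * (w - a + 1) * (w - 1) * w := h1
    _ = _ := by ring

theorem RB2_q3 (w a d : ℕ) (hw : 41 ≤ w) (h3 : w < 3 * (a + 3)) (hqd : a * 3 < d) (hd : d < w) :
    RB a 3 w d ≤ 1 := by
  have ha : 11 ≤ a := by omega
  have h1 := rn3_poly3 w a ha (by omega) (by omega)
  rw [RB_q3 a w d (by omega) (by omega)]
  have hwa : (3 * a + 2 : ℝ) ≤ w := by
    have : 3 * a + 2 ≤ w := by omega
    exact_mod_cast this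
  have ha0 : (11 : ℝ) ≤ a := by exact_mod_cast ha
  have hdw : (d : ℝ) + 1 ≤ w := by exact_mod_cast hd
  have p0 : (0 : ℝ) < (w : ℝ) - a + 3 := by linarith
  have p1 : (0 : ℝ) < (w : ℝ) - a + 2 := by linarith
  have p2 : (0 : ℝ) < (w : ℝ) - a + 1 := by linarith
  have p3 : (0 : ℝ) < (w : ℝ) - 1 := by linarith
  have p3' : (0 : ℝ) < (w : ℝ) - 2 := by linarith
  have p4 : (0 : ℝ) < (w : ℝ) := by linarith
  have p5 : (0 : ℝ) < (w : ℝ) + a - 1 := by linarith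
  have p5' : (0 : ℝ) < (w : ℝ) + a - 2 := by linarith
  rw [div_le_one (by positivity)]
  have p6 : 0 ≤ ((w : ℝ) + a + 3) * (w + a + 2) * (w + a + 1) * (w + a) * (w + a - 1) *
      (w + a - 2) := by positivity
  calc ((d : ℝ) / 3 - a + 1) * 6 * (((w : ℝ) + a + 3) * (w + a + 2) * (w + a + 1) * (w + a) *
        (w + a - 1) * (w + a - 2))
      ≤ (2 * ((w : ℝ) + 2 - 3 * a)) * (((w : ℝ) + a + 3) * (w + a + 2) * (w + a + 1) * (w + a) *
        (w + a - 1) * (w + a - 2)) := by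
        apply mul_le_mul_of_nonneg_right _ p6
        linarith
    _ = (6 * ((w : ℝ) + 2 - 3 * a) * (w + a + 3) * (w + a + 2) * (w + a + 1) * (w + a) *
        (w + a - 1) * (w + a - 2)) / 3 := by ring
    _ ≤ (3 * (((a : ℝ) + 1) * (a + 2) * (a + 3) * (w - a + 3) * (w - a + 2) * (w - a + 1) * w *
        (w - 1) * (w - 2))) / 3 := by linarith
    _ = _ := by ring

end Pool.Agent.LRQ
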