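import Mathlib
import Pool.Agent.LRQ.RN2
import Pool.Agent.LRQ.RN3

set_option autoImplicit false

/-! # [LRQ-RN4] short middle rows: collection -/

namespace Pool.Agent.LRQ

open Finset
open Pool.Agent.LRE Pool.Agent.LRT

/-- `a = 2`, `a = 3`, `q = 2`, `q = 3`: `RB2_two`, `RB2_three`, `RB2_q2`, `RB2_q3`. If `a, q ≥ 4`:
`a q ≤ w - 2 ≤ 3(a+q) - 3` gives `(a-3)(q-3) ≤ 6`, but `3(a+q) ≥ 42`, `(a-3) + (q-3) ≥ 8` and both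
`≥ 1` give `(a-3)(q-3) ≥ 7`. -/
theorem RB2_num (w a q d : ℕ) (hw : 41 ≤ w) (ha : 2 ≤ a) (hq2 : 2 ≤ q) (h3 : w < 3 * (a + q))
    (hqd : a * q < d) (hd : d < w) : RB a q w d ≤ 1 := by
  rcases eq_or_ne a 2 with rfl | h2
  · exact RB2_two w q d hw h3 hqd hd
  rcases eq_or_ne a 3 with rfl | h3'
  · exact RB2_three w q d hw h3 hqd hd
  rcases eq_or_ne q 2 with rfl | hq2'
  · exact RB2_q2 w a d hw h3 hqd hd
  rcases eq_or_ne q 3 with rfl | hq3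
  · exact RB2_q3 w a d hw h3 hqd hd
  exfalso
  obtain ⟨x, rfl⟩ : ∃ x, a = 4 + x := ⟨a - 4, by omega⟩
  obtain ⟨y, rfl⟩ : ∃ y, q = 4 + y := ⟨q - 4, by omega⟩
  have hxy : 0 ≤ x * y := Nat.zero_le _
  have e : (4 + x) * (4 + y) = 16 + 4 * x + 4 * y + x * y := by ring
  rw [e] at hqd
  omega

/-- the case `a = 2`, `w = 3q+3`, `d = 2q+1` -/
theorem rn4_a2 (q : ℕ) (hq : 2 ≤ q) : RB 2 q (3 * q + 3) (2 * q + 1) ≤ 1 := by
  obtain ⟨t, rfl⟩ : ∃ t, q = 2 + t := ⟨q - 2, by omega⟩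
  have ht : (0 : ℝ) ≤ (t : ℝ) := Nat.cast_nonneg t
  unfold RB
  rw [prod_range_succ, prod_range_succ, prod_range_zero, prod_range_succ, prod_range_succ,
    prod_range_zero]
  push_cast
  have e1 : ((2 * (2 + (t : ℝ)) + 1) / (2 + (t : ℝ)) - 2 + 1) = (3 + (t : ℝ)) / (2 + (t : ℝ)) := by
    field_simp
    ring
  rw [e1]
  have e2 : (3 + (t : ℝ)) / (2 + (t : ℝ)) *
      (1 * ((3 * (2 + (t : ℝ)) + 3 + (2 + (t : ℝ)) - 0) / (3 * (2 + (t : ℝ)) + 3 - 0)) *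
        ((3 * (2 + (t : ℝ)) + 3 + (2 + (t : ℝ)) - 1) / (3 * (2 + (t : ℝ)) + 3 - 1))) *
      (1 * ((0 + 1) * (3 * (2 + (t : ℝ)) + 3 + (2 + (t : ℝ)) + (0 + 1)) /
          ((2 + (t : ℝ) + (0 + 1)) * (3 * (2 + (t : ℝ)) + 3 - (2 + (t : ℝ)) + (0 + 1)))) *
        ((1 + 1) * (3 * (2 + (t : ℝ)) + 3 + (2 + (t : ℝ)) + (1 + 1)) /
          ((2 + (t : ℝ) + (1 + 1)) * (3 * (2 + (t : ℝ)) + 3 - (2 + (t : ℝ)) + (1 + 1))))) =
      ((3 + (t : ℝ)) * (11 + 4 * t) * (10 + 4 * t) * (12 + 4 * t) * (2 * (13 + 4 * t))) /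
        ((2 + (t : ℝ)) * (9 + 3 * t) * (8 + 3 * t) * ((3 + t) * (8 + 2 * t)) *
          ((4 + t) * (9 + 2 * t))) := by
    rw [one_mul, one_mul, div_mul_div_comm, div_mul_div_comm, div_mul_div_comm, div_mul_div_comm]
    congr 1 <;> ring
  rw [e2, div_le_one (by positivity)]
  have h2 := pow_nonneg ht 2
  have h3 := pow_nonneg ht 3
  have h4 := pow_nonneg ht 4
  have h5 := pow_nonneg ht 5
  have h6 := pow_nonneg ht 6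
  have h7 := pow_nonneg ht 7
  nlinarith [ht, h2, h3, h4, h5, h6, h7]

/-- the case `q = 2`, `w = 3a+3`, `d = 2a+1` -/
theorem rn4_q2 (a : ℕ) (ha : 2 ≤ a) : RB a 2 (3 * a + 3) (2 * a + 1) ≤ 1 := by
  obtain ⟨t, rfl⟩ : ∃ t, a = 2 + t := ⟨a - 2, by omega⟩
  have ht : (0 : ℝ) ≤ (t : ℝ) := Nat.cast_nonneg t
  rw [RB_q2 (2 + t) _ _ (by omega) (by omega)]
  push_cast
  have e : ((2 * (2 + (t : ℝ)) + 1) / 2 - (2 + (t : ℝ)) + 1) * 2 = 3 := by ring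
  rw [e, div_le_one]
  · have h2 := pow_nonneg ht 2
    have h3 := pow_nonneg ht 3
    have h4 := pow_nonneg ht 4
    have h5 := pow_nonneg ht 5
    have h6 := pow_nonneg ht 6
    nlinarith [ht, h2, h3, h4, h5, h6]
  · have p1 : (0 : ℝ) < 3 * (2 + (t : ℝ)) + 3 - (2 + (t : ℝ)) + 2 := by linarith
    have p2 : (0 : ℝ) < 3 * (2 + (t : ℝ)) + 3 - (2 + (t : ℝ)) + 1 := by linarith
    have p3 : (0 : ℝ) < 3 * (2 + (t : ℝ)) + 3 - 1 := by linarith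
    positivity

/-- `a q < d ≤ w - r ≤ 2a + 2q - 3` gives `(a-2)(q-2) < 1`, so `a = 2` or `q = 2`, and in both cases
`d = 2r - 3`, `w = 3r - 3`. `a = 2`: `w = 3q+3`, `d = 2q+1`: expand `RB`:
`(1+1/q) (4q+3)(4q+2)/((3q+3)(3q+2)) (4q+4)/((q+1)(2q+4)) 2(4q+5)/((q+2)(2q+5)) ≤ 1` for `q ≥ 2`.
`q = 2`: `RB_q2` with `w = 3a+3`, `d = 2a+1`:
`3 (4a+5)(4a+4)(4a+3)(4a+2) ≤ (a+1)(a+2)(2a+5)(2a+4)(3a+3)(3a+2)` for `a ≥ 2`. -/
theorem RB0_num (w r d a q : ℕ) (ha : 2 ≤ a) (hq2 : 2 ≤ q) (har : a + q = r) (h3 : w + 3 ≤ 3 * r)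
    (hrd : r ≤ d) (hdr : d + r ≤ w) (hqd : a * q < d) : RB a q w d ≤ 1 := by
  obtain ⟨x, rfl⟩ : ∃ x, a = 2 + x := ⟨a - 2, by omega⟩
  obtain ⟨y, rfl⟩ : ∃ y, q = 2 + y := ⟨q - 2, by omega⟩
  have e : (2 + x) * (2 + y) = 4 + 2 * x + 2 * y + x * y := by ring
  rw [e] at hqd
  have hxy : x * y = 0 := by omega
  rcases Nat.mul_eq_zero.1 hxy with rfl | rfl
  · have hw : w = 3 * (2 + y) + 3 := by omega
    have hd : d = 2 * (2 + y) + 1 := by omega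
    rw [hw, hd]
    exact rn4_a2 (2 + y) (by omega)
  · have hw : w = 3 * (2 + x) + 3 := by omega
    have hd : d = 2 * (2 + x) + 1 := by omega
    rw [hw, hd]
    exact rn4_q2 (2 + x) (by omega)

end Pool.Agent.LRQ
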