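import Mathlib
import Pool.Agent.LRQ.HB3

set_option autoImplicit false

/-! # [LRQ-VA] region V: two or more full rows, large width -/

namespace Pool.Agent.LRQ

open Finset
open Pool.Agent.LRE Pool.Agent.LRT

/-- `p = 2` in `hq_pow`: `hq ≤ 4w²/(2w-d)²`. The claim is linear in `a` and `2(w+1) ≥ 2w+3-d`
(`d ≥ 1`), so `a = 3`: with `u = 2w - d ∈ [w, 3w/2]`: `3 + 4w²/u² ≤ 8(w+1)/(u+3)`, i.e.
`P(u) = 3u³ + (1-8w)u² + 4w²u + 12w² ≤ 0`. `P'' = 18u + 2 - 16w ≥ 0` on `u ≥ w`, so `P` is below its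
chord on `[w, 3w/2]`; `P(w) = -w³ + 13w² ≤ 0`, `P(3w/2) = -1.875w³ + 14.25w² ≤ 0`. -/
theorem VA3 (w q d a : ℕ) (hq2 : 2 ≤ q) (ha : 3 ≤ a) (hw : 13 ≤ w) (hd : d < w)
    (hd2 : w < 2 * d) :
    (a : ℝ) + hq w q d ≤ ((a : ℝ) + 1) * (2 * ((w : ℝ) + 1) / (2 * w + 3 - d)) := by
  have h1 := hq_pow w q d 2 (by norm_num) hq2 (by omega)
  have ha' : (3 : ℝ) ≤ a := by exact_mod_cast ha
  have hw' : (13 : ℝ) ≤ w := by exact_mod_cast hw
  have hd' : (d : ℝ) ≤ w := by exact_mod_cast hd.le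
  have hd2' : (w : ℝ) ≤ 2 * d := by exact_mod_cast hd2.le
  obtain ⟨W, hW⟩ : ∃ W : ℝ, W = w := ⟨_, rfl⟩
  obtain ⟨u, hu⟩ : ∃ u : ℝ, u = 2 * w - d := ⟨_, rfl⟩
  obtain ⟨H, hH⟩ : ∃ H : ℝ, H = hq w q d := ⟨_, rfl⟩
  have hd0 : (d : ℝ) = 2 * W - u := by rw [hu, hW]; ring
  rw [← hW, ← hH, hd0] at h1
  rw [hd0, ← hW] at hd' hd2'
  rw [← hW] at hw'
  rw [← hH, ← hW, hd0]
  have hu1 : W ≤ u := by linarith
  have hu2 : u ≤ 3 / 2 * W := by linarith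
  have hW0 : 0 < W := by linarith
  have hu0 : 0 < u := by linarith
  have h2 : 1 - (2 * W - u) / (((2 : ℕ) : ℝ) * W) = u / (2 * W) := by
    push_cast
    field_simp
    ring
  rw [h2] at h1
  have h3 : H ≤ 4 * W ^ 2 / u ^ 2 := by
    rw [le_div_iff₀ (by positivity)]
    have h4 : H * (u / (2 * W)) ^ 2 * (4 * W ^ 2) = H * u ^ 2 := by
      field_simp
      ring
    rw [← h4]
    have h5 : (0 : ℝ) ≤ 4 * W ^ 2 := by positivity
    calc H * (u / (2 * W)) ^ 2 * (4 * W ^ 2) ≤ 1 * (4 * W ^ 2) := mul_le_mul_of_nonneg_right h1 h5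
      _ = 4 * W ^ 2 := one_mul _
  have h6 : 2 * W + 3 - (2 * W - u) = u + 3 := by ring
  rw [h6]
  have hR1 : 1 ≤ 2 * (W + 1) / (u + 3) := by
    rw [le_div_iff₀ (by linarith)]
    linarith
  have hR2 : 3 + 4 * W ^ 2 / u ^ 2 ≤ 4 * (2 * (W + 1) / (u + 3)) := by
    have e1 : 3 + 4 * W ^ 2 / u ^ 2 = (3 * u ^ 2 + 4 * W ^ 2) / u ^ 2 := by
      field_simp
    have e2 : 4 * (2 * (W + 1) / (u + 3)) = 8 * (W + 1) / (u + 3) := by ring
    rw [e1, e2, div_le_div_iff₀ (by positivity) (by linarith)]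
    have t1 : 0 ≤ (u - W) * (3 / 2 * W - u) * (3 * u + 1 - W / 2) :=
      mul_nonneg (mul_nonneg (by linarith) (by linarith)) (by linarith)
    have t2 : 0 ≤ 2 * W * ((W - 13) * (3 / 2 * W - u)) :=
      mul_nonneg (by linarith) (mul_nonneg (by linarith) (by linarith))
    have t3 : 0 ≤ 2 * W * ((15 / 8 * W - 57 / 4) * (u - W)) :=
      mul_nonneg (by linarith) (mul_nonneg (by linarith) (by linarith))
    have t4 : 8 * (W + 1) * u ^ 2 - (3 * u ^ 2 + 4 * W ^ 2) * (u + 3) =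
        (u - W) * (3 / 2 * W - u) * (3 * u + 1 - W / 2) +
          (2 * W * ((W - 13) * (3 / 2 * W - u)) +
            2 * W * ((15 / 8 * W - 57 / 4) * (u - W))) := by ring
    linarith
  have h7 : 0 ≤ ((a : ℝ) - 3) * (2 * (W + 1) / (u + 3) - 1) :=
    mul_nonneg (by linarith) (by linarith)
  have h8 : ((a : ℝ) + 1) * (2 * (W + 1) / (u + 3)) =
      ((a : ℝ) - 3) * (2 * (W + 1) / (u + 3) - 1) + (a - 3) + 4 * (2 * (W + 1) / (u + 3)) := by ring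
  rw [h8]
  linarith

/-- `p = 3` in `hq_pow`: `hq ≤ 27w³/(3w-d)³`. With `v = 3w - d ∈ [2w, 5w/2]`, `2w+3-d = v-w+3`, the
claim is `G(v) = 6(w+1)v³ - (2v³+27w³)(v-w+3) = -2v⁴ + 8wv³ - 27w³v + 27w⁴ - 81w³ ≥ 0`.
`G'' = 24v(2w-v) ≤ 0` for `v ≥ 2w`, so `G` is above its chord; `G(2w) = 5w⁴ - 81w³ ≥ 0`,
`G(5w/2) = 6.375w⁴ - 81w³ ≥ 0` for `w ≥ 17`. -/
theorem VA2 (w q d : ℕ) (hq3 : 3 ≤ q) (hw : 17 ≤ w) (hd : d < w) (hd2 : w < 2 * d) :
    2 + hq w q d ≤ 3 * (2 * ((w : ℝ) + 1) / (2 * w + 3 - d)) := by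
  have h1 := hq_pow w q d 3 (by norm_num) hq3 (by omega)
  have hw' : (17 : ℝ) ≤ w := by exact_mod_cast hw
  have hd' : (d : ℝ) ≤ w := by exact_mod_cast hd.le
  have hd2' : (w : ℝ) ≤ 2 * d := by exact_mod_cast hd2.le
  obtain ⟨W, hW⟩ : ∃ W : ℝ, W = w := ⟨_, rfl⟩
  obtain ⟨v, hv⟩ : ∃ v : ℝ, v = 3 * w - d := ⟨_, rfl⟩
  obtain ⟨H, hH⟩ : ∃ H : ℝ, H = hq w q d := ⟨_, rfl⟩
  have hd0 : (d : ℝ) = 3 * W - v := by rw [hv, hW]; ring
  rw [← hW, ← hH, hd0] at h1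
  rw [hd0, ← hW] at hd' hd2'
  rw [← hW] at hw'
  rw [← hH, ← hW, hd0]
  have hv1 : 2 * W ≤ v := by linarith
  have hv2 : v ≤ 5 / 2 * W := by linarith
  have hW0 : 0 < W := by linarith
  have hv0 : 0 < v := by linarith
  have h2 : 1 - (3 * W - v) / (((3 : ℕ) : ℝ) * W) = v / (3 * W) := by
    push_cast
    field_simp
    ring
  rw [h2] at h1
  have h3 : H ≤ 27 * W ^ 3 / v ^ 3 := by
    rw [le_div_iff₀ (by positivity)]
    have h4 : H * (v / (3 * W)) ^ 3 * (27 * W ^ 3) = H * v ^ 3 := by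
      field_simp
      ring
    rw [← h4]
    have h5 : (0 : ℝ) ≤ 27 * W ^ 3 := by positivity
    calc H * (v / (3 * W)) ^ 3 * (27 * W ^ 3) ≤ 1 * (27 * W ^ 3) :=
        mul_le_mul_of_nonneg_right h1 h5
      _ = 27 * W ^ 3 := one_mul _
  have h6 : 2 * W + 3 - (3 * W - v) = v - W + 3 := by ring
  rw [h6]
  have hR2 : 2 + 27 * W ^ 3 / v ^ 3 ≤ 3 * (2 * (W + 1) / (v - W + 3)) := by
    have e1 : 2 + 27 * W ^ 3 / v ^ 3 = (2 * v ^ 3 + 27 * W ^ 3) / v ^ 3 := by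
      field_simp
    have e2 : 3 * (2 * (W + 1) / (v - W + 3)) = 6 * (W + 1) / (v - W + 3) := by ring
    rw [e1, e2, div_le_div_iff₀ (by positivity) (by linarith)]
    have t0 : 0 ≤ 2 * v ^ 2 + W * v - 11 / 2 * W ^ 2 := by
      have := mul_le_mul hv1 hv1 (by linarith) hv0.le
      have := mul_le_mul_of_nonneg_left hv1 hW0.le
      nlinarith
    have t1 : 0 ≤ (v - 2 * W) * (5 / 2 * W - v) * (2 * v ^ 2 + W * v - 11 / 2 * W ^ 2) :=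
      mul_nonneg (mul_nonneg (by linarith) (by linarith)) t0
    have t2 : 0 ≤ 2 * W ^ 2 * ((5 * W - 81) * (5 / 2 * W - v)) :=
      mul_nonneg (by positivity) (mul_nonneg (by linarith) (by linarith))
    have t3 : 0 ≤ 2 * W ^ 2 * ((51 / 8 * W - 81) * (v - 2 * W)) :=
      mul_nonneg (by positivity) (mul_nonneg (by linarith) (by linarith))
    have t4 : 6 * (W + 1) * v ^ 3 - (2 * v ^ 3 + 27 * W ^ 3) * (v - W + 3) =
        (v - 2 * W) * (5 / 2 * W - v) * (2 * v ^ 2 + W * v - 11 / 2 * W ^ 2) +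
          (2 * W ^ 2 * ((5 * W - 81) * (5 / 2 * W - v)) +
            2 * W ^ 2 * ((51 / 8 * W - 81) * (v - 2 * W))) := by ring
    linarith
  linarith

end Pool.Agent.LRQ
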