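import Mathlib
import Pool.Agent.LRQ.Num

set_option autoImplicit false

/-! # [LRQ-VB] region V: one full row, large width -/

namespace Pool.Agent.LRQ

open Finset
open Pool.Agent.LRE Pool.Agent.LRT

theorem vb_p1 (w q d : ℝ) (hw : 41 ≤ w) (hd : d ≤ w) (h2 : w ≤ 2 * d) :
    (w + q) * (w - 1 + d - q) * (2 * w + 3 - d) ≤ w * (w - 1) * (2 * w + 1 + d) := by
  have am : 4 * ((w + q) * (w - 1 + d - q)) ≤ (2 * w - 1 + d) ^ 2 := by
    nlinarith [sq_nonneg (w + q - (w - 1 + d - q))]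
  have f : 0 ≤ 4 * w * (w - 1) * (2 * w + 1 + d) - (2 * w - 1 + d) ^ 2 * (2 * w + 3 - d) := by
    obtain ⟨z, hz0, hz⟩ : ∃ z : ℝ, 0 ≤ z ∧ w = 41 + z := ⟨w - 41, by linarith, by ring⟩
    obtain ⟨x, hx0, hx⟩ : ∃ x : ℝ, 0 ≤ x ∧ d = w / 2 + x := ⟨d - w / 2, by linarith, by ring⟩
    have e : 4 * w * (w - 1) * (2 * w + 1 + d) - (2 * w - 1 + d) ^ 2 * (2 * w + 3 - d) =
      (115719/8) + (15075/4)*x + (277/2)*x^2 + (1)*x^3 + (13975/8)*z + (409/2)*z*x +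
      (7/2)*z*x^2 + (477/8)*z^2 + (11/4)*z^2*x + (5/8)*z^3 := by
      rw [hx, hz]
      ring
    rw [e]
    positivity
  have h3 : (0 : ℝ) ≤ 2 * w + 3 - d := by linarith
  nlinarith [mul_le_mul_of_nonneg_right am h3]

theorem vb_am3 (a b c : ℝ) (ha : 0 ≤ a) (hb : 0 ≤ b) (hc : 0 ≤ c) :
    27 * (a * b * c) ≤ (a + b + c) ^ 3 := by
  nlinarith [mul_nonneg ha (sq_nonneg (b - c)), mul_nonneg hb (sq_nonneg (a - c)),
    mul_nonneg hc (sq_nonneg (a - b)), mul_nonneg ha (sq_nonneg (a - b)),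
    mul_nonneg ha (sq_nonneg (a - c)), mul_nonneg hb (sq_nonneg (a - b)),
    mul_nonneg hb (sq_nonneg (b - c)), mul_nonneg hc (sq_nonneg (a - c)),
    mul_nonneg hc (sq_nonneg (b - c))]

theorem vb_p2 (w q d : ℝ) (hw : 41 ≤ w) (hq : 0 ≤ q) (hd : d ≤ w) (h2 : 2 * w - 4 ≤ 3 * d)
    (h3 : 2 * q ≤ d) :
    (w + q) * (w - 1 + q) * (w - 2 + d - 2 * q) * (2 * w + 3 - d) ≤
      w * (w - 1) * (w - 2) * (2 * w + 1 + d) := by
  have am := vb_am3 (w + q) (w - 1 + q) (w - 2 + d - 2 * q) (by linarith) (by linarith)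
    (by linarith)
  have e0 : w + q + (w - 1 + q) + (w - 2 + d - 2 * q) = 3 * w - 3 + d := by ring
  rw [e0] at am
  have f : 0 ≤ 27 * w * (w - 1) * (w - 2) * (2 * w + 1 + d) -
      (3 * w - 3 + d) ^ 3 * (2 * w + 3 - d) := by
    obtain ⟨z, hz0, hz⟩ : ∃ z : ℝ, 0 ≤ z ∧ w = 41 + z := ⟨w - 41, by linarith, by ring⟩
    obtain ⟨x, hx0, hx⟩ : ∃ x : ℝ, 0 ≤ x ∧ d = (2 * w - 4) / 3 + x :=
      ⟨d - (2 * w - 4) / 3, by linarith, by ring⟩
    have e : 27 * w * (w - 1) * (w - 2) * (2 * w + 1 + d) -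
        (3 * w - 3 + d) ^ 3 * (2 * w + 3 - d) =
      (4618256) + (1066124)*x + (38106)*x^2 + (379)*x^3 + (1)*x^4 + (2234935/3)*z + (89277)*z*x
      + (1979)*z*x^2 + (29/3)*z*x^3 + (38622)*z^2 + (7399/3)*z^2*x + (77/3)*z^2*x^2 +
      (22220/27)*z^3 + (608/27)*z^3*x + (508/81)*z^4 := by
      rw [hx, hz]
      ring
    rw [e]
    positivity
  have h4 : (0 : ℝ) ≤ 2 * w + 3 - d := by linarith
  nlinarith [mul_le_mul_of_nonneg_right am h4]

theorem vb_p3_10 (q w d : ℝ) (hq : 13 ≤ q) (hw : w = 3 * q + 1) (hd : d = 3 * q + 0) :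
    (w + q) * (w - 1 + q) * (w - 2 + q) * (w - 3 + d - 3 * q) * (2 * w + 3 - d) ≤
      w * (w - 1) * (w - 2) * (w - 3) * (2 * w + 1 + d) := by
  obtain ⟨y, hy0, hy⟩ : ∃ y : ℝ, 0 ≤ y ∧ q = 13 + y := ⟨q - 13, by linarith, by ring⟩
  have e : w * (w - 1) * (w - 2) * (w - 3) * (2 * w + 1 + d) -
      (w + q) * (w - 1 + q) * (w - 2 + q) * (w - 3 + d - 3 * q) * (2 * w + 3 - d) =
      (34378032) + (14872940)*y + (2547894)*y^2 + (216415)*y^3 + (9126)*y^4 + (153)*y^5 := by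
    rw [hw, hd, hy]
    ring
  have h : 0 ≤ w * (w - 1) * (w - 2) * (w - 3) * (2 * w + 1 + d) -
      (w + q) * (w - 1 + q) * (w - 2 + q) * (w - 3 + d - 3 * q) * (2 * w + 3 - d) := by
    rw [e]
    positivity
  linarith

theorem vb_p3_20 (q w d : ℝ) (hq : 13 ≤ q) (hw : w = 3 * q + 2) (hd : d = 3 * q + 0) :
    (w + q) * (w - 1 + q) * (w - 2 + q) * (w - 3 + d - 3 * q) * (2 * w + 3 - d) ≤
      w * (w - 1) * (w - 2) * (w - 3) * (2 * w + 1 + d) := by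
  obtain ⟨y, hy0, hy⟩ : ∃ y : ℝ, 0 ≤ y ∧ q = 13 + y := ⟨q - 13, by linarith, by ring⟩
  have e : w * (w - 1) * (w - 2) * (w - 3) * (2 * w + 1 + d) -
      (w + q) * (w - 1 + q) * (w - 2 + q) * (w - 3 + d - 3 * q) * (2 * w + 3 - d) =
      (36374208) + (15609932)*y + (2647140)*y^2 + (222235)*y^3 + (9252)*y^4 + (153)*y^5 := by
    rw [hw, hd, hy]
    ring
  have h : 0 ≤ w * (w - 1) * (w - 2) * (w - 3) * (2 * w + 1 + d) -
      (w + q) * (w - 1 + q) * (w - 2 + q) * (w - 3 + d - 3 * q) * (2 * w + 3 - d) := by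
    rw [e]
    positivity
  linarith

theorem vb_p3_21 (q w d : ℝ) (hq : 13 ≤ q) (hw : w = 3 * q + 2) (hd : d = 3 * q + 1) :
    (w + q) * (w - 1 + q) * (w - 2 + q) * (w - 3 + d - 3 * q) * (2 * w + 3 - d) ≤
      w * (w - 1) * (w - 2) * (w - 3) * (2 * w + 1 + d) := by
  obtain ⟨y, hy0, hy⟩ : ∃ y : ℝ, 0 ≤ y ∧ q = 13 + y := ⟨q - 13, by linarith, by ring⟩
  have e : w * (w - 1) * (w - 2) * (w - 3) * (2 * w + 1 + d) -
      (w + q) * (w - 1 + q) * (w - 2 + q) * (w - 3 + d - 3 * q) * (2 * w + 3 - d) =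
      (37762920) + (16112970)*y + (2713563)*y^2 + (226053)*y^3 + (9333)*y^4 + (153)*y^5 := by
    rw [hw, hd, hy]
    ring
  have h : 0 ≤ w * (w - 1) * (w - 2) * (w - 3) * (2 * w + 1 + d) -
      (w + q) * (w - 1 + q) * (w - 2 + q) * (w - 3 + d - 3 * q) * (2 * w + 3 - d) := by
    rw [e]
    positivity
  linarith

theorem vb_fin (w q d : ℕ) (N D : ℝ) (hN : hq w q d = N / D) (hD : 0 < D) (hd : (d : ℝ) < w)
    (h : N * (2 * w + 3 - d) ≤ D * (2 * w + 1 + d)) :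
    1 + hq w q d ≤ 2 * (2 * ((w : ℝ) + 1) / (2 * w + 3 - d)) := by
  have hw : (0 : ℝ) ≤ w := Nat.cast_nonneg w
  have h1 : (0 : ℝ) < 2 * w + 3 - d := by linarith
  have e1 : 1 + N / D = (D + N) / D := by
    field_simp
  have e2 : 2 * (2 * ((w : ℝ) + 1) / (2 * w + 3 - d)) = (4 * ((w : ℝ) + 1)) / (2 * w + 3 - d) := by
    ring
  rw [hN, e1, e2, div_le_div_iff₀ hD h1]
  linarith

/-- Equivalent: `hq w q d ≤ (2w+1+d)/(2w+3-d)`. `n = d/q ≤ 3` because `d < w ≤ 3q+2`.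
* `n = 0`: `hq = 1 + d/w`; `(w+d)(2w+3-d) ≤ w(2w+1+d)` iff `2w + 3d ≤ d²`, true: `d ≥ (w+1)/2`,
  `d(d-3) ≥ (w+1)(w-5)/4 ≥ 2w`.
* `n = 1`: `hq = (w+q)(w-1+d-q)/(w(w-1)) ≤ (2w-1+d)²/(4w(w-1))` and
  `f(d) = 4w(w-1)(2w+1+d) - (2w-1+d)²(2w+3-d) ≥ 0` for `w/2 ≤ d ≤ w`: `f' (d) = 4w(w-1) -
  (2w-1+d)(2w+7-3d)`, `f'' = 6d + 4w - 10 > 0`, `f'(w/2) > 0`, so `f(d) ≥ f(w/2) =
  0.625w³ - 17.25w² + 9.5w - 3 ≥ 0`. (Put `d = w/2 + x`, `0 ≤ x ≤ w/2`: `f` is a polynomial in `x` with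
  nonnegative coefficients for `w ≥ 41`, and the `x³` coefficient is `1`.)
* `n = 2`: `hq = (w+q)(w-1+q)(w-2+d-2q)/(w(w-1)(w-2)) ≤ (w-1+d/3)³/(w(w-1)(w-2))` (AM-GM: the three
  numerators have sum `3w-3+d`), and `d ≥ 2q ≥ 2(w-2)/3`; polynomial inequality
  `(w-1+d/3)³(2w+3-d) ≤ w(w-1)(w-2)(2w+1+d)` for `(2w-4)/3 ≤ d ≤ w`, `w ≥ 41`
  (put `d = (2w-4)/3 + x`).
* `n = 3`: `3q ≤ d < w ≤ 3q+2`, `d ≥ w - 2`; `hq = (w+q)(w-1+q)(w-2+q)(w-3+d-3q)/(w(w-1)(w-2)(w-3))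
  ≤ (w-3/2+d/4)⁴/(w(w-1)(w-2)(w-3)) ≤ (5w/4)⁴/((w-3)^4) ≤ 2.6·…`; and
  `(2w+1+d)/(2w+3-d) ≥ (3w-1)/(w+5)` which is `≥ 2.6` for `w ≥ 41`
  (`(5w/4 - 3/2)⁴ (w+5) ≤ (3w-1) w(w-1)(w-2)(w-3)`). -/
theorem VB1 (w q d : ℕ) (hw : 41 ≤ w) (h3 : w ≤ 3 * q + 2) (hqw : q + 1 ≤ w) (hd : d < w)
    (hd2 : w < 2 * d) :
    1 + hq w q d ≤ 2 * (2 * ((w : ℝ) + 1) / (2 * w + 3 - d)) := by
  have hq13 : 13 ≤ q := by omega
  have hq0 : 0 < q := by omega
  have hw' : (41 : ℝ) ≤ w := by exact_mod_cast hw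
  have hd' : (d : ℝ) < w := by exact_mod_cast hd
  have hd2' : (w : ℝ) < 2 * d := by exact_mod_cast hd2
  have hq' : (13 : ℝ) ≤ q := by exact_mod_cast hq13
  have hdm := Nat.div_add_mod d q
  have hml := Nat.mod_lt d hq0
  have hn : d / q < 4 := by
    rw [Nat.div_lt_iff_lt_mul hq0]
    omega
  have hr : ∀ n : ℕ, d / q = n → ((d % q : ℕ) : ℝ) = (d : ℝ) - n * q := by
    intro n h
    rw [h] at hdm
    have h1 : ((q * n + d % q : ℕ) : ℝ) = (d : ℝ) := by rw [hdm]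
    push_cast at h1
    linarith
  have hcase : d / q = 0 ∨ d / q = 1 ∨ d / q = 2 ∨ d / q = 3 := by
    clear hdm hr
    generalize d / q = n at hn ⊢
    omega
  rcases hcase with h | h | h | h
  · have e : hq w q d = ((w : ℝ) + d) / w := by
      have h0 : (w : ℝ) ≠ 0 := by linarith
      unfold hq
      rw [hr 0 h, h]
      simp only [Finset.range_zero, Finset.prod_empty, Nat.cast_zero]
      field_simp
      ring
    refine vb_fin w q d _ _ e (by linarith) hd' ?_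
    have h5 : (w : ℝ) + 1 ≤ 2 * d := by exact_mod_cast hd2
    nlinarith [mul_nonneg (by linarith : (0 : ℝ) ≤ 2 * d - w - 1) (by linarith : (0 : ℝ) ≤ w - 41),
      mul_self_nonneg ((d : ℝ) - 21)]
  · have e : hq w q d = (((w : ℝ) + q) * (w - 1 + d - q)) / (w * (w - 1)) := by
      have h1 : (w : ℝ) - 1 ≠ 0 := by linarith
      have h0 : (w : ℝ) ≠ 0 := by linarith
      unfold hq
      rw [hr 1 h, h]
      simp only [Finset.prod_range_succ, Finset.range_zero, Finset.prod_empty, Nat.cast_zero,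
        Nat.cast_one, sub_zero, one_mul]
      field_simp
      ring
    refine vb_fin w q d _ _ e (by nlinarith) hd' ?_
    exact vb_p1 w q d hw' hd'.le hd2'.le
  · have h2q : 2 * q ≤ d := by
      rw [h] at hdm
      omega
    have h2q' : 2 * (q : ℝ) ≤ d := by exact_mod_cast h2q
    have h3' : (w : ℝ) ≤ 3 * q + 2 := by exact_mod_cast h3
    have e : hq w q d = (((w : ℝ) + q) * (w - 1 + q) * (w - 2 + d - 2 * q)) /
        (w * (w - 1) * (w - 2)) := by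
      have h2 : (w : ℝ) - 2 ≠ 0 := by linarith
      have h1 : (w : ℝ) - 1 ≠ 0 := by linarith
      have h0 : (w : ℝ) ≠ 0 := by linarith
      unfold hq
      rw [hr 2 h, h]
      simp only [Finset.prod_range_succ, Finset.range_zero, Finset.prod_empty, Nat.cast_zero,
        Nat.cast_one, Nat.cast_ofNat, sub_zero, one_mul]
      field_simp
      ring
    have hpos : (0 : ℝ) < w * (w - 1) * (w - 2) := by
      have h2 : (0 : ℝ) < w - 2 := by linarith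
      have h1 : (0 : ℝ) < w - 1 := by linarith
      have h0 : (0 : ℝ) < w := by linarith
      positivity
    refine vb_fin w q d _ _ e hpos hd' ?_
    exact vb_p2 w q d hw' (by linarith) hd'.le (by linarith) h2q'
  · have h3q : 3 * q ≤ d := by
      rw [h] at hdm
      omega
    have e : hq w q d = (((w : ℝ) + q) * (w - 1 + q) * (w - 2 + q) * (w - 3 + d - 3 * q)) /
        (w * (w - 1) * (w - 2) * (w - 3)) := by
      have h3 : (w : ℝ) - 3 ≠ 0 := by linarith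
      have h2 : (w : ℝ) - 2 ≠ 0 := by linarith
      have h1 : (w : ℝ) - 1 ≠ 0 := by linarith
      have h0 : (w : ℝ) ≠ 0 := by linarith
      unfold hq
      rw [hr 3 h, h]
      simp only [Finset.prod_range_succ, Finset.range_zero, Finset.prod_empty, Nat.cast_zero,
        Nat.cast_one, Nat.cast_ofNat, sub_zero, one_mul]
      field_simp
      ring
    have hpos : (0 : ℝ) < w * (w - 1) * (w - 2) * (w - 3) := by
      have h3 : (0 : ℝ) < w - 3 := by linarith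
      have h2 : (0 : ℝ) < w - 2 := by linarith
      have h1 : (0 : ℝ) < w - 1 := by linarith
      have h0 : (0 : ℝ) < w := by linarith
      positivity
    refine vb_fin w q d _ _ e hpos hd' ?_
    have hc : (w = 3 * q + 1 ∧ d = 3 * q + 0) ∨ (w = 3 * q + 2 ∧ d = 3 * q + 0) ∨
        (w = 3 * q + 2 ∧ d = 3 * q + 1) := by omega
    rcases hc with ⟨a, b⟩ | ⟨a, b⟩ | ⟨a, b⟩
    · exact vb_p3_10 q w d hq' (by exact_mod_cast a) (by exact_mod_cast b)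
    · exact vb_p3_20 q w d hq' (by exact_mod_cast a) (by exact_mod_cast b)
    · exact vb_p3_21 q w d hq' (by exact_mod_cast a) (by exact_mod_cast b)

end Pool.Agent.LRQ
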