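import Mathlib
import Pool.Agent.LRQ.FIN0
import Pool.Agent.LRQ.TA

set_option autoImplicit false

/-! # [LRQ-VF] region V: the finite part -/

namespace Pool.Agent.LRQ

open Finset
open Pool.Agent.LRE Pool.Agent.LRT

/-- `(a + hq) ≤ (a+1) GG w r J` or `(a + hq) ≤ (a+1) T2`, in natural numbers, with `J` the greatest
`j` such that `j (w-r+j) ≤ d`; `T2` as in `TT_T2`. -/
def vfOK (w r a d : ℕ) : Bool :=
  decide ((a * hqD w (r - a) d + hqN w (r - a) d) * GGD r (JJ (w - r) d 7) ≤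
      (a + 1) * GGN w (JJ (w - r) d 7) * hqD w (r - a) d) ||
    decide ((a * hqD w (r - a) d + hqN w (r - a) d) * (r * (w + 1 - d)) ≤
      (a + 1) * ((w + 1) * (w - d) + d + r) * hqD w (r - a) d)

/-- one check, with its conditions -/
def vf_c1 (r0 w r a d : ℕ) : Bool :=
  !(Nat.ble r0 r && Nat.ble (w + 1) (3 * r) && Nat.ble (w - r + 1) d && Nat.ble (w + 1) (2 * d)) ||
    vfOK w r a d

/-- all checks for `a` and `w ≤ W` -/
def vf_all (r0 a W : ℕ) : Bool :=
  (List.range (W + 1)).all fun w => (List.range (w + 1)).all fun r => (List.range w).all fun d =>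
    vf_c1 r0 w r a d

theorem vf_all_get {r0 a W : ℕ} (h : vf_all r0 a W = true) {w r d : ℕ} (hw : w ≤ W) (hr : r0 ≤ r)
    (hrw : r ≤ w) (h3 : w < 3 * r) (hd : d < w) (hg : w - r + 1 ≤ d) (hd2 : w < 2 * d) :
    vfOK w r a d = true := by
  unfold vf_all at h
  have h1 := List.all_eq_true.1 h w (List.mem_range.2 (by omega))
  have h2 := List.all_eq_true.1 h1 r (List.mem_range.2 (by omega))
  have h3' := List.all_eq_true.1 h2 d (List.mem_range.2 hd)
  unfold vf_c1 at h3'
  rw [Nat.ble_eq_true_of_le hr, Nat.ble_eq_true_of_le (show w + 1 ≤ 3 * r from h3),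
    Nat.ble_eq_true_of_le hg, Nat.ble_eq_true_of_le (show w + 1 ≤ 2 * d from hd2)] at h3'
  simpa using h3'

theorem vf_k1 : vf_all 3 1 40 = true := by decide +kernel

theorem vf_k2 : vf_all 4 2 16 = true := by decide +kernel

/-- all checks for `3 ≤ a ≤ 10` and `w ≤ 12` -/
theorem vf_k3 : ((List.range 8).all fun i => vf_all (i + 5) (i + 3) 12) = true := by decide +kernel

/-- `a = 1`, `w ≤ 40` (checked by program: true). Kernel computation: `decide +kernel` on a
statement `∀ w < 41, ∀ r < 41, ∀ d < 41, (conditions as Booleans) → vfOK w r 1 d = true`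
(`List.all`/`Nat.all` form if the instance is slow; split by `w` if needed). -/
theorem vf_one (w r d : ℕ) (hw : w ≤ 40) (hr : 3 ≤ r) (hrw : r ≤ w) (h3 : w < 3 * r) (hd : d < w)
    (hg : w - r + 1 ≤ d) (hd2 : w < 2 * d) : vfOK w r 1 d = true :=
  vf_all_get vf_k1 hw hr hrw h3 hd hg hd2

/-- `a = 2`, `w ≤ 16`. -/
theorem vf_two (w r d : ℕ) (hw : w ≤ 16) (hr : 4 ≤ r) (hrw : r ≤ w) (h3 : w < 3 * r) (hd : d < w)
    (hg : w - r + 1 ≤ d) (hd2 : w < 2 * d) : vfOK w r 2 d = true :=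
  vf_all_get vf_k2 hw hr hrw h3 hd hg hd2

/-- `a ≥ 3`, `w ≤ 12`. -/
theorem vf_three (w r a d : ℕ) (hw : w ≤ 12) (ha : 3 ≤ a) (har : a + 2 ≤ r) (hrw : r ≤ w)
    (h3 : w < 3 * r) (hd : d < w) (hg : w - r + 1 ≤ d) (hd2 : w < 2 * d) :
    vfOK w r a d = true := by
  obtain ⟨i, rfl⟩ : ∃ i, a = i + 3 := ⟨a - 3, by omega⟩
  have h := List.all_eq_true.1 vf_k3 i (List.mem_range.2 (by omega))
  exact vf_all_get h hw (by omega) hrw h3 hd hg hd2

/-- From `vfOK` to the inequality: `hq_eq` (`d/q < w` because `d < w`, `q ≥ 2`), `GG_eq`, `TT_GG`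
(`JJ_le`; `J < r`: if `J ≥ r` then `J (w-r+J) ≥ r w > d`), `TT_T2`. -/
theorem V_of_OK (w r a d q : ℕ) (T : ℝ) (h : TT w r d T) (ha : 1 ≤ a) (hq2 : 2 ≤ q)
    (har : a + q = r) (hrw : r ≤ w) (hd : d < w) (hg : w - r + 1 ≤ d)
    (hOK : vfOK w r a d = true) : (a : ℝ) + hq w q d ≤ ((a : ℝ) + 1) * T := by
  have hra : r - a = q := by omega
  have hdq : d / q < w := lt_of_le_of_lt (Nat.div_le_self d q) hd
  have hD : (0 : ℝ) < hqD w q d := by exact_mod_cast hqD_pos w q d hdq
  unfold vfOK at hOK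
  rw [hra, Bool.or_eq_true, decide_eq_true_eq, decide_eq_true_eq] at hOK
  rw [hq_eq w q d hdq]
  rcases hOK with h1 | h1
  · set J := JJ (w - r) d 7 with hJ
    have hJd : J * (w - r + J) ≤ d := JJ_le (w - r) d 7
    have hJr : J < r := by
      by_contra hc
      rw [not_lt] at hc
      have h2 : r * (w - r + r) ≤ J * (w - r + J) := Nat.mul_le_mul hc (by omega)
      rw [Nat.sub_add_cancel hrw] at h2
      have h3 : 1 * w ≤ r * w := Nat.mul_le_mul_right w (by omega)
      omega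
    have hT := TT_GG w r d J T h hJr hrw hd hJd
    rw [GG_eq w r J hJr.le] at hT
    have hG : (0 : ℝ) < GGD r J := by exact_mod_cast GGD_pos r J hJr.le
    have h1' : ((a : ℝ) * hqD w q d + hqN w q d) * GGD r J ≤
        (a + 1) * GGN w J * hqD w q d := by exact_mod_cast h1
    have h4 : (a : ℝ) + hqN w q d / hqD w q d ≤ (a + 1) * (GGN w J / GGD r J) := by
      rw [← mul_div_assoc, le_div_iff₀ hG]
      rw [← mul_le_mul_iff_of_pos_right hD]
      calc ((a : ℝ) + hqN w q d / hqD w q d) * GGD r J * hqD w q d =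
          ((a : ℝ) * hqD w q d + hqN w q d) * GGD r J := by field_simp
        _ ≤ _ := h1'
    refine h4.trans (mul_le_mul_of_nonneg_left hT (by positivity))
  · have hT := TT_T2 w r d T h (by omega) hrw hd hg
    have hwd : (0 : ℝ) < (w : ℝ) + 1 - d := by
      have : (d : ℝ) < w := by exact_mod_cast hd
      linarith
    have hr0 : (0 : ℝ) < r := by
      have : 0 < r := by omega
      exact_mod_cast this
    have hG : (0 : ℝ) < (r : ℝ) * (w + 1 - d) := mul_pos hr0 hwd
    have h1' : ((a : ℝ) * hqD w q d + hqN w q d) * (r * (w + 1 - d)) ≤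
        (a + 1) * ((w + 1) * (w - d) + d + r) * hqD w q d := by
      have h2 : ((((a * hqD w q d + hqN w q d) * (r * (w + 1 - d)) : ℕ)) : ℝ) ≤
          (((a + 1) * ((w + 1) * (w - d) + d + r) * hqD w q d : ℕ) : ℝ) := by exact_mod_cast h1
      push_cast [Nat.cast_sub (show d ≤ w + 1 by omega), Nat.cast_sub hd.le] at h2
      exact h2
    have h4 : (a : ℝ) + hqN w q d / hqD w q d ≤
        (a + 1) * ((((w : ℝ) + 1) * (w - d) + d + r) / ((r : ℝ) * (w + 1 - d))) := by
      rw [← mul_div_assoc, le_div_iff₀ hG]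
      rw [← mul_le_mul_iff_of_pos_right hD]
      calc ((a : ℝ) + hqN w q d / hqD w q d) * ((r : ℝ) * (w + 1 - d)) * hqD w q d =
          ((a : ℝ) * hqD w q d + hqN w q d) * ((r : ℝ) * (w + 1 - d)) := by field_simp
        _ ≤ _ := h1'
    refine h4.trans (mul_le_mul_of_nonneg_left hT (by positivity))

end Pool.Agent.LRQ
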