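import Mathlib
import Pool.Agent.LRQ.TB
import Pool.Agent.LRQ.VA
import Pool.Agent.LRQ.VB
import Pool.Agent.LRQ.VF
import Pool.Agent.LRQ.RF
import Pool.Agent.LRQ.RN1
import Pool.Agent.LRQ.RN4

set_option autoImplicit false

/-! # [LRQ-VT] region V: collection -/

namespace Pool.Agent.LRQ

open Finset
open Pool.Agent.LRE Pool.Agent.LRT

/-- `a ≥ 3`: `w ≥ 13` `VA3`, else `vf_three`. `a = 2`: `w ≥ 17` `VA2` (`q ≥ 3` because `w < 3(q+2)`),
else `vf_two`. `a = 1`: `w ≥ 41` `VB1` (`w ≤ 3q+2`; `q + 1 = r ≤ w`), else `vf_one`. `TT_T1` gives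
`T ≥ 2(w+1)/(2w+3-d)` (`w ≥ 10`), `V_of_OK` for the finite part. -/
theorem V_ineq (w r d a q : ℕ) (T : ℝ) (h : TT w r d T) (ha : 1 ≤ a) (hq2 : 2 ≤ q)
    (har : a + q = r) (hrw : r ≤ w) (h3 : w < 3 * r) (hd : d < w) (hg : w - r + 1 ≤ d)
    (hd2 : w < 2 * d) : (a : ℝ) + hq w q d ≤ ((a : ℝ) + 1) * T := by
  have hbig : 10 ≤ w → (a : ℝ) + hq w q d ≤ ((a : ℝ) + 1) * (2 * ((w : ℝ) + 1) / (2 * w + 3 - d)) →
      (a : ℝ) + hq w q d ≤ ((a : ℝ) + 1) * T := fun hw hle =>
    hle.trans (mul_le_mul_of_nonneg_left (TT_T1 w r d T h (by omega) hrw hd hg (Or.inl hw))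
      (by positivity))
  rcases Nat.lt_or_ge a 3 with ha3 | ha3
  · rcases Nat.lt_or_ge a 2 with ha2 | ha2
    · obtain rfl : a = 1 := by omega
      rcases Nat.lt_or_ge w 41 with hw | hw
      · exact V_of_OK w r 1 d q T h ha hq2 har hrw hd hg
          (vf_one w r d (by omega) (by omega) hrw h3 hd hg hd2)
      · refine hbig (by omega) ?_
        have h1 := VB1 w q d hw (by omega) (by omega) hd hd2
        have e : ((1 : ℕ) : ℝ) + 1 = 2 := by norm_num
        rw [e, Nat.cast_one]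
        exact h1
    · obtain rfl : a = 2 := by omega
      rcases Nat.lt_or_ge w 17 with hw | hw
      · exact V_of_OK w r 2 d q T h ha hq2 har hrw hd hg
          (vf_two w r d (by omega) (by omega) hrw h3 hd hg hd2)
      · refine hbig (by omega) ?_
        have h1 := VA2 w q d (by omega) hw hd hd2
        have e : ((2 : ℕ) : ℝ) + 1 = 3 := by norm_num
        rw [e, Nat.cast_ofNat]
        exact h1
  · rcases Nat.lt_or_ge w 13 with hw | hw
    · exact V_of_OK w r a d q T h ha hq2 har hrw hd hg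
        (vf_three w r a d (by omega) ha3 (by omega) hrw h3 hd hg hd2)
    · exact hbig (by omega) (VA3 w q d a hq2 ha3 hw hd hd2)

/-- `w ≤ 40`: `rf_all`, `RB_of_OK`. `w ≥ 41`: `a = 1` `RB1_num` (`w ≤ 3q+2`) and `TT_T1`; `a ≥ 2`
`RB2_num` and `TT_one`. -/
theorem RB_V (w r d a q : ℕ) (T : ℝ) (h : TT w r d T) (ha : 1 ≤ a) (hq2 : 2 ≤ q)
    (har : a + q = r) (hrw : r ≤ w) (h3 : w < 3 * r) (hd : d < w) (hg : w - r + 1 ≤ d)
    (hd2 : w < 2 * d) (had : a * q < d) : RB a q w d ≤ T := by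
  rcases Nat.lt_or_ge w 41 with hw | hw
  · have hq : r - a = q := by omega
    exact RB_of_OK w r a d q T h ha hq2 har hrw hd hg had
      (rf_all w r a d (by omega) ha (by omega) hrw h3 hd hg hd2 (by rw [hq]; exact had))
  · rcases Nat.lt_or_ge a 2 with ha2 | ha2
    · obtain rfl : a = 1 := by omega
      exact (RB1_num w q d hw (by omega) (by omega) hd).trans
        (TT_T1 w r d T h (by omega) hrw hd hg (Or.inl (by omega)))
    · exact (RB2_num w a q d hw ha2 hq2 (by omega) had hd).trans (TT_one w r d T h (by omega) hrw hd)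

end Pool.Agent.LRQ
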