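import Mathlib
import Pool.Agent.LRQ.Sh
import Pool.Agent.LRQ.HB2
import Pool.Agent.LRT.J5

set_option autoImplicit false

/-! # [LRQ-X1] few middle rows -/

namespace Pool.Agent.LRQ

open Finset
open Pool.Agent.LRE Pool.Agent.LRT
open scoped NNReal

/-- `w^(r-1), s'` with `s' = w - d ≥ 1` is `NN w (r w - d)`: `NN_last w r d` (LRT/J5.lean), `rpsi_cst`,
and `TT` with `c = w`. -/
theorem x1_base (w r d : ℕ) (T : ℝ) (h : TT w r d T) (hr : 1 ≤ r) (hrw : r ≤ w) (hd : d < w) :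
    rpsi (Multiset.replicate (r - 1) (w : ℝ≥0) + {((w - d : ℕ) : ℝ≥0)}) ≤ T * hh r (w : ℝ) := by
  have h1 := h w (by omega) (by omega) (by
    have : w + r - w = r := by omega
    rw [this, Nat.mul_comm w r]
    exact Nat.le_add_right _ _)
  rw [NN_last w r d hr hd, ← rpsi_cst, cst_add, cst_replicate, cst_singleton] at h1
  exact h1

theorem x1_single (s : ℕ) : rpsi ({(s : ℝ≥0)} : Multiset ℝ≥0) = 1 / ((s : ℝ) + 1) := by
  have h := rpsi_rect 1 (s : ℝ≥0)
  rw [Multiset.replicate_one] at h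
  rw [h]
  have e : (1 : ℕ) = 0 + 1 := rfl
  rw [e, hh_succ, hh_zero, NNReal.coe_natCast]
  simp

theorem x1_hh1 (s : ℕ) : hh s (1 : ℝ) = 1 / ((s : ℝ) + 1) := by
  have h := hh_symm s 1
  rw [Nat.cast_one] at h
  have e : (1 : ℕ) = 0 + 1 := rfl
  rw [h, e, hh_succ, hh_zero]
  simp

theorem x1_app (a c w : ℕ) (s : ℝ≥0) :
    Multiset.replicate a (w : ℝ≥0) + (Multiset.replicate c (w : ℝ≥0) + {s}) =
      Multiset.replicate (a + c) (w : ℝ≥0) + {s} := by
  rw [Multiset.replicate_add, add_assoc]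

/-- `q = 0`: the sum forces `d = 0`, `c = 0`, `e = 0` (`1 ≤ W`); `rpsi_rect`, `TT_one`. -/
theorem X_full (w r d c e : ℕ) (T : ℝ) (W : ℝ≥0) (h : TT w r d T) (hr : 1 ≤ r) (hrw : r ≤ w)
    (hd : d < w) (h1 : 1 ≤ W) (hsum : (c : ℝ) * (W : ℝ) + e + d = 0) :
    rpsi (sh r c e w W) ≤ T * hh r (w : ℝ) := by
  have hW : (1 : ℝ) ≤ (W : ℝ) := by exact_mod_cast h1
  have hc0 : (0 : ℝ) ≤ c := Nat.cast_nonneg _
  have he0 : (0 : ℝ) ≤ e := Nat.cast_nonneg _
  have hd0 : (0 : ℝ) ≤ d := Nat.cast_nonneg _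
  have hcW : (c : ℝ) * 1 ≤ c * W := mul_le_mul_of_nonneg_left hW hc0
  have hc : c = 0 := by
    have : (c : ℝ) = 0 := by linarith
    exact_mod_cast this
  have he : e = 0 := by
    have : (e : ℝ) = 0 := by linarith
    exact_mod_cast this
  subst hc
  subst he
  unfold sh
  rw [Multiset.replicate_zero, Multiset.replicate_zero, add_zero, add_zero, rpsi_rect,
    NNReal.coe_natCast]
  have hT := TT_one w r d T h hr hrw hd
  have hh0 : 0 ≤ hh r (w : ℝ) := (hh_pos r (Nat.cast_nonneg w)).le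
  nlinarith

/-- `q = 1`: with `s' = w - d`, `c W + e = s'`; `rInv`: `rpsi (W^c, 1^e) ≤ 1/(s'+1) = rpsi {s'}`.
`rdom_near` with `L = w`, `s = s'`, `r = 0`, `ν = w^a`, `τ = W^c + 1^e` (`W ≤ w`, `1 ≤ w`), `κ = 1`;
`x1_base`. -/
theorem X_one (w r d a c e : ℕ) (T : ℝ) (W : ℝ≥0) (h : TT w r d T) (har : a + 1 = r) (hrw : r ≤ w)
    (hd : d < w) (h1 : 1 ≤ W) (hWw : W ≤ w) (hsum : (c : ℝ) * (W : ℝ) + e + d = w) :
    rpsi (sh a c e w W) ≤ T * hh r (w : ℝ) := by
  have hbase := x1_base w r d T h (by omega) hrw hd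
  have hs1 : ((w - d : ℕ) : ℝ) = (w : ℝ) - d := Nat.cast_sub hd.le
  have hw1 : (1 : ℝ≥0) ≤ (w : ℝ≥0) := h1.trans hWw
  have hw0 : (0 : ℝ≥0) < (w : ℝ≥0) := lt_of_lt_of_le one_pos hw1
  have hsw : ((w - d : ℕ) : ℝ≥0) ≤ (w : ℝ≥0) := by
    have : w - d ≤ w := Nat.sub_le _ _
    exact_mod_cast this
  have hinv := rInv c e W h1
  have hval : (c : ℝ) * W + e + 1 = ((w - d : ℕ) : ℝ) + 1 := by
    rw [hs1]
    linarith
  have hpos : (0 : ℝ) < ((w - d : ℕ) : ℝ) + 1 := by positivity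
  have hτ1 : rpsi (Multiset.replicate c W + Multiset.replicate e 1) ≤
      1 * rpsi (Multiset.replicate 0 (w : ℝ≥0) + {((w - d : ℕ) : ℝ≥0)}) := by
    rw [Multiset.replicate_zero, zero_add, one_mul, x1_single, le_div_iff₀ hpos, ← hval]
    exact hinv
  have h2 := rdom_near (w : ℝ≥0) ((w - d : ℕ) : ℝ≥0) hw0 hsw 0
    (Multiset.replicate a (w : ℝ≥0)) (Multiset.replicate c W + Multiset.replicate e 1) 1 le_rfl
    (fun x hx => (Multiset.eq_of_mem_replicate hx).ge)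
    (fun x hx => by
      rcases Multiset.mem_add.1 hx with hx | hx
      · rw [Multiset.eq_of_mem_replicate hx]
        exact hWw
      · rw [Multiset.eq_of_mem_replicate hx]
        exact hw1) hτ1
  rw [Multiset.replicate_zero, zero_add, one_mul] at h2
  have ha : r - 1 = a := by omega
  rw [ha] at hbase
  unfold sh
  exact h2.trans hbase

/-- `c = q - 1 ≥ 1`. `s' = w - d ≥ 1`, `c W + e = c w + s'`, so `e = s' + D` with a natural number `D`
and `c W + D = c w`. `D = 0`: `W = w`, rows `w^{a+c}, 1^{s'}`, and `rpsi (1^{s'}) = 1/(s'+1) =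
rpsi {s'}`. `D ≥ 1`: `rpsi (W^c, 1^e) ≤ hh e 1 * hh c (W-1) = hh c (W-1)/(e+1)` (`rH`), `hb_IN`, and
the right side of `hb_IN` is `psi (w^c + {s'})` (`psi_near`, `hh_symm`, `rpsi_cst`). In both cases
`rdom_near` with `L = w`, `s = s'`, `r = c`, `ν = w^a`, `κ = 1`; `w^a + (w^c + {s'}) = w^(r-1) + {s'}`;
`x1_base`. -/
theorem X_near (w r d a c e q : ℕ) (T : ℝ) (W : ℝ≥0) (h : TT w r d T) (ha : 1 ≤ a) (hq2 : 2 ≤ q)
    (har : a + q = r) (hrw : r ≤ w) (hd : d < w) (hc : c + 1 = q) (hcard : a + c + e ≤ w)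
    (h1 : 1 ≤ W) (hWw : W ≤ w) (hsum : (c : ℝ) * (W : ℝ) + e + d = q * w) :
    rpsi (sh a c e w W) ≤ T * hh r (w : ℝ) := by
  have hbase := x1_base w r d T h (by omega) hrw hd
  obtain ⟨s', hs'⟩ : ∃ s' : ℕ, s' = w - d := ⟨_, rfl⟩
  rw [← hs'] at hbase
  have hs1 : (s' : ℝ) = (w : ℝ) - d := by
    rw [hs']
    exact Nat.cast_sub hd.le
  have hw1 : (1 : ℝ≥0) ≤ (w : ℝ≥0) := h1.trans hWw
  have hw0 : (0 : ℝ≥0) < (w : ℝ≥0) := lt_of_lt_of_le one_pos hw1
  have hsw : (s' : ℝ≥0) ≤ (w : ℝ≥0) := by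
    have : s' ≤ w := by omega
    exact_mod_cast this
  have hWw' : (W : ℝ) ≤ w := by exact_mod_cast hWw
  have hq : (q : ℝ) = c + 1 := by
    rw [← hc]
    push_cast
    ring
  have hc0 : (0 : ℝ) ≤ c := Nat.cast_nonneg _
  have hcW : (c : ℝ) * W ≤ c * w := mul_le_mul_of_nonneg_left hWw' hc0
  have hes : (s' : ℝ) ≤ e := by
    rw [hq] at hsum
    nlinarith
  have hes' : s' ≤ e := by exact_mod_cast hes
  obtain ⟨D, hD⟩ : ∃ D : ℕ, e = s' + D := ⟨e - s', by omega⟩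
  have hDr : (c : ℝ) * (W : ℝ) + D = c * w := by
    rw [hq, hD] at hsum
    push_cast at hsum
    linarith
  have hac : r - 1 = a + c := by omega
  rw [hac, ← x1_app] at hbase
  have hmem : ∀ x ∈ Multiset.replicate c W + Multiset.replicate e 1, x ≤ (w : ℝ≥0) := by
    intro x hx
    rcases Multiset.mem_add.1 hx with hx | hx
    · rw [Multiset.eq_of_mem_replicate hx]
      exact hWw
    · rw [Multiset.eq_of_mem_replicate hx]
      exact hw1
  suffices hτ1 : rpsi (Multiset.replicate c W + Multiset.replicate e 1) ≤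
      1 * rpsi (Multiset.replicate c (w : ℝ≥0) + {(s' : ℝ≥0)}) by
    have h2 := rdom_near (w : ℝ≥0) (s' : ℝ≥0) hw0 hsw c
      (Multiset.replicate a (w : ℝ≥0)) (Multiset.replicate c W + Multiset.replicate e 1) 1 le_rfl
      (fun x hx => (Multiset.eq_of_mem_replicate hx).ge) hmem hτ1
    rw [one_mul] at h2
    unfold sh
    exact h2.trans hbase
  rcases Nat.eq_zero_or_pos D with hD0 | hD0
  · -- `W = w`
    have hc1 : (0 : ℝ) < c := by
      have : 0 < c := by omega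
      exact_mod_cast this
    have hWe : (W : ℝ) = w := by
      rw [hD0, Nat.cast_zero, add_zero] at hDr
      exact mul_left_cancel₀ hc1.ne' hDr
    have hWe' : W = (w : ℝ≥0) := by
      apply NNReal.coe_injective
      rw [hWe, NNReal.coe_natCast]
    have hee : e = s' := by omega
    rw [hWe', hee]
    have h3 : rpsi (Multiset.replicate s' (1 : ℝ≥0)) ≤
        1 * rpsi (Multiset.replicate 0 (w : ℝ≥0) + {(s' : ℝ≥0)}) := by
      rw [Multiset.replicate_zero, zero_add, one_mul, x1_single, rpsi_rect, NNReal.coe_one,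
        x1_hh1]
    have h4 := rdom_near (w : ℝ≥0) (s' : ℝ≥0) hw0 hsw 0
      (Multiset.replicate c (w : ℝ≥0)) (Multiset.replicate s' 1) 1 le_rfl
      (fun x hx => (Multiset.eq_of_mem_replicate hx).ge)
      (fun x hx => by
        rw [Multiset.eq_of_mem_replicate hx]
        exact hw1) h3
    rw [Multiset.replicate_zero, zero_add] at h4
    exact h4
  · have h3 := rH c e W 1 h1
    rw [NNReal.coe_one, x1_hh1] at h3
    have h4 := hb_IN c e w s' D (W : ℝ) (by omega) hD0 (by omega) hD (by omega) hDr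
    have h5 : rpsi (Multiset.replicate c (w : ℝ≥0) + {(s' : ℝ≥0)}) =
        hh c (w : ℝ) * (((c : ℝ) + ((w : ℝ) + 1) / ((s' : ℝ) + 1)) / ((w : ℝ) + c + 1)) := by
      rw [← cst_replicate, ← cst_singleton, ← cst_add, rpsi_cst, psi_near w c s' (by omega),
        hh_symm]
    rw [one_mul, h5]
    refine le_trans h3 (le_trans (le_of_eq ?_) h4)
    ring

end Pool.Agent.LRQ
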