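import Mathlib
import Pool.Agent.LRQ.A9
import Pool.Agent.LRQ.Num
import Pool.Agent.LRT.H2

set_option autoImplicit false

/-! # [LRQ-RS] shapes with short middle rows -/

namespace Pool.Agent.LRQ

open Finset
open Pool.Agent.LRE Pool.Agent.LRT
open scoped NNReal

/-- `K b = (d/q - b + 1) ∏_{i<b} (w+q-i)/(w-i)` is antitone for `b ≤ w`: one step is
`(d/q - b)(w+q-b) ≤ (d/q - b + 1)(w-b)`, i.e. `d - b q ≤ w - b`. -/
theorem rs_K (q w d a b : ℕ) (hq1 : 1 ≤ q) (hd : d ≤ w) (hab : a ≤ b) (hb : b ≤ w) :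
    ((d : ℝ) / q - b + 1) * ∏ i ∈ range b, ((w : ℝ) + q - i) / ((w : ℝ) - i) ≤
      ((d : ℝ) / q - a + 1) * ∏ i ∈ range a, ((w : ℝ) + q - i) / ((w : ℝ) - i) := by
  have hq0 : (0 : ℝ) < q := by exact_mod_cast hq1
  induction b, hab using Nat.le_induction with
  | base => exact le_rfl
  | succ b hab ih =>
    refine le_trans ?_ (ih (by omega))
    have hbw : (b : ℝ) + 1 ≤ w := by exact_mod_cast hb
    have hdw : (d : ℝ) ≤ w := by exact_mod_cast hd
    have hq1' : (1 : ℝ) ≤ q := by exact_mod_cast hq1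
    have hb0 : (0 : ℝ) ≤ b := Nat.cast_nonneg b
    have hwb : (0 : ℝ) < (w : ℝ) - b := by linarith
    have hP : 0 ≤ ∏ i ∈ range b, ((w : ℝ) + q - i) / ((w : ℝ) - i) := by
      refine prod_nonneg fun i hi => ?_
      have hi' : (i : ℝ) ≤ b := by exact_mod_cast (mem_range.1 hi).le
      exact div_nonneg (by linarith) (by linarith)
    rw [prod_range_succ]
    have h1 : ((d : ℝ) / q - (b + 1 : ℕ) + 1) * (((w : ℝ) + q - b) / ((w : ℝ) - b)) ≤
        (d : ℝ) / q - b + 1 := by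
      rw [← mul_div_assoc, div_le_iff₀ hwb]
      have h2 : ((d : ℝ) / q - b) * q = d - b * q := by
        field_simp
      have h3 : (b : ℝ) ≤ b * q := le_mul_of_one_le_right hb0 hq1'
      push_cast
      have h4 : ((d : ℝ) / q - (b + 1) + 1) * ((w : ℝ) + q - b) =
          ((d : ℝ) / q - b + 1) * ((w : ℝ) - b) + (((d : ℝ) / q - b) * q - (w - b)) := by ring
      rw [h4, h2]
      linarith
    calc ((d : ℝ) / q - (b + 1 : ℕ) + 1) *
          ((∏ i ∈ range b, ((w : ℝ) + q - i) / ((w : ℝ) - i)) * (((w : ℝ) + q - b) / ((w : ℝ) - b)))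
        = (((d : ℝ) / q - (b + 1 : ℕ) + 1) * (((w : ℝ) + q - b) / ((w : ℝ) - b))) *
          ∏ i ∈ range b, ((w : ℝ) + q - i) / ((w : ℝ) - i) := by ring
      _ ≤ _ := mul_le_mul_of_nonneg_right h1 hP

/-- `hh q (w - b) = hh q w ∏_{i<b} (w+q-i)/(w-i)`. -/
theorem rs_shift (q w b : ℕ) (hb : b ≤ w) :
    hh q ((w - b : ℕ) : ℝ) = hh q (w : ℝ) * ∏ i ∈ range b, ((w : ℝ) + q - i) / ((w : ℝ) - i) := by
  induction b with
  | zero => simp
  | succ b ih =>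
    have h1 := ih (by omega)
    have h2 : w - b = (w - (b + 1)) + 1 := by omega
    have h3 := hh_nat_succ q (w - (b + 1))
    rw [← h2, h1] at h3
    have hbw : (b : ℝ) + 1 ≤ w := by exact_mod_cast hb
    have hq0 : (0 : ℝ) ≤ q := Nat.cast_nonneg q
    have h4 : ((w - (b + 1) : ℕ) : ℝ) = (w : ℝ) - (b + 1) := by
      rw [Nat.cast_sub hb]
      push_cast
      ring
    rw [h4] at h3
    have h5 : (w : ℝ) - (b + 1) + 1 = (w : ℝ) - b := by ring
    have h6 : (w : ℝ) - (b + 1) + q + 1 = (w : ℝ) + q - b := by ring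
    rw [h5, h6] at h3
    rw [prod_range_succ, ← mul_assoc, h3, h4]
    have h7 : (w : ℝ) - b ≠ 0 := by linarith
    have h8 : (w : ℝ) + q - b ≠ 0 := by linarith
    field_simp

/-- `b = w - c ≥ a`, `x = q - W`. `c x = c q - (q w - d) = d - b q` (so `x > 0`), and `x ≤ 1`:
`(q-1) c ≤ (q-1)(w-a) < q w - d = c W`. `hh_chord c (q-1) (1-x)` and `hh_add_one`
(`hh c (q-1) = hh c q (q+c)/q`) give `hh c W ≤ hh c q (1 + x c/q) = hh c q (d/q - b + 1)`, and
`hh c q = hh q c = hh q (w-b) = hh q w ∏_{i<b} (w+q-i)/(w-i)` (`hh_symm`, induction with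
`hh_add_one`; if `q` needs `1 ≤ w - i`: `b < w` because `c ≥ 1`). -/
theorem rs_left (a q w d c : ℕ) (W : ℝ) (hq1 : 1 ≤ q) (hd : d < w) (hc1 : 1 ≤ c) (hc : a + c ≤ w)
    (ha : 1 ≤ a) (hW : (c : ℝ) * W + d = q * w) (hWq : W < q) :
    hh c W ≤ hh q (w : ℝ) *
      (((d : ℝ) / q - a + 1) * ∏ i ∈ range a, ((w : ℝ) + q - i) / ((w : ℝ) - i)) := by
  have hq0 : (0 : ℝ) < q := by exact_mod_cast hq1
  have hc0 : (0 : ℝ) < c := by exact_mod_cast hc1
  have hq1' : (1 : ℝ) ≤ q := by exact_mod_cast hq1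
  have hdw : (d : ℝ) < w := by exact_mod_cast hd
  have hcw : (c : ℝ) ≤ w := by exact_mod_cast (by omega : c ≤ w)
  have hab : a ≤ w - c := by omega
  have hK := rs_K q w d a (w - c) hq1 hd.le hab (by omega)
  have hb : ((w - c : ℕ) : ℝ) = (w : ℝ) - c := by
    rw [Nat.cast_sub (by omega)]
  -- `x = q - W ∈ (0, 1]`
  have hx1 : (q : ℝ) - 1 ≤ W := by
    have h1 : (c : ℝ) * ((q : ℝ) - 1) ≤ c * W := by
      have h2 : (c : ℝ) * ((q : ℝ) - 1) ≤ w * ((q : ℝ) - 1) :=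
        mul_le_mul_of_nonneg_right hcw (by linarith)
      have h3 : (c : ℝ) * W = q * w - d := by linarith
      rw [h3]
      linarith
    exact le_of_mul_le_mul_left h1 hc0
  have h1 := hh_chord c ((q : ℝ) - 1) (W - (q - 1)) (by linarith) (by linarith) (by linarith)
  have h2 := hh_add_one c (b := (q : ℝ) - 1) (by linarith)
  rw [sub_add_cancel] at h2
  have e1 : (q : ℝ) - 1 + (W - (q - 1)) = W := by ring
  rw [e1, sub_add_cancel, h2] at h1
  have e2 : (q : ℝ) - 1 + c + 1 = q + c := by ring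
  rw [e2] at h1 h2
  have h3 : (1 - (W - ((q : ℝ) - 1))) * hh c ((q : ℝ) - 1) +
      (W - ((q : ℝ) - 1)) * (hh c ((q : ℝ) - 1) * ((q : ℝ) / (q + c))) =
      hh c (q : ℝ) * ((d : ℝ) / q - (w - c : ℕ) + 1) := by
    rw [h2, hb]
    have h4 : (q : ℝ) + c ≠ 0 := by positivity
    have h5 : (d : ℝ) = q * w - c * W := by linarith
    rw [h5]
    field_simp
    ring
  rw [h3, hh_symm] at h1
  have h6 := rs_shift q w (w - c) (by omega)
  have h7 : w - (w - c) = c := by omega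
  rw [h7] at h6
  rw [h6] at h1
  refine h1.trans ?_
  have hw0 : 0 < hh q (w : ℝ) := hh_pos q (Nat.cast_nonneg w)
  calc hh q (w : ℝ) * (∏ i ∈ range (w - c), ((w : ℝ) + q - i) / ((w : ℝ) - i)) *
        ((d : ℝ) / q - (w - c : ℕ) + 1)
      = hh q (w : ℝ) * (((d : ℝ) / q - (w - c : ℕ) + 1) *
        ∏ i ∈ range (w - c), ((w : ℝ) + q - i) / ((w : ℝ) - i)) := by ring
    _ ≤ _ := mul_le_mul_of_nonneg_left hK hw0.le

/-- `hh (a + q) w` -/
theorem rs_hh_add (a q w : ℕ) (hqw : q ≤ w) :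
    hh q (w : ℝ) * hh a ((w : ℝ) - q) = hh (a + q) (w : ℝ) *
      ∏ i ∈ range a, ((i : ℝ) + 1) * ((w : ℝ) + q + (i + 1)) /
        (((q : ℝ) + (i + 1)) * ((w : ℝ) - q + (i + 1))) := by
  have hqw' : (q : ℝ) ≤ w := by exact_mod_cast hqw
  have hq0 : (0 : ℝ) ≤ q := Nat.cast_nonneg q
  induction a with
  | zero => simp [hh_zero]
  | succ a ih =>
    have ha0 : (0 : ℝ) ≤ a := Nat.cast_nonneg a
    rw [hh_succ, prod_range_succ, show a + 1 + q = (a + q) + 1 by ring, hh_succ]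
    have e : hh q (w : ℝ) * (hh a ((w : ℝ) - q) * (((a : ℝ) + 1) / ((w : ℝ) - q + (a + 1)))) =
        (hh q (w : ℝ) * hh a ((w : ℝ) - q)) * (((a : ℝ) + 1) / ((w : ℝ) - q + (a + 1))) := by
      ring
    rw [e, ih]
    push_cast
    have h1 : (w : ℝ) - q + (a + 1) ≠ 0 := by linarith
    have h2 : (q : ℝ) + (a + 1) ≠ 0 := by linarith
    have h3 : (w : ℝ) + (a + q + 1) ≠ 0 := by linarith
    field_simp
    ring

/-- `rH`, `rs_left`, `hh a (w-W) ≤ hh a (w-q)` (`hh_anti`, `W < q ≤ w`), and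
`hh q w * hh a (w-q) = hh (a+q) w * ∏_{i<a} (i+1)(w+q+i+1)/((q+i+1)(w-q+i+1))` (induction on `a`,
`hh_succ`). -/
theorem RB_bound (a q w d c : ℕ) (W : ℝ≥0) (ha : 1 ≤ a) (hq1 : 1 ≤ q) (hd : d < w) (hc1 : 1 ≤ c)
    (hc : a + c ≤ w) (hqw : q ≤ w) (hW : (c : ℝ) * (W : ℝ) + d = q * w) (hWq : (W : ℝ) < q) :
    rpsi (Multiset.replicate a (w : ℝ≥0) + Multiset.replicate c W) ≤
      hh (a + q) (w : ℝ) * RB a q w d := by
  have hqw' : (q : ℝ) ≤ w := by exact_mod_cast hqw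
  have hW0 : (0 : ℝ) ≤ (W : ℝ) := W.2
  have hWw : W ≤ (w : ℝ≥0) := by
    rw [← NNReal.coe_le_coe]
    push_cast
    linarith
  have h1 := rH a c (w : ℝ≥0) W hWw
  have h2 := rs_left a q w d c (W : ℝ) hq1 hd hc1 hc ha hW hWq
  have h3 : hh a (((w : ℝ≥0) : ℝ) - W) ≤ hh a ((w : ℝ) - q) := by
    refine hh_anti a (by linarith) ?_
    push_cast
    linarith
  have h4 : 0 ≤ hh a ((w : ℝ) - q) := (hh_pos a (by linarith)).le
  have h5 : 0 ≤ hh c (W : ℝ) := (hh_pos c hW0).le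
  have h6 := rs_hh_add a q w hqw
  calc rpsi (Multiset.replicate a (w : ℝ≥0) + Multiset.replicate c W)
      ≤ hh c (W : ℝ) * hh a (((w : ℝ≥0) : ℝ) - W) := h1
    _ ≤ hh c (W : ℝ) * hh a ((w : ℝ) - q) := mul_le_mul_of_nonneg_left h3 h5
    _ ≤ (hh q (w : ℝ) * (((d : ℝ) / q - a + 1) *
          ∏ i ∈ range a, ((w : ℝ) + q - i) / ((w : ℝ) - i))) * hh a ((w : ℝ) - q) :=
        mul_le_mul_of_nonneg_right h2 h4
    _ = (hh q (w : ℝ) * hh a ((w : ℝ) - q)) * (((d : ℝ) / q - a + 1) *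
          ∏ i ∈ range a, ((w : ℝ) + q - i) / ((w : ℝ) - i)) := by ring
    _ = hh (a + q) (w : ℝ) * RB a q w d := by
        rw [h6]
        unfold RB
        ring

end Pool.Agent.LRQ
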