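import Mathlib
import Pool.Agent.LRQ.Sh
import Pool.Agent.LRQ.HB1
import Pool.Agent.LRQ.RS

set_option autoImplicit false

/-! # [LRQ-X2] rows `w^a, W^c`, regions V and V0 -/

namespace Pool.Agent.LRQ

open Finset
open Pool.Agent.LRE Pool.Agent.LRT
open scoped NNReal

/-- comparison of `W^c` with `Y^q`, `q Y = c W` (`Y ≤ w`): if `q c ≤ c W`, `hh_U q c (c W)` gives
`rpsi (W^c) ≤ rpsi (Y^q)`, and `rdom` with `L = Y`, `r = q`, `ν = w^a`, `τ = W^c` (`W ≤ Y`),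
`κ = 1`. -/
theorem x2_U (a c q w : ℕ) (W Y : ℝ≥0) (hq1 : 1 ≤ q) (hqc : q ≤ c) (hY : (q : ℝ) * (Y : ℝ) = c * (W : ℝ))
    (hYw : Y ≤ w) (hqW : (q : ℝ) ≤ W) : rpsi (fl a c w W) ≤ rpsi (fl a q w Y) := by
  have hq0 : (0 : ℝ) < q := by exact_mod_cast hq1
  have hc0 : (0 : ℝ) < c := by exact_mod_cast (lt_of_lt_of_le hq1 hqc)
  have hqc' : (q : ℝ) ≤ c := by exact_mod_cast hqc
  have hW0 : (0 : ℝ) < (W : ℝ) := lt_of_lt_of_le hq0 hqW
  have hY0' : 0 < (q : ℝ) * (Y : ℝ) := by rw [hY]; positivity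
  have hY0 : (0 : ℝ) < (Y : ℝ) := (mul_pos_iff_of_pos_left hq0).1 hY0'
  have hWY : (W : ℝ) ≤ Y := by
    have h1 : (q : ℝ) * W ≤ q * Y := by
      rw [hY]
      exact mul_le_mul_of_nonneg_right hqc' hW0.le
    exact le_of_mul_le_mul_left h1 hq0
  have hh1 := hh_U q c ((c : ℝ) * W) hq1 hqc (mul_le_mul_of_nonneg_left hqW hc0.le)
  rw [mul_div_cancel_left₀ _ hc0.ne', ← hY, mul_div_cancel_left₀ _ hq0.ne'] at hh1
  have h := rdom Y (by exact_mod_cast hY0) q (Multiset.replicate a (w : ℝ≥0))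
    (Multiset.replicate c W) 1 le_rfl
    (fun x hx => by rw [Multiset.eq_of_mem_replicate hx]; exact hYw)
    (fun x hx => by rw [Multiset.eq_of_mem_replicate hx]; exact_mod_cast hWY)
    (by rw [one_mul, rpsi_rect, rpsi_rect]; exact hh1)
  rw [one_mul] at h
  exact h

/-- `c W + d = q w`. If `q ≤ W`: `x2_U` with `Y = (q w - d)/q`, `Ah`, `hV`. If `W < q`: then
`a q < d` (`q w - d = c W < (w-a) q`), `RB_bound`, `hR`. -/
theorem X_flat (w r d a c q : ℕ) (T : ℝ) (W : ℝ≥0) (ha : 1 ≤ a) (hq2 : 2 ≤ q) (har : a + q = r)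
    (hd : d < w) (hqc : q ≤ c) (hac : a + c ≤ w) (hW : (c : ℝ) * (W : ℝ) + d = q * w)
    (hV : (a : ℝ) + hq w q d ≤ ((a : ℝ) + 1) * T) (hR : a * q < d → RB a q w d ≤ T) :
    rpsi (fl a c w W) ≤ T * hh r (w : ℝ) := by
  have hq1 : 1 ≤ q := by omega
  have hq0 : (0 : ℝ) < q := by exact_mod_cast hq1
  have hc1 : 1 ≤ c := by omega
  have hc0 : (0 : ℝ) < c := by exact_mod_cast hc1
  have hqc' : (q : ℝ) ≤ c := by exact_mod_cast hqc
  have hhr : 0 < hh r (w : ℝ) := hh_pos r (Nat.cast_nonneg w)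
  rcases le_or_gt (q : ℝ) (W : ℝ) with hqW | hWq
  · -- `Y = (q w - d) / q`
    have hcW : (0 : ℝ) ≤ (c : ℝ) * W / q := by positivity
    obtain ⟨Y, hY⟩ : ∃ Y : ℝ≥0, (Y : ℝ) = (c : ℝ) * W / q := ⟨⟨_, hcW⟩, rfl⟩
    have hqY : (q : ℝ) * (Y : ℝ) = c * (W : ℝ) := by rw [hY]; field_simp
    have hYw : Y ≤ (w : ℝ≥0) := by
      rw [← NNReal.coe_le_coe, NNReal.coe_natCast]
      have h1 : (q : ℝ) * Y ≤ q * w := by
        have : (0 : ℝ) ≤ d := Nat.cast_nonneg d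
        linarith
      exact le_of_mul_le_mul_left h1 hq0
    have h1 := x2_U a c q w W Y hq1 hqc hqY hYw hqW
    have h2 := Ah a q w d Y hq1 (by rw [hqY]; exact hW) (by nlinarith)
    rw [har] at h2
    have ha0 : (0 : ℝ) < (a : ℝ) + 1 := by positivity
    have h3 : rpsi (fl a q w Y) * ((a : ℝ) + 1) ≤ (T * hh r (w : ℝ)) * ((a : ℝ) + 1) := by
      refine h2.trans ?_
      have h4 := mul_le_mul_of_nonneg_left hV hhr.le
      linarith
    exact h1.trans (le_of_mul_le_mul_right h3 ha0)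
  · have hqw : q ≤ w := by omega
    have h5 : a * q < d := by
      have h6 : (c : ℝ) * W < c * q := mul_lt_mul_of_pos_left hWq hc0
      have h7 : (a : ℝ) + c ≤ w := by exact_mod_cast hac
      have h8 : (q : ℝ) * (a + c) ≤ q * w := mul_le_mul_of_nonneg_left h7 hq0.le
      have h9 : (a : ℝ) * q < d := by nlinarith
      exact_mod_cast h9
    have h1 := RB_bound a q w d c W ha hq1 hd hc1 hac hqw hW hWq
    rw [har] at h1
    have h2 := mul_le_mul_of_nonneg_left (hR h5) hhr.le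
    have h3 : rpsi (fl a c w W) ≤ hh r (w : ℝ) * RB a q w d := h1
    linarith

/-- `elim_ones` (`(c W + e)/c = (q w - d)/c ≤ w`), and `X_flat` for `c + e` and for `c`. -/
theorem X_AB (w r d a c e q : ℕ) (T : ℝ) (W : ℝ≥0) (ha : 1 ≤ a) (hq2 : 2 ≤ q) (har : a + q = r)
    (hd : d < w) (hqc : q ≤ c) (hcard : a + c + e ≤ w) (h1 : 1 ≤ W) (hWw : W ≤ w)
    (hsum : (c : ℝ) * (W : ℝ) + e + d = q * w)
    (hV : (a : ℝ) + hq w q d ≤ ((a : ℝ) + 1) * T) (hR : a * q < d → RB a q w d ≤ T) :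
    rpsi (sh a c e w W) ≤ T * hh r (w : ℝ) := by
  have hc1 : 1 ≤ c := by omega
  have hc0 : (0 : ℝ) < c := by exact_mod_cast hc1
  have hce0 : (0 : ℝ) < (c : ℝ) + e := by positivity
  have hqc' : (q : ℝ) ≤ c := by exact_mod_cast hqc
  have hw0 : (0 : ℝ) ≤ w := Nat.cast_nonneg w
  have hd0 : (0 : ℝ) ≤ d := Nat.cast_nonneg d
  have h := elim_ones (w : ℝ≥0) W a c e hc1 h1 hWw (by
    rw [← NNReal.coe_le_coe]
    push_cast
    rw [div_le_iff₀ hc0]
    have h2 : (q : ℝ) * w ≤ c * w := mul_le_mul_of_nonneg_right hqc' hw0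
    linarith)
  refine h.trans (max_le ?_ ?_)
  · refine X_flat w r d a (c + e) q T _ ha hq2 har hd (by omega) (by omega) ?_ hV hR
    push_cast
    rw [mul_div_cancel₀ _ hce0.ne']
    linarith
  · refine X_flat w r d a c q T _ ha hq2 har hd hqc (by omega) ?_ hV hR
    push_cast
    rw [mul_div_cancel₀ _ hc0.ne']
    linarith

end Pool.Agent.LRQ
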