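import Mathlib
import Pool.Agent.LRQ.Sh
import Pool.Agent.LRQ.X2
import Pool.Agent.LRQ.I0
import Pool.Agent.LRQ.I1
import Pool.Agent.LRQ.I2

set_option autoImplicit false

/-! # [LRQ-X3] rows `w^a, W^c`, region I, more than `q` middle rows -/

namespace Pool.Agent.LRQ

open Finset
open Pool.Agent.LRE Pool.Agent.LRT
open scoped NNReal

/-- from one long row to `a` long rows: `rdom` with `L = w`, `r = q + 1`, `ν = w^(a-1)`, `κ = T`
(`rpsi_rect`: `rpsi (w^(q+1)) = hh (q+1) w`). -/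
theorem x3_peel (w a c q : ℕ) (T : ℝ) (W : ℝ≥0) (ha : 1 ≤ a) (hT : 1 ≤ T) (hWw : W ≤ w)
    (hw : 1 ≤ w) (h : rpsi (fl 1 c w W) ≤ T * hh (q + 1) (w : ℝ)) :
    rpsi (fl a c w W) ≤ T * hh (a + q) (w : ℝ) := by
  obtain ⟨b, rfl⟩ : ∃ b, a = b + 1 := ⟨a - 1, by omega⟩
  have hL : (0 : ℝ≥0) < (w : ℝ≥0) := by exact_mod_cast hw
  have h1 := rdom (w : ℝ≥0) hL (q + 1) (Multiset.replicate b (w : ℝ≥0)) (fl 1 c w W) T hT
    (fun x hx => by rw [Multiset.eq_of_mem_replicate hx])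
    (fun x hx => by
      unfold fl at hx
      rcases Multiset.mem_add.1 hx with hx | hx
      · rw [Multiset.eq_of_mem_replicate hx]
      · rw [Multiset.eq_of_mem_replicate hx]
        exact hWw)
    (by rw [rpsi_rect]; exact h)
  have e1 : Multiset.replicate b (w : ℝ≥0) + fl 1 c w W = fl (b + 1) c w W := by
    unfold fl
    rw [← add_assoc, ← Multiset.replicate_add]
  have e2 : Multiset.replicate b (w : ℝ≥0) + Multiset.replicate (q + 1) (w : ℝ≥0) =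
      Multiset.replicate (b + 1 + q) (w : ℝ≥0) := by
    rw [← Multiset.replicate_add]
    congr 1
    omega
  rw [e1, e2, rpsi_rect] at h1
  exact h1

/-- `c = q + 1`: `rH1 c w W`, `w - W = (w+d)/c`, `hh (c+1) w = hh c w (c+1)/(w+c+1)`, so
`rpsi ({w} + W^c) ((w+d)/c + 1) = hh c W - W hh c w/(w+c+1) ≤ T ((w+d)/c + 1) hh c w` (`I1_num`);
`x3_peel`. -/
theorem x3_one (w r d a q : ℕ) (T : ℝ) (W : ℝ≥0) (h : TT w r d T) (ha : 1 ≤ a) (hq2 : 2 ≤ q)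
    (har : a + q = r) (hrw : r ≤ w) (h3 : w < 3 * r) (hdr : d + 1 ≤ r) (hd2 : 2 * d ≤ w)
    (hW : ((q : ℝ) + 1) * (W : ℝ) + d = q * w) :
    rpsi (fl a (q + 1) w W) ≤ T * hh r (w : ℝ) := by
  have hT := TT_one w r d T h (by omega) hrw (by omega)
  have hq0 : (0 : ℝ) < (q : ℝ) + 1 := by positivity
  have hw0 : (0 : ℝ) ≤ w := Nat.cast_nonneg w
  have hd0 : (0 : ℝ) ≤ d := Nat.cast_nonneg d
  have hW0 : (0 : ℝ) ≤ (W : ℝ) := W.coe_nonneg
  have hWw' : (W : ℝ) ≤ w := by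
    have h4 : ((q : ℝ) + 1) * (W : ℝ) ≤ ((q : ℝ) + 1) * w := by linarith
    exact le_of_mul_le_mul_left h4 hq0
  have hWw : W ≤ (w : ℝ≥0) := by
    rw [← NNReal.coe_le_coe]
    simpa using hWw'
  have h1 := rH1 (q + 1) (w : ℝ≥0) W hWw
  have h2 := I1_num w r (q + 1) d T W h (by omega) (by omega) hrw h3 hdr hd2
    (by push_cast; linarith)
  rw [← har]
  refine x3_peel w a (q + 1) q T W ha hT hWw (by omega) ?_
  have e1 : fl 1 (q + 1) w W = {(w : ℝ≥0)} + Multiset.replicate (q + 1) W := by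
    unfold fl
    rw [Multiset.replicate_one]
  rw [e1]
  have e2 : (((w : ℝ≥0) : ℝ)) = (w : ℝ) := by simp
  rw [e2, hh_succ (q + 1) (w : ℝ)] at h1
  push_cast at h1 h2
  have e3 : (w : ℝ) - W = ((w : ℝ) + d) / ((q : ℝ) + 1) := by
    rw [eq_div_iff hq0.ne']
    linarith
  have hpos : (0 : ℝ) < (w : ℝ) - W + 1 := by linarith
  refine le_of_mul_le_mul_right ?_ hpos
  rw [h1, e3]
  have e4 : (W : ℝ) / ((q : ℝ) + 1 + 1) * (hh (q + 1) (w : ℝ) *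
      (((q : ℝ) + 1 + 1) / ((w : ℝ) + ((q : ℝ) + 1 + 1)))) =
      hh (q + 1) (w : ℝ) * ((W : ℝ) / ((w : ℝ) + ((q : ℝ) + 1) + 1)) := by
    have e5 : (w : ℝ) + ((q : ℝ) + 1 + 1) = (w : ℝ) + ((q : ℝ) + 1) + 1 := by ring
    have e6 : (w : ℝ) + ((q : ℝ) + 1) + 1 ≠ 0 := by positivity
    rw [e5]
    field_simp
  rw [e4]
  linarith

/-- `c ≥ q + 2`. `q c ≤ q w - a q ≤ q w - d = c W` because `d ≤ a + q - 1 ≤ a q`. `hh_U q c (c W)`:
`hh c W ≤ hh q (w - d/q)`. `rH 1 c`: `rpsi ({w} + W^c) ≤ hh c W/(w-W+1)`, and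
`w - W ≥ w - (q w - d)/(q+2) = (2w+d)/(q+2)`. So it is `≤ hh q (w-d/q) (q+2)/(2w+d+q+2) ≤
hh q w (q+1)/(w+q+1) = hh (q+1) w` (`I2_small` if `d ≤ q`, `I2_big` otherwise); `TT_one`,
`x3_peel`. -/
theorem x3_two (w r d a c q : ℕ) (T : ℝ) (W : ℝ≥0) (h : TT w r d T) (ha : 1 ≤ a) (hq2 : 2 ≤ q)
    (har : a + q = r) (hrw : r ≤ w) (hdr : d + 1 ≤ r) (hd2 : 2 * d ≤ w)
    (hc : q + 2 ≤ c) (hac : a + c ≤ w) (hW : (c : ℝ) * (W : ℝ) + d = q * w) :
    rpsi (fl a c w W) ≤ T * hh r (w : ℝ) := by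
  have hT := TT_one w r d T h (by omega) hrw (by omega)
  have hq0 : (0 : ℝ) < (q : ℝ) := by exact_mod_cast (by omega : 0 < q)
  have hc0 : (0 : ℝ) < (c : ℝ) := by exact_mod_cast (by omega : 0 < c)
  have hw0 : (0 : ℝ) ≤ w := Nat.cast_nonneg w
  have hd0 : (0 : ℝ) ≤ d := Nat.cast_nonneg d
  have hcq : (q : ℝ) + 2 ≤ c := by exact_mod_cast hc
  have hW0 : (0 : ℝ) ≤ (W : ℝ) := W.coe_nonneg
  have hWw' : (W : ℝ) ≤ w := by
    have h4 : (c : ℝ) * (W : ℝ) ≤ (c : ℝ) * w := by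
      have : (q : ℝ) * w ≤ (c : ℝ) * w := mul_le_mul_of_nonneg_right (by linarith) hw0
      linarith
    exact le_of_mul_le_mul_left h4 hc0
  have hWw : W ≤ (w : ℝ≥0) := by
    rw [← NNReal.coe_le_coe]
    simpa using hWw'
  have hdaq : d ≤ a * q := by
    have h4 : d + 1 ≤ a + q := by omega
    have h5 : a + q ≤ a * q + 1 := by
      obtain ⟨b, rfl⟩ : ∃ b, a = b + 1 := ⟨a - 1, by omega⟩
      obtain ⟨p, rfl⟩ : ∃ p, q = p + 1 := ⟨q - 1, by omega⟩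
      have : (b + 1) * (p + 1) = b * p + b + p + 1 := by ring
      omega
    omega
  have hcW : (c : ℝ) * q ≤ (c : ℝ) * W := by
    have h4 : (d : ℝ) ≤ a * q := by exact_mod_cast hdaq
    have h5 : (a : ℝ) + c ≤ w := by exact_mod_cast hac
    have h6 : (q : ℝ) * ((a : ℝ) + c) ≤ q * w := mul_le_mul_of_nonneg_left h5 hq0.le
    linarith
  have h1 := hh_U q c ((c : ℝ) * W) (by omega) (by omega) hcW
  have e1 : (c : ℝ) * W / c = W := by field_simp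
  have e2 : (c : ℝ) * W / q = (w : ℝ) - d / q := by
    have : (c : ℝ) * W = q * w - d := by linarith
    rw [this]
    field_simp
  rw [e1, e2] at h1
  have h2 := rH 1 c (w : ℝ≥0) W hWw
  have e3 : (((w : ℝ≥0) : ℝ)) = (w : ℝ) := by simp
  rw [e3] at h2
  have e4 : hh 1 ((w : ℝ) - W) = 1 / ((w : ℝ) - W + 1) := by
    rw [show (1 : ℕ) = 0 + 1 from rfl, hh_succ, hh_zero]
    simp
  rw [e4] at h2
  have h3 : hh q ((w : ℝ) - d / q) * (((w : ℝ) + q + 1) * (q + 2)) ≤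
      hh q (w : ℝ) * (((q : ℝ) + 1) * (2 * w + d + q + 2)) := by
    rcases Nat.lt_or_ge q d with h4 | h4
    · exact I2_big w q d hq2 (by omega) hd2 h4
    · exact I2_small w q d hq2 (by omega) hd2 h4
  rw [← har]
  refine x3_peel w a c q T W ha hT hWw (by omega) ?_
  have hpos : (0 : ℝ) < (w : ℝ) - W + 1 := by linarith
  have h5 : ((2 : ℝ) * w + d + q + 2) ≤ ((q : ℝ) + 2) * ((w : ℝ) - W + 1) := by
    have h6 : ((q : ℝ) + 2) * W ≤ c * W := mul_le_mul_of_nonneg_right hcq hW0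
    linarith
  have hD : (0 : ℝ) < 2 * (w : ℝ) + d + q + 2 := by positivity
  have hE : (0 : ℝ) < (w : ℝ) + q + 1 := by positivity
  have hhp : (0 : ℝ) < hh q (w : ℝ) := hh_pos q hw0
  have hdq : (0 : ℝ) ≤ (w : ℝ) - d / q := by
    rw [← e2]
    positivity
  have hhq : (0 : ℝ) < hh q ((w : ℝ) - d / q) := hh_pos q hdq
  have h7 : hh (q + 1) (w : ℝ) = hh q (w : ℝ) * (((q : ℝ) + 1) / ((w : ℝ) + q + 1)) := by
    rw [hh_succ, add_assoc]
  have hhp1 : (0 : ℝ) < hh (q + 1) (w : ℝ) := hh_pos (q + 1) hw0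
  have h8 : hh q ((w : ℝ) - d / q) * (1 / ((w : ℝ) - W + 1)) ≤ hh (q + 1) (w : ℝ) := by
    rw [h7, mul_one_div, div_le_iff₀ hpos]
    have h9 : hh q ((w : ℝ) - d / q) * ((q : ℝ) + 2) ≤
        hh q (w : ℝ) * (((q : ℝ) + 1) / ((w : ℝ) + q + 1)) * (2 * w + d + q + 2) := by
      rw [mul_div_assoc', div_mul_eq_mul_div, le_div_iff₀ hE]
      linarith
    have h10 : hh q (w : ℝ) * (((q : ℝ) + 1) / ((w : ℝ) + q + 1)) * (2 * w + d + q + 2) ≤
        hh q (w : ℝ) * (((q : ℝ) + 1) / ((w : ℝ) + q + 1)) * (((q : ℝ) + 2) * ((w : ℝ) - W + 1)) :=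
      mul_le_mul_of_nonneg_left h5 (by positivity)
    have h11 : ((q : ℝ) + 2) * hh q ((w : ℝ) - d / q) ≤ ((q : ℝ) + 2) *
        (hh q (w : ℝ) * (((q : ℝ) + 1) / ((w : ℝ) + q + 1)) * ((w : ℝ) - W + 1)) := by
      linarith
    exact le_of_mul_le_mul_left h11 (by positivity)
  have h12 : rpsi (fl 1 c w W) ≤ hh (q + 1) (w : ℝ) := by
    refine h2.trans (le_trans ?_ h8)
    exact mul_le_mul_of_nonneg_right h1 (by positivity)
  exact h12.trans (le_mul_of_one_le_left hhp1.le hT)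

/-- `x3_one` and `x3_two`. -/
theorem XI_flat (w r d a c q : ℕ) (T : ℝ) (W : ℝ≥0) (h : TT w r d T) (ha : 1 ≤ a) (hq2 : 2 ≤ q)
    (har : a + q = r) (hrw : r ≤ w) (h3 : w < 3 * r) (hdr : d + 1 ≤ r) (hd2 : 2 * d ≤ w)
    (hc : q + 1 ≤ c) (hac : a + c ≤ w) (hW : (c : ℝ) * (W : ℝ) + d = q * w) :
    rpsi (fl a c w W) ≤ T * hh r (w : ℝ) := by
  rcases Nat.lt_or_ge c (q + 2) with h4 | h4
  · have h5 : c = q + 1 := by omega
    subst h5
    exact x3_one w r d a q T W h ha hq2 har hrw h3 hdr hd2 (by push_cast at hW; exact hW)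
  · exact x3_two w r d a c q T W h ha hq2 har hrw hdr hd2 h4 hac hW

end Pool.Agent.LRQ
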