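import Mathlib
import Pool.Agent.LRQ.Sh
import Pool.Agent.LRQ.A6

set_option autoImplicit false

/-! # [LRQ-X4] exactly `q` middle rows and a short tail -/

namespace Pool.Agent.LRQ

open Finset
open Pool.Agent.LRE Pool.Agent.LRT
open scoped NNReal

/-- one row -/
theorem x4_single (L : ℝ≥0) : rpsi {L} = 1 / ((L : ℝ) + 1) := by
  have h := rpsi_rec {L}
  have h0 : (0 : ℝ) ≤ L := L.coe_nonneg
  simp only [Multiset.sup_singleton, Multiset.card_singleton, Nat.cast_one,
    Multiset.map_singleton, Multiset.sum_singleton, Multiset.erase_singleton, rpsi_zero] at h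
  rw [eq_div_iff (by linarith)]
  linarith

/-- ones -/
theorem x4_ones (e : ℕ) : rpsi (Multiset.replicate e 1) = 1 / ((e : ℝ) + 1) := by
  induction e with
  | zero => simp [rpsi_zero]
  | succ n ih =>
    have h := rpsi_rec (Multiset.replicate (n + 1) (1 : ℝ≥0))
    have hsup : (Multiset.replicate (n + 1) (1 : ℝ≥0)).sup = 1 := by
      refine le_antisymm (Multiset.sup_le.2 fun b hb => (Multiset.eq_of_mem_replicate hb).le) ?_
      exact Multiset.le_sup (Multiset.mem_replicate.2 ⟨by omega, rfl⟩)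
    have hmap : ((Multiset.replicate (n + 1) (1 : ℝ≥0)).map fun x =>
        rpsi ((Multiset.replicate (n + 1) (1 : ℝ≥0)).erase x)).sum =
        ((n : ℝ) + 1) * rpsi (Multiset.replicate n 1) := by
      rw [Multiset.map_replicate, Multiset.sum_replicate, nsmul_eq_mul]
      have : (Multiset.replicate (n + 1) (1 : ℝ≥0)).erase 1 = Multiset.replicate n 1 := by
        rw [Multiset.replicate_succ, Multiset.erase_cons_head]
      rw [this]
      push_cast
      ring
    rw [hmap, hsup, Multiset.card_replicate, ih] at h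
    push_cast at h ⊢
    have hn : (0 : ℝ) ≤ n := Nat.cast_nonneg n
    rw [eq_div_iff (by positivity)]
    have h2 : ((n : ℝ) + 1) * (1 / ((n : ℝ) + 1)) = 1 := by
      field_simp
    rw [h2] at h
    linarith

/-- `ν = w^a + V^q`, `ν.card = r`. `rlift_one` (`L = V`) and `rSG` (`L = V`):
`rpsi (ν + {1}) ≤ rpsi ν [(V-1)/(2V) + (V+1)/(2V) (r+1)/(V+r+1)] = rpsi ν (V+2r+1)/(2(V+r+1))`, `Ah`
with `d + 1`: `rpsi ν (a+1) ≤ hh r w (a + hq w q (d+1))`; hypothesis `hN`. -/
theorem X_lift1 (w r d a q : ℕ) (T : ℝ) (V : ℝ≥0) (hq1 : 1 ≤ q) (har : a + q = r)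
    (hV1 : 1 ≤ V) (hV : (q : ℝ) * (V : ℝ) + ((d : ℝ) + 1) = q * w) (hd : d + 1 < q * w)
    (hN : ((V : ℝ) + 2 * r + 1) * (a + hq w q (d + 1)) ≤
      2 * ((V : ℝ) + r + 1) * (((a : ℝ) + 1) * T)) :
    rpsi (Multiset.replicate a (w : ℝ≥0) + (Multiset.replicate q V + {1})) ≤
      T * hh r (w : ℝ) := by
  have hq0 : (1 : ℝ) ≤ q := by exact_mod_cast hq1
  have hV1' : (1 : ℝ) ≤ V := by exact_mod_cast hV1
  have hVw : V ≤ (w : ℝ≥0) := by
    have h1 : (V : ℝ) ≤ w := by
      by_contra hcon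
      push Not at hcon
      have h2 : (q : ℝ) * w < q * V := mul_lt_mul_of_pos_left hcon (by linarith)
      have h3 : (0 : ℝ) ≤ d := Nat.cast_nonneg d
      linarith
    exact_mod_cast h1
  obtain ⟨ν, hν⟩ : ∃ ν, ν = Multiset.replicate a (w : ℝ≥0) + Multiset.replicate q V := ⟨_, rfl⟩
  have hνV : ∀ x ∈ ν, V ≤ x := by
    intro x hx
    rw [hν] at hx
    rcases Multiset.mem_add.1 hx with h1 | h1
    · rw [Multiset.eq_of_mem_replicate h1]; exact hVw
    · rw [Multiset.eq_of_mem_replicate h1]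
  have hνc : ν.card = r := by rw [hν]; simp [har]
  rw [← add_assoc, ← hν, rlift_one V hV1 ν hνV]
  have hS := rSG V ν hνV
  rw [hνc] at hS
  have hA := Ah a q w (d + 1) V hq1 (by push_cast; linarith) hd
  rw [← hν, har] at hA
  have hr0 : (0 : ℝ) ≤ r := Nat.cast_nonneg r
  have ha0 : (0 : ℝ) ≤ a := Nat.cast_nonneg a
  have hpos : (0 : ℝ) < (V : ℝ) + r + 1 := by linarith
  have h1 : (((V : ℝ) - 1) / (2 * V)) * rpsi ν + (((V : ℝ) + 1) / (2 * V)) * rpsi (ν + {V}) ≤
      ((V : ℝ) + 2 * r + 1) / (2 * ((V : ℝ) + r + 1)) * rpsi ν := by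
    have h2 : rpsi (ν + {V}) ≤ ((r : ℝ) + 1) / ((V : ℝ) + r + 1) * rpsi ν := by
      rw [div_mul_eq_mul_div, le_div_iff₀ hpos]
      linarith
    have h3 : 0 ≤ ((V : ℝ) + 1) / (2 * V) := by positivity
    have h4 := mul_le_mul_of_nonneg_left h2 h3
    refine (add_le_add le_rfl h4).trans (le_of_eq ?_)
    have hV0 : (V : ℝ) ≠ 0 := by linarith
    have hp0 : (V : ℝ) + r + 1 ≠ 0 := hpos.ne'
    field_simp
    ring
  refine h1.trans ?_
  rw [div_mul_eq_mul_div, div_le_iff₀ (by linarith)]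
  have hh0 : 0 ≤ hh r (w : ℝ) := (hh_pos r (Nat.cast_nonneg w)).le
  have ha1 : (0 : ℝ) < (a : ℝ) + 1 := by linarith
  refine le_of_mul_le_mul_right ?_ ha1
  have h5 := mul_le_mul_of_nonneg_left hA (show 0 ≤ (V : ℝ) + 2 * r + 1 by linarith)
  have h6 := mul_le_mul_of_nonneg_left hN hh0
  calc ((V : ℝ) + 2 * r + 1) * rpsi ν * ((a : ℝ) + 1)
      = ((V : ℝ) + 2 * r + 1) * (rpsi ν * ((a : ℝ) + 1)) := by ring
    _ ≤ ((V : ℝ) + 2 * r + 1) * (hh r (w : ℝ) * (a + hq w q (d + 1))) := h5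
    _ = hh r (w : ℝ) * (((V : ℝ) + 2 * r + 1) * (a + hq w q (d + 1))) := by ring
    _ ≤ hh r (w : ℝ) * (2 * ((V : ℝ) + r + 1) * (((a : ℝ) + 1) * T)) := h6
    _ = T * hh r (w : ℝ) * (2 * ((V : ℝ) + r + 1)) * ((a : ℝ) + 1) := by ring

/-- `e ≥ 1` ones, `e ≤ W`. `rdom` with `L = e`, `r = 1`, `κ = 1`, `ν = w^a + W^q` (`rpsi (1^e) =
1/(e+1) = rpsi {e}`): `rpsi (sh a q e w W) ≤ rpsi (w^a + (W^q + {e}))`. Put `S = q W + e`,
`V = (S-1)/q`, `Y = S/(q+1)`: `1 ≤ e ≤ Y ≤ W ≤ V ≤ w`, and `(W,e)` is a convex combination of `(V,1)`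
and `(Y,Y)` (`q·first + second = S` for all three). `quasi_blocks` with `P = w^a`, `c1 = q`,
`c2 = 1`, `R = 0`. -/
theorem X_merge (w d a e q : ℕ) (W V Y : ℝ≥0) (hq1 : 1 ≤ q) (he1 : 1 ≤ e) (heW : (e : ℝ≥0) ≤ W)
    (hWw : W ≤ w) (hsum : (q : ℝ) * (W : ℝ) + e + d = q * w)
    (hV : (q : ℝ) * (V : ℝ) + ((d : ℝ) + 1) = q * w) (hY : ((q : ℝ) + 1) * (Y : ℝ) + d = q * w) :
    rpsi (sh a q e w W) ≤
      max (rpsi (Multiset.replicate a (w : ℝ≥0) + (Multiset.replicate q V + {1})))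
        (rpsi (fl a (q + 1) w Y)) := by
  have hq0 : (1 : ℝ) ≤ q := by exact_mod_cast hq1
  have he0 : (1 : ℝ) ≤ e := by exact_mod_cast he1
  have hd0 : (0 : ℝ) ≤ d := Nat.cast_nonneg d
  have heW' : (e : ℝ) ≤ W := by exact_mod_cast heW
  have hWw' : (W : ℝ) ≤ w := by exact_mod_cast hWw
  have hqW : (q : ℝ) * e ≤ q * W := mul_le_mul_of_nonneg_left heW' (by linarith)
  -- the ones replaced by one row
  have h1 : rpsi (sh a q e w W) ≤ rpsi (Multiset.replicate a (w : ℝ≥0) +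
      (Multiset.replicate q W + {(e : ℝ≥0)})) := by
    have h2 := rdom (e : ℝ≥0) (by exact_mod_cast he1) 1
      (Multiset.replicate a (w : ℝ≥0) + Multiset.replicate q W) (Multiset.replicate e 1) 1 le_rfl
      (by
        intro x hx
        rcases Multiset.mem_add.1 hx with h3 | h3
        · rw [Multiset.eq_of_mem_replicate h3]; exact heW.trans hWw
        · rw [Multiset.eq_of_mem_replicate h3]; exact heW)
      (by
        intro x hx
        rw [Multiset.eq_of_mem_replicate hx]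
        exact_mod_cast he1)
      (by
        rw [x4_ones, Multiset.replicate_one, x4_single, one_mul]
        push_cast
        exact le_rfl)
    rw [one_mul, Multiset.replicate_one, add_assoc, add_assoc] at h2
    exact h2
  refine h1.trans ?_
  -- the order of the lengths
  have hVW : (W : ℝ) ≤ V := by
    by_contra hcon
    push Not at hcon
    have h2 : (q : ℝ) * V < q * W := mul_lt_mul_of_pos_left hcon (by linarith)
    linarith
  have hV1 : (1 : ℝ) ≤ V := by linarith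
  have hVw : (V : ℝ) ≤ w := by
    by_contra hcon
    push Not at hcon
    have h2 : (q : ℝ) * w < q * V := mul_lt_mul_of_pos_left hcon (by linarith)
    linarith
  have hYe : (e : ℝ) ≤ Y := by
    by_contra hcon
    push Not at hcon
    have h2 : ((q : ℝ) + 1) * Y < ((q : ℝ) + 1) * e := mul_lt_mul_of_pos_left hcon (by linarith)
    linarith
  have hYw : (Y : ℝ) ≤ w := by
    by_contra hcon
    push Not at hcon
    have h2 : ((q : ℝ) + 1) * w < ((q : ℝ) + 1) * Y := mul_lt_mul_of_pos_left hcon (by linarith)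
    have h3 : (0 : ℝ) ≤ w := Nat.cast_nonneg w
    linarith
  -- the convex combination
  obtain ⟨A, B, hA0, hB0, hAB, hmix⟩ : ∃ A B : ℝ, 0 ≤ A ∧ 0 ≤ B ∧ A + B = 1 ∧ A + B * Y = e := by
    rcases eq_or_lt_of_le (show (1 : ℝ) ≤ Y by linarith) with h2 | h2
    · refine ⟨1, 0, by norm_num, le_rfl, by norm_num, ?_⟩
      rw [zero_mul, add_zero]
      linarith
    · refine ⟨(Y - e) / (Y - 1), (e - 1) / (Y - 1), div_nonneg (by linarith) (by linarith),
        div_nonneg (by linarith) (by linarith), ?_, ?_⟩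
      · rw [← add_div]
        rw [div_eq_one_iff_eq (by linarith)]
        ring
      · have h3 : (Y : ℝ) - 1 ≠ 0 := by linarith
        field_simp
        ring
  have hmix2 : A * V + B * Y = W := by
    have h2 : (q : ℝ) * (A * V + B * Y) = q * W := by
      have h3 : A * ((q : ℝ) * V + 1) + B * (((q : ℝ) + 1) * Y) = (q : ℝ) * W + e := by
        have h4 : (q : ℝ) * V + 1 = (q : ℝ) * W + e := by linarith
        have h5 : ((q : ℝ) + 1) * Y = (q : ℝ) * W + e := by linarith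
        rw [h4, h5, ← add_mul, hAB, one_mul]
      linear_combination h3 - hmix
    exact mul_left_cancel₀ (by linarith) h2
  obtain ⟨A', rfl⟩ : ∃ A' : ℝ≥0, (A' : ℝ) = A := ⟨⟨A, hA0⟩, rfl⟩
  obtain ⟨B', rfl⟩ : ∃ B' : ℝ≥0, (B' : ℝ) = B := ⟨⟨B, hB0⟩, rfl⟩
  have hab : A' + B' = 1 := by
    ext
    push_cast
    exact hAB
  have hW2 : A' * V + B' * Y = W := by
    ext
    push_cast
    exact hmix2
  have he2 : A' * 1 + B' * Y = (e : ℝ≥0) := by
    ext
    push_cast
    rw [mul_one]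
    exact hmix
  have h2 := quasi_blocks A' B' hab (Multiset.replicate a (w : ℝ≥0)) 0 q 1 V 1 Y Y
    (by exact_mod_cast hV1) le_rfl
    (fun p hp => by rw [Multiset.eq_of_mem_replicate hp]; exact_mod_cast hVw)
    (fun p hp => by rw [Multiset.eq_of_mem_replicate hp]; exact_mod_cast hYw)
    (by simp) (by simp)
  rw [hW2, he2] at h2
  simp only [add_zero, Multiset.replicate_one] at h2
  unfold fl
  rw [Multiset.replicate_add q 1 Y, Multiset.replicate_one]
  exact h2

end Pool.Agent.LRQ
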