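import Mathlib
import Pool.Agent.LRQ.X3
import Pool.Agent.LRQ.X4

set_option autoImplicit false

/-! # [LRQ-X5] the shapes `w^a, W^c, 1^e` in region I -/

namespace Pool.Agent.LRQ

open Finset
open Pool.Agent.LRE Pool.Agent.LRT
open scoped NNReal

theorem x5_hh_one (e : ℕ) : hh e 1 = 1 / ((e : ℝ) + 1) := by
  induction e with
  | zero => rw [hh_zero]; norm_num
  | succ e ih =>
    rw [hh_succ, ih]
    have h1 : (e : ℝ) + 1 ≠ 0 := by positivity
    have h2 : (1 : ℝ) + ((e : ℝ) + 1) ≠ 0 := by positivity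
    push_cast
    field_simp
    ring

theorem x5_hh_two (b : ℝ) (hb : 0 ≤ b) : hh 2 b = 2 / ((b + 1) * (b + 2)) := by
  have h1 : b + 1 ≠ 0 := by positivity
  have h2 : b + 2 ≠ 0 := by positivity
  have e0 : hh 1 b = 1 / (b + 1) := by
    have := hh_succ 0 b
    rw [hh_zero] at this
    push_cast at this
    rw [one_mul, zero_add] at this
    exact this
  have e1 : hh 2 b = hh 1 b * (((1 : ℕ) + 1 : ℝ) / (b + ((1 : ℕ) + 1))) := hh_succ 1 b
  rw [e1, e0]
  push_cast
  have e2 : b + (1 + 1) = b + 2 := by ring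
  rw [e2]
  field_simp
  ring

/-- `c = q`, `W < e`. `e ≤ w - a - q = w - r`. Then `q = 2`: `q w - d = q W + e < (q+1) e ≤
(q+1)(w-r)`, so `(q+1) r < w + d ≤ (3r-1) + (r-1)`, `q < 3`. `rH 2 e` (rows `W^2`, `1^e`; `rH` with
`w := W`, `W := 1`): `rpsi (W^2, 1^e) ≤ hh e 1 * hh 2 (W-1) = (1/(e+1)) 2/(W(W+1)) ≤
2/((w+1)(w+2)) = hh 2 w` (`I0p_num`); `rdom` with `L = w`, `r = 2`, `ν = w^a`, `κ = 1`; `TT_one`. -/
theorem x5_long (w r d a e q : ℕ) (T : ℝ) (W : ℝ≥0) (h : TT w r d T) (ha : 1 ≤ a) (hq2 : 2 ≤ q)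
    (har : a + q = r) (hrw : r ≤ w) (h3 : w < 3 * r) (hdr : d + 1 ≤ r) (hd2 : 2 * d ≤ w)
    (hcard : a + q + e ≤ w) (h1 : 1 ≤ W) (hWw : W ≤ w) (hWe : W < (e : ℝ≥0))
    (hsum : (q : ℝ) * (W : ℝ) + e + d = q * w) :
    rpsi (sh a q e w W) ≤ T * hh r (w : ℝ) := by
  have hWe' : (W : ℝ) < e := by
    have := NNReal.coe_lt_coe.2 hWe
    rwa [NNReal.coe_natCast] at this
  have h1' : (1 : ℝ) ≤ W := by exact_mod_cast h1
  have hq0 : (0 : ℝ) < q := by
    have : 0 < q := by omega
    exact_mod_cast this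
  -- `q = 2`
  have hq : q = 2 := by
    by_contra hne
    have hq3 : 3 ≤ q := by omega
    have h5 : (q : ℝ) * w - d < (q + 1) * e := by
      have : (q : ℝ) * W < q * e := mul_lt_mul_of_pos_left hWe' hq0
      linarith
    have h6 : (e : ℝ) + r ≤ w := by
      have : e + r ≤ w := by omega
      exact_mod_cast this
    have h7 : ((q : ℝ) + 1) * r < w + d := by
      have h8 : ((q : ℝ) + 1) * e ≤ (q + 1) * (w - r) :=
        mul_le_mul_of_nonneg_left (by linarith) (by positivity)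
      linarith
    have h9 : (4 : ℝ) * r ≤ (q + 1) * r := by
      have : (4 : ℝ) ≤ q + 1 := by
        have : (3 : ℝ) ≤ q := by exact_mod_cast hq3
        linarith
      exact mul_le_mul_of_nonneg_right this (Nat.cast_nonneg r)
    have h10 : (4 * r : ℝ) < w + d := lt_of_le_of_lt h9 h7
    have h11 : 4 * r < w + d := by exact_mod_cast h10
    omega
  subst hq
  have hT : 1 ≤ T := TT_one w r d T h (by omega) hrw (by omega)
  have hw1 : (0 : ℝ≥0) < w := by
    have : 0 < w := by omega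
    exact_mod_cast this
  have h1w : (1 : ℝ≥0) ≤ w := h1.trans hWw
  have hnum := I0p_num w r d e (W : ℝ) (by omega) hdr (by omega)
    (by push_cast at hsum; exact hsum) hWe'
  have hH := rH 2 e W 1 h1
  rw [NNReal.coe_one, x5_hh_one, x5_hh_two _ (by linarith)] at hH
  have hR : rpsi (Multiset.replicate 2 (w : ℝ≥0)) = 2 / (((w : ℝ) + 1) * (w + 2)) := by
    rw [rpsi_rect, NNReal.coe_natCast, x5_hh_two _ (Nat.cast_nonneg w)]
  have hτ : rpsi (Multiset.replicate 2 W + Multiset.replicate e 1) ≤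
      1 * rpsi (Multiset.replicate 2 (w : ℝ≥0)) := by
    rw [one_mul, hR]
    refine hH.trans ?_
    have e1 : ((W : ℝ) - 1 + 1) * ((W : ℝ) - 1 + 2) = W * (W + 1) := by ring
    rw [e1, one_div, inv_mul_eq_div, div_div]
    refine div_le_div_of_nonneg_left (by norm_num) (by positivity) ?_
    calc ((w : ℝ) + 1) * (w + 2) ≤ ((e : ℝ) + 1) * (W * (W + 1)) := hnum
      _ = W * (W + 1) * ((e : ℝ) + 1) := by ring
  have hdom := rdom (w : ℝ≥0) hw1 2 (Multiset.replicate a (w : ℝ≥0))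
    (Multiset.replicate 2 W + Multiset.replicate e 1) 1 le_rfl
    (fun x hx => (Multiset.eq_of_mem_replicate hx).ge)
    (fun x hx => by
      rcases Multiset.mem_add.1 hx with hx | hx
      · rw [Multiset.eq_of_mem_replicate hx]; exact hWw
      · rw [Multiset.eq_of_mem_replicate hx]; exact h1w) hτ
  rw [← Multiset.replicate_add, one_mul, rpsi_rect, NNReal.coe_natCast, har] at hdom
  refine hdom.trans ?_
  exact le_mul_of_one_le_left (hh_pos r (Nat.cast_nonneg w)).le hT

/-- Region I, `c ≥ q`, at least `r + 1` rows. `c ≥ q + 1`: `elim_ones` (`(c W + e)/c ≤ w`) and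
`XI_flat` for `c + e` and `c`. `c = q` (so `e ≥ 1`): `e > W`: `x5_long`; `e ≤ W`: `X_merge` with
`V = w - (d+1)/q`, `Y = (q w - d)/(q+1)`, `X_lift1` with `I0_num`, and `XI_flat` for `c = q + 1`
(`a + q + 1 ≤ w` because `e ≥ 1`). -/
theorem X_I (w r d a c e q : ℕ) (T : ℝ) (W : ℝ≥0) (h : TT w r d T) (ha : 1 ≤ a) (hq2 : 2 ≤ q)
    (har : a + q = r) (hrw : r ≤ w) (h3 : w < 3 * r) (hdr : d + 1 ≤ r) (hd2 : 2 * d ≤ w)
    (hqc : q ≤ c) (hrows : r + 1 ≤ a + c + e) (hcard : a + c + e ≤ w) (h1 : 1 ≤ W) (hWw : W ≤ w)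
    (hsum : (c : ℝ) * (W : ℝ) + e + d = q * w) :
    rpsi (sh a c e w W) ≤ T * hh r (w : ℝ) := by
  have h1' : (1 : ℝ) ≤ W := by exact_mod_cast h1
  have hWw' : (W : ℝ) ≤ w := by
    have := NNReal.coe_le_coe.2 hWw
    rwa [NNReal.coe_natCast] at this
  have hd0 : (0 : ℝ) ≤ d := Nat.cast_nonneg d
  rcases Nat.lt_or_ge q c with hqc' | hqc'
  · have hc1 : 1 ≤ c := by omega
    have hc0 : (0 : ℝ≥0) < c := by exact_mod_cast hc1
    have hc0' : (0 : ℝ) < c := by exact_mod_cast hc1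
    have hce0 : (0 : ℝ) < (c : ℝ) + e := by positivity
    have hS : ((c : ℝ≥0) * W + e) / c ≤ w := by
      rw [div_le_iff₀ hc0, ← NNReal.coe_le_coe]
      push_cast
      have h5 : (q : ℝ) * w ≤ w * c := by
        have : (q : ℝ) ≤ c := by exact_mod_cast hqc
        rw [mul_comm (w : ℝ)]
        exact mul_le_mul_of_nonneg_right this (Nat.cast_nonneg w)
      linarith
    have hel := elim_ones (w : ℝ≥0) W a c e hc1 h1 hWw hS
    refine hel.trans (max_le ?_ ?_)
    · refine XI_flat w r d a (c + e) q T _ h ha hq2 har hrw h3 hdr hd2 (by omega) (by omega) ?_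
      push_cast
      rw [mul_div_cancel₀ _ hce0.ne']
      linarith
    · refine XI_flat w r d a c q T _ h ha hq2 har hrw h3 hdr hd2 (by omega) (by omega) ?_
      push_cast
      rw [mul_div_cancel₀ _ hc0'.ne']
      linarith
  · have hcq : c = q := le_antisymm hqc' hqc
    subst hcq
    have he1 : 1 ≤ e := by omega
    have hq0 : (0 : ℝ) < c := by
      have : 0 < c := by omega
      exact_mod_cast this
    rcases lt_or_ge W (e : ℝ≥0) with hWe | hWe
    · exact x5_long w r d a e c T W h ha hq2 har hrw h3 hdr hd2 hcard h1 hWw hWe hsum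
    · have he1' : (1 : ℝ) ≤ e := by exact_mod_cast he1
      have hVn : (0 : ℝ) ≤ ((c : ℝ) * w - (d + 1)) / c := by
        apply div_nonneg _ hq0.le
        have : 0 ≤ (c : ℝ) * W := by positivity
        linarith
      have hYn : (0 : ℝ) ≤ ((c : ℝ) * w - d) / (c + 1) := by
        apply div_nonneg _ (by positivity)
        have : 0 ≤ (c : ℝ) * W := by positivity
        linarith
      set V : ℝ≥0 := ⟨((c : ℝ) * w - (d + 1)) / c, hVn⟩ with hVd
      set Y : ℝ≥0 := ⟨((c : ℝ) * w - d) / (c + 1), hYn⟩ with hYd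
      have hV' : (V : ℝ) = ((c : ℝ) * w - (d + 1)) / c := rfl
      have hY' : (Y : ℝ) = ((c : ℝ) * w - d) / (c + 1) := rfl
      have hV : (c : ℝ) * (V : ℝ) + ((d : ℝ) + 1) = c * w := by
        rw [hV', mul_div_cancel₀ _ hq0.ne']
        ring
      have hY : ((c : ℝ) + 1) * (Y : ℝ) + d = c * w := by
        have : (c : ℝ) + 1 ≠ 0 := by positivity
        rw [hY', mul_div_cancel₀ _ this]
        ring
      have hV1 : 1 ≤ V := by
        rw [← NNReal.coe_le_coe, NNReal.coe_one]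
        have h5 : (c : ℝ) * W ≤ c * V := by linarith
        exact h1'.trans (le_of_mul_le_mul_left h5 hq0)
      have hd1 : d + 1 < c * w := by
        have h5 : (c : ℝ) * 1 ≤ c * W := mul_le_mul_of_nonneg_left h1' hq0.le
        have h6 : (2 : ℝ) ≤ c := by exact_mod_cast hq2
        have h7 : ((d : ℝ) + 1) < c * w := by linarith
        exact_mod_cast h7
      have hN := I0_num w r d a c (V : ℝ) T h ha hq2 har hrw h3 hdr hd2 hV
      refine (X_merge w d a e c W V Y (by omega) he1 hWe hWw hsum hV hY).trans (max_le ?_ ?_)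
      · exact X_lift1 w r d a c T V (by omega) har hV1 hV hd1 hN
      · exact XI_flat w r d a (c + 1) c T Y h ha hq2 har hrw h3 hdr hd2 le_rfl (by omega)
          (by push_cast; exact hY)

end Pool.Agent.LRQ
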