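import Mathlib
import Pool.Agent.LRQ.M2A
import Pool.Agent.LRQ.PT
import Pool.Agent.LRQ.VT
import Pool.Agent.LRQ.X1
import Pool.Agent.LRQ.X2
import Pool.Agent.LRQ.X5

set_option autoImplicit false

/-! # [LRQ-M2B] the box theorem for exact width `w`, regions I and V -/

namespace Pool.Agent.LRQ

open Finset
open Pool.Agent.LRE Pool.Agent.LRT
open scoped NNReal

/-- Region I. `s.card = r`: `exact_small`, `TT` with `c = r`. `s.card ≥ r + 1`: `M_vertex`;
`q = 0`: `X_full`; `q = 1`: `X_one`; `c + 1 = q`: `X_near`; `q ≤ c`: `X_I`. -/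
theorem M_I (w r d : ℕ) (T : ℝ) (s : Multiset ℕ) (h : TT w r d T) (hr : 1 ≤ r) (hrw : r ≤ w)
    (h3 : w < 3 * r) (hdr : d + 1 ≤ r) (hd2 : 2 * d ≤ w) (hd : d < w)
    (hpos : ∀ x ∈ s, 0 < x) (hsup : s.sup = w) (hcard : s.card ≤ w)
    (hsum : s.sum + d = r * w) : psi s ≤ T * hh r (w : ℝ) := by
  have hc := (M_card w r d s hr hd hsup hsum).1
  rcases Nat.eq_or_lt_of_le hc with heq | hlt
  · have h1 := exact_small r d s hr heq.symm (by rw [hsup]; exact hsum) (by omega)
      (by rw [hsup]; exact hrw)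
    have h2 : s.sum = r * w - d := by omega
    rw [h2] at h1
    refine h1.trans (h r hr (by omega) ?_)
    rw [Nat.add_sub_cancel]
    exact Nat.le_add_right _ _
  · obtain ⟨a, c, e, q, W, hace, _, ha, haq, hqc, h1, hWw, hsumW, hle⟩ :=
      M_vertex w r d s hr hrw hd hpos hsup hcard hsum
    refine hle.trans ?_
    rcases Nat.lt_or_ge q 2 with hq2 | hq2
    · rcases Nat.lt_or_ge q 1 with hq1 | hq1
      · obtain rfl : q = 0 := by omega
        obtain rfl : a = r := by omega
        refine X_full w a d c e T W h hr hrw hd h1 ?_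
        rw [hsumW, Nat.cast_zero, zero_mul]
      · obtain rfl : q = 1 := by omega
        refine X_one w r d a c e T W h haq hrw hd h1 hWw ?_
        rw [hsumW, Nat.cast_one, one_mul]
    · rcases Nat.lt_or_ge c q with hcq | hcq
      · exact X_near w r d a c e q T W h ha hq2 haq hrw hd (by omega) (by omega) h1 hWw hsumW
      · exact X_I w r d a c e q T W h ha hq2 haq hrw h3 hdr hd2 hcq (by omega) (by omega) h1 hWw
          hsumW

/-- Region V. `M_vertex`, `X_full`, `X_one`, `X_near`, `X_AB` with `V_ineq` and `RB_V`. -/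
theorem M_V (w r d : ℕ) (T : ℝ) (s : Multiset ℕ) (h : TT w r d T) (hr : 1 ≤ r) (hrw : r ≤ w)
    (h3 : w < 3 * r) (hg : w - r + 1 ≤ d) (hd2 : w < 2 * d) (hd : d < w)
    (hpos : ∀ x ∈ s, 0 < x) (hsup : s.sup = w) (hcard : s.card ≤ w)
    (hsum : s.sum + d = r * w) : psi s ≤ T * hh r (w : ℝ) := by
  obtain ⟨a, c, e, q, W, hace, _, ha, haq, hqc, h1, hWw, hsumW, hle⟩ :=
    M_vertex w r d s hr hrw hd hpos hsup hcard hsum
  refine hle.trans ?_
  rcases Nat.lt_or_ge q 2 with hq2 | hq2
  · rcases Nat.lt_or_ge q 1 with hq1 | hq1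
    · obtain rfl : q = 0 := by omega
      obtain rfl : a = r := by omega
      refine X_full w a d c e T W h hr hrw hd h1 ?_
      rw [hsumW, Nat.cast_zero, zero_mul]
    · obtain rfl : q = 1 := by omega
      refine X_one w r d a c e T W h haq hrw hd h1 hWw ?_
      rw [hsumW, Nat.cast_one, one_mul]
  · rcases Nat.lt_or_ge c q with hcq | hcq
    · exact X_near w r d a c e q T W h ha hq2 haq hrw hd (by omega) (by omega) h1 hWw hsumW
    · exact X_AB w r d a c e q T W ha hq2 haq hd hcq (by omega) h1 hWw hsumW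
        (V_ineq w r d a q T h ha hq2 haq hrw h3 hd hg hd2)
        (fun had => RB_V w r d a q T h ha hq2 haq hrw h3 hd hg hd2 had)

end Pool.Agent.LRQ
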