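import Mathlib
import Pool.Agent.LRQ.HB3

set_option autoImplicit false

/-! # [LRQ-V0] region V0: `r ≤ d ≤ w - r`, two or more full rows -/

namespace Pool.Agent.LRQ

open Finset
open Pool.Agent.LRE Pool.Agent.LRT

/-- Equivalent: `hq w q d ≤ 1 + (a+1) r/w`. The case `a ≥ 3`: `hq ≤ 4w²/(2w-d)²` (`hq_pow` with
`p = 2`), `d ≤ w - r`, so `hq ≤ 4w²/(w+r)²`; and `4w³ ≤ (w+4r)(w+r)²` because `w ≤ 3r`
(`w = 3r - y`). -/
theorem v0_three (w r d a q : ℕ) (ha : 3 ≤ a) (hq2 : 2 ≤ q) (hr : 1 ≤ r) (h3 : w + 3 ≤ 3 * r)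
    (hdr : d + r ≤ w) :
    (a : ℝ) + hq w q d ≤ ((a : ℝ) + 1) * (1 + (r : ℝ) / w) := by
  have hw1 : 1 ≤ w := by omega
  have hw0 : (0 : ℝ) < w := by exact_mod_cast hw1
  have hr0 : (0 : ℝ) < r := by exact_mod_cast hr
  have haR : (3 : ℝ) ≤ a := by exact_mod_cast ha
  have h3R : (w : ℝ) ≤ 3 * r := by
    have : ((w + 3 : ℕ) : ℝ) ≤ ((3 * r : ℕ) : ℝ) := by exact_mod_cast h3
    push_cast at this
    linarith
  have hdrR : (d : ℝ) + r ≤ w := by exact_mod_cast hdr
  have h := hq_pow w q d 2 (by norm_num) hq2 (by omega)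
  have hb : ((w : ℝ) + r) / (2 * w) ≤ 1 - (d : ℝ) / (((2 : ℕ) : ℝ) * w) := by
    rw [show (1 : ℝ) - (d : ℝ) / (((2 : ℕ) : ℝ) * w) = (2 * w - d) / (2 * w) by
      push_cast
      field_simp]
    gcongr
    linarith
  have hb0 : 0 < ((w : ℝ) + r) / (2 * w) := by positivity
  -- the bound for `hq`
  have hle : hq w q d ≤ ((w : ℝ) + 4 * r) / w := by
    by_contra hcon
    push Not at hcon
    have hpos : 0 < ((w : ℝ) + 4 * r) / w := by positivity
    have h4 : ((w : ℝ) + 4 * r) / w * (((w : ℝ) + r) / (2 * w)) ^ 2 < 1 := by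
      calc ((w : ℝ) + 4 * r) / w * (((w : ℝ) + r) / (2 * w)) ^ 2
          < hq w q d * (((w : ℝ) + r) / (2 * w)) ^ 2 := by
            apply mul_lt_mul_of_pos_right hcon
            positivity
        _ ≤ hq w q d * (1 - (d : ℝ) / (((2 : ℕ) : ℝ) * w)) ^ 2 := by
            apply mul_le_mul_of_nonneg_left _ (hpos.trans hcon).le
            exact pow_le_pow_left₀ hb0.le hb 2
        _ ≤ 1 := h
    rw [div_pow, div_mul_div_comm, div_lt_one (by positivity)] at h4
    have h5 : 0 ≤ (3 * (r : ℝ) - w) * (w * (w + r)) := by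
      apply mul_nonneg (by linarith)
      positivity
    have h6 : 0 < (r : ℝ) ^ 3 := by positivity
    nlinarith [h4, h5, h6]
  have h7 : ((w : ℝ) + 4 * r) / w = 1 + 4 * ((r : ℝ) / w) := by
    field_simp
  have h8 : 0 < (r : ℝ) / w := by positivity
  rw [h7] at hle
  nlinarith [mul_nonneg (sub_nonneg.2 haR) h8.le]

/-- The case `a = 2`, `r = q + 2`: `q + 2 ≤ d ≤ w - q - 2 ≤ 2q + 1`, so `d/q = 1` or `d/q = 2`.
* `d < 2q`: `hq = (w+q)(w-1+d-q)/(w(w-1))`; `d ≤ w-q-2` gives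
  `(w+q)(2w-3-2q) ≤ (w-1)(w+3q+6)` iff `w² - (3q+8)w - 2q² + 6 ≤ 0`, true as `w ≤ 3q+3`.
* `2q ≤ d`: `(w,d)` is `(3q+2,2q)`, `(3q+3,2q)` or `(3q+3,2q+1)`:
  `hq = (1+q/w)(1+q/(w-1))(1+(d-2q)/(w-2))`, three rational inequalities in `q ≥ 2`. -/
theorem v0_two (w d q : ℕ) (hq2 : 2 ≤ q) (h3 : w ≤ 3 * q + 3) (hrd : q + 2 ≤ d)
    (hdr : d + (q + 2) ≤ w) :
    2 + hq w q d ≤ 3 * (1 + ((q : ℝ) + 2) / w) := by
  have hqR : (2 : ℝ) ≤ q := by exact_mod_cast hq2
  by_cases hc : d < 2 * q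
  · -- one full block
    have e1 : d / q = 1 := by
      rw [Nat.div_eq_iff (by omega)]
      omega
    have e2 : d % q = d - q := by
      have := Nat.div_add_mod d q
      rw [e1] at this
      omega
    have e3 : ((d - q : ℕ) : ℝ) = (d : ℝ) - q := by
      rw [Nat.cast_sub (by omega)]
    have hdR : (d : ℝ) + (q + 2) ≤ w := by exact_mod_cast hdr
    have hwR : (w : ℝ) ≤ 3 * q + 3 := by exact_mod_cast h3
    have hdq : (q : ℝ) + 2 ≤ d := by exact_mod_cast hrd
    have hw1 : (0 : ℝ) < (w : ℝ) - 1 := by linarith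
    have hw0 : (0 : ℝ) < w := by linarith
    unfold hq
    rw [e1, e2, e3]
    simp only [Finset.range_one, Finset.prod_singleton, Nat.cast_zero, sub_zero, Nat.cast_one]
    have h1 : (1 + (q : ℝ) / w) * (1 + ((d : ℝ) - q) / ((w : ℝ) - 1)) ≤
        (1 + (q : ℝ) / w) * (1 + ((w : ℝ) - 2 * q - 2) / ((w : ℝ) - 1)) := by
      apply mul_le_mul_of_nonneg_left _ (by positivity)
      exact add_le_add le_rfl (div_le_div_of_nonneg_right (by linarith) hw1.le)
    have h2 : (1 + (q : ℝ) / w) * (1 + ((w : ℝ) - 2 * q - 2) / ((w : ℝ) - 1)) ≤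
        1 + 3 * (((q : ℝ) + 2) / w) := by
      rw [show (1 + (q : ℝ) / w) * (1 + ((w : ℝ) - 2 * q - 2) / ((w : ℝ) - 1)) =
          ((w + q) * (2 * w - 3 - 2 * q)) / (w * (w - 1)) by
        field_simp
        ring]
      rw [show 1 + 3 * (((q : ℝ) + 2) / w) = ((w + 3 * q + 6) * (w - 1)) / (w * (w - 1)) by
        field_simp
        ring]
      apply div_le_div_of_nonneg_right _ (by positivity)
      nlinarith [mul_nonneg hw0.le (sub_nonneg.2 hwR)]
    linarith
  · -- two full blocks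
    have e1 : d / q = 2 := by
      rw [Nat.div_eq_iff (by omega)]
      omega
    have e2 : d % q = d - 2 * q := by
      have := Nat.div_add_mod d q
      rw [e1] at this
      omega
    unfold hq
    rw [e1, e2]
    simp only [Finset.prod_range_succ, Finset.prod_range_zero, one_mul, Nat.cast_zero, sub_zero,
      Nat.cast_one]
    obtain hw | hw : w = 3 * q + 2 ∨ w = 3 * q + 3 := by omega
    · have hd : d = 2 * q := by omega
      subst hw hd
      simp only [Nat.sub_self, Nat.cast_zero, zero_div, add_zero, mul_one]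
      push_cast
      rw [show (1 + (q : ℝ) / (3 * q + 2)) * (1 + (q : ℝ) / (3 * q + 2 - 1)) =
          ((4 * q + 2) * (4 * q + 1)) / ((3 * q + 2) * (3 * q + 1)) by
        have h1 : (3 * (q : ℝ) + 2) ≠ 0 := by positivity
        have h2 : (3 * (q : ℝ) + 1) ≠ 0 := by positivity
        rw [show 3 * (q : ℝ) + 2 - 1 = 3 * q + 1 by ring]
        field_simp
        ring]
      rw [show 3 * (1 + ((q : ℝ) + 2) / (3 * q + 2)) =
          2 + ((6 * q + 8) * (3 * q + 1)) / ((3 * q + 2) * (3 * q + 1)) by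
        have h1 : (3 * (q : ℝ) + 2) ≠ 0 := by positivity
        have h2 : (3 * (q : ℝ) + 1) ≠ 0 := by positivity
        field_simp
        ring]
      refine add_le_add le_rfl (div_le_div_of_nonneg_right ?_ (by positivity))
      nlinarith
    · have hδ : ((d - 2 * q : ℕ) : ℝ) ≤ 1 := by
        have : d - 2 * q ≤ 1 := by omega
        exact_mod_cast this
      subst hw
      push_cast
      have h0 : (1 + (q : ℝ) / (3 * q + 3)) * (1 + (q : ℝ) / (3 * q + 3 - 1)) *
          (1 + ((d - 2 * q : ℕ) : ℝ) / (3 * q + 3 - 2)) ≤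
          (1 + (q : ℝ) / (3 * q + 3)) * (1 + (q : ℝ) / (3 * q + 3 - 1)) *
          (1 + 1 / (3 * q + 3 - 2)) := by
        have h1 : (0 : ℝ) < 3 * q + 3 - 1 := by linarith
        have h2 : (0 : ℝ) < 3 * q + 3 - 2 := by linarith
        gcongr
      have h3' : (1 + (q : ℝ) / (3 * q + 3)) * (1 + (q : ℝ) / (3 * q + 3 - 1)) *
          (1 + 1 / (3 * q + 3 - 2)) =
          ((4 * q + 3) * (4 * q + 2)) / ((3 * q + 3) * (3 * q + 1)) := by
        have h1 : (3 * (q : ℝ) + 3) ≠ 0 := by positivity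
        have h2 : (3 * (q : ℝ) + 2) ≠ 0 := by positivity
        have h4 : (3 * (q : ℝ) + 1) ≠ 0 := by positivity
        rw [show 3 * (q : ℝ) + 3 - 1 = 3 * q + 2 by ring,
          show 3 * (q : ℝ) + 3 - 2 = 3 * q + 1 by ring]
        field_simp
        ring
      have h4' : 3 * (1 + ((q : ℝ) + 2) / (3 * q + 3)) =
          2 + ((6 * q + 9) * (3 * q + 1)) / ((3 * q + 3) * (3 * q + 1)) := by
        have h1 : (3 * (q : ℝ) + 3) ≠ 0 := by positivity
        have h4 : (3 * (q : ℝ) + 1) ≠ 0 := by positivity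
        field_simp
        ring
      rw [h4']
      refine add_le_add le_rfl (h0.trans ?_)
      rw [h3']
      refine div_le_div_of_nonneg_right ?_ (by positivity)
      nlinarith

theorem V0_ineq (w r d a q : ℕ) (ha : 2 ≤ a) (hq2 : 2 ≤ q) (har : a + q = r) (h3 : w + 3 ≤ 3 * r)
    (hrd : r ≤ d) (hdr : d + r ≤ w) :
    (a : ℝ) + hq w q d ≤ ((a : ℝ) + 1) * (1 + (r : ℝ) / w) := by
  by_cases h : a = 2
  · subst h
    have hr : r = q + 2 := by omega
    subst hr
    have := v0_two w d q hq2 (by omega) hrd hdr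
    push_cast
    norm_num
    linarith
  · exact v0_three w r d a q (by omega) hq2 (by omega) h3 hdr

end Pool.Agent.LRQ
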