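import Mathlib
import Pool.Agent.LRQ.X2
import Pool.Agent.LRQ.X4
import Pool.Agent.LRQ.SN

set_option autoImplicit false

/-! # [LRQ-X6] the shapes `w, W^c, 1^e` in region S (`r = q + 1`, `r ≤ d ≤ w - r`, `w ≤ 3r - 3`) -/

namespace Pool.Agent.LRQ

open Finset
open Pool.Agent.LRE Pool.Agent.LRT
open scoped NNReal

/-- `c ≥ q + 1`. If `q ≤ W`: `hh_U q c (c W)` and `K0` give `hh c W ≤ hh q (w - d/q) ≤
hh q w * hq w q d`; `rH 1 c`: `rpsi ({w} + W^c) ≤ hh c W/(w-W+1)`, `w - W ≥ w - (q w-d)/(q+1) =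
(w+d)/(q+1)`. So it is `≤ hh q w * hq w q d * (q+1)/(w+d+q+1) ≤ (1 + r/w) hh (q+1) w`
(`S1_num`; `hh (q+1) w = hh q w (q+1)/(w+q+1)`), `TT_r`. If `W < q`: `RB_bound` (`a = 1`),
`RBS_num` (its hypothesis `d ≥ q + 1`), `TT_r`. -/
theorem XS_flat (w r d c q : ℕ) (T : ℝ) (W : ℝ≥0) (h : TT w r d T) (hq2 : 2 ≤ q)
    (har : q + 1 = r) (hrd : r ≤ d) (hdr : d + r ≤ w) (h3 : w + 3 ≤ 3 * r)
    (hc : q + 1 ≤ c) (hac : 1 + c ≤ w) (hW : (c : ℝ) * (W : ℝ) + d = q * w) :
    rpsi (fl 1 c w W) ≤ T * hh r (w : ℝ) := by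
  subst har
  have hT := TT_r w (q + 1) d T h (by omega) (by omega) (by omega) hrd
  push_cast at hT
  have hq2R : (2 : ℝ) ≤ q := by exact_mod_cast hq2
  have hdR : ((q : ℝ) + 1) ≤ d := by exact_mod_cast hrd
  have hdwR : (d : ℝ) + (q + 1) ≤ w := by exact_mod_cast hdr
  have hcR : (q : ℝ) + 1 ≤ c := by exact_mod_cast hc
  have hw0 : (0 : ℝ) < w := by linarith
  have hW0 : (0 : ℝ) ≤ (W : ℝ) := W.2
  have hhp : 0 < hh (q + 1) (w : ℝ) := hh_pos (q + 1) hw0.le
  have hhq : 0 < hh q (w : ℝ) := hh_pos q hw0.le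
  unfold fl
  rcases lt_or_ge (W : ℝ) (q : ℝ) with hWq | hWq
  · have h1 := RB_bound 1 q w d c W le_rfl (by omega) (by omega) (by omega) hac (by omega) hW hWq
    have h2 := RBS_num w q d hq2 (by omega) (by omega) (by omega)
    rw [add_comm 1 q] at h1
    calc _ ≤ hh (q + 1) (w : ℝ) * RB 1 q w d := h1
      _ ≤ hh (q + 1) (w : ℝ) * T := mul_le_mul_of_nonneg_left (h2.trans hT) hhp.le
      _ = T * hh (q + 1) (w : ℝ) := mul_comm _ _
  · -- `q ≤ W`
    have hqpos : (0 : ℝ) < q := by linarith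
    have hcpos : (0 : ℝ) < c := by linarith
    have hY0 : (0 : ℝ) ≤ (c : ℝ) * W / q := by positivity
    have hU := hh_U q c ((c : ℝ) * W) (by omega) (by omega) (mul_le_mul_of_nonneg_left hWq hcpos.le)
    have e1 : (c : ℝ) * W / c = W := by field_simp
    rw [e1] at hU
    have hK := K0 q w d ⟨(c : ℝ) * W / q, hY0⟩ (by omega) (by
      change (q : ℝ) * ((c : ℝ) * W / q) + d = q * w
      rw [mul_div_cancel₀ _ hqpos.ne']
      exact hW) (by nlinarith)
    change hh q ((c : ℝ) * W / q) ≤ hh q (w : ℝ) * hq w q d at hK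
    have hS := S1_num w q d hq2 (by omega) (by omega) (by omega)
    -- `W ≤ w`
    have hWle : (W : ℝ) * ((q : ℝ) + 1) ≤ q * w - d := by
      have : (W : ℝ) * ((q : ℝ) + 1) ≤ W * c := mul_le_mul_of_nonneg_left hcR hW0
      linarith [mul_comm (W : ℝ) c]
    have hgap : ((w : ℝ) + d) / (q + 1) ≤ w - W := by
      rw [div_le_iff₀ (by linarith)]
      linarith
    have hWw : W ≤ (w : ℝ≥0) := by
      rw [← NNReal.coe_le_coe]
      push_cast
      have : 0 ≤ ((w : ℝ) + d) / (q + 1) := by positivity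
      linarith
    have h1 := rH 1 c (w : ℝ≥0) W hWw
    have e2 : hh 1 (((w : ℝ≥0) : ℝ) - W) = 1 / ((w : ℝ) - W + 1) := by
      rw [hh_succ, hh_zero]
      push_cast
      ring
    rw [e2] at h1
    have hg0 : (0 : ℝ) < ((w : ℝ) + d) / (q + 1) + 1 := by positivity
    have h2 : 1 / ((w : ℝ) - W + 1) ≤ 1 / (((w : ℝ) + d) / (q + 1) + 1) :=
      one_div_le_one_div_of_le hg0 (by linarith)
    have h4 : hh c (W : ℝ) ≤ hh q (w : ℝ) * hq w q d := hU.trans hK
    have h5 : 0 ≤ hh q (w : ℝ) * hq w q d := le_trans (hh_pos c hW0).le h4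
    have h6 : 0 ≤ 1 / ((w : ℝ) - W + 1) := by
      have : 0 ≤ (w : ℝ) - W + 1 := by linarith
      positivity
    calc rpsi (Multiset.replicate 1 (w : ℝ≥0) + Multiset.replicate c W)
        ≤ hh c (W : ℝ) * (1 / ((w : ℝ) - W + 1)) := h1
      _ ≤ (hh q (w : ℝ) * hq w q d) * (1 / (((w : ℝ) + d) / (q + 1) + 1)) :=
          mul_le_mul h4 h2 h6 h5
      _ ≤ (hh q (w : ℝ) * (1 + ((d : ℝ) + ((q : ℝ) + 1)) / w)) *
            (1 / (((w : ℝ) + d) / (q + 1) + 1)) := by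
          apply mul_le_mul_of_nonneg_right _ (by positivity)
          exact mul_le_mul_of_nonneg_left hS hhq.le
      _ = (1 + ((q : ℝ) + 1) / w) * hh (q + 1) (w : ℝ) := by
          rw [hh_succ]
          have a1 : (w : ℝ) + d + (q + 1) ≠ 0 := by positivity
          have a2 : (w : ℝ) + (q + 1) ≠ 0 := by positivity
          have a3 : (q : ℝ) + 1 ≠ 0 := by positivity
          field_simp
          ring
      _ ≤ T * hh (q + 1) (w : ℝ) := mul_le_mul_of_nonneg_right hT hhp.le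

/-- As `X_I` (LRQ/X5): `c ≥ q + 1`: `elim_ones`, `XS_flat`. `c = q`, `e ≥ 1`: `e > W` is impossible:
`q w - d = q W + e < (q+1) e ≤ r (w - r)` gives `r² < w + d ≤ (3r-3) + (2r-3) = 5r - 6`, false for
`r ≥ 3`. `e ≤ W`: `X_merge` with `V = w - (d+1)/q`, `Y = (q w - d)/(q+1)`; `X_lift1` with `S0_num`
(`r = q + 1`, `a = 1`, `T ≥ 1 + r/w`), `XS_flat`. -/
theorem X_S (w r d c e q : ℕ) (T : ℝ) (W : ℝ≥0) (h : TT w r d T) (hq2 : 2 ≤ q)
    (har : q + 1 = r) (hrd : r ≤ d) (hdr : d + r ≤ w) (h3 : w + 3 ≤ 3 * r)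
    (hqc : q ≤ c) (hrows : r + 1 ≤ 1 + c + e) (hcard : 1 + c + e ≤ w) (h1 : 1 ≤ W) (hWw : W ≤ w)
    (hsum : (c : ℝ) * (W : ℝ) + e + d = q * w) :
    rpsi (sh 1 c e w W) ≤ T * hh r (w : ℝ) := by
  have hq2R : (2 : ℝ) ≤ q := by exact_mod_cast hq2
  have hqcR : (q : ℝ) ≤ c := by exact_mod_cast hqc
  have hw0 : (0 : ℝ) ≤ w := Nat.cast_nonneg _
  have hd0 : (0 : ℝ) ≤ d := Nat.cast_nonneg _
  have he0 : (0 : ℝ) ≤ e := Nat.cast_nonneg _
  have hcpos : (0 : ℝ) < c := by linarith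
  rcases Nat.lt_or_ge q c with hc | hc
  · have hS : ((c : ℝ≥0) * W + e) / c ≤ w := by
      rw [← NNReal.coe_le_coe]
      push_cast
      rw [div_le_iff₀ hcpos]
      have : (q : ℝ) * w ≤ c * w := mul_le_mul_of_nonneg_right hqcR hw0
      linarith [mul_comm (w : ℝ) c]
    have hel := elim_ones (w : ℝ≥0) W 1 c e (by omega) h1 hWw hS
    unfold sh
    refine hel.trans (max_le ?_ ?_)
    · refine XS_flat w r d (c + e) q T _ h hq2 har hrd hdr h3 (by omega) (by omega) ?_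
      push_cast
      rw [mul_div_cancel₀ _ (by positivity)]
      linarith
    · refine XS_flat w r d c q T _ h hq2 har hrd hdr h3 (by omega) (by omega) ?_
      push_cast
      rw [mul_div_cancel₀ _ hcpos.ne']
      linarith
  · obtain rfl : c = q := le_antisymm hc hqc
    have he1 : 1 ≤ e := by omega
    have hrR : (r : ℝ) = c + 1 := by rw [← har]; push_cast; ring
    have heW : (e : ℝ≥0) ≤ W := by
      by_contra hlt
      push Not at hlt
      have hlt' : (W : ℝ) < e := by exact_mod_cast hlt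
      have h4 : (c : ℝ) * W < c * e := mul_lt_mul_of_pos_left hlt' hcpos
      have h5 : (e : ℝ) ≤ w - r := by
        have : e + r ≤ w := by omega
        have h6 : (e : ℝ) + r ≤ w := by exact_mod_cast this
        linarith
      have h6 : ((c : ℝ) + 1) * e ≤ (c + 1) * (w - r) := mul_le_mul_of_nonneg_left h5 (by linarith)
      have h7 : (r : ℝ) * r < w + d := by
        have h8 : ((c : ℝ) + 1) * (w - r) = r * w - r * r := by rw [hrR]; ring
        have h9 : (c : ℝ) * w = r * w - w := by rw [hrR]; ring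
        linarith
      have h10 : r * r < w + d := by exact_mod_cast h7
      have h11 : r * r < 5 * r - 6 := by omega
      have h12 : 3 ≤ r := by omega
      obtain ⟨t, rfl⟩ : ∃ t, r = t + 3 := ⟨r - 3, by omega⟩
      have h13 : (t + 3) * (t + 3) = t * t + 6 * t + 9 := by ring
      rw [h13] at h11
      omega
    have hdq : d + 1 ≤ 2 * c := by omega
    have hdqR : (d : ℝ) + 1 ≤ 2 * c := by exact_mod_cast hdq
    have hw6 : 6 ≤ w := by omega
    have hw6R : (6 : ℝ) ≤ w := by exact_mod_cast hw6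
    have hdiv : ((d : ℝ) + 1) / c ≤ 2 := by
      rw [div_le_iff₀ hcpos]
      exact hdqR
    have hV0 : (0 : ℝ) ≤ (w : ℝ) - (d + 1) / c := by linarith
    have hdw : (d : ℝ) ≤ w := by exact_mod_cast (by omega : d ≤ w)
    have hY0 : (0 : ℝ) ≤ ((c : ℝ) * w - d) / (c + 1) := by
      apply div_nonneg _ (by linarith)
      nlinarith
    obtain ⟨V, hV⟩ : ∃ V : ℝ≥0, (V : ℝ) = (w : ℝ) - (d + 1) / c := ⟨⟨_, hV0⟩, rfl⟩
    obtain ⟨Y, hY⟩ : ∃ Y : ℝ≥0, (Y : ℝ) = ((c : ℝ) * w - d) / (c + 1) := ⟨⟨_, hY0⟩, rfl⟩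
    have hVe : (c : ℝ) * (V : ℝ) + ((d : ℝ) + 1) = c * w := by
      rw [hV, mul_sub, mul_div_cancel₀ _ hcpos.ne']
      ring
    have hYe : ((c : ℝ) + 1) * (Y : ℝ) + d = c * w := by
      rw [hY, mul_div_cancel₀ _ (by linarith)]
      ring
    refine (X_merge w d 1 e c W V Y (by omega) he1 heW hWw hsum hVe hYe).trans (max_le ?_ ?_)
    · have hT := TT_r w r d T h (by omega) (by omega) (by omega) hrd
      have hV1 : 1 ≤ V := by
        rw [← NNReal.coe_le_coe, hV]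
        push_cast
        linarith
      refine X_lift1 w r d 1 c T V (by omega) (by omega) hV1 hVe (by nlinarith) ?_
      have hN := S0_num w c d (V : ℝ) hq2 (by omega) (by omega) (by omega) hVe
      have hVn : (0 : ℝ) ≤ (V : ℝ) := V.2
      have h5 : 4 * ((V : ℝ) + ((c : ℝ) + 1) + 1) * (1 + ((c : ℝ) + 1) / w) ≤
          4 * ((V : ℝ) + ((c : ℝ) + 1) + 1) * T := by
        apply mul_le_mul_of_nonneg_left _ (by positivity)
        rw [hrR] at hT
        exact hT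
      rw [hrR, Nat.cast_one]
      linarith
    · refine XS_flat w r d (c + 1) c T Y h hq2 har hrd hdr h3 le_rfl (by omega) ?_
      push_cast
      exact hYe

end Pool.Agent.LRQ
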