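import Mathlib
import Pool.Agent.LRQ.M2A
import Pool.Agent.LRQ.PT
import Pool.Agent.LRQ.V0
import Pool.Agent.LRQ.RN4
import Pool.Agent.LRQ.X1
import Pool.Agent.LRQ.X2
import Pool.Agent.LRQ.X6

set_option autoImplicit false

/-! # [LRQ-M2C] the box theorem for exact width `w`, regions V0 and S -/

namespace Pool.Agent.LRQ

open Finset
open Pool.Agent.LRE Pool.Agent.LRT
open scoped NNReal

/-- Regions V0 and S: `r ≤ d ≤ w - r`, `w ≤ 3r - 3` (so `r ≥ 3`). If `s.card = r` and
`s.count w = 1`: `exact_S`, `TT` with `c = r`. Otherwise `M_vertex`: `q = 0`, `q = 1`, `c + 1 = q` as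
before; `q ≤ c`, `a ≥ 2`: `X_AB` with `V0_ineq`, `RB0_num` (`TT_r`: `1 + r/w ≤ T`; `TT_one`);
`q ≤ c`, `a = 1`: then `s.count w = 1` (`M_card`), so `s.card ≥ r + 1`: `X_S`. -/
theorem M_S (w r d : ℕ) (T : ℝ) (s : Multiset ℕ) (h : TT w r d T) (hr : 1 ≤ r) (hrw : r ≤ w)
    (h3 : w + 3 ≤ 3 * r) (hrd : r ≤ d) (hdr : d + r ≤ w)
    (hpos : ∀ x ∈ s, 0 < x) (hsup : s.sup = w) (hcard : s.card ≤ w)
    (hsum : s.sum + d = r * w) : psi s ≤ T * hh r (w : ℝ) := by
  have hd : d < w := by omega
  have hr3 : 3 ≤ r := by omega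
  have hc := M_card w r d s hr hd hsup hsum
  by_cases hex : s.card = r ∧ s.count w = 1
  · have h1 := exact_S r d s hr3 hex.1 (by rw [hsup]; exact hsum) hrd (by rw [hsup]; exact hdr)
      (by rw [hsup]; exact h3) (by rw [hsup]; exact hex.2)
    have h2 : s.sum = r * w - d := by omega
    rw [h2] at h1
    refine h1.trans (h r hr (by omega) ?_)
    rw [Nat.add_sub_cancel]
    exact Nat.le_add_right _ _
  · obtain ⟨a, c, e, q, W, hace, hcount, ha, haq, hqc, h1, hWw, hsumW, hle⟩ :=
      M_vertex w r d s hr hrw hd hpos hsup hcard hsum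
    refine hle.trans ?_
    rcases Nat.lt_or_ge q 2 with hq2 | hq2
    · rcases Nat.lt_or_ge q 1 with hq1 | hq1
      · obtain rfl : q = 0 := by omega
        obtain rfl : a = r := by omega
        refine X_full w a d c e T W h hr hrw hd h1 ?_
        rw [hsumW, Nat.cast_zero, zero_mul]
      · obtain rfl : q = 1 := by omega
        refine X_one w r d a c e T W h haq hrw hd h1 hWw ?_
        rw [hsumW, Nat.cast_one, one_mul]
    · rcases Nat.lt_or_ge c q with hcq | hcq
      · exact X_near w r d a c e q T W h ha hq2 haq hrw hd (by omega) (by omega) h1 hWw hsumW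
      · rcases Nat.lt_or_ge a 2 with ha2 | ha2
        · obtain rfl : a = 1 := by omega
          have hcw : s.count w = 1 := by omega
          have hcr : s.card ≠ r := fun hh => hex ⟨hh, hcw⟩
          exact X_S w r d c e q T W h hq2 (by omega) hrd hdr h3 hcq (by omega) (by omega) h1 hWw
            hsumW
        · refine X_AB w r d a c e q T W ha hq2 haq hd hcq (by omega) h1 hWw hsumW ?_ ?_
          · refine (V0_ineq w r d a q ha2 hq2 haq h3 hrd hdr).trans ?_
            exact mul_le_mul_of_nonneg_left (TT_r w r d T h hr hrw hd hrd) (by positivity)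
          · intro had
            exact (RB0_num w r d a q ha2 hq2 haq h3 hrd hdr had).trans
              (TT_one w r d T h hr hrw hd)

end Pool.Agent.LRQ
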