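import Mathlib
import Pool.Agent.LRQ.M1
import Pool.Agent.LRQ.M2B
import Pool.Agent.LRQ.M2C

set_option autoImplicit false

/-! # [LRQ-M2] the box theorem for exact width `w`, all `r` -/

namespace Pool.Agent.LRQ

open Finset
open Pool.Agent.LRE Pool.Agent.LRT
open scoped NNReal

/-- All cases: `w ≥ 3r`: `M_thin`. `w < 3r`: `2d ≤ w` and `d ≤ r - 1`: `M_I`; `d + r ≥ w + 1` and
`2d > w`: `M_V`; otherwise `r ≤ d` and `d + r ≤ w`: `w ≤ 3r - 3`: `M_S`, else `M_TT3`
(`r ≥ 2` because `2r ≤ w < 3r`… for `r = 1` the case `r ≤ d ≤ w - r`, `w < 3` gives `w = 2`, `d = 1`,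
`s.sum = 1 < w`, impossible as `s.sup = w`). -/
theorem MT (w r d : ℕ) (T : ℝ) (s : Multiset ℕ) (h : TT w r d T) (hr : 1 ≤ r) (hrw : r ≤ w)
    (hd : d < w) (hpos : ∀ x ∈ s, 0 < x) (hsup : s.sup = w) (hcard : s.card ≤ w)
    (hsum : s.sum + d = r * w) : psi s ≤ T * hh r (w : ℝ) := by
  rcases le_or_gt (3 * r) w with h3 | h3
  · exact M_thin w r d T s h hr hrw hd hpos hsup hcard hsum h3
  · by_cases hI : 2 * d ≤ w ∧ d + 1 ≤ r
    · exact M_I w r d T s h hr hrw h3 hI.2 hI.1 hd hpos hsup hcard hsum
    · by_cases hV : w < 2 * d ∧ w - r + 1 ≤ d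
      · exact M_V w r d T s h hr hrw h3 hV.2 hV.1 hd hpos hsup hcard hsum
      · have hrd : r ≤ d := by
          rcases le_or_gt (2 * d) w with h4 | h4
          · have : ¬ d + 1 ≤ r := fun h5 => hI ⟨h4, h5⟩
            omega
          · have : ¬ w - r + 1 ≤ d := fun h5 => hV ⟨h4, h5⟩
            omega
        have hdr : d + r ≤ w := by
          rcases le_or_gt (2 * d) w with h4 | h4
          · omega
          · have : ¬ w - r + 1 ≤ d := fun h5 => hV ⟨h4, h5⟩
            omega
        rcases le_or_gt (w + 3) (3 * r) with h5 | h5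
        · exact M_S w r d T s h hr hrw h5 hrd hdr hpos hsup hcard hsum
        · rcases Nat.lt_or_ge r 2 with h6 | h6
          · exfalso
            have hr1 : r = 1 := by omega
            have hw2 : w = 2 := by omega
            have hd1 : d = 1 := by omega
            have hc := (M_card w r d s hr hd hsup hsum).2
            have hmem : w ∈ s := Multiset.one_le_count_iff_mem.mp hc
            have hle : w ≤ s.sum := Multiset.single_le_sum (fun x _ => Nat.zero_le x) w hmem
            rw [hr1, hw2, hd1] at hsum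
            omega
          · exact M_TT3 w r d T s h h6 hrw hd hpos hsup hcard hsum hdr (by omega)

end Pool.Agent.LRQ
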