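import Mathlib
import Pool.Agent.LRQ.M2

set_option autoImplicit false

/-! # [LRQ-M3] the box theorem -/

namespace Pool.Agent.LRQ

open Finset
open Pool.Agent.LRE Pool.Agent.LRT

/-- `c (m+M-c) > (m-1)(M+1)` forces `m ≤ c ≤ M` (write `c = m-1-x` or `c = M+1+x`:
`c (m+M-c) = (m-1)(M+1) - x (M+2-m+x) ≤ (m-1)(M+1)`). -/
theorem m3_adm (m M c : ℕ) (hm : 1 ≤ m) (hmM : m ≤ M) (hc : c ≤ m + M)
    (h : (m - 1) * (M + 1) < c * (m + M - c)) : m ≤ c ∧ c ≤ M := by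
  obtain ⟨a, rfl⟩ : ∃ a, m = a + 1 := ⟨m - 1, by omega⟩
  rw [Nat.add_sub_cancel] at h
  constructor
  · by_contra hcon
    obtain ⟨x, rfl⟩ : ∃ x, a = c + x := ⟨a - c, by omega⟩
    have e1 : c + x + 1 + M - c = x + 1 + M := by omega
    rw [e1] at h
    have h1 : c * x ≤ (M + 1) * x := Nat.mul_le_mul_right x (by omega)
    nlinarith
  · by_contra hcon
    obtain ⟨x, rfl⟩ : ∃ x, c = M + 1 + x := ⟨c - (M + 1), by omega⟩
    obtain ⟨b, rfl⟩ : ∃ b, a = x + b := ⟨a - x, by omega⟩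
    have e1 : x + b + 1 + M - (M + 1 + x) = b := by omega
    rw [e1] at h
    have h1 : b * x ≤ (M + 1) * x := Nat.mul_le_mul_right x (by omega)
    nlinarith

theorem m3_sum_le (s : Multiset ℕ) (w : ℕ) (h : ∀ x ∈ s, x ≤ w) : s.sum ≤ s.card * w := by
  have := Multiset.sum_le_card_nsmul s w h
  simpa using this

/-- `s.card ≤ s.sup = w ≤ M`. `w ≥ m` (else `s.sum ≤ w² ≤ (m-1)²`). Let `r = ⌈s.sum/w⌉`,
`d = r w - s.sum < w`; `1 ≤ r ≤ w` (`s.sum ≤ s.card * w ≤ w²`); `r ≤ m + M - w` because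
`w (m+M-w) ≥ m M ≥ s.sum` for `m ≤ w ≤ M`. Apply `MT` with `T = B / hh r w`: if `1 ≤ c ≤ w + r` and
`r w ≤ c (w+r-c) + d` then `c (m+M-c) ≥ c (w+r-c) ≥ s.sum > (m-1)(M+1)`, so `m3_adm`. -/
theorem Box_tw (m M : ℕ) (B : ℝ) (s : Multiset ℕ) (hm : 1 ≤ m) (hmM : m ≤ M)
    (hB : ∀ c, m ≤ c → c ≤ M → NN c s.sum ≤ B)
    (hpos : ∀ x ∈ s, 0 < x) (hct : s.card ≤ s.sup) (hs : s.sup ≤ M)
    (h1 : (m - 1) * (M + 1) < s.sum) (h2 : s.sum ≤ m * M) : psi s ≤ B := by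
  obtain ⟨w, hw⟩ : ∃ w, s.sup = w := ⟨_, rfl⟩
  rw [hw] at hct hs
  have hsum1 : s.sum ≤ w * w :=
    (m3_sum_le s w fun x hx => hw ▸ Multiset.le_sup hx).trans (Nat.mul_le_mul_right w hct)
  have hmw : m ≤ w := by
    by_contra hcon
    have h3 : w * w ≤ (m - 1) * (M + 1) := Nat.mul_le_mul (by omega) (by omega)
    omega
  have hw1 : 1 ≤ w := hm.trans hmw
  obtain ⟨r, d, hd, hsd⟩ : ∃ r d, d < w ∧ s.sum + d = r * w := by
    have hdm := Nat.div_add_mod s.sum w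
    have hlt := Nat.mod_lt s.sum (show 0 < w by omega)
    rcases Nat.eq_zero_or_pos (s.sum % w) with h0 | h0
    · exact ⟨s.sum / w, 0, by omega, by rw [Nat.mul_comm]; omega⟩
    · refine ⟨s.sum / w + 1, w - s.sum % w, by omega, ?_⟩
      rw [Nat.succ_mul, Nat.mul_comm]
      omega
  have hr1 : 1 ≤ r := by
    by_contra hcon
    have : r = 0 := by omega
    rw [this, Nat.zero_mul] at hsd
    omega
  have hrw : r ≤ w := by
    have h3 : r * w < (w + 1) * w := by rw [Nat.succ_mul]; omega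
    have := Nat.lt_of_mul_lt_mul_right h3
    omega
  have hrM : w + r ≤ m + M := by
    obtain ⟨x, rfl⟩ : ∃ x, w = m + x := ⟨w - m, by omega⟩
    obtain ⟨y, rfl⟩ : ∃ y, M = m + x + y := ⟨M - (m + x), by omega⟩
    have h3 : r * (m + x) < (m + y + 1) * (m + x) := by
      have h4 : m * (m + x + y) ≤ (m + y) * (m + x) := by nlinarith [Nat.zero_le (y * x)]
      rw [Nat.succ_mul]
      omega
    have := Nat.lt_of_mul_lt_mul_right h3
    omega
  have hh0 : 0 < hh r (w : ℝ) := hh_pos r (Nat.cast_nonneg w)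
  have hT : B / hh r (w : ℝ) * hh r (w : ℝ) = B := div_mul_cancel₀ B hh0.ne'
  have htt : TT w r d (B / hh r (w : ℝ)) := by
    intro c hc1 hc2 hc3
    rw [hT]
    have e1 : r * w - d = s.sum := by omega
    rw [e1]
    have h3 : c * (w + r - c) ≤ c * (m + M - c) := Nat.mul_le_mul_left c (by omega)
    obtain ⟨h4, h5⟩ := m3_adm m M c hm hmM (by omega) (by omega)
    exact hB c h4 h5
  have := MT w r d (B / hh r (w : ℝ)) s htt hr1 hrw hd hpos hw hct hsd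
  rwa [hT] at this

/-- `s.card ≤ s.sup`: `Box_tw`. Otherwise `Box_tw` for `conj s` (`conj_card`, `conj_sup`, `conj_sum`,
`conj_pos`, `psi_conj`; as `box3` in LRF/E6.lean). -/
theorem Box_all (m M : ℕ) (B : ℝ) (s : Multiset ℕ) (hm : 1 ≤ m) (hmM : m ≤ M)
    (hB : ∀ c, m ≤ c → c ≤ M → NN c s.sum ≤ B)
    (hpos : ∀ x ∈ s, 0 < x) (hc : s.card ≤ M) (hs : s.sup ≤ M)
    (h1 : (m - 1) * (M + 1) < s.sum) (h2 : s.sum ≤ m * M) : psi s ≤ B := by
  rcases le_total s.card s.sup with h | h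
  · exact Box_tw m M B s hm hmM hB hpos h hs h1 h2
  · have e1 := conj_card s
    have e2 := conj_sup s hpos
    have e3 := conj_sum s
    have h3 := Box_tw m M B (conj s) hm hmM (by rw [e3]; exact hB) (conj_pos s) (by omega)
      (by omega) (by omega) (by omega)
    rwa [psi_conj] at h3

end Pool.Agent.LRQ
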