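import Mathlib
import Pool.Agent.LRP.CA
import Pool.Agent.LRP.CB

set_option autoImplicit false

/-! # [LRQ-NA] the numbers of cases (A) and (B1) for `l + 2 ≤ M ≤ 3l + 2` -/

namespace Pool.Agent.LRQ

open Finset
open Pool.Agent.MP_f1b527_co
open Pool.Agent.LRE Pool.Agent.LRP

/-- `exp (zz M (d + g)) ≤ 2` -/
theorem na_exp (l M d g : ℕ) (hd : 1 ≤ d) (hM : M ≤ 3 * l + 2) (hcg : 1 + g = l) :
    Real.exp (zz M (d + g)) ≤ 2 := by
  have hz : zz M (d + g) ≤ 2 / 3 := by
    unfold zz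
    have hN : (0 : ℝ) < (M : ℝ) + 1 := by positivity
    have h1 : (l : ℝ) ≤ ((d + g : ℕ) : ℝ) := by
      have : l ≤ d + g := by omega
      exact_mod_cast this
    have h2 : (M : ℝ) ≤ 3 * l + 2 := by exact_mod_cast hM
    rw [div_le_div_iff₀ hN (by norm_num)]
    linarith
  have h3 : zz M (d + g) ≤ Real.log 2 := by
    have := Real.log_two_gt_d9
    linarith
  calc Real.exp (zz M (d + g)) ≤ Real.exp (Real.log 2) := Real.exp_le_exp.2 h3
    _ = 2 := Real.exp_log (by norm_num)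

/-- `num_A1` (LRP/CA.lean) for `M ≤ 3l + 2`: the same proof, but the case `exp (zz M (d+g)) > 2` does
not occur: `d + g ≥ l` (`g = l - 1`, `d ≥ 1`), so `zz M (d+g) ≤ (M-l)/(M+1) = 1 - (l+1)/(M+1) ≤ 2/3`
and `exp (2/3) ≤ 2` (`exp 2 ≤ 8`; e.g. `Real.exp_one_lt_d9`, `Real.exp_nat_mul`, or
`Real.log_two_gt_d9`). -/
theorem num_A1F (l M d g : ℕ) (t : ℝ) (hd : 1 ≤ d) (hdM : d + l ≤ M) (hM : M ≤ 3 * l + 2)
    (hg : 1 ≤ g) (hcg : 1 + g = l)
    (ht : t ≤ max (max (((M : ℝ) + 1) / ((d : ℝ) + 1) - aa M (d + g)) g)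
      (2 * phi 2 (zz M (d + g)) + ((g : ℝ) - 1) * Real.exp (zz M (d + g)) - aa M (d + g))) :
    (l.factorial : ℝ) * ((M + 1).factorial : ℝ) *
      ((aa M (d + g) + t / 2) / ((M : ℝ) + 1)) ≤ VV (l + 1) M (d + l) := by
  have hN : (0 : ℝ) < (M : ℝ) + 1 := by positivity
  have hgR : (1 : ℝ) ≤ g := by exact_mod_cast hg
  have hDM : d + g ≤ M := by omega
  have hz0 := zz_nonneg hDM
  have hz1 := zz_lt_one M (d + g)
  have hlR : (l : ℝ) = 1 + g := by exact_mod_cast hcg.symm
  rcases le_max_iff.1 ht with h0 | h1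
  · rcases le_max_iff.1 h0 with h1 | h1
    · apply ca_star l M d _ (by omega) hd
      have h2 := ca_aa_le M d g
      have h4 : (1 : ℝ) / ((d : ℝ) + 1) = ((M : ℝ) + 1) / ((d : ℝ) + 1) / ((M : ℝ) + 1) := by
        field_simp
      rw [h4]
      apply div_le_div_of_nonneg_right _ hN.le
      linarith
    · apply ca_h l M d g _ (by omega) hd hdM (by omega)
      rw [add_div, ca_aa]
      apply add_le_add le_rfl
      apply div_le_div_of_nonneg_right _ hN.le
      linarith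
  · rcases le_or_gt (2 * phi 2 (zz M (d + g)) + ((g : ℝ) - 1) * Real.exp (zz M (d + g)) - 2 * g)
      (aa M (d + g)) with h3 | h3
    · apply ca_h l M d g _ (by omega) hd hdM (by omega)
      rw [← ca_aa, ← add_div]
      apply div_le_div_of_nonneg_right _ hN.le
      linarith
    · have hg6 : 6 ≤ g := by
        by_contra hc
        have h4 := LRG.h1_a M (d + g) g hDM hg (by omega)
        linarith
      have he2 := na_exp l M d g hd hM hcg
      have h4 := LRG.h1_b M (d + g) hDM (by omega)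
      have h5 := VV_ge_ss l M (d + l) (by omega) hdM
      refine le_trans ?_ h5
      apply mul_le_mul_of_nonneg_left _ (by positivity)
      have hD0 : (0 : ℝ) < (d : ℝ) + g + 2 := by positivity
      have e1 : (1 : ℝ) / (((d + l : ℕ) : ℝ) + 1) + (l : ℝ) / ((M : ℝ) + 1) =
          (((M : ℝ) + 1) / ((d : ℝ) + g + 2) + l) / ((M : ℝ) + 1) := by
        push_cast
        rw [hlR]
        have : (d : ℝ) + (1 + g) + 1 = (d : ℝ) + g + 2 := by ring
        rw [this]
        field_simp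
      rw [e1]
      apply div_le_div_of_nonneg_right _ hN.le
      have e2 : ((M : ℝ) + 1) / ((d : ℝ) + g + 2) =
          aa M (d + g) / 2 + aa M (d + g) * (((d + g : ℕ) : ℝ) / (2 * (((d + g : ℕ) : ℝ) + 2))) := by
        unfold aa
        push_cast
        have : (d : ℝ) + g + 1 ≠ 0 := by positivity
        field_simp
        ring
      have h6 : ((g : ℝ) - 1) * Real.exp (zz M (d + g)) ≤ ((g : ℝ) - 1) * 2 :=
        mul_le_mul_of_nonneg_left he2 (by linarith)
      rw [e2, hlR]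
      linarith

/-- `num_B11` (LRP/CB.lean) with `l + 2 ≤ M` in place of `3 (l+1) ≤ M`: the same proof; the
hypothesis is used only for `d + g = 2` (then `l = 2`, `M + 1 ≥ 5`, and `5/12 ≥ 0.3592`). -/
theorem num_B11F (l M d g : ℕ) (hd : 1 ≤ d) (hdM : d + l ≤ M) (hM : l + 2 ≤ M)
    (hg : 1 ≤ g) (hcg : 1 + g = l) :
    (l.factorial : ℝ) * ((M + 1).factorial : ℝ) *
      ((aa M (d - 1 + g) / 2 + max (Real.exp (zz M (d - 1 + g)))
        ((((M : ℝ) + 1) / (d : ℝ) - aa M (d - 1 + g)) / g) * ((2 * g + 1) / 6)) / ((M : ℝ) + 1))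
      ≤ VV (l + 1) M (d + l) := by
  have hN : (0 : ℝ) < (M : ℝ) + 1 := by positivity
  have hdR : (1 : ℝ) ≤ d := by exact_mod_cast hd
  have hgR : (1 : ℝ) ≤ g := by exact_mod_cast hg
  have haa := cb_aa M d g hd
  have hpos : (0 : ℝ) < (d : ℝ) + g := by linarith
  have he := ca_exp M (d - 1 + g)
  rcases max_cases (Real.exp (zz M (d - 1 + g)))
    ((((M : ℝ) + 1) / (d : ℝ) - aa M (d - 1 + g)) / g) with ⟨h1, _⟩ | ⟨h1, _⟩
  · rw [h1, haa]
    apply ca_h l M d g _ (by omega) hd hdM (by omega)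
    have hu : (1 : ℝ) / ((d : ℝ) + g + 1) + g / ((M : ℝ) + 1) =
        (((M : ℝ) + 1) / ((d : ℝ) + g + 1) + g) / ((M : ℝ) + 1) := by
      field_simp
    rw [hu]
    apply div_le_div_of_nonneg_right _ hN.le
    have h2 : Real.exp (zz M (d - 1 + g)) * ((2 * g + 1) / 6) ≤
        27183 / 10000 * ((2 * g + 1) / 6) :=
      mul_le_mul_of_nonneg_right he (by positivity)
    have h3 : 4531 / 10000 - 939 / 10000 ≤ ((M : ℝ) + 1) / ((d : ℝ) + g + 1) -
        ((M : ℝ) + 1) / ((d : ℝ) + g) / 2 := by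
      have h4 : ((M : ℝ) + 1) / ((d : ℝ) + g + 1) - ((M : ℝ) + 1) / ((d : ℝ) + g) / 2 =
          ((M : ℝ) + 1) * ((d : ℝ) + g - 1) / (2 * ((d : ℝ) + g) * ((d : ℝ) + g + 1)) := by
        field_simp
        ring
      rw [h4, le_div_iff₀ (by positivity)]
      have h5 : (d : ℝ) + g + 2 ≤ (M : ℝ) + 1 := by
        have : d + g + 2 ≤ M + 1 := by omega
        exact_mod_cast this
      have h6 : (5 : ℝ) ≤ (M : ℝ) + 1 := by
        have : 5 ≤ M + 1 := by omega
        exact_mod_cast this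
      rcases Nat.lt_or_ge (d + g) 3 with h7 | h7
      · have h8 : (d : ℝ) + g = 2 := by
          have : d + g = 2 := by omega
          exact_mod_cast this
        rw [h8]
        linarith
      · have h8 : (3 : ℝ) ≤ (d : ℝ) + g := by exact_mod_cast h7
        set u : ℝ := (d : ℝ) + g with hudef
        have h9 : (u + 2) * (u - 1) ≤ ((M : ℝ) + 1) * (u - 1) :=
          mul_le_mul_of_nonneg_right h5 (by linarith)
        nlinarith
    linarith
  · rw [h1, haa]
    apply ca_star l M d _ (by omega) hd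
    have h2 : ((M : ℝ) + 1) / ((d : ℝ) + g) ≤ ((M : ℝ) + 1) / d :=
      div_le_div_of_nonneg_left hN.le (by linarith) (by linarith)
    have h3 : (((M : ℝ) + 1) / d - ((M : ℝ) + 1) / ((d : ℝ) + g)) / g * ((2 * g + 1) / 6) ≤
        (((M : ℝ) + 1) / d - ((M : ℝ) + 1) / ((d : ℝ) + g)) / 2 := by
      rw [div_mul_eq_mul_div, div_le_iff₀ (by linarith)]
      nlinarith
    have h4 := cb_half M d hd
    have h5 : ((M : ℝ) + 1) / ((d : ℝ) + g) / 2 +
        (((M : ℝ) + 1) / d - ((M : ℝ) + 1) / ((d : ℝ) + g)) / g * ((2 * g + 1) / 6) ≤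
        ((M : ℝ) + 1) / d / 2 := by
      linarith
    exact (div_le_div_of_nonneg_right h5 hN.le).trans h4

end Pool.Agent.LRQ
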