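import Mathlib
import Pool.Agent.LRE.E4
import Pool.Agent.MP_f1b527_co.Count

set_option autoImplicit false

/-! # [LRQ-SQ] the largest number of relations, `k = m²`, `n = 2m` -/

namespace Pool.Agent.LRQ

open Finset
open Pool.Agent.MP_f1b527_co
open Pool.Agent.LRE

/-- As `UB_rect` (LRE/E4.lean): `UB_of_nested` and `ext_bound` with `b = 1`, `c = m - 1`, `δ = 1`:
`mm 1 (m-1) (2m) = (m-1).choose 2 + (m+1).choose 2`, `EE 1 (m-1) (2m) = (m-1)! (m+1)!`
(`e4_sum`, `e4_choose`, see `cc_aux` in LRP/CC.lean), `m² + (m-1).choose 2 + (m+1).choose 2 =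
(2m).choose 2 + 1`. The result is `lin (m + 1) ≤ m (m-1)! (m+1)!`. -/
theorem UB_square (m : ℕ) (hm : 1 ≤ m) :
    UB (m + m) (m * m) ((m.factorial : ℝ) * (m.factorial : ℝ)) := by
  classical
  obtain ⟨s, rfl⟩ : ∃ s', m = s' + 1 := ⟨m - 1, by omega⟩
  apply UB_of_nested
  intro r hirr htr _ hcp
  have hsub : s + 1 + (s + 1) - s = s + 2 := by omega
  have hmm : mm 1 s (s + 1 + (s + 1)) = s.choose 2 + (s + 2).choose 2 := by
    rw [mm, hsub, e4_sum]
  have hEE : EE 1 s (s + 1 + (s + 1)) = s.factorial * (s + 2).factorial := by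
    have h0 : ∏ i ∈ range (s + 2), (i / 1 + 1) = (s + 2).factorial := by
      rw [← Finset.prod_range_add_one_eq_factorial]
      exact Finset.prod_congr rfl fun i _ => by rw [Nat.div_one]
    rw [EE, hsub, h0]
  have hch : (s + 1 + (s + 1)).choose 2 = s.choose 2 + (s + 2).choose 2 + s * (s + 2) := by
    have h1 := e4_choose s (s + 2)
    have e : s + 2 + s = s + 1 + (s + 1) := by ring
    rw [e] at h1
    exact h1
  have h1 := ext_bound r hirr htr (δ := 1) (b := 1) (c := s) le_rfl (by omega)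
    (by
      rw [hmm, hch]
      have : cp r univ = (s + 1) * (s + 1) := by convert hcp
      rw [this]; ring)
  rw [hEE] at h1
  have e2 : (s + 1) * (s.factorial * (s + 2).factorial) =
      (1 + s + 1) * ((s + 1).factorial * (s + 1).factorial) := by
    rw [Nat.factorial_succ (s + 1), Nat.factorial_succ s]
    ring
  have h2 : (1 + s + 1) * (extSet r).ncard ≤ (1 + s + 1) * ((s + 1).factorial * (s + 1).factorial) := by
    rw [← e2]
    calc (1 + s + 1) * (extSet r).ncard = (extSet r).ncard * (1 + s + 1) := by ring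
      _ ≤ _ := h1
  have h3 := Nat.le_of_mul_le_mul_left h2 (by omega)
  exact_mod_cast h3

end Pool.Agent.LRQ
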