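import Mathlib
import Pool.Agent.LRP.Z2
import Pool.Agent.LRQ.NA
import Pool.Agent.LRQ.C2G

set_option autoImplicit false

/-!
# LRQ: orders with at most `m - 1` minimal points, `m + 1 ≤ M ≤ 3 m - 1`

The case distinction of LRP/{Ctx,B1,CC,CD,Z1} for a wider range of `M`.
-/

namespace Pool.Agent.LRQ

open Finset
open Pool.Agent.MP_f1b527_co
open Pool.Agent.LRE
open Pool.Agent.LRP (Piv phi_one one_sub_zz aa zz zz_nonneg zz_lt_one lin_le_of_UB cp_base two_cp_le
  pivot_bound pivot_max pivot_one exists_w exists_pivot FF_chord FF_chord2 FF_max VV_ge_star VV_ge_ss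
  ca_star num_A2 num_B1 num_B2 aa_nonneg W_nonneg UB_deficit)

open scoped Classical in
/-- the situation of the pivot argument: `m = l + 1`, `N = M + 1`, `k = l N + d` -/
structure CtxF {n : ℕ} (r : Fin n → Fin n → Prop) (l M d : ℕ) (C G Y : Finset (Fin n)) : Prop where
  hirr : ∀ x, ¬ r x x
  htr : ∀ a b c, r a b → r b c → r a c
  piv : Piv r C G Y
  cov : (C ∪ G) ∪ Y = univ
  hcard : C.card + G.card = l
  hY : Y.card = M + 1
  hd : 1 ≤ d
  hdM : d + l ≤ M
  hM1 : l + 2 ≤ M
  hM2 : M ≤ 3 * l + 2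
  hk : cp r univ = l * (M + 1) + d

/-- the induction hypothesis: smaller levels, same `M` -/
def IHF (l M : ℕ) : Prop :=
  ∀ s D : ℕ, 1 ≤ s → s < l → s + 1 ≤ D → D ≤ M → UB (M + (s + 1)) (s * M + D)
    ((s.factorial : ℝ) * ((M + 1).factorial : ℝ) * (LRP.FF M D s / ((M : ℝ) + 1)))

namespace CtxF

variable {n l M d : ℕ} {r : Fin n → Fin n → Prop} {C G Y : Finset (Fin n)}

theorem hc (h : CtxF r l M d C G Y) : 1 ≤ C.card := Finset.card_pos.mpr h.piv.cne

theorem hg (h : CtxF r l M d C G Y) : G.card + 1 ≤ l := by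
  have := h.hc
  have := h.hcard
  omega

theorem hl (h : CtxF r l M d C G Y) : 1 ≤ l := by
  have := h.hg
  omega

theorem cardCG (h : CtxF r l M d C G Y) : (C ∪ G).card = l := by
  rw [Finset.card_union_of_disjoint h.piv.cg]
  exact h.hcard

theorem cardTY (h : CtxF r l M d C G Y) {T : Finset (Fin n)} (hT : T ⊆ G) :
    (T ∪ Y).card = (M + 1) + T.card := by
  have h1 : Disjoint T Y := Finset.disjoint_of_subset_left hT h.piv.gy
  rw [Finset.card_union_of_disjoint h1, h.hY]
  omega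

open scoped Classical in
/-- number of relations of `T ∪ Y` -/
theorem cpTY (h : CtxF r l M d C G Y) {T : Finset (Fin n)} (hT : T ⊆ G) :
    T.card * (M + 1) + d + (G.card - T.card) ≤ cp r (C ∪ G) + cp r (T ∪ Y) := by
  have h1 := cp_base r h.piv T hT
  rw [h.cov, h.hk, h.hY, h.hcard] at h1
  omega

open scoped Classical in
theorem cp_total (h : CtxF r l M d C G Y) : cp r ((C ∪ G) ∪ Y) = l * (M + 1) + d := by
  rw [h.cov, h.hk]

open scoped Classical in
/-- `lin r (C ∪ G) ≤ l!/(c0+1)` -/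
theorem lin_early (h : CtxF r l M d C G Y) :
    (lin r (C ∪ G) : ℝ) ≤ (l.factorial : ℝ) / ((cp r (C ∪ G) : ℝ) + 1) := by
  have h1 := lin_le_inv r (C ∪ G)
  rwa [h.cardCG] at h1

end CtxF

open scoped Classical in
/-- `c0 = cp r (C ∪ G) ≤ d`, `D = d - c0 + |G|`, `s = |T|`. By `cpTY`:
`cp r (T ∪ Y) ≥ s (M+1) + (d - c0) + (|G| - s) = s M + D`, and `|T ∪ Y| = M + 1 + s`.
Use `lin_le_of_UB` with
* `s = 0`: `UB_one (M+1) D`, value `(M+1)!/(D+1) = (M+1)! (aa M D/(M+1))`;
* `s ≥ 1`, `D = s`: `UB_rect s (M+1)` (`s * (M+1) = s M + D`), value `s! (M+1)!`, and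
  `LRP.FF M D s ≥ (M+1)/(D-s+1) = M+1`;
* `s ≥ 1`, `D ≥ s+1`: the induction hypothesis `hIH s D` (`s ≤ |G| < l`, `D ≤ M`; sizes
  `M + (s+1) = M + 1 + s`) and `VV_le_gen`. -/
theorem base_boundF {n l M d : ℕ} {r : Fin n → Fin n → Prop} {C G Y : Finset (Fin n)}
    (h : CtxF r l M d C G Y) (hIH : IHF l M) (hc0 : cp r (C ∪ G) ≤ d) (T : Finset (Fin n))
    (hT : T ⊆ G) :
    (lin r (T ∪ Y) : ℝ) ≤ ((M + 1).factorial : ℝ) * (T.card.factorial *
      (LRP.FF M (d - cp r (C ∪ G) + G.card) T.card / ((M : ℝ) + 1))) := by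
  have hcp := h.cpTY hT
  have hcard := h.cardTY hT
  have hg := h.hg
  have hdM := h.hdM
  have hTG := Finset.card_le_card hT
  obtain ⟨D, hD⟩ : ∃ D, D = d - cp r (C ∪ G) + G.card := ⟨_, rfl⟩
  rw [← hD]
  have hDM : D ≤ M := by omega
  have hM1 : (0 : ℝ) < (M : ℝ) + 1 := by positivity
  obtain ⟨s, hs⟩ : ∃ s, s = T.card := ⟨_, rfl⟩
  rw [← hs] at hcp hcard hTG ⊢
  have hk : s * M + D ≤ cp r (T ∪ Y) := by
    rw [Nat.mul_succ] at hcp
    omega
  have hsD : s ≤ D := by omega
  rcases Nat.eq_zero_or_pos s with hs0 | hs0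
  · subst hs0
    rw [zero_mul, zero_add] at hk
    have h1 := lin_le_of_UB (UB_one (M + 1) D) r h.hirr h.htr (T ∪ Y) hcard hk
    refine h1.trans ?_
    rw [div_eq_mul_one_div]
    apply mul_le_mul_of_nonneg_left _ (by positivity)
    rw [Nat.factorial_zero, Nat.cast_one, one_mul]
    have h2 : aa M D ≤ LRP.FF M D 0 := by
      unfold LRP.FF
      refine le_trans ?_ (le_max_right _ _)
      refine le_trans ?_ (le_max_left _ _)
      simp
    have h3 : (1 : ℝ) / ((D : ℝ) + 1) = aa M D / ((M : ℝ) + 1) := by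
      unfold aa
      field_simp
    rw [h3]
    exact div_le_div_of_nonneg_right h2 hM1.le
  rcases Nat.eq_or_lt_of_le hsD with h4 | h4
  · have h5 : s * (M + 1) ≤ cp r (T ∪ Y) := by
      rw [Nat.mul_succ]
      omega
    have h1 := lin_le_of_UB (UB_rect s (M + 1) (by omega)) r h.hirr h.htr (T ∪ Y) hcard h5
    refine h1.trans ?_
    rw [mul_comm ((s.factorial : ℝ)) _]
    apply mul_le_mul_of_nonneg_left _ (by positivity)
    have h6 : (M : ℝ) + 1 ≤ LRP.FF M D s := by
      unfold LRP.FF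
      refine le_trans ?_ (le_max_left _ _)
      rw [← h4, sub_self, zero_add, div_one]
    have h7 : (1 : ℝ) ≤ LRP.FF M D s / ((M : ℝ) + 1) := by
      rw [one_le_div hM1]
      exact h6
    have h8 : (0 : ℝ) ≤ s.factorial := by positivity
    nlinarith
  · have h1 := hIH s D hs0 (by omega) h4 hDM
    have h2 := lin_le_of_UB h1 r h.hirr h.htr (T ∪ Y) (by omega) hk
    refine h2.trans (le_of_eq ?_)
    ring

open scoped Classical in
/-- (C1): `d < c0 ≤ N - l`. With `u = c0 - d`: by `cpTY`, `cp r (T ∪ Y) ≥ s N - u`, so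
`lin r (T ∪ Y) ≤ N! s! F`, `F = (N+1)/(N+1-u)` (`s ≥ 1`: `UB_deficit`, `lin_le_of_UB`;
`s = 0`: `UB_one N 0` and `F ≥ 1`). `pivot_max` and `lin_early`:
`lin ≤ N! F l!/(c0+1) ≤ l! N!/(d+1)`, because
`(c0+1)(N+1-u) - (d+1)(N+1) = u (N - c0) ≥ 0` (`c0 = d + u`). `VV_ge_star` (`j = d + l`). -/
theorem case_C1F {n l M d : ℕ} {r : Fin n → Fin n → Prop} {C G Y : Finset (Fin n)}
    (h : CtxF r l M d C G Y) (h1 : d < cp r (C ∪ G)) (h2 : cp r (C ∪ G) + l ≤ M + 1) :
    (lin r univ : ℝ) ≤ VV (l + 1) M (d + l) := by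
  have hg := h.hg
  have hdM := h.hdM
  have hear := h.lin_early
  obtain ⟨u, hu⟩ := Nat.exists_eq_add_of_lt h1
  obtain ⟨c0, hc0⟩ : ∃ c0, c0 = cp r (C ∪ G) := ⟨_, rfl⟩
  rw [← hc0] at h1 h2 hu hear
  have hβR : ((u + 1 : ℕ) : ℝ) + d = c0 := by
    rw [hu]
    push_cast
    ring
  have hc0R : (c0 : ℝ) + l ≤ (M : ℝ) + 1 := by exact_mod_cast h2
  have hl0 : (1 : ℝ) ≤ l := by exact_mod_cast h.hl
  have hd0 : (1 : ℝ) ≤ d := by exact_mod_cast h.hd
  set F : ℝ := (((M + 1 : ℕ) : ℝ) + 1) / (((M + 1 : ℕ) : ℝ) + 1 - ((u + 1 : ℕ) : ℝ)) with hF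
  have hden : (0 : ℝ) < ((M + 1 : ℕ) : ℝ) + 1 - ((u + 1 : ℕ) : ℝ) := by
    push_cast at hβR ⊢
    linarith
  have hF1 : 1 ≤ F := by
    rw [hF, one_le_div hden]
    have : (0 : ℝ) ≤ ((u + 1 : ℕ) : ℝ) := Nat.cast_nonneg _
    linarith
  have hbase : ∀ T ⊆ G, (lin r (T ∪ Y) : ℝ) ≤
      ((M + 1).factorial : ℝ) * (T.card.factorial * F) := by
    intro T hT
    have hcp := h.cpTY hT
    have hcard := h.cardTY hT
    have hTG := Finset.card_le_card hT
    rw [← hc0] at hcp
    rcases Nat.eq_zero_or_pos T.card with hs0 | hs0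
    · rw [hs0] at hcard ⊢
      have h3 := lin_le_of_UB (UB_one (M + 1) 0) r h.hirr h.htr (T ∪ Y) hcard (Nat.zero_le _)
      rw [Nat.cast_zero, zero_add, div_one] at h3
      refine h3.trans ?_
      rw [Nat.factorial_zero, Nat.cast_one, one_mul]
      exact le_mul_of_one_le_right (by positivity) hF1
    · have h3 := lin_le_of_UB (UB_deficit T.card (M + 1) (u + 1) hs0 (by omega) (by omega)) r
        h.hirr h.htr (T ∪ Y) hcard (by omega)
      refine h3.trans (le_of_eq ?_)
      rw [← hF]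
      ring
  have h3 := pivot_max r h.piv ((M + 1).factorial : ℝ) F (by positivity) hbase
  rw [h.cov] at h3
  have h4 : ((M + 1).factorial : ℝ) * (F * lin r (C ∪ G)) ≤
      ((M + 1).factorial : ℝ) * (F * ((l.factorial : ℝ) / ((c0 : ℝ) + 1))) :=
    mul_le_mul_of_nonneg_left (mul_le_mul_of_nonneg_left hear (by linarith)) (by positivity)
  have h5 : ((M + 1).factorial : ℝ) * (F * ((l.factorial : ℝ) / ((c0 : ℝ) + 1))) =
      (l.factorial : ℝ) * ((M + 1).factorial : ℝ) * (F / ((c0 : ℝ) + 1)) := by ring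
  refine h3.trans (h4.trans (h5.le.trans ?_))
  apply ca_star l M d _ h.hl h.hd
  have hc1 : (0 : ℝ) < (c0 : ℝ) + 1 := by positivity
  rw [hF, div_div, div_le_div_iff₀ (mul_pos hden hc1) (by linarith), one_mul]
  have hu0 : (0 : ℝ) ≤ ((u + 1 : ℕ) : ℝ) := Nat.cast_nonneg _
  have h6 : 0 ≤ ((u + 1 : ℕ) : ℝ) * ((M : ℝ) + 1 - c0) := mul_nonneg hu0 (by linarith)
  rw [← hβR] at h6 ⊢
  rw [Nat.cast_add M 1, Nat.cast_one]
  nlinarith

open scoped Classical in
/-- (C2): `c0 > N - l`, `N = M + 1`. With `E = hh (l-1) (c0/(l-1))`: `lin r (C ∪ G) ≤ l! E`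
(`lin_early2`), and for `T ⊆ G`, `lin r (T ∪ Y) ≤ N! |T|! (l+1)/(N E)` (`num_C2`); `pivot_max` and
`VV_ge_ss`. -/
theorem case_C2F {n l M d : ℕ} {r : Fin n → Fin n → Prop} {C G Y : Finset (Fin n)}
    (h : CtxF r l M d C G Y) (h2 : M + 1 < cp r (C ∪ G) + l) :
    (lin r univ : ℝ) ≤ VV (l + 1) M (d + l) := by
  have hg := h.hg
  have hdM := h.hdM
  have hM1 := h.hM1
  have hM2 := h.hM2
  have hl := h.hl
  have hd := h.hd
  have hasym : ∀ x y, r x y → ¬ r y x := fun x y hxy hyx => h.hirr x (h.htr x y x hxy hyx)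
  have htwo := two_cp_le r h.hirr hasym (C ∪ G)
  rw [h.cardCG] at htwo
  obtain ⟨κ, hκ⟩ : ∃ κ, κ = cp r (C ∪ G) := ⟨_, rfl⟩
  rw [← hκ] at h2 htwo
  have hκ2 : 2 * κ ≤ l * (l - 1) := by
    obtain ⟨q, rfl⟩ : ∃ q, l = q + 1 := ⟨l - 1, by omega⟩
    rw [Nat.add_sub_cancel]
    have e : (q + 1) * (q + 1) = (q + 1) * q + (q + 1) := Nat.mul_succ _ _
    omega
  have hl2 : 2 ≤ l := by
    by_contra hc
    have : l = 1 := by omega
    subst this
    omega
  have hl1 : (0 : ℝ) < (l : ℝ) - 1 := by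
    have : (2 : ℝ) ≤ l := by exact_mod_cast hl2
    linarith
  obtain ⟨E, hE⟩ : ∃ E : ℝ, E = LRT.hh (l - 1) ((κ : ℝ) / ((l : ℝ) - 1)) := ⟨_, rfl⟩
  have hE0 : 0 < E := by
    rw [hE]
    exact LRT.hh_pos _ (div_nonneg (Nat.cast_nonneg _) hl1.le)
  have hN : (0 : ℝ) < (M : ℝ) + 1 := by positivity
  have hNE : 0 < ((M : ℝ) + 1) * E := mul_pos hN hE0
  have hear := LRG.lin_early2 r h.hirr h.htr (C ∪ G) l hl2 h.cardCG
  rw [← hκ, ← hE] at hear
  have hbase : ∀ T ⊆ G, (lin r (T ∪ Y) : ℝ) ≤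
      ((M + 1).factorial : ℝ) * (T.card.factorial * (((l : ℝ) + 1) / (((M : ℝ) + 1) * E))) := by
    intro T hT
    have hcp := h.cpTY hT
    have hcard := h.cardTY hT
    have hTG := Finset.card_le_card hT
    rw [← hκ] at hcp
    obtain ⟨V, hV1, hV2⟩ := num_C2F l (M + 1) T.card κ (by omega) (by omega) (by omega) h2 hκ2
    have h3 := lin_le_of_UB hV1 r h.hirr h.htr (T ∪ Y) hcard (by omega)
    refine h3.trans ?_
    rw [← hE] at hV2
    push_cast at hV2
    have e1 : ((M + 1).factorial : ℝ) * (T.card.factorial * (((l : ℝ) + 1) / (((M : ℝ) + 1) * E))) =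
        ((M + 1).factorial : ℝ) * (T.card.factorial : ℝ) * ((l : ℝ) + 1) /
          (((M : ℝ) + 1) * E) := by ring
    rw [e1, le_div_iff₀ hNE]
    exact hV2
  have h3 := pivot_max r h.piv ((M + 1).factorial : ℝ) (((l : ℝ) + 1) / (((M : ℝ) + 1) * E))
    (by positivity) hbase
  rw [h.cov] at h3
  have hF0 : 0 ≤ ((l : ℝ) + 1) / (((M : ℝ) + 1) * E) := by positivity
  have h4 : ((M + 1).factorial : ℝ) * (((l : ℝ) + 1) / (((M : ℝ) + 1) * E) * lin r (C ∪ G)) ≤
      ((M + 1).factorial : ℝ) * (((l : ℝ) + 1) / (((M : ℝ) + 1) * E) *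
        ((l.factorial : ℝ) * E)) :=
    mul_le_mul_of_nonneg_left (mul_le_mul_of_nonneg_left hear hF0) (by positivity)
  have h5 : ((M + 1).factorial : ℝ) * (((l : ℝ) + 1) / (((M : ℝ) + 1) * E) *
        ((l.factorial : ℝ) * E)) =
      (l.factorial : ℝ) * ((M + 1).factorial : ℝ) * (((l : ℝ) + 1) / ((M : ℝ) + 1)) := by
    field_simp
  refine h3.trans (h4.trans (h5.le.trans ?_))
  refine le_trans ?_ (VV_ge_ss l M (d + l) (by omega) hdM)
  apply mul_le_mul_of_nonneg_left _ (by positivity)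
  have h6 : (1 : ℝ) / ((M : ℝ) + 1) ≤ 1 / (((d + l : ℕ) : ℝ) + 1) := by
    apply one_div_le_one_div_of_le (by positivity)
    have : ((d + l : ℕ) : ℝ) ≤ M := by exact_mod_cast hdM
    linarith
  rw [add_div]
  linarith

section
variable {n l M d : ℕ} {r : Fin n → Fin n → Prop} {C G Y : Finset (Fin n)}

open scoped Classical in
/-- the pivot bound with a chord `LRP.FF M D s ≤ a + L s` -/
theorem pivot_chordF (h : CtxF r l M d C G Y) (hIH : IHF l M) (hc0 : cp r (C ∪ G) ≤ d) (L : ℝ)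
    (hL : 0 ≤ L)
    (hF : ∀ s ≤ G.card, LRP.FF M (d - cp r (C ∪ G) + G.card) s ≤
      aa M (d - cp r (C ∪ G) + G.card) + L * s) :
    (lin r univ : ℝ) ≤ (l.factorial : ℝ) * ((M + 1).factorial : ℝ) *
      ((aa M (d - cp r (C ∪ G) + G.card) / ((cp r (C ∪ G) : ℝ) + 1) +
        (L * G.card) / ((C.card : ℝ) + 1)) / ((M : ℝ) + 1)) := by
  have hN : (0 : ℝ) < (M : ℝ) + 1 := by positivity
  set a := aa M (d - cp r (C ∪ G) + G.card) with ha
  have ha0 : 0 ≤ a := aa_nonneg _ _
  have h1 := pivot_bound r h.piv ((M + 1).factorial : ℝ) (a / ((M : ℝ) + 1)) (L / ((M : ℝ) + 1))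
    (W_nonneg M) (by positivity) (fun T hT => ?_) C (Finset.Subset.refl _) G
    (Finset.Subset.refl _)
  · rw [h.cov, h.hcard] at h1
    refine h1.trans ?_
    have h2 := h.lin_early
    have h3 : a / ((M : ℝ) + 1) * (lin r (C ∪ G) : ℝ) ≤
        a / ((M : ℝ) + 1) * ((l.factorial : ℝ) / ((cp r (C ∪ G) : ℝ) + 1)) :=
      mul_le_mul_of_nonneg_left h2 (by positivity)
    have h4 : ((M + 1).factorial : ℝ) * (a / ((M : ℝ) + 1) * lin r (C ∪ G) +
        L / ((M : ℝ) + 1) * (l.factorial : ℝ) * (G.card / ((C.card : ℝ) + 1))) ≤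
        ((M + 1).factorial : ℝ) * (a / ((M : ℝ) + 1) *
          ((l.factorial : ℝ) / ((cp r (C ∪ G) : ℝ) + 1)) +
        L / ((M : ℝ) + 1) * (l.factorial : ℝ) * (G.card / ((C.card : ℝ) + 1))) :=
      mul_le_mul_of_nonneg_left (by linarith) (W_nonneg M)
    refine h4.trans (le_of_eq ?_)
    have e1 : ((cp r (C ∪ G) : ℝ) + 1) ≠ 0 := by positivity
    have e2 : ((C.card : ℝ) + 1) ≠ 0 := by positivity
    field_simp
  · refine (base_boundF h hIH hc0 T hT).trans ?_
    apply mul_le_mul_of_nonneg_left _ (W_nonneg M)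
    apply mul_le_mul_of_nonneg_left _ (Nat.cast_nonneg _)
    have h5 := hF T.card (Finset.card_le_card hT)
    calc LRP.FF M (d - cp r (C ∪ G) + G.card) T.card / ((M : ℝ) + 1)
        ≤ (a + L * T.card) / ((M : ℝ) + 1) := div_le_div_of_nonneg_right h5 hN.le
      _ = a / ((M : ℝ) + 1) + L / ((M : ℝ) + 1) * T.card := by ring

open scoped Classical in
/-- case (A), `c ≥ 2`, or `g = 0` -/
theorem case_AF (h : CtxF r l M d C G Y) (hIH : IHF l M) (hc0 : cp r (C ∪ G) = 0) :
    (lin r univ : ℝ) ≤ VV (l + 1) M (d + l) := by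
  have hN : (0 : ℝ) < (M : ℝ) + 1 := by positivity
  have hD : d - cp r (C ∪ G) + G.card = d + G.card := by rw [hc0]; omega
  have hg1 := h.hg
  have hc1 := h.hc
  have hdM := h.hdM
  have hgD : G.card ≤ d + G.card := by omega
  have hDM : d + G.card ≤ M := by omega
  have hz := zz_nonneg hDM
  have hez : 1 ≤ Real.exp (zz M (d + G.card)) := Real.one_le_exp hz
  rcases Nat.eq_zero_or_pos G.card with hg0 | hg0
  · -- g = 0
    have h1 := pivot_chordF h hIH (by omega) (Real.exp (zz M (d + G.card))) (by positivity)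
      (fun s hs => by
        rw [hD]
        exact FF_chord M _ G.card s _ hs hgD hDM le_rfl (by
          rw [hg0]
          unfold aa
          push_cast
          simp))
    rw [hD, hc0, hg0] at h1
    refine h1.trans (le_trans (le_of_eq ?_) (VV_ge_star l M (d + l) h.hl (by have := h.hd; omega)))
    unfold aa
    push_cast
    have e1 : ((d : ℝ) + l - l + 1) = (d : ℝ) + 1 := by ring
    rw [e1]
    have e2 : ((d : ℝ) + 1) ≠ 0 := by positivity
    field_simp
    ring
  · have hg0' : (0 : ℝ) < G.card := by exact_mod_cast hg0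
    have hDg : (((d + G.card : ℕ) : ℝ) - G.card + 1) = (d : ℝ) + 1 := by push_cast; ring
    rcases Nat.lt_or_ge C.card 2 with hc2 | hc2
    · -- c = 1
      have hc : C.card = 1 := by omega
      have hcg : 1 + G.card = l := by have := h.hcard; omega
      set t := max (max (((M : ℝ) + 1) / ((d : ℝ) + 1) - aa M (d + G.card)) G.card)
        (2 * phi 2 (zz M (d + G.card)) + ((G.card : ℝ) - 1) * Real.exp (zz M (d + G.card)) -
          aa M (d + G.card)) with ht
      have ht1 : (G.card : ℝ) ≤ t := (le_max_right _ _).trans (le_max_left _ _)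
      have ht2 : ((M : ℝ) + 1) / ((d : ℝ) + 1) - aa M (d + G.card) ≤ t :=
        (le_max_left _ _).trans (le_max_left _ _)
      have ht3 : 2 * phi 2 (zz M (d + G.card)) +
        ((G.card : ℝ) - 1) * Real.exp (zz M (d + G.card)) - aa M (d + G.card) ≤ t :=
        le_max_right _ _
      have htg : t / G.card * G.card = t := div_mul_cancel₀ _ hg0'.ne'
      have h1 := pivot_chordF h hIH (by omega) (t / G.card) (by positivity)
        (fun s hs => by
          rw [hD]
          exact FF_chord2 M _ G.card s _ hs hgD hDM (by rw [one_le_div hg0']; exact ht1)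
            (by rw [hDg, htg]; exact ht2) (by rw [htg]; exact ht3))
      rw [hD, hc0, hc, htg] at h1
      have h2 := num_A1F l M d G.card t h.hd hdM h.hM2 hg0 hcg le_rfl
      refine h1.trans (le_trans (le_of_eq ?_) h2)
      push_cast
      ring
    · -- c ≥ 2
      set t := max (G.card * Real.exp (zz M (d + G.card)))
        (((M : ℝ) + 1) / ((d : ℝ) + 1) - aa M (d + G.card)) with ht
      have ht1 : G.card * Real.exp (zz M (d + G.card)) ≤ t := le_max_left _ _
      have ht2 : ((M : ℝ) + 1) / ((d : ℝ) + 1) - aa M (d + G.card) ≤ t := le_max_right _ _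
      have htg : t / G.card * G.card = t := div_mul_cancel₀ _ hg0'.ne'
      have ht0 : 0 ≤ t := le_trans (by positivity) ht1
      have h1 := pivot_chordF h hIH (by omega) (t / G.card) (by positivity)
        (fun s hs => by
          rw [hD]
          exact FF_chord M _ G.card s _ hs hgD hDM
            (by rw [le_div_iff₀ hg0', mul_comm]; exact ht1)
            (by rw [hDg, htg]; exact ht2))
      rw [hD, hc0, htg] at h1
      have h2 := num_A2 l M d G.card C.card t h.hd hdM hc2 h.hcard le_rfl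
      refine h1.trans (le_trans (le_of_eq ?_) h2)
      push_cast
      ring

open scoped Classical in
/-- case (B), `c0 ≥ 2` -/
theorem case_B2F (h : CtxF r l M d C G Y) (hIH : IHF l M) (hc0 : cp r (C ∪ G) ≤ d)
    (h2 : 2 ≤ cp r (C ∪ G)) : (lin r univ : ℝ) ≤ VV (l + 1) M (d + l) := by
  have hN : (0 : ℝ) < (M : ℝ) + 1 := by positivity
  have hg1 := h.hg
  have hdM := h.hdM
  set c0 := cp r (C ∪ G) with hc0def
  set D := d - c0 + G.card with hD
  have hDM : D ≤ M := by omega
  have hgD : G.card ≤ D := by omega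
  set t := max (((M : ℝ) + 1) / ((d : ℝ) - c0 + 1)) (aa M D + G.card * Real.exp (zz M D)) with ht
  have hcast : ((D : ℝ) - G.card + 1) = (d : ℝ) - c0 + 1 := by
    rw [hD]
    push_cast [Nat.cast_sub hc0]
    ring
  have h1 := pivot_max r h.piv ((M + 1).factorial : ℝ) (t / ((M : ℝ) + 1)) (W_nonneg M)
    (fun T hT => by
      refine (base_boundF h hIH hc0 T hT).trans ?_
      apply mul_le_mul_of_nonneg_left _ (W_nonneg M)
      apply mul_le_mul_of_nonneg_left _ (Nat.cast_nonneg _)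
      apply div_le_div_of_nonneg_right _ hN.le
      have h3 := FF_max M D G.card T.card (Finset.card_le_card hT) hgD hDM
      rw [hcast] at h3
      exact h3)
  rw [h.cov] at h1
  have ht0 : 0 ≤ t := by
    refine le_trans ?_ (le_max_right _ _)
    have := aa_nonneg M D
    positivity
  have h3 := h.lin_early
  have h4 := num_B2 l M d G.card c0 t h.hd hdM hg1 h2 hc0 le_rfl
  refine h1.trans (le_trans ?_ h4)
  have h5 : ((M + 1).factorial : ℝ) * (t / ((M : ℝ) + 1) * lin r (C ∪ G)) ≤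
      ((M + 1).factorial : ℝ) * (t / ((M : ℝ) + 1) * ((l.factorial : ℝ) / ((c0 : ℝ) + 1))) :=
    mul_le_mul_of_nonneg_left (mul_le_mul_of_nonneg_left h3 (by positivity)) (W_nonneg M)
  refine h5.trans (le_of_eq ?_)
  have e1 : ((c0 : ℝ) + 1) ≠ 0 := by positivity
  field_simp

open scoped Classical in
/-- case (B), `c0 = 1` -/
theorem case_B1F (h : CtxF r l M d C G Y) (hIH : IHF l M)
    (h2 : cp r (C ∪ G) = 1) : (lin r univ : ℝ) ≤ VV (l + 1) M (d + l) := by
  have hN : (0 : ℝ) < (M : ℝ) + 1 := by positivity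
  have hg1 := h.hg
  have hc1 := h.hc
  have hdM := h.hdM
  have hd := h.hd
  have hcc := h.hcard
  have hc0 : cp r (C ∪ G) ≤ d := by omega
  have hD : d - cp r (C ∪ G) + G.card = d - 1 + G.card := by rw [h2]
  set D := d - 1 + G.card with hDdef
  have hDM : D ≤ M := by omega
  have hgD : G.card ≤ D := by omega
  have hz := zz_nonneg hDM
  have hez : 1 ≤ Real.exp (zz M D) := Real.one_le_exp hz
  have hcast : ((D : ℝ) - G.card + 1) = (d : ℝ) := by
    rw [hDdef]
    push_cast [Nat.cast_sub hd]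
    ring
  -- a ≤ N / d
  have had : aa M D ≤ ((M : ℝ) + 1) / d := by
    unfold aa
    have hd0 : (0 : ℝ) < d := by exact_mod_cast hd
    apply div_le_div_of_nonneg_left hN.le hd0
    have : (d : ℝ) ≤ ((D + 1 : ℕ) : ℝ) := by
      have : d ≤ D + 1 := by omega
      exact_mod_cast this
    push_cast at this
    exact this
  rcases Nat.lt_or_ge C.card 2 with hc2 | hc2
  · -- c = 1
    have hc : C.card = 1 := by omega
    obtain ⟨x, hx⟩ := Finset.card_eq_one.mp hc
    have hpiv := h.piv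
    rw [hx] at hpiv h2
    obtain ⟨w, hw1, hw2, hw3⟩ := exists_w r h.hirr hpiv h2
    have hg0 : 0 < G.card := Finset.card_pos.mpr ⟨w, hw1⟩
    have hg0' : (0 : ℝ) < G.card := by exact_mod_cast hg0
    set L := max (Real.exp (zz M D)) ((((M : ℝ) + 1) / (d : ℝ) - aa M D) / G.card) with hL
    have hL1 : Real.exp (zz M D) ≤ L := le_max_left _ _
    have hL2 : ((M : ℝ) + 1) / (d : ℝ) - aa M D ≤ L * G.card := by
      have h5 : (((M : ℝ) + 1) / (d : ℝ) - aa M D) / G.card ≤ L := le_max_right _ _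
      rwa [div_le_iff₀ hg0'] at h5
    have h1 := pivot_one r h.hirr hpiv hw2 hw3 ((M + 1).factorial : ℝ)
      (aa M D / ((M : ℝ) + 1)) (L / ((M : ℝ) + 1)) (fun T hT => by
        refine (base_boundF h hIH hc0 T hT).trans ?_
        apply mul_le_mul_of_nonneg_left _ (W_nonneg M)
        apply mul_le_mul_of_nonneg_left _ (Nat.cast_nonneg _)
        rw [hD]
        have h5 := FF_chord M D G.card T.card L (Finset.card_le_card hT) hgD hDM hL1
          (by rw [hcast]; exact hL2)
        calc LRP.FF M D T.card / ((M : ℝ) + 1)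
            ≤ (aa M D + L * T.card) / ((M : ℝ) + 1) := div_le_div_of_nonneg_right h5 hN.le
          _ = aa M D / ((M : ℝ) + 1) + L / ((M : ℝ) + 1) * T.card := by ring)
      G (Finset.Subset.refl _) hw1
    have hcov := h.cov
    rw [hx] at hcov
    rw [hcov] at h1
    have hgl : G.card + 1 = l := by omega
    rw [hgl] at h1
    have h4 := num_B11F l M d G.card hd hdM h.hM1 hg0 (by omega)
    refine h1.trans (le_trans (le_of_eq ?_) h4)
    rw [← hDdef, ← hL]
    ring
  · -- c ≥ 2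
    set t := max (G.card * Real.exp (zz M D)) (((M : ℝ) + 1) / (d : ℝ) - aa M D) with ht
    have ht1 : G.card * Real.exp (zz M D) ≤ t := le_max_left _ _
    have ht2 : ((M : ℝ) + 1) / (d : ℝ) - aa M D ≤ t := le_max_right _ _
    have ht0 : 0 ≤ t := le_trans (by linarith) ht2
    rcases Nat.eq_zero_or_pos G.card with hg0 | hg0
    · have h1 := pivot_chordF h hIH hc0 (Real.exp (zz M D)) (by positivity)
        (fun s hs => by
          rw [hD]
          have hs0 : s = 0 := by omega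
          subst hs0
          unfold LRP.FF aa
          push_cast
          rw [phi_one, one_sub_zz]
          unfold aa
          simp)
      rw [hD, h2, hg0] at h1
      have h4 := num_B1 l M d 0 C.card 0 hd hdM hc2 (by omega) (by
        refine le_trans ?_ (le_max_right _ _)
        have hDD : d - 1 + 0 = D := by omega
        rw [hDD]
        linarith)
      refine h1.trans (le_trans (le_of_eq ?_) h4)
      have hDD : d - 1 + 0 = D := by omega
      rw [hDD]
      push_cast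
      ring
    · have hg0' : (0 : ℝ) < G.card := by exact_mod_cast hg0
      have htg : t / G.card * G.card = t := div_mul_cancel₀ _ hg0'.ne'
      have h1 := pivot_chordF h hIH hc0 (t / G.card) (by positivity)
        (fun s hs => by
          rw [hD]
          exact FF_chord M D G.card s _ hs hgD hDM
            (by rw [le_div_iff₀ hg0', mul_comm]; exact ht1)
            (by rw [hcast, htg]; exact ht2))
      rw [hD, h2, htg] at h1
      have h4 := num_B1 l M d G.card C.card t hd hdM hc2 h.hcard le_rfl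
      refine h1.trans (le_trans (le_of_eq ?_) h4)
      rw [← hDdef]
      push_cast
      ring

open scoped Classical in
theorem case_allF (h : CtxF r l M d C G Y) (hIH : IHF l M) :
    (lin r univ : ℝ) ≤ VV (l + 1) M (d + l) := by
  rcases Nat.lt_or_ge d (cp r (C ∪ G)) with h1 | h1
  · rcases Nat.lt_or_ge (M + 1) (cp r (C ∪ G) + l) with h2 | h2
    · exact case_C2F h h2
    · exact case_C1F h h1 h2
  · rcases Nat.lt_or_ge (cp r (C ∪ G)) 2 with h2 | h2
    · rcases Nat.eq_zero_or_pos (cp r (C ∪ G)) with h3 | h3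
      · exact case_AF h hIH h3
      · exact case_B1F h hIH (by omega)
    · exact case_B2F h hIH h1 h2

end

open scoped Classical in
/-- nested orders with at most `m - 1 = l` minimal points -/
theorem few_minF (l M d : ℕ) (hd : 1 ≤ d) (hdM : d + l ≤ M) (hM1 : l + 2 ≤ M) (hM2 : M ≤ 3 * l + 2)
    (hIH : IHF l M) (r : Fin (M + (l + 1)) → Fin (M + (l + 1)) → Prop) (hirr : ∀ x, ¬ r x x)
    (htr : ∀ a b c, r a b → r b c → r a c) (ht : ∀ x y, tle r x y ∨ tle r y x)
    (hk : cp r univ = l * M + (d + l)) (hmin : (mins r univ).card ≤ l) :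
    ((extSet r).ncard : ℝ) ≤ VV (l + 1) M (d + l) := by
  rw [extSet_ncard r hirr]
  obtain ⟨C, G, Y, h1, h2, h3⟩ := exists_pivot r hirr ht l (by omega) hmin
  have hY : Y.card = M + 1 := by
    have e1 : Disjoint (C ∪ G) Y := Finset.disjoint_union_left.mpr ⟨h1.cy, h1.gy⟩
    have e2 := Finset.card_union_of_disjoint e1
    rw [h2, Finset.card_union_of_disjoint h1.cg, h3, Finset.card_univ, Fintype.card_fin] at e2
    omega
  have hctx : CtxF r l M d C G Y :=
    { hirr := hirr, htr := htr, piv := h1, cov := h2, hcard := h3, hY := hY, hd := hd, hdM := hdM,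
      hM1 := hM1, hM2 := hM2, hk := by rw [hk]; ring }
  exact case_allF hctx hIH


end Pool.Agent.LRQ
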