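import Mathlib
import Pool.Agent.LRQ.M3
import Pool.Agent.LRQ.Z1F
import Pool.Agent.LRQ.FM
import Pool.Agent.LRQ.SQ
import Pool.Agent.LRF.E6
import Pool.Agent.LRT.F3

set_option autoImplicit false

/-!
# LRQ: both bounds for every level `m ≤ M` (`n = M + m`)
-/

namespace Pool.Agent.LRQ

open Finset
open Pool.Agent.MP_f1b527_co
open Pool.Agent.LRE Pool.Agent.LRT
open Pool.Agent.LRP (NN_m NN_M hh_fac)

/-! ### upper bound -/

open scoped Classical in
/-- at least `m` minimal and at least `m` maximal points -/
theorem box_caseF (m M j : ℕ) (B : ℝ) (hm : 1 ≤ m) (hmj : m ≤ j) (hjM : j ≤ M)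
    (hB : ∀ c, m ≤ c → c ≤ M → ((M + m).factorial : ℝ) * NN c ((m - 1) * M + j) ≤ B)
    (r : Fin (M + m) → Fin (M + m) → Prop) (hirr : ∀ x, ¬ r x x)
    (hk : cp r univ = (m - 1) * M + j) (h1 : m ≤ (mins r univ).card)
    (h2 : m ≤ (mins (fun a b => r b a) univ).card) :
    ((extSet r).ncard : ℝ) ≤ B := by
  rw [extSet_ncard r hirr]
  set S : Finset (Fin (M + m)) := univ with hS
  have hScard : S.card = M + m := by rw [hS, card_univ, Fintype.card_fin]
  set u : Multiset ℕ := S.val.map (ups r S) with hu
  set s : Multiset ℕ := u.filter (fun x => 0 < x) with hs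
  have hsum : s.sum = cp r S := by
    rw [← sum_ups r S, ← hu, hs]
    have h3 : (u.filter (fun x => ¬ 0 < x)).sum = 0 := by
      apply Multiset.sum_eq_zero
      intro x hx
      have := Multiset.of_mem_filter hx
      omega
    have h4 := Multiset.filter_add_not (fun x => 0 < x) u
    have h5 := congrArg Multiset.sum h4
    rw [Multiset.sum_add, h3, add_zero] at h5
    exact h5
  have hpos : ∀ x ∈ s, 0 < x := fun x hx => Multiset.of_mem_filter hx
  have hcard : s.card ≤ M := by
    set A : Finset (Fin (M + m)) := S.filter (fun x => 0 < ups r S x) with hA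
    have hsA : s.card = A.card := by
      rw [hs, hu, Multiset.filter_map, Multiset.card_map]
      rfl
    have hdis : Disjoint A (mins (fun a b => r b a) S) := by
      rw [Finset.disjoint_left]
      intro x hx hx2
      rw [hA, Finset.mem_filter] at hx
      obtain ⟨v, hv⟩ := Finset.card_pos.mp hx.2
      rw [Finset.mem_filter] at hv
      exact ((mem_mins (r := fun a b => r b a)).1 hx2).2 v hv.1 hv.2
    have h6 : A.card + (mins (fun a b => r b a) S).card ≤ S.card := by
      rw [← Finset.card_union_of_disjoint hdis]
      exact Finset.card_le_card (Finset.subset_univ _)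
    omega
  have hsup : s.sup ≤ M := by
    rw [Multiset.sup_le]
    intro y hy
    have hy1 := Multiset.mem_of_mem_filter hy
    rw [hu, Multiset.mem_map] at hy1
    obtain ⟨x, hx, rfl⟩ := hy1
    refine (a9_ups_le r hx).trans ?_
    have h7 : (mins r S) ⊆ S := Finset.subset_univ _
    rw [Finset.card_sdiff_of_subset h7]
    omega
  have hsum' : s.sum = (m - 1) * M + j := by rw [hsum, hk]
  have e2 : (m - 1) * (M + 1) = (m - 1) * M + (m - 1) := by ring
  have e3 : m * M = (m - 1) * M + M := by
    obtain ⟨a, rfl⟩ : ∃ a, m = a + 1 := ⟨m - 1, by omega⟩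
    rw [Nat.add_sub_cancel]
    ring
  have hf : (0 : ℝ) < ((M + m).factorial : ℝ) := by exact_mod_cast Nat.factorial_pos _
  have h3 := Box_all m M (B / ((M + m).factorial : ℝ)) s hm (by omega)
    (fun c hc1 hc2 => by
      rw [le_div_iff₀ hf, mul_comm, hsum']
      exact hB c hc1 hc2) hpos hcard hsup (by omega) (by omega)
  have h4 := lin_le_psi r S
  rw [← hu, ← psi_filter_pos u, ← hs, hScard] at h4
  refine h4.trans ?_
  rw [le_div_iff₀ hf, mul_comm] at h3
  exact h3

/-- the three values of `VV` are among the values of the claimed maximum -/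
theorem VV_le (l M j : ℕ) (B : ℝ) (hlM : l + 1 ≤ M) (hj : l + 1 ≤ j) (hjM : j ≤ M)
    (hB : ∀ c, l + 1 ≤ c → c ≤ M → ((M + (l + 1)).factorial : ℝ) * NN c (l * M + j) ≤ B)
    (hst : (l.factorial : ℝ) * ((M + 1).factorial : ℝ) / ((j : ℝ) - l + 1) ≤ B) :
    VV (l + 1) M j ≤ B := by
  have h1 := NN_m (l + 1) M j (by omega) hj hjM
  have h2 := NN_M (l + 1) M j (by omega) hj hjM
  rw [Nat.add_sub_cancel] at h1 h2
  have h3 := hB (l + 1) le_rfl hlM
  have h4 := hB M hlM le_rfl
  rw [h1] at h3
  rw [h2] at h4
  unfold VV
  rw [Nat.add_sub_cancel]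
  apply max_le
  · rw [mul_max_of_nonneg _ _ (by positivity)]
    exact max_le h3 h4
  · have e : (j : ℝ) - ((l + 1 : ℕ) : ℝ) + 2 = (j : ℝ) - l + 1 := by
      push_cast
      ring
    rw [e]
    exact hst

open scoped Classical in
/-- the upper bound on every level `m = l + 1 ≤ M` -/
theorem UB_all (M : ℕ) : ∀ l : ℕ, l + 1 ≤ M → ∀ j, l + 1 ≤ j → j ≤ M → ∀ B : ℝ,
    (∀ c, l + 1 ≤ c → c ≤ M → ((M + (l + 1)).factorial : ℝ) * NN c (l * M + j) ≤ B) →
    ((l.factorial : ℝ) * ((M + 1).factorial : ℝ) / ((j : ℝ) - l + 1) ≤ B) →
    UB (M + (l + 1)) (l * M + j) B := by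
  intro l
  induction l using Nat.strong_induction_on with
  | _ l ih =>
    intro hlM j hj hjM B hB hst
    have hVV := VV_le l M j B hlM hj hjM hB hst
    rcases Nat.eq_zero_or_pos l with h0 | h0
    · subst h0
      refine UB_mono (UB_one (M + 1) j) (by simp) ?_
      refine le_trans (le_of_eq ?_) hst
      simp
    · rcases Nat.lt_or_ge M (3 * (l + 1)) with h3 | h3
      · rcases Nat.lt_or_ge M (l + 2) with h4 | h4
        · -- `M = l + 1`
          have hM : M = l + 1 := by omega
          have hjM' : j = M := by omega
          subst hjM'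
          have e : l * j + j = j * j := by
            nth_rewrite 3 [hM]
            ring
          have h5 := UB_square j (by omega)
          have h6 : ((j.factorial : ℝ) * (j.factorial : ℝ)) ≤ B := by
            have h7 := hB j hj le_rfl
            have h8 := hh_fac j j
            rw [e, ← hM] at h7
            rw [← h8]
            refine le_trans ?_ h7
            exact mul_le_mul_of_nonneg_left (NN_ge_rect j j (j * j) (by omega) le_rfl)
              (Nat.cast_nonneg _)
          rw [e, ← hM]
          exact UB_mono h5 le_rfl h6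
        · have hIH : IHF l M := by
            intro s D hs1 hsl hsD hDM
            apply ih s hsl (by omega) D hsD hDM
            · intro c hc1 hc2
              exact FM1 s M D c hs1 hsD hDM hc1 hc2
            · rw [mul_div_assoc, mul_assoc]
              apply mul_le_mul_of_nonneg_left _ (Nat.cast_nonneg _)
              have hDs : (0 : ℝ) < (D : ℝ) - s + 1 := by
                have : (s : ℝ) + 1 ≤ D := by exact_mod_cast hsD
                linarith
              have hFF : ((M : ℝ) + 1) / ((D : ℝ) - s + 1) ≤ LRP.FF M D s := le_max_left _ _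
              have hM0 : (0 : ℝ) < (M : ℝ) + 1 := by positivity
              rw [div_eq_mul_one_div]
              apply mul_le_mul_of_nonneg_left _ (Nat.cast_nonneg _)
              rw [le_div_iff₀ hM0]
              refine le_trans (le_of_eq ?_) hFF
              ring
          apply UB_of_nested
          intro r hirr htr ht hk
          obtain ⟨d, rfl⟩ : ∃ d, j = d + l := ⟨j - l, by omega⟩
          rcases Nat.lt_or_ge l (mins r univ).card with h1 | h1
          · rcases Nat.lt_or_ge l (mins (fun a b => r b a) univ).card with h2 | h2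
            · exact box_caseF (l + 1) M (d + l) B (by omega) hj hjM
                (by rw [Nat.add_sub_cancel]; exact hB) r hirr
                (by rw [Nat.add_sub_cancel]; exact hk) h1 h2
            · obtain ⟨d1, d2, -⟩ := dual_facts r
              have g1 : ∀ x, ¬ (fun a b => r b a) x x := hirr
              have g2 : ∀ a b c, (fun a b => r b a) a b → (fun a b => r b a) b c →
                  (fun a b => r b a) a c := fun a b c hab hbc => htr c b a hbc hab
              have g3 : ∀ x y, tle (fun a b => r b a) x y ∨ tle (fun a b => r b a) y x := by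
                intro x y
                rcases ht x y with h | h
                · right
                  exact ⟨fun z hz => h.2 z hz, fun z hz => h.1 z hz⟩
                · left
                  exact ⟨fun z hz => h.2 z hz, fun z hz => h.1 z hz⟩
              have h5 := few_minF l M d (by omega) (by omega) h4 (by omega) hIH
                (fun a b => r b a) g1 g2 g3 (by rw [← hk, ← d2]) h2
              rw [d1] at h5
              exact h5.trans hVV
          · exact (few_minF l M d (by omega) (by omega) h4 (by omega) hIH r hirr htr ht hk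
              h1).trans hVV
      · have hBox : LRP.Box := fun m M s hm hM hp hc hs h1 h2 =>
          Pool.Agent.LRF.box3 m M s hm hM hp hc hs h1 h2
        exact UB_mono (LRP.upper_thin hBox M l h3 j hj hjM) le_rfl hVV

/-! ### the values occur -/

theorem psi_range_ext (g : ℕ → ℕ) (a b : ℕ) (hab : a ≤ b) (hg : ∀ i, a ≤ i → g i = 0) :
    psi ((Multiset.range b).map g) = psi ((Multiset.range a).map g) := by
  obtain ⟨x, rfl⟩ : ∃ x, b = a + x := ⟨b - a, by omega⟩
  have h2 : (Multiset.range (a + x)).map g =
      Multiset.replicate x 0 + (Multiset.range a).map g := by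
    rw [Multiset.range_add, Multiset.map_add, Multiset.map_map, add_comm]
    congr 1
    rw [Multiset.map_congr rfl (g := fun _ => (0 : ℕ))
      (fun i _ => show (g ∘ fun y => a + y) i = 0 from hg _ (Nat.le_add_right a i)),
      Multiset.map_const', Multiset.card_range]
  rw [h2, psi_replicate_zero_add]

open scoped Classical in
/-- near-rectangles as orders -/
theorem exists_NN (m M k c : ℕ) (hc1 : m ≤ c) (hc0 : 1 ≤ c) (hcM : c ≤ M) (hk : k ≤ m * M) :
    ∃ r : Fin (M + m) → Fin (M + m) → Prop, (∀ x, ¬ r x x) ∧
      (∀ a b c, r a b → r b c → r a c) ∧ cp r univ = k ∧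
      ((extSet r).ncard : ℝ) = ((M + m).factorial : ℝ) * NN c k := by
  set q := k / c with hq
  set ρ := k % c with hρ
  have hdm : c * q + ρ = k := Nat.div_add_mod k c
  have hρc : ρ < c := Nat.mod_lt _ hc0
  obtain ⟨t, ht⟩ : ∃ t, M + m = c + t := ⟨M + m - c, by omega⟩
  have hkt : k ≤ c * t := by
    refine hk.trans ?_
    obtain ⟨x, rfl⟩ : ∃ x, c = m + x := ⟨c - m, by omega⟩
    obtain ⟨y, rfl⟩ : ∃ y, M = m + x + y := ⟨M - (m + x), by omega⟩
    have ht' : t = m + y := by omega
    subst ht'
    nlinarith [Nat.zero_le (x * y)]
  set f : ℕ → ℕ := fun i => if i < q then c else if i = q then ρ else 0 with hf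
  have hanti : Antitone f := by
    intro a b hab
    simp only [hf]
    split_ifs <;> omega
  have hfc : ∀ i, f i ≤ c := by
    intro i
    simp only [hf]
    split_ifs <;> omega
  have hf0 : ∀ i, q + 1 ≤ i → f i = 0 := by
    intro i hi
    simp only [hf]
    rw [if_neg (by omega), if_neg (by omega)]
  have hsplit : (Multiset.range (q + 1)).map f = Multiset.replicate q c + {ρ} := by
    rw [Multiset.range_succ, Multiset.map_cons, ← Multiset.singleton_add, add_comm]
    congr 1
    · rw [Multiset.map_congr rfl (g := fun _ => c) (fun i hi => by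
        simp only [hf]
        rw [if_pos (Multiset.mem_range.1 hi)]), Multiset.map_const', Multiset.card_range]
    · simp only [hf]
      rw [if_neg (lt_irrefl _), if_true]
  have hpsi : psi ((Multiset.range t).map f) = NN c k ∧ ∑ i ∈ range t, f i = k := by
    rcases Nat.lt_or_ge q t with h | h
    · constructor
      · rw [psi_range_ext f (q + 1) t (by omega) hf0, hsplit]
        rfl
      · have h1 : ∑ i ∈ range t, f i = ∑ i ∈ range (q + 1), f i := by
          symm
          apply Finset.sum_subset
          · intro i hi
            rw [Finset.mem_range] at hi ⊢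
            omega
          · intro i _ hi
            rw [Finset.mem_range] at hi
            exact hf0 i (by omega)
        rw [h1]
        show ((Multiset.range (q + 1)).map f).sum = k
        rw [hsplit, Multiset.sum_add, Multiset.sum_replicate, Multiset.sum_singleton, smul_eq_mul,
          ← hdm, mul_comm]
    · have hqt : q = t ∧ ρ = 0 := by
        have h1 : c * q + ρ ≤ c * t := by omega
        have h2 : q ≤ t := by
          by_contra hcon
          have h3 : c * (t + 1) ≤ c * q := Nat.mul_le_mul_left c (by omega)
          have h4 : c * (t + 1) = c * t + c := by ring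
          omega
        have h5 : q = t := by omega
        rw [h5] at h1
        exact ⟨h5, by omega⟩
      obtain ⟨h1, h2⟩ := hqt
      have hf1 : ∀ i, t ≤ i → f i = 0 := by
        intro i hi
        simp only [hf]
        rw [if_neg (by omega)]
        split_ifs <;> omega
      constructor
      · rw [← psi_range_ext f t (t + 1) (by omega) hf1, ← h1, hsplit]
        rfl
      · have h3 : ∑ i ∈ range t, f i = ∑ i ∈ range (t + 1), f i := by
          rw [Finset.sum_range_succ, hf1 t le_rfl, add_zero]
        rw [h3, ← h1]
        show ((Multiset.range (q + 1)).map f).sum = k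
        rw [hsplit, Multiset.sum_add, Multiset.sum_replicate, Multiset.sum_singleton, smul_eq_mul,
          ← hdm, mul_comm]
  obtain ⟨r, r1, r2, r3, r4⟩ := exists_two_level t c f hanti hfc
  rw [hpsi.1] at r4
  rw [hpsi.2] at r3
  clear hpsi hsplit hf0 hfc hanti hf f
  revert r
  rw [← ht]
  intro r r1 r2 r3 r4
  exact ⟨r, r1, r2, r3, r4⟩

end Pool.Agent.LRQ
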